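import Pool.Agent.Lib.HUP.Defs
import Pool.Agent.Lib.H24P.X1A
import Pool.Agent.Lib.H24P.X1B

/-!
# Project HUP, module R (the modules of H24P for an abstract family), R10: twisted means, a random coordinate is twisted
-/

open Finset Polynomial

namespace Pool.Agent.HUP

open Pool.Agent.Lib.H68T Pool.Agent.Lib.H18Q Pool.Agent.Lib.H59P Pool.Agent.Lib.H24P

/-- **R10** (port of `X1A_main`, H24P/X1A.lean). Proof. As there, but `FGood` needs a range of length `H ≥ r^E`: by periodicity modulo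
`r` the mean over `range r` is the mean over `range (r^(E+1))` (`x1b_mean` in H24P/X1B.lean). -/
theorem R10_main (k A E : ℕ) (hA : 1 ≤ A) (Cc cc : ℝ) (hC : FPar Cc cc) : ∃ C c : ℝ, 1 ≤ C ∧ 0 < c ∧ c ≤ 1 ∧
    ∀ B : ℤ[X], Lin A B → ∀ P : Fin k → ℤ[X], Pol A P → ∀ (Q : ℕ) (px : Ch), px ∈ PC Q → 2 ≤ px.1 →
    ∀ Bs : Finset (Fin (k + 1)), (∃ i : Fin k, i.succ ∈ Bs) →
    ∀ (ι : Type) (S : Finset ι) (g : ι → Fin k → ℕ), FGood E Cc cc Q P S g →
    ∑ x ∈ S, ‖MRf (pB px Bs) px.1 (sys B P (g x))‖ ^ 2 ≤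
      C * (1 + Real.log px.1) ^ C * S.card * (px.1 : ℝ) ^ (-c) := by
  classical
  obtain ⟨hCc1, hcc0, hcc1⟩ := hC
  refine ⟨8 * Cc + 2, cc, by linarith, hcc0, hcc1, ?_⟩
  intro B _hB P _hP Q px hpx hr2 Bs hBs ι S g hG
  obtain ⟨hr1, hrQ, hprim⟩ := mem_PC.1 hpx
  obtain ⟨i0, hi0⟩ := hBs
  set r := px.1 with hr
  set Bs' : Finset (Fin k) := univ.filter (fun i : Fin k => i.succ ∈ Bs) with hBs'
  have hmem : ∀ i : Fin k, i ∈ Bs' ↔ i.succ ∈ Bs := by
    intro i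
    rw [hBs', Finset.mem_filter]
    exact ⟨fun h => h.2, fun h => ⟨Finset.mem_univ _, h⟩⟩
  have hpB : ∀ i : Fin k, pB px Bs i.succ = pB px Bs' i := by
    intro i
    unfold pB
    by_cases hi : i.succ ∈ Bs
    · rw [if_pos hi, if_pos ((hmem i).2 hi)]
    · rw [if_neg hi, if_neg (fun h => hi ((hmem i).1 h))]
  have hrR : (2 : ℝ) ≤ r := by exact_mod_cast hr2
  have hr0 : (0 : ℝ) < r := by linarith
  have hlog : 0 ≤ Real.log r := Real.log_natCast_nonneg r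
  have hL1 : 1 ≤ 1 + Real.log r := by linarith
  have hv : (0 : ℝ) ≤ S.card := Nat.cast_nonneg _
  set H : ℕ := r ^ E * r with hH
  have hH0 : 0 < H := by positivity
  have hHR : (0 : ℝ) < H := by exact_mod_cast hH0
  have hHE : r ^ E ≤ H := by
    rw [hH]
    exact Nat.le_mul_of_pos_right _ hr1
  set w : ℕ → ℂ := fun n => cj (pB px Bs 0) (B.eval (n : ℤ)) * ((uu r.primeFactors (B.eval (n : ℤ)) : ℝ) : ℂ)
    with hw
  have hwn : ∀ n, ‖w n‖ ≤ 2 * (1 + Real.log r) := by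
    intro n
    rw [hw]
    simp only
    rw [norm_mul, Complex.norm_real, Real.norm_eq_abs, abs_of_nonneg (M3a_uu r hr1 _).1]
    calc _ ≤ 1 * ((r : ℝ) / (Nat.totient r : ℝ)) :=
          mul_le_mul (x1_cj_norm _ _) (M3a_uu r hr1 _).2 (M3a_uu r hr1 _).1 zero_le_one
      _ = (r : ℝ) / (Nat.totient r : ℝ) := one_mul _
      _ ≤ _ := M3b r hr1
  have hsum : ∀ h : Fin k → ℕ, MRf (pB px Bs) r (sys B P h) = (∑ n ∈ Ico 0 (0 + H), w n *
      ∑ κ ∈ KT px Bs', ∏ i, gk (pB px Bs' i) (κ i) ((P i).eval (n : ℤ) + h i)) / H := by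
    intro h
    have hm := x1b_mean (fun n => Phf (pB px Bs) r.primeFactors
      (at' (sys B P h) n)) r (r ^ E) (fun n => P2_Ph (sys B P h) (P2_sys B P h) _ r r dvd_rfl (by
        intro i
        unfold pB
        split_ifs
        · exact dvd_rfl
        · exact one_dvd _) n)
    have hrC : (r : ℂ) ≠ 0 := by exact_mod_cast (show r ≠ 0 by omega)
    have hMR : MRf (pB px Bs) r (sys B P h) = (∑ n ∈ range H, Phf (pB px Bs) r.primeFactors
        (at' (sys B P h) (n : ℤ))) / H := by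
      rw [hH, hm]
      unfold MRf
      push_cast
      field_simp
    rw [hMR, zero_add, Nat.Ico_zero_eq_range]
    congr 1
    refine Finset.sum_congr rfl fun n _ => ?_
    rw [← X1A_expand Q px hpx Bs' (fun i => (P i).eval (n : ℤ) + h i)]
    unfold Phf at'
    rw [Fin.prod_univ_succ]
    have e0 : sys B P h 0 (n : ℤ) = B.eval (n : ℤ) := rfl
    have e1 : ∀ i : Fin k, sys B P h i.succ (n : ℤ) = (P i).eval (n : ℤ) + h i := fun i => rfl
    rw [e0]
    congr 1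
    refine Finset.prod_congr rfl fun i _ => ?_
    rw [e1, hpB i]
  have hsub := X1A_sub Q px hpx Bs'
  have hlcm : ∀ κ ∈ KT px Bs', r - 1 < univ.lcm (fun i => (pB px Bs' i).1 * κ i) := by
    intro κ hκ
    have hκ' := Fintype.mem_piFinset.1 (hsub.1 hκ)
    have hpos : ∀ i, (pB px Bs' i).1 * κ i ≠ 0 := by
      intro i
      have h1 := f_q_le (hsub.2 i) (hκ' i)
      exact (Nat.one_le_iff_ne_zero).1 h1.1
    have hκ0 : κ i0 = 1 := by
      unfold KT at hκ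
      have h1 := Fintype.mem_piFinset.1 hκ i0
      rw [if_pos ((hmem i0).2 hi0), Finset.mem_singleton] at h1
      exact h1
    have hp0 : pB px Bs' i0 = px := by
      unfold pB
      rw [if_pos ((hmem i0).2 hi0)]
    have hdvd : r ∣ univ.lcm (fun i => (pB px Bs' i).1 * κ i) := by
      have h1 : (pB px Bs' i0).1 * κ i0 ∣ univ.lcm (fun i => (pB px Bs' i).1 * κ i) :=
        Finset.dvd_lcm (f := fun i => (pB px Bs' i).1 * κ i) (Finset.mem_univ i0)
      rw [hκ0, mul_one, hp0] at h1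
      exact h1
    have hne : univ.lcm (fun i => (pB px Bs' i).1 * κ i) ≠ 0 := by
      rw [Ne, Finset.lcm_eq_zero_iff]
      rintro ⟨i, _, hi⟩
      exact hpos i hi
    have := Nat.le_of_dvd (Nat.pos_of_ne_zero hne) hdvd
    omega
  have hmain := hG r hr1 hrQ (pB px Bs') hsub.2 (KT px Bs') hsub.1 (r - 1) (by omega) hlcm 0 H hHE w
  have hD : (((r - 1 : ℕ) : ℝ)) ^ (-cc) ≤ 2 * (r : ℝ) ^ (-cc) := by
    have h1 : (((r - 1 : ℕ) : ℝ)) = (r : ℝ) - 1 := by
      rw [Nat.cast_sub hr1, Nat.cast_one]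
    rw [h1]
    have h2 : (r : ℝ) / 2 ≤ (r : ℝ) - 1 := by linarith
    have h3 : ((r : ℝ) - 1) ^ (-cc) ≤ ((r : ℝ) / 2) ^ (-cc) :=
      Real.rpow_le_rpow_of_nonpos (by positivity) h2 (by linarith)
    refine h3.trans ?_
    rw [Real.div_rpow hr0.le (by norm_num), div_eq_mul_inv, mul_comm, ← Real.rpow_neg (by norm_num), neg_neg]
    have h4 : (2 : ℝ) ^ cc ≤ 2 := by
      calc (2 : ℝ) ^ cc ≤ 2 ^ (1 : ℝ) := Real.rpow_le_rpow_of_exponent_le (by norm_num) hcc1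
        _ = 2 := Real.rpow_one _
    exact mul_le_mul_of_nonneg_right h4 (by positivity)
  have hW : ∑ n ∈ Ico 0 (0 + H), ‖w n‖ ^ 2 ≤ H * (4 * (1 + Real.log r) ^ 2) := by
    calc ∑ n ∈ Ico 0 (0 + H), ‖w n‖ ^ 2 ≤ ∑ _n ∈ Ico 0 (0 + H), 4 * (1 + Real.log r) ^ 2 := by
          refine Finset.sum_le_sum fun n _ => ?_
          have h1 := pow_le_pow_left₀ (norm_nonneg _) (hwn n) 2
          calc ‖w n‖ ^ 2 ≤ (2 * (1 + Real.log r)) ^ 2 := h1
            _ = _ := by ring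
      _ = _ := by
          rw [Finset.sum_const, Nat.card_Ico, nsmul_eq_mul, zero_add, Nat.sub_zero]
  have hnorm : ∀ x ∈ S, ‖MRf (pB px Bs) r (sys B P (g x))‖ ^ 2 = (1 / (H : ℝ) ^ 2) *
      ‖∑ n ∈ Ico 0 (0 + H), w n *
      ∑ κ ∈ KT px Bs', ∏ i, gk (pB px Bs' i) (κ i) ((P i).eval (n : ℤ) + g x i)‖ ^ 2 := by
    intro x _
    rw [hsum (g x), norm_div, Complex.norm_natCast, div_pow]
    ring
  rw [Finset.sum_congr rfl hnorm, ← Finset.mul_sum]
  have hpowL : (1 + Real.log r) ^ Cc * (1 + Real.log r) ^ 2 ≤ (1 + Real.log r) ^ (8 * Cc + 2) := by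
    rw [← Real.rpow_natCast (1 + Real.log r) 2, ← Real.rpow_add (by linarith)]
    refine Real.rpow_le_rpow_of_exponent_le hL1 ?_
    push_cast
    linarith
  have hP0 : 0 ≤ (1 + Real.log r) ^ Cc := Real.rpow_nonneg (by linarith) _
  have hrc : 0 ≤ (r : ℝ) ^ (-cc) := Real.rpow_nonneg hr0.le _
  have hD0 : 0 ≤ (((r - 1 : ℕ) : ℝ)) ^ (-cc) := Real.rpow_nonneg (Nat.cast_nonneg _) _
  calc (1 / (H : ℝ) ^ 2) * ∑ x ∈ S, ‖∑ n ∈ Ico 0 (0 + H), w n *
        ∑ κ ∈ KT px Bs', ∏ i, gk (pB px Bs' i) (κ i) ((P i).eval (n : ℤ) + g x i)‖ ^ 2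
      ≤ (1 / (H : ℝ) ^ 2) * (Cc * (1 + Real.log r) ^ Cc * S.card * (H * ∑ n ∈ Ico 0 (0 + H), ‖w n‖ ^ 2) *
        (((r - 1 : ℕ) : ℝ)) ^ (-cc)) := mul_le_mul_of_nonneg_left hmain (by positivity)
    _ ≤ (1 / (H : ℝ) ^ 2) * (Cc * (1 + Real.log r) ^ Cc * S.card * (H * (H * (4 * (1 + Real.log r) ^ 2))) *
        (2 * (r : ℝ) ^ (-cc))) := by
        refine mul_le_mul_of_nonneg_left ?_ (by positivity)
        refine mul_le_mul ?_ hD hD0 (by positivity)
        refine mul_le_mul_of_nonneg_left ?_ (by positivity)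
        exact mul_le_mul_of_nonneg_left hW hHR.le
    _ = 8 * Cc * ((1 + Real.log r) ^ Cc * (1 + Real.log r) ^ 2) * S.card * (r : ℝ) ^ (-cc) := by
        field_simp
        ring
    _ ≤ (8 * Cc + 2) * (1 + Real.log r) ^ (8 * Cc + 2) * S.card * (r : ℝ) ^ (-cc) := by
        refine mul_le_mul_of_nonneg_right ?_ hrc
        refine mul_le_mul_of_nonneg_right ?_ hv
        exact mul_le_mul (by linarith) hpowL (by positivity) (by linarith)

end Pool.Agent.HUP
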