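import Pool.Agent.Lib.HUP.Defs
import Pool.Agent.Lib.H24P.X1B

/-!
# Project HUP, module R (the modules of H24P for an abstract family), R11: twisted means, only the linear coordinate is twisted
-/

open Finset Polynomial

namespace Pool.Agent.HUP

open Pool.Agent.Lib.H68T Pool.Agent.Lib.H18Q Pool.Agent.Lib.H59P Pool.Agent.Lib.H24P

/-- **R11** (port of `X1B_main`, H24P/X1B.lean). Proof. As there with `H = r^(E+5)`, `FGood` instead of `Fgen`, `x1b_small`,
`x1b_exp` unchanged. -/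
theorem R11_main (k A E : ℕ) (hA : 1 ≤ A) (Cc cc : ℝ) (hC : FPar Cc cc) : ∃ C c : ℝ, 1 ≤ C ∧ 0 < c ∧ c ≤ 1 ∧
    ∀ B : ℤ[X], Lin A B → ∀ P : Fin k → ℤ[X], Pol A P → ∀ (Q : ℕ) (px : Ch), px ∈ PC Q → 2 ≤ px.1 →
    ∀ (ι : Type) (S : Finset ι) (g : ι → Fin k → ℕ), FGood E Cc cc Q P S g →
    ∑ x ∈ S, ‖MRf (pB px ({0} : Finset (Fin (k + 1)))) px.1 (sys B P (g x))‖ ^ 2 ≤
      C * (1 + Real.log px.1) ^ C * S.card * (px.1 : ℝ) ^ (-c) := by
  classical
  obtain ⟨hCc1, hcc0, hcc1⟩ := hC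
  set x : ℝ := 1 / (2 * k + 2) with hx
  have hk0 : (0 : ℝ) ≤ k := Nat.cast_nonneg _
  have hx0 : 0 < x := by positivity
  have hx1 : x ≤ 1 / 2 := by
    rw [hx]
    exact one_div_le_one_div_of_le (by norm_num) (by linarith)
  have hA1 : (1 : ℝ) ≤ A := by exact_mod_cast hA
  have h4k : (1 : ℝ) ≤ 4 ^ (k + 1) := one_le_pow₀ (by norm_num)
  set c : ℝ := cc * x with hc
  have hc0 : 0 < c := mul_pos hcc0 hx0
  have hc1 : c ≤ 1 := by
    calc cc * x ≤ 1 * 1 := mul_le_mul hcc1 (by linarith) hx0.le zero_le_one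
      _ = 1 := one_mul 1
  set C : ℝ := 16 * Cc + 8 + 4 ^ (k + 1) * A ^ 2 + 2 * k with hCd
  have hbig : 0 ≤ (4 : ℝ) ^ (k + 1) * A ^ 2 := by positivity
  refine ⟨C, c, by linarith, hc0, hc1, ?_⟩
  intro B hB P hP Q px hpx hr2 ι S g hG
  obtain ⟨hr1, hrQ, hprim⟩ := mem_PC.1 hpx
  set r := px.1 with hr
  have hrR : (2 : ℝ) ≤ r := by exact_mod_cast hr2
  have hr0 : (0 : ℝ) < r := by linarith
  have hrge1 : (1 : ℝ) ≤ r := by linarith
  have hlog : 0 ≤ Real.log r := Real.log_natCast_nonneg r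
  have hL1 : 1 ≤ 1 + Real.log r := by linarith
  have hv : (0 : ℝ) ≤ S.card := Nat.cast_nonneg _
  have hrc : 0 < (r : ℝ) ^ (-c) := Real.rpow_pos_of_pos hr0 _
  have hLC0 : 0 ≤ (1 + Real.log r) ^ C := Real.rpow_nonneg (by linarith) _
  have hCpos : 0 < C := by linarith
  set D : ℕ := fl r x with hD
  obtain ⟨hD1, hD2, -⟩ := G1_one (Q := r) hr1 hx0.le
  rw [← hD] at hD1 hD2
  by_cases hcase : r ≤ A * D
  · -- r is bounded
    have hrA : (r : ℝ) ≤ (A : ℝ) ^ 2 := by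
      have h1 : (r : ℝ) ≤ A * D := by exact_mod_cast hcase
      have h2 : (D : ℝ) ≤ (r : ℝ) ^ (1 / 2 : ℝ) :=
        hD2.trans (Real.rpow_le_rpow_of_exponent_le hrge1 hx1)
      have h3 : (r : ℝ) ≤ A * (r : ℝ) ^ (1 / 2 : ℝ) :=
        h1.trans (mul_le_mul_of_nonneg_left h2 (by linarith))
      have h4 : (r : ℝ) ^ (1 / 2 : ℝ) * (r : ℝ) ^ (1 / 2 : ℝ) = r := by
        rw [← Real.rpow_add hr0]
        norm_num
      have h5 : 0 < (r : ℝ) ^ (1 / 2 : ℝ) := Real.rpow_pos_of_pos hr0 _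
      have h6 : (r : ℝ) ^ (1 / 2 : ℝ) ≤ A := by
        by_contra h7
        push Not at h7
        have := mul_lt_mul_of_pos_right h7 h5
        rw [h4] at this
        linarith
      calc (r : ℝ) = (r : ℝ) ^ (1 / 2 : ℝ) * (r : ℝ) ^ (1 / 2 : ℝ) := h4.symm
        _ ≤ A * A := mul_le_mul h6 h6 h5.le (by linarith)
        _ = (A : ℝ) ^ 2 := (sq _).symm
    have hone : ∀ h ∈ S, ‖MRf (pB px ({0} : Finset (Fin (k + 1)))) r (sys B P (g h))‖ ^ 2 ≤
        4 ^ (k + 1) * (1 + Real.log r) ^ C := by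
      intro h _
      have h1 := P0_MR (pB px ({0} : Finset (Fin (k + 1)))) r hr1 (sys B P (g h))
      have h2 : ((r : ℝ) / (Nat.totient r : ℝ)) ^ (k + 1) ≤ (2 * (1 + Real.log r)) ^ (k + 1) :=
        pow_le_pow_left₀ (by positivity) (M3b r hr1) _
      have h3 := pow_le_pow_left₀ (norm_nonneg _) (h1.trans h2) 2
      refine h3.trans ?_
      have h4 : ((2 * (1 + Real.log r)) ^ (k + 1)) ^ 2 =
          4 ^ (k + 1) * (1 + Real.log r) ^ ((2 * k + 2 : ℕ) : ℝ) := by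
        rw [Real.rpow_natCast]
        exact x1b_pow k _
      rw [h4]
      refine mul_le_mul_of_nonneg_left ?_ (by positivity)
      refine Real.rpow_le_rpow_of_exponent_le hL1 ?_
      push_cast
      linarith
    refine (Finset.sum_le_sum hone).trans ?_
    rw [Finset.sum_const, nsmul_eq_mul]
    have h5 : 1 ≤ (A : ℝ) ^ 2 * (r : ℝ) ^ (-c) := by
      have h6 : (r : ℝ) ^ (-(1 : ℝ)) ≤ (r : ℝ) ^ (-c) :=
        Real.rpow_le_rpow_of_exponent_le hrge1 (by linarith)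
      rw [Real.rpow_neg_one] at h6
      calc (1 : ℝ) = r * (r : ℝ)⁻¹ := (mul_inv_cancel₀ hr0.ne').symm
        _ ≤ (A : ℝ) ^ 2 * (r : ℝ) ^ (-c) := mul_le_mul hrA h6 (by positivity) (by positivity)
    calc S.card * (4 ^ (k + 1) * (1 + Real.log r) ^ C)
        = 4 ^ (k + 1) * (1 + Real.log r) ^ C * S.card * 1 := by ring
      _ ≤ 4 ^ (k + 1) * (1 + Real.log r) ^ C * S.card * ((A : ℝ) ^ 2 * (r : ℝ) ^ (-c)) :=
          mul_le_mul_of_nonneg_left h5 (by positivity)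
      _ = (4 ^ (k + 1) * A ^ 2) * ((1 + Real.log r) ^ C * S.card * (r : ℝ) ^ (-c)) := by ring
      _ ≤ C * ((1 + Real.log r) ^ C * S.card * (r : ℝ) ^ (-c)) := by
          refine mul_le_mul_of_nonneg_right ?_ (by positivity)
          rw [hCd]
          linarith
      _ = C * (1 + Real.log r) ^ C * S.card * (r : ℝ) ^ (-c) := by ring
  · -- the main case
    push Not at hcase
    have hnd : ∀ N : ℕ, 0 < N → N ≤ D → ¬ (r : ℤ) ∣ B.leadingCoeff * N := by
      intro N hN hND hdv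
      have h1 : r ∣ (B.leadingCoeff * (N : ℤ)).natAbs := Int.natCast_dvd.1 hdv
      rw [Int.natAbs_mul, Int.natAbs_natCast] at h1
      have hlc : 0 < B.leadingCoeff.natAbs := by
        rw [Int.natAbs_pos, Ne, leadingCoeff_eq_zero]
        intro h3
        have h4 := hB.deg
        rw [h3, natDegree_zero] at h4
        omega
      have h2 := Nat.le_of_dvd (Nat.mul_pos hlc hN) h1
      have h3 : B.leadingCoeff.natAbs * N ≤ A * D := Nat.mul_le_mul hB.lc hND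
      omega
    have hsub := X1A_sub Q px hpx (∅ : Finset (Fin k))
    have hpxr : px ∈ PC r := mem_PC.2 ⟨hr1, le_rfl, hprim⟩
    set p := pB px (∅ : Finset (Fin k)) with hp
    set T1 := (KT px (∅ : Finset (Fin k))).filter (fun κ => univ.lcm (fun i => (p i).1 * κ i) ≤ D) with hT1
    set T2 := (KT px (∅ : Finset (Fin k))).filter (fun κ => ¬ univ.lcm (fun i => (p i).1 * κ i) ≤ D) with hT2
    set w : ℕ → ℂ := fun n => gk px 1 (B.eval (n : ℤ)) with hw
    set M : ℕ := r ^ (E + 4) with hM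
    set H : ℕ := M * r with hH
    have hH0n : 0 < H := by rw [hH, hM]; positivity
    have hH0 : (0 : ℝ) < H := by exact_mod_cast hH0n
    have hHE : r ^ E ≤ H := by
      rw [hH, hM, ← pow_succ]
      exact Nat.pow_le_pow_right hr1 (by omega)
    have hHr : (r : ℝ) ^ 5 ≤ H := by
      have h5 : r ^ 5 ≤ H := by
        rw [hH, hM, ← pow_succ]
        exact Nat.pow_le_pow_right hr1 (by omega)
      exact_mod_cast h5
    have hwn : ∀ n, ‖w n‖ ≤ 2 * (1 + Real.log r) := by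
      intro n
      have e4 : cj px (B.eval (n : ℤ)) * ((uu px.1.primeFactors (B.eval (n : ℤ)) : ℝ) : ℂ) =
          gk px 1 (B.eval (n : ℤ)) := by
        rw [← B1_SD px.1 hr1 px dvd_rfl (B.eval (n : ℤ)), x1a_SD1 px.1 hr1, Finset.sum_singleton]
      rw [hw]
      beta_reduce
      rw [← e4, norm_mul, Complex.norm_real, Real.norm_eq_abs, abs_of_nonneg (M3a_uu r hr1 _).1]
      calc _ ≤ 1 * ((r : ℝ) / (Nat.totient r : ℝ)) :=
            mul_le_mul (x1_cj_norm _ _) (M3a_uu r hr1 _).2 (M3a_uu r hr1 _).1 zero_le_one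
        _ = (r : ℝ) / (Nat.totient r : ℝ) := one_mul _
        _ ≤ _ := M3b r hr1
    have hsum : ∀ h : Fin k → ℕ, (H : ℂ) * MRf (pB px ({0} : Finset (Fin (k + 1)))) r (sys B P h) =
        ∑ n ∈ Ico 0 (0 + H), w n * ∑ κ ∈ T1, ∏ i, gk (p i) (κ i) ((P i).eval (n : ℤ) + h i) +
        ∑ n ∈ Ico 0 (0 + H), w n * ∑ κ ∈ T2, ∏ i, gk (p i) (κ i) ((P i).eval (n : ℤ) + h i) := by
      intro h
      have hr0c : (r : ℂ) ≠ 0 := by exact_mod_cast hr0.ne'
      have h1 := x1b_mean (fun n => Phf (pB px ({0} : Finset (Fin (k + 1)))) r.primeFactors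
        (at' (sys B P h) n)) r M (fun n => P2_Ph (sys B P h) (P2_sys B P h) _ r r dvd_rfl (by
          intro i
          unfold pB
          split_ifs
          · exact dvd_rfl
          · exact one_dvd _) n)
      have h2 : (H : ℂ) * MRf (pB px ({0} : Finset (Fin (k + 1)))) r (sys B P h) =
          ∑ n ∈ range (M * r), Phf (pB px ({0} : Finset (Fin (k + 1)))) r.primeFactors
            (at' (sys B P h) (n : ℤ)) := by
        rw [h1]
        unfold MRf
        rw [hH]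
        push_cast
        field_simp
      rw [h2, ← Finset.sum_add_distrib, zero_add, Nat.Ico_zero_eq_range]
      refine Finset.sum_congr rfl fun n _ => ?_
      rw [← mul_add, hT1, hT2, Finset.sum_filter_add_sum_filter_not]
      exact x1b_exp Q px hpx B P h (n : ℤ)
    have hS1 : ∀ h : Fin k → ℕ, ‖∑ n ∈ Ico 0 (0 + H), w n *
        ∑ κ ∈ T1, ∏ i, gk (p i) (κ i) ((P i).eval (n : ℤ) + h i)‖ ≤ 2 * (r : ℝ) ^ 3 := by
      intro h
      refine (x1b_small B hB.deg P r D hD1 px hpxr rfl p hsub.2 T1 ((filter_subset _ _).trans hsub.1)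
        (fun κ hκ => (mem_filter.mp hκ).2) hnd h 0 H).trans ?_
      have h2 : (D : ℝ) ^ (2 * k + 1) ≤ r := by
        calc (D : ℝ) ^ (2 * k + 1) ≤ ((r : ℝ) ^ x) ^ (2 * k + 1) :=
              pow_le_pow_left₀ (by positivity) hD2 _
          _ = (r : ℝ) ^ (x * ((2 * k + 1 : ℕ) : ℝ)) := by
              rw [← Real.rpow_natCast, ← Real.rpow_mul hr0.le]
          _ ≤ (r : ℝ) ^ (1 : ℝ) := by
              refine Real.rpow_le_rpow_of_exponent_le hrge1 ?_
              rw [hx, div_mul_eq_mul_div, one_mul, div_le_one (by positivity)]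
              push_cast
              linarith
          _ = r := Real.rpow_one _
      calc 2 * (r : ℝ) ^ 2 * (D : ℝ) ^ (2 * k + 1) ≤ 2 * (r : ℝ) ^ 2 * r :=
            mul_le_mul_of_nonneg_left h2 (by positivity)
        _ = 2 * (r : ℝ) ^ 3 := by ring
    have hB2 := hG r hr1 hrQ p hsub.2 T2 ((filter_subset _ _).trans hsub.1) D hD1
      (fun κ hκ => not_le.mp (mem_filter.mp hκ).2) 0 H hHE w
    have hW : ∑ n ∈ Ico 0 (0 + H), ‖w n‖ ^ 2 ≤ H * (4 * (1 + Real.log r) ^ 2) := by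
      calc ∑ n ∈ Ico 0 (0 + H), ‖w n‖ ^ 2 ≤ ∑ _n ∈ Ico 0 (0 + H), 4 * (1 + Real.log r) ^ 2 := by
            refine Finset.sum_le_sum fun n _ => ?_
            have h1 := pow_le_pow_left₀ (norm_nonneg _) (hwn n) 2
            calc ‖w n‖ ^ 2 ≤ (2 * (1 + Real.log r)) ^ 2 := h1
              _ = _ := by ring
        _ = _ := by
            rw [Finset.sum_const, Nat.card_Ico, nsmul_eq_mul, zero_add, Nat.sub_zero]
    have hneg : (D : ℝ) ^ (-cc) ≤ 2 * (r : ℝ) ^ (-c) := by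
      refine (G1_neg hr1 hx0.le hcc0.le).trans ?_
      refine mul_le_mul_of_nonneg_right ?_ (by positivity)
      calc (2 : ℝ) ^ cc ≤ 2 ^ (1 : ℝ) := Real.rpow_le_rpow_of_exponent_le (by norm_num) hcc1
        _ = 2 := Real.rpow_one 2
    have hLc : (1 + Real.log r) ^ Cc * (1 + Real.log r) ^ 2 ≤ (1 + Real.log r) ^ C := by
      rw [← Real.rpow_natCast (1 + Real.log r) 2, ← Real.rpow_add (by linarith)]
      refine Real.rpow_le_rpow_of_exponent_le hL1 ?_
      push_cast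
      linarith
    have hS2 : ∑ h ∈ S, ‖∑ n ∈ Ico 0 (0 + H), w n *
        ∑ κ ∈ T2, ∏ i, gk (p i) (κ i) ((P i).eval (n : ℤ) + g h i)‖ ^ 2 ≤
        (H : ℝ) ^ 2 * (8 * Cc * ((1 + Real.log r) ^ C * S.card * (r : ℝ) ^ (-c))) := by
      refine hB2.trans ?_
      have h0 : 0 ≤ (1 + Real.log r) ^ Cc := Real.rpow_nonneg (by linarith) _
      have hD0 : 0 ≤ (D : ℝ) ^ (-cc) := Real.rpow_nonneg (Nat.cast_nonneg _) _
      calc Cc * (1 + Real.log r) ^ Cc * S.card * (H * ∑ n ∈ Ico 0 (0 + H), ‖w n‖ ^ 2) * (D : ℝ) ^ (-cc)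
          ≤ Cc * (1 + Real.log r) ^ Cc * S.card * (H * (H * (4 * (1 + Real.log r) ^ 2))) *
            (2 * (r : ℝ) ^ (-c)) := by
            refine mul_le_mul ?_ hneg hD0 (by positivity)
            refine mul_le_mul_of_nonneg_left ?_ (by positivity)
            exact mul_le_mul_of_nonneg_left hW hH0.le
        _ = (H : ℝ) ^ 2 * (8 * Cc * (((1 + Real.log r) ^ Cc * (1 + Real.log r) ^ 2) * S.card *
            (r : ℝ) ^ (-c))) := by ring
        _ ≤ (H : ℝ) ^ 2 * (8 * Cc * ((1 + Real.log r) ^ C * S.card * (r : ℝ) ^ (-c))) := by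
            refine mul_le_mul_of_nonneg_left ?_ (by positivity)
            refine mul_le_mul_of_nonneg_left ?_ (by positivity)
            refine mul_le_mul_of_nonneg_right ?_ hrc.le
            exact mul_le_mul_of_nonneg_right hLc hv
    have hS1' : ∑ h ∈ S, ‖∑ n ∈ Ico 0 (0 + H), w n *
        ∑ κ ∈ T1, ∏ i, gk (p i) (κ i) ((P i).eval (n : ℤ) + g h i)‖ ^ 2 ≤
        (H : ℝ) ^ 2 * (4 * ((1 + Real.log r) ^ C * S.card * (r : ℝ) ^ (-c))) := by
      have h1 : ∀ h ∈ S, ‖∑ n ∈ Ico 0 (0 + H), w n *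
          ∑ κ ∈ T1, ∏ i, gk (p i) (κ i) ((P i).eval (n : ℤ) + g h i)‖ ^ 2 ≤ 4 * (r : ℝ) ^ 6 := by
        intro h _
        refine (pow_le_pow_left₀ (norm_nonneg _) (hS1 (g h)) 2).trans (le_of_eq ?_)
        ring
      refine (Finset.sum_le_sum h1).trans ?_
      rw [Finset.sum_const, nsmul_eq_mul]
      have h2 : (r : ℝ) ^ (-(1 : ℝ)) ≤ (r : ℝ) ^ (-c) :=
        Real.rpow_le_rpow_of_exponent_le hrge1 (by linarith)
      rw [Real.rpow_neg_one] at h2
      have h3 : 1 ≤ (1 + Real.log r) ^ C := Real.one_le_rpow hL1 hCpos.le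
      have h4 : (r : ℝ) ^ 6 ≤ (r : ℝ) ^ 10 * (r : ℝ)⁻¹ := by
        have h5 : (r : ℝ) ^ 10 * (r : ℝ)⁻¹ = (r : ℝ) ^ 9 := by
          field_simp
        rw [h5]
        exact pow_le_pow_right₀ hrge1 (by norm_num)
      calc S.card * (4 * (r : ℝ) ^ 6) ≤ S.card * (4 * ((r : ℝ) ^ 10 * (r : ℝ)⁻¹)) := by
            refine mul_le_mul_of_nonneg_left ?_ hv
            linarith
        _ ≤ S.card * (4 * ((r : ℝ) ^ 10 * (r : ℝ) ^ (-c))) := by
            refine mul_le_mul_of_nonneg_left ?_ hv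
            have := mul_le_mul_of_nonneg_left h2 (show (0 : ℝ) ≤ (r : ℝ) ^ 10 by positivity)
            linarith
        _ = 1 * (((r : ℝ) ^ 5) ^ 2 * (4 * (S.card * (r : ℝ) ^ (-c)))) := by ring
        _ ≤ (1 + Real.log r) ^ C * (((r : ℝ) ^ 5) ^ 2 * (4 * (S.card * (r : ℝ) ^ (-c)))) :=
            mul_le_mul_of_nonneg_right h3 (by positivity)
        _ = ((r : ℝ) ^ 5) ^ 2 * (4 * ((1 + Real.log r) ^ C * S.card * (r : ℝ) ^ (-c))) := by ring
        _ ≤ (H : ℝ) ^ 2 * (4 * ((1 + Real.log r) ^ C * S.card * (r : ℝ) ^ (-c))) := by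
            refine mul_le_mul_of_nonneg_right ?_ (by positivity)
            exact pow_le_pow_left₀ (by positivity) hHr 2
    have hpt : ∀ x ∈ S, (H : ℝ) ^ 2 *
        ‖MRf (pB px ({0} : Finset (Fin (k + 1)))) r (sys B P (g x))‖ ^ 2 ≤
        2 * ‖∑ n ∈ Ico 0 (0 + H), w n * ∑ κ ∈ T1, ∏ i, gk (p i) (κ i) ((P i).eval (n : ℤ) + g x i)‖ ^ 2 +
        2 * ‖∑ n ∈ Ico 0 (0 + H), w n *
          ∑ κ ∈ T2, ∏ i, gk (p i) (κ i) ((P i).eval (n : ℤ) + g x i)‖ ^ 2 := by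
      intro x _
      obtain ⟨h, hhd⟩ : ∃ h : Fin k → ℕ, g x = h := ⟨g x, rfl⟩
      rw [hhd]
      have h1 : (H : ℝ) * ‖MRf (pB px ({0} : Finset (Fin (k + 1)))) r (sys B P h)‖ =
          ‖(H : ℂ) * MRf (pB px ({0} : Finset (Fin (k + 1)))) r (sys B P h)‖ := by
        rw [norm_mul, Complex.norm_natCast]
      rw [← mul_pow, h1, hsum h]
      refine (pow_le_pow_left₀ (norm_nonneg _) (norm_add_le _ _) 2).trans ?_
      nlinarith [sq_nonneg (‖∑ n ∈ Ico 0 (0 + H), w n *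
        ∑ κ ∈ T1, ∏ i, gk (p i) (κ i) ((P i).eval (n : ℤ) + h i)‖ - ‖∑ n ∈ Ico 0 (0 + H), w n *
        ∑ κ ∈ T2, ∏ i, gk (p i) (κ i) ((P i).eval (n : ℤ) + h i)‖)]
    have htot := Finset.sum_le_sum hpt
    rw [← Finset.mul_sum, Finset.sum_add_distrib, ← Finset.mul_sum, ← Finset.mul_sum] at htot
    set Z : ℝ := (1 + Real.log r) ^ C * S.card * (r : ℝ) ^ (-c) with hZ
    have hZ0 : 0 ≤ Z := by positivity
    have h6 : (H : ℝ) ^ 2 * ∑ h ∈ S, ‖MRf (pB px ({0} : Finset (Fin (k + 1)))) r (sys B P (g h))‖ ^ 2 ≤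
        (H : ℝ) ^ 2 * ((16 * Cc + 8) * Z) := by
      refine htot.trans ?_
      calc 2 * _ + 2 * _ ≤ 2 * ((H : ℝ) ^ 2 * (4 * Z)) + 2 * ((H : ℝ) ^ 2 * (8 * Cc * Z)) :=
            add_le_add (mul_le_mul_of_nonneg_left hS1' (by norm_num))
              (mul_le_mul_of_nonneg_left hS2 (by norm_num))
        _ = (H : ℝ) ^ 2 * ((16 * Cc + 8) * Z) := by ring
    have h7 := le_of_mul_le_mul_left h6 (by positivity)
    refine h7.trans ?_
    calc (16 * Cc + 8) * Z ≤ C * Z := by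
          refine mul_le_mul_of_nonneg_right ?_ hZ0
          rw [hCd]
          linarith
      _ = C * (1 + Real.log r) ^ C * S.card * (r : ℝ) ^ (-c) := by
          rw [hZ]
          ring

end Pool.Agent.HUP
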