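import Pool.Agent.Lib.HUP.Defs
import Pool.Agent.Lib.H24P.K1
import Pool.Agent.Lib.HUP.R10
import Pool.Agent.Lib.HUP.R11

/-!
# Project HUP, module R (the modules of H24P for an abstract family), R12: the exceptional case
-/

open Finset Polynomial

namespace Pool.Agent.HUP

open Pool.Agent.Lib.H68T Pool.Agent.Lib.H18Q Pool.Agent.Lib.H59P Pool.Agent.Lib.H24P

/-- The bound for the mean square, all nonempty sets. -/
theorem r12_ms (k A E : ℕ) (hA : 1 ≤ A) (Cc cc : ℝ) (hC : FPar Cc cc) : ∃ C c : ℝ, 1 ≤ C ∧ 0 < c ∧ ∀ B : ℤ[X], Lin A B →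
    ∀ P : Fin k → ℤ[X], Pol A P → ∀ (Q : ℕ) (px : Ch), px ∈ PC Q → 2 ≤ px.1 →
    ∀ Bs : Finset (Fin (k + 1)), Bs.Nonempty →
    ∀ (ι : Type) (S : Finset ι) (g : ι → Fin k → ℕ), FGood E Cc cc Q P S g →
    ∑ x ∈ S, ‖MRf (pB px Bs) px.1 (sys B P (g x))‖ ^ 2 ≤
      C * (1 + Real.log px.1) ^ C * S.card * (px.1 : ℝ) ^ (-c) := by
  obtain ⟨CA, cA, hCA, hcA, hcA1, HA⟩ := R10_main k A E hA Cc cc hC
  obtain ⟨CB, cB, hCB, hcB, hcB1, HB⟩ := R11_main k A E hA Cc cc hC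
  refine ⟨max CA CB, min cA cB, hCA.trans (le_max_left _ _), lt_min hcA hcB, ?_⟩
  intro B hB P hP Q px hpx hr Bs hBs ι S g hG
  have hr1 : (1 : ℝ) ≤ px.1 := by exact_mod_cast (by omega : 1 ≤ px.1)
  have hl : 1 ≤ 1 + Real.log px.1 := by
    have := Real.log_nonneg hr1
    linarith
  have hv : (0 : ℝ) ≤ S.card := Nat.cast_nonneg _
  have key : ∀ C' c' : ℝ, 1 ≤ C' → C' ≤ max CA CB → min cA cB ≤ c' →
      C' * (1 + Real.log px.1) ^ C' * S.card * (px.1 : ℝ) ^ (-c') ≤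
      max CA CB * (1 + Real.log px.1) ^ (max CA CB) * S.card * (px.1 : ℝ) ^ (-(min cA cB)) := by
    intro C' c' h1 h2 h3
    have h4 : (1 + Real.log px.1) ^ C' ≤ (1 + Real.log px.1) ^ (max CA CB) :=
      Real.rpow_le_rpow_of_exponent_le hl h2
    have h5 : (px.1 : ℝ) ^ (-c') ≤ (px.1 : ℝ) ^ (-(min cA cB)) :=
      Real.rpow_le_rpow_of_exponent_le hr1 (by linarith)
    have h6 : 0 ≤ (1 + Real.log px.1) ^ C' := Real.rpow_nonneg (by linarith) _
    have h7 : 0 ≤ (1 + Real.log px.1) ^ (max CA CB) := Real.rpow_nonneg (by linarith) _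
    have h8 : 0 ≤ (px.1 : ℝ) ^ (-c') := Real.rpow_nonneg (by linarith) _
    have h9 : 0 ≤ max CA CB := by linarith
    gcongr
  by_cases hex : ∃ i : Fin k, i.succ ∈ Bs
  · exact (HA B hB P hP Q px hpx hr Bs hex ι S g hG).trans (key CA cA hCA (le_max_left _ _) (min_le_left _ _))
  · have h0 : Bs = {0} := by
      refine Finset.eq_singleton_iff_nonempty_unique_mem.mpr ⟨hBs, fun x hx => ?_⟩
      rcases Fin.eq_zero_or_eq_succ x with h | ⟨i, h⟩
      · exact h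
      · exact absurd ⟨i, h ▸ hx⟩ hex
    rw [h0]
    exact (HB B hB P hP Q px hpx hr ι S g hG).trans (key CB cB hCB (le_max_right _ _) (min_le_right _ _))

/-- **R12** (port of `k1_ms` and `K1_exc`, H24P/K1.lean). Proof. As there with `R10_main`, `R11_main`. -/
theorem R12_exc (k A E : ℕ) (hA : 1 ≤ A) (Cc cc : ℝ) (hC : FPar Cc cc) (c1 : ℝ) (hc1 : 0 < c1) :
    ∃ c2 : ℝ, 0 < c2 ∧ ∃ Q0 : ℕ,
    ∀ Q : ℕ, Q0 ≤ Q → ∀ B : ℤ[X], Lin A B → ∀ P : Fin k → ℤ[X], Pol A P →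
    ∀ (r : ℕ) [NeZero r] (ψ : DirichletCharacter ℂ r) (β η : ℝ), r ^ 100 ≤ Q → ψ.IsPrimitive →
    ψ ≠ 1 → ψ ^ 2 = 1 → β < 1 → ψ.LFunction (β : ℂ) = 0 → 1 - β ≤ 2 * η →
    ∀ (ι : Type) (S : Finset ι) (g : ι → Fin k → ℕ), FGood E Cc cc Q P S g →
    ∃ Bad : Finset ι, Bad ⊆ S ∧ (Bad.card : ℝ) ≤ S.card * (Q : ℝ) ^ (-c2) ∧
      ∀ x ∈ S, x ∉ Bad → NoFix (sys B P (g x)) → ∀ th' : Fin (k + 1) → ℝ, (∀ i, 0 ≤ th' i) →
        (∀ i, th' i ≤ 1 - η) → (Q : ℝ) ^ (-c1) ≤ PMf Q ⟨r, ψ⟩ th' (sys B P (g x)) := by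
  classical
  obtain ⟨C, c, _, hc, hlow⟩ := X2_low k A hA
  obtain ⟨CC, cc', hCC, hcc, HH⟩ := r12_ms k A E hA Cc cc hC
  obtain ⟨c3, hc3, hz⟩ := zero_lower
  set c6 : ℝ := min c1 1 / (8 * ((k : ℝ) + 1)) with hc6
  have hc60 : 0 < c6 := by positivity
  have hc6k : 8 * ((k : ℝ) + 1) * c6 = min c1 1 := by
    rw [hc6]
    field_simp
  have hm1 : min c1 1 ≤ c1 := min_le_left _ _
  set W : ℝ := 2 ^ (k + 1) * CC * (2 ^ (k + 2) / c) ^ 2 with hW
  have hW0 : 0 < W := by positivity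
  obtain ⟨Q1, hQ11, hQ1⟩ := k1_inv c C (c1 / 2) hc (by linarith)
  obtain ⟨Q2, _, hQ2⟩ := G1_rlog (2 / c3) 2 c6 hc60
  obtain ⟨Q3, _, hQ3⟩ := G1_rlog W (CC + 2 * C) (cc' * c6 / 2) (by positivity)
  obtain ⟨Q4, _, hQ4⟩ := G1_rlog 2 0 (c1 / 2) (by linarith)
  refine ⟨cc' * c6 / 2, by positivity, Q1 + Q2 + Q3 + Q4 + 2, ?_⟩
  intro Q hQ B hB P hP r _ ψ β η hrQ hprim hψ1 hψ2 hβ hL hη ι S g hG
  have e1 := hQ1 Q (by omega)
  have e2 := hQ2 Q (by omega)
  have e3 := hQ3 Q (by omega)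
  have e4 := hQ4 Q (by omega)
  rw [Real.rpow_zero, mul_one] at e4
  rw [Real.rpow_two] at e2
  have hr0 : r ≠ 0 := NeZero.ne r
  have hr2 : 2 ≤ r := by
    by_contra hcon
    have h1 : r = 1 := by
      have := Nat.pos_of_ne_zero hr0
      omega
    subst h1
    exact hψ1 (DirichletCharacter.level_one ψ)
  have hrQ' : r ≤ Q := (Nat.le_self_pow (by norm_num) r).trans hrQ
  have hpx : (⟨r, ψ⟩ : Ch) ∈ PC Q := mem_PC.mpr ⟨(by omega : 1 ≤ r), hrQ', hprim⟩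
  have hη0 : 0 < η := by linarith
  have hq1 : (1 : ℝ) ≤ Q := by exact_mod_cast (by omega : 1 ≤ Q)
  have hq0 : (0 : ℝ) < Q := by linarith
  have hr1 : (1 : ℝ) ≤ r := by exact_mod_cast (by omega : 1 ≤ r)
  have hrq : (r : ℝ) ≤ Q := by exact_mod_cast hrQ'
  have hlr0 : 0 ≤ Real.log r := Real.log_nonneg hr1
  have hlrq : Real.log r ≤ Real.log Q := Real.log_le_log (by linarith) hrq
  have hl1 : 1 ≤ 1 + Real.log Q := by linarith
  have hv : (0 : ℝ) ≤ S.card := Nat.cast_nonneg _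
  have hQ2' : 2 ≤ Q := by omega
  have hhalf : (Q : ℝ) ^ (-(c1 / 2)) * (Q : ℝ) ^ (-(c1 / 2)) = (Q : ℝ) ^ (-c1) := by
    rw [← Real.rpow_add hq0]
    congr 1
    ring
  by_cases hcase : (r : ℝ) ≤ (Q : ℝ) ^ c6
  · refine ⟨∅, Finset.empty_subset _, ?_, ?_⟩
    · rw [Finset.card_empty, Nat.cast_zero]
      positivity
    intro x hh _ hN th' h0 h1'
    obtain ⟨h, hhd⟩ : ∃ h : Fin k → ℕ, g x = h := ⟨g x, rfl⟩
    rw [hhd] at hN ⊢
    have f1 := P5_eta (sys B P h) (P2_sys B P h) Q ⟨r, ψ⟩ hψ2 η hη0.le th' h0 h1'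
    have f2 := hlow B hB P hP h hN Q hQ2' (pr Q) (Finset.Subset.refl _)
    have f3 : ((Q : ℝ) ^ c6 * (Q : ℝ) ^ c6)⁻¹ ≤ η :=
      k1_eta c3 (1 + Real.log Q) ((Q : ℝ) ^ c6) r (Real.log r) η hc3
        (Real.rpow_pos_of_pos hq0 _) hl1 (by linarith) hlr0 hcase (by linarith) e2
        ((hz r ψ hψ1 hψ2 β hβ hL).trans hη)
    have f4 : (Q : ℝ) ^ (-(c1 / 2)) ≤ η ^ (k + 1) := by
      have g1 : ((Q : ℝ) ^ c6 * (Q : ℝ) ^ c6)⁻¹ ^ (k + 1) = (Q : ℝ) ^ (-(2 * c6 * ((k : ℝ) + 1))) := by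
        rw [← Real.rpow_add hq0, ← Real.rpow_neg hq0.le, ← Real.rpow_natCast, ← Real.rpow_mul hq0.le]
        congr 1
        push_cast
        ring
      calc (Q : ℝ) ^ (-(c1 / 2)) ≤ (Q : ℝ) ^ (-(2 * c6 * ((k : ℝ) + 1))) :=
            Real.rpow_le_rpow_of_exponent_le hq1 (by nlinarith)
        _ = ((Q : ℝ) ^ c6 * (Q : ℝ) ^ c6)⁻¹ ^ (k + 1) := g1.symm
        _ ≤ η ^ (k + 1) := pow_le_pow_left₀ (by positivity) f3 _
    calc (Q : ℝ) ^ (-c1) = (Q : ℝ) ^ (-(c1 / 2)) * (Q : ℝ) ^ (-(c1 / 2)) := hhalf.symm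
      _ ≤ η ^ (k + 1) * SSf (pr Q) (sys B P h) :=
          mul_le_mul f4 (e1.trans f2) (by positivity) (by positivity)
      _ ≤ _ := f1
  · have hcase' : (Q : ℝ) ^ c6 < r := not_le.mp hcase
    set T : ℝ := c * (1 + Real.log Q) ^ (-C) / 2 ^ (k + 2) with hT
    have hlp : 0 < (1 + Real.log Q) ^ (-C) := Real.rpow_pos_of_pos (by linarith) _
    have hT0 : 0 < T := by positivity
    set V : ℝ := CC * (1 + Real.log r) ^ CC * S.card * (r : ℝ) ^ (-cc') with hV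
    set F : Finset (Fin (k + 1)) → ι → ℝ := fun Bs x =>
      ‖MRf (pB (⟨r, ψ⟩ : Ch) Bs) r (sys B P (g x))‖ with hF
    have hsum : ∀ Bs : Finset (Fin (k + 1)), Bs.Nonempty → ∑ x ∈ S, F Bs x ^ 2 ≤ V :=
      fun Bs hBs => HH B hB P hP Q ⟨r, ψ⟩ hpx hr2 Bs hBs ι S g hG
    set NE : Finset (Finset (Fin (k + 1))) := (univ : Finset (Finset (Fin (k + 1)))).filter
      (fun Bs => Bs.Nonempty) with hNE
    refine ⟨NE.biUnion fun Bs => S.filter fun h => T < F Bs h, ?_, ?_, ?_⟩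
    · exact Finset.biUnion_subset.mpr fun Bs _ => Finset.filter_subset _ _
    · have g1 : (((NE.biUnion fun Bs => S.filter fun h => T < F Bs h).card : ℕ) : ℝ) ≤
          2 ^ (k + 1) * (V / T ^ 2) := by
        have g2 : (((NE.biUnion fun Bs => S.filter fun h => T < F Bs h).card : ℕ) : ℝ) ≤
            ∑ Bs ∈ NE, (((S.filter fun h => T < F Bs h).card : ℕ) : ℝ) := by
          exact_mod_cast Finset.card_biUnion_le
        have g3 : ∑ Bs ∈ NE, (((S.filter fun h => T < F Bs h).card : ℕ) : ℝ) ≤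
            ∑ _Bs ∈ NE, V / T ^ 2 := by
          refine Finset.sum_le_sum fun Bs hBs => ?_
          have hne : Bs.Nonempty := (Finset.mem_filter.mp hBs).2
          exact k1_cheb S (F Bs) T V hT0 (hsum Bs hne) (fun h => norm_nonneg _)
        have hV0 : 0 ≤ V / T ^ 2 := by
          have : 0 ≤ V := by
            have h1 : 0 ≤ (1 + Real.log r) ^ CC := Real.rpow_nonneg (by linarith) _
            have h2 : 0 ≤ (r : ℝ) ^ (-cc') := Real.rpow_nonneg (by linarith) _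
            rw [hV]
            positivity
          positivity
        have g4 : ∑ _Bs ∈ NE, V / T ^ 2 ≤ 2 ^ (k + 1) * (V / T ^ 2) := by
          rw [Finset.sum_const, nsmul_eq_mul]
          refine mul_le_mul_of_nonneg_right ?_ hV0
          have h1 : NE.card ≤ 2 ^ (k + 1) := by
            refine (Finset.card_le_univ _).trans ?_
            rw [Fintype.card_finset, Fintype.card_fin]
          exact_mod_cast h1
        exact (g2.trans g3).trans g4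
      refine g1.trans ?_
      have hlcc : (1 + Real.log r) ^ CC ≤ (1 + Real.log Q) ^ CC :=
        Real.rpow_le_rpow (by linarith) (by linarith) (by linarith)
      have hrcc : (r : ℝ) ^ (-cc') ≤ (Q : ℝ) ^ (-(cc' * c6)) := by
        calc (r : ℝ) ^ (-cc') ≤ ((Q : ℝ) ^ c6) ^ (-cc') :=
              Real.rpow_le_rpow_of_nonpos (Real.rpow_pos_of_pos hq0 _) hcase'.le (by linarith)
          _ = (Q : ℝ) ^ (-(cc' * c6)) := by
              rw [← Real.rpow_mul hq0.le]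
              congr 1
              ring
      have hVle : V ≤ CC * (1 + Real.log Q) ^ CC * S.card * (Q : ℝ) ^ (-(cc' * c6)) := by
        have h1 : 0 ≤ (1 + Real.log Q) ^ CC := Real.rpow_nonneg (by linarith) _
        have h2 : 0 ≤ (r : ℝ) ^ (-cc') := Real.rpow_nonneg (by linarith) _
        have h3 : 0 ≤ CC := by linarith
        rw [hV]
        gcongr
      have hT2 : (T ^ 2)⁻¹ = (2 ^ (k + 2) / c) ^ 2 * (1 + Real.log Q) ^ (2 * C) := by
        have h1 : (1 + Real.log Q) ^ (2 * C) = ((1 + Real.log Q) ^ C) ^ 2 := by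
          rw [← Real.rpow_natCast, ← Real.rpow_mul (by linarith)]
          congr 1
          push_cast
          ring
        have h2 : 0 < (1 + Real.log Q) ^ C := Real.rpow_pos_of_pos (by linarith) _
        rw [h1, hT, Real.rpow_neg (by linarith)]
        field_simp
      have hX : 0 < (1 + Real.log Q) ^ (2 * C) := Real.rpow_pos_of_pos (by linarith) _
      have hY : 0 < (1 + Real.log Q) ^ CC := Real.rpow_pos_of_pos (by linarith) _
      have hE : (Q : ℝ) ^ (cc' * c6 / 2) * (Q : ℝ) ^ (-(cc' * c6)) = (Q : ℝ) ^ (-(cc' * c6 / 2)) := by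
        rw [← Real.rpow_add hq0]
        congr 1
        ring
      have hXY : (1 + Real.log Q) ^ (CC + 2 * C) = (1 + Real.log Q) ^ CC * (1 + Real.log Q) ^ (2 * C) :=
        Real.rpow_add (by linarith) _ _
      rw [hXY] at e3
      have hE0 : 0 < (Q : ℝ) ^ (-(cc' * c6)) := Real.rpow_pos_of_pos hq0 _
      calc 2 ^ (k + 1) * (V / T ^ 2) = 2 ^ (k + 1) * V * (T ^ 2)⁻¹ := by
            rw [div_eq_mul_inv]
            ring
        _ ≤ 2 ^ (k + 1) * (CC * (1 + Real.log Q) ^ CC * S.card * (Q : ℝ) ^ (-(cc' * c6))) *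
              ((2 ^ (k + 2) / c) ^ 2 * (1 + Real.log Q) ^ (2 * C)) := by
            rw [hT2]
            gcongr
        _ = (W * ((1 + Real.log Q) ^ CC * (1 + Real.log Q) ^ (2 * C))) * (S.card * (Q : ℝ) ^ (-(cc' * c6))) := by
            rw [hW]
            ring
        _ ≤ (Q : ℝ) ^ (cc' * c6 / 2) * (S.card * (Q : ℝ) ^ (-(cc' * c6))) :=
            mul_le_mul_of_nonneg_right e3 (by positivity)
        _ = S.card * ((Q : ℝ) ^ (cc' * c6 / 2) * (Q : ℝ) ^ (-(cc' * c6))) := by ring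
        _ = S.card * (Q : ℝ) ^ (-(cc' * c6 / 2)) := by rw [hE]
    · intro x hh hbad hN th' h0 h1'
      have g1 : ∀ Bs : Finset (Fin (k + 1)), Bs.Nonempty → F Bs x ≤ T := by
        intro Bs hBs
        by_contra hcon
        refine hbad (Finset.mem_biUnion.mpr ⟨Bs, ?_, ?_⟩)
        · exact Finset.mem_filter.mpr ⟨Finset.mem_univ _, hBs⟩
        · exact Finset.mem_filter.mpr ⟨hh, not_le.mp hcon⟩
      have hsub : r.primeFactors ⊆ pr Q := by
        intro l hl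
        refine p5_mem_pr.mpr ⟨Nat.prime_of_mem_primeFactors hl, ?_⟩
        exact (Nat.le_of_dvd (by omega) (Nat.dvd_of_mem_primeFactors hl)).trans hrQ'
      have g2 := hlow B hB P hP (g x) hN Q hQ2' r.primeFactors hsub
      have g3 := hlow B hB P hP (g x) hN Q hQ2' (pr Q) (Finset.Subset.refl _)
      have g4 := P5_X2 (sys B P (g x)) (P2_sys B P (g x)) Q ⟨r, ψ⟩ hpx hψ2 th' h0
        (fun i => (h1' i).trans (by linarith)) (by
          intro Bs hBs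
          refine le_trans ?_ g2
          have g5 := g1 Bs hBs
          have g6 : (2 : ℝ) ^ (k + 1 + 1) * T = c * (1 + Real.log Q) ^ (-C) := by
            rw [hT]
            field_simp
          rw [← g6]
          exact mul_le_mul_of_nonneg_left g5 (by positivity))
      refine le_trans ?_ g4
      have g8 : (Q : ℝ) ^ (-(c1 / 2)) * 2 ≤ 1 := by
        rw [Real.rpow_neg hq0.le, inv_mul_le_iff₀ (Real.rpow_pos_of_pos hq0 _), mul_one]
        exact e4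
      have g9 : 0 ≤ (Q : ℝ) ^ (-(c1 / 2)) := (Real.rpow_pos_of_pos hq0 _).le
      have g10 : (Q : ℝ) ^ (-c1) * 2 ≤ (Q : ℝ) ^ (-(c1 / 2)) := by
        rw [← hhalf, mul_assoc]
        exact mul_le_of_le_one_right g9 g8
      have g7 : (Q : ℝ) ^ (-c1) * 2 ≤ SSf (pr Q) (sys B P (g x)) := (g10.trans e1).trans g3
      linarith

end Pool.Agent.HUP
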