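import Pool.Agent.Lib.HUP.Defs
import Pool.Agent.Lib.H24P.Z1S

/-!
# Project HUP, module R (the modules of H24P for an abstract family), R3: tuples of characters with small modulus
-/

open Finset Polynomial

namespace Pool.Agent.HUP

open Pool.Agent.Lib.H68T Pool.Agent.Lib.H18Q Pool.Agent.Lib.H59P Pool.Agent.Lib.H24P

/-- **R3** (port of `Z1_small`, H24P/Z1S.lean). Proof. As there, `Z1S_main` (unchanged) for the `κ` with `lcm(R, κ) ≤ D`,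
`FGood` for the others. -/
theorem R3_small (k A E : ℕ) (Cc cc : ℝ) (hC : FPar Cc cc) : ∃ c : ℝ, 0 < c ∧ ∃ Q0 : ℕ, ∀ Q : ℕ, Q0 ≤ Q →
    ∀ B : ℤ[X], Lin A B → ∀ P : Fin k → ℤ[X], Pol A P → ∀ m0 : ℕ, 1 ≤ m0 →
    B.leadingCoeff.natAbs ∣ m0 → ∀ p ∈ TSf (k + 1) Q (fl Q (1 / 16)) m0,
    ∀ (ι : Type) (S : Finset ι) (g : ι → Fin k → ℕ), FGood E Cc cc (Q ^ 2) P S g →
    ∀ a H : ℕ, Q ^ 600 ≤ H → Q ^ E ≤ H →
    ∑ x ∈ S, ‖∑ n ∈ Ico a (a + H), Fc (Q ^ 100) (p 0) (B.eval (n : ℤ)) *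
        ∏ i : Fin k, Fc Q (p i.succ) ((P i).eval (n : ℤ) + g x i) -
      H * (MRf p (Rf m0 p) (sys B P (g x)) *
        ((∑ d ∈ SF (fl Q (1 / 2) / Rf m0 p) (Rf m0 p), tdf d (sys B P (g x)) : ℝ) : ℂ))‖ ^ 2 ≤
      S.card * H ^ 2 * (Q : ℝ) ^ (-c) := by
  classical
  have hCc := hC.one
  have hcc0 := hC.pos
  have hcc1 := hC.le
  obtain ⟨Q1, hmain⟩ := Z1S_main k A
  obtain ⟨Q2, hQ21, hsize⟩ := G1_size A
  obtain ⟨Q3, hQ31, hlog⟩ := G1_rlog (4 * (Cc * 20000 * 100 ^ 9)) (Cc + 9) (cc / 8) (by positivity)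
  refine ⟨cc / 8, by positivity, max 2 (max Q1 (max Q2 Q3)), ?_⟩
  intro Q hQ B hB P hP m0 hm0 ham0 p hp ι S g hF a H hH hHE
  have hA : 1 ≤ A := by
    have h1 := b4_lc B hB.deg
    have h2 := hB.lc
    omega
  have hQ2 : 2 ≤ Q := (le_max_left _ _).trans hQ
  have hQ1' : Q1 ≤ Q := ((le_max_left _ _).trans (le_max_right _ _)).trans hQ
  have hQ2' : Q2 ≤ Q :=
    ((le_max_left _ _).trans ((le_max_right _ _).trans (le_max_right _ _))).trans hQ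
  have hQ3' : Q3 ≤ Q :=
    ((le_max_right _ _).trans ((le_max_right _ _).trans (le_max_right _ _))).trans hQ
  have hQr : (2 : ℝ) ≤ Q := by exact_mod_cast hQ2
  have hQ0 : (0 : ℝ) < Q := by linarith
  have hQr1 : (1 : ℝ) ≤ Q := by linarith
  have hlQ : 0 ≤ Real.log Q := Real.log_nonneg hQr1
  have hp' : (∀ i, p i ∈ PC Q) ∧ Rf m0 p ≤ fl Q (1 / 16) := by
    unfold TSf at hp
    rw [mem_filter, Fintype.mem_piFinset] at hp
    exact hp
  obtain ⟨hpPC, hRle⟩ := hp'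
  obtain ⟨R, hRdef⟩ : ∃ R, R = Rf m0 p := ⟨_, rfl⟩
  rw [← hRdef] at hRle ⊢
  have hm0R : m0 ∣ R := by
    rw [hRdef]
    exact Nat.dvd_lcm_left _ _
  have hpR : ∀ i, (p i).1 ∣ R := by
    intro i
    rw [hRdef]
    exact (Finset.dvd_lcm (f := fun i => (p i).1) (mem_univ i)).trans (Nat.dvd_lcm_right _ _)
  have hR1 : 1 ≤ R := by
    rw [hRdef]
    refine Nat.pos_of_ne_zero (Nat.lcm_ne_zero (by omega) ?_)
    rw [Finset.lcm_ne_zero_iff]
    intro i _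
    have := (mem_PC.1 (hpPC i)).1
    omega
  obtain ⟨-, -, -, hDD, hDR⟩ := hsize Q hQ2' 1 1 (le_refl _) hA (by rw [one_pow]; omega)
  have hDR' := hDR R hR1 hRle
  obtain ⟨D, hD⟩ : ∃ D, D = fl Q (1 / 2) := ⟨_, rfl⟩
  rw [← hD] at hDD hDR' ⊢
  -- splitting of the tuples `κ`
  set K : Finset (Fin k → ℕ) := Fintype.piFinset fun i : Fin k => KS Q (p i.succ).1 with hK
  set T : Finset (Fin k → ℕ) := K.filter (fun κ => ¬ R.lcm (univ.lcm κ) ≤ D) with hT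
  set w : ℕ → ℂ := fun n => Fc (Q ^ 100) (p 0) (B.eval (n : ℤ)) with hw
  have hprod : ∀ (h : Fin k → ℕ) (n : ℕ), ∏ i : Fin k, Fc Q (p i.succ) ((P i).eval (n : ℤ) + h i) =
      ∑ κ ∈ K.filter (fun κ => R.lcm (univ.lcm κ) ≤ D),
        ∏ i, gk (p i.succ) (κ i) ((P i).eval (n : ℤ) + h i) +
      ∑ κ ∈ T, ∏ i, gk (p i.succ) (κ i) ((P i).eval (n : ℤ) + h i) := by
    intro h n
    rw [hT, Finset.sum_filter_add_sum_filter_not]
    unfold Fc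
    rw [Finset.prod_univ_sum]
  have hF' := hF Q (by omega) (Nat.le_self_pow (by norm_num) Q) (fun i => p i.succ) (fun i => hpPC i.succ) T
    (Finset.filter_subset _ _) (D / R) (by
      have h1 : (0 : ℝ) < (Q : ℝ) ^ (1 / 4 : ℝ) := Real.rpow_pos_of_pos hQ0 _
      have h2 : (0 : ℝ) < ((D / R : ℕ) : ℝ) := lt_of_lt_of_le h1 hDR'
      exact_mod_cast h2) (by
      intro κ hκ
      rw [hT, mem_filter] at hκ
      have hκK := Fintype.mem_piFinset.1 (by rw [hK] at hκ; exact hκ.1)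
      have h1 : D < R.lcm (univ.lcm κ) := not_le.1 hκ.2
      have h2 : univ.lcm κ ∣ univ.lcm (fun i => (p i.succ).1 * κ i) :=
        Finset.lcm_dvd fun i _ => (dvd_mul_left (κ i) _).trans
          (Finset.dvd_lcm (f := fun i => (p i.succ).1 * κ i) (mem_univ i))
      have h3 : 0 < univ.lcm (fun i => (p i.succ).1 * κ i) := by
        refine Nat.pos_of_ne_zero ?_
        rw [Finset.lcm_ne_zero_iff]
        intro i _
        have e1 := (mem_PC.1 (hpPC i.succ)).1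
        have e2 := (CA_mem_KS.1 (hκK i)).1.1
        have := Nat.mul_pos e1 e2
        omega
      have h4 := Nat.le_of_dvd h3 h2
      have h5 : R.lcm (univ.lcm κ) ≤ R * univ.lcm κ :=
        Nat.le_of_dvd (Nat.mul_pos (by omega) (Nat.pos_of_dvd_of_pos h2 h3)) (Nat.lcm_dvd_mul _ _)
      refine lt_of_lt_of_le ?_ h4
      rw [Nat.div_lt_iff_lt_mul (by omega), mul_comm]
      omega) a H hHE w
  have hB5 := B5_sq (Q ^ 100) A (Nat.one_le_pow _ _ (by omega)) (p 0) (z1s_PC (by omega) (hpPC 0)) B hB a H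
    (by
      rw [← pow_mul]
      exact (Nat.pow_le_pow_right (by omega) (by norm_num)).trans hH)
  have hv : (0 : ℝ) ≤ S.card := Nat.cast_nonneg _
  have hH1 : (1 : ℝ) ≤ H := by
    have : 1 ≤ H := (Nat.one_le_pow 600 Q (by omega)).trans hH
    exact_mod_cast this
  have hlog100 : (1 + Real.log ((Q ^ 100 : ℕ) : ℝ)) ^ 9 ≤ 100 ^ 9 * (1 + Real.log Q) ^ 9 := by
    rw [← mul_pow]
    apply pow_le_pow_left₀
    · have : 0 ≤ Real.log ((Q ^ 100 : ℕ) : ℝ) := Real.log_natCast_nonneg _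
      linarith
    · push_cast
      rw [Real.log_pow]
      push_cast
      linarith
  have hw2 : ∑ n ∈ Ico a (a + H), ‖w n‖ ^ 2 ≤ 20000 * (100 ^ 9 * (1 + Real.log Q) ^ 9) * H := by
    refine hB5.trans ?_
    apply mul_le_mul_of_nonneg_right _ (by linarith)
    exact mul_le_mul_of_nonneg_left hlog100 (by norm_num)
  have hDneg : ((D / R : ℕ) : ℝ) ^ (-cc) ≤ (Q : ℝ) ^ (-(cc / 4)) := by
    calc ((D / R : ℕ) : ℝ) ^ (-cc) ≤ ((Q : ℝ) ^ (1 / 4 : ℝ)) ^ (-cc) :=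
          Real.rpow_le_rpow_of_nonpos (Real.rpow_pos_of_pos hQ0 _) hDR' (by linarith)
      _ = (Q : ℝ) ^ (-(cc / 4)) := by
          rw [← Real.rpow_mul hQ0.le]
          congr 1
          ring
  have hlogv := hlog Q hQ3'
  have hL0 : 0 < 1 + Real.log Q := by linarith
  have hlarge : ∑ x ∈ S, ‖∑ n ∈ Ico a (a + H), w n *
        ∑ κ ∈ T, ∏ i, gk (p i.succ) (κ i) ((P i).eval (n : ℤ) + g x i)‖ ^ 2 ≤
      1 / 4 * ((S.card : ℝ) * H ^ 2 * (Q : ℝ) ^ (-(cc / 8))) := by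
    refine hF'.trans ?_
    have hCcp : 0 ≤ Cc * (1 + Real.log Q) ^ Cc * (S.card : ℝ) := by positivity
    calc Cc * (1 + Real.log Q) ^ Cc * (S.card : ℝ) * (H * ∑ n ∈ Ico a (a + H), ‖w n‖ ^ 2) *
          ((D / R : ℕ) : ℝ) ^ (-cc)
        ≤ Cc * (1 + Real.log Q) ^ Cc * (S.card : ℝ) *
          (H * (20000 * (100 ^ 9 * (1 + Real.log Q) ^ 9) * H)) * (Q : ℝ) ^ (-(cc / 4)) := by
          apply mul_le_mul _ hDneg (by positivity) (by positivity)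
          apply mul_le_mul_of_nonneg_left _ hCcp
          exact mul_le_mul_of_nonneg_left hw2 (by linarith)
      _ = 1 / 4 * ((S.card : ℝ) * H ^ 2 * ((4 * (Cc * 20000 * 100 ^ 9) * (1 + Real.log Q) ^ (Cc + 9)) *
          (Q : ℝ) ^ (-(cc / 4)))) := by
          rw [Real.rpow_add hL0]
          have : (1 + Real.log Q) ^ (9 : ℝ) = (1 + Real.log Q) ^ 9 := by
            exact_mod_cast Real.rpow_natCast (1 + Real.log Q) 9
          rw [this]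
          ring
      _ ≤ 1 / 4 * ((S.card : ℝ) * H ^ 2 * ((Q : ℝ) ^ (cc / 8) * (Q : ℝ) ^ (-(cc / 4)))) := by
          gcongr
      _ = 1 / 4 * ((S.card : ℝ) * H ^ 2 * (Q : ℝ) ^ (-(cc / 8))) := by
          rw [← Real.rpow_add hQ0]
          congr 3
          ring
  -- the main part
  have hsmall : ∀ h : Fin k → ℕ, ‖∑ n ∈ Ico a (a + H), w n *
        ∑ κ ∈ K.filter (fun κ => R.lcm (univ.lcm κ) ≤ D),
          ∏ i, gk (p i.succ) (κ i) ((P i).eval (n : ℤ) + h i) -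
      H * (MRf p R (sys B P h) * ((∑ d ∈ SF (D / R) R, tdf d (sys B P h) : ℝ) : ℂ))‖ ^ 2 ≤
      1 / 4 * (H ^ 2 * (Q : ℝ) ^ (-(cc / 8))) := by
    intro h
    have h1 := hmain Q hQ1' B hB P R D hR1 (ham0.trans hm0R) hDD p hpPC hpR a H h
    refine (pow_le_pow_left₀ (norm_nonneg _) h1 2).trans ?_
    have h2 : (Q : ℝ) ^ (-(1 : ℝ)) ≤ (Q : ℝ) ^ (-(cc / 8)) :=
      Real.rpow_le_rpow_of_exponent_le hQr1 (by linarith)
    have h3 : (Q : ℝ) ^ (-(1 : ℝ)) = (Q : ℝ)⁻¹ := Real.rpow_neg_one _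
    have hHr : (Q : ℝ) ^ 600 ≤ H := by exact_mod_cast hH
    calc ((Q : ℝ) ^ 410) ^ 2 = 1 / 4 * (4 * (Q : ℝ) ^ 820) := by ring
      _ ≤ 1 / 4 * ((Q : ℝ) ^ 2 * (Q : ℝ) ^ 820) := by
          have : (4 : ℝ) ≤ Q ^ 2 := by nlinarith
          gcongr
      _ ≤ 1 / 4 * (((Q : ℝ) ^ 600) ^ 2 * (Q : ℝ)⁻¹) := by
          rw [← pow_mul, ← pow_add]
          have : (Q : ℝ) ^ (600 * 2) * (Q : ℝ)⁻¹ = (Q : ℝ) ^ 1199 := by
            field_simp
          rw [this]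
          have : (Q : ℝ) ^ (2 + 820) ≤ (Q : ℝ) ^ 1199 := pow_le_pow_right₀ hQr1 (by norm_num)
          exact mul_le_mul_of_nonneg_left this (by norm_num)
      _ ≤ 1 / 4 * (H ^ 2 * (Q : ℝ) ^ (-(cc / 8))) := by
          rw [← h3]
          have h5 : 0 ≤ (Q : ℝ) ^ (-(1 : ℝ)) := Real.rpow_nonneg hQ0.le _
          have h4 : ((Q : ℝ) ^ 600) ^ 2 ≤ (H : ℝ) ^ 2 := pow_le_pow_left₀ (by positivity) hHr 2
          have := mul_le_mul h4 h2 h5 (by positivity)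
          linarith
  have hsplit : ∀ h : Fin k → ℕ, ‖∑ n ∈ Ico a (a + H), Fc (Q ^ 100) (p 0) (B.eval (n : ℤ)) *
        ∏ i : Fin k, Fc Q (p i.succ) ((P i).eval (n : ℤ) + h i) -
      H * (MRf p R (sys B P h) * ((∑ d ∈ SF (D / R) R, tdf d (sys B P h) : ℝ) : ℂ))‖ ^ 2 ≤
      2 * (1 / 4 * (H ^ 2 * (Q : ℝ) ^ (-(cc / 8)))) + 2 * ‖∑ n ∈ Ico a (a + H), w n *
        ∑ κ ∈ T, ∏ i, gk (p i.succ) (κ i) ((P i).eval (n : ℤ) + h i)‖ ^ 2 := by
    intro h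
    have e1 : ∑ n ∈ Ico a (a + H), Fc (Q ^ 100) (p 0) (B.eval (n : ℤ)) *
        ∏ i : Fin k, Fc Q (p i.succ) ((P i).eval (n : ℤ) + h i) -
      H * (MRf p R (sys B P h) * ((∑ d ∈ SF (D / R) R, tdf d (sys B P h) : ℝ) : ℂ)) =
      (∑ n ∈ Ico a (a + H), w n *
        ∑ κ ∈ K.filter (fun κ => R.lcm (univ.lcm κ) ≤ D),
          ∏ i, gk (p i.succ) (κ i) ((P i).eval (n : ℤ) + h i) -
      H * (MRf p R (sys B P h) * ((∑ d ∈ SF (D / R) R, tdf d (sys B P h) : ℝ) : ℂ))) +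
      ∑ n ∈ Ico a (a + H), w n *
        ∑ κ ∈ T, ∏ i, gk (p i.succ) (κ i) ((P i).eval (n : ℤ) + h i) := by
      have e2 : ∑ n ∈ Ico a (a + H), Fc (Q ^ 100) (p 0) (B.eval (n : ℤ)) *
          ∏ i : Fin k, Fc Q (p i.succ) ((P i).eval (n : ℤ) + h i) =
          ∑ n ∈ Ico a (a + H), w n *
            ∑ κ ∈ K.filter (fun κ => R.lcm (univ.lcm κ) ≤ D),
              ∏ i, gk (p i.succ) (κ i) ((P i).eval (n : ℤ) + h i) +
          ∑ n ∈ Ico a (a + H), w n *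
            ∑ κ ∈ T, ∏ i, gk (p i.succ) (κ i) ((P i).eval (n : ℤ) + h i) := by
        rw [← Finset.sum_add_distrib]
        refine Finset.sum_congr rfl fun n _ => ?_
        rw [hprod h n, mul_add]
      rw [e2]
      ring
    rw [e1]
    refine (z1s_sq _ _).trans ?_
    have := hsmall h
    linarith
  refine (Finset.sum_le_sum fun x _ => hsplit (g x)).trans ?_
  rw [Finset.sum_add_distrib, Finset.sum_const, nsmul_eq_mul, ← Finset.mul_sum]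
  have e3 : (S.card : ℝ) * (2 * (1 / 4 * ((H : ℝ) ^ 2 * (Q : ℝ) ^ (-(cc / 8))))) =
      1 / 2 * ((S.card : ℝ) * H ^ 2 * (Q : ℝ) ^ (-(cc / 8))) := by ring
  rw [e3]
  linarith

end Pool.Agent.HUP
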