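import Pool.Agent.Lib.HUP.Defs
import Pool.Agent.Lib.H24P.Z1L

/-!
# Project HUP, module R (the modules of H24P for an abstract family), R4: tuples of characters with large modulus
-/

open Finset Polynomial

namespace Pool.Agent.HUP

open Pool.Agent.Lib.H68T Pool.Agent.Lib.H18Q Pool.Agent.Lib.H59P Pool.Agent.Lib.H24P

/-- **R4** (port of `Z1_large`, H24P/Z1L.lean). Proof. As there with `FGood` instead of `Fgen`; `z1l_small` unchanged. -/
theorem R4_large (k A E : ℕ) (hA : 1 ≤ A) (Cc cc : ℝ) (hC : FPar Cc cc) : ∃ c : ℝ, 0 < c ∧ ∃ Q0 : ℕ, ∀ Q : ℕ, Q0 ≤ Q →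
    ∀ B : ℤ[X], Lin A B → ∀ P : Fin k → ℤ[X], Pol A P → ∀ r : ℕ, 1 ≤ r → r ^ 100 ≤ Q →
    ∀ p : Fin (k + 1) → Ch, p 0 ∈ PC (Q ^ 100) → (∀ i : Fin k, p i.succ ∈ PC Q) →
    p ∉ TSf (k + 1) Q (fl Q (1 / 16)) (B.leadingCoeff.natAbs * r) →
    ∀ (ι : Type) (S : Finset ι) (g : ι → Fin k → ℕ), FGood E Cc cc (Q ^ 2) P S g →
    ∀ a H : ℕ, Q ^ 600 ≤ H → Q ^ E ≤ H →
    ∑ x ∈ S, ‖∑ n ∈ Ico a (a + H), Fc (Q ^ 100) (p 0) (B.eval (n : ℤ)) *
        ∏ i : Fin k, Fc Q (p i.succ) ((P i).eval (n : ℤ) + g x i)‖ ^ 2 ≤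
      S.card * H ^ 2 * (Q : ℝ) ^ (-c) := by
  classical
  have hCc := hC.one
  have hcc0 := hC.pos
  have hcc1 := hC.le
  obtain ⟨Q2, hQ21, hsize⟩ := G1_size A
  set x7 : ℝ := 1 / (256 * ((k : ℝ) + 1)) with hx7
  have hk0 : (0 : ℝ) ≤ k := Nat.cast_nonneg k
  have hx70 : 0 < x7 := by positivity
  have hx71 : x7 ≤ 1 / 256 := by
    rw [hx7]
    apply one_div_le_one_div_of_le (by norm_num)
    linarith
  set δ : ℝ := cc * x7 with hδ
  have hδ0 : 0 < δ := by positivity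
  have hδ1 : δ ≤ 1 / 256 := by
    calc δ ≤ 1 * x7 := mul_le_mul_of_nonneg_right hcc1 hx70.le
      _ ≤ 1 / 256 := by rw [one_mul]; exact hx71
  obtain ⟨Q3, hQ31, hlog⟩ := G1_rlog (8 * (Cc * 20000 * 100 ^ 9)) (Cc + 9) (δ / 2) (by positivity)
  refine ⟨δ / 2, by positivity, max 2 (max Q2 Q3), ?_⟩
  intro Q hQ B hB P hP r hr hrQ p hp0 hp hpT ι S g hF a H hH hHE
  have hQ2 : 2 ≤ Q := (le_max_left _ _).trans hQ
  have hQ2' : Q2 ≤ Q := ((le_max_left _ _).trans (le_max_right _ _)).trans hQ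
  have hQ3' : Q3 ≤ Q := ((le_max_right _ _).trans (le_max_right _ _)).trans hQ
  have hQr : (2 : ℝ) ≤ Q := by exact_mod_cast hQ2
  have hQ0 : (0 : ℝ) < Q := by linarith
  have hQr1 : (1 : ℝ) ≤ Q := by linarith
  have hlQ : 0 ≤ Real.log Q := Real.log_nonneg hQr1
  have hv : (0 : ℝ) ≤ S.card := Nat.cast_nonneg _
  have hQH : Q ≤ H := (Nat.le_self_pow (by norm_num) Q).trans hH
  have hH1 : (1 : ℝ) ≤ H := by
    have : 1 ≤ H := by omega
    exact_mod_cast this
  have ha1 : 1 ≤ B.leadingCoeff.natAbs := b4_lc B hB.deg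
  -- the weight
  set w : ℕ → ℂ := fun n => Fc (Q ^ 100) (p 0) (B.eval (n : ℤ)) with hw
  have hB5 := B5_sq (Q ^ 100) A (Nat.one_le_pow _ _ (by omega)) (p 0) hp0 B hB a H
    (by
      rw [← pow_mul]
      exact (Nat.pow_le_pow_right (by omega) (by norm_num)).trans hH)
  have hlog100 : (1 + Real.log ((Q ^ 100 : ℕ) : ℝ)) ^ 9 ≤ 100 ^ 9 * (1 + Real.log Q) ^ 9 := by
    rw [← mul_pow]
    apply pow_le_pow_left₀
    · have : 0 ≤ Real.log ((Q ^ 100 : ℕ) : ℝ) := Real.log_natCast_nonneg _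
      linarith
    · push_cast
      rw [Real.log_pow]
      push_cast
      linarith
  have hw2 : ∑ n ∈ Ico a (a + H), ‖w n‖ ^ 2 ≤ 20000 * (100 ^ 9 * (1 + Real.log Q) ^ 9) * H := by
    refine hB5.trans ?_
    apply mul_le_mul_of_nonneg_right _ (by linarith)
    exact mul_le_mul_of_nonneg_left hlog100 (by norm_num)
  have hlogv := hlog Q hQ3'
  have hL0 : 0 < 1 + Real.log Q := by linarith
  -- the general bound from `Fgen`
  have hgen : ∀ (T : Finset (Fin k → ℕ)), T ⊆ Fintype.piFinset (fun i : Fin k => KS Q (p i.succ).1) →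
      ∀ D : ℕ, 1 ≤ D → (∀ κ ∈ T, D < univ.lcm (fun i : Fin k => (p i.succ).1 * κ i)) →
      (D : ℝ) ^ (-cc) ≤ 2 * (Q : ℝ) ^ (-δ) →
      ∑ x ∈ S, ‖∑ n ∈ Ico a (a + H), w n *
        ∑ κ ∈ T, ∏ i, gk (p i.succ) (κ i) ((P i).eval (n : ℤ) + g x i)‖ ^ 2 ≤
      1 / 4 * ((S.card : ℝ) * H ^ 2 * (Q : ℝ) ^ (-(δ / 2))) := by
    intro T hT D hD hTD hDn
    refine (hF Q (by omega) (Nat.le_self_pow (by norm_num) Q) (fun i => p i.succ) hp T hT D hD hTD a H
      hHE w).trans ?_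
    have hCcp : 0 ≤ Cc * (1 + Real.log Q) ^ Cc * (S.card : ℝ) := by positivity
    calc Cc * (1 + Real.log Q) ^ Cc * (S.card : ℝ) * (H * ∑ n ∈ Ico a (a + H), ‖w n‖ ^ 2) *
          (D : ℝ) ^ (-cc)
        ≤ Cc * (1 + Real.log Q) ^ Cc * (S.card : ℝ) *
          (H * (20000 * (100 ^ 9 * (1 + Real.log Q) ^ 9) * H)) * (2 * (Q : ℝ) ^ (-δ)) := by
          apply mul_le_mul _ hDn (by positivity) (by positivity)
          apply mul_le_mul_of_nonneg_left _ hCcp
          exact mul_le_mul_of_nonneg_left hw2 (by linarith)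
      _ = 1 / 4 * ((S.card : ℝ) * H ^ 2 * ((8 * (Cc * 20000 * 100 ^ 9) * (1 + Real.log Q) ^ (Cc + 9)) *
          (Q : ℝ) ^ (-δ))) := by
          rw [Real.rpow_add hL0]
          have : (1 + Real.log Q) ^ (9 : ℝ) = (1 + Real.log Q) ^ 9 := by
            exact_mod_cast Real.rpow_natCast (1 + Real.log Q) 9
          rw [this]
          ring
      _ ≤ 1 / 4 * ((S.card : ℝ) * H ^ 2 * ((Q : ℝ) ^ (δ / 2) * (Q : ℝ) ^ (-δ))) := by
          gcongr
      _ = 1 / 4 * ((S.card : ℝ) * H ^ 2 * (Q : ℝ) ^ (-(δ / 2))) := by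
          rw [← Real.rpow_add hQ0]
          congr 3
          ring
  obtain ⟨h51, h52, h53⟩ := G1_one (Q := Q) (x := 1 / 32) (by omega) (by norm_num)
  obtain ⟨h71, h72, h73⟩ := G1_one (Q := Q) (x := x7) (by omega) hx70.le
  have h2cc : (2 : ℝ) ^ cc ≤ 2 := by
    calc (2 : ℝ) ^ cc ≤ 2 ^ (1 : ℝ) := Real.rpow_le_rpow_of_exponent_le (by norm_num) hcc1
      _ = 2 := Real.rpow_one 2
  have hneg : ∀ x : ℝ, x7 ≤ x → (fl Q x : ℝ) ^ (-cc) ≤ 2 * (Q : ℝ) ^ (-δ) := by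
    intro x hx
    refine (G1_neg (by omega) (hx70.le.trans hx) hcc0.le).trans ?_
    apply mul_le_mul h2cc _ (by positivity) (by norm_num)
    apply Real.rpow_le_rpow_of_exponent_le hQr1
    have := mul_le_mul_of_nonneg_left hx hcc0.le
    rw [hδ]
    linarith
  have hprod : ∀ (h : Fin k → ℕ) (n : ℕ), ∏ i : Fin k, Fc Q (p i.succ) ((P i).eval (n : ℤ) + h i) =
      ∑ κ ∈ Fintype.piFinset (fun i : Fin k => KS Q (p i.succ).1),
        ∏ i, gk (p i.succ) (κ i) ((P i).eval (n : ℤ) + h i) := fun h n =>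
    z1l_prod Q P (fun i => p i.succ) h n
  have hfin0 : 0 ≤ (S.card : ℝ) * H ^ 2 * (Q : ℝ) ^ (-(δ / 2)) := by positivity
  by_cases hcase : fl Q (1 / 32) < univ.lcm (fun i : Fin k => (p i.succ).1)
  · -- case (i)
    have h1 := hgen (Fintype.piFinset (fun i : Fin k => KS Q (p i.succ).1)) (Finset.Subset.refl _)
      (fl Q (1 / 32)) h51 (by
        intro κ hκ
        refine lt_of_lt_of_le hcase ?_
        rw [Fintype.mem_piFinset] at hκ
        refine Nat.le_of_dvd ?_ (Finset.lcm_dvd fun i _ => (dvd_mul_right _ (κ i)).trans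
          (Finset.dvd_lcm (f := fun i : Fin k => (p i.succ).1 * κ i) (mem_univ i)))
        refine Nat.pos_of_ne_zero ?_
        rw [Finset.lcm_ne_zero_iff]
        intro i _
        have := Nat.mul_pos (mem_PC.1 (hp i)).1 (CA_mem_KS.1 (hκ i)).1.1
        omega) (hneg (1 / 32) (by linarith))
    calc ∑ x ∈ S, ‖∑ n ∈ Ico a (a + H), Fc (Q ^ 100) (p 0) (B.eval (n : ℤ)) *
        ∏ i : Fin k, Fc Q (p i.succ) ((P i).eval (n : ℤ) + g x i)‖ ^ 2
        = ∑ x ∈ S, ‖∑ n ∈ Ico a (a + H), w n *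
          ∑ κ ∈ Fintype.piFinset (fun i : Fin k => KS Q (p i.succ).1),
            ∏ i, gk (p i.succ) (κ i) ((P i).eval (n : ℤ) + g x i)‖ ^ 2 := by
          refine Finset.sum_congr rfl fun x _ => ?_
          congr 2
          refine Finset.sum_congr rfl fun n _ => ?_
          rw [hprod (g x) n]
      _ ≤ _ := h1
      _ ≤ _ := by linarith
  · -- case (ii)
    have hcase' : univ.lcm (fun i : Fin k => (p i.succ).1) ≤ fl Q (1 / 32) := not_lt.1 hcase
    obtain ⟨hs1, hs2, hs3, -, -⟩ := hsize Q hQ2' r B.leadingCoeff.natAbs ha1 hB.lc hrQ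
    have hfl7 : fl Q x7 ≤ fl Q (1 / 128) := by
      unfold fl
      apply Nat.floor_le_floor
      exact Real.rpow_le_rpow_of_exponent_le hQr1 (by linarith)
    have hfl1Q : fl Q (1 / 16) ≤ Q := G1_le (by omega) (by norm_num) (by norm_num)
    have hpos : 0 < B.leadingCoeff.natAbs * r * fl Q (1 / 32) :=
      Nat.mul_pos (Nat.mul_pos ha1 hr) h51
    have hp0large : B.leadingCoeff.natAbs * fl Q x7 < (p 0).1 := by
      refine lt_of_le_of_lt (Nat.mul_le_mul_left _ hfl7) ?_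
      by_cases hp0Q : p 0 ∈ PC Q
      · have hpall : ∀ i, p i ∈ PC Q := fun i => Fin.cases hp0Q hp i
        have hnot : ¬ (B.leadingCoeff.natAbs * r).lcm (univ.lcm fun i => (p i).1) ≤ fl Q (1 / 16) := by
          intro hle
          apply hpT
          unfold TSf
          rw [mem_filter, Fintype.mem_piFinset]
          exact ⟨hpall, hle⟩
        rw [not_le] at hnot
        have hdv : univ.lcm (fun i : Fin (k + 1) => (p i).1) ∣
            (p 0).1 * univ.lcm (fun i : Fin k => (p i.succ).1) := by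
          refine Finset.lcm_dvd fun i _ => ?_
          refine Fin.cases (dvd_mul_right _ _) (fun j => ?_) i
          exact (Finset.dvd_lcm (f := fun i : Fin k => (p i.succ).1) (mem_univ j)).trans
            (dvd_mul_left _ _)
        have hl1 : 0 < univ.lcm (fun i : Fin k => (p i.succ).1) := by
          refine Nat.pos_of_ne_zero ?_
          rw [Finset.lcm_ne_zero_iff]
          intro i _
          have := (mem_PC.1 (hp i)).1
          omega
        have hp01 : 0 < (p 0).1 := (mem_PC.1 hp0).1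
        have hle : (B.leadingCoeff.natAbs * r).lcm (univ.lcm fun i => (p i).1) ≤
            B.leadingCoeff.natAbs * r * ((p 0).1 * fl Q (1 / 32)) := by
          calc (B.leadingCoeff.natAbs * r).lcm (univ.lcm fun i => (p i).1)
              ≤ (B.leadingCoeff.natAbs * r) * ((p 0).1 * univ.lcm (fun i : Fin k => (p i.succ).1)) :=
                Nat.le_of_dvd (Nat.mul_pos (Nat.mul_pos ha1 hr) (Nat.mul_pos hp01 hl1))
                  ((Nat.lcm_dvd_mul _ _).trans (Nat.mul_dvd_mul_left _ hdv))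
            _ ≤ _ := Nat.mul_le_mul_left _ (Nat.mul_le_mul_left _ hcase')
        have h1 : B.leadingCoeff.natAbs * r * fl Q (1 / 32) *
            (B.leadingCoeff.natAbs * fl Q (1 / 128)) <
            B.leadingCoeff.natAbs * r * fl Q (1 / 32) * (p 0).1 := by
          calc _ < fl Q (1 / 16) := hs3
            _ < _ := hnot
            _ ≤ _ := hle
            _ = _ := by ring
        exact lt_of_mul_lt_mul_left h1 (Nat.zero_le _)
      · have h1 : Q < (p 0).1 := by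
          by_contra hle
          rw [not_lt] at hle
          obtain ⟨g1, -, g3⟩ := mem_PC.1 hp0
          exact hp0Q (mem_PC.2 ⟨g1, hle, g3⟩)
        have h2 : B.leadingCoeff.natAbs * fl Q (1 / 128) ≤
            B.leadingCoeff.natAbs * r * fl Q (1 / 32) * (B.leadingCoeff.natAbs * fl Q (1 / 128)) :=
          Nat.le_mul_of_pos_left _ hpos
        omega
    set K : Finset (Fin k → ℕ) := Fintype.piFinset (fun i : Fin k => KS Q (p i.succ).1) with hK
    have hT := hgen (K.filter (fun κ => fl Q x7 < univ.lcm (fun i : Fin k => (p i.succ).1 * κ i)))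
      (Finset.filter_subset _ _) (fl Q x7) h71 (fun κ hκ => (mem_filter.1 hκ).2) (hneg x7 (le_refl _))
    have hsm : ∀ h : Fin k → ℕ, ‖∑ n ∈ Ico a (a + H), w n *
        ∑ κ ∈ K.filter (fun κ => ¬ fl Q x7 < univ.lcm (fun i : Fin k => (p i.succ).1 * κ i)),
          ∏ i, gk (p i.succ) (κ i) ((P i).eval (n : ℤ) + h i)‖ ≤ (Q : ℝ) ^ 302 := by
      intro h
      refine (z1l_small Q (fl Q x7) (by omega) P (p 0) hp0 B hB.deg hp0large (fun i => p i.succ) hp
        a H h).trans ?_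
      have h1 : ((fl Q x7 : ℕ) : ℝ) ^ (2 * k + 1) ≤ Q := by
        calc ((fl Q x7 : ℕ) : ℝ) ^ (2 * k + 1) ≤ ((Q : ℝ) ^ x7) ^ (2 * k + 1) :=
              pow_le_pow_left₀ (Nat.cast_nonneg _) h72 _
          _ = (Q : ℝ) ^ (x7 * ((2 * k + 1 : ℕ) : ℝ)) := by
              rw [Real.rpow_mul hQ0.le, Real.rpow_natCast]
          _ ≤ (Q : ℝ) ^ (1 : ℝ) := by
              apply Real.rpow_le_rpow_of_exponent_le hQr1
              rw [hx7]
              push_cast
              rw [one_div_mul_eq_div, div_le_one (by positivity)]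
              linarith
          _ = Q := Real.rpow_one _
      calc 2 * (Q : ℝ) ^ 300 * ((fl Q x7 : ℕ) : ℝ) ^ (2 * k + 1) ≤ Q * (Q : ℝ) ^ 300 * Q := by gcongr
        _ = (Q : ℝ) ^ 302 := by ring
    have hsm2 : ∀ h : Fin k → ℕ, ‖∑ n ∈ Ico a (a + H), w n *
        ∑ κ ∈ K.filter (fun κ => ¬ fl Q x7 < univ.lcm (fun i : Fin k => (p i.succ).1 * κ i)),
          ∏ i, gk (p i.succ) (κ i) ((P i).eval (n : ℤ) + h i)‖ ^ 2 ≤
        1 / 4 * (H ^ 2 * (Q : ℝ) ^ (-(δ / 2))) := by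
      intro h
      refine (pow_le_pow_left₀ (norm_nonneg _) (hsm h) 2).trans ?_
      have h2 : (Q : ℝ) ^ (-(1 : ℝ)) ≤ (Q : ℝ) ^ (-(δ / 2)) :=
        Real.rpow_le_rpow_of_exponent_le hQr1 (by linarith)
      have h3 : (Q : ℝ) ^ (-(1 : ℝ)) = (Q : ℝ)⁻¹ := Real.rpow_neg_one _
      have hHr : (Q : ℝ) ^ 600 ≤ H := by exact_mod_cast hH
      calc ((Q : ℝ) ^ 302) ^ 2 = 1 / 4 * (4 * (Q : ℝ) ^ 604) := by ring
        _ ≤ 1 / 4 * ((Q : ℝ) ^ 2 * (Q : ℝ) ^ 604) := by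
            have : (4 : ℝ) ≤ Q ^ 2 := by nlinarith
            gcongr
        _ ≤ 1 / 4 * (((Q : ℝ) ^ 600) ^ 2 * (Q : ℝ)⁻¹) := by
            rw [← pow_mul, ← pow_add]
            have : (Q : ℝ) ^ (600 * 2) * (Q : ℝ)⁻¹ = (Q : ℝ) ^ 1199 := by
              field_simp
            rw [this]
            have : (Q : ℝ) ^ (2 + 604) ≤ (Q : ℝ) ^ 1199 := pow_le_pow_right₀ hQr1 (by norm_num)
            exact mul_le_mul_of_nonneg_left this (by norm_num)
        _ ≤ 1 / 4 * (H ^ 2 * (Q : ℝ) ^ (-(δ / 2))) := by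
            rw [← h3]
            have h5 : 0 ≤ (Q : ℝ) ^ (-(1 : ℝ)) := Real.rpow_nonneg hQ0.le _
            have h4 : ((Q : ℝ) ^ 600) ^ 2 ≤ (H : ℝ) ^ 2 := pow_le_pow_left₀ (by positivity) hHr 2
            have := mul_le_mul h4 h2 h5 (by positivity)
            linarith
    have hsplit : ∀ h : Fin k → ℕ, ‖∑ n ∈ Ico a (a + H), Fc (Q ^ 100) (p 0) (B.eval (n : ℤ)) *
        ∏ i : Fin k, Fc Q (p i.succ) ((P i).eval (n : ℤ) + h i)‖ ^ 2 ≤
      2 * (1 / 4 * (H ^ 2 * (Q : ℝ) ^ (-(δ / 2)))) + 2 * ‖∑ n ∈ Ico a (a + H), w n *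
        ∑ κ ∈ K.filter (fun κ => fl Q x7 < univ.lcm (fun i : Fin k => (p i.succ).1 * κ i)),
          ∏ i, gk (p i.succ) (κ i) ((P i).eval (n : ℤ) + h i)‖ ^ 2 := by
      intro h
      have e1 : ∑ n ∈ Ico a (a + H), Fc (Q ^ 100) (p 0) (B.eval (n : ℤ)) *
          ∏ i : Fin k, Fc Q (p i.succ) ((P i).eval (n : ℤ) + h i) =
          ∑ n ∈ Ico a (a + H), w n *
          ∑ κ ∈ K.filter (fun κ => ¬ fl Q x7 < univ.lcm (fun i : Fin k => (p i.succ).1 * κ i)),
            ∏ i, gk (p i.succ) (κ i) ((P i).eval (n : ℤ) + h i) +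
          ∑ n ∈ Ico a (a + H), w n *
          ∑ κ ∈ K.filter (fun κ => fl Q x7 < univ.lcm (fun i : Fin k => (p i.succ).1 * κ i)),
            ∏ i, gk (p i.succ) (κ i) ((P i).eval (n : ℤ) + h i) := by
        rw [← Finset.sum_add_distrib]
        refine Finset.sum_congr rfl fun n _ => ?_
        rw [hprod h n, ← mul_add]
        congr 1
        exact ((add_comm _ _).trans (Finset.sum_filter_add_sum_filter_not K _ _)).symm
      rw [e1]
      refine (z1l_sq _ _).trans ?_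
      have := hsm2 h
      linarith
    refine (Finset.sum_le_sum fun x _ => hsplit (g x)).trans ?_
    rw [Finset.sum_add_distrib, Finset.sum_const, nsmul_eq_mul, ← Finset.mul_sum]
    have e3 : (S.card : ℝ) * (2 * (1 / 4 * ((H : ℝ) ^ 2 * (Q : ℝ) ^ (-(δ / 2))))) =
        1 / 2 * ((S.card : ℝ) * H ^ 2 * (Q : ℝ) ^ (-(δ / 2))) := by ring
    rw [e3]
    linarith

end Pool.Agent.HUP
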