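import Pool.Agent.Lib.HUP.Defs
import Pool.Agent.Lib.H24P.Z2A
import Pool.Agent.Lib.HUP.R3
import Pool.Agent.Lib.HUP.R4

/-!
# Project HUP, module R (the modules of H24P for an abstract family), R7: one cell, main term
-/

open Finset Polynomial

namespace Pool.Agent.HUP

open Pool.Agent.Lib.H68T Pool.Agent.Lib.H18Q Pool.Agent.Lib.H59P Pool.Agent.Lib.H24P

/-- **R7** (port of `Z2A_cell`, H24P/Z2A.lean). Proof. As there with `R3_small`, `R4_large`. -/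
theorem R7_cell (k A E : ℕ) (hA : 1 ≤ A) (Cc cc : ℝ) (hC : FPar Cc cc) : ∃ c : ℝ, 0 < c ∧ ∃ Q0 : ℕ, ∀ Q : ℕ, Q0 ≤ Q →
    ∀ B : ℤ[X], Lin A B → ∀ P : Fin k → ℤ[X], Pol A P → ∀ r : ℕ, 1 ≤ r → r ^ 100 ≤ Q →
    ∀ c0 : Ch → ℂ, ∑ p ∈ PC (Q ^ 100), ‖c0 p‖ ≤ 3 → ∀ c' : Fin k → Ch → ℂ,
    (∀ i, ∑ p ∈ PC Q, ‖c' i p‖ ≤ 3) →
    ∀ (ι : Type) (S : Finset ι) (g : ι → Fin k → ℕ), FGood E Cc cc (Q ^ 2) P S g →
    ∀ a H : ℕ, Q ^ 600 ≤ H → Q ^ E ≤ H →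
    ∑ x ∈ S, ‖∑ n ∈ Ico a (a + H), SG (Q ^ 100) c0 (B.eval (n : ℤ)) *
        ∏ i, SG Q (c' i) ((P i).eval (n : ℤ) + g x i) -
      H * MCf Q (B.leadingCoeff.natAbs * r) (Fin.cons c0 c' : Fin (k + 1) → Ch → ℂ) (sys B P (g x))‖ ^ 2 ≤
      S.card * H ^ 2 * (Q : ℝ) ^ (-c) := by
  classical
  obtain ⟨c1, hc1, Q1, h1⟩ := R3_small k A E Cc cc hC
  obtain ⟨c2, hc2, Q2, h2⟩ := R4_large k A E hA Cc cc hC
  have hcm : 0 < min c1 c2 := lt_min hc1 hc2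
  obtain ⟨Q3, hQ31, h3⟩ := G1_rlog (9 ^ (k + 1)) 0 (min c1 c2 / 2) (by linarith)
  refine ⟨min c1 c2 / 2, by linarith, max 1 (max Q1 (max Q2 Q3)), ?_⟩
  intro Q hQ B hB P hP r hr1 hr c0 hc0 c' hc' ι S g hg a H hH hHE
  have hQ1 : 1 ≤ Q := (le_max_left _ _).trans hQ
  have hQQ1 : Q1 ≤ Q := (le_max_left _ _).trans ((le_max_right _ _).trans hQ)
  have hQQ2 : Q2 ≤ Q := (le_max_left _ _).trans ((le_max_right _ _).trans ((le_max_right _ _).trans hQ))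
  have hQQ3 : Q3 ≤ Q := (le_max_right _ _).trans ((le_max_right _ _).trans ((le_max_right _ _).trans hQ))
  have hQ1r : (1 : ℝ) ≤ Q := by exact_mod_cast hQ1
  have hQ0r : (0 : ℝ) < Q := by linarith
  have hV : 0 ≤ (S.card : ℝ) * (H : ℝ) ^ 2 := mul_nonneg (Nat.cast_nonneg _) (sq_nonneg _)
  have h9 : (9 : ℝ) ^ (k + 1) ≤ (Q : ℝ) ^ (min c1 c2 / 2) := by
    have := h3 Q hQQ3
    rwa [Real.rpow_zero, mul_one] at this
  set m0 : ℕ := B.leadingCoeff.natAbs * r with hm0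
  have hlc : 1 ≤ B.leadingCoeff.natAbs := by
    have hB0 : B ≠ 0 := by
      intro h0
      have := hB.deg
      rw [h0, natDegree_zero] at this
      omega
    have : B.leadingCoeff ≠ 0 := leadingCoeff_ne_zero.2 hB0
    omega
  have hm01 : 1 ≤ m0 := Nat.mul_pos hlc hr1
  have hdvd : B.leadingCoeff.natAbs ∣ m0 := Dvd.intro _ rfl
  set W : ℝ := S.card * (H : ℝ) ^ 2 * (Q : ℝ) ^ (-(min c1 c2)) with hW
  have hW0 : 0 ≤ W := mul_nonneg hV (Real.rpow_nonneg hQ0r.le _)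
  have hWle : ∀ c : ℝ, min c1 c2 ≤ c → S.card * (H : ℝ) ^ 2 * (Q : ℝ) ^ (-c) ≤ W := by
    intro c hc
    exact mul_le_mul_of_nonneg_left (Real.rpow_le_rpow_of_exponent_le hQ1r (by linarith)) hV
  set f : (Fin (k + 1) → Ch) → ι → ℂ := fun p x =>
    if p ∈ TSf (k + 1) Q (fl Q (1 / 16)) m0 then z2a_f Q m0 B P a H p (g x) - z2a_g Q m0 B P H p (g x)
    else z2a_f Q m0 B P a H p (g x) with hfdef
  have hf1 : ∀ p ∈ TSf (k + 1) Q (fl Q (1 / 16)) m0, ∀ x, f p x =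
      z2a_f Q m0 B P a H p (g x) - z2a_g Q m0 B P H p (g x) := by
    intro p hp x
    rw [hfdef]
    exact if_pos hp
  have hf2 : ∀ p, p ∉ TSf (k + 1) Q (fl Q (1 / 16)) m0 → ∀ x, f p x = z2a_f Q m0 B P a H p (g x) := by
    intro p hp x
    rw [hfdef]
    exact if_neg hp
  have hdec : ∀ x ∈ S, ‖∑ n ∈ Ico a (a + H), SG (Q ^ 100) c0 (B.eval (n : ℤ)) *
        ∏ i, SG Q (c' i) ((P i).eval (n : ℤ) + g x i) -
      H * MCf Q m0 (Fin.cons c0 c' : Fin (k + 1) → Ch → ℂ) (sys B P (g x))‖ ^ 2 =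
      ‖∑ p ∈ z2a_I k Q, (∏ i, (Fin.cons c0 c' : Fin (k + 1) → Ch → ℂ) i (p i)) * f p x‖ ^ 2 := by
    intro x _
    rw [z2a_dec Q m0 hQ1 B P a H c0 c' (g x) (fun p => f p x) (fun p hp => hf1 p hp x)
      (fun p hp => hf2 p hp x)]
  rw [Finset.sum_congr rfl hdec]
  have hmain := Z2a S (z2a_I k Q)
    (fun p => ∏ i, (Fin.cons c0 c' : Fin (k + 1) → Ch → ℂ) i (p i)) f (3 ^ (k + 1)) W hW0
    (z2a_gam Q c0 hc0 c' hc') ?_
  · refine hmain.trans ?_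
    have e1 : ((3 : ℝ) ^ (k + 1)) ^ 2 = 9 ^ (k + 1) := by
      rw [← pow_mul, mul_comm, pow_mul]
      norm_num
    have e2 : (Q : ℝ) ^ (-(min c1 c2 / 2)) = (Q : ℝ) ^ (min c1 c2 / 2) * (Q : ℝ) ^ (-(min c1 c2)) := by
      rw [← Real.rpow_add hQ0r]
      congr 1
      ring
    rw [e1, e2]
    have e3 := mul_le_mul_of_nonneg_right h9 hW0
    refine e3.trans (le_of_eq ?_)
    rw [hW]
    ring
  · intro p hp
    obtain ⟨hp0, hps⟩ := z2a_mem.1 hp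
    by_cases hpT : p ∈ TSf (k + 1) Q (fl Q (1 / 16)) m0
    · have e1 := h1 Q hQQ1 B hB P hP m0 hm01 hdvd p hpT ι S g hg a H hH hHE
      have e2 : ∑ x ∈ S, ‖f p x‖ ^ 2 = ∑ x ∈ S,
          ‖∑ n ∈ Ico a (a + H), Fc (Q ^ 100) (p 0) (B.eval (n : ℤ)) *
              ∏ i : Fin k, Fc Q (p i.succ) ((P i).eval (n : ℤ) + g x i) -
            H * (MRf p (Rf m0 p) (sys B P (g x)) *
              ((∑ d ∈ SF (fl Q (1 / 2) / Rf m0 p) (Rf m0 p), tdf d (sys B P (g x)) : ℝ) : ℂ))‖ ^ 2 :=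
        Finset.sum_congr rfl fun x _ => by rw [hf1 p hpT x]; rfl
      rw [e2]
      exact e1.trans (hWle c1 (min_le_left _ _))
    · have e1 := h2 Q hQQ2 B hB P hP r hr1 hr p hp0 hps hpT ι S g hg a H hH hHE
      have e2 : ∑ x ∈ S, ‖f p x‖ ^ 2 = ∑ x ∈ S,
          ‖∑ n ∈ Ico a (a + H), Fc (Q ^ 100) (p 0) (B.eval (n : ℤ)) *
              ∏ i : Fin k, Fc Q (p i.succ) ((P i).eval (n : ℤ) + g x i)‖ ^ 2 :=
        Finset.sum_congr rfl fun x _ => by rw [hf2 p hpT x]; rfl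
      rw [e2]
      exact e1.trans (hWle c2 (min_le_right _ _))

end Pool.Agent.HUP
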