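import Pool.Agent.Lib.HUP.Defs
import Pool.Agent.Lib.H24P.Z2B

/-!
# Project HUP, module R (the modules of H24P for an abstract family), R8: the complete main term
-/

open Finset Polynomial

namespace Pool.Agent.HUP

open Pool.Agent.Lib.H68T Pool.Agent.Lib.H18Q Pool.Agent.Lib.H59P Pool.Agent.Lib.H24P

/-- **R8** (port of `Z2B_main`, H24P/Z2B.lean). Proof. As there with `TMb` instead of `TMf`. -/
theorem R8_main (k A E : ℕ) (Cc cc : ℝ) (hT : TMb k A E Cc cc) : ∃ c : ℝ, 0 < c ∧ ∃ Q0 : ℕ, ∀ Q : ℕ, Q0 ≤ Q →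
    ∀ B : ℤ[X], Lin A B → ∀ P : Fin k → ℤ[X], Pol A P → ∀ r : ℕ, 1 ≤ r → r ^ 100 ≤ Q →
    ∀ c' : Fin (k + 1) → Ch → ℂ, (∀ i, ∑ p ∈ PC Q, ‖c' i p‖ ≤ 3) →
    ∀ (ι : Type) (S : Finset ι) (g : ι → Fin k → ℕ), FGood E Cc cc (Q ^ 2) P S g →
    ∑ x ∈ S, ‖MCf Q (B.leadingCoeff.natAbs * r) c' (sys B P (g x)) -
      MDf Q (B.leadingCoeff.natAbs * r) c' (sys B P (g x))‖ ^ 2 ≤ S.card * (Q : ℝ) ^ (-c) := by
  classical
  obtain ⟨c1, hc1, Q1, h1⟩ := hT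
  obtain ⟨Q3, hQ31, h3⟩ := G1_rlog (36 ^ (k + 1)) ((2 * (k + 1) : ℕ) : ℝ) (c1 / 2) (by linarith)
  refine ⟨c1 / 2, by linarith, max 1 (max Q1 Q3), ?_⟩
  intro Q hQ B hB P hP r hr1 hr c' hc' ι S g hF
  have hQ1 : 1 ≤ Q := (le_max_left _ _).trans hQ
  have hQQ1 : Q1 ≤ Q := (le_max_left _ _).trans ((le_max_right _ _).trans hQ)
  have hQQ3 : Q3 ≤ Q := (le_max_right _ _).trans ((le_max_right _ _).trans hQ)
  have hQ0r : (0 : ℝ) < Q := by exact_mod_cast hQ1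
  have hlog0 : 0 ≤ Real.log Q := Real.log_natCast_nonneg Q
  have hV : (0 : ℝ) ≤ (S.card : ℝ) := Nat.cast_nonneg _
  have hlc : 1 ≤ B.leadingCoeff.natAbs := by
    have hB0 : B ≠ 0 := by
      intro h0
      have := hB.deg
      rw [h0, natDegree_zero] at this
      omega
    have : B.leadingCoeff ≠ 0 := leadingCoeff_ne_zero.2 hB0
    omega
  set m0 : ℕ := B.leadingCoeff.natAbs * r with hm0
  have hm01 : 1 ≤ m0 := Nat.mul_pos hlc hr1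
  have hdvd : B.leadingCoeff.natAbs ∣ m0 := Dvd.intro _ rfl
  set D1 : ℕ := fl Q (1 / 16) with hD1
  have hD1Q : D1 ≤ Q := G1_le hQ1 (by norm_num) (by norm_num)
  set L1 : ℝ := (2 * (1 + Real.log Q)) ^ (k + 1) with hL1
  have hL10 : 0 ≤ L1 := by positivity
  set W : ℝ := L1 ^ 2 * ((S.card : ℝ) * (Q : ℝ) ^ (-c1)) with hW
  have hQc0 : 0 ≤ (Q : ℝ) ^ (-c1) := Real.rpow_nonneg hQ0r.le _
  have hW0 : 0 ≤ W := mul_nonneg (sq_nonneg _) (mul_nonneg hV hQc0)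
  set f : (Fin (k + 1) → Ch) → ι → ℂ := fun p x =>
    MRf p (Rf m0 p) (sys B P (g x)) *
      (((∑ d ∈ SF (fl Q (1 / 2) / Rf m0 p) (Rf m0 p), tdf d (sys B P (g x)) -
        SSf ((pr Q).filter (fun l => ¬ l ∣ Rf m0 p)) (sys B P (g x)) : ℝ) : ℂ)) with hfdef
  have hdec : ∀ x ∈ S, ‖MCf Q m0 c' (sys B P (g x)) - MDf Q m0 c' (sys B P (g x))‖ ^ 2 =
      ‖∑ p ∈ TSf (k + 1) Q D1 m0, (∏ i, c' i (p i)) * f p x‖ ^ 2 := by
    intro x _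
    congr 2
    unfold MCf MDf
    rw [← Finset.sum_sub_distrib]
    refine Finset.sum_congr rfl fun p hp => ?_
    obtain ⟨hR0, hRD, hd, hmR⟩ := z2b_R Q D1 m0 hm01 p hp
    have hfac : Rf m0 p ∣ Q.factorial := Nat.dvd_factorial hR0 (hRD.trans hD1Q)
    have e1 := P3_M5 (sys B P (g x)) (P2_sys B P (g x)) Q (Rf m0 p) hR0 hfac p hd
    rw [← e1, hfdef]
    beta_reduce
    rw [Complex.ofReal_sub]
    ring
  rw [Finset.sum_congr rfl hdec]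
  have hmain := Z2a S (TSf (k + 1) Q D1 m0) (fun p => ∏ i, c' i (p i)) f (3 ^ (k + 1)) W hW0
    (z2b_gam Q D1 m0 c' hc') ?_
  · refine hmain.trans ?_
    have e1 : ((3 : ℝ) ^ (k + 1)) ^ 2 * L1 ^ 2 =
        36 ^ (k + 1) * (1 + Real.log Q) ^ ((2 * (k + 1) : ℕ) : ℝ) := by
      rw [hL1, Real.rpow_natCast, ← mul_pow, ← mul_pow, ← pow_mul, mul_comm (k + 1) 2, pow_mul,
        pow_mul, ← mul_pow]
      congr 1
      ring
    have e2 : (Q : ℝ) ^ (-(c1 / 2)) = (Q : ℝ) ^ (c1 / 2) * (Q : ℝ) ^ (-c1) := by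
      rw [← Real.rpow_add hQ0r]
      congr 1
      ring
    have e3 := h3 Q hQQ3
    have e4 : ((3 : ℝ) ^ (k + 1)) ^ 2 * W =
        (((3 : ℝ) ^ (k + 1)) ^ 2 * L1 ^ 2) * ((S.card : ℝ) * (Q : ℝ) ^ (-c1)) := by
      rw [hW]
      ring
    rw [e4, e1, e2]
    have e5 := mul_le_mul_of_nonneg_right e3 (mul_nonneg hV hQc0)
    refine e5.trans (le_of_eq ?_)
    ring
  · intro p hp
    obtain ⟨hR0, hRD, hd, hmR⟩ := z2b_R Q D1 m0 hm01 p hp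
    have hRQ : Rf m0 p ≤ Q := hRD.trans hD1Q
    have e1 := h1 Q hQQ1 B hB P hP ι S g hF (Rf m0 p) hR0 hRD (hdvd.trans hmR)
    rw [hW]
    refine le_trans ?_ (mul_le_mul_of_nonneg_left e1 (sq_nonneg L1))
    rw [Finset.mul_sum]
    refine Finset.sum_le_sum fun x _ => ?_
    rw [hfdef]
    beta_reduce
    rw [norm_mul, Complex.norm_real, mul_pow, Real.norm_eq_abs, sq_abs]
    refine mul_le_mul_of_nonneg_right ?_ (sq_nonneg _)
    exact pow_le_pow_left₀ (norm_nonneg _) (z2b_MR Q p (Rf m0 p) hR0 hRQ _) 2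

end Pool.Agent.HUP
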