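import Pool.Agent.Lib.HUP.Defs
import Pool.Agent.Lib.H24P.Z2
import Pool.Agent.Lib.HUP.R7
import Pool.Agent.Lib.HUP.R8

/-!
# Project HUP, module R (the modules of H24P for an abstract family), R9: from the frozen sums to the main term
-/

open Finset Polynomial

namespace Pool.Agent.HUP

open Pool.Agent.Lib.H68T Pool.Agent.Lib.H18Q Pool.Agent.Lib.H59P Pool.Agent.Lib.H24P

theorem r9_X {K C : ℝ} {E Q X X1 : ℕ} (hK : 1500 + (E : ℝ) ≤ K) (hQ : 1 ≤ Q) (hR : Rg K C Q X) (hX : 0 < X)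
    (hX1 : X ≤ X1 * Q) : Q ^ 600 ≤ X1 / Q ^ 800 ∧ Q ^ E ≤ X1 / Q ^ 800 := by
  have hQr : (0 : ℝ) < Q := by exact_mod_cast hQ
  have hXr : (0 : ℝ) < X := by exact_mod_cast hX
  have hlQ : 0 ≤ Real.log Q := Real.log_natCast_nonneg Q
  have h1 : Real.log ((Q : ℝ) ^ (1500 + E)) ≤ Real.log X := by
    rw [Real.log_pow]
    refine le_trans ?_ hR.1
    push_cast
    exact mul_le_mul_of_nonneg_right hK hlQ
  have h2 : (Q : ℝ) ^ (1500 + E) ≤ X := (Real.log_le_log_iff (by positivity) hXr).1 h1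
  have h3 : Q ^ (1500 + E) ≤ X := by exact_mod_cast h2
  have h4 : Q ^ (1499 + E) * Q ≤ X1 * Q := by
    calc Q ^ (1499 + E) * Q = Q ^ (1500 + E) := by ring
      _ ≤ X := h3
      _ ≤ X1 * Q := hX1
  have h5 : Q ^ (1499 + E) ≤ X1 := Nat.le_of_mul_le_mul_right h4 hQ
  rw [Nat.le_div_iff_mul_le (Nat.pow_pos hQ), Nat.le_div_iff_mul_le (Nat.pow_pos hQ)]
  constructor
  · calc Q ^ 600 * Q ^ 800 = Q ^ 1400 := by ring
      _ ≤ Q ^ (1499 + E) := Nat.pow_le_pow_right hQ (by omega)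
      _ ≤ X1 := h5
  · calc Q ^ E * Q ^ 800 = Q ^ (E + 800) := by ring
      _ ≤ Q ^ (1499 + E) := Nat.pow_le_pow_right hQ (by omega)
      _ ≤ X1 := h5

/-- From the short cells to the dyadic interval. -/
theorem r9_cells {ι : Type} (S : Finset ι) (X1 H N : ℕ) (hX : X1 = H * N) (W : ℝ) (F : ι → ℕ → ℂ)
    (hF : ∀ j < N, ∑ x ∈ S, ‖∑ n ∈ Ico (X1 + j * H) (X1 + j * H + H), F x n‖ ^ 2 ≤ (S.card : ℝ) * H ^ 2 * W) :
    ∑ x ∈ S, ‖∑ n ∈ Ico X1 (2 * X1), F x n‖ ^ 2 ≤ (S.card : ℝ) * X1 ^ 2 * W := by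
  have h2 : 2 * X1 = X1 + N * H := by
    have : N * H = X1 := by rw [hX]; ring
    omega
  calc ∑ x ∈ S, ‖∑ n ∈ Ico X1 (2 * X1), F x n‖ ^ 2
      ≤ ∑ x ∈ S, (N : ℝ) * ∑ j ∈ range N, ‖∑ n ∈ Ico (X1 + j * H) (X1 + j * H + H), F x n‖ ^ 2 := by
        refine Finset.sum_le_sum (fun h _ => ?_)
        rw [h2, z2_cells]
        exact z2_cs _ _
    _ = (N : ℝ) * ∑ j ∈ range N, ∑ x ∈ S, ‖∑ n ∈ Ico (X1 + j * H) (X1 + j * H + H), F x n‖ ^ 2 := by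
        rw [← Finset.mul_sum, Finset.sum_comm]
    _ ≤ (N : ℝ) * ∑ j ∈ range N, (S.card : ℝ) * H ^ 2 * W := by
        refine mul_le_mul_of_nonneg_left ?_ (by positivity)
        exact Finset.sum_le_sum (fun j hj => hF j (mem_range.mp hj))
    _ = (N : ℝ) * (N * ((S.card : ℝ) * H ^ 2 * W)) := by
        rw [Finset.sum_const, card_range, nsmul_eq_mul]
    _ = (S.card : ℝ) * X1 ^ 2 * W := by
        rw [hX]
        push_cast
        ring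

/-- **R9** (port of `Z2_main`, H24P/Z2.lean). Proof. No cells for `h` here (one base point `h0`). Cut `[X1, 2 X1)` into
the `Q^800` cells of length `H = X1/Q^800`; on a cell `cfb … n = Fin.cons c0 c'` is constant (`E1_bs`, `E1_fine`), total sizes
`≤ 3` (`Cf.le`, `Cf.sum`, `GeoB`, `G2_P`, `G2_val`, `h0 ∈ cub M M`): `R7_cell`, `R8_main` (times `H²`), `‖x+y‖² ≤ 2‖x‖² + 2‖y‖²`,
`‖∑_j‖² ≤ N ∑_j ‖·‖²`. `Q^600 ≤ H`, `Q^E ≤ H` for `K` large in terms of `E` (`K = 1500 + E` or so). -/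
theorem R9_main {k : ℕ} (P : Fin k → ℤ[X]) (A E : ℕ) (hA : 1 ≤ A) (hP : Pol A P) (Cc cc : ℝ) (hC : FPar Cc cc)
    (hT : TMb k A E Cc cc) : ∃ c K : ℝ, 0 < c ∧ 1 ≤ K ∧ ∃ L : ℕ, 2 ≤ L ∧ ∀ C : ℝ, ∃ Q0 : ℕ,
    ∀ (Q X X1 Y : ℕ) (M : Fin k → ℕ) (B : ℤ[X]) (C0 : ℤ → Ch → ℂ) (mb : Ch → ℝ), Q0 ≤ Q →
    Rg K C Q X → Geo L Q X X1 P M → GeoB A X X1 Y B → Cf (Q ^ 100) Y C0 mb →
    ∀ (C' : Fin k → ℤ → Ch → ℂ) (mc : Fin k → Ch → ℝ), (∀ i, Cf Q (Ysc (M i)) (C' i) (mc i)) →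
    ∀ r : ℕ, 1 ≤ r → r ^ 100 ≤ Q →
    ∀ (ι : Type) (S : Finset ι) (g : ι → Fin k → ℕ) (h0 : Fin k → ℕ), Cl E Cc cc Q P M S g h0 →
    ∑ x ∈ S, ‖Rzb Q X1 P C' (gB Q X1 B C0) h0 (g x) -
      MZb Q X1 (B.leadingCoeff.natAbs * r) P B C0 C' h0 (g x)‖ ^ 2 ≤
      (X1 : ℝ) ^ 2 * S.card * (Q : ℝ) ^ (-c) := by
  classical
  obtain ⟨c1, hc1, Q1, hZA⟩ := R7_cell k A E hA Cc cc hC
  obtain ⟨c2, hc2, Q2, hZB⟩ := R8_main k A E Cc cc hT
  obtain ⟨L, hL2, hL⟩ := G2_P P hP.deg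
  have hcm : 0 < min c1 c2 := lt_min hc1 hc2
  obtain ⟨Q3, hQ3, hlog⟩ := G1_rlog 4 0 (min c1 c2 / 2) (by positivity)
  have hE0 : (0 : ℝ) ≤ E := Nat.cast_nonneg _
  refine ⟨min c1 c2 / 2, 1500 + (E : ℝ), by positivity, by linarith, L, hL2, fun C => ⟨max (max Q1 Q2) (max Q3 1), ?_⟩⟩
  intro Q X X1 Y M B C0 mb hQ hRg hG hB hCf C' mc hCc r hr hr100 ι S g h0 hCl
  have hQ1' : Q1 ≤ Q := (le_max_left _ _).trans ((le_max_left _ _).trans hQ)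
  have hQ2' : Q2 ≤ Q := (le_max_right _ _).trans ((le_max_left _ _).trans hQ)
  have hQ3' : Q3 ≤ Q := (le_max_left _ _).trans ((le_max_right _ _).trans hQ)
  have hQ1 : 1 ≤ Q := (le_max_right _ _).trans ((le_max_right _ _).trans hQ)
  have hQr : (1 : ℝ) ≤ Q := by exact_mod_cast hQ1
  have hQr0 : (0 : ℝ) < Q := by linarith
  have hQ8 : 0 < Q ^ 8 := Nat.pow_pos hQ1
  have hQ800 : 0 < Q ^ 800 := Nat.pow_pos hQ1
  have hXpos : 0 < X := hG.pos.trans_le hG.le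
  set H : ℕ := X1 / Q ^ 800 with hH
  have hXH : X1 = H * Q ^ 800 := (Nat.div_mul_cancel hG.dvd).symm
  obtain ⟨hH600, hHE⟩ := r9_X (E := E) le_rfl hQ1 hRg hXpos hG.ge
  have hHpos : 0 < H := (Nat.pow_pos hQ1).trans_le hH600
  -- the difference
  set m0 : ℕ := B.leadingCoeff.natAbs * r with hm0
  set F : ι → ℕ → ℂ := fun x n => gB Q X1 B C0 n *
    ∏ i, SG Q (C' i ((P i).eval ((bs (X1 / Q ^ 8) n : ℕ) : ℤ) + (h0 i : ℤ))) ((P i).eval (n : ℤ) + g x i) -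
    MDf Q m0 (cfb Q X1 P B C0 C' h0 n) (sys B P (g x)) with hF
  have hdiff : ∀ x : ι, Rzb Q X1 P C' (gB Q X1 B C0) h0 (g x) - MZb Q X1 m0 P B C0 C' h0 (g x) =
      ∑ n ∈ Ico X1 (2 * X1), F x n := by
    intro x
    unfold Rzb MZb
    rw [← Finset.sum_sub_distrib]
  rw [Finset.sum_congr rfl fun x _ => by rw [hdiff x]]
  have hE := r9_cells S X1 H (Q ^ 800) hXH ((Q : ℝ) ^ (-(min c1 c2 / 2))) F ?_
  · refine hE.trans (le_of_eq ?_)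
    ring
  intro j hj
  have hjH' : j * H + H ≤ X1 := by
    have h1 : (j + 1) * H ≤ Q ^ 800 * H := Nat.mul_le_mul_right H hj
    have h2 : (j + 1) * H = j * H + H := by ring
    have h3 : Q ^ 800 * H = X1 := by rw [mul_comm]; exact hXH.symm
    omega
  have haI : X1 + j * H ∈ Ico X1 (2 * X1) := by
    rw [mem_Ico]
    omega
  -- the base points
  have hbsn : ∀ n ∈ Ico (X1 + j * H) (X1 + j * H + H), bs (X1 / Q ^ 800) n = X1 + j * H := by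
    intro n hn
    have h1 := mem_Ico.1 hn
    have h2 : X1 + j * H = (Q ^ 800 + j) * H := by
      conv_lhs => rw [hXH]
      ring
    rw [h2] at h1 ⊢
    exact z2_bs hHpos _ _ h1.1 h1.2
  have hdX8 : Q ^ 8 ∣ X1 := (pow_dvd_pow Q (by norm_num)).trans hG.dvd
  have hHc : X1 / Q ^ 8 = H * Q ^ 792 := by
    refine Nat.div_eq_of_eq_mul_left hQ8 ?_
    rw [mul_assoc, ← pow_add]
    exact hXH
  have hHcX : X1 / Q ^ 8 ∣ X1 := Nat.div_dvd_of_dvd hdX8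
  have hHcpos : 0 < X1 / Q ^ 8 := by
    rw [hHc]
    exact Nat.mul_pos hHpos (Nat.pow_pos hQ1)
  have hbsc : ∀ n ∈ Ico (X1 + j * H) (X1 + j * H + H),
      bs (X1 / Q ^ 8) n = bs (X1 / Q ^ 8) (X1 + j * H) := fun n hn =>
    E1_fine hHpos (Nat.pow_pos hQ1) hHc hHcX hn
  -- the base point of the long cell is in the range
  have hbI : bs (X1 / Q ^ 8) (X1 + j * H) ∈ Ico X1 (2 * X1) := by
    have h1 : bs (X1 / Q ^ 8) (X1 + j * H) ≤ X1 + j * H := by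
      unfold bs
      exact Nat.div_mul_le_self _ _
    have h2 : X1 ≤ bs (X1 / Q ^ 8) (X1 + j * H) := by
      unfold bs
      calc X1 = X1 / (X1 / Q ^ 8) * (X1 / Q ^ 8) := (Nat.div_mul_cancel hHcX).symm
        _ ≤ _ := Nat.mul_le_mul_right _ (Nat.div_le_div_right (by omega))
    have h3 := (mem_Ico.1 haI).2
    rw [mem_Ico]
    omega
  set c0 : Ch → ℂ := C0 (B.eval ((X1 + j * H : ℕ) : ℤ)) with hc0
  set c' : Fin k → Ch → ℂ := fun i =>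
    C' i ((P i).eval ((bs (X1 / Q ^ 8) (X1 + j * H) : ℕ) : ℤ) + (h0 i : ℤ)) with hc'
  have hcfz : ∀ n ∈ Ico (X1 + j * H) (X1 + j * H + H),
      cfb Q X1 P B C0 C' h0 n = (Fin.cons c0 c' : Fin (k + 1) → Ch → ℂ) := by
    intro n hn
    unfold cfb
    rw [hbsn n hn, hbsc n hn]
  -- sizes
  have hsz0 : ∑ p ∈ PC (Q ^ 100), ‖c0 p‖ ≤ 3 := by
    refine (Finset.sum_le_sum fun p hp => ?_).trans hCf.sum
    have h1 := hB.lo _ haI
    have h2 := hB.hi _ haI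
    exact hCf.le _ h1 (by linarith) p hp
  have hsz : ∀ i, ∑ p ∈ PC Q, ‖c' i p‖ ≤ 3 := by
    intro i
    have hx : h0 i ∈ Ico (M i) (2 * M i) := by
      have h1 := hCl.memb
      unfold cub at h1
      have h2 := mem_Ico.1 (Fintype.mem_piFinset.1 h1 i)
      rw [mem_Ico]
      omega
    have hv := (hL Q X X1 M hG i _ hbI).1
    have hd8 : 8 ∣ M i := (Dvd.intro _ rfl).trans (hG.dvdM i)
    have h5 := G2_val (M i) (h0 i) _ hd8 hv hx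
    refine (Finset.sum_le_sum fun p hp => ?_).trans (hCc i).sum
    refine (hCc i).le _ h5.1 ?_ p hp
    have h6 : (0 : ℤ) ≤ Ysc (M i) := Nat.cast_nonneg _
    linarith [h5.2.1]
  have hsz' : ∀ i : Fin (k + 1), ∑ p ∈ PC Q, ‖(Fin.cons c0 c' : Fin (k + 1) → Ch → ℂ) i p‖ ≤ 3 := by
    intro i
    refine Fin.cases ?_ (fun i => ?_) i
    · rw [Fin.cons_zero]
      exact (Finset.sum_le_sum_of_subset_of_nonneg (z2f_PC hQ1) fun _ _ _ => norm_nonneg _).trans hsz0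
    · rw [Fin.cons_succ]
      exact hsz i
  have hA1 := hZA Q hQ1' B hB.lin P hP r hr hr100 c0 hsz0 c' hsz ι S g hCl.good
    (X1 + j * H) H hH600 hHE
  have hB1 := hZB Q hQ2' B hB.lin P hP r hr hr100 (Fin.cons c0 c') hsz' ι S g hCl.good
  rw [← hm0] at hA1 hB1
  have hv0 : (0 : ℝ) ≤ S.card := Nat.cast_nonneg _
  have hsplit : ∀ x ∈ S,
      ‖∑ n ∈ Ico (X1 + j * H) (X1 + j * H + H), F x n‖ ^ 2 ≤
      2 * ‖∑ n ∈ Ico (X1 + j * H) (X1 + j * H + H), SG (Q ^ 100) c0 (B.eval (n : ℤ)) *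
        ∏ i, SG Q (c' i) ((P i).eval (n : ℤ) + g x i) -
        H * MCf Q m0 (Fin.cons c0 c' : Fin (k + 1) → Ch → ℂ) (sys B P (g x))‖ ^ 2 +
      2 * ((H : ℝ) ^ 2 * ‖MCf Q m0 (Fin.cons c0 c' : Fin (k + 1) → Ch → ℂ) (sys B P (g x)) -
        MDf Q m0 (Fin.cons c0 c' : Fin (k + 1) → Ch → ℂ) (sys B P (g x))‖ ^ 2) := by
    intro x hx
    have h1 : ∑ n ∈ Ico (X1 + j * H) (X1 + j * H + H), F x n =
        (∑ n ∈ Ico (X1 + j * H) (X1 + j * H + H), SG (Q ^ 100) c0 (B.eval (n : ℤ)) *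
        ∏ i, SG Q (c' i) ((P i).eval (n : ℤ) + g x i) -
        H * MCf Q m0 (Fin.cons c0 c' : Fin (k + 1) → Ch → ℂ) (sys B P (g x))) +
        H * (MCf Q m0 (Fin.cons c0 c' : Fin (k + 1) → Ch → ℂ) (sys B P (g x)) -
        MDf Q m0 (Fin.cons c0 c' : Fin (k + 1) → Ch → ℂ) (sys B P (g x))) := by
      have h2 : ∑ n ∈ Ico (X1 + j * H) (X1 + j * H + H), F x n =
          ∑ n ∈ Ico (X1 + j * H) (X1 + j * H + H), (SG (Q ^ 100) c0 (B.eval (n : ℤ)) *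
          ∏ i, SG Q (c' i) ((P i).eval (n : ℤ) + g x i) -
          MDf Q m0 (Fin.cons c0 c' : Fin (k + 1) → Ch → ℂ) (sys B P (g x))) := by
        refine Finset.sum_congr rfl fun n hn => ?_
        rw [hF]
        simp only
        rw [hcfz n hn]
        unfold gB
        rw [hbsn n hn, hbsc n hn]
      rw [h2, Finset.sum_sub_distrib, Finset.sum_const, Nat.card_Ico, nsmul_eq_mul]
      have h3 : X1 + j * H + H - (X1 + j * H) = H := by omega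
      rw [h3]
      ring
    rw [h1]
    generalize (∑ n ∈ Ico (X1 + j * H) (X1 + j * H + H), SG (Q ^ 100) c0 (B.eval (n : ℤ)) *
        ∏ i, SG Q (c' i) ((P i).eval (n : ℤ) + g x i) -
        H * MCf Q m0 (Fin.cons c0 c' : Fin (k + 1) → Ch → ℂ) (sys B P (g x))) = x
    generalize (MCf Q m0 (Fin.cons c0 c' : Fin (k + 1) → Ch → ℂ) (sys B P (g _)) -
        MDf Q m0 (Fin.cons c0 c' : Fin (k + 1) → Ch → ℂ) (sys B P (g _))) = y
    have h4 : ‖x + H * y‖ ≤ ‖x‖ + H * ‖y‖ := by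
      refine (norm_add_le _ _).trans (le_of_eq ?_)
      rw [norm_mul, Complex.norm_natCast]
    have h5 : ‖x + H * y‖ ^ 2 ≤ (‖x‖ + H * ‖y‖) ^ 2 := pow_le_pow_left₀ (norm_nonneg _) h4 2
    nlinarith [sq_nonneg (‖x‖ - H * ‖y‖)]
  have hpow : 2 * (Q : ℝ) ^ (-c1) + 2 * (Q : ℝ) ^ (-c2) ≤ (Q : ℝ) ^ (-(min c1 c2 / 2)) := by
    have h1 : (Q : ℝ) ^ (-c1) ≤ (Q : ℝ) ^ (-(min c1 c2)) :=
      Real.rpow_le_rpow_of_exponent_le hQr (by linarith [min_le_left c1 c2])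
    have h2 : (Q : ℝ) ^ (-c2) ≤ (Q : ℝ) ^ (-(min c1 c2)) :=
      Real.rpow_le_rpow_of_exponent_le hQr (by linarith [min_le_right c1 c2])
    have h3 : (Q : ℝ) ^ (-(min c1 c2 / 2)) = (Q : ℝ) ^ (min c1 c2 / 2) * (Q : ℝ) ^ (-(min c1 c2)) := by
      rw [← Real.rpow_add hQr0]
      congr 1
      ring
    have h4 := hlog Q hQ3'
    rw [Real.rpow_zero, mul_one] at h4
    have h5 : 0 ≤ (Q : ℝ) ^ (-(min c1 c2)) := Real.rpow_nonneg hQr0.le _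
    rw [h3]
    nlinarith [mul_le_mul_of_nonneg_right h4 h5]
  calc ∑ x ∈ S,
        ‖∑ n ∈ Ico (X1 + j * H) (X1 + j * H + H), F x n‖ ^ 2
      ≤ ∑ x ∈ S,
      (2 * ‖∑ n ∈ Ico (X1 + j * H) (X1 + j * H + H), SG (Q ^ 100) c0 (B.eval (n : ℤ)) *
        ∏ i, SG Q (c' i) ((P i).eval (n : ℤ) + g x i) -
        H * MCf Q m0 (Fin.cons c0 c' : Fin (k + 1) → Ch → ℂ) (sys B P (g x))‖ ^ 2 +
      2 * ((H : ℝ) ^ 2 * ‖MCf Q m0 (Fin.cons c0 c' : Fin (k + 1) → Ch → ℂ) (sys B P (g x)) -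
        MDf Q m0 (Fin.cons c0 c' : Fin (k + 1) → Ch → ℂ) (sys B P (g x))‖ ^ 2)) :=
        Finset.sum_le_sum hsplit
    _ ≤ 2 * (S.card * H ^ 2 * (Q : ℝ) ^ (-c1)) + 2 * ((H : ℝ) ^ 2 * (S.card * (Q : ℝ) ^ (-c2))) := by
        rw [Finset.sum_add_distrib, ← Finset.mul_sum, ← Finset.mul_sum, ← Finset.mul_sum]
        gcongr
    _ = S.card * H ^ 2 * (2 * (Q : ℝ) ^ (-c1) + 2 * (Q : ℝ) ^ (-c2)) := by ring
    _ ≤ S.card * H ^ 2 * (Q : ℝ) ^ (-(min c1 c2 / 2)) :=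
        mul_le_mul_of_nonneg_left hpow (mul_nonneg hv0 (sq_nonneg _))

end Pool.Agent.HUP
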