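import Pool.Agent.Lib.HUP.Defs
import Pool.Agent.Lib.H24P.V1
import Pool.Agent.Lib.H24P.V2
import Pool.Agent.Lib.H21AP.DivisorBound

/-!
# Project HUP, module R (the modules of H24P for an abstract family), R13: freezing the coefficients, pointwise
-/

open Finset Polynomial

namespace Pool.Agent.HUP

open Pool.Agent.Lib.H68T Pool.Agent.Lib.H18Q Pool.Agent.Lib.H59P Pool.Agent.Lib.H24P

/-- The divisor function is small. Proof. `dQ Q m ≤` the number of divisors of `|m|` (`m ≠ 0`), `divisor_bound` of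
`H21AP/DivisorBound.lean` with the exponent `ε/(2 C (A + 2))` (for `C ≥ 1`; else replace `C` by `max C 1`): `|m| ≤ X^(A+2)`,
`X ≤ Q^C`. -/
theorem R13_dQ (A : ℕ) (C ε : ℝ) (hε : 0 < ε) : ∃ Q0 : ℕ, ∀ (Q X : ℕ) (m : ℤ), Q0 ≤ Q → 1 ≤ X →
    Real.log X ≤ C * Real.log Q → m ≠ 0 → |m| ≤ (X : ℤ) ^ (A + 2) → dQ Q m ≤ (Q : ℝ) ^ ε := by
  obtain ⟨C', hC'⟩ : ∃ C' : ℝ, C' = max C 1 := ⟨_, rfl⟩
  have hC1 : 1 ≤ C' := by rw [hC']; exact le_max_right _ _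
  have hCC : C ≤ C' := by rw [hC']; exact le_max_left _ _
  have hA : (0 : ℝ) < (A : ℝ) + 2 := by positivity
  obtain ⟨K, hK, hdiv⟩ := Pool.Agent.Lib.H21AP.divisor_bound (ε := ε / (2 * C' * (A + 2))) (by positivity)
  obtain ⟨Q0, hQ01, hQ0⟩ := G1_rlog K 0 (ε / 2) (by positivity)
  refine ⟨Q0, fun Q X m hQ hX hlog hm hmX => ?_⟩
  have hQ1 : 1 ≤ Q := hQ01.trans hQ
  have hQr : (0 : ℝ) < Q := by exact_mod_cast hQ1
  have hlogQ : 0 ≤ Real.log Q := Real.log_natCast_nonneg Q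
  have hXr : (0 : ℝ) < X := by exact_mod_cast hX
  have hK2 := hQ0 Q hQ
  rw [Real.rpow_zero, mul_one] at hK2
  have hnat : 1 ≤ m.natAbs := Int.natAbs_pos.2 hm
  have hcard : ((Icc 1 Q).filter (fun d : ℕ => (d : ℤ) ∣ m)).card ≤ m.natAbs.divisors.card := by
    apply Finset.card_le_card
    intro d hd
    rw [Finset.mem_filter] at hd
    rw [Nat.mem_divisors]
    exact ⟨Int.natCast_dvd.1 hd.2, by omega⟩
  have h1 : dQ Q m ≤ K * (m.natAbs : ℝ) ^ (ε / (2 * C' * (A + 2))) := by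
    unfold dQ
    exact (Nat.cast_le.2 hcard).trans (hdiv _ hnat)
  have h2 : (m.natAbs : ℝ) ≤ (X : ℝ) ^ (A + 2) := by
    have h3 : ((m.natAbs : ℤ) : ℤ) ≤ (X : ℤ) ^ (A + 2) := by
      rw [Int.natCast_natAbs]
      exact hmX
    exact_mod_cast h3
  have h4 : (m.natAbs : ℝ) ^ (ε / (2 * C' * (A + 2))) ≤ (Q : ℝ) ^ (ε / 2) := by
    calc (m.natAbs : ℝ) ^ (ε / (2 * C' * (A + 2))) ≤ ((X : ℝ) ^ (A + 2)) ^ (ε / (2 * C' * (A + 2))) :=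
          Real.rpow_le_rpow (Nat.cast_nonneg _) h2 (by positivity)
      _ = Real.exp (Real.log X * (ε / (2 * C'))) := by
          rw [← Real.rpow_natCast, ← Real.rpow_mul hXr.le, Real.rpow_def_of_pos hXr]
          congr 1
          push_cast
          field_simp
      _ ≤ Real.exp (Real.log Q * (ε / 2)) := by
          apply Real.exp_le_exp.2
          have h5 : Real.log X ≤ C' * Real.log Q := hlog.trans (mul_le_mul_of_nonneg_right hCC hlogQ)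
          calc Real.log X * (ε / (2 * C')) ≤ C' * Real.log Q * (ε / (2 * C')) :=
                mul_le_mul_of_nonneg_right h5 (by positivity)
            _ = Real.log Q * (ε / 2) := by field_simp
      _ = (Q : ℝ) ^ (ε / 2) := by rw [Real.rpow_def_of_pos hQr]
  calc dQ Q m ≤ K * (m.natAbs : ℝ) ^ (ε / (2 * C' * (A + 2))) := h1
    _ ≤ (Q : ℝ) ^ (ε / 2) * (Q : ℝ) ^ (ε / 2) := mul_le_mul hK2 h4 (by positivity) (by positivity)
    _ = (Q : ℝ) ^ ε := by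
        rw [← Real.rpow_add hQr]
        congr 1
        ring

/-- Pointwise comparison with a base point of the cell (copy of `V1_pt` of H24P). -/
theorem r13_pt {k : ℕ} (P : Fin k → ℤ[X]) (L Q X X1 : ℕ) (hQ : 1 ≤ Q) (M : Fin k → ℕ)
    (hG : Geo L Q X X1 P M) (hP : ∀ i, ∀ n ∈ Ico X1 (2 * X1),
      8 * |(P i).eval (n : ℤ)| ≤ M i ∧ ∀ n' ∈ Ico X1 (2 * X1), n ≤ n' → (n' - n) * Q ^ 8 ≤ X1 →
        (Q : ℤ) ^ 8 * |(P i).eval (n' : ℤ) - (P i).eval (n : ℤ)| ≤ M i)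
    (Cc : Fin k → ℤ → Ch → ℂ) (mb : Fin k → Ch → ℝ) (hC : ∀ i, Cf Q (Ysc (M i)) (Cc i) (mb i))
    (h0 h : Fin k → ℕ) (hh0 : h0 ∈ cub M M) (hh : h ∈ cub M M) (n : ℕ) (hn : n ∈ Ico X1 (2 * X1)) :
    ((∀ i, (Q : ℤ) ^ 8 * |((h i : ℕ) : ℤ) - h0 i| ≤ M i) →
    ‖((∏ i, Lk Q (Ysc (M i) / Q ^ 2) ((P i).eval (n : ℤ) + h i) : ℝ) : ℂ) -
      ∏ i, SG Q (Cc i ((P i).eval ((bs (X1 / Q ^ 8) n : ℕ) : ℤ) + (h0 i : ℤ))) ((P i).eval (n : ℤ) + h i)‖ ≤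
      k * (6 / (Q : ℝ) ^ 3) * (300 * (1 + Real.log Q) ^ 3) ^ k *
        ∏ i, dQ Q ((P i).eval (n : ℤ) + h i)) ∧
    ‖∏ i, SG Q (Cc i ((P i).eval ((bs (X1 / Q ^ 8) n : ℕ) : ℤ) + (h0 i : ℤ))) ((P i).eval (n : ℤ) + h i)‖ ≤
      (300 * (1 + Real.log Q) ^ 3) ^ k * ∏ i, dQ Q ((P i).eval (n : ℤ) + h i) := by
  have hQ1 : (1 : ℝ) ≤ Q := by exact_mod_cast hQ
  have hQ0 : (0 : ℝ) < Q := by linarith
  have hlog : 0 ≤ Real.log Q := Real.log_nonneg hQ1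
  have hX1 := hG.pos
  have hq8 : 0 < Q ^ 8 := pow_pos (by omega) _
  -- the cells for n
  have hXd : Q ^ 8 ∣ X1 := (pow_dvd_pow Q (by norm_num)).trans hG.dvd
  have hXe : X1 = X1 / Q ^ 8 * Q ^ 8 := (Nat.div_mul_cancel hXd).symm
  have hH : 0 < X1 / Q ^ 8 := Nat.div_pos (Nat.le_of_dvd hX1 hXd) hq8
  obtain ⟨hb1, hb2, hb3⟩ := v1a_bs (X1 / Q ^ 8) (Q ^ 8) n X1 hH hXe hn
  have hcell : (n - bs (X1 / Q ^ 8) n) * Q ^ 8 ≤ X1 := by
    calc (n - bs (X1 / Q ^ 8) n) * Q ^ 8 ≤ X1 / Q ^ 8 * Q ^ 8 :=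
          Nat.mul_le_mul_right _ (by omega)
      _ = X1 := hXe.symm
  have hh' : ∀ i, h i ∈ Ico (M i) (M i + M i) := fun i => Fintype.mem_piFinset.1 hh i
  have hMd : ∀ i, Q ^ 8 ∣ M i := fun i => (dvd_mul_left _ _).trans (hG.dvdM i)
  have hM8 : ∀ i, 8 ∣ M i := fun i => (dvd_mul_right _ _).trans (hG.dvdM i)
  have hMpos : ∀ i, 0 < M i := by
    intro i
    have := Finset.mem_Ico.1 (hh' i)
    omega
  -- the base points
  obtain ⟨F, hF⟩ : ∃ F : Fin k → ℤ, F = fun i => (P i).eval ((bs (X1 / Q ^ 8) n : ℕ) : ℤ) + (h0 i : ℤ) := ⟨_, rfl⟩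
  suffices hgoal : ((∀ i, (Q : ℤ) ^ 8 * |((h i : ℕ) : ℤ) - h0 i| ≤ M i) →
      ‖((∏ i, Lk Q (Ysc (M i) / Q ^ 2) ((P i).eval (n : ℤ) + h i) : ℝ) : ℂ) -
      ∏ i, SG Q (Cc i (F i)) ((P i).eval (n : ℤ) + h i)‖ ≤
      k * (6 / (Q : ℝ) ^ 3) * (300 * (1 + Real.log Q) ^ 3) ^ k *
        ∏ i, dQ Q ((P i).eval (n : ℤ) + h i)) ∧
    ‖∏ i, SG Q (Cc i (F i)) ((P i).eval (n : ℤ) + h i)‖ ≤
      (300 * (1 + Real.log Q) ^ 3) ^ k * ∏ i, dQ Q ((P i).eval (n : ℤ) + h i) by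
    rw [hF] at hgoal
    exact hgoal
  have hval : ∀ i, (Ysc (M i) : ℤ) ≤ (P i).eval (n : ℤ) + h i ∧
      (P i).eval (n : ℤ) + h i ≤ 4 * Ysc (M i) ∧ 4 * Ysc (M i) = 3 * M i := by
    intro i
    have h1 := G2_val (M i) (h i) ((P i).eval (n : ℤ)) (hM8 i) (hP i n hn).1
      (by have := hh' i; rw [← two_mul] at this; exact this)
    exact ⟨h1.1, by linarith [h1.2.1, h1.1], h1.2.2⟩
  have hY : ∀ i, 0 < Ysc (M i) := by
    intro i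
    have h1 := (hval i).2.2
    have h2 := hMpos i
    omega
  have hh0' : ∀ i, h0 i ∈ Ico (M i) (2 * M i) := by
    intro i
    have := Fintype.mem_piFinset.1 hh0 i
    rw [← two_mul] at this
    exact this
  have hbase : ∀ i, (Ysc (M i) : ℤ) ≤ F i ∧ F i ≤ 4 * Ysc (M i) ∧
      ((Q : ℤ) ^ 8 * |((h i : ℕ) : ℤ) - h0 i| ≤ M i →
        (Q : ℤ) ^ 8 * |(P i).eval (n : ℤ) + h i - F i| ≤ 2 * M i) := by
    intro i
    have h1 := G2_val (M i) (h0 i) ((P i).eval ((bs (X1 / Q ^ 8) n : ℕ) : ℤ)) (hM8 i)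
      (hP i _ hb1).1 (hh0' i)
    have hFe : F i = (P i).eval ((bs (X1 / Q ^ 8) n : ℕ) : ℤ) + (h0 i : ℕ) := by
      rw [hF]
    rw [hFe]
    refine ⟨h1.1, by linarith [h1.2.1, h1.1], ?_⟩
    intro h3
    have h2 := (hP i _ hb1).2 n hn hb2 hcell
    have h5 : (P i).eval (n : ℤ) + (h i : ℤ) -
        ((P i).eval ((bs (X1 / Q ^ 8) n : ℕ) : ℤ) + (h0 i : ℕ)) =
        ((P i).eval (n : ℤ) - (P i).eval ((bs (X1 / Q ^ 8) n : ℕ) : ℤ)) +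
        (((h i : ℕ) : ℤ) - (h0 i : ℕ)) := by ring
    rw [h5]
    calc (Q : ℤ) ^ 8 * |((P i).eval (n : ℤ) - (P i).eval ((bs (X1 / Q ^ 8) n : ℕ) : ℤ)) +
        (((h i : ℕ) : ℤ) - (h0 i : ℕ))|
        ≤ (Q : ℤ) ^ 8 * (|(P i).eval (n : ℤ) - (P i).eval ((bs (X1 / Q ^ 8) n : ℕ) : ℤ)| +
        |((h i : ℕ) : ℤ) - (h0 i : ℕ)|) :=
          mul_le_mul_of_nonneg_left (abs_add_le _ _) (by positivity)
      _ ≤ 2 * M i := by
          rw [mul_add]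
          linarith
  have hZ : (∏ i : Fin k, (300 * (1 + Real.log Q) ^ 3 * dQ Q ((P i).eval (n : ℤ) + h i))) =
      (300 * (1 + Real.log Q) ^ 3) ^ k * ∏ i, dQ Q ((P i).eval (n : ℤ) + h i) := by
    rw [Finset.prod_mul_distrib, Finset.prod_const, Finset.card_univ, Fintype.card_fin]
  have hdq : ∀ i : Fin k, 0 ≤ dQ Q ((P i).eval (n : ℤ) + h i) := by
    intro i
    exact Nat.cast_nonneg _
  have hC0 : 0 ≤ 100 * (1 + Real.log Q) ^ 3 := by positivity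
  have hsg : ∀ (m : ℤ) (i : Fin k), (Ysc (M i) : ℤ) ≤ m → m ≤ 4 * Ysc (M i) →
      ‖SG Q (Cc i m) ((P i).eval (n : ℤ) + h i)‖ ≤
        300 * (1 + Real.log Q) ^ 3 * dQ Q ((P i).eval (n : ℤ) + h i) := by
    intro m i h1 h2
    refine (S1b Q hQ (Cc i m) (mb i) ((hC i).le m h1 h2) _).trans ?_
    have h3 : 0 ≤ 100 * (1 + Real.log Q) ^ 3 * dQ Q ((P i).eval (n : ℤ) + h i) := mul_nonneg hC0 (hdq i)
    calc 100 * (1 + Real.log Q) ^ 3 * dQ Q ((P i).eval (n : ℤ) + h i) * ∑ p ∈ PC Q, mb i p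
        ≤ 100 * (1 + Real.log Q) ^ 3 * dQ Q ((P i).eval (n : ℤ) + h i) * 3 :=
          mul_le_mul_of_nonneg_left (hC i).sum h3
      _ = 300 * (1 + Real.log Q) ^ 3 * dQ Q ((P i).eval (n : ℤ) + h i) := by ring
  constructor
  · intro hclose
    have hLk : ((∏ i, Lk Q (Ysc (M i) / Q ^ 2) ((P i).eval (n : ℤ) + h i) : ℝ) : ℂ) =
        ∏ i, SG Q (Cc i ((P i).eval (n : ℤ) + h i)) ((P i).eval (n : ℤ) + h i) := by
      rw [Complex.ofReal_prod]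
      exact Finset.prod_congr rfl fun i _ => (hC i).eq _ (hval i).1 (hval i).2.1
    rw [hLk]
    have key := v1b_prod (Finset.univ : Finset (Fin k))
      (fun i => SG Q (Cc i ((P i).eval (n : ℤ) + h i)) ((P i).eval (n : ℤ) + h i))
      (fun i => SG Q (Cc i (F i)) ((P i).eval (n : ℤ) + h i))
      (fun i => 300 * (1 + Real.log Q) ^ 3 * dQ Q ((P i).eval (n : ℤ) + h i)) (6 / (Q : ℝ) ^ 3)
      (by positivity)
      (fun i => mul_nonneg (by positivity) (hdq i))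
      (fun i _ => hsg _ i (hval i).1 (hval i).2.1)
      (fun i _ => hsg _ i (hbase i).1 (hbase i).2.1)
      (fun i _ => ?_)
    · rw [hZ, Finset.card_univ, Fintype.card_fin] at key
      refine key.trans (le_of_eq ?_)
      ring
    · rw [v1b_sub]
      have hY0 : (0 : ℝ) < Ysc (M i) := by exact_mod_cast hY i
      have h1 : ∀ p ∈ PC Q, ‖Cc i ((P i).eval (n : ℤ) + h i) p - Cc i (F i) p‖ ≤ 6 / (Q : ℝ) ^ 5 := by
        intro p hp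
        refine (v1a_slow Q (Ysc (M i)) (Cc i) (mb i) (hC i) _ _ (hbase i).1 (hbase i).2.1
          (hval i).1 (hval i).2.1 p hp).trans ?_
        have h2 : (Q : ℝ) ^ 8 * |(((P i).eval (n : ℤ) + h i : ℤ) : ℝ) - ((F i : ℤ) : ℝ)| ≤ 2 * M i := by
          exact_mod_cast (hbase i).2.2 (hclose i)
        have h3 : (4 : ℝ) * Ysc (M i) = 3 * M i := by exact_mod_cast (hval i).2.2
        have h4 : |(((P i).eval (n : ℤ) + h i : ℤ) : ℝ) - ((F i : ℤ) : ℝ)| ≤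
            (8 / 3 * Ysc (M i)) / (Q : ℝ) ^ 8 := by
          rw [le_div_iff₀ (by positivity), mul_comm]
          linarith
        calc |(((P i).eval (n : ℤ) + h i : ℤ) : ℝ) - ((F i : ℤ) : ℝ)| *
              (2 * (Q : ℝ) ^ 3 / Ysc (M i))
            ≤ (8 / 3 * Ysc (M i)) / (Q : ℝ) ^ 8 * (2 * (Q : ℝ) ^ 3 / Ysc (M i)) :=
              mul_le_mul_of_nonneg_right h4 (by positivity)
          _ = (16 / 3) / (Q : ℝ) ^ 5 := by
              field_simp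
              ring
          _ ≤ 6 / (Q : ℝ) ^ 5 := by
              apply div_le_div_of_nonneg_right _ (by positivity)
              norm_num
      refine (S1b Q hQ _ (fun _ => 6 / (Q : ℝ) ^ 5) h1 _).trans ?_
      rw [Finset.sum_const, nsmul_eq_mul]
      have hc : ((PC Q).card : ℝ) ≤ (Q : ℝ) ^ 2 := by exact_mod_cast card_PC_le Q
      have h3 : 0 ≤ 100 * (1 + Real.log Q) ^ 3 * dQ Q ((P i).eval (n : ℤ) + h i) :=
        mul_nonneg hC0 (hdq i)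
      calc 100 * (1 + Real.log Q) ^ 3 * dQ Q ((P i).eval (n : ℤ) + h i) *
            (((PC Q).card : ℝ) * (6 / (Q : ℝ) ^ 5))
          ≤ 100 * (1 + Real.log Q) ^ 3 * dQ Q ((P i).eval (n : ℤ) + h i) *
            ((Q : ℝ) ^ 2 * (6 / (Q : ℝ) ^ 5)) := by
            apply mul_le_mul_of_nonneg_left _ h3
            exact mul_le_mul_of_nonneg_right hc (by positivity)
        _ = 6 / (Q : ℝ) ^ 3 * (100 * (1 + Real.log Q) ^ 3 * dQ Q ((P i).eval (n : ℤ) + h i)) := by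
            field_simp
        _ ≤ 6 / (Q : ℝ) ^ 3 * (300 * (1 + Real.log Q) ^ 3 * dQ Q ((P i).eval (n : ℤ) + h i)) := by
            apply mul_le_mul_of_nonneg_left _ (by positivity)
            have h5 : 0 ≤ (1 + Real.log Q) ^ 3 * dQ Q ((P i).eval (n : ℤ) + h i) :=
              mul_nonneg (by positivity) (hdq i)
            nlinarith
  · rw [← hZ, norm_prod]
    exact Finset.prod_le_prod (fun i _ => norm_nonneg _) fun i _ => hsg _ i (hbase i).1 (hbase i).2.1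


/-- The product of the divisor functions. -/
theorem r13_prod {k : ℕ} (P : Fin k → ℤ[X]) (C : ℝ) : ∃ Q0 : ℕ, 3 ≤ Q0 ∧
    ∀ (L Q X X1 : ℕ) (M : Fin k → ℕ), Q0 ≤ Q → Rg 2 C Q X → Geo L Q X X1 P M →
    ∀ h ∈ cub M M, ∀ n ∈ Ico X1 (2 * X1), (∀ i, 8 * |(P i).eval (n : ℤ)| ≤ M i) →
    ∏ i, dQ Q ((P i).eval (n : ℤ) + h i) ≤ (Q : ℝ) ^ (1 / 2 : ℝ) := by
  obtain ⟨Q0, hQ0⟩ := R13_dQ (∑ i, (P i).natDegree) C (1 / (2 * k + 2)) (by positivity)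
  refine ⟨max 3 Q0, le_max_left _ _, fun L Q X X1 M hQ hR hG h hh n hn hP => ?_⟩
  have hQ3 : 3 ≤ Q := (le_max_left _ _).trans hQ
  have hQ0' : Q0 ≤ Q := (le_max_right _ _).trans hQ
  have hQr : (0 : ℝ) < Q := by exact_mod_cast (by omega : 0 < Q)
  have hQ1 : (1 : ℝ) ≤ Q := by exact_mod_cast (by omega : 1 ≤ Q)
  have hlogQ : 1 ≤ Real.log Q := G1_log1 hQ3
  have hX1 : 0 < X1 := hG.pos
  have hX : 0 < X := lt_of_lt_of_le hX1 hG.le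
  have hXr : (0 : ℝ) < X := by exact_mod_cast hX
  have hX3 : (3 : ℝ) ≤ X := by
    have h1 : 2 * Real.log Q ≤ Real.log X := hR.1
    have h2 : (2 : ℝ) ≤ Real.log X := by linarith
    have h3 := Real.add_one_le_exp (2 : ℝ)
    have h4 : Real.exp 2 ≤ Real.exp (Real.log X) := Real.exp_le_exp.2 h2
    rw [Real.exp_log hXr] at h4
    linarith
  have hQX : (Q : ℝ) ^ (1 / 8 : ℝ) ≤ X := by
    rw [Real.rpow_def_of_pos hQr, ← Real.le_log_iff_exp_le hXr]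
    have h1 : 2 * Real.log Q ≤ Real.log X := hR.1
    linarith
  have hh' : ∀ i, h i ∈ Ico (M i) (2 * M i) := by
    intro i
    have := Fintype.mem_piFinset.1 hh i
    rw [← two_mul] at this
    exact this
  have hM8 : ∀ i, 8 ∣ M i := fun i => (dvd_mul_right _ _).trans (hG.dvdM i)
  have hd : ∀ i, dQ Q ((P i).eval (n : ℤ) + h i) ≤ (Q : ℝ) ^ (1 / (2 * k + 2) : ℝ) := by
    intro i
    have h1 := G2_val (M i) (h i) ((P i).eval (n : ℤ)) (hM8 i) (hP i) (hh' i)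
    have hMi : 0 < M i := by
      have := mem_Ico.1 (hh' i)
      omega
    have hY : 0 < Ysc (M i) := by
      have := h1.2.2
      omega
    have hm0 : 0 < (P i).eval (n : ℤ) + h i := by
      have : (0 : ℤ) < Ysc (M i) := by exact_mod_cast hY
      linarith [h1.1]
    refine hQ0 Q X _ hQ0' hX hR.2 hm0.ne' ?_
    rw [abs_of_pos hm0]
    have h2 : (P i).eval (n : ℤ) + h i ≤ 3 * M i := by
      have h3 : (4 : ℤ) * Ysc (M i) = 3 * M i := by exact_mod_cast h1.2.2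
      have h4 : (0 : ℤ) ≤ M i := by positivity
      linarith [h1.2.1]
    have h5 : ((3 * M i : ℕ) : ℝ) ≤ ((X ^ ((∑ i, (P i).natDegree) + 2) : ℕ) : ℝ) := by
      push_cast
      have hX1r : (X1 : ℝ) ≤ X := by exact_mod_cast hG.le
      have hXone : (1 : ℝ) ≤ X := by linarith
      have hdeg : (P i).natDegree ≤ ∑ i, (P i).natDegree :=
        Finset.single_le_sum (f := fun i => (P i).natDegree) (fun _ _ => Nat.zero_le _) (Finset.mem_univ i)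
      calc (3 : ℝ) * M i ≤ X * ((X1 : ℝ) ^ (P i).natDegree * (Q : ℝ) ^ (1 / 8 : ℝ)) :=
            mul_le_mul hX3 (hG.hi i) (Nat.cast_nonneg _) hXr.le
        _ ≤ X * ((X : ℝ) ^ (∑ i, (P i).natDegree) * X) := by
            apply mul_le_mul_of_nonneg_left _ hXr.le
            apply mul_le_mul _ hQX (by positivity) (by positivity)
            exact (pow_le_pow_left₀ (Nat.cast_nonneg _) hX1r _).trans (pow_le_pow_right₀ hXone hdeg)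
        _ = (X : ℝ) ^ ((∑ i, (P i).natDegree) + 2) := by ring
    have h6 : 3 * M i ≤ X ^ ((∑ i, (P i).natDegree) + 2) := by exact_mod_cast h5
    calc (P i).eval (n : ℤ) + h i ≤ ((3 * M i : ℕ) : ℤ) := by push_cast; exact h2
      _ ≤ ((X ^ ((∑ i, (P i).natDegree) + 2) : ℕ) : ℤ) := by exact_mod_cast h6
      _ = _ := by push_cast; rfl
  calc ∏ i, dQ Q ((P i).eval (n : ℤ) + h i) ≤ ∏ _i : Fin k, (Q : ℝ) ^ (1 / (2 * k + 2) : ℝ) :=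
        Finset.prod_le_prod (fun i _ => Nat.cast_nonneg _) fun i _ => hd i
    _ = (Q : ℝ) ^ ((1 / (2 * k + 2) : ℝ) * k) := by
        rw [Finset.prod_const, Finset.card_univ, Fintype.card_fin, Real.rpow_mul hQr.le, Real.rpow_natCast]
    _ ≤ (Q : ℝ) ^ (1 / 2 : ℝ) := by
        apply Real.rpow_le_rpow_of_exponent_le hQ1
        have hk : (0 : ℝ) ≤ k := Nat.cast_nonneg k
        rw [div_mul_eq_mul_div, one_mul, div_le_div_iff₀ (by positivity) (by norm_num)]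
        linarith

/-- **R13a**. Pointwise size. Proof. As the second part of `V1_pt` (H24P/V1A.lean): `S1b` of `H59P` for each coordinate (total size
of the coefficients `≤ 3`, `Cf.le`, `Cf.sum`; `P_i(bs n) + h0_i` is in `[Y_i, 3 Y_i)`: `G2_P`, `G2_val`), `R13_dQ` with
`ε = 1/(2k+2)` (`0 < Y_i ≤ P_i(n) + h_i < 3 Y_i ≤ 3 M_i ≤ 3 X1^d Q^(1/8) ≤ X^(A+2)`), logarithms `G1_rlog`. -/
theorem R13_small {k : ℕ} (P : Fin k → ℤ[X]) (hP : ∀ i, 1 ≤ (P i).natDegree) : ∃ L : ℕ, 2 ≤ L ∧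
    ∀ C : ℝ, ∃ Q0 : ℕ, ∀ (Q X X1 : ℕ) (M : Fin k → ℕ), Q0 ≤ Q → Rg 2 C Q X → Geo L Q X X1 P M →
    ∀ (C' : Fin k → ℤ → Ch → ℂ) (mb : Fin k → Ch → ℝ), (∀ i, Cf Q (Ysc (M i)) (C' i) (mb i)) →
    ∀ (w : ℕ → ℂ) (δ : ℝ), (∀ n ∈ Ico X1 (2 * X1), ‖w n‖ ≤ δ) → ∀ h0 ∈ cub M M, ∀ h ∈ cub M M,
    ‖Rzb Q X1 P C' w h0 h‖ ≤ δ * X1 * Q := by
  obtain ⟨L, hL, hGP⟩ := G2_P P hP
  refine ⟨L, hL, fun C => ?_⟩
  obtain ⟨Qa, hQa3, ha⟩ := r13_prod P C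
  obtain ⟨Qb, hQb1, hb⟩ := G1_rlog (300 ^ k) ((3 * k : ℕ) : ℝ) (1 / 2) (by norm_num)
  refine ⟨max Qa Qb, fun Q X X1 M hQ hR hG C' mb hC w δ hw h0 hh0 h hh => ?_⟩
  have hQa := (le_max_left _ _).trans hQ
  have hQb := (le_max_right _ _).trans hQ
  have hQ1 : 1 ≤ Q := hQb1.trans hQb
  have hQr : (0 : ℝ) < Q := by exact_mod_cast hQ1
  have hlog : 0 ≤ Real.log Q := Real.log_natCast_nonneg Q
  have hgp := hGP Q X X1 M hG
  have hX1 : 0 < X1 := hG.pos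
  have hδ : 0 ≤ δ := (norm_nonneg _).trans (hw X1 (by rw [Finset.mem_Ico]; omega))
  have k2 := hb Q hQb
  rw [Real.rpow_natCast] at k2
  have k3 : (300 * (1 + Real.log Q) ^ 3) ^ k ≤ (Q : ℝ) ^ (1 / 2 : ℝ) := by
    rw [mul_pow, ← pow_mul]
    exact k2
  have hterm : ∀ n ∈ Ico X1 (2 * X1), ‖w n *
      ∏ i, SG Q (C' i ((P i).eval ((bs (X1 / Q ^ 8) n : ℕ) : ℤ) + (h0 i : ℤ))) ((P i).eval (n : ℤ) + h i)‖ ≤ δ * Q := by
    intro n hn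
    rw [norm_mul]
    have h1 := (r13_pt P L Q X X1 hQ1 M hG hgp C' mb hC h0 h hh0 hh n hn).2
    have h2 := ha L Q X X1 M hQa hR hG h hh n hn fun i => (hgp i n hn).1
    have h3 : (300 * (1 + Real.log Q) ^ 3) ^ k * ∏ i, dQ Q ((P i).eval (n : ℤ) + h i) ≤ Q := by
      calc (300 * (1 + Real.log Q) ^ 3) ^ k * ∏ i, dQ Q ((P i).eval (n : ℤ) + h i)
          ≤ (Q : ℝ) ^ (1 / 2 : ℝ) * (Q : ℝ) ^ (1 / 2 : ℝ) :=
            mul_le_mul k3 h2 (Finset.prod_nonneg fun i _ => Nat.cast_nonneg _) (by positivity)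
        _ = Q := by
            rw [← Real.rpow_add hQr]
            norm_num
    exact mul_le_mul (hw n hn) (h1.trans h3) (norm_nonneg _) hδ
  unfold Rzb
  calc ‖∑ n ∈ Ico X1 (2 * X1), w n *
        ∏ i, SG Q (C' i ((P i).eval ((bs (X1 / Q ^ 8) n : ℕ) : ℤ) + (h0 i : ℤ))) ((P i).eval (n : ℤ) + h i)‖
      ≤ ∑ n ∈ Ico X1 (2 * X1), δ * Q := (norm_sum_le _ _).trans (Finset.sum_le_sum hterm)
    _ = δ * X1 * Q := by
        rw [Finset.sum_const, Nat.card_Ico, nsmul_eq_mul]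
        have : 2 * X1 - X1 = X1 := by omega
        rw [this]
        ring

/-- **R13** (port of `V1_main`). Proof. As the first part of `V1_pt` (H24P/V1A.lean): the distance of
`P_i(n) + h_i` and `P_i(bs n) + h0_i` is at most `2 M_i/Q^8` (`G2_P` and the hypothesis), both are in `[Y_i, 3 Y_i)`,
`v1a_slow`, `v1b_prod`; `R13_dQ`, logarithms. The difference is at most `X1 (log X)² k (6/Q³) (300 (1+log Q)³)^k Q^(1/2)`. -/
theorem R13_main {k : ℕ} (P : Fin k → ℤ[X]) (hP : ∀ i, 1 ≤ (P i).natDegree) : ∃ L : ℕ, 2 ≤ L ∧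
    ∀ C : ℝ, ∃ Q0 : ℕ, ∀ (Q X X1 : ℕ) (M : Fin k → ℕ), Q0 ≤ Q → Rg 2 C Q X → Geo L Q X X1 P M →
    ∀ (C' : Fin k → ℤ → Ch → ℂ) (mb : Fin k → Ch → ℝ), (∀ i, Cf Q (Ysc (M i)) (C' i) (mb i)) →
    ∀ w : ℕ → ℝ, (∀ n ∈ Ico X1 (2 * X1), |w n| ≤ (Real.log X) ^ 2) → ∀ h0 ∈ cub M M, ∀ h ∈ cub M M,
    (∀ i, (Q : ℤ) ^ 8 * |((h i : ℕ) : ℤ) - h0 i| ≤ M i) →
    ‖((Rw Q X1 P M w h : ℝ) : ℂ) - Rzb Q X1 P C' (fun n => ((w n : ℝ) : ℂ)) h0 h‖ ≤ X1 * (Q : ℝ) ^ (-(1) : ℝ) := by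
  obtain ⟨L, hL, hGP⟩ := G2_P P hP
  refine ⟨L, hL, fun C => ?_⟩
  obtain ⟨Qa, hQa3, ha⟩ := r13_prod P C
  obtain ⟨Qb, hQb1, hb⟩ := G1_rlog (300 ^ k) ((3 * k : ℕ) : ℝ) (1 / 4) (by norm_num)
  obtain ⟨Qc, hQc1, hc⟩ := G1_log C 2 (6 * k) (1 / 4) (by norm_num)
  refine ⟨max (max Qa Qb) Qc, fun Q X X1 M hQ hR hG C' mb hC w hw h0 hh0 h hh hclose => ?_⟩
  have hQa := ((le_max_left _ _).trans (le_max_left _ _)).trans hQ
  have hQb := ((le_max_right _ _).trans (le_max_left _ _)).trans hQ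
  have hQc := (le_max_right _ _).trans hQ
  have hQ1 : 1 ≤ Q := hQb1.trans hQb
  have hQr : (0 : ℝ) < Q := by exact_mod_cast hQ1
  have hQr1 : (1 : ℝ) ≤ Q := by exact_mod_cast hQ1
  have hlog : 0 ≤ Real.log Q := Real.log_natCast_nonneg Q
  have hgp := hGP Q X X1 M hG
  have k2 := hb Q hQb
  rw [Real.rpow_natCast] at k2
  have k3 : (300 * (1 + Real.log Q) ^ 3) ^ k ≤ (Q : ℝ) ^ (1 / 4 : ℝ) := by
    rw [mul_pow, ← pow_mul]
    exact k2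
  have k4 := hc Q X hQc hR.2
  obtain ⟨δ, hδ⟩ : ∃ δ : ℝ, δ = (Q : ℝ) ^ (-(1) : ℝ) := ⟨_, rfl⟩
  have hδ2 : (Q : ℝ) ^ (1 / 4 : ℝ) * ((Q : ℝ) ^ (1 / 4 : ℝ) * (Q : ℝ) ^ (1 / 2 : ℝ)) / (Q : ℝ) ^ 3 ≤ δ := by
    have h1 : (Q : ℝ) ^ (1 / 4 : ℝ) * ((Q : ℝ) ^ (1 / 4 : ℝ) * (Q : ℝ) ^ (1 / 2 : ℝ)) = Q := by
      rw [← Real.rpow_add hQr, ← Real.rpow_add hQr]
      norm_num
    rw [h1, hδ, Real.rpow_neg hQr.le, Real.rpow_one, div_le_iff₀ (by positivity)]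
    have h2 : ((Q : ℝ))⁻¹ * (Q : ℝ) ^ 3 = (Q : ℝ) ^ 2 := by field_simp
    rw [h2]
    nlinarith
  have hterm : ∀ n ∈ Ico X1 (2 * X1), ‖((w n : ℝ) : ℂ) *
      (((∏ i, Lk Q (Ysc (M i) / Q ^ 2) ((P i).eval (n : ℤ) + h i) : ℝ) : ℂ) -
      ∏ i, SG Q (C' i ((P i).eval ((bs (X1 / Q ^ 8) n : ℕ) : ℤ) + (h0 i : ℤ))) ((P i).eval (n : ℤ) + h i))‖ ≤ δ := by
    intro n hn
    rw [norm_mul, Complex.norm_real, Real.norm_eq_abs]
    have h1 := (r13_pt P L Q X X1 hQ1 M hG hgp C' mb hC h0 h hh0 hh n hn).1 hclose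
    have h2 := ha L Q X X1 M hQa hR hG h hh n hn fun i => (hgp i n hn).1
    have h4 : (0 : ℝ) ≤ ∏ i, dQ Q ((P i).eval (n : ℤ) + h i) := Finset.prod_nonneg fun i _ => Nat.cast_nonneg _
    refine le_trans ?_ hδ2
    calc |w n| * ‖((∏ i, Lk Q (Ysc (M i) / Q ^ 2) ((P i).eval (n : ℤ) + h i) : ℝ) : ℂ) -
          ∏ i, SG Q (C' i ((P i).eval ((bs (X1 / Q ^ 8) n : ℕ) : ℤ) + (h0 i : ℤ))) ((P i).eval (n : ℤ) + h i)‖
        ≤ (Real.log X) ^ 2 * (k * (6 / (Q : ℝ) ^ 3) * (300 * (1 + Real.log Q) ^ 3) ^ k *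
          ∏ i, dQ Q ((P i).eval (n : ℤ) + h i)) := mul_le_mul (hw n hn) h1 (norm_nonneg _) (by positivity)
      _ = (6 * k * (Real.log X) ^ 2) * ((300 * (1 + Real.log Q) ^ 3) ^ k *
          ∏ i, dQ Q ((P i).eval (n : ℤ) + h i)) / (Q : ℝ) ^ 3 := by ring
      _ ≤ (Q : ℝ) ^ (1 / 4 : ℝ) * ((Q : ℝ) ^ (1 / 4 : ℝ) * (Q : ℝ) ^ (1 / 2 : ℝ)) / (Q : ℝ) ^ 3 := by
          apply div_le_div_of_nonneg_right _ (by positivity)
          apply mul_le_mul k4 _ (by positivity) (by positivity)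
          exact mul_le_mul k3 h2 h4 (by positivity)
  have e : ((Rw Q X1 P M w h : ℝ) : ℂ) - Rzb Q X1 P C' (fun n => ((w n : ℝ) : ℂ)) h0 h =
      ∑ n ∈ Ico X1 (2 * X1), ((w n : ℝ) : ℂ) *
        (((∏ i, Lk Q (Ysc (M i) / Q ^ 2) ((P i).eval (n : ℤ) + h i) : ℝ) : ℂ) -
          ∏ i, SG Q (C' i ((P i).eval ((bs (X1 / Q ^ 8) n : ℕ) : ℤ) + (h0 i : ℤ))) ((P i).eval (n : ℤ) + h i)) := by
    unfold Rw Rzb
    rw [Complex.ofReal_sum, ← Finset.sum_sub_distrib]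
    refine Finset.sum_congr rfl fun n _ => ?_
    rw [Complex.ofReal_mul, mul_sub]
  rw [e]
  calc ‖∑ n ∈ Ico X1 (2 * X1), ((w n : ℝ) : ℂ) *
        (((∏ i, Lk Q (Ysc (M i) / Q ^ 2) ((P i).eval (n : ℤ) + h i) : ℝ) : ℂ) -
          ∏ i, SG Q (C' i ((P i).eval ((bs (X1 / Q ^ 8) n : ℕ) : ℤ) + (h0 i : ℤ))) ((P i).eval (n : ℤ) + h i))‖
      ≤ ∑ n ∈ Ico X1 (2 * X1), δ := (norm_sum_le _ _).trans (Finset.sum_le_sum hterm)
    _ = X1 * (Q : ℝ) ^ (-(1) : ℝ) := by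
        rw [Finset.sum_const, Nat.card_Ico, nsmul_eq_mul, hδ]
        have : 2 * X1 - X1 = X1 := by omega
        rw [this]

end Pool.Agent.HUP
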