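import Pool.Agent.Lib.HUP.Defs
import Pool.Agent.Lib.HUP.R13

/-!
# Project HUP, module R (the modules of H24P for an abstract family), R14: freezing the linear coordinate, pointwise
-/

open Finset Polynomial

namespace Pool.Agent.HUP

open Pool.Agent.Lib.H68T Pool.Agent.Lib.H18Q Pool.Agent.Lib.H59P Pool.Agent.Lib.H24P

/-- **R14** (port of `V2_main`, H24P/V2.lean). Proof. `Rzb` is linear in the weight: `V2_pt` and `R13_small` with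
`δ = Q^(-10)`. -/
theorem R14_main {k : ℕ} (P : Fin k → ℤ[X]) (hP : ∀ i, 1 ≤ (P i).natDegree) (A : ℕ) : ∃ L : ℕ, 2 ≤ L ∧
    ∀ C : ℝ, ∃ Q0 : ℕ, ∀ (Q X X1 Y : ℕ) (M : Fin k → ℕ) (B : ℤ[X]) (C0 : ℤ → Ch → ℂ) (mb : Ch → ℝ),
    Q0 ≤ Q → Rg 2 C Q X → Geo L Q X X1 P M → GeoB A X X1 Y B → Cf (Q ^ 100) Y C0 mb →
    ∀ (C' : Fin k → ℤ → Ch → ℂ) (mc : Fin k → Ch → ℝ), (∀ i, Cf Q (Ysc (M i)) (C' i) (mc i)) →
    ∀ h0 ∈ cub M M, ∀ h ∈ cub M M,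
    ‖Rzb Q X1 P C' (fun n => ((Lk (Q ^ 100) (Y / (Q ^ 100) ^ 2) (B.eval (n : ℤ)) : ℝ) : ℂ)) h0 h -
      Rzb Q X1 P C' (gB Q X1 B C0) h0 h‖ ≤ X1 * (Q : ℝ) ^ (-(1) : ℝ) := by
  obtain ⟨L, hL, hC1⟩ := R13_small P hP
  refine ⟨L, hL, ?_⟩
  intro C
  obtain ⟨Q1, h1⟩ := hC1 C
  obtain ⟨Q2, h2⟩ := V2_pt A
  refine ⟨max (max Q1 Q2) 1, ?_⟩
  intro Q X X1 Y M B C0 mb hQ hRg hG hGB hC C' mc hCc h0 hh0 h hh
  have hQ1 : Q1 ≤ Q := (le_max_left _ _).trans ((le_max_left _ _).trans hQ)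
  have hQ2 : Q2 ≤ Q := (le_max_right _ _).trans ((le_max_left _ _).trans hQ)
  have hQ3 : 1 ≤ Q := (le_max_right _ _).trans hQ
  have h3 := h1 Q X X1 M hQ1 hRg hG C' mc hCc
    (fun n => ((Lk (Q ^ 100) (Y / (Q ^ 100) ^ 2) (B.eval (n : ℤ)) : ℝ) : ℂ) - gB Q X1 B C0 n)
    ((Q : ℝ) ^ (-(10) : ℝ)) (fun n hn => h2 Q X X1 Y B C0 mb hQ2 hG.dvd hGB hC n hn) h0 hh0 h hh
  have h4 : Rzb Q X1 P C'
        (fun n => ((Lk (Q ^ 100) (Y / (Q ^ 100) ^ 2) (B.eval (n : ℤ)) : ℝ) : ℂ)) h0 h -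
      Rzb Q X1 P C' (gB Q X1 B C0) h0 h = Rzb Q X1 P C'
        (fun n => ((Lk (Q ^ 100) (Y / (Q ^ 100) ^ 2) (B.eval (n : ℤ)) : ℝ) : ℂ) - gB Q X1 B C0 n) h0 h := by
    unfold Rzb
    rw [← sum_sub_distrib]
    refine sum_congr rfl fun n _ => ?_
    ring
  rw [h4]
  refine h3.trans ?_
  have hQr : (1 : ℝ) ≤ Q := by exact_mod_cast hQ3
  have hQp : (0 : ℝ) < Q := by linarith
  have h5 : (Q : ℝ) ^ (-(10) : ℝ) * Q ≤ (Q : ℝ) ^ (-(1) : ℝ) := by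
    have e2 : (Q : ℝ) ^ (-(10) : ℝ) * Q = (Q : ℝ) ^ (-(9) : ℝ) := by
      have := Real.rpow_add hQp (-(10)) 1
      rw [Real.rpow_one] at this
      rw [← this]
      norm_num
    rw [e2]
    exact Real.rpow_le_rpow_of_exponent_le hQr (by norm_num)
  calc (Q : ℝ) ^ (-(10) : ℝ) * X1 * Q = X1 * ((Q : ℝ) ^ (-(10) : ℝ) * Q) := by ring
    _ ≤ X1 * (Q : ℝ) ^ (-(1) : ℝ) := mul_le_mul_of_nonneg_left h5 (by positivity)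

end Pool.Agent.HUP
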