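import Pool.Agent.Lib.HUP.Defs
import Pool.Agent.Lib.H24P.Z3
import Pool.Agent.Lib.H24P.Z4

/-!
# Project HUP, module R (the modules of H24P for an abstract family), R15: lower bound for the main term
-/

open Finset Polynomial

namespace Pool.Agent.HUP

open Pool.Agent.Lib.H68T Pool.Agent.Lib.H18Q Pool.Agent.Lib.H59P Pool.Agent.Lib.H24P

/-- **R15** (port of `Z3_main`, H24P/Z3.lean). Proof. As there (`Z3_cell`, unchanged, for each `n`); the coefficients `cfb` have the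
base points `B(bs n)` and `P_i(bs n) + h0_i`, `h0 ∈ cub M M`. -/
theorem R15_main {k : ℕ} (P : Fin k → ℤ[X]) (A L Q X X1 Y : ℕ) (hQ : 1 ≤ Q) (M : Fin k → ℕ) (B : ℤ[X])
    (hG : Geo L Q X X1 P M) (hGB : GeoB A X X1 Y B)
    (hP8 : ∀ i, ∀ n ∈ Ico X1 (2 * X1), 8 * |(P i).eval (n : ℤ)| ≤ M i) (η E0 : ℝ) (px : Ch)
    (th : ℤ → ℝ) (hpx : px ∈ PC Q) (hcond : B.leadingCoeff.natAbs * px.1 ≤ fl Q (1 / 16))
    (hMB : Mdl (Q ^ 100) Y η E0 px th) (hM : ∀ i, Mdl Q (Ysc (M i)) η E0 px th)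
    (hE0 : 0 ≤ E0) (hE : 4 * (k + 1) * E0 ≤ 1)
    (e0 : ℤ → Ch → ℂ) (eb0 : Ch → ℝ) (heb0 : ∀ p ∈ PC (Q ^ 100), 0 ≤ eb0 p)
    (hs0 : ∑ p ∈ PC (Q ^ 100), eb0 p ≤ η * E0)
    (he0 : ∀ m : ℤ, (Y : ℤ) ≤ m → m ≤ 4 * Y → ∀ p ∈ PC (Q ^ 100), ‖e0 m p‖ ≤ eb0 p)
    (e : Fin k → ℤ → Ch → ℂ) (eb : Fin k → Ch → ℝ) (hs : ∀ i, ∑ p ∈ PC Q, eb i p ≤ η * E0)
    (he : ∀ i, ∀ m : ℤ, (Ysc (M i) : ℤ) ≤ m → m ≤ 4 * Ysc (M i) → ∀ p ∈ PC Q, ‖e i m p‖ ≤ eb i p)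
    (h0 : Fin k → ℕ) (hh0 : h0 ∈ cub M M) (h : Fin k → ℕ) (m : ℝ)
    (hm' : ∀ th' : Fin (k + 1) → ℝ, (∀ i, 0 ≤ th' i) → (∀ i, th' i ≤ 1 - η) →
      (px = p0 → ∀ i, th' i = 0) → m ≤ PMf Q px th' (sys B P h)) :
    X1 * (m / 2) ≤ (MZb Q X1 (B.leadingCoeff.natAbs * px.1) P B (fun m p => MX px th m p + e0 m p)
      (fun i m p => MX px th m p + e i m p) h0 h).re := by
  have hX1 : 0 < X1 := hG.pos
  have hm0 : 0 < B.leadingCoeff.natAbs * px.1 := by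
    refine Nat.mul_pos ?_ (mem_PC.1 hpx).1
    rw [Int.natAbs_pos, leadingCoeff_ne_zero]
    intro h0
    have h1 := hGB.lin.deg
    rw [h0, natDegree_zero] at h1
    exact absurd h1 (by norm_num)
  have hQ8 : Q ^ 8 ∣ X1 := (pow_dvd_pow Q (by norm_num)).trans hG.dvd
  have hbs : ∀ (D N n : ℕ), D ∣ N → 0 < N → n ∈ Ico N (2 * N) → bs (N / D) n ∈ Ico N (2 * N) := by
    intro D N n hD hN hn
    rw [mem_Ico] at hn ⊢
    obtain ⟨q, rfl⟩ := hD
    have hD0 : 0 < D := Nat.pos_of_ne_zero (by rintro rfl; simp at hN)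
    have hq0 : 0 < q := Nat.pos_of_ne_zero (by rintro rfl; simp at hN)
    rw [Nat.mul_div_cancel_left q hD0]
    unfold bs
    constructor
    · have h1 : D ≤ n / q := by
        rw [Nat.le_div_iff_mul_le hq0]
        exact hn.1
      exact Nat.mul_le_mul_right q h1
    · exact lt_of_le_of_lt (Nat.div_mul_le_self n q) hn.2
  have hh' : ∀ i, h0 i ∈ Ico (M i) (2 * M i) := by
    intro i
    have h1 := Fintype.mem_piFinset.1 hh0 i
    rw [mem_Ico] at h1 ⊢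
    omega
  have hY : ∀ n ∈ Ico X1 (2 * X1), (Y : ℤ) ≤ B.eval ((bs (X1 / Q ^ 800) n : ℕ) : ℤ) ∧
      B.eval ((bs (X1 / Q ^ 800) n : ℕ) : ℤ) ≤ 4 * Y := by
    intro n hn
    have h1 := hbs _ X1 n hG.dvd hX1 hn
    have h2 := hGB.lo _ h1
    have h3 := hGB.hi _ h1
    exact ⟨h2, by linarith⟩
  have hYi : ∀ n ∈ Ico X1 (2 * X1), ∀ i, (Ysc (M i) : ℤ) ≤ (P i).eval ((bs (X1 / Q ^ 8) n : ℕ) : ℤ) + (h0 i : ℤ) ∧
      (P i).eval ((bs (X1 / Q ^ 8) n : ℕ) : ℤ) + (h0 i : ℤ) ≤ 4 * Ysc (M i) := by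
    intro n hn i
    have h1 := hbs _ X1 n hQ8 hX1 hn
    obtain ⟨h3, h4, -⟩ := G2_val (M i) _ _ ((Dvd.intro _ rfl : 8 ∣ 8 * Q ^ 8).trans (hG.dvdM i))
      (hP8 i _ h1) (hh' i)
    constructor
    · exact h3
    · have h5 : (0 : ℤ) ≤ Ysc (M i) := by positivity
      linarith
  have hsub : PC Q ⊆ PC (Q ^ 100) := by
    intro p hp
    rw [mem_PC] at hp ⊢
    exact ⟨hp.1, hp.2.1.trans (Nat.le_self_pow (by norm_num) Q), hp.2.2⟩
  have hcell : ∀ n ∈ Ico X1 (2 * X1), m / 2 ≤ (MDf Q (B.leadingCoeff.natAbs * px.1)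
      (cfb Q X1 P B (fun m p => MX px th m p + e0 m p) (fun i m p => MX px th m p + e i m p) h0 n)
      (sys B P h)).re := by
    intro n hn
    refine Z3_cell (k := k + 1) Q (B.leadingCoeff.natAbs * px.1) hQ η E0 px hpx hMB.real
      (Dvd.intro_left _ rfl) hm0 hcond hMB.eta_pos hE0 (by push_cast; exact hE) (sys B P h)
      (Fin.cons (th (B.eval ((bs (X1 / Q ^ 800) n : ℕ) : ℤ)))
        (fun i => th ((P i).eval ((bs (X1 / Q ^ 8) n : ℕ) : ℤ) + (h0 i : ℤ)))) ?_ ?_ ?_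
      (Fin.cons (e0 (B.eval ((bs (X1 / Q ^ 800) n : ℕ) : ℤ)))
        (fun i => e i ((P i).eval ((bs (X1 / Q ^ 8) n : ℕ) : ℤ) + (h0 i : ℤ)))) _ ?_ ?_ m hm'
    · intro i
      refine Fin.cases ?_ (fun i => ?_) i
      · rw [Fin.cons_zero]
        exact hMB.nonneg _ (hY n hn).1 (hY n hn).2
      · rw [Fin.cons_succ]
        exact (hM i).nonneg _ (hYi n hn i).1 (hYi n hn i).2
    · intro i
      refine Fin.cases ?_ (fun i => ?_) i
      · rw [Fin.cons_zero]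
        exact hMB.le _ (hY n hn).1 (hY n hn).2
      · rw [Fin.cons_succ]
        exact (hM i).le _ (hYi n hn i).1 (hYi n hn i).2
    · intro hp0 i
      refine Fin.cases ?_ (fun i => ?_) i
      · rw [Fin.cons_zero]
        exact hMB.triv hp0 _
      · rw [Fin.cons_succ]
        exact (hM i).triv hp0 _
    · intro i
      refine Fin.cases ?_ (fun i => ?_) i
      · simp only [Fin.cons_zero]
        refine (Finset.sum_le_sum fun p hp => he0 _ (hY n hn).1 (hY n hn).2 p (hsub hp)).trans ?_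
        exact (Finset.sum_le_sum_of_subset_of_nonneg hsub fun p hp _ => heb0 p hp).trans hs0
      · simp only [Fin.cons_succ]
        exact (Finset.sum_le_sum fun p hp => he i _ (hYi n hn i).1 (hYi n hn i).2 p hp).trans (hs i)
    · intro i
      refine Fin.cases ?_ (fun i => ?_) i
      · intro p
        rfl
      · intro p
        rfl
  unfold MZb
  rw [Complex.re_sum]
  have h1 := Finset.sum_le_sum hcell
  rw [Finset.sum_const, Nat.card_Ico, nsmul_eq_mul] at h1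
  have h2 : 2 * X1 - X1 = X1 := by omega
  rw [h2] at h1
  exact h1

end Pool.Agent.HUP
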