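import Pool.Agent.Lib.HUP.Defs
import Pool.Agent.Lib.H24P.W1

/-!
# Project HUP, module R (the modules of H24P for an abstract family), R1: one cell, weight without correlation
-/

open Finset Polynomial

namespace Pool.Agent.HUP

open Pool.Agent.Lib.H68T Pool.Agent.Lib.H18Q Pool.Agent.Lib.H59P Pool.Agent.Lib.H24P

/-- **R1** (port of `W1_cell`, H24P/W1.lean). Proof. Copy the proof of `W1_cell`: `∏ Fc = ∑_κ ∏ gk`
(`Finset.prod_univ_sum`), `D = fl Q (1/(2k+2))`; for the `κ` with `lcm(r_i κ_i) > D` use the hypothesis `FGood` instead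
of `Fgen` (its constants are given), for the others `W1_small` (unchanged, it is for one `h`), summed over `x ∈ S`
(`S.card` instead of `vol s`). -/
theorem R1_cell (k A E : ℕ) (hA : 1 ≤ A) (Cc cc : ℝ) (hC : FPar Cc cc) : ∃ C c : ℝ, 1 ≤ C ∧ 0 < c ∧ c ≤ 1 ∧
    ∀ P : Fin k → ℤ[X], Pol A P → ∀ Q Qm : ℕ, 1 ≤ Q → Q ≤ Qm → ∀ p : Fin k → Ch, (∀ i, p i ∈ PC Q) →
    ∀ (ι : Type) (S : Finset ι) (g : ι → Fin k → ℕ), FGood E Cc cc Qm P S g →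
    ∀ a H : ℕ, Q ≤ H → Q ^ E ≤ H → ∀ (f : ℕ → ℂ) (Ws : ℝ), 0 ≤ Ws →
    ∑ n ∈ Ico a (a + H), ‖f n‖ ^ 2 ≤ H * Ws →
    (∀ θ : ℝ, ‖∑ n ∈ Ico a (a + H), f n * e ((n : ℝ) * θ)‖ ≤ H / (Q : ℝ) ^ 2) →
    ∑ x ∈ S, ‖∑ n ∈ Ico a (a + H), f n *
        ∏ i, Fc Q (p i) ((P i).eval (n : ℤ) + g x i)‖ ^ 2 ≤
      S.card * H ^ 2 * (C * (1 + Real.log Q) ^ C * (Ws + 1) * (Q : ℝ) ^ (-c)) := by
  classical
  obtain ⟨hCc, hcc0, hcc1⟩ := hC
  set xx : ℝ := 1 / (2 * k + 2) with hx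
  have hx0 : 0 < xx := by positivity
  have hx1 : xx ≤ 1 := by
    rw [hx, div_le_one (by positivity)]
    have : (0 : ℝ) ≤ k := by positivity
    linarith
  refine ⟨4 * Cc + 2, cc * xx, by linarith, mul_pos hcc0 hx0, ?_, ?_⟩
  · calc cc * xx ≤ 1 * 1 := mul_le_mul hcc1 hx1 hx0.le zero_le_one
      _ = 1 := one_mul 1
  intro P hP Q Qm hQ hQm p hp ι S g hF a H hQH hQE f Ws hWs hf2 hfe
  set D : ℕ := fl Q xx with hD
  obtain ⟨hD1, hD2, -⟩ := G1_one hQ hx0.le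
  rw [← hD] at hD1 hD2
  have hQr : (1 : ℝ) ≤ Q := by exact_mod_cast hQ
  have hQp : (0 : ℝ) < Q := by linarith
  have hHr : (0 : ℝ) ≤ H := by positivity
  have hvol : (0 : ℝ) ≤ S.card := Nat.cast_nonneg _
  have hl : 0 ≤ Real.log Q := Real.log_natCast_nonneg Q
  set T0 := Fintype.piFinset (fun i => KS Q (p i).1) with hT0
  set T1 := T0.filter (fun κ => univ.lcm (fun i => (p i).1 * κ i) ≤ D) with hT1
  set T2 := T0.filter (fun κ => ¬ univ.lcm (fun i => (p i).1 * κ i) ≤ D) with hT2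
  have hsplit : ∀ h : Fin k → ℕ, ∑ n ∈ Ico a (a + H), f n * ∏ i, Fc Q (p i) ((P i).eval (n : ℤ) + h i)
      = ∑ n ∈ Ico a (a + H), f n * ∑ κ ∈ T1, ∏ i, gk (p i) (κ i) ((P i).eval (n : ℤ) + h i)
        + ∑ n ∈ Ico a (a + H), f n * ∑ κ ∈ T2, ∏ i, gk (p i) (κ i) ((P i).eval (n : ℤ) + h i) := by
    intro h
    rw [← sum_add_distrib]
    refine sum_congr rfl fun n _ => ?_
    rw [← mul_add, hT1, hT2, sum_filter_add_sum_filter_not]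
    congr 1
    unfold Fc
    rw [hT0, prod_univ_sum]
  have hA1 : ∀ h : Fin k → ℕ,
      ‖∑ n ∈ Ico a (a + H), f n * ∑ κ ∈ T1, ∏ i, gk (p i) (κ i) ((P i).eval (n : ℤ) + h i)‖ ≤ H / Q := by
    intro h
    have h1 := W1_small P Q D hD1 p hp T1 (filter_subset _ _) (fun κ hκ => (mem_filter.mp hκ).2) f
      (Ico a (a + H)) (H / (Q : ℝ) ^ 2) hfe h
    refine h1.trans ?_
    have h2 : (D : ℝ) ^ (2 * k + 1) ≤ Q := by
      calc (D : ℝ) ^ (2 * k + 1) ≤ ((Q : ℝ) ^ xx) ^ (2 * k + 1) :=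
            pow_le_pow_left₀ (by positivity) hD2 _
        _ = (Q : ℝ) ^ (xx * ((2 * k + 1 : ℕ) : ℝ)) := by
            rw [← Real.rpow_natCast, ← Real.rpow_mul hQp.le]
        _ ≤ (Q : ℝ) ^ (1 : ℝ) := by
            refine Real.rpow_le_rpow_of_exponent_le hQr ?_
            rw [hx, div_mul_eq_mul_div, one_mul, div_le_one (by positivity)]
            push_cast
            linarith
        _ = Q := Real.rpow_one _
    calc (D : ℝ) ^ (2 * k + 1) * (H / (Q : ℝ) ^ 2) ≤ Q * (H / (Q : ℝ) ^ 2) :=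
          mul_le_mul_of_nonneg_right h2 (by positivity)
      _ = H / Q := by field_simp
  have hA2 : ∑ x ∈ S,
      ‖∑ n ∈ Ico a (a + H), f n * ∑ κ ∈ T1, ∏ i, gk (p i) (κ i) ((P i).eval (n : ℤ) + g x i)‖ ^ 2
      ≤ (S.card : ℝ) * H ^ 2 * (Q : ℝ) ^ (-(cc * xx)) := by
    have h1 : ∀ x ∈ S,
        ‖∑ n ∈ Ico a (a + H), f n * ∑ κ ∈ T1, ∏ i, gk (p i) (κ i) ((P i).eval (n : ℤ) + g x i)‖ ^ 2
        ≤ (H / Q) ^ 2 := fun x _ => pow_le_pow_left₀ (norm_nonneg _) (hA1 (g x)) 2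
    refine (sum_le_sum h1).trans ?_
    rw [sum_const, nsmul_eq_mul, div_pow, mul_assoc]
    refine mul_le_mul_of_nonneg_left ?_ hvol
    rw [div_eq_mul_inv]
    refine mul_le_mul_of_nonneg_left ?_ (by positivity)
    have h2 : ((Q : ℝ) ^ 2)⁻¹ = (Q : ℝ) ^ (-(2 : ℝ)) := by
      rw [Real.rpow_neg hQp.le, Real.rpow_ofNat]
    rw [h2]
    refine Real.rpow_le_rpow_of_exponent_le hQr ?_
    have h3 : cc * xx ≤ 1 * 1 := mul_le_mul hcc1 hx1 hx0.le zero_le_one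
    linarith
  have hB := hF Q hQ hQm p hp T2 (filter_subset _ _) D hD1
    (fun κ hκ => not_le.mp (mem_filter.mp hκ).2) a H hQE f
  have hneg : (D : ℝ) ^ (-cc) ≤ 2 * (Q : ℝ) ^ (-(cc * xx)) := by
    refine (G1_neg hQ hx0.le hcc0.le).trans ?_
    refine mul_le_mul_of_nonneg_right ?_ (by positivity)
    calc (2 : ℝ) ^ cc ≤ 2 ^ (1 : ℝ) := Real.rpow_le_rpow_of_exponent_le (by norm_num) hcc1
      _ = 2 := Real.rpow_one 2
  set EE : ℝ := (Q : ℝ) ^ (-(cc * xx)) with hE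
  have hE0 : 0 < EE := by positivity
  set Lg : ℝ := (1 + Real.log Q) ^ (4 * Cc + 2) with hLg
  have hLg1 : 1 ≤ Lg := Real.one_le_rpow (by linarith) (by linarith)
  have hLg2 : (1 + Real.log Q) ^ Cc ≤ Lg :=
    Real.rpow_le_rpow_of_exponent_le (by linarith) (by linarith)
  have hLc0 : 0 ≤ (1 + Real.log Q) ^ Cc := by positivity
  have hB2 : ∑ x ∈ S,
      ‖∑ n ∈ Ico a (a + H), f n * ∑ κ ∈ T2, ∏ i, gk (p i) (κ i) ((P i).eval (n : ℤ) + g x i)‖ ^ 2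
      ≤ (S.card : ℝ) * H ^ 2 * (2 * Cc * Lg * Ws * EE) := by
    refine hB.trans ?_
    calc Cc * (1 + Real.log Q) ^ Cc * (S.card : ℝ) * (H * ∑ n ∈ Ico a (a + H), ‖f n‖ ^ 2) * (D : ℝ) ^ (-cc)
        ≤ Cc * Lg * (S.card : ℝ) * (H * (H * Ws)) * (2 * EE) := by
          have h0 : 0 ≤ ∑ n ∈ Ico a (a + H), ‖f n‖ ^ 2 := sum_nonneg fun _ _ => by positivity
          have h1 : 0 ≤ (D : ℝ) ^ (-cc) := by positivity
          gcongr
      _ = (S.card : ℝ) * H ^ 2 * (2 * Cc * Lg * Ws * EE) := by ring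
  have h4 : ∀ x ∈ S, ‖∑ n ∈ Ico a (a + H), f n *
        ∏ i, Fc Q (p i) ((P i).eval (n : ℤ) + g x i)‖ ^ 2
      ≤ 2 * ‖∑ n ∈ Ico a (a + H), f n * ∑ κ ∈ T1, ∏ i, gk (p i) (κ i) ((P i).eval (n : ℤ) + g x i)‖ ^ 2
        + 2 * ‖∑ n ∈ Ico a (a + H), f n * ∑ κ ∈ T2, ∏ i, gk (p i) (κ i) ((P i).eval (n : ℤ) + g x i)‖ ^ 2 := by
    intro x _
    rw [hsplit (g x)]
    generalize (∑ n ∈ Ico a (a + H), f n * ∑ κ ∈ T1, ∏ i, gk (p i) (κ i) ((P i).eval (n : ℤ) + g x i)) = z1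
    generalize (∑ n ∈ Ico a (a + H), f n * ∑ κ ∈ T2, ∏ i, gk (p i) (κ i) ((P i).eval (n : ℤ) + g x i)) = z2
    have h5 := norm_add_le z1 z2
    have h6 : ‖z1 + z2‖ ^ 2 ≤ (‖z1‖ + ‖z2‖) ^ 2 := pow_le_pow_left₀ (norm_nonneg _) h5 2
    nlinarith [sq_nonneg (‖z1‖ - ‖z2‖)]
  refine (sum_le_sum h4).trans ?_
  rw [sum_add_distrib, ← mul_sum, ← mul_sum]
  have h7 : 2 * ((S.card : ℝ) * (H : ℝ) ^ 2 * EE) + 2 * ((S.card : ℝ) * H ^ 2 * (2 * Cc * Lg * Ws * EE))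
      ≤ (S.card : ℝ) * H ^ 2 * ((4 * Cc + 2) * Lg * (Ws + 1) * EE) := by
    have h8 : 2 * ((S.card : ℝ) * (H : ℝ) ^ 2 * EE) + 2 * ((S.card : ℝ) * H ^ 2 * (2 * Cc * Lg * Ws * EE))
        = (S.card : ℝ) * H ^ 2 * ((2 + 4 * Cc * Lg * Ws) * EE) := by ring
    rw [h8]
    refine mul_le_mul_of_nonneg_left ?_ (by positivity)
    refine mul_le_mul_of_nonneg_right ?_ hE0.le
    nlinarith [mul_nonneg (by linarith : 0 ≤ Lg) hWs, mul_nonneg (by linarith : 0 ≤ Cc) (by linarith : 0 ≤ Lg)]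
  linarith

end Pool.Agent.HUP
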