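import Pool.Agent.Lib.HUP.Defs
import Pool.Agent.Lib.H24P.W3
import Pool.Agent.Lib.HUP.R1

/-!
# Project HUP, module R (the modules of H24P for an abstract family), R2: the linear coordinate
-/

open Finset Polynomial

namespace Pool.Agent.HUP

open Pool.Agent.Lib.H68T Pool.Agent.Lib.H18Q Pool.Agent.Lib.H59P Pool.Agent.Lib.H24P

/-- **R2a** (port of `W3_cell`, H24P/W3.lean). Proof. As `W3_cell` with `R1_cell` (`Qm = Q^2`) instead of `W1_cell`. `K` must be so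
large (in terms of `E`) that `Q ^ E ≤ H` follows from `X1 ≤ H Q^8`, `X ≤ X1 Q`, `Q^K ≤ X`. -/
theorem R2_cell (k A E : ℕ) (hA : 1 ≤ A) (Cc cc : ℝ) (hC : FPar Cc cc) : ∃ c K : ℝ, 0 < c ∧ 1 ≤ K ∧ ∀ C : ℝ, ∃ Q0 : ℕ,
    ∀ (Q X X1 Y : ℕ) (B : ℤ[X]) (C0 : ℤ → Ch → ℂ) (mb : Ch → ℝ), Q0 ≤ Q → Rg K C Q X → 0 < X1 →
    X1 ≤ X → X ≤ X1 * Q → GeoB A X X1 Y B → Cf (Q ^ 100) Y C0 mb →
    ∀ P : Fin k → ℤ[X], Pol A P → ∀ c' : Fin k → Ch → ℂ, (∀ i, ∑ p ∈ PC Q, ‖c' i p‖ ≤ 3) →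
    ∀ (ι : Type) (S : Finset ι) (g : ι → Fin k → ℕ), FGood E Cc cc (Q ^ 2) P S g →
    ∀ a H : ℕ, X1 ≤ a → a + H ≤ 2 * X1 → X1 ≤ H * Q ^ 8 →
    ∑ x ∈ S, ‖∑ n ∈ Ico a (a + H), ((fB Q Y B n : ℝ) : ℂ) *
      ∏ i, SG Q (c' i) ((P i).eval (n : ℤ) + g x i)‖ ^ 2 ≤ S.card * H ^ 2 * (Q : ℝ) ^ (-c) := by
  classical
  obtain ⟨C1, c1, hC1, hc1, hc1', hW1⟩ := R1_cell k A E hA Cc cc hC
  obtain ⟨K2, hK2, hW2⟩ := W2_fourier
  obtain ⟨K3, hK3, hW3⟩ := W2_ms A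
  have hE0 : (0 : ℝ) ≤ E := Nat.cast_nonneg E
  refine ⟨c1 / 2, max (100 * K2 + 2) (max K3 (10 + E)), by linarith,
    (by linarith : (1 : ℝ) ≤ 10 + E).trans ((le_max_right _ _).trans (le_max_right _ _)), fun C => ?_⟩
  obtain ⟨Qa, hQa⟩ := hW3 C
  obtain ⟨Qb, hQb⟩ := G2_regB A K2 C hK2
  obtain ⟨Qc, hQc1, hQc⟩ := G1_log C 20 1 (c1 / 8) (by linarith)
  obtain ⟨Qd, hQd1, hQd⟩ := G1_rlog (2 * 9 ^ k * C1) C1 (c1 / 8) (by linarith)
  refine ⟨max (max Qa Qb) (max (max Qc Qd) (max A 1)), ?_⟩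
  intro Q X X1 Y B C0 mb hQ hRg hX1 hX1X hXX1 hB hCf P hP c' hc' ι S g hF a H haX haH hH
  have hQa' : Qa ≤ Q := (le_max_left _ _).trans ((le_max_left _ _).trans hQ)
  have hQb' : Qb ≤ Q := (le_max_right _ _).trans ((le_max_left _ _).trans hQ)
  have hQc' : Qc ≤ Q := (le_max_left _ _).trans ((le_max_left _ _).trans ((le_max_right _ _).trans hQ))
  have hQd' : Qd ≤ Q := (le_max_right _ _).trans ((le_max_left _ _).trans ((le_max_right _ _).trans hQ))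
  have hQA : A ≤ Q := (le_max_left _ _).trans ((le_max_right _ _).trans ((le_max_right _ _).trans hQ))
  have hQ1 : 1 ≤ Q := (le_max_right _ _).trans ((le_max_right _ _).trans ((le_max_right _ _).trans hQ))
  have hQr : (1 : ℝ) ≤ Q := by exact_mod_cast hQ1
  have hQ0 : (0 : ℝ) < Q := by linarith
  have hRa : Rg (100 * K2 + 2) C Q X := w3_Rg hRg (le_max_left _ _)
  have hRb : Rg K3 C Q X := w3_Rg hRg ((le_max_left _ _).trans (le_max_right _ _))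
  have hRc : Rg (10 + E) C Q X := w3_Rg hRg ((le_max_right _ _).trans (le_max_right _ _))
  have hHpos : 0 < H := by
    rcases Nat.eq_zero_or_pos H with h0 | h0
    · rw [h0, zero_mul] at hH
      omega
    · exact h0
  have hHr : (0 : ℝ) < H := by exact_mod_cast hHpos
  have hXH : X ≤ H * Q ^ 9 := by
    calc X ≤ X1 * Q := hXX1
      _ ≤ (H * Q ^ 8) * Q := Nat.mul_le_mul_right Q hH
      _ = H * Q ^ 9 := by ring
  have hXpos : 0 < X := lt_of_lt_of_le hX1 hX1X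
  have hlogH : Real.log X ≤ Real.log H + 9 * Real.log Q := by
    calc Real.log X ≤ Real.log ((H : ℝ) * (Q : ℝ) ^ 9) :=
          Real.log_le_log (by exact_mod_cast hXpos) (by exact_mod_cast hXH)
      _ = Real.log H + 9 * Real.log Q := by
          rw [Real.log_mul hHr.ne' (by positivity), Real.log_pow]
          norm_num
  have hlogQ' : 0 ≤ Real.log Q := Real.log_natCast_nonneg Q
  have hELQ : 0 ≤ (E : ℝ) * Real.log Q := mul_nonneg hE0 hlogQ'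
  have hRc1 : 10 * Real.log Q + E * Real.log Q ≤ Real.log X := by
    have h2 := hRc.1
    rwa [add_mul] at h2
  have hQH : Q ≤ H := by
    have h3 : Real.log Q ≤ Real.log H := by linarith
    have h4 := (Real.log_le_log_iff hQ0 hHr).1 h3
    exact_mod_cast h4
  have hQEH : Q ^ E ≤ H := by
    have h3 : Real.log ((Q : ℝ) ^ E) ≤ Real.log H := by
      rw [Real.log_pow]
      linarith
    have h4 := (Real.log_le_log_iff (pow_pos hQ0 E) hHr).1 h3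
    exact_mod_cast h4
  -- the Fourier bound
  have hreg := hQb Q X X1 Y B hQb' hRa hX1 hX1X hXX1 hB
  have hYH : (Y : ℝ) ≤ A * (H * (Q : ℝ) ^ 9) := by
    have h1 : Y ≤ A * (H * Q ^ 9) := hB.Yhi.trans (Nat.mul_le_mul_left A hXH)
    exact_mod_cast h1
  have hfour : ∀ θ : ℝ, ‖∑ n ∈ Ico a (a + H), ((fB Q Y B n : ℝ) : ℂ) * e ((n : ℝ) * θ)‖ ≤
      H / (Q : ℝ) ^ 2 := by
    intro θ
    refine (hW2 A Q X X1 Y B hQ1 hreg.1 hB a H haX haH θ).trans ?_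
    have h1 : (Q : ℝ) ^ (-(25) : ℝ) = ((Q : ℝ) ^ 25)⁻¹ := by
      have h25 : (25 : ℝ) = ((25 : ℕ) : ℝ) := by norm_num
      rw [Real.rpow_neg hQ0.le, h25, Real.rpow_natCast]
    rw [h1, ← div_eq_mul_inv, div_le_div_iff₀ (by positivity) (by positivity)]
    have h2 : (A : ℝ) ≤ (Q : ℝ) ^ 14 := by
      have h3 : (A : ℝ) ≤ Q := by exact_mod_cast hQA
      have h4 : (Q : ℝ) ^ 1 ≤ (Q : ℝ) ^ 14 := pow_le_pow_right₀ hQr (by norm_num)
      rw [pow_one] at h4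
      linarith
    calc (Y : ℝ) * (Q : ℝ) ^ 2 ≤ (A * (H * (Q : ℝ) ^ 9)) * (Q : ℝ) ^ 2 :=
          mul_le_mul_of_nonneg_right hYH (by positivity)
      _ = A * (H * (Q : ℝ) ^ 11) := by ring
      _ ≤ (Q : ℝ) ^ 14 * (H * (Q : ℝ) ^ 11) := mul_le_mul_of_nonneg_right h2 (by positivity)
      _ = H * (Q : ℝ) ^ 25 := by ring
  -- the mean square
  have hms := (hQa Q X X1 Y B C0 mb hQa' hRb hX1 hX1X hXX1 hB hCf a H haX haH
    (hH.trans (Nat.mul_le_mul_left H (Nat.pow_le_pow_right hQ1 (by norm_num))))).1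
  set Ws : ℝ := (Real.log X) ^ 20 with hWs
  have hWs0 : 0 ≤ Ws := pow_nonneg (Real.log_natCast_nonneg X) _
  set W : ℝ := S.card * H ^ 2 * (C1 * (1 + Real.log Q) ^ C1 * (Ws + 1) * (Q : ℝ) ^ (-c1)) with hW
  have hvol : (0 : ℝ) ≤ S.card := Nat.cast_nonneg _
  have hlogQ : 0 ≤ Real.log Q := Real.log_natCast_nonneg Q
  have hW0 : 0 ≤ W := by
    have h1 : 0 ≤ (1 + Real.log Q) ^ C1 := Real.rpow_nonneg (by linarith) _
    have h2 : 0 ≤ (Q : ℝ) ^ (-c1) := Real.rpow_nonneg hQ0.le _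
    have h3 : 0 ≤ C1 := by linarith
    positivity
  -- expansion
  have hexp : ∀ h : Fin k → ℕ, ∑ n ∈ Ico a (a + H), ((fB Q Y B n : ℝ) : ℂ) *
      ∏ i, SG Q (c' i) ((P i).eval (n : ℤ) + h i) =
      ∑ p ∈ Fintype.piFinset fun _ : Fin k => PC Q, (∏ i, c' i (p i)) *
        ∑ n ∈ Ico a (a + H), ((fB Q Y B n : ℝ) : ℂ) *
          ∏ i, Fc Q (p i) ((P i).eval (n : ℤ) + h i) := by
    intro h
    have h1 : ∀ n ∈ Ico a (a + H), ((fB Q Y B n : ℝ) : ℂ) *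
        ∏ i, SG Q (c' i) ((P i).eval (n : ℤ) + h i) =
        ∑ p ∈ Fintype.piFinset fun _ : Fin k => PC Q, (∏ i, c' i (p i)) *
          (((fB Q Y B n : ℝ) : ℂ) * ∏ i, Fc Q (p i) ((P i).eval (n : ℤ) + h i)) := by
      intro n _
      rw [W3_SG, Finset.mul_sum]
      refine Finset.sum_congr rfl fun p _ => ?_
      ring
    rw [Finset.sum_congr rfl h1, Finset.sum_comm]
    refine Finset.sum_congr rfl fun p _ => ?_
    rw [Finset.mul_sum]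
  have hγ : ∑ p ∈ Fintype.piFinset fun _ : Fin k => PC Q, ‖∏ i, c' i (p i)‖ ≤ (3 : ℝ) ^ k := by
    have h1 : ∑ p ∈ Fintype.piFinset fun _ : Fin k => PC Q, ‖∏ i, c' i (p i)‖ =
        ∏ i, ∑ p ∈ PC Q, ‖c' i p‖ := by
      rw [Finset.prod_univ_sum]
      exact Finset.sum_congr rfl fun p _ => norm_prod _ _
    rw [h1]
    have h2 : ∏ i : Fin k, ∑ p ∈ PC Q, ‖c' i p‖ ≤ ∏ _i : Fin k, (3 : ℝ) :=
      Finset.prod_le_prod (fun i _ => Finset.sum_nonneg fun p _ => norm_nonneg _) (fun i _ => hc' i)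
    rwa [prod_const, card_univ, Fintype.card_fin] at h2
  have hmain := Z2a S (Fintype.piFinset fun _ : Fin k => PC Q) (fun p => ∏ i, c' i (p i))
    (fun p x => ∑ n ∈ Ico a (a + H), ((fB Q Y B n : ℝ) : ℂ) *
      ∏ i, Fc Q (p i) ((P i).eval (n : ℤ) + g x i)) ((3 : ℝ) ^ k) W hW0 hγ (fun p hp =>
      hW1 P hP Q (Q ^ 2) hQ1 (Nat.le_self_pow (by norm_num) Q) p (fun i => Fintype.mem_piFinset.1 hp i) ι S g hF a H
        hQH hQEH (fun n => ((fB Q Y B n : ℝ) : ℂ)) Ws hWs0 hms hfour)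
  refine (le_of_eq (Finset.sum_congr rfl fun x _ => by rw [hexp (g x)])).trans (hmain.trans ?_)
  -- numerics
  have e1 : Ws + 1 ≤ 2 * (Q : ℝ) ^ (c1 / 8) := by
    have h1 := hQc Q X hQc' hRg.2
    rw [one_mul] at h1
    have h2 : 1 ≤ (Q : ℝ) ^ (c1 / 8) := Real.one_le_rpow hQr (by linarith)
    linarith
  have e2 := hQd Q hQd'
  have h9 : ((3 : ℝ) ^ k) ^ 2 = 9 ^ k := by
    rw [← pow_mul, mul_comm k 2, pow_mul]
    norm_num
  have hL0 : 0 ≤ (1 + Real.log Q) ^ C1 := Real.rpow_nonneg (by linarith) _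
  have hn1 : 0 ≤ (Q : ℝ) ^ (-c1) := Real.rpow_nonneg hQ0.le _
  have hC10 : 0 ≤ C1 := by linarith
  calc ((3 : ℝ) ^ k) ^ 2 * W = S.card * H ^ 2 *
        ((9 ^ k * C1 * (1 + Real.log Q) ^ C1) * (Ws + 1) * (Q : ℝ) ^ (-c1)) := by
        rw [h9, hW]
        ring
    _ ≤ S.card * H ^ 2 * ((9 ^ k * C1 * (1 + Real.log Q) ^ C1) * (2 * (Q : ℝ) ^ (c1 / 8)) *
        (Q : ℝ) ^ (-c1)) := by
        refine mul_le_mul_of_nonneg_left ?_ (by positivity)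
        refine mul_le_mul_of_nonneg_right ?_ hn1
        exact mul_le_mul_of_nonneg_left e1 (by positivity)
    _ = S.card * H ^ 2 * ((2 * 9 ^ k * C1 * (1 + Real.log Q) ^ C1) * (Q : ℝ) ^ (c1 / 8) *
        (Q : ℝ) ^ (-c1)) := by ring
    _ ≤ S.card * H ^ 2 * ((Q : ℝ) ^ (c1 / 8) * (Q : ℝ) ^ (c1 / 8) * (Q : ℝ) ^ (-c1)) := by
        refine mul_le_mul_of_nonneg_left ?_ (by positivity)
        refine mul_le_mul_of_nonneg_right ?_ hn1
        exact mul_le_mul_of_nonneg_right e2 (Real.rpow_nonneg hQ0.le _)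
    _ = S.card * H ^ 2 * (Q : ℝ) ^ (c1 / 8 + c1 / 8 + -c1) := by
        rw [Real.rpow_add hQ0, Real.rpow_add hQ0]
    _ ≤ S.card * H ^ 2 * (Q : ℝ) ^ (-(c1 / 2)) := by
        refine mul_le_mul_of_nonneg_left ?_ (by positivity)
        exact Real.rpow_le_rpow_of_exponent_le hQr (by linarith)

/-- **R2** (port of `W3_main`). Proof. The difference is `Rzb` with the weight `fB`. Cut `[X1, 2 X1)` into the `Q^8` cells of
length `H = X1/Q^8` (`Q^800 ∣ X1`); on a cell the frozen coefficients are constant (`bs H n = X1 + j H`, `E1_bs` with `m = X1`), of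
total size `≤ 3` (`Cf.le`, `Cf.sum`; `P_i(bs n) + h0_i` is in `[Y_i, 3 Y_i)`: `G2_P`, `G2_val`, `h0 ∈ cub M M`): `R2_cell`, and
`‖∑_j‖² ≤ N ∑_j ‖·‖²` (Cauchy-Schwarz, `inner_mul_le_norm_mul_norm` or as in `E1_cells`). -/
theorem R2_main {k : ℕ} (P : Fin k → ℤ[X]) (A E : ℕ) (hA : 1 ≤ A) (hP : Pol A P) (Cc cc : ℝ) (hC : FPar Cc cc) :
    ∃ c K : ℝ, 0 < c ∧ 1 ≤ K ∧ ∃ L : ℕ, 2 ≤ L ∧ ∀ C : ℝ, ∃ Q0 : ℕ, ∀ (Q X X1 Y : ℕ) (M : Fin k → ℕ) (B : ℤ[X])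
    (C0 : ℤ → Ch → ℂ) (mb : Ch → ℝ), Q0 ≤ Q → Rg K C Q X → Geo L Q X X1 P M → GeoB A X X1 Y B →
    Cf (Q ^ 100) Y C0 mb → ∀ (C' : Fin k → ℤ → Ch → ℂ) (mc : Fin k → Ch → ℝ),
    (∀ i, Cf Q (Ysc (M i)) (C' i) (mc i)) →
    ∀ (ι : Type) (S : Finset ι) (g : ι → Fin k → ℕ) (h0 : Fin k → ℕ), Cl E Cc cc Q P M S g h0 →
    ∑ x ∈ S, ‖Rzb Q X1 P C' (fun n => ((lp (B.eval (n : ℤ)) : ℝ) : ℂ)) h0 (g x) -
      Rzb Q X1 P C' (fun n => ((Lk (Q ^ 100) (Y / (Q ^ 100) ^ 2) (B.eval (n : ℤ)) : ℝ) : ℂ)) h0 (g x)‖ ^ 2 ≤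
      (X1 : ℝ) ^ 2 * S.card * (Q : ℝ) ^ (-c) := by
  classical
  obtain ⟨c, K, hc, hK, hcell⟩ := R2_cell k A E hA Cc cc hC
  obtain ⟨L, hL2, hL⟩ := G2_P P hP.deg
  refine ⟨c, K, hc, hK, L, hL2, fun C => ?_⟩
  obtain ⟨Q0, hQ0⟩ := hcell C
  refine ⟨max Q0 1, ?_⟩
  intro Q X X1 Y M B C0 mb hQ hRg hG hB hCf C' mc hCc ι S g h0 hCl
  have hQ0' : Q0 ≤ Q := (le_max_left _ _).trans hQ
  have hQ1 : 1 ≤ Q := (le_max_right _ _).trans hQ
  have hQ8 : 0 < Q ^ 8 := Nat.pow_pos hQ1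
  set H : ℕ := X1 / Q ^ 8 with hH
  have hdX : Q ^ 8 ∣ X1 := (pow_dvd_pow Q (by norm_num)).trans hG.dvd
  have hXH : X1 = H * Q ^ 8 := (Nat.div_mul_cancel hdX).symm
  have hHpos : 0 < H := by
    rcases Nat.eq_zero_or_pos H with h0 | h0
    · rw [h0, zero_mul] at hXH
      have := hG.pos
      omega
    · exact h0
  -- the difference
  set F : ι → ℕ → ℂ := fun x n => ((fB Q Y B n : ℝ) : ℂ) *
    ∏ i, SG Q (C' i ((P i).eval ((bs H n : ℕ) : ℤ) + (h0 i : ℤ))) ((P i).eval (n : ℤ) + g x i) with hF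
  have hdiff : ∀ x : ι,
      Rzb Q X1 P C' (fun n => ((lp (B.eval (n : ℤ)) : ℝ) : ℂ)) h0 (g x) -
      Rzb Q X1 P C' (fun n => ((Lk (Q ^ 100) (Y / (Q ^ 100) ^ 2) (B.eval (n : ℤ)) : ℝ) : ℂ)) h0 (g x) =
      ∑ n ∈ Ico X1 (2 * X1), F x n := by
    intro x
    unfold Rzb
    rw [← Finset.sum_sub_distrib]
    refine Finset.sum_congr rfl fun n _ => ?_
    rw [hF]
    simp only
    rw [← sub_mul]
    congr 1
    unfold fB
    push_cast
    ring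
  rw [Finset.sum_congr rfl fun x _ => by rw [hdiff x]]
  -- one cell
  have hone : ∀ j < Q ^ 8, ∑ x ∈ S, ‖∑ n ∈ Ico (X1 + j * H) (X1 + j * H + H), F x n‖ ^ 2 ≤
      S.card * H ^ 2 * (Q : ℝ) ^ (-c) := by
    intro j hj
    have hjH : (j + 1) * H ≤ X1 := by
      rw [hXH, mul_comm H]
      exact Nat.mul_le_mul_right H hj
    have hjH' : j * H + H ≤ X1 := by
      have : (j + 1) * H = j * H + H := by ring
      omega
    have haI : X1 + j * H ∈ Ico X1 (2 * X1) := by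
      rw [mem_Ico]
      omega
    have hbsn : ∀ n ∈ Ico (X1 + j * H) (X1 + j * H + H), bs H n = X1 + j * H := by
      intro n hn
      have h1 := mem_Ico.1 hn
      have h2 : X1 + j * H = (Q ^ 8 + j) * H := by
        conv_lhs => rw [hXH]
        ring
      rw [h2] at h1 ⊢
      exact z2_bs hHpos _ _ h1.1 h1.2
    set c' : Fin k → Ch → ℂ := fun i =>
      C' i ((P i).eval ((X1 + j * H : ℕ) : ℤ) + (h0 i : ℤ)) with hc'
    have hcell' := hQ0 Q X X1 Y B C0 mb hQ0' hRg hG.pos hG.le hG.ge hB hCf P hP c' ?_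
      ι S g hCl.good (X1 + j * H) H (by omega) (by omega) hXH.le
    · refine (le_of_eq ?_).trans hcell'
      refine Finset.sum_congr rfl fun x _ => ?_
      congr 2
      refine Finset.sum_congr rfl fun n hn => ?_
      rw [hF]
      simp only
      congr 1
      refine Finset.prod_congr rfl fun i _ => ?_
      rw [hc']
      simp only
      rw [hbsn n hn]
    · intro i
      have hx : h0 i ∈ Ico (M i) (2 * M i) := by
        have h1 := hCl.memb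
        unfold cub at h1
        have h2 := mem_Ico.1 ((Fintype.mem_piFinset.1 h1) i)
        rw [mem_Ico]
        omega
      have hv := (hL Q X X1 M hG i (X1 + j * H) haI).1
      have hd8 : 8 ∣ M i := (Dvd.intro _ rfl).trans (hG.dvdM i)
      have h5 := G2_val (M i) (h0 i) _ hd8 hv hx
      refine (Finset.sum_le_sum fun p hp => ?_).trans (hCc i).sum
      refine (hCc i).le _ h5.1 ?_ p hp
      have h6 : (0 : ℤ) ≤ Ysc (M i) := Nat.cast_nonneg _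
      linarith [h5.2.1]
  -- all cells
  have h2X : 2 * X1 = X1 + Q ^ 8 * H := by
    have : Q ^ 8 * H = X1 := by rw [mul_comm]; exact hXH.symm
    omega
  calc ∑ x ∈ S, ‖∑ n ∈ Ico X1 (2 * X1), F x n‖ ^ 2
      ≤ ∑ x ∈ S, ((Q ^ 8 : ℕ) : ℝ) * ∑ j ∈ range (Q ^ 8),
          ‖∑ n ∈ Ico (X1 + j * H) (X1 + j * H + H), F x n‖ ^ 2 := by
        refine Finset.sum_le_sum (fun x _ => ?_)
        rw [h2X, z2_cells]
        exact z2_cs _ _
    _ = ((Q ^ 8 : ℕ) : ℝ) * ∑ j ∈ range (Q ^ 8), ∑ x ∈ S,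
          ‖∑ n ∈ Ico (X1 + j * H) (X1 + j * H + H), F x n‖ ^ 2 := by
        rw [← Finset.mul_sum, Finset.sum_comm]
    _ ≤ ((Q ^ 8 : ℕ) : ℝ) * ∑ j ∈ range (Q ^ 8), S.card * H ^ 2 * (Q : ℝ) ^ (-c) := by
        refine mul_le_mul_of_nonneg_left ?_ (by positivity)
        exact Finset.sum_le_sum (fun j hj => hone j (mem_range.mp hj))
    _ = (X1 : ℝ) ^ 2 * S.card * (Q : ℝ) ^ (-c) := by
        rw [Finset.sum_const, card_range, nsmul_eq_mul]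
        have h7 : (X1 : ℝ) = H * ((Q ^ 8 : ℕ) : ℝ) := by
          rw [← Nat.cast_mul]
          exact congrArg (Nat.cast : ℕ → ℝ) hXH
        rw [h7]
        ring

end Pool.Agent.HUP
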