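import Pool.Agent.Lib.HUP.Defs
import Pool.Agent.Lib.H24P.T3

/-!
# Project HUP, module R (the modules of H24P for an abstract family), R5: mean squares of parts of the singular series
-/

open Finset Polynomial

namespace Pool.Agent.HUP

open Pool.Agent.Lib.H68T Pool.Agent.Lib.H18Q Pool.Agent.Lib.H59P Pool.Agent.Lib.H24P

/-- **R5** (port of `T3_main`, H24P/T3.lean). Proof. As there with `N = (∏ S) (Q^2)^(E+1)` (so `j = (Q^2)^(E+1)` in `T2_iden`) and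
`FGood` at the level `Q^2`. -/
theorem R5_main (k A E : ℕ) (hA : 1 ≤ A) (Cc cc : ℝ) (hC : FPar Cc cc) : ∃ C c : ℝ, 1 ≤ C ∧ 0 < c ∧ c ≤ 1 ∧
    ∀ B : ℤ[X], Lin A B → ∀ P : Fin k → ℤ[X], Pol A P → ∀ Q : ℕ, 2 ≤ Q → ∀ (Δ : Finset ℕ) (D : ℕ), 1 ≤ D →
    (∀ d ∈ Δ, Squarefree d ∧ D < d ∧ d ≤ Q ^ 2 ∧
      ∀ l ∈ d.primeFactors, l ≤ Q ∧ ¬ l ∣ B.leadingCoeff.natAbs) →
    ∀ (ι : Type) (S : Finset ι) (g : ι → Fin k → ℕ), FGood E Cc cc (Q ^ 2) P S g →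
    ∑ x ∈ S, (∑ d ∈ Δ, tdf d (sys B P (g x))) ^ 2 ≤
      C * (1 + Real.log Q) ^ C * S.card * (D : ℝ) ^ (-c) := by
  classical
  obtain ⟨hCc, hcc0, hcc1⟩ := hC
  have hcst : 0 < 500 * Cc * 2 ^ Cc := by positivity
  refine ⟨500 * Cc * 2 ^ Cc + Cc + 1, cc, by linarith, hcc0, hcc1, ?_⟩
  intro B hB P hP Q hQ Δ D hD hΔ ι Sx g hg
  have hQr : (2 : ℝ) ≤ Q := by exact_mod_cast hQ
  have hlQ : 0 ≤ Real.log Q := Real.log_natCast_nonneg Q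
  set S : Finset ℕ := (pr Q).filter (fun l => ¬ l ∣ B.leadingCoeff.natAbs) with hSdef
  have hS : ∀ l ∈ S, l.Prime ∧ l ≤ Q ∧ ¬ l ∣ B.leadingCoeff.natAbs := by
    intro l hl
    rw [hSdef, mem_filter] at hl
    unfold pr at hl
    rw [mem_filter, mem_Icc] at hl
    exact ⟨hl.1.2, hl.1.1.2, hl.2⟩
  have hΔ' : ∀ d ∈ Δ, Squarefree d ∧ d ≤ Q ^ 2 ∧ d.primeFactors ⊆ S := by
    intro d hd
    obtain ⟨h1, h2, h3, h4⟩ := hΔ d hd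
    refine ⟨h1, h3, fun l hl => ?_⟩
    rw [hSdef, mem_filter]
    unfold pr
    rw [mem_filter, mem_Icc]
    have h5 := (Nat.mem_primeFactors.mp hl).1
    exact ⟨⟨⟨h5.one_lt.le, (h4 l hl).1⟩, h5⟩, (h4 l hl).2⟩
  have hpS : 0 < ∏ l ∈ S, l := prod_pos fun l hl => (hS l hl).1.pos
  have hQ2 : 1 ≤ Q ^ 2 := Nat.one_le_pow _ _ (by omega)
  have hj1 : 1 ≤ (Q ^ 2) ^ (E + 1) := Nat.one_le_pow _ _ (by positivity)
  set N : ℕ := (∏ l ∈ S, l) * (Q ^ 2) ^ (E + 1) with hN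
  have hN0 : 0 < N := Nat.mul_pos hpS hj1
  have hNQ : (Q ^ 2) ^ E ≤ N := (Nat.pow_le_pow_right hQ2 (Nat.le_succ E)).trans
    (Nat.le_mul_of_pos_left _ hpS)
  have hNr : (0 : ℝ) < N := by exact_mod_cast hN0
  set T : Finset (Fin k → ℕ) := (Fintype.piFinset fun _ : Fin k => KS (Q ^ 2) 1).filter
    (fun κ => univ.lcm κ ∈ Δ) with hT
  have hiden := fun h : Fin k → ℕ => T2_iden B hB.deg P h S (fun l hl => ⟨(hS l hl).1, (hS l hl).2.2⟩)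
    (Q ^ 2) ((Q ^ 2) ^ (E + 1)) hj1 Δ hΔ'
  have hFg := hg (Q ^ 2) hQ2 le_rfl (fun _ => p0) (fun _ => p0_mem hQ2) T (filter_subset _ _) D hD
    (by
      intro κ hκ
      have h1 := (mem_filter.mp hκ).2
      have h2 : (fun i => (p0).1 * κ i) = κ := by
        funext i
        exact one_mul _
      rw [h2]
      exact (hΔ _ h1).2.1)
    0 N hNQ (fun n => ((uu S (B.eval (n : ℤ)) : ℝ) : ℂ))
  have hsq := t3_sq B hB.deg Q hQ ((Q ^ 2) ^ (E + 1)) S hS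
  have hL : ∀ x ∈ Sx, ‖∑ n ∈ Ico 0 (0 + N), ((uu S (B.eval (n : ℤ)) : ℝ) : ℂ) *
      ∑ κ ∈ T, ∏ i, gk p0 (κ i) ((P i).eval (n : ℤ) + g x i)‖ ^ 2 =
      (N : ℝ) ^ 2 * (∑ d ∈ Δ, tdf d (sys B P (g x))) ^ 2 := by
    intro x _
    rw [hiden (g x), norm_mul, Complex.norm_natCast, Complex.norm_real, mul_pow, Real.norm_eq_abs, sq_abs]
  have hFg' : (N : ℝ) ^ 2 * ∑ x ∈ Sx, (∑ d ∈ Δ, tdf d (sys B P (g x))) ^ 2 ≤
      Cc * (1 + Real.log ((Q ^ 2 : ℕ) : ℝ)) ^ Cc * Sx.card *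
        (N * ∑ n ∈ Ico 0 (0 + N), ‖((uu S (B.eval (n : ℤ)) : ℝ) : ℂ)‖ ^ 2) * (D : ℝ) ^ (-cc) := by
    rw [mul_sum, ← sum_congr rfl hL]
    exact hFg
  have hlog2 : Real.log ((Q ^ 2 : ℕ) : ℝ) = 2 * Real.log Q := by
    rw [Nat.cast_pow, Real.log_pow]
    norm_num
  have hE0 : (0 : ℝ) ≤ (D : ℝ) ^ (-cc) := by positivity
  have hpw : (1 + Real.log ((Q ^ 2 : ℕ) : ℝ)) ^ Cc ≤ 2 ^ Cc * (1 + Real.log Q) ^ Cc := by
    rw [hlog2, ← Real.mul_rpow (by norm_num) (by linarith)]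
    exact Real.rpow_le_rpow (by linarith) (by linarith) (by linarith)
  have hb1 : (N : ℝ) ^ 2 * ∑ x ∈ Sx, (∑ d ∈ Δ, tdf d (sys B P (g x))) ^ 2 ≤
      (N : ℝ) ^ 2 * (Cc * (2 ^ Cc * (1 + Real.log Q) ^ Cc) * Sx.card * (500 * (1 + Real.log Q)) *
        (D : ℝ) ^ (-cc)) := by
    refine hFg'.trans ?_
    have h1 : (N : ℝ) * ∑ n ∈ Ico 0 (0 + N), ‖((uu S (B.eval (n : ℤ)) : ℝ) : ℂ)‖ ^ 2 ≤
        N * (N * (500 * (1 + Real.log Q))) := by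
      refine mul_le_mul_of_nonneg_left (hsq.trans ?_) hNr.le
      refine mul_le_mul_of_nonneg_left ?_ hNr.le
      linarith
    calc Cc * (1 + Real.log ((Q ^ 2 : ℕ) : ℝ)) ^ Cc * Sx.card *
          (N * ∑ n ∈ Ico 0 (0 + N), ‖((uu S (B.eval (n : ℤ)) : ℝ) : ℂ)‖ ^ 2) * (D : ℝ) ^ (-cc)
        ≤ Cc * (2 ^ Cc * (1 + Real.log Q) ^ Cc) * Sx.card * (N * (N * (500 * (1 + Real.log Q)))) *
          (D : ℝ) ^ (-cc) := by
          gcongr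
      _ = _ := by ring
  have hb2 := le_of_mul_le_mul_left hb1 (by positivity)
  refine hb2.trans ?_
  have h1L : 1 ≤ 1 + Real.log Q := by linarith
  have h3 : (1 + Real.log Q) ^ Cc * (1 + Real.log Q) ≤
      (1 + Real.log Q) ^ (500 * Cc * 2 ^ Cc + Cc + 1) := by
    rw [← Real.rpow_add_one (by linarith)]
    exact Real.rpow_le_rpow_of_exponent_le h1L (by linarith)
  have h4 : 500 * Cc * 2 ^ Cc ≤ 500 * Cc * 2 ^ Cc + Cc + 1 := by linarith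
  calc Cc * (2 ^ Cc * (1 + Real.log Q) ^ Cc) * Sx.card * (500 * (1 + Real.log Q)) * (D : ℝ) ^ (-cc)
      = (500 * Cc * 2 ^ Cc) * ((1 + Real.log Q) ^ Cc * (1 + Real.log Q)) * Sx.card * (D : ℝ) ^ (-cc) := by
        ring
    _ ≤ (500 * Cc * 2 ^ Cc + Cc + 1) * (1 + Real.log Q) ^ (500 * Cc * 2 ^ Cc + Cc + 1) * Sx.card *
        (D : ℝ) ^ (-cc) := by
        gcongr

end Pool.Agent.HUP
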