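import Pool.Agent.Lib.HUP.Defs
import Pool.Agent.Lib.H24P.T5
import Pool.Agent.Lib.HUP.R5

/-!
# Project HUP, module R (the modules of H24P for an abstract family), R6: truncation of the singular series
-/

open Finset Polynomial

namespace Pool.Agent.HUP

open Pool.Agent.Lib.H68T Pool.Agent.Lib.H18Q Pool.Agent.Lib.H59P Pool.Agent.Lib.H24P

/-- **R6** (port of `T5_main`, H24P/T5.lean). Proof. As there with `R5_main`. -/
theorem R6_main (k A E : ℕ) (hA : 1 ≤ A) (Cc cc : ℝ) (hC : FPar Cc cc) : TMb k A E Cc cc := by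
  classical
  obtain ⟨E0, hE0d⟩ : ∃ E0 : ℕ, E0 = E := ⟨E, rfl⟩
  rw [← hE0d]
  clear hE0d E
  obtain ⟨C3, c3, hC3, hc3, hc31, h3⟩ := R5_main k A E0 hA Cc cc hC
  obtain ⟨C1, hC1, h1⟩ := T1_abs k A hA
  obtain ⟨Q1, hQ1, hlog⟩ := G1_rlog ((1 + C1 * 500 ^ (k + 1)) ^ 2 * C3) (2 * (k + 2) + C3) (c3 / 8)
    (by linarith)
  obtain ⟨Q2, hQ2, hsize⟩ := G1_size A
  refine ⟨c3 / 8, by linarith, max 3 (max Q1 Q2), fun Q hQ B hB P hP ι S g hG R hR1 hR hBR => ?_⟩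
  have hQ3 : 3 ≤ Q := (le_max_left _ _).trans hQ
  have hQQ1 : Q1 ≤ Q := (le_max_left _ _).trans ((le_max_right _ _).trans hQ)
  have hQQ2 : Q2 ≤ Q := (le_max_right _ _).trans ((le_max_right _ _).trans hQ)
  have hQr : (1 : ℝ) ≤ Q := by exact_mod_cast (show 1 ≤ Q by omega)
  have hQ0 : (0 : ℝ) < Q := by linarith
  have hL : 0 ≤ Real.log Q := Real.log_nonneg hQr
  obtain ⟨-, -, -, hEE, hEbig⟩ := hsize Q hQQ2 1 1 le_rfl hA (by rw [one_pow]; omega)
  have hEb := hEbig R hR1 hR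
  have hone : (1 : ℝ) ≤ (Q : ℝ) ^ (1 / 4 : ℝ) := Real.one_le_rpow hQr (by norm_num)
  have hE1 : 1 ≤ fl Q (1 / 2) / R := by exact_mod_cast hone.trans hEb
  have hEQ : fl Q (1 / 2) / R ≤ Q := by
    refine (Nat.div_le_self _ _).trans ?_
    exact G1_le (by omega) (by norm_num) (by norm_num)
  set E := fl Q (1 / 2) / R with hE
  set P' := (pr Q).filter (fun l => ¬ l ∣ R) with hP'
  have hsub : P' ⊆ pr Q := Finset.filter_subset _ _
  have hvol : (0 : ℝ) ≤ S.card := Nat.cast_nonneg _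
  have hE0 : (0 : ℝ) < E := by exact_mod_cast hE1
  have hmvs : ∀ j, j ≤ Q → ∑ x ∈ S, (∑ d ∈ mv P' j E, tdf d (sys B P (g x))) ^ 2 ≤
      C3 * (1 + Real.log Q) ^ C3 * (S.card : ℝ) * (E : ℝ) ^ (-c3) := fun j hj =>
    h3 B hB P hP Q (by omega) (mv P' j E) E hE1 (t5_mv hEQ hBR hj) ι S g hG
  have hW : 0 ≤ C3 * (1 + Real.log Q) ^ C3 * (S.card : ℝ) * (E : ℝ) ^ (-c3) := by
    have : 0 ≤ (1 + Real.log Q) ^ C3 := Real.rpow_nonneg (by linarith) _
    have : 0 ≤ (E : ℝ) ^ (-c3) := Real.rpow_nonneg hE0.le _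
    positivity
  have hkey := t5_mink S P' (fun q => C1 / q * (500 * Real.log Q) ^ (k + 1))
    (fun q _ => by positivity)
    (fun x => ∑ m ∈ mv P' Q E, tdf m (sys B P (g x)))
    (fun q x => ∑ m ∈ mv P' (q - 1) E, tdf m (sys B P (g x)))
    (fun x => ∑ d ∈ SF E R, tdf d (sys B P (g x)) - SSf P' (sys B P (g x)))
    ((1 + C1 * 500 ^ (k + 1)) * (1 + Real.log Q) ^ (k + 2)) _ hW ?_ (hmvs Q le_rfl)
    (fun q hq => hmvs (q - 1) ?_) (fun x _ => t5_point (sys B P (g x)) C1 (fun l hl => h1 B hB P hP (g x) l hl)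
      (by omega) hE1 hEQ hR1)
  · refine hkey.trans ?_
    have e1 : (E : ℝ) ^ (-c3) ≤ (Q : ℝ) ^ (-(c3 / 4)) := by
      calc (E : ℝ) ^ (-c3) ≤ ((Q : ℝ) ^ (1 / 4 : ℝ)) ^ (-c3) :=
            Real.rpow_le_rpow_of_nonpos (by linarith) hEb (by linarith)
        _ = (Q : ℝ) ^ (-(c3 / 4)) := by
            rw [← Real.rpow_mul hQ0.le]
            congr 1
            ring
    have e2 := hlog Q hQQ1
    have e3 : ((1 + C1 * 500 ^ (k + 1)) * (1 + Real.log Q) ^ (k + 2)) ^ 2 *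
        (C3 * (1 + Real.log Q) ^ C3) =
        (1 + C1 * 500 ^ (k + 1)) ^ 2 * C3 * (1 + Real.log Q) ^ (2 * (k + 2) + C3) := by
      have hp : 0 < 1 + Real.log Q := by linarith
      have e4 : (1 + Real.log Q) ^ (2 * ((k : ℝ) + 2) + C3) =
          ((1 + Real.log Q) ^ (k + 2)) ^ 2 * (1 + Real.log Q) ^ C3 := by
        rw [Real.rpow_add hp]
        congr 1
        rw [← pow_mul, ← Real.rpow_natCast]
        congr 1
        push_cast
        ring
      rw [e4]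
      ring
    calc ((1 + C1 * 500 ^ (k + 1)) * (1 + Real.log Q) ^ (k + 2)) ^ 2 *
          (C3 * (1 + Real.log Q) ^ C3 * (S.card : ℝ) * (E : ℝ) ^ (-c3))
        = (((1 + C1 * 500 ^ (k + 1)) * (1 + Real.log Q) ^ (k + 2)) ^ 2 *
          (C3 * (1 + Real.log Q) ^ C3)) * (S.card : ℝ) * (E : ℝ) ^ (-c3) := by ring
      _ ≤ (Q : ℝ) ^ (c3 / 8) * (S.card : ℝ) * (Q : ℝ) ^ (-(c3 / 4)) := by
          rw [e3]
          refine mul_le_mul (mul_le_mul_of_nonneg_right e2 hvol) e1 (Real.rpow_nonneg hE0.le _) ?_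
          exact mul_nonneg (Real.rpow_nonneg hQ0.le _) hvol
      _ = (S.card : ℝ) * ((Q : ℝ) ^ (c3 / 8) * (Q : ℝ) ^ (-(c3 / 4))) := by ring
      _ = (S.card : ℝ) * (Q : ℝ) ^ (-(c3 / 8)) := by
          rw [← Real.rpow_add hQ0]
          congr 2
          ring
  · have f1 := t5_harm Q P' hsub
    have f2 : ∑ q ∈ P', C1 / (q : ℝ) * (500 * Real.log Q) ^ (k + 1) =
        (C1 * (500 * Real.log Q) ^ (k + 1)) * ∑ q ∈ P', 1 / (q : ℝ) := by
      rw [Finset.mul_sum]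
      refine Finset.sum_congr rfl fun q _ => ?_
      ring
    rw [f2]
    have f3 : (500 * Real.log Q) ^ (k + 1) ≤ 500 ^ (k + 1) * (1 + Real.log Q) ^ (k + 1) := by
      rw [mul_pow]
      refine mul_le_mul_of_nonneg_left ?_ (by positivity)
      exact pow_le_pow_left₀ hL (by linarith) _
    have f4 : (1 : ℝ) ≤ (1 + Real.log Q) ^ (k + 2) := one_le_pow₀ (by linarith)
    have f5 : 0 ≤ C1 * (500 * Real.log Q) ^ (k + 1) := by positivity
    have f6 : C1 * (500 * Real.log Q) ^ (k + 1) * ∑ q ∈ P', 1 / (q : ℝ) ≤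
        C1 * (500 ^ (k + 1) * (1 + Real.log Q) ^ (k + 1)) * (1 + Real.log Q) := by
      refine mul_le_mul (mul_le_mul_of_nonneg_left f3 (by linarith)) f1 ?_ ?_
      · exact Finset.sum_nonneg fun q _ => by positivity
      · have : 0 ≤ 1 + Real.log Q := by linarith
        positivity
    calc 1 + C1 * (500 * Real.log Q) ^ (k + 1) * ∑ q ∈ P', 1 / (q : ℝ)
        ≤ (1 + Real.log Q) ^ (k + 2) +
          C1 * (500 ^ (k + 1) * (1 + Real.log Q) ^ (k + 1)) * (1 + Real.log Q) := add_le_add f4 f6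
      _ = (1 + C1 * 500 ^ (k + 1)) * (1 + Real.log Q) ^ (k + 2) := by ring
  · have h7 := (Finset.mem_Icc.1 (Finset.mem_filter.1 (hsub hq)).1).2
    omega

end Pool.Agent.HUP
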