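import Pool.Agent.Lib.HUP.Defs
import Pool.Agent.Lib.H24P.Z4
import Pool.Agent.Lib.HUP.R2
import Pool.Agent.Lib.HUP.R6
import Pool.Agent.Lib.HUP.R9
import Pool.Agent.Lib.HUP.R14
import Pool.Agent.Lib.HUP.R15

/-!
# Project HUP, module R (the modules of H24P for an abstract family), R16: one cell, summary
-/

open Finset Polynomial

namespace Pool.Agent.HUP

open Pool.Agent.Lib.H68T Pool.Agent.Lib.H18Q Pool.Agent.Lib.H59P Pool.Agent.Lib.H24P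

/-- **R16a** (port of `Z4_ms`, H24P/Z4.lean, without the step `S4_main`). Proof. `Rw → Rzb (lp) → Rzb (Lk) → Rzb (gB) → MZb`:
`R13_main` (pointwise, squared and summed), `R2_main`, `R14_main`, `R9_main` (`R6_main` for `TMb`);
`|w n| ≤ (log X)²` from `W2_ms` for `w n = lp (B n)`. -/
theorem R16_ms {k : ℕ} (P : Fin k → ℤ[X]) (A E : ℕ) (hA : 1 ≤ A) (hP : Pol A P) (Cc cc : ℝ) (hC : FPar Cc cc) :
    ∃ c K : ℝ, 0 < c ∧ 1 ≤ K ∧ ∃ L : ℕ, 2 ≤ L ∧ ∀ C : ℝ, ∃ Q0 : ℕ,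
    ∀ (Q X X1 Y : ℕ) (M : Fin k → ℕ) (B : ℤ[X]) (C0 : ℤ → Ch → ℂ) (mb : Ch → ℝ), Q0 ≤ Q →
    Rg K C Q X → Geo L Q X X1 P M → GeoB A X X1 Y B → Cf (Q ^ 100) Y C0 mb →
    ∀ (C' : Fin k → ℤ → Ch → ℂ) (mc : Fin k → Ch → ℝ), (∀ i, Cf Q (Ysc (M i)) (C' i) (mc i)) →
    ∀ r : ℕ, 1 ≤ r → r ^ 100 ≤ Q →
    ∀ (ι : Type) (S : Finset ι) (g : ι → Fin k → ℕ) (h0 : Fin k → ℕ), Cl E Cc cc Q P M S g h0 →
    ∑ x ∈ S, ‖((Rw Q X1 P M (fun n => lp (B.eval (n : ℤ))) (g x) : ℝ) : ℂ) -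
      MZb Q X1 (B.leadingCoeff.natAbs * r) P B C0 C' h0 (g x)‖ ^ 2 ≤
      (X1 : ℝ) ^ 2 * S.card * (Q : ℝ) ^ (-c) := by
  have hT : TMb k A E Cc cc := R6_main k A E hA Cc cc hC
  obtain ⟨K2, hK2, hW2⟩ := W2_ms A
  obtain ⟨L3, hL3, hV1⟩ := R13_main P hP.deg
  obtain ⟨c4, K4, hc4, hK4, L4, hL4, hW3⟩ := R2_main P A E hA hP Cc cc hC
  obtain ⟨L5, hL5, hV2⟩ := R14_main P hP.deg A
  obtain ⟨c6, K6, hc6, hK6, L6, hL6, hZ2⟩ := R9_main P A E hA hP Cc cc hC hT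
  set cm : ℝ := min 1 (min c4 c6) with hcm
  have hcm0 : 0 < cm := lt_min one_pos (lt_min hc4 hc6)
  have hcm2 : cm ≤ 1 := min_le_left _ _
  have hcm4 : cm ≤ c4 := (min_le_right _ _).trans (min_le_left _ _)
  have hcm6 : cm ≤ c6 := (min_le_right _ _).trans (min_le_right _ _)
  obtain ⟨Q7, hQ7, hlog⟩ := G1_rlog 20 0 (cm / 2) (by positivity)
  refine ⟨cm / 2, max (max 2 K2) (max K4 K6), by positivity,
    le_max_of_le_left (le_max_of_le_left (by norm_num)), max (max L3 L4) (max L5 L6),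
    le_max_of_le_left (le_max_of_le_left hL3), fun C => ?_⟩
  obtain ⟨Q2, hW2⟩ := hW2 C
  obtain ⟨Q3, hV1⟩ := hV1 C
  obtain ⟨Q4, hW3⟩ := hW3 C
  obtain ⟨Q5, hV2⟩ := hV2 C
  obtain ⟨Q6, hZ2⟩ := hZ2 C
  refine ⟨max (max (max Q2 Q3) (max Q4 Q5)) (max Q6 (max Q7 1)), ?_⟩
  intro Q X X1 Y M B C0 mb hQ hRg hG hB hCf C' mc hCc r hr hr100 ι S g h0 hCl
  have hQ' := max_le_iff.1 hQ
  have hQa := max_le_iff.1 hQ'.1
  have hQb := max_le_iff.1 hQ'.2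
  have q2 : Q2 ≤ Q := (max_le_iff.1 hQa.1).1
  have q3 : Q3 ≤ Q := (max_le_iff.1 hQa.1).2
  have q4 : Q4 ≤ Q := (max_le_iff.1 hQa.2).1
  have q5 : Q5 ≤ Q := (max_le_iff.1 hQa.2).2
  have q6 : Q6 ≤ Q := hQb.1
  have q7 : Q7 ≤ Q := (max_le_iff.1 hQb.2).1
  have q8 : 1 ≤ Q := (max_le_iff.1 hQb.2).2
  have hQr : (1 : ℝ) ≤ Q := by exact_mod_cast q8
  have hQr0 : (0 : ℝ) < Q := by linarith
  have rtwo : Rg 2 C Q X := z4_rg (le_max_of_le_left (le_max_left _ _)) hRg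
  have r2 : Rg K2 C Q X := z4_rg (le_max_of_le_left (le_max_right _ _)) hRg
  have r4 : Rg K4 C Q X := z4_rg (le_max_of_le_right (le_max_left _ _)) hRg
  have r6 : Rg K6 C Q X := z4_rg (le_max_of_le_right (le_max_right _ _)) hRg
  have g3 : Geo L3 Q X X1 P M := z4_geo (le_max_of_le_left (le_max_left _ _)) hG
  have g4 : Geo L4 Q X X1 P M := z4_geo (le_max_of_le_left (le_max_right _ _)) hG
  have g5 : Geo L5 Q X X1 P M := z4_geo (le_max_of_le_right (le_max_left _ _)) hG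
  have g6 : Geo L6 Q X X1 P M := z4_geo (le_max_of_le_right (le_max_right _ _)) hG
  have hw : ∀ n ∈ Ico X1 (2 * X1), |lp (B.eval (n : ℤ))| ≤ (Real.log X) ^ 2 :=
    (hW2 Q X X1 Y B C0 mb q2 r2 hG.pos hG.le hG.ge hB hCf X1 X1 le_rfl (by omega)
      (Nat.le_mul_of_pos_right _ (Nat.pow_pos q8))).2
  have e2 := hV1 Q X X1 M q3 rtwo g3 C' mc hCc (fun n => lp (B.eval (n : ℤ))) hw h0 hCl.memb
  have e3 := hW3 Q X X1 Y M B C0 mb q4 r4 g4 hB hCf C' mc hCc ι S g h0 hCl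
  have e4 := hV2 Q X X1 Y M B C0 mb q5 rtwo g5 hB hCf C' mc hCc h0 hCl.memb
  have e5 := hZ2 Q X X1 Y M B C0 mb q6 r6 g6 hB hCf C' mc hCc r hr hr100 ι S g h0 hCl
  set m0 : ℕ := B.leadingCoeff.natAbs * r with hm0
  set V : ℝ := (X1 : ℝ) ^ 2 * S.card with hV
  have hV0 : 0 ≤ V := by positivity
  set D : ℝ := ((X1 : ℝ) * (Q : ℝ) ^ (-(1) : ℝ)) ^ 2 with hD
  have hpt : ∀ x ∈ S, ‖((Rw Q X1 P M (fun n => lp (B.eval (n : ℤ))) (g x) : ℝ) : ℂ) -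
      MZb Q X1 m0 P B C0 C' h0 (g x)‖ ^ 2 ≤
      5 * (2 * D +
      ‖Rzb Q X1 P C' (fun n => ((lp (B.eval (n : ℤ)) : ℝ) : ℂ)) h0 (g x) -
        Rzb Q X1 P C' (fun n => ((Lk (Q ^ 100) (Y / (Q ^ 100) ^ 2) (B.eval (n : ℤ)) : ℝ) : ℂ)) h0 (g x)‖ ^ 2 +
      ‖Rzb Q X1 P C' (gB Q X1 B C0) h0 (g x) - MZb Q X1 m0 P B C0 C' h0 (g x)‖ ^ 2) := by
    intro x hx
    have a1 := e2 (g x) (hCl.mem x hx) (hCl.close x hx)
    have a2 := e4 (g x) (hCl.mem x hx)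
    have b1 : ‖((Rw Q X1 P M (fun n => lp (B.eval (n : ℤ))) (g x) : ℝ) : ℂ) -
        Rzb Q X1 P C' (fun n => ((lp (B.eval (n : ℤ)) : ℝ) : ℂ)) h0 (g x)‖ ^ 2 ≤ D :=
      pow_le_pow_left₀ (norm_nonneg _) a1 2
    have b2 : ‖Rzb Q X1 P C' (fun n => ((Lk (Q ^ 100) (Y / (Q ^ 100) ^ 2) (B.eval (n : ℤ)) : ℝ) : ℂ)) h0 (g x) -
        Rzb Q X1 P C' (gB Q X1 B C0) h0 (g x)‖ ^ 2 ≤ D :=
      pow_le_pow_left₀ (norm_nonneg _) a2 2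
    have h5 := z4_five (((Rw Q X1 P M (fun n => lp (B.eval (n : ℤ))) (g x) : ℝ) : ℂ) -
        Rzb Q X1 P C' (fun n => ((lp (B.eval (n : ℤ)) : ℝ) : ℂ)) h0 (g x))
      (Rzb Q X1 P C' (fun n => ((lp (B.eval (n : ℤ)) : ℝ) : ℂ)) h0 (g x) -
        Rzb Q X1 P C' (fun n => ((Lk (Q ^ 100) (Y / (Q ^ 100) ^ 2) (B.eval (n : ℤ)) : ℝ) : ℂ)) h0 (g x))
      (Rzb Q X1 P C' (fun n => ((Lk (Q ^ 100) (Y / (Q ^ 100) ^ 2) (B.eval (n : ℤ)) : ℝ) : ℂ)) h0 (g x) -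
        Rzb Q X1 P C' (gB Q X1 B C0) h0 (g x))
      (Rzb Q X1 P C' (gB Q X1 B C0) h0 (g x) - MZb Q X1 m0 P B C0 C' h0 (g x)) 0
    have h6 : ((Rw Q X1 P M (fun n => lp (B.eval (n : ℤ))) (g x) : ℝ) : ℂ) -
        MZb Q X1 m0 P B C0 C' h0 (g x) = (((Rw Q X1 P M (fun n => lp (B.eval (n : ℤ))) (g x) : ℝ) : ℂ) -
        Rzb Q X1 P C' (fun n => ((lp (B.eval (n : ℤ)) : ℝ) : ℂ)) h0 (g x)) +
      (Rzb Q X1 P C' (fun n => ((lp (B.eval (n : ℤ)) : ℝ) : ℂ)) h0 (g x) -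
        Rzb Q X1 P C' (fun n => ((Lk (Q ^ 100) (Y / (Q ^ 100) ^ 2) (B.eval (n : ℤ)) : ℝ) : ℂ)) h0 (g x)) +
      (Rzb Q X1 P C' (fun n => ((Lk (Q ^ 100) (Y / (Q ^ 100) ^ 2) (B.eval (n : ℤ)) : ℝ) : ℂ)) h0 (g x) -
        Rzb Q X1 P C' (gB Q X1 B C0) h0 (g x)) +
      (Rzb Q X1 P C' (gB Q X1 B C0) h0 (g x) - MZb Q X1 m0 P B C0 C' h0 (g x)) + 0 := by ring
    rw [h6]
    refine h5.trans ?_
    rw [norm_zero]
    linarith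
  refine (Finset.sum_le_sum hpt).trans ?_
  rw [← Finset.mul_sum, Finset.sum_add_distrib, Finset.sum_add_distrib, Finset.sum_const, nsmul_eq_mul]
  have hle : ∀ c' : ℝ, cm ≤ c' → V * (Q : ℝ) ^ (-c') ≤ V * (Q : ℝ) ^ (-cm) := by
    intro c' hc'
    exact mul_le_mul_of_nonneg_left (Real.rpow_le_rpow_of_exponent_le hQr (by linarith)) hV0
  have f3 := e3.trans (hle _ hcm4)
  have f5 := e5.trans (hle _ hcm6)
  have hDV : (S.card : ℝ) * (2 * D) = 2 * (V * (Q : ℝ) ^ (-(2 : ℝ))) := by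
    have h3 : (Q : ℝ) ^ (-(2 : ℝ)) = ((Q : ℝ) ^ (-(1) : ℝ)) ^ 2 := by
      rw [← Real.rpow_natCast ((Q : ℝ) ^ (-(1) : ℝ)), ← Real.rpow_mul hQr0.le]
      norm_num
    rw [hD, hV, h3]
    ring
  have f2 : (S.card : ℝ) * (2 * D) ≤ 2 * (V * (Q : ℝ) ^ (-cm)) := by
    rw [hDV]
    exact mul_le_mul_of_nonneg_left (hle 2 (by linarith)) (by norm_num)
  have hfin : 20 * (V * (Q : ℝ) ^ (-cm)) ≤ V * (Q : ℝ) ^ (-(cm / 2)) := by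
    have h3 : (Q : ℝ) ^ (-(cm / 2)) = (Q : ℝ) ^ (cm / 2) * (Q : ℝ) ^ (-cm) := by
      rw [← Real.rpow_add hQr0]
      congr 1
      ring
    have h4 := hlog Q q7
    rw [Real.rpow_zero, mul_one] at h4
    have h5 : 0 ≤ V * (Q : ℝ) ^ (-cm) := mul_nonneg hV0 (Real.rpow_nonneg hQr0.le _)
    rw [h3]
    nlinarith [mul_le_mul_of_nonneg_right h4 h5]
  linarith

/-- **R16** (port of `Z4_main`). Proof. `CF0` of `H59P` for all coordinates, `R16_ms` with `r = px.1`, `z4_cheb` of `H59P` (or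
`k1_cheb`), `R15_main`, `G1_size`, `G2_P`. -/
theorem R16_main {k : ℕ} (P : Fin k → ℤ[X]) (A E : ℕ) (hA : 1 ≤ A) (hP : Pol A P) (Cc cc : ℝ) (hC : FPar Cc cc) :
    ∃ c K : ℝ, 0 < c ∧ 1 ≤ K ∧ ∃ L : ℕ, 2 ≤ L ∧ ∀ C : ℝ, ∃ Q0 : ℕ,
    ∀ (Q X X1 Y : ℕ) (M : Fin k → ℕ) (B : ℤ[X]) (η E0 : ℝ) (px : Ch) (th : ℤ → ℝ), Q0 ≤ Q →
    Rg K C Q X → Geo L Q X X1 P M → GeoB A X X1 Y B → px ∈ PC Q → px.1 ^ 100 ≤ Q →
    Mdl (Q ^ 100) Y η E0 px th → (∀ i, Mdl Q (Ysc (M i)) η E0 px th) → 0 ≤ E0 →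
    4 * (k + 1) * E0 ≤ 1 →
    ∀ (ι : Type) (S : Finset ι) (g : ι → Fin k → ℕ) (h0 : Fin k → ℕ), Cl E Cc cc Q P M S g h0 →
    ∃ Bad : Finset ι, Bad ⊆ S ∧ (Bad.card : ℝ) ≤ S.card * (Q : ℝ) ^ (-c) ∧
      ∀ x ∈ S, x ∉ Bad → ∀ m : ℝ, (∀ th' : Fin (k + 1) → ℝ, (∀ i, 0 ≤ th' i) →
        (∀ i, th' i ≤ 1 - η) → (px = p0 → ∀ i, th' i = 0) → m ≤ PMf Q px th' (sys B P (g x))) →
        X1 * (m / 2 - (Q : ℝ) ^ (-c)) ≤ Rw Q X1 P M (fun n => lp (B.eval (n : ℤ))) (g x) := by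
  obtain ⟨c, K, hc, hK, L, hL, hms⟩ := R16_ms P A E hA hP Cc cc hC
  obtain ⟨L', hL', hG2⟩ := G2_P P hP.deg
  obtain ⟨Q1, hQ1, hsize⟩ := G1_size A
  refine ⟨c / 4, K, by positivity, hK, max L L', le_max_of_le_left hL, fun C => ?_⟩
  obtain ⟨Q0, hms⟩ := hms C
  refine ⟨max Q0 Q1, ?_⟩
  intro Q X X1 Y M B η E0 px th hQ hRg hG hB hpx hpx100 hMB hM hE0 hE ι S g h0 hCl
  have q0 : Q0 ≤ Q := (le_max_left _ _).trans hQ
  have q1 : Q1 ≤ Q := (le_max_right _ _).trans hQ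
  have q2 : 1 ≤ Q := hQ1.trans q1
  have hQr : (1 : ℝ) ≤ Q := by exact_mod_cast q2
  have hQr0 : (0 : ℝ) < Q := by linarith
  have hE1 : E0 ≤ 1 := by
    have hk : (0 : ℝ) ≤ k := Nat.cast_nonneg _
    nlinarith
  have hQ100 : 1 ≤ Q ^ 100 := Nat.one_le_pow _ _ q2
  obtain ⟨e0, eb0, mb0, a1, a2, a3, a4⟩ := CF0 (Q ^ 100) Y η E0 px th hQ100 hMB hE1
  choose e eb mb b1 b2 b3 b4 using fun i => CF0 Q (Ysc (M i)) η E0 px th q2 (hM i) hE1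
  have hms' := hms Q X X1 Y M B (fun m p => MX px th m p + e0 m p) mb0 q0 hRg
    (z4_geo (le_max_left _ _) hG) hB a4 (fun i m p => MX px th m p + e i m p) mb b4 px.1
    (mem_PC.1 hpx).1 hpx100 ι S g h0 hCl
  have hX1r : (0 : ℝ) < X1 := by exact_mod_cast hG.pos
  have hTpos : 0 < (X1 : ℝ) * (Q : ℝ) ^ (-(c / 4)) := by positivity
  have hch := z4_cheb S (fun x => ‖((Rw Q X1 P M (fun n => lp (B.eval (n : ℤ))) (g x) : ℝ) : ℂ) -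
    MZb Q X1 (B.leadingCoeff.natAbs * px.1) P B (fun m p => MX px th m p + e0 m p)
      (fun i m p => MX px th m p + e i m p) h0 (g x)‖) _ _ hTpos hms' (fun _ => norm_nonneg _)
  refine ⟨_, filter_subset _ _, hch.trans ?_, ?_⟩
  · have hv0 : (0 : ℝ) ≤ S.card := Nat.cast_nonneg _
    have h1 : ((X1 : ℝ) * (Q : ℝ) ^ (-(c / 4))) ^ 2 = (X1 : ℝ) ^ 2 * (Q : ℝ) ^ (-(c / 2)) := by
      rw [mul_pow, ← Real.rpow_natCast ((Q : ℝ) ^ (-(c / 4))), ← Real.rpow_mul hQr0.le]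
      congr 2
      push_cast
      ring
    have h2 : (Q : ℝ) ^ (-c) = (Q : ℝ) ^ (-(c / 2)) * (Q : ℝ) ^ (-(c / 2)) := by
      rw [← Real.rpow_add hQr0]
      congr 1
      ring
    have h3 : (0 : ℝ) < (Q : ℝ) ^ (-(c / 2)) := Real.rpow_pos_of_pos hQr0 _
    have h4 : (X1 : ℝ) ^ 2 * S.card * (Q : ℝ) ^ (-c) / ((X1 : ℝ) * (Q : ℝ) ^ (-(c / 4))) ^ 2 =
        S.card * (Q : ℝ) ^ (-(c / 2)) := by
      rw [h1, h2]
      field_simp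
    rw [h4]
    exact mul_le_mul_of_nonneg_left (Real.rpow_le_rpow_of_exponent_le hQr (by linarith)) hv0
  · intro x hx hbad m hm
    rw [mem_filter, not_and, not_lt] at hbad
    have h1 := hbad hx
    have hlc0 : 1 ≤ B.leadingCoeff.natAbs := by
      have h2 : B.leadingCoeff ≠ 0 := by
        rw [Ne, leadingCoeff_eq_zero]
        intro h3
        have h4 := hB.lin.deg
        rw [h3, natDegree_zero] at h4
        omega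
      exact Int.natAbs_pos.2 h2
    have hcond := (hsize Q q1 px.1 B.leadingCoeff.natAbs hlc0 hB.lin.lc hpx100).1
    have hZ3 := R15_main P A (max L L') Q X X1 Y q2 M B hG hB
      (fun i n hn => (hG2 Q X X1 M (z4_geo (le_max_right _ _) hG) i n hn).1) η E0 px th hpx hcond hMB hM
      hE0 hE e0 eb0 a1 a2 a3 e eb b2 b3 h0 hCl.memb (g x) m hm
    have h5 : (MZb Q X1 (B.leadingCoeff.natAbs * px.1) P B (fun m p => MX px th m p + e0 m p)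
        (fun i m p => MX px th m p + e i m p) h0 (g x)).re -
        Rw Q X1 P M (fun n => lp (B.eval (n : ℤ))) (g x) ≤
        X1 * (Q : ℝ) ^ (-(c / 4)) := by
      refine le_trans ?_ h1
      have h6 := Complex.abs_re_le_norm (((Rw Q X1 P M (fun n => lp (B.eval (n : ℤ))) (g x) : ℝ) : ℂ) -
        MZb Q X1 (B.leadingCoeff.natAbs * px.1) P B (fun m p => MX px th m p + e0 m p)
        (fun i m p => MX px th m p + e i m p) h0 (g x))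
      refine le_trans ?_ h6
      rw [Complex.sub_re, Complex.ofReal_re]
      have h7 := neg_abs_le (Rw Q X1 P M (fun n => lp (B.eval (n : ℤ))) (g x) -
        (MZb Q X1 (B.leadingCoeff.natAbs * px.1) P B (fun m p => MX px th m p + e0 m p)
        (fun i m p => MX px th m p + e i m p) h0 (g x)).re)
      linarith
    have h8 : (X1 : ℝ) * (m / 2 - (Q : ℝ) ^ (-(c / 4))) =
        X1 * (m / 2) - X1 * (Q : ℝ) ^ (-(c / 4)) := by ring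
    rw [h8]
    linarith

end Pool.Agent.HUP
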