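import Pool.Agent.Lib.HUP.Defs

/-!
# Project HUP, module R (the modules of H24P for an abstract family), R18: cutting a box
-/

open Finset Polynomial

namespace Pool.Agent.HUP

open Pool.Agent.Lib.H68T Pool.Agent.Lib.H18Q Pool.Agent.Lib.H59P Pool.Agent.Lib.H24P

theorem r18_mem {d : ℕ} (b : Fin d → ℤ) (s : Fin d → ℕ) (t : Fin d → ℤ) :
    t ∈ tb b s ↔ ∀ j, b j ≤ t j ∧ t j < b j + s j := by
  unfold tb
  rw [Fintype.mem_piFinset]
  exact forall_congr' fun j => mem_Ico

theorem R18_card {d : ℕ} (b : Fin d → ℤ) (s : Fin d → ℕ) : (tb b s).card = ∏ j, s j := by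
  unfold tb
  rw [Fintype.card_piFinset]
  refine prod_congr rfl fun j _ => ?_
  rw [Int.card_Ico]
  omega

/-- **R18.** A box of sides `q s'_j` is the disjoint union of the boxes `tb (b + u s') s'`, `u ∈ [0, q)^d`. -/
theorem R18_split {d : ℕ} (b : Fin d → ℤ) (s s' : Fin d → ℕ) (q : ℕ) (hs : ∀ j, s j = q * s' j)
    (E : (Fin d → ℤ) → Prop) [DecidablePred E] (δ : ℝ)
    (hE : ∀ b' : Fin d → ℤ, tb b' s' ⊆ tb b s → (((tb b' s').filter E).card : ℝ) ≤ (tb b' s').card * δ) :
    (((tb b s).filter E).card : ℝ) ≤ (tb b s).card * δ := by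
  obtain ⟨φ, hφ⟩ : ∃ φ : (Fin d → ℤ) → (Fin d → ℕ), ∀ t j, φ t j = ((t j - b j) / (s' j : ℤ)).toNat := ⟨_, fun _ _ => rfl⟩
  have hdiv : ∀ t ∈ tb b s, ∀ j, φ t j < q ∧ b j + (φ t j : ℤ) * s' j ≤ t j ∧
      t j < b j + (φ t j : ℤ) * s' j + s' j := by
    intro t ht j
    have h1 := (r18_mem b s t).1 ht j
    have h2 : ((s j : ℕ) : ℤ) = (q : ℤ) * s' j := by rw [hs j]; push_cast; ring
    rw [h2] at h1
    have hpos : (0 : ℤ) < s' j := by
      rcases Nat.eq_zero_or_pos (s' j) with h | h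
      · rw [h] at h1
        push_cast at h1
        rw [mul_zero] at h1
        omega
      · exact_mod_cast h
    have h3 : 0 ≤ (t j - b j) / (s' j : ℤ) := Int.ediv_nonneg (by omega) hpos.le
    have h4 : (t j - b j) / (s' j : ℤ) < q := Int.ediv_lt_of_lt_mul hpos (by omega)
    have h5 : ((φ t j : ℕ) : ℤ) = (t j - b j) / (s' j : ℤ) := by rw [hφ, Int.toNat_of_nonneg h3]
    have h6 := Int.mul_ediv_add_emod (t j - b j) (s' j : ℤ)
    have h7 := Int.emod_nonneg (t j - b j) hpos.ne'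
    have h8 := Int.emod_lt_of_pos (t j - b j) hpos
    have h9 : (s' j : ℤ) * ((t j - b j) / (s' j : ℤ)) = ((φ t j : ℕ) : ℤ) * s' j := by rw [h5]; ring
    rw [h9] at h6
    refine ⟨by omega, by omega, by omega⟩
  obtain ⟨U, hU⟩ : ∃ U : Finset (Fin d → ℕ), U = Fintype.piFinset fun _ => range q := ⟨_, rfl⟩
  have hmap : ∀ t ∈ (tb b s).filter E, φ t ∈ U := by
    intro t ht
    rw [hU, Fintype.mem_piFinset]
    intro j
    rw [mem_range]
    exact (hdiv t (mem_filter.1 ht).1 j).1
  have h1 := card_eq_sum_card_fiberwise hmap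
  have h2 : ∀ u ∈ U, (((tb b s).filter E).filter (fun t => φ t = u)) ⊆
      (tb (fun j => b j + (u j : ℤ) * s' j) s').filter E := by
    intro u _ t ht
    rw [mem_filter, mem_filter] at ht
    rw [mem_filter, r18_mem]
    refine ⟨fun j => ?_, ht.1.2⟩
    have h3 := hdiv t ht.1.1 j
    rw [ht.2] at h3
    exact h3.2
  have h3 : ∀ u ∈ U, tb (fun j => b j + (u j : ℤ) * s' j) s' ⊆ tb b s := by
    intro u hu t ht
    rw [hU, Fintype.mem_piFinset] at hu
    rw [r18_mem] at ht ⊢
    intro j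
    have h4 := ht j
    have h5 := mem_range.1 (hu j)
    have h6 : ((s j : ℕ) : ℤ) = (q : ℤ) * s' j := by rw [hs j]; push_cast; ring
    have h7 : ((u j : ℤ) + 1) * s' j ≤ (q : ℤ) * s' j :=
      mul_le_mul_of_nonneg_right (by omega) (by positivity)
    have h8 : (0 : ℤ) ≤ (u j : ℤ) * s' j := by positivity
    rw [h6]
    constructor
    · linarith [h4.1]
    · linarith [h4.2]
  have h4 : (((tb b s).filter E).card : ℝ) = ∑ u ∈ U, ((((tb b s).filter E).filter (fun t => φ t = u)).card : ℝ) := by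
    rw [h1]
    push_cast
    rfl
  rw [h4]
  calc ∑ u ∈ U, ((((tb b s).filter E).filter (fun t => φ t = u)).card : ℝ)
      ≤ ∑ _u ∈ U, ((∏ j, s' j : ℕ) : ℝ) * δ := by
        refine sum_le_sum fun u hu => ?_
        have h5 : ((((tb b s).filter E).filter (fun t => φ t = u)).card : ℝ) ≤
            (((tb (fun j => b j + (u j : ℤ) * s' j) s').filter E).card : ℝ) := by
          exact_mod_cast card_le_card (h2 u hu)
        refine h5.trans ((hE _ (h3 u hu)).trans (le_of_eq ?_))
        rw [R18_card]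
    _ = (tb b s).card * δ := by
        rw [sum_const, nsmul_eq_mul, ← mul_assoc]
        congr 1
        rw [R18_card, hU, Fintype.card_piFinset]
        rw [show (∏ j, s j) = (∏ _j : Fin d, q) * ∏ j, s' j from by
          rw [← prod_mul_distrib]
          exact prod_congr rfl fun j _ => hs j]
        push_cast
        congr 1
        refine prod_congr rfl fun j _ => ?_
        rw [card_range]

/-- The forms vary little on a small box. -/
theorem R18_var {k d : ℕ} (c : Fin k → Fin d → ℤ) (b : Fin d → ℤ) (s : Fin d → ℕ) (i : Fin k) (t t' : Fin d → ℤ)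
    (ht : t ∈ tb b s) (ht' : t' ∈ tb b s) : |lf c t i - lf c t' i| ≤ ∑ j, |c i j| * (s j : ℤ) := by
  unfold lf
  rw [← sum_sub_distrib]
  refine (abs_sum_le_sum_abs _ _).trans (sum_le_sum fun j _ => ?_)
  rw [← mul_sub, abs_mul]
  refine mul_le_mul_of_nonneg_left ?_ (abs_nonneg _)
  have h1 := (r18_mem b s t).1 ht j
  have h2 := (r18_mem b s t').1 ht' j
  rw [abs_le]
  omega

end Pool.Agent.HUP
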