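import Pool.Agent.Lib.HUP.Defs2
import Pool.Agent.Lib.H24P.FC

/-!
# Projects HUP and HPC, module Z (the final theorems), Z0: definitions
-/

open Finset Polynomial Filter Topology

namespace Pool.Agent.HUP

open Pool.Agent.Lib.H24P
open Pool.Agent.Lib.H59 (argSet argCount Admissible primeCount argSet_eq argCount_tendsto)

noncomputable section

/-- The core theorem for all data. -/
def CoreAll : Prop := ∀ (k d : ℕ) (c : Fin k → Fin d → ℤ) (e : Fin d → ℕ) (P : Fin k → ℤ[X]),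
  Dat c e (fun i => (P i).natDegree) (fun i => (P i).leadingCoeff) → CoreT c e P

/-- The system `P_i + b_i + ψ_i(t)`. -/
def famT {g d : ℕ} (P : Fin g → ℤ[X]) (c : Fin g → Fin d → ℤ) (b : Fin g → ℤ) (t : Fin d → ℤ) : Fin g → ℤ[X] :=
  fun i => P i + C (b i + lf c t i)

/-- The box `|t_j| ≤ A X^(e_j)`. -/
def BoxT {d : ℕ} (A X : ℕ) (e : Fin d → ℕ) : Finset (Fin d → ℤ) :=
  Fintype.piFinset fun j => Icc (-((A * X ^ e j : ℕ) : ℤ)) ((A * X ^ e j : ℕ) : ℤ)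

end

/-- Monotonicity of `OKB` (as `K5_mono` of H24P, for one exponent). -/
theorem z0_mono {A A' : ℕ} {ε : ℝ} {Z : ℕ} {B : ℤ[X]} (h : OKB A ε Z B) (hA : A ≤ A') : OKB A' ε Z B := by
  have h2 : ∀ n : ℕ, A' * n ≤ Z → A * n ≤ Z := fun n hn => (Nat.mul_le_mul_right n hA).trans hn
  refine ⟨h.deg, h.lc.trans hA, fun n a b => h.lo n a (h2 n b), ?_,
    fun n n' a b => h.cmp1 n n' a (h2 n b), fun n n' a b => h.cmp2 n n' a (h2 n b)⟩
  intro n a b
  refine (h.hi n a (h2 n b)).trans ?_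
  have h3 : (A : ℤ) ≤ A' := by exact_mod_cast hA
  exact mul_le_mul_of_nonneg_right h3 (Int.natCast_nonneg _)

/-- The forms are additive. -/
theorem z0_add {k d : ℕ} (c : Fin k → Fin d → ℤ) (t s : Fin d → ℤ) (i : Fin k) :
    lf c (fun j => t j + s j) i = lf c t i + lf c s i := by
  unfold lf
  rw [← Finset.sum_add_distrib]
  exact Finset.sum_congr rfl fun j _ => mul_add _ _ _

/-- The size of the shift. -/
theorem z0_abs {k d : ℕ} (c : Fin k → Fin d → ℤ) (e : Fin d → ℕ) (i : Fin k) (D A Z : ℕ)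
    (h : ∀ j, c i j ≠ 0 → e j = D) :
    |lf c (fun j => ((A * Z ^ e j : ℕ) : ℤ)) i| ≤ (A : ℤ) * (∑ j, |c i j|) * (Z : ℤ) ^ D := by
  unfold lf
  refine (Finset.abs_sum_le_sum_abs _ _).trans ?_
  rw [mul_assoc, Finset.sum_mul, Finset.mul_sum]
  refine Finset.sum_le_sum fun j _ => ?_
  rw [abs_mul, Nat.abs_cast]
  by_cases hj : c i j = 0
  · rw [hj]
    simp
  · rw [h j hj]
    push_cast
    exact le_of_eq (by ring)

/-- **Z0.** The core theorem on symmetric boxes. Proof. `t = t' - A Z^e` with `0 ≤ t' ≤ 2 A Z^e`, `β' = β - ψ(A Z^e)`,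
`|β'_i| ≤ A' Z^(D_i)` with `A' = 2 A (1 + ∑_i ∑_j |c i j|)` (`e j = D_i` if `c i j ≠ 0`), `hh c β t = hh c β' t'`; `OKB` is monotone in `A`
(`K5_mono`, `1 ≤ Z`). -/
theorem Z0_box (hC : CoreAll) {k d : ℕ} (c : Fin k → Fin d → ℤ) (e : Fin d → ℕ) (P : Fin k → ℤ[X])
    (hD : Dat c e (fun i => (P i).natDegree) (fun i => (P i).leadingCoeff)) (A : ℕ) (ε : ℝ) (hε : 0 < ε) :
    open Classical in ∃ η : ℝ, 0 < η ∧ ∃ Z0 : ℕ, ∀ Z : ℕ, Z0 ≤ Z → ∀ B : ℤ[X], OKB A ε Z B → ∀ β : Fin k → ℤ,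
      (∀ i, |β i| ≤ A * (Z : ℤ) ^ (P i).natDegree) →
      (((BoxT A Z e).filter fun t => (∀ i, 0 ≤ β i + lf c t i) ∧ NoFix (sys B P (hh c β t)) ∧
        ((pcount Z B P (hh c β t) : ℕ) : ℝ) < (Z : ℝ) ^ (1 - ε)).card : ℝ) ≤
        (Z : ℝ) ^ ((∑ j, (e j : ℝ)) - η) := by
  classical
  obtain ⟨S, hS⟩ : ∃ S : ℕ, S = ∑ i, ∑ j, (c i j).natAbs := ⟨_, rfl⟩
  obtain ⟨A', hA'⟩ : ∃ A' : ℕ, A' = 2 * A * (1 + S) := ⟨_, rfl⟩
  obtain ⟨η, hη, Z1, h1⟩ := hC k d c e P hD A' ε hε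
  refine ⟨η, hη, max 1 Z1, ?_⟩
  intro Z hZ B hB β hβ
  have hZ1 : 1 ≤ Z := (le_max_left _ _).trans hZ
  have hZZ : Z1 ≤ Z := (le_max_right _ _).trans hZ
  have hAA : A ≤ A' := by
    rw [hA']
    nlinarith [Nat.zero_le (A * S)]
  have hAA2 : 2 * A ≤ A' := by
    rw [hA']
    nlinarith [Nat.zero_le (A * S)]
  set s : Fin d → ℤ := fun j => ((A * Z ^ e j : ℕ) : ℤ) with hs
  set β' : Fin k → ℤ := fun i => β i - lf c s i with hβ'
  have hval : ∀ (t : Fin d → ℤ) (i : Fin k), β' i + lf c (fun j => t j + s j) i = β i + lf c t i := by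
    intro t i
    rw [z0_add, hβ']
    ring
  have hhe : ∀ t : Fin d → ℤ, hh c β' (fun j => t j + s j) = hh c β t := by
    intro t
    funext i
    unfold hh
    rw [hval t i]
  have hb' : ∀ i, |β' i| ≤ (A' : ℤ) * (Z : ℤ) ^ (P i).natDegree := by
    intro i
    have e1 := hβ i
    have e2 := z0_abs c e i (P i).natDegree A Z (fun j hj => hD.blk i j hj)
    have e3 : |β' i| ≤ |β i| + |lf c s i| := by
      rw [hβ']
      exact abs_sub _ _
    have e4 : (∑ j, |c i j|) ≤ (S : ℤ) := by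
      have e5 : (∑ j, (c i j).natAbs) ≤ S := by
        rw [hS]
        exact Finset.single_le_sum (f := fun i => ∑ j, (c i j).natAbs) (fun _ _ => Nat.zero_le _)
          (Finset.mem_univ i)
      have e6 : ((∑ j, (c i j).natAbs : ℕ) : ℤ) = ∑ j, |c i j| := by
        push_cast
        rfl
      rw [← e6]
      exact_mod_cast e5
    have hA0 : (0 : ℤ) ≤ A := Int.natCast_nonneg _
    have hZ0 : (0 : ℤ) ≤ (Z : ℤ) ^ (P i).natDegree := pow_nonneg (Int.natCast_nonneg _) _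
    have e7 : (A : ℤ) * (∑ j, |c i j|) * (Z : ℤ) ^ (P i).natDegree ≤ (A : ℤ) * S * (Z : ℤ) ^ (P i).natDegree :=
      mul_le_mul_of_nonneg_right (mul_le_mul_of_nonneg_left e4 hA0) hZ0
    have e8 : (A : ℤ) * (Z : ℤ) ^ (P i).natDegree + (A : ℤ) * S * (Z : ℤ) ^ (P i).natDegree ≤
        (A' : ℤ) * (Z : ℤ) ^ (P i).natDegree := by
      have e9 : (A' : ℤ) = 2 * ((A : ℤ) * (1 + S)) := by
        rw [hA']
        push_cast
        ring
      have e10 : 0 ≤ ((A : ℤ) * (1 + S)) * (Z : ℤ) ^ (P i).natDegree :=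
        mul_nonneg (mul_nonneg hA0 (by positivity)) hZ0
      rw [e9]
      linarith
    linarith
  have hB' : OKB A' ε Z B := z0_mono hB hAA
  refine le_trans ?_ (h1 Z hZZ B hB' β' hb')
  norm_cast
  refine Finset.card_le_card_of_injOn (fun t j => t j + s j) ?_ ?_
  · intro t ht
    rw [Finset.mem_coe, Finset.mem_filter] at ht ⊢
    obtain ⟨hbox, h0, hfix, hcnt⟩ := ht
    refine ⟨?_, ?_, ?_, ?_⟩
    · unfold BoxT at hbox
      unfold tb
      rw [Fintype.mem_piFinset] at hbox ⊢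
      intro j
      have e1 := Finset.mem_Icc.mp (hbox j)
      rw [Finset.mem_Ico]
      have e2 : ((A * Z ^ e j : ℕ) : ℤ) + ((A * Z ^ e j : ℕ) : ℤ) ≤ ((A' * Z ^ e j : ℕ) : ℤ) := by
        have e3 : A * Z ^ e j + A * Z ^ e j ≤ A' * Z ^ e j := by
          calc A * Z ^ e j + A * Z ^ e j = 2 * A * Z ^ e j := by ring
            _ ≤ A' * Z ^ e j := Nat.mul_le_mul_right _ hAA2
        exact_mod_cast e3
      have e4 : s j = ((A * Z ^ e j : ℕ) : ℤ) := rfl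
      have e5 : ((0 : Fin d → ℤ) j) = 0 := rfl
      refine ⟨?_, ?_⟩
      · change (0 : Fin d → ℤ) j ≤ t j + s j
        rw [e4, e5]
        linarith [e1.1]
      · change t j + s j < (0 : Fin d → ℤ) j + ((A' * Z ^ e j + 1 : ℕ) : ℤ)
        rw [e4, e5]
        push_cast at e1 e2 ⊢
        linarith [e1.2]
    · intro i
      rw [hval t i]
      exact h0 i
    · rw [hhe t]
      exact hfix
    · rw [hhe t]
      exact hcnt
  · intro t _ t' _ h
    funext j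
    have e1 := congrFun h j
    exact add_right_cancel e1

theorem famT_eval {g d : ℕ} (P : Fin g → ℤ[X]) (c : Fin g → Fin d → ℤ) (b : Fin g → ℤ) (t : Fin d → ℤ)
    (h : ∀ i, 0 ≤ b i + lf c t i) : famT P c b t = famP P (hh c b t) := by
  funext i
  unfold famT famP hh
  rw [Int.toNat_of_nonneg (h i)]

end Pool.Agent.HUP
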