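import Pool.Agent.Lib.HUP.Defs
import Pool.Agent.Lib.HUP.R18

/-!
# Project HUP, module R (the modules of H24P for an abstract family), R20: covering
-/

open Finset Polynomial

namespace Pool.Agent.HUP

open Pool.Agent.Lib.H68T Pool.Agent.Lib.H18Q Pool.Agent.Lib.H59P Pool.Agent.Lib.H24P

/-- Few `t` make a form small. Proof. Some `c_ij ≠ 0`, then `e j = D i`; for fixed other coordinates at most `W + 1`
values `t_j` satisfy `0 ≤ β_i + ψ_i(t) < W` (`c_ij` is a nonzero integer). -/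
theorem R20_low {k d : ℕ} (c : Fin k → Fin d → ℤ) (e : Fin d → ℕ) (D : Fin k → ℕ) (he : ∀ j, 1 ≤ e j)
    (hc : ∀ i, ∃ j, c i j ≠ 0) (hB : ∀ i j, c i j ≠ 0 → e j = D i) (A Z W : ℕ) (hA : 1 ≤ A) (hZ : 1 ≤ Z) (β : Fin k → ℤ) (i : Fin k) :
    (((tb 0 fun j => A * Z ^ e j + 1).filter fun t => 0 ≤ β i + lf c t i ∧ β i + lf c t i < W).card : ℝ) * Z ^ D i ≤
      (W + 1) * ∏ j, ((2 * A * Z ^ e j : ℕ) : ℝ) := by
  classical
  have hj0 : ∃ j0, c i j0 ≠ 0 := by
    exact hc i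
  obtain ⟨j0, hj0⟩ := hj0
  have he0 : e j0 = D i := hB i j0 hj0
  obtain ⟨sd, hsd⟩ : ∃ sd : Fin d → ℕ, sd = fun j => if j = j0 then 1 else A * Z ^ e j + 1 := ⟨_, rfl⟩
  have hcard : ((tb 0 fun j => A * Z ^ e j + 1).filter
      fun t => 0 ≤ β i + lf c t i ∧ β i + lf c t i < W).card ≤ W * (tb 0 sd).card := by
    refine Finset.card_le_mul_card_image_of_maps_to (f := fun t => Function.update t j0 0) ?_ W ?_
    · intro t ht
      rw [mem_filter, r18_mem] at ht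
      rw [r18_mem]
      intro j
      by_cases hj : j = j0
      · subst hj
        rw [Function.update_self, hsd]
        simp
      · rw [Function.update_of_ne hj, hsd]
        simp only [if_neg hj]
        exact ht.1 j
    · intro g _
      have h1 : (Finset.Ico (0 : ℤ) W).card = W := by
        rw [Int.card_Ico]
        omega
      refine le_trans (Finset.card_le_card_of_injOn (t := Finset.Ico (0 : ℤ) W) (fun t => β i + lf c t i) ?_ ?_)
        (le_of_eq h1)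
      · intro t ht
        rw [Finset.mem_coe, mem_filter, mem_filter] at ht
        rw [Finset.mem_coe, Finset.mem_Ico]
        exact ht.1.2
      · intro t ht t' ht' h
        rw [Finset.mem_coe, mem_filter] at ht ht'
        have h2 : Function.update t j0 0 = Function.update t' j0 0 := ht.2.trans ht'.2.symm
        have h3 : ∀ j, j ≠ j0 → t j = t' j := by
          intro j hj
          have h4 := congrFun h2 j
          rwa [Function.update_of_ne hj, Function.update_of_ne hj] at h4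
        have h5 : lf c t i = lf c t' i := by
          have h6 : β i + lf c t i = β i + lf c t' i := h
          omega
        unfold lf at h5
        rw [← Finset.add_sum_erase univ _ (mem_univ j0), ← Finset.add_sum_erase univ (fun j => c i j * t' j)
          (mem_univ j0)] at h5
        have h7 : ∑ j ∈ univ.erase j0, c i j * t j = ∑ j ∈ univ.erase j0, c i j * t' j :=
          Finset.sum_congr rfl fun j hj => by rw [h3 j (Finset.ne_of_mem_erase hj)]
        rw [h7] at h5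
        have h8 : c i j0 * t j0 = c i j0 * t' j0 := by linarith
        have h9 : t j0 = t' j0 := mul_left_cancel₀ hj0 h8
        funext j
        by_cases hj : j = j0
        · rw [hj, h9]
        · exact h3 j hj
  have hprod : (tb 0 sd).card * Z ^ D i ≤ ∏ j, (2 * A * Z ^ e j) := by
    rw [R18_card]
    have h1 : Z ^ D i = ∏ j, (if j = j0 then Z ^ e j else 1) := by
      rw [Finset.prod_ite_eq' univ j0 (fun j => Z ^ e j), if_pos (mem_univ _), he0]
    rw [h1, ← Finset.prod_mul_distrib]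
    refine Finset.prod_le_prod' fun j _ => ?_
    have hAZ : 1 ≤ A * Z ^ e j := Nat.one_le_iff_ne_zero.2
      (Nat.mul_ne_zero (by omega) (pow_ne_zero _ (by omega)))
    rw [hsd]
    by_cases hj : j = j0
    · simp only [if_pos hj, one_mul]
      calc Z ^ e j = 1 * Z ^ e j := (one_mul _).symm
        _ ≤ 2 * A * Z ^ e j := Nat.mul_le_mul_right _ (by omega)
    · simp only [if_neg hj, mul_one]
      calc A * Z ^ e j + 1 ≤ A * Z ^ e j + A * Z ^ e j := by omega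
        _ = 2 * A * Z ^ e j := by ring
  have h1 : (((tb 0 fun j => A * Z ^ e j + 1).filter
      fun t => 0 ≤ β i + lf c t i ∧ β i + lf c t i < W).card : ℝ) ≤ W * (tb 0 sd).card := by
    exact_mod_cast hcard
  have h2 : (((tb 0 sd).card : ℕ) : ℝ) * (Z : ℝ) ^ D i ≤ ∏ j, ((2 * A * Z ^ e j : ℕ) : ℝ) := by
    exact_mod_cast hprod
  have h3 : (0 : ℝ) ≤ ∏ j, ((2 * A * Z ^ e j : ℕ) : ℝ) := Finset.prod_nonneg fun _ _ => Nat.cast_nonneg _
  calc _ ≤ (W * ((tb 0 sd).card : ℝ)) * (Z : ℝ) ^ D i := mul_le_mul_of_nonneg_right h1 (by positivity)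
    _ = W * ((((tb 0 sd).card : ℕ) : ℝ) * (Z : ℝ) ^ D i) := by ring
    _ ≤ W * ∏ j, ((2 * A * Z ^ e j : ℕ) : ℝ) := mul_le_mul_of_nonneg_left h2 (Nat.cast_nonneg _)
    _ ≤ (W + 1) * ∏ j, ((2 * A * Z ^ e j : ℕ) : ℝ) := mul_le_mul_of_nonneg_right (by linarith) h3

/-- The numbers of one box. -/
theorem r20_num (w C1 Zd v y M q : ℝ) (hC : 1 ≤ C1) (hw : 50 * C1 ≤ w) (hv0 : 0 < v) (hv : Zd ≤ w * v)
    (hq0 : 0 ≤ q) (hq : q * (2500 * w ^ 4) ≤ Zd) (hy : |y - v| * w ^ 2 ≤ C1 * Zd) (hM1 : M ≤ 5 * v / 8)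
    (hM2 : 5 * v / 8 - q ≤ M) : Zd ≤ w ^ 2 * M ∧ 151 * M ≤ 100 * y ∧ 100 * y < 168 * M := by
  have hw50 : 50 ≤ w := by linarith
  have hw0 : 0 < w := by linarith
  have h1 : q * 2500 ≤ v := by
    have h2 : q * (2500 * w ^ 3) * w ≤ v * w := by
      calc q * (2500 * w ^ 3) * w = q * (2500 * w ^ 4) := by ring
        _ ≤ Zd := hq
        _ ≤ v * w := by linarith [mul_comm w v]
    have h3 := le_of_mul_le_mul_right h2 hw0
    have h4 : (1 : ℝ) ≤ w ^ 3 := one_le_pow₀ (by linarith)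
    have h5 : q * 2500 * 1 ≤ q * 2500 * w ^ 3 := mul_le_mul_of_nonneg_left h4 (by linarith)
    linarith
  have h6 : |y - v| * 50 ≤ v := by
    have h7 : |y - v| * w * w ≤ C1 * v * w := by
      calc |y - v| * w * w = |y - v| * w ^ 2 := by ring
        _ ≤ C1 * Zd := hy
        _ ≤ C1 * (w * v) := mul_le_mul_of_nonneg_left hv (by linarith)
        _ = C1 * v * w := by ring
    have h8 := le_of_mul_le_mul_right h7 hw0
    have h9 : |y - v| * (50 * C1) ≤ |y - v| * w := mul_le_mul_of_nonneg_left hw (abs_nonneg _)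
    have h10 : |y - v| * 50 * C1 ≤ v * C1 := by linarith [mul_comm C1 v]
    exact le_of_mul_le_mul_right h10 (by linarith)
  have h11 := abs_le.1 (show |y - v| ≤ v / 50 by linarith)
  refine ⟨?_, by linarith [h11.1], by linarith [h11.2]⟩
  have h12 : v / 2 ≤ M := by linarith
  calc Zd ≤ w * v := hv
    _ ≤ w * (w * M) := by
        apply mul_le_mul_of_nonneg_left _ hw0.le
        have h13 : 50 * M ≤ w * M := mul_le_mul_of_nonneg_right hw50 (by linarith)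
        linarith
    _ = w ^ 2 * M := by ring

theorem r20_M (q v : ℕ) (hq : 1 ≤ q) :
    ((q * (5 * v / (8 * q)) : ℕ) : ℝ) ≤ 5 * (v : ℝ) / 8 ∧ 5 * (v : ℝ) / 8 - q ≤ ((q * (5 * v / (8 * q)) : ℕ) : ℝ) := by
  have h1 : 5 * v / (8 * q) * (8 * q) ≤ 5 * v := Nat.div_mul_le_self _ _
  have h2 : 5 * v < (5 * v / (8 * q) + 1) * (8 * q) := by
    have h3 := Nat.lt_div_mul_add (a := 5 * v) (b := 8 * q) (by omega)
    calc 5 * v < 5 * v / (8 * q) * (8 * q) + 8 * q := h3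
      _ = (5 * v / (8 * q) + 1) * (8 * q) := by ring
  have h3 : ((5 * v / (8 * q) : ℕ) : ℝ) * (8 * q) ≤ 5 * v := by exact_mod_cast h1
  have h4 : (5 : ℝ) * v < (((5 * v / (8 * q) : ℕ) : ℝ) + 1) * (8 * q) := by exact_mod_cast h2
  push_cast
  constructor
  · linarith
  · linarith


/-- **R20** (covering, compare `K4_cover`, H24P/K4.lean). Proof. Let `Z ≥ Cv q T²`, `T ≥ Cv` and
`s_j = q ⌊Z^(e_j)/(q T)⌋ ≥ Z^(e_j)/(2T)` (`e_j ≥ 1`). The boxes `tb (u s) s`, `u ∈ ∏ [0, A Z^(e_j)/s_j]`, cover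
`tb 0 (A Z^e + 1)`, and their total volume is at most `∏_j (A Z^(e_j) + 1 + s_j) ≤ (3A)^d Z^(∑ e)`. The `t` with
`β_i + ψ_i(t) < 2 Z^(D_i)/√T` for some `i`: `R20_low`, at most `C Z^(∑ e)/√T`. Every other `t` (with
`0 ≤ β_i + ψ_i(t)`) is in a box on which the forms vary by at most `∑_j |c_ij| s_j ≤ C Z^(D_i)/T` (`R18_var`); put
`v_i = β_i + ψ_i(u s)` and `M_i = q ⌊5 v_i/(8 q)⌋`, i.e. `v_i ≈ 1.6 M_i`: `Z^(D_i) ≤ T M_i` and
`151 M_i ≤ 100 (β_i + ψ_i(t')) < 168 M_i` on the whole box (`v_i ≥ Z^(D_i)/√T`, `q ≤ Z/(Cv T²)`), `M_i ≤ Cv Z^(D_i)` from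
`|β_i| ≤ A Z^(D_i)`, `t ≤ 2A Z^e`. Hypothesis `hE` for these boxes; sum. -/
theorem R20_cover {k d : ℕ} (c : Fin k → Fin d → ℤ) (e : Fin d → ℕ) (D : Fin k → ℕ) (he : ∀ j, 1 ≤ e j)
    (hc : ∀ i, ∃ j, c i j ≠ 0) (hB : ∀ i j, c i j ≠ 0 → e j = D i) (A : ℕ) (hA : 1 ≤ A) : ∃ Cv : ℕ, 1 ≤ Cv ∧
    ∀ (Z q : ℕ) (T δ : ℝ), 1 ≤ q → (Cv : ℝ) ≤ T → 0 ≤ δ → Cv * T ^ 2 * q ≤ Z → ∀ β : Fin k → ℤ,
    (∀ i, |β i| ≤ A * (Z : ℤ) ^ D i) → ∀ (E : (Fin d → ℤ) → Prop) [DecidablePred E],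
    (∀ (M : Fin k → ℕ) (b : Fin d → ℤ) (s : Fin d → ℕ), (∀ i, q ∣ M i) → (∀ j, q ∣ s j) →
      (∀ i, (Z : ℝ) ^ D i ≤ T * M i) → (∀ i, (M i : ℝ) ≤ Cv * (Z : ℝ) ^ D i) →
      (∀ j, (Z : ℝ) ^ e j ≤ 2 * T * s j) → (∀ j, (s j : ℝ) ≤ (Z : ℝ) ^ e j) →
      (∀ t ∈ tb b s, ∀ i, 151 * (M i : ℤ) ≤ 100 * (β i + lf c t i) ∧ 100 * (β i + lf c t i) < 168 * (M i : ℤ)) →
      (((tb b s).filter E).card : ℝ) ≤ (tb b s).card * δ) →
    (((tb 0 fun j => A * Z ^ e j + 1).filter fun t => (∀ i, 0 ≤ β i + lf c t i) ∧ E t).card : ℝ) ≤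
      Cv * (1 / Real.sqrt T + δ) * (Z : ℝ) ^ (∑ j, e j) := by
  classical
  obtain ⟨C1, hC1⟩ : ∃ C1 : ℕ, (C1 : ℤ) = 1 + ∑ i, ∑ j, |c i j| :=
    ⟨(1 + ∑ i, ∑ j, |c i j|).toNat, Int.toNat_of_nonneg
      (add_nonneg zero_le_one (Finset.sum_nonneg fun _ _ => Finset.sum_nonneg fun _ _ => abs_nonneg _))⟩
  have hS : ∀ i, ∑ j, |c i j| ≤ (C1 : ℤ) - 1 := by
    intro i
    have h1 := Finset.single_le_sum (f := fun i => ∑ j, |c i j|)
      (fun _ _ => Finset.sum_nonneg fun _ _ => abs_nonneg _) (mem_univ i)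
    omega
  have hC1' : 1 ≤ C1 := by
    have h1 : (0 : ℤ) ≤ ∑ i, ∑ j, |c i j| :=
      Finset.sum_nonneg fun _ _ => Finset.sum_nonneg fun _ _ => abs_nonneg _
    omega
  obtain ⟨Cv, hCv⟩ : ∃ Cv : ℕ, Cv = 2500 * C1 ^ 2 + A * (1 + C1) + (4 * k + 1) * (2 * A) ^ d := ⟨_, rfl⟩
  have hCa : 2500 * C1 ^ 2 ≤ Cv := by rw [hCv]; exact (Nat.le_add_right _ _).trans (Nat.le_add_right _ _)
  have hCb : A * (1 + C1) ≤ Cv := by rw [hCv]; exact (Nat.le_add_left _ _).trans (Nat.le_add_right _ _)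
  have hCc : (4 * k + 1) * (2 * A) ^ d ≤ Cv := by rw [hCv]; exact Nat.le_add_left _ _
  have hC1sq : 1 ≤ C1 ^ 2 := Nat.one_le_pow _ _ hC1'
  have hCd : 2500 ≤ Cv := by omega
  refine ⟨Cv, by omega, ?_⟩
  intro Z q T δ hq hT hδ hZ β hβ E _ hE
  have hqr : (1 : ℝ) ≤ q := by exact_mod_cast hq
  have hCr : (2500 : ℝ) ≤ Cv := by exact_mod_cast hCd
  have hT1 : (2500 : ℝ) ≤ T := hCr.trans hT
  have hT0 : 0 < T := by linarith
  have hC1r : (1 : ℝ) ≤ C1 := by exact_mod_cast hC1'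
  obtain ⟨w, hw⟩ : ∃ w, w = Real.sqrt T := ⟨_, rfl⟩
  have hw0 : 0 ≤ w := by rw [hw]; exact Real.sqrt_nonneg _
  have hw2 : w ^ 2 = T := by rw [hw]; exact Real.sq_sqrt hT0.le
  have hwC : 50 * (C1 : ℝ) ≤ w := by
    have h1 : (2500 : ℝ) * (C1 : ℝ) ^ 2 ≤ Cv := by exact_mod_cast hCa
    have h2 : (50 * (C1 : ℝ)) ^ 2 ≤ w ^ 2 := by
      rw [hw2]
      calc (50 * (C1 : ℝ)) ^ 2 = 2500 * (C1 : ℝ) ^ 2 := by ring
        _ ≤ (Cv : ℝ) := h1
        _ ≤ T := hT
    exact le_of_sq_le_sq h2 hw0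
  have hw50 : 50 ≤ w := by linarith
  have hwpos : 0 < w := by linarith
  have hZ1 : 2500 * T ^ 2 * q ≤ Z := by
    refine le_trans ?_ hZ
    exact mul_le_mul_of_nonneg_right (mul_le_mul_of_nonneg_right hCr (by positivity)) (by linarith)
  have hZT : 2500 * T * q ≤ Z := by
    refine le_trans ?_ hZ1
    have h1 : T ≤ T ^ 2 := by nlinarith
    exact mul_le_mul_of_nonneg_right (mul_le_mul_of_nonneg_left h1 (by norm_num)) (by linarith)
  have hZw : w ≤ Z := by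
    have h1 : w ≤ w ^ 2 := by nlinarith
    rw [hw2] at h1
    nlinarith
  have hZr1 : (1 : ℝ) ≤ Z := by linarith
  have hZn : 1 ≤ Z := by exact_mod_cast hZr1
  have hZe : ∀ n : ℕ, 1 ≤ n → (Z : ℝ) ≤ (Z : ℝ) ^ n := fun n hn => le_self_pow₀ hZr1 (by omega)
  have hD : ∀ i, 1 ≤ D i := by
    intro i
    have hj0 : ∃ j0, c i j0 ≠ 0 := by
      exact hc i
    obtain ⟨j0, hj0⟩ := hj0
    rw [← hB i j0 hj0]
    exact he j0
  obtain ⟨s, hs⟩ : ∃ s : Fin d → ℕ, s = fun j => q * ⌊(Z : ℝ) ^ e j / (q * T)⌋₊ := ⟨_, rfl⟩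
  have hqT : 0 < (q : ℝ) * T := by positivity
  have hs1 : ∀ j, q ∣ s j := fun j => by rw [hs]; exact dvd_mul_right _ _
  have hs3 : ∀ j, (s j : ℝ) * T ≤ (Z : ℝ) ^ e j := by
    intro j
    have h1 : ((⌊(Z : ℝ) ^ e j / (q * T)⌋₊ : ℕ) : ℝ) ≤ (Z : ℝ) ^ e j / (q * T) := Nat.floor_le (by positivity)
    rw [le_div_iff₀ hqT] at h1
    rw [hs]
    push_cast
    linarith [mul_comm (q : ℝ) ((⌊(Z : ℝ) ^ e j / (q * T)⌋₊ : ℕ) : ℝ),
      mul_assoc ((⌊(Z : ℝ) ^ e j / (q * T)⌋₊ : ℕ) : ℝ) (q : ℝ) T]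
  have hs2 : ∀ j, (Z : ℝ) ^ e j ≤ 2 * T * s j := by
    intro j
    have h1 : (Z : ℝ) ^ e j / (q * T) < ((⌊(Z : ℝ) ^ e j / (q * T)⌋₊ : ℕ) : ℝ) + 1 := Nat.lt_floor_add_one _
    have h2 : 1 ≤ (Z : ℝ) ^ e j / (q * T) := by
      rw [le_div_iff₀ hqT]
      have h3 := hZe (e j) (he j)
      nlinarith
    have h4 : (1 : ℝ) ≤ ((⌊(Z : ℝ) ^ e j / (q * T)⌋₊ : ℕ) : ℝ) := by
      exact_mod_cast Nat.le_floor (by exact_mod_cast h2)
    have h5 : (Z : ℝ) ^ e j / (q * T) ≤ 2 * ((⌊(Z : ℝ) ^ e j / (q * T)⌋₊ : ℕ) : ℝ) := by linarith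
    rw [div_le_iff₀ hqT] at h5
    rw [hs]
    push_cast
    calc (Z : ℝ) ^ e j ≤ 2 * ((⌊(Z : ℝ) ^ e j / (q * T)⌋₊ : ℕ) : ℝ) * (q * T) := h5
      _ = 2 * T * (q * ((⌊(Z : ℝ) ^ e j / (q * T)⌋₊ : ℕ) : ℝ)) := by ring
  have hsZ : ∀ j, (s j : ℝ) ≤ (Z : ℝ) ^ e j := by
    intro j
    refine le_trans ?_ (hs3 j)
    exact le_mul_of_one_le_right (Nat.cast_nonneg _) (by linarith)
  have hspos : ∀ j, 0 < s j := by
    intro j
    rcases Nat.eq_zero_or_pos (s j) with h | h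
    · have h1 := hs2 j
      rw [h] at h1
      have h3 := hZe (e j) (he j)
      push_cast at h1
      linarith
    · exact h
  obtain ⟨cr, hcr⟩ : ∃ cr : (Fin d → ℕ) → (Fin d → ℤ), cr = fun u j => ((u j * s j : ℕ) : ℤ) := ⟨_, rfl⟩
  obtain ⟨U, hU⟩ : ∃ U : Finset (Fin d → ℕ), U = Fintype.piFinset fun j => range (A * Z ^ e j / s j + 1) :=
    ⟨_, rfl⟩
  obtain ⟨G, hG⟩ : ∃ G : Finset (Fin d → ℕ), G = U.filter fun u => ∀ i, (Z : ℝ) ^ D i ≤ w * ((β i + lf c (cr u) i : ℤ) : ℝ) :=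
    ⟨_, rfl⟩
  obtain ⟨W, hW⟩ : ∃ W : Fin k → ℕ, W = fun i => ⌈2 * (Z : ℝ) ^ D i / w⌉₊ := ⟨_, rfl⟩
  have hvar : ∀ (b : Fin d → ℤ) (i : Fin k) (t t' : Fin d → ℤ), t ∈ tb b s → t' ∈ tb b s →
      |((β i + lf c t i : ℤ) : ℝ) - ((β i + lf c t' i : ℤ) : ℝ)| * T ≤ C1 * (Z : ℝ) ^ D i := by
    intro b i t t' ht ht'
    have h1 := R18_var c b s i t t' ht ht'
    have h2 : |((β i + lf c t i : ℤ) : ℝ) - ((β i + lf c t' i : ℤ) : ℝ)| ≤ ∑ j, |(c i j : ℝ)| * (s j : ℝ) := by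
      have h3 : ((|lf c t i - lf c t' i| : ℤ) : ℝ) ≤ ((∑ j, |c i j| * (s j : ℤ) : ℤ) : ℝ) := by exact_mod_cast h1
      push_cast at h3
      push_cast
      rw [add_sub_add_left_eq_sub]
      exact h3
    have h4 : (∑ j, |(c i j : ℝ)| * (s j : ℝ)) * T ≤ (∑ j, |(c i j : ℝ)|) * (Z : ℝ) ^ D i := by
      rw [Finset.sum_mul, Finset.sum_mul]
      refine Finset.sum_le_sum fun j _ => ?_
      by_cases hj : c i j = 0
      · rw [hj]
        simp
      · rw [mul_assoc, ← hB i j hj]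
        exact mul_le_mul_of_nonneg_left (hs3 j) (abs_nonneg _)
    have h5 : (∑ j, |(c i j : ℝ)|) ≤ C1 := by
      have h6 : ((∑ j, |c i j| : ℤ) : ℝ) ≤ ((C1 : ℤ) : ℝ) := by
        exact_mod_cast (hS i).trans (by omega)
      push_cast at h6
      exact h6
    calc _ ≤ (∑ j, |(c i j : ℝ)| * (s j : ℝ)) * T := mul_le_mul_of_nonneg_right h2 hT0.le
      _ ≤ (∑ j, |(c i j : ℝ)|) * (Z : ℝ) ^ D i := h4
      _ ≤ C1 * (Z : ℝ) ^ D i := mul_le_mul_of_nonneg_right h5 (by positivity)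
  have hcrm : ∀ u : Fin d → ℕ, cr u ∈ tb (cr u) s := by
    intro u
    rw [r18_mem]
    intro j
    have h1 := hspos j
    omega
  -- the cover
  have hsub : ((tb 0 fun j => A * Z ^ e j + 1).filter fun t => (∀ i, 0 ≤ β i + lf c t i) ∧ E t) ⊆
      (univ.biUnion fun i => (tb 0 fun j => A * Z ^ e j + 1).filter
        fun t => 0 ≤ β i + lf c t i ∧ β i + lf c t i < W i) ∪
      (G.biUnion fun u => (tb (cr u) s).filter E) := by
    intro t ht
    rw [mem_filter] at ht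
    rw [mem_union]
    by_cases hlow : ∃ i, β i + lf c t i < W i
    · left
      obtain ⟨i, hi⟩ := hlow
      rw [mem_biUnion]
      exact ⟨i, mem_univ i, mem_filter.2 ⟨ht.1, ht.2.1 i, hi⟩⟩
    · right
      push Not at hlow
      obtain ⟨u, hu⟩ : ∃ u : Fin d → ℕ, u = fun j => (t j).toNat / s j := ⟨_, rfl⟩
      have htb := (r18_mem _ _ _).1 ht.1
      have htu : t ∈ tb (cr u) s := by
        rw [r18_mem]
        intro j
        have h1 := htb j
        simp only [Pi.zero_apply] at h1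
        obtain ⟨n, hn⟩ : ∃ n : ℕ, (n : ℤ) = t j := ⟨(t j).toNat, Int.toNat_of_nonneg h1.1⟩
        have h2 : u j = n / s j := by
          rw [hu]
          simp only
          rw [← hn, Int.toNat_natCast]
        have h3 : n / s j * s j ≤ n := Nat.div_mul_le_self _ _
        have h4 : n < n / s j * s j + s j := Nat.lt_div_mul_add (hspos j)
        rw [hcr]
        simp only
        rw [h2, ← hn]
        constructor
        · exact_mod_cast h3
        · exact_mod_cast h4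
      rw [mem_biUnion]
      refine ⟨u, ?_, mem_filter.2 ⟨htu, ht.2.2⟩⟩
      rw [hG, mem_filter]
      constructor
      · rw [hU, Fintype.mem_piFinset]
        intro j
        rw [mem_range, Nat.lt_succ_iff]
        rw [hu]
        apply Nat.div_le_div_right
        have h1 := htb j
        simp only [Pi.zero_apply] at h1
        push_cast at h1
        have h2 : (((t j).toNat : ℕ) : ℤ) ≤ ((A * Z ^ e j : ℕ) : ℤ) := by
          rw [Int.toNat_of_nonneg h1.1]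
          push_cast
          omega
        exact_mod_cast h2
      · intro i
        have h1 : (2 * (Z : ℝ) ^ D i / w) ≤ ((β i + lf c t i : ℤ) : ℝ) := by
          have h2 : (2 * (Z : ℝ) ^ D i / w) ≤ (W i : ℝ) := by
            rw [hW]
            exact Nat.le_ceil _
          refine h2.trans ?_
          exact_mod_cast hlow i
        rw [div_le_iff₀ hwpos] at h1
        have h3 := hvar (cr u) i t (cr u) htu (hcrm u)
        have h4 : |((β i + lf c t i : ℤ) : ℝ) - ((β i + lf c (cr u) i : ℤ) : ℝ)| * w ≤ (Z : ℝ) ^ D i := by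
          have h5 : |((β i + lf c t i : ℤ) : ℝ) - ((β i + lf c (cr u) i : ℤ) : ℝ)| * w * w ≤ (Z : ℝ) ^ D i * w := by
            calc _ = |((β i + lf c t i : ℤ) : ℝ) - ((β i + lf c (cr u) i : ℤ) : ℝ)| * T := by rw [← hw2]; ring
              _ ≤ C1 * (Z : ℝ) ^ D i := h3
              _ ≤ w * (Z : ℝ) ^ D i := mul_le_mul_of_nonneg_right (by linarith) (by positivity)
              _ = (Z : ℝ) ^ D i * w := mul_comm _ _
          exact le_of_mul_le_mul_right h5 hwpos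
        have h6 : ((β i + lf c t i : ℤ) : ℝ) - ((β i + lf c (cr u) i : ℤ) : ℝ) ≤
            |((β i + lf c t i : ℤ) : ℝ) - ((β i + lf c (cr u) i : ℤ) : ℝ)| := le_abs_self _
        have h7 := mul_le_mul_of_nonneg_right h6 hw0
        nlinarith
  -- the boxes
  have hbox : ∀ u ∈ G, (((tb (cr u) s).filter E).card : ℝ) ≤ (tb (cr u) s).card * δ := by
    intro u hu
    rw [hG, mem_filter] at hu
    obtain ⟨v, hv⟩ : ∃ v : Fin k → ℕ, v = fun i => (β i + lf c (cr u) i).toNat := ⟨_, rfl⟩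
    have hZD : ∀ i, 0 < (Z : ℝ) ^ D i := fun i => by positivity
    have hvpos : ∀ i, (0 : ℝ) < ((β i + lf c (cr u) i : ℤ) : ℝ) := by
      intro i
      have h1 := hu.2 i
      have h2 := hZD i
      by_contra hc
      push Not at hc
      have h3 := mul_nonpos_of_nonneg_of_nonpos hw0 hc
      linarith
    have hvr : ∀ i, (v i : ℝ) = ((β i + lf c (cr u) i : ℤ) : ℝ) := by
      intro i
      have h1 : (0 : ℤ) ≤ β i + lf c (cr u) i := by
        have h2 := hvpos i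
        exact_mod_cast h2.le
      have h2 : ((v i : ℕ) : ℤ) = β i + lf c (cr u) i := by
        rw [hv]
        exact Int.toNat_of_nonneg h1
      rw [← h2]
      push_cast
      rfl
    have hqw : ∀ i, (q : ℝ) * (2500 * w ^ 4) ≤ (Z : ℝ) ^ D i := by
      intro i
      calc (q : ℝ) * (2500 * w ^ 4) = 2500 * T ^ 2 * q := by rw [← hw2]; ring
        _ ≤ (Z : ℝ) := hZ1
        _ ≤ (Z : ℝ) ^ D i := hZe _ (hD i)
    have hnum : ∀ (t : Fin d → ℤ), t ∈ tb (cr u) s → ∀ i,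
        (Z : ℝ) ^ D i ≤ w ^ 2 * ((q * (5 * v i / (8 * q)) : ℕ) : ℝ) ∧
        151 * ((q * (5 * v i / (8 * q)) : ℕ) : ℝ) ≤ 100 * ((β i + lf c t i : ℤ) : ℝ) ∧
        100 * ((β i + lf c t i : ℤ) : ℝ) < 168 * ((q * (5 * v i / (8 * q)) : ℕ) : ℝ) := by
      intro t ht i
      have h1 := r20_M q (v i) hq
      refine r20_num w C1 ((Z : ℝ) ^ D i) (v i) ((β i + lf c t i : ℤ) : ℝ) _ q hC1r hwC ?_ ?_ (by linarith) (hqw i)
        ?_ h1.1 h1.2
      · rw [hvr i]
        exact hvpos i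
      · rw [hvr i]
        exact hu.2 i
      · rw [hvr i, hw2]
        exact hvar (cr u) i t (cr u) ht (hcrm u)
    refine hE (fun i => q * (5 * v i / (8 * q))) (cr u) s (fun i => dvd_mul_right _ _) hs1 ?_ ?_ hs2 hsZ ?_
    · intro i
      have h1 := (hnum (cr u) (hcrm u) i).1
      rw [hw2] at h1
      exact h1
    · intro i
      have h1 := (r20_M q (v i) hq).1
      have h2 : (v i : ℝ) ≤ A * (1 + C1) * (Z : ℝ) ^ D i := by
        rw [hvr i]
        have h3 : ((β i + lf c (cr u) i : ℤ) : ℝ) = (β i : ℝ) + ∑ j, (c i j : ℝ) * (cr u j : ℝ) := by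
          unfold lf
          push_cast
          rfl
        have h4 : (β i : ℝ) ≤ A * (Z : ℝ) ^ D i := by
          have h5 := (le_abs_self _).trans (hβ i)
          exact_mod_cast h5
        have h6 : ∑ j, (c i j : ℝ) * (cr u j : ℝ) ≤ ∑ j, |(c i j : ℝ)| * (A * (Z : ℝ) ^ D i) := by
          refine Finset.sum_le_sum fun j _ => ?_
          by_cases hj : c i j = 0
          · rw [hj]
            simp
          · have h7 : (0 : ℝ) ≤ (cr u j : ℝ) := by
              rw [hcr]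
              positivity
            have h8 : (cr u j : ℝ) ≤ A * (Z : ℝ) ^ D i := by
              have h9 := hu.1
              rw [hU, Fintype.mem_piFinset] at h9
              have h10 := h9 j
              rw [mem_range, Nat.lt_succ_iff] at h10
              have h11 : u j * s j ≤ A * Z ^ e j := (Nat.mul_le_mul_right _ h10).trans (Nat.div_mul_le_self _ _)
              have h12 : ((u j * s j : ℕ) : ℝ) ≤ ((A * Z ^ e j : ℕ) : ℝ) := Nat.cast_le.2 h11
              rw [hcr, ← hB i j hj]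
              push_cast at h12 ⊢
              exact h12
            exact (mul_le_mul_of_nonneg_right (le_abs_self _) h7).trans
              (mul_le_mul_of_nonneg_left h8 (abs_nonneg _))
        have h12 : (∑ j, |(c i j : ℝ)|) ≤ C1 := by
          have h13 : ((∑ j, |c i j| : ℤ) : ℝ) ≤ ((C1 : ℤ) : ℝ) := by
            exact_mod_cast (hS i).trans (by omega)
          push_cast at h13
          exact h13
        rw [← Finset.sum_mul] at h6
        have h14 : (∑ j, |(c i j : ℝ)|) * (A * (Z : ℝ) ^ D i) ≤ C1 * (A * (Z : ℝ) ^ D i) :=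
          mul_le_mul_of_nonneg_right h12 (by positivity)
        rw [h3]
        calc _ ≤ A * (Z : ℝ) ^ D i + C1 * (A * (Z : ℝ) ^ D i) := add_le_add h4 (h6.trans h14)
          _ = A * (1 + C1) * (Z : ℝ) ^ D i := by ring
      have h15 : ((A * (1 + C1) : ℕ) : ℝ) ≤ Cv := by exact_mod_cast hCb
      push_cast at h15
      have h16 : (A * (1 + C1) : ℝ) * (Z : ℝ) ^ D i ≤ Cv * (Z : ℝ) ^ D i :=
        mul_le_mul_of_nonneg_right h15 (hZD i).le
      have h17 : (0 : ℝ) ≤ v i := Nat.cast_nonneg _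
      linarith
    · intro t ht i
      have h1 := hnum t ht i
      have h2 := h1.2.1
      have h3 := h1.2.2
      have h4 : ((151 * ((q * (5 * v i / (8 * q)) : ℕ) : ℤ) : ℤ) : ℝ) ≤ ((100 * (β i + lf c t i) : ℤ) : ℝ) := by
        push_cast
        push_cast at h2
        exact h2
      have h5 : ((100 * (β i + lf c t i) : ℤ) : ℝ) < ((168 * ((q * (5 * v i / (8 * q)) : ℕ) : ℤ) : ℤ) : ℝ) := by
        push_cast
        push_cast at h3
        exact h3
      exact ⟨Int.cast_le.1 h4, Int.cast_lt.1 h5⟩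
  -- the sums
  have hcard := Finset.card_le_card hsub
  have hP : ∏ j, ((2 * A * Z ^ e j : ℕ) : ℝ) = (2 * A) ^ d * (Z : ℝ) ^ (∑ j, e j) := by
    push_cast
    rw [Finset.prod_mul_distrib, Finset.prod_const, Finset.card_univ, Fintype.card_fin, Finset.prod_pow_eq_pow_sum]
  have hlowc : ∀ i, (((tb 0 fun j => A * Z ^ e j + 1).filter
        fun t => 0 ≤ β i + lf c t i ∧ β i + lf c t i < W i).card : ℝ) ≤
      4 / w * ((2 * A) ^ d * (Z : ℝ) ^ (∑ j, e j)) := by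
    intro i
    have h1 := R20_low c e D he hc hB A Z (W i) hA hZn β i
    rw [hP] at h1
    have h2 : (W i : ℝ) < 2 * (Z : ℝ) ^ D i / w + 1 := by
      rw [hW]
      exact Nat.ceil_lt_add_one (by positivity)
    have hZD : 0 < (Z : ℝ) ^ D i := by positivity
    have h3 : (1 : ℝ) ≤ (Z : ℝ) ^ D i / w := by
      rw [le_div_iff₀ hwpos, one_mul]
      exact hZw.trans (hZe _ (hD i))
    have h4 : (W i : ℝ) + 1 ≤ 4 / w * (Z : ℝ) ^ D i := by
      have h5 : 4 / w * (Z : ℝ) ^ D i = 4 * ((Z : ℝ) ^ D i / w) := by ring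
      have h6 : 2 * (Z : ℝ) ^ D i / w = 2 * ((Z : ℝ) ^ D i / w) := by ring
      rw [h5]
      rw [h6] at h2
      linarith
    have h7 : (0 : ℝ) ≤ (2 * A) ^ d * (Z : ℝ) ^ (∑ j, e j) := by positivity
    have h8 := h1.trans (mul_le_mul_of_nonneg_right h4 h7)
    have h9 : 4 / w * (Z : ℝ) ^ D i * ((2 * A) ^ d * (Z : ℝ) ^ (∑ j, e j)) =
        4 / w * ((2 * A) ^ d * (Z : ℝ) ^ (∑ j, e j)) * (Z : ℝ) ^ D i := by ring
    rw [h9] at h8
    exact le_of_mul_le_mul_right h8 hZD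
  have hboxs : ∑ u ∈ G, (((tb (cr u) s).filter E).card : ℝ) ≤ δ * ((2 * A) ^ d * (Z : ℝ) ^ (∑ j, e j)) := by
    have h1 : ∀ u ∈ G, (((tb (cr u) s).filter E).card : ℝ) ≤ ((∏ j, s j : ℕ) : ℝ) * δ := by
      intro u hu
      have h2 := hbox u hu
      rw [R18_card] at h2
      exact h2
    have h3 := Finset.sum_le_sum h1
    rw [Finset.sum_const, nsmul_eq_mul] at h3
    have h4 : (G.card : ℝ) ≤ U.card := by
      rw [hG]
      exact_mod_cast Finset.card_filter_le _ _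
    have h5 : U.card * ∏ j, s j ≤ ∏ j, (2 * A * Z ^ e j) := by
      rw [hU, Fintype.card_piFinset, ← Finset.prod_mul_distrib]
      refine Finset.prod_le_prod' fun j _ => ?_
      rw [card_range]
      have h6 : s j ≤ Z ^ e j := by exact_mod_cast hsZ j
      have h7 : A * Z ^ e j / s j * s j ≤ A * Z ^ e j := Nat.div_mul_le_self _ _
      have h8 : 1 * Z ^ e j ≤ A * Z ^ e j := Nat.mul_le_mul_right _ hA
      calc (A * Z ^ e j / s j + 1) * s j = A * Z ^ e j / s j * s j + s j := by ring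
        _ ≤ A * Z ^ e j + A * Z ^ e j := by omega
        _ = 2 * A * Z ^ e j := by ring
    have h9 : (U.card : ℝ) * ((∏ j, s j : ℕ) : ℝ) ≤ ∏ j, ((2 * A * Z ^ e j : ℕ) : ℝ) := by exact_mod_cast h5
    rw [hP] at h9
    calc _ ≤ (G.card : ℝ) * (((∏ j, s j : ℕ) : ℝ) * δ) := h3
      _ ≤ (U.card : ℝ) * (((∏ j, s j : ℕ) : ℝ) * δ) := mul_le_mul_of_nonneg_right h4 (by positivity)
      _ = δ * ((U.card : ℝ) * ((∏ j, s j : ℕ) : ℝ)) := by ring
      _ ≤ _ := mul_le_mul_of_nonneg_left h9 hδ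
  have hfin : (((tb 0 fun j => A * Z ^ e j + 1).filter fun t => (∀ i, 0 ≤ β i + lf c t i) ∧ E t).card : ℝ) ≤
      ∑ i : Fin k, (((tb 0 fun j => A * Z ^ e j + 1).filter
        fun t => 0 ≤ β i + lf c t i ∧ β i + lf c t i < W i).card : ℝ) +
      ∑ u ∈ G, (((tb (cr u) s).filter E).card : ℝ) := by
    have h1 := hcard.trans ((Finset.card_union_le _ _).trans
      (add_le_add Finset.card_biUnion_le Finset.card_biUnion_le))
    exact_mod_cast h1
  have h1 : ∑ i : Fin k, (((tb 0 fun j => A * Z ^ e j + 1).filter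
        fun t => 0 ≤ β i + lf c t i ∧ β i + lf c t i < W i).card : ℝ) ≤
      k * (4 / w * ((2 * A) ^ d * (Z : ℝ) ^ (∑ j, e j))) := by
    refine (Finset.sum_le_sum fun i _ => hlowc i).trans (le_of_eq ?_)
    rw [Finset.sum_const, Finset.card_univ, Fintype.card_fin, nsmul_eq_mul]
  have h2 : ((4 * k + 1) * (2 * A) ^ d : ℝ) ≤ Cv := by exact_mod_cast hCc
  have hwi : 0 < 1 / w := by positivity
  have hZs : (0 : ℝ) ≤ (Z : ℝ) ^ (∑ j, e j) := by positivity
  have hAd : (0 : ℝ) ≤ (2 * A) ^ d := by positivity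
  have hkr : (0 : ℝ) ≤ k := Nat.cast_nonneg _
  rw [← hw]
  calc _ ≤ k * (4 / w * ((2 * A) ^ d * (Z : ℝ) ^ (∑ j, e j))) + δ * ((2 * A) ^ d * (Z : ℝ) ^ (∑ j, e j)) :=
        hfin.trans (add_le_add h1 hboxs)
    _ = (4 * k * (2 * A) ^ d) * (1 / w * (Z : ℝ) ^ (∑ j, e j)) + (2 * A) ^ d * (δ * (Z : ℝ) ^ (∑ j, e j)) := by ring
    _ ≤ Cv * (1 / w * (Z : ℝ) ^ (∑ j, e j)) + Cv * (δ * (Z : ℝ) ^ (∑ j, e j)) := by
        have h3 : (4 * k * (2 * A) ^ d : ℝ) ≤ Cv := by nlinarith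
        have h4 : ((2 * A) ^ d : ℝ) ≤ Cv := by
          have h5 : (0 : ℝ) ≤ 4 * k * (2 * A) ^ d := by positivity
          linarith
        exact add_le_add (mul_le_mul_of_nonneg_right h3 (by positivity))
          (mul_le_mul_of_nonneg_right h4 (by positivity))
    _ = Cv * (1 / w + δ) * (Z : ℝ) ^ (∑ j, e j) := by ring

end Pool.Agent.HUP
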