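import Pool.Agent.Lib.HUP.Defs2

/-!
# Projects HUP and HPC, module F (the second moment `FMT` from Theorem P), F2: the primitive form
-/

open Finset Polynomial

namespace Pool.Agent.HUP

open Pool.Agent.HUK (GG DD DL DV FF bxS Bdd)

/-- **F2.** Proof. The ideal of `ℤ` generated by the `c i0 j` is generated by some `g0 > 0` (principal ideal domain;
`Submodule.IsPrincipal.generator`, up to sign): `g0 = ∑ c i0 j * y j` (`Ideal.mem_span_range_iff_exists_fun`) and
`c i0 j = g0 * π j`, so `∑ π j * y j = 1`. If all minors of `c i`, `c i0` vanish, then also `c i j * π j' = c i j' * π j`, and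
`c i j = ∑_j' c i j * π j' * y j' = π j * ∑_j' c i j' * y j'`. -/
theorem F2_prim {k d : ℕ} (c : Fin k → Fin d → ℤ) (i0 : Fin k) (hne : ∃ j, c i0 j ≠ 0) : ∃ π y : Fin d → ℤ,
    ∑ j, π j * y j = 1 ∧ 0 < lf c y i0 ∧ (∀ j, c i0 j = lf c y i0 * π j) ∧
    ∀ i, (∀ j j', c i j * c i0 j' = c i j' * c i0 j) → ∀ j, c i j = lf c y i * π j := by
  obtain ⟨j0, hj0⟩ := hne
  have hpr : (Ideal.span (Set.range (c i0))).IsPrincipal := inferInstance
  obtain ⟨a, ha⟩ := hpr.principal
  have ha' : Ideal.span (Set.range (c i0)) = Ideal.span {a} := ha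
  have h1 : ∀ j, a ∣ c i0 j := fun j => by
    rw [← Ideal.mem_span_singleton, ← ha']
    exact Ideal.subset_span (Set.mem_range_self j)
  have h2 : a ∈ Ideal.span (Set.range (c i0)) := by
    rw [ha']
    exact Ideal.mem_span_singleton_self a
  obtain ⟨z, hz⟩ := Ideal.mem_span_range_iff_exists_fun.mp h2
  have ha0 : a ≠ 0 := by
    rintro rfl
    exact hj0 (zero_dvd_iff.mp (h1 j0))
  have hlf : ∀ (y : Fin d → ℤ) (i : Fin k), lf c y i = ∑ j, c i j * y j := fun y i => rfl
  have hg : lf c (fun j => Int.sign a * z j) i0 = |a| := by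
    rw [hlf]
    calc ∑ j, c i0 j * (Int.sign a * z j) = Int.sign a * ∑ j, z j * c i0 j := by
          rw [mul_sum]
          exact sum_congr rfl fun j _ => by ring
      _ = |a| := by rw [hz, Int.sign_mul_self_eq_abs]
  have hg0 : 0 < |a| := abs_pos.mpr ha0
  have h3 : ∀ j, c i0 j = |a| * (c i0 j / |a|) := fun j =>
    (Int.mul_ediv_cancel' ((abs_dvd a _).mpr (h1 j))).symm
  have h4 : ∑ j, c i0 j / |a| * (Int.sign a * z j) = 1 := by
    have h5 : |a| * ∑ j, c i0 j / |a| * (Int.sign a * z j) = |a| * 1 := by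
      rw [mul_one, mul_sum]
      conv_rhs => rw [← hg, hlf]
      refine sum_congr rfl fun j _ => ?_
      rw [← mul_assoc, ← h3 j]
    exact mul_left_cancel₀ hg0.ne' h5
  refine ⟨fun j => c i0 j / |a|, fun j => Int.sign a * z j, h4, by rw [hg]; exact hg0,
    fun j => by rw [hg]; exact h3 j, ?_⟩
  intro i hi j
  have h6 : ∀ j', c i j * (c i0 j' / |a|) = c i j' * (c i0 j / |a|) := by
    intro j'
    have h7 := hi j j'
    rw [h3 j', h3 j] at h7
    have h8 : |a| * (c i j * (c i0 j' / |a|)) = |a| * (c i j' * (c i0 j / |a|)) := by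
      linear_combination h7
    exact mul_left_cancel₀ hg0.ne' h8
  calc c i j = c i j * ∑ j', c i0 j' / |a| * (Int.sign a * z j') := by rw [h4, mul_one]
    _ = ∑ j', c i j' * (Int.sign a * z j') * (c i0 j / |a|) := by
        rw [mul_sum]
        exact sum_congr rfl fun j' _ => by linear_combination (Int.sign a * z j') * h6 j'
    _ = lf c (fun j => Int.sign a * z j) i * (c i0 j / |a|) := by
        rw [hlf, sum_mul]

end Pool.Agent.HUP
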