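import Pool.Agent.Lib.HUP.Defs2

/-!
# Projects HUP and HPC, module F (the second moment `FMT` from Theorem P), F3: polynomials on residue classes
-/

open Finset Polynomial

namespace Pool.Agent.HUP

open Pool.Agent.HUK (GG DD DL DV FF bxS Bdd)

/-- **F3.** Proof. `P.comp (C Λ * X + C ρ) - C (P.eval ρ)` is divisible by `C Λ * X` (`Polynomial.sub_dvd_eval_sub` over the ring `ℤ[X]` or
`Polynomial.X_dvd_iff`-type arguments after `taylor`: `P.comp (C ρ + C Λ * X) = ∑_j (hasse coefficients) (Λ X)^j`), say `= C Λ * S`; with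
`Λ = g * g'` and `P.eval ρ + β = g * q + r`, `0 ≤ r < |g|` (`Int.emod`, `Int.ediv`): `P' = C g' * S + C q`. Degree at most `D`;
coefficient of `X^D` (`D ≥ 1`): that of the composition is `a Λ^D` (`Polynomial.coeff_comp_degree_mul_degree` or
`Polynomial.leadingCoeff_comp`, or induction). -/
theorem F3_pol (P : ℤ[X]) (D : ℕ) (hD : 1 ≤ D) (hP : P.natDegree = D) (g Λ : ℤ) (hg : g ≠ 0) (hΛ : Λ ≠ 0)
    (hdvd : g ∣ Λ) (ρ β : ℤ) : ∃ (P' : ℤ[X]) (r : ℤ), 0 ≤ r ∧ r < |g| ∧ P'.natDegree ≤ D ∧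
      P'.coeff D = P.leadingCoeff * (Λ / g) * Λ ^ (D - 1) ∧ ∀ m : ℤ, P.eval (Λ * m + ρ) + β = g * P'.eval m + r := by
  obtain ⟨g', hg'⟩ := hdvd
  set T : ℤ[X] := taylor ρ P with hT
  have hTd : T.natDegree = D := by rw [hT, natDegree_taylor, hP]
  have hTc : T.coeff D = P.leadingCoeff := by
    rw [hT, ← hP]; exact coeff_taylor_natDegree ρ P
  set S : ℤ[X] := T.divX.comp (C Λ * X) with hS
  have hSd : S.natDegree ≤ D - 1 := by
    refine (natDegree_comp_le (p := T.divX) (q := C Λ * X)).trans ?_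
    rw [natDegree_divX_eq_natDegree_tsub_one, hTd]
    have h0 : (C Λ * X : ℤ[X]).natDegree ≤ 1 := (natDegree_C_mul_le _ _).trans natDegree_X_le
    calc (D - 1) * (C Λ * X : ℤ[X]).natDegree ≤ (D - 1) * 1 := Nat.mul_le_mul_left _ h0
      _ = _ := mul_one _
  have hSc : S.coeff (D - 1) = P.leadingCoeff * Λ ^ (D - 1) := by
    rw [hS, comp_C_mul_X_coeff, coeff_divX, Nat.sub_add_cancel hD, hTc]
  have hdiv : Λ / g = g' := by rw [hg', Int.mul_ediv_cancel_left _ hg]
  refine ⟨C g' * S * X + C ((T.coeff 0 + β) / g), (T.coeff 0 + β) % g, Int.emod_nonneg _ hg, Int.emod_lt_abs _ hg, ?_, ?_, ?_⟩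
  · refine (natDegree_add_le _ _).trans (max_le ?_ ?_)
    · refine (natDegree_mul_le).trans ?_
      have h1 : (C g' * S).natDegree ≤ D - 1 := (natDegree_C_mul_le _ _).trans hSd
      have h2 : (X : ℤ[X]).natDegree ≤ 1 := natDegree_X_le
      omega
    · rw [natDegree_C]; omega
  · obtain ⟨E, rfl⟩ : ∃ E, D = E + 1 := ⟨D - 1, by omega⟩
    rw [coeff_add, coeff_mul_X, coeff_C_mul, coeff_C_succ, add_zero, hdiv]
    have := hSc
    simp only [Nat.add_sub_cancel] at this ⊢
    rw [this]; ring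
  · intro m
    have h1 : P.eval (Λ * m + ρ) = T.eval (Λ * m) := by
      rw [hT, taylor_eval]
    have h2 : T.eval (Λ * m) = T.divX.eval (Λ * m) * (Λ * m) + T.coeff 0 := by
      conv_lhs => rw [← divX_mul_X_add T]
      simp
    have h3 : S.eval m = T.divX.eval (Λ * m) := by
      rw [hS]; simp [eval_comp]
    have h4 := Int.mul_ediv_add_emod (T.coeff 0 + β) g
    simp only [eval_add, eval_mul, eval_C, eval_X, h1, h2, h3]
    rw [hg'] at *
    linear_combination -h4

end Pool.Agent.HUP
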