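import Pool.Agent.Lib.HUP.P3a

/-!
# Project HUP, chunk P3b (M): counting
-/

open Finset

namespace Pool.Agent.HUP

open Pool.Agent.HUK (DD DL DV bxS FF GG fw WT)

/-- A linear form `c ≠ 0` takes every value at most `∏_(j ≠ l) s j` times on the box, where `c l ≠ 0`: a point is determined by
the value and the coordinates `≠ l`. -/
theorem p3_fib {d : ℕ} (b : Fin d → ℤ) (s : Fin d → ℕ) (c : Fin d → ℤ) (l : Fin d) (hl : c l ≠ 0) (a : ℤ) :
    ((bZ b s).filter (fun z => lft c z = a)).card ≤ ∏ j ∈ univ.erase l, s j := by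
  classical
  have hcard : ((Fintype.piFinset fun j : Fin d => if j = l then ({0} : Finset ℤ) else Ico (b j) (b j + s j)).card) = ∏ j ∈ univ.erase l, s j := by
    rw [Fintype.card_piFinset, ← Finset.mul_prod_erase Finset.univ _ (Finset.mem_univ l)]
    have h1 : ∀ x ∈ Finset.univ.erase l, (if x = l then ({0} : Finset ℤ) else Ico (b x) (b x + s x)).card = s x := by
      intro x hx
      rw [if_neg (Finset.ne_of_mem_erase hx)]
      simp
    rw [Finset.prod_congr rfl h1]
    simp
  rw [← hcard]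
  refine Finset.card_le_card_of_injOn (fun z => Function.update z l 0) ?_ ?_
  · intro z hz
    simp only [Finset.coe_filter, Set.mem_ofPred_eq] at hz
    have hz1 := hz.1
    unfold bZ at hz1
    rw [Fintype.mem_piFinset] at hz1
    simp only [Finset.mem_coe]
    rw [Fintype.mem_piFinset]
    intro j
    by_cases hj : j = l
    · subst hj
      simp
    · rw [if_neg hj, Function.update_of_ne hj]
      exact hz1 j
  · intro z hz z' hz' h
    simp only [Finset.coe_filter, Set.mem_ofPred_eq] at hz hz'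
    have h1 : ∀ j, j ≠ l → z j = z' j := by
      intro j hj
      have h2 := congrFun h j
      simp only [Function.update_of_ne hj] at h2
      exact h2
    have h2 : lft c z = lft c z' := by rw [hz.2, hz'.2]
    unfold lft at h2
    rw [← Finset.add_sum_erase Finset.univ _ (Finset.mem_univ l), ← Finset.add_sum_erase Finset.univ (fun j => c j * z' j) (Finset.mem_univ l)] at h2
    have h3 : ∑ x ∈ Finset.univ.erase l, c x * z x = ∑ x ∈ Finset.univ.erase l, c x * z' x := by
      refine Finset.sum_congr rfl fun x hx => ?_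
      rw [h1 x (Finset.ne_of_mem_erase hx)]
    rw [h3] at h2
    have h4 : c l * z l = c l * z' l := by linarith
    have h5 := mul_left_cancel₀ hl h4
    funext j
    by_cases hj : j = l
    · subst hj
      exact h5
    · exact h1 j hj

/-- Sums over the box (`Finset.sum_fiberwise_of_maps_to` after dropping the terms with `f = 0`, then `p3_fib`;
`∏_(j ≠ l) s j = (∏ s j) / s l ≤ (∏ s j) / T`). -/
theorem p3_box {d : ℕ} (T Y : ℕ) (hT : 1 ≤ T) (b : Fin d → ℤ) (s : Fin d → ℕ) (c : Fin d → ℤ) (l : Fin d) (hs : T ≤ s l)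
    (hl : c l ≠ 0) (f : ℤ → ℝ) (hf : ∀ y, 0 ≤ f y) (hf0 : ∀ y, y ∉ Ico (-(Y : ℤ)) Y → f y = 0) :
    ∑ z ∈ bZ b s, f (lft c z) ≤ (∏ j, (s j : ℝ)) / T * ∑ y ∈ Ico (-(Y : ℤ)) Y, f y := by
  classical
  have h1 : ∀ z ∈ bZ b s, f (lft c z) = ∑ y ∈ Ico (-(Y : ℤ)) Y, if lft c z = y then f y else 0 := by
    intro z _
    rw [Finset.sum_ite_eq]
    split_ifs with h
    · rfl
    · exact hf0 _ h
  rw [Finset.sum_congr rfl h1, Finset.sum_comm, Finset.mul_sum]
  refine Finset.sum_le_sum fun y _ => ?_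
  rw [← Finset.sum_filter, Finset.sum_const, nsmul_eq_mul]
  refine mul_le_mul_of_nonneg_right ?_ (hf y)
  have h2 := p3_fib b s c l hl y
  have h3 : (((bZ b s).filter (fun z => lft c z = y)).card : ℝ) ≤ ∏ j ∈ univ.erase l, (s j : ℝ) := by
    exact_mod_cast h2
  refine le_trans h3 ?_
  have hT0 : (0 : ℝ) < T := by exact_mod_cast hT
  rw [le_div_iff₀ hT0, ← Finset.mul_prod_erase Finset.univ _ (Finset.mem_univ l), mul_comm]
  refine mul_le_mul_of_nonneg_right (by exact_mod_cast hs) (Finset.prod_nonneg fun i _ => Nat.cast_nonneg _)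

/-- Dilated boxes: `j ↦ (Λ i j i)` is injective, and the terms outside `bxS r H` vanish. -/
theorem p3_dil {r : ℕ} (T H : ℕ) (Λ : Fin r → ℤ) (hΛ : ∀ i, Λ i ≠ 0) (f : (Fin r → ℤ) → ℝ) (hf : ∀ h, 0 ≤ f h)
    (hf0 : ∀ h, h ∉ bxS r H → f h = 0) : ∑ j ∈ bxS r T, f (fun i => Λ i * j i) ≤ ∑ h ∈ bxS r H, f h := by
  classical
  have hinj : Function.Injective (fun (j : Fin r → ℤ) (i : Fin r) => Λ i * j i) := by
    intro j j' h
    funext i
    exact mul_left_cancel₀ (hΛ i) (congrFun h i)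
  have h1 : ∑ j ∈ bxS r T, f (fun i => Λ i * j i) = ∑ h ∈ (bxS r T).image (fun (j : Fin r → ℤ) (i : Fin r) => Λ i * j i), f h := by
    rw [Finset.sum_image]
    intro a _ b _ hab
    exact hinj hab
  rw [h1]
  have h2 : ∑ h ∈ (bxS r T).image (fun (j : Fin r → ℤ) (i : Fin r) => Λ i * j i), f h =
      ∑ h ∈ ((bxS r T).image (fun (j : Fin r → ℤ) (i : Fin r) => Λ i * j i)).filter (fun h => h ∈ bxS r H), f h := by
    symm
    refine Finset.sum_filter_of_ne fun h _ hne => ?_
    by_contra hh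
    exact hne (hf0 h hh)
  rw [h2]
  refine Finset.sum_le_sum_of_subset_of_nonneg ?_ fun h _ _ => hf h
  intro h hh
  exact (Finset.mem_filter.1 hh).2

/-- The enlarged box: cardinality and shifts (only the sides in the directions of the `v i` are large). -/
theorem p3_big {d r : ℕ} (V T : ℕ) (b : Fin d → ℤ) (s : Fin d → ℕ) (v : Fin r → Fin d → ℤ)
    (hs : ∀ i l, v i l ≠ 0 → T ≤ s l) (hV : ∀ i l, |v i l| ≤ V) :
    (((Fintype.piFinset fun j : Fin d => Ico (b j - V * s j) (b j + (V + 1) * s j)).card : ℝ) =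
      (2 * V + 1 : ℝ) ^ d * ∏ j, (s j : ℝ)) ∧
    ∀ i z, ∀ h : ℕ, h < T → z + h • v i ∈ bZ b s →
      z ∈ Fintype.piFinset fun j : Fin d => Ico (b j - V * s j) (b j + (V + 1) * s j) := by
  constructor
  · rw [Fintype.card_piFinset]
    have h1 : ∀ j : Fin d, (Ico (b j - V * s j) (b j + ((V : ℤ) + 1) * s j)).card = (2 * V + 1) * s j := by
      intro j
      rw [Int.card_Ico]
      have h2 : (b j + ((V : ℤ) + 1) * s j - (b j - V * s j)) = (((2 * V + 1) * s j : ℕ) : ℤ) := by
        push_cast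
        ring
      rw [h2, Int.toNat_natCast]
    rw [Finset.prod_congr rfl fun j _ => h1 j, Finset.prod_mul_distrib]
    simp
  · intro i z h hT hz
    unfold bZ at hz
    rw [Fintype.mem_piFinset] at hz ⊢
    intro l
    have h1 := Finset.mem_Ico.1 (hz l)
    have h1' : (z + h • v i) l = z l + (h : ℤ) * v i l := by simp
    rw [h1'] at h1
    have h2 := abs_le.1 (hV i l)
    have h3 : (0 : ℤ) ≤ (V : ℤ) := Int.natCast_nonneg V
    have h4 : (0 : ℤ) ≤ (h : ℤ) := Int.natCast_nonneg h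
    have h9 : (h : ℤ) * v i l ≤ V * s l ∧ -(V * s l : ℤ) ≤ (h : ℤ) * v i l := by
      by_cases h0 : v i l = 0
      · rw [h0, mul_zero]
        constructor <;> [skip; rw [neg_nonpos]] <;> positivity
      · have h5 : (h : ℤ) ≤ s l := by exact_mod_cast hT.le.trans (hs i l h0)
        constructor <;> nlinarith
    have h6 := h9.1
    have h7 := h9.2
    rw [Finset.mem_Ico]
    constructor
    · linarith [h1.1]
    · have h8 : (((V : ℤ) + 1) * s l) = V * s l + s l := by ring
      rw [h8]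
      linarith [h1.2]

/-- The weights are between `0` and `1`. -/
theorem p3_WT (H : ℕ) {r : ℕ} (j : Fin r → ℤ) : 0 ≤ WT H j ∧ WT H j ≤ 1 := by
  have h1 : ∀ t : ℤ, 0 ≤ fw H t ∧ fw H t ≤ 1 := by
    intro t
    unfold fw
    refine ⟨le_max_left _ _, max_le zero_le_one ?_⟩
    have h2 : 0 ≤ |(t : ℝ)| / (H : ℝ) := by positivity
    linarith
  unfold WT
  exact ⟨Finset.prod_nonneg fun i _ => pow_nonneg (h1 _).1 _, Finset.prod_le_one (fun i _ => pow_nonneg (h1 _).1 _) fun i _ => pow_le_one₀ (h1 _).1 (h1 _).2⟩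

end Pool.Agent.HUP
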