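import Pool.Agent.Lib.HUP.Defs2
import Pool.Agent.Lib.HUP.P3b

/-!
# Projects HUP and HPC, module F (the second moment `FMT` from Theorem P), F4: grouping by the value of the form
-/

open Finset Polynomial

namespace Pool.Agent.HUP

open Pool.Agent.HUK (GG DD DL DV FF bxS Bdd)

theorem f4_card {d : ℕ} (π : Fin d → ℤ) (b : Fin d → ℤ) (s : Fin d → ℕ) :
    ((((tb b s).image fun t => ∑ j, π j * t j).card : ℕ) : ℤ) ≤ ∑ j, |π j| * s j + 1 := by
  have hsub : (tb b s).image (fun t => ∑ j, π j * t j) ⊆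
      Icc (∑ j, π j * b j - ∑ j, max (-π j) 0 * s j) (∑ j, π j * b j + ∑ j, max (π j) 0 * s j) := by
    intro u hu
    rw [Finset.mem_image] at hu
    obtain ⟨t, ht, rfl⟩ := hu
    unfold tb at ht
    rw [Fintype.mem_piFinset] at ht
    have h1 : ∀ j, π j * b j - max (-π j) 0 * s j ≤ π j * t j ∧ π j * t j ≤ π j * b j + max (π j) 0 * s j := by
      intro j
      have h2 := ht j
      rw [mem_Ico] at h2
      have h3 : 0 ≤ t j - b j := by linarith [h2.1]
      have h4 : t j - b j ≤ s j := by linarith [h2.2]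
      constructor
      · have h5 : -π j * (t j - b j) ≤ max (-π j) 0 * s j :=
          (mul_le_mul_of_nonneg_right (le_max_left _ _) h3).trans (mul_le_mul_of_nonneg_left h4 (le_max_right _ _))
        linarith
      · have h5 : π j * (t j - b j) ≤ max (π j) 0 * s j :=
          (mul_le_mul_of_nonneg_right (le_max_left _ _) h3).trans (mul_le_mul_of_nonneg_left h4 (le_max_right _ _))
        linarith
    rw [mem_Icc]
    constructor
    · rw [← Finset.sum_sub_distrib]
      exact Finset.sum_le_sum fun j _ => (h1 j).1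
    · rw [← Finset.sum_add_distrib]
      exact Finset.sum_le_sum fun j _ => (h1 j).2
  have h6 := Finset.card_le_card hsub
  rw [Int.card_Icc] at h6
  have h7 : ∑ j, |π j| * (s j : ℤ) = ∑ j, max (-π j) 0 * (s j : ℤ) + ∑ j, max (π j) 0 * (s j : ℤ) := by
    rw [← Finset.sum_add_distrib]
    refine Finset.sum_congr rfl fun j _ => ?_
    rw [← add_mul]
    congr 1
    rcases le_total 0 (π j) with h | h
    · rw [abs_of_nonneg h, max_eq_right (by linarith), max_eq_left h]
      ring
    · rw [abs_of_nonpos h, max_eq_left (by linarith), max_eq_right h]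
      ring
  have h8 : 0 ≤ ∑ j, |π j| * (s j : ℤ) := Finset.sum_nonneg fun j _ => mul_nonneg (abs_nonneg _) (Nat.cast_nonneg _)
  rw [h7] at h8 ⊢
  omega

/-- **F4.** Proof. `U` = the image of the box under `t ↦ ∑ π j t j`, contained in an interval of length `∑ |π j| s j`.
`h' u = (∑_{t ∈ box, value u} h t) / ∏_{j ≠ l} s j` (`0` if the product is `0`: then the box is empty, or `d`…), at most `1` in absolute
value by `p3_fib` (`HUP/P3b.lean`; `bZ` is `tb`). `Finset.sum_fiberwise_of_maps_to`. -/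
theorem F4_group {d : ℕ} (π : Fin d → ℤ) (l : Fin d) (hl : π l ≠ 0) (b : Fin d → ℤ) (s : Fin d → ℕ) :
    ∃ U : Finset ℤ, (U.card : ℤ) ≤ ∑ j, |π j| * s j + 1 ∧ ∀ h : (Fin d → ℤ) → ℂ, (∀ t, ‖h t‖ ≤ 1) →
      ∃ h' : ℤ → ℂ, (∀ u, ‖h' u‖ ≤ 1) ∧ (∀ u, u ∉ U → h' u = 0) ∧ ∀ Φ : ℤ → ℂ,
        ∑ t ∈ tb b s, h t * Φ (∑ j, π j * t j) =
          ((∏ j ∈ univ.erase l, s j : ℕ) : ℂ) * ∑ u ∈ U, h' u * Φ u := by
  have h0 := f4_card π b s
  set U : Finset ℤ := (tb b s).image fun t => ∑ j, π j * t j with hU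
  refine ⟨U, h0, ?_⟩
  intro h hh
  refine ⟨fun u => (∑ t ∈ (tb b s).filter (fun t => ∑ j, π j * t j = u), h t) / ((∏ j ∈ univ.erase l, s j : ℕ) : ℂ), ?_, ?_, ?_⟩
  · intro u
    rw [norm_div, RCLike.norm_natCast]
    refine div_le_one_of_le₀ ?_ (Nat.cast_nonneg _)
    refine (norm_sum_le _ _).trans ?_
    refine (Finset.sum_le_card_nsmul _ _ 1 fun t _ => hh t).trans ?_
    rw [nsmul_eq_mul, mul_one]
    exact_mod_cast p3_fib b s π l hl u
  · intro u hu
    have h1 : (tb b s).filter (fun t => ∑ j, π j * t j = u) = ∅ := by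
      rw [Finset.filter_eq_empty_iff]
      intro t ht he
      exact hu (hU ▸ Finset.mem_image.2 ⟨t, ht, he⟩)
    simp only [h1, Finset.sum_empty, zero_div]
  · intro Φ
    rw [← Finset.sum_fiberwise_of_maps_to (s := tb b s) (t := U)
      (g := fun t => ∑ j, π j * t j) (fun t ht => hU ▸ Finset.mem_image_of_mem _ ht), Finset.mul_sum]
    refine Finset.sum_congr rfl fun u _ => ?_
    have h1 : ∑ t ∈ (tb b s).filter (fun t => ∑ j, π j * t j = u), h t * Φ (∑ j, π j * t j) =
        (∑ t ∈ (tb b s).filter (fun t => ∑ j, π j * t j = u), h t) * Φ u := by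
      rw [Finset.sum_mul]
      refine Finset.sum_congr rfl fun t ht => ?_
      rw [(Finset.mem_filter.1 ht).2]
    rw [h1]
    by_cases hP : (∏ j ∈ univ.erase l, s j) = 0
    · have h2 : tb b s = ∅ := by
        rw [Finset.prod_eq_zero_iff] at hP
        obtain ⟨j, _, hj⟩ := hP
        rw [Finset.eq_empty_iff_forall_notMem]
        intro t ht
        unfold tb at ht
        rw [Fintype.mem_piFinset] at ht
        have h5 := ht j
        rw [hj, mem_Ico] at h5
        push_cast at h5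
        omega
      rw [h2]
      simp
    · have h3 : ((∏ j ∈ univ.erase l, s j : ℕ) : ℂ) ≠ 0 := Nat.cast_ne_zero.2 hP
      field_simp

end Pool.Agent.HUP
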