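import Pool.Agent.Lib.HUP.Defs2
import Pool.Agent.Lib.HUP.F2
import Pool.Agent.Lib.HUP.F3
import Pool.Agent.Lib.HUP.F4
import Pool.Agent.Lib.HPC.Defs
import Pool.Agent.Lib.HUK.P1
import Pool.Agent.Lib.HUK.V1

/-!
# Projects HUP and HPC, module F (the second moment `FMT` from Theorem P), F5: the bilinear bound inside a block
-/

open Finset Polynomial

namespace Pool.Agent.HUP

open Pool.Agent.HUK (GG DD DL DV FF bxS Bdd)

/-- The leading coefficients after the substitution are not zero. Proof. `π, y` from `F2_prim`, `g_i = lf c y i` (nonzero for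
`i ∈ Kz`). If `g_i0 a_i Λ/g_i … = a_i0 …`, i.e. `a_i * lf c y i0 = a_i0 * lf c y i`, then `x = g_i0`, `x' = g_i` contradict `hD.ind`
(`x * c i j = g_i0 g_i π j = x' * c i0 j`). -/
theorem F5_ne {k d : ℕ} (c : Fin k → Fin d → ℤ) (e : Fin d → ℕ) (D : Fin k → ℕ) (a : Fin k → ℤ) (hD : Dat c e D a)
    (i0 i : Fin k) (hi : i ∈ Kz c D i0) (hii : i ≠ i0) (π y : Fin d → ℤ) (h1 : 0 < lf c y i0)
    (h2 : ∀ j, c i0 j = lf c y i0 * π j) (h3 : ∀ j, c i j = lf c y i * π j) :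
    lf c y i ≠ 0 ∧ a i * lf c y i0 ≠ a i0 * lf c y i := by
  have hK : D i = D i0 := by
    unfold Kz at hi
    rw [Finset.mem_filter] at hi
    exact hi.2.1
  constructor
  · intro h0
    obtain ⟨j, hj⟩ := hD.ne i
    apply hj
    rw [h3 j, h0, zero_mul]
  · intro h0
    have h4 := hD.ind i i0 hii hK (lf c y i0) (lf c y i) (by linarith) (fun j => by rw [h3 j, h2 j]; ring)
    exact h1.ne' h4.1

/-- One factor: substitution. -/
theorem f5_term {k : ℕ} (K : Finset (Fin k)) (i0 : Fin k) (hi0 : i0 ∈ K) (g : Fin k → ℤ) (Pt : Fin k → ℤ[X])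
    (rr : Fin k → ℤ) (H : Fin k → ℤ → ℂ) (U : Finset ℤ) (h' : ℤ → ℂ) (hU : ∀ u, u ∉ U → h' u = 0) (t m : ℤ) :
    H i0 (rr i0 + g i0 * t) * ∏ j : Fin (k + 1), (Fin.cons h' (fun i => if i ∈ K.erase i0 then (fun x => H i (g i * x + rr i))
      else fun x => if x ∈ U then 1 else 0) : Fin (k + 1) → ℤ → ℂ) j
        (t + ((Fin.cons (-Pt i0) (fun i => if i ∈ K.erase i0 then Pt i - Pt i0 else -Pt i0) : Fin (k + 1) → ℤ[X]) j).eval m) =
      h' (t - (Pt i0).eval m) * ∏ i ∈ K, H i (g i * ((Pt i).eval m + (t - (Pt i0).eval m)) + rr i) := by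
  rw [Fin.prod_univ_succ, Fin.cons_zero, Fin.cons_zero]
  simp only [Fin.cons_succ]
  rw [Polynomial.eval_neg, ← sub_eq_add_neg]
  by_cases hu : t - (Pt i0).eval m ∈ U
  · have h1 : ∀ i : Fin k, (if i ∈ K.erase i0 then (fun x => H i (g i * x + rr i))
        else fun x => if x ∈ U then (1 : ℂ) else 0) (t + (if i ∈ K.erase i0 then Pt i - Pt i0 else -Pt i0).eval m) =
        if i ∈ K.erase i0 then H i (g i * ((Pt i).eval m + (t - (Pt i0).eval m)) + rr i) else 1 := by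
      intro i
      by_cases hi : i ∈ K.erase i0
      · rw [if_pos hi, if_pos hi, if_pos hi, Polynomial.eval_sub]
        congr 2
        ring
      · rw [if_neg hi, if_neg hi, if_neg hi, Polynomial.eval_neg, ← sub_eq_add_neg, if_pos hu]
    rw [Finset.prod_congr rfl fun i _ => h1 i, Finset.prod_ite_mem, Finset.univ_inter,
      ← Finset.mul_prod_erase K _ hi0]
    have h2 : rr i0 + g i0 * t = g i0 * ((Pt i0).eval m + (t - (Pt i0).eval m)) + rr i0 := by ring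
    rw [h2]
    ring
  · rw [hU _ hu]
    ring

/-- The sum over `u` as a sum over `t`. -/
theorem f5_sum (W U : Finset ℤ) (p : ℤ) (T : ℤ → ℂ) (h1 : ∀ u, u ∉ U → T u = 0) (h2 : ∀ u, u + p ∉ W → T u = 0) :
    ∑ t ∈ W, T (t - p) = ∑ u ∈ U, T u := by
  have h3 : ∑ t ∈ W, T (t - p) = ∑ u ∈ W.image (fun t => t - p), T u := by
    rw [Finset.sum_image]
    intro x _ y _ hxy
    exact sub_left_inj.mp hxy
  rw [h3]
  have h4 : ∑ u ∈ W.image (fun t => t - p), T u = ∑ u ∈ W.image (fun t => t - p) ∪ U, T u := by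
    refine Finset.sum_subset Finset.subset_union_left fun u _ hu => h2 u fun h5 => hu ?_
    exact Finset.mem_image.mpr ⟨u + p, h5, by ring⟩
  have h5 : ∑ u ∈ U, T u = ∑ u ∈ W.image (fun t => t - p) ∪ U, T u := by
    refine Finset.sum_subset Finset.subset_union_right fun u _ hu => h1 u hu
  rw [h4, h5]

/-- The set of arguments of a coordinate. -/
theorem f5_card (A : ℕ) (g r : ℤ) (hg : g ≠ 0) (H : ℤ → ℂ) (hH : ∀ m, m ∉ Ico (-(A : ℤ)) (A : ℤ) → H m = 0) :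
    ((Ico (-(A : ℤ)) (A : ℤ)).image fun m => (m - r) / g).card ≤ 2 * A ∧
      ∀ t, t ∉ ((Ico (-(A : ℤ)) (A : ℤ)).image fun m => (m - r) / g) → H (g * t + r) = 0 := by
  constructor
  · refine Finset.card_image_le.trans ?_
    rw [Int.card_Ico]
    omega
  · intro t ht
    apply hH
    intro h1
    apply ht
    refine Finset.mem_image.mpr ⟨g * t + r, h1, ?_⟩
    rw [add_sub_cancel_right]
    exact Int.mul_ediv_cancel_left t hg

/-- **F5a.** One residue class `n = Λ m + ρ`. Everything about forms is gone: `u` is the value of the primitive form. `Pt i`, `rr i`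
are the polynomials and remainders of `F3_pol`. Proof. `ThmPZ D0 (k+1) r` with `r = Fin.cons (-α i0) (fun i => if i ∈ K.erase i0 then α i - α i0 else
-α i0)` (all nonzero), `R = Fin.cons (-Pt i0) (fun i => if i ∈ K.erase i0 then Pt i - Pt i0 else -Pt i0)`, the functions
`f0 t = H i0 (g i0 * t + rr i0)`, `f = Fin.cons h' (fun i => if i ∈ K.erase i0 then fun t => H i (g i * t + rr i) else indicator of U)`, supports `U`,
and `{t | g i * t + rr i ∈ window}` (at most `2 C0 X^D0` elements), constant `4 C0 + C1` for both. The substitution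
`t = u + Pt i0 (m)` for each `m`. `f0` is supported in the window and `GG … f0 ≤ GG … (H i0)`: `V1_dil`, `V1_res` of `HUK/V1.lean`
(`g i0 > 0`, `0 ≤ rr i0 < g i0`), `GG_scale`. -/
theorem F5_class (D0 k : ℕ) (hD0 : 1 ≤ D0) (K : Finset (Fin k)) (i0 : Fin k) (hi0 : i0 ∈ K) (g α : Fin k → ℤ)
    (hg : ∀ i ∈ K, g i ≠ 0) (hg0 : 0 < g i0) (hα : ∀ i ∈ K, i ≠ i0 → α i ≠ α i0) (hα0 : α i0 ≠ 0) (C0 : ℕ)
    (hTP : ∀ r : Fin (k + 1) → ℤ, (∀ j, r j ≠ 0) → HPC.ThmPZ D0 (k + 1) r) :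
    ∃ s : ℕ, 2 ≤ s ∧ ∀ κ : ℝ, 0 < κ → ∃ δ : ℝ, 0 < δ ∧ ∃ X0 : ℕ, ∀ X : ℕ, X0 ≤ X →
    ∀ (Pt : Fin k → ℤ[X]) (rr : Fin k → ℤ), (∀ i ∈ K, (Pt i).natDegree ≤ D0 ∧ (Pt i).coeff D0 = α i) →
    (∀ i ∈ K, 0 ≤ rr i ∧ rr i < |g i|) → ∀ m0 L : ℕ, m0 + L ≤ C0 * X →
    ∀ H : Fin k → ℤ → ℂ, (∀ i m, ‖H i m‖ ≤ 1) →
    (∀ (i : Fin k) (m : ℤ), m ∉ Ico (-((C0 * X ^ D0 : ℕ) : ℤ)) ((C0 * X ^ D0 : ℕ) : ℤ) → H i m = 0) →
    ∀ (U : Finset ℤ) (h' : ℤ → ℂ), U.card ≤ C0 * X ^ D0 → (∀ u, ‖h' u‖ ≤ 1) → (∀ u, u ∉ U → h' u = 0) →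
    GG (C0 * X ^ D0) s (H i0) ≤ (X : ℝ) ^ ((D0 : ℝ) * (s + 1) - κ) →
    ‖∑ m ∈ Ico m0 (m0 + L), ∑ u ∈ U, h' u * ∏ i ∈ K, H i (g i * ((Pt i).eval (m : ℤ) + u) + rr i)‖ ≤
      (X : ℝ) ^ ((D0 : ℝ) + 1 - δ) := by
  have hr : ∀ j : Fin (k + 1), (Fin.cons (-α i0) (fun i => if i ∈ K.erase i0 then α i - α i0 else -α i0) :
      Fin (k + 1) → ℤ) j ≠ 0 := by
    intro j
    refine Fin.cases ?_ (fun i => ?_) j
    · rw [Fin.cons_zero]
      exact neg_ne_zero.mpr hα0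
    · rw [Fin.cons_succ]
      split_ifs with h1
      · rw [Finset.mem_erase] at h1
        exact sub_ne_zero.mpr (hα i h1.2 h1.1)
      · exact neg_ne_zero.mpr hα0
  obtain ⟨s, hs, hP⟩ := hTP _ hr
  refine ⟨s, hs, fun κ hκ => ?_⟩
  obtain ⟨δ, hδ, X0, hX0⟩ := hP (2 * C0) κ hκ
  refine ⟨δ, hδ, X0, fun X hX Pt rr hPt hrr m0 L hmL H hH hHs U h' hU hh' hhU hGG => ?_⟩
  rcases Nat.eq_zero_or_pos (C0 * X ^ D0) with hA | hA
  · have h1 : U = ∅ := by
      rw [← Finset.card_eq_zero]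
      omega
    rw [h1]
    simp only [Finset.sum_empty, Finset.sum_const_zero, norm_zero]
    positivity
  have hA2 : C0 * X ^ D0 ≤ 2 * C0 * X ^ D0 := by
    rw [mul_assoc]
    omega
  obtain ⟨G, hG⟩ : ∃ G : ℕ, g i0 = G := ⟨(g i0).toNat, by omega⟩
  have hr0 := hrr i0 hi0
  have hB : Bdd (C0 * X ^ D0) (H i0) := ⟨hH i0, fun y hy => hHs i0 y hy⟩
  have hdil := HUK.V1_dil (C0 * X ^ D0) s G hA (by omega) (by omega) (rr i0) hr0.1
    (by rw [abs_of_pos hg0] at hr0; rw [← hG]; exact hr0.2) (H i0) hB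
  rw [← hG] at hdil
  have hBd : Bdd (2 * C0 * X ^ D0) (fun t => H i0 (rr i0 + g i0 * t)) := by
    refine ⟨hdil.1.le, fun y hy => hdil.1.sup y fun h => hy ?_⟩
    rw [Finset.mem_Ico] at h ⊢
    have h3 : ((C0 * X ^ D0 : ℕ) : ℤ) ≤ ((2 * C0 * X ^ D0 : ℕ) : ℤ) := by exact_mod_cast hA2
    constructor <;> linarith [h.1, h.2]
  have hGf : GG (2 * C0 * X ^ D0) s (fun t => H i0 (rr i0 + g i0 * t)) ≤ (X : ℝ) ^ ((D0 : ℝ) * (s + 1) - κ) := by
    rw [HUK.GG_scale (C0 * X ^ D0) (2 * C0 * X ^ D0) s hA2 _ hdil.1.sup, hdil.2]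
    have h4 := HUK.V1_res (C0 * X ^ D0) s G hs (by omega) (rr i0) (H i0) hB.sup
    rw [← hG] at h4
    exact h4.trans hGG
  have key := hX0 X hX (Fin.cons (-Pt i0) (fun i => if i ∈ K.erase i0 then Pt i - Pt i0 else -Pt i0)) (by
      intro j
      refine Fin.cases ?_ (fun i => ?_) j
      · rw [Fin.cons_zero, Fin.cons_zero, Polynomial.natDegree_neg, Polynomial.coeff_neg, (hPt i0 hi0).2]
        exact ⟨(hPt i0 hi0).1, rfl⟩
      · rw [Fin.cons_succ, Fin.cons_succ]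
        split_ifs with h1
        · have h2 := hPt i (Finset.mem_of_mem_erase h1)
          rw [Polynomial.coeff_sub, (hPt i0 hi0).2, h2.2]
          exact ⟨(Polynomial.natDegree_sub_le _ _).trans (max_le h2.1 (hPt i0 hi0).1), rfl⟩
        · rw [Polynomial.natDegree_neg, Polynomial.coeff_neg, (hPt i0 hi0).2]
          exact ⟨(hPt i0 hi0).1, rfl⟩) m0 L (hmL.trans (by nlinarith))
    (fun t => H i0 (rr i0 + g i0 * t))
    (Fin.cons h' (fun i => if i ∈ K.erase i0 then (fun x => H i (g i * x + rr i)) else fun x => if x ∈ U then 1 else 0))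
    (Fin.cons U (fun i => if i ∈ K.erase i0 then (Ico (-((C0 * X ^ D0 : ℕ) : ℤ)) ((C0 * X ^ D0 : ℕ) : ℤ)).image
      (fun m => (m - rr i) / g i) else U)) hBd (by
      intro j y
      refine Fin.cases ?_ (fun i => ?_) j
      · rw [Fin.cons_zero]
        exact hh' y
      · rw [Fin.cons_succ]
        split_ifs with h1
        · exact hH i _
        · dsimp only
          split_ifs
          · rw [norm_one]
          · rw [norm_zero]
            exact zero_le_one) (by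
      intro j
      refine Fin.cases ?_ (fun i => ?_) j
      · rw [Fin.cons_zero]
        exact hU.trans hA2
      · rw [Fin.cons_succ]
        split_ifs with h1
        · rw [mul_assoc 2 C0]
          exact (f5_card (C0 * X ^ D0) (g i) (rr i) (hg i (Finset.mem_of_mem_erase h1)) (H i) (hHs i)).1
        · exact hU.trans hA2) (by
      intro j
      refine Fin.cases ?_ (fun i => ?_) j
      · rw [Fin.cons_zero, Fin.cons_zero]
        exact hhU
      · rw [Fin.cons_succ, Fin.cons_succ]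
        split_ifs with h1
        · exact (f5_card (C0 * X ^ D0) (g i) (rr i) (hg i (Finset.mem_of_mem_erase h1)) (H i) (hHs i)).2
        · intro y hy
          dsimp only
          rw [if_neg hy]) hGf
  refine le_trans (le_of_eq ?_) key
  congr 1
  refine Eq.trans ?_ Finset.sum_comm
  refine Finset.sum_congr rfl fun m _ => ?_
  rw [Finset.sum_congr rfl fun t _ => f5_term K i0 hi0 g Pt rr H U h' hhU t m]
  symm
  refine f5_sum _ U ((Pt i0).eval (m : ℤ)) (fun u => h' u * ∏ i ∈ K, H i (g i * ((Pt i).eval (m : ℤ) + u) + rr i)) ?_ ?_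
  · intro u hu
    rw [hhU u hu, zero_mul]
  · intro u hu
    have h1 : H i0 (g i0 * ((Pt i0).eval (m : ℤ) + u) + rr i0) = 0 := by
      have h2 := hBd.sup _ hu
      rw [← h2]
      congr 1
      ring
    rw [Finset.prod_eq_zero hi0 h1, mul_zero]

end Pool.Agent.HUP
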