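import Pool.Agent.Lib.HUP.Defs2
import Pool.Agent.Lib.HUP.F5

/-!
# Projects HUP and HPC, module F (the second moment `FMT` from Theorem P), F5b: the bilinear bound inside a block
-/

open Finset Polynomial

namespace Pool.Agent.HUP

open Pool.Agent.HUK (GG DD DL DV FF bxS Bdd)

theorem f5b_iff (n m ρ Λ : ℕ) (h : ρ < Λ) : (n + (Λ - 1 - ρ)) / Λ ≤ m ↔ n ≤ Λ * m + ρ := by
  have h0 : 0 < Λ := by omega
  have h1 : (n + (Λ - 1 - ρ)) / Λ < m + 1 ↔ n + (Λ - 1 - ρ) < (m + 1) * Λ := Nat.div_lt_iff_lt_mul h0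
  have h2 : (m + 1) * Λ = Λ * m + Λ := by ring
  rw [h2] at h1
  omega

theorem f5b_split (Λ : ℕ) (hΛ : 0 < Λ) (n0 n1 : ℕ) (F : ℕ → ℂ) :
    ∑ n ∈ Ico n0 n1, F n =
      ∑ ρ ∈ range Λ, ∑ m ∈ Ico ((n0 + (Λ - 1 - ρ)) / Λ) ((n1 + (Λ - 1 - ρ)) / Λ), F (Λ * m + ρ) := by
  rw [← Finset.sum_fiberwise_of_maps_to (s := Ico n0 n1) (t := range Λ) (g := fun n => n % Λ)
    (fun n _ => mem_range.2 (Nat.mod_lt _ hΛ))]
  refine sum_congr rfl fun ρ hρ => ?_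
  rw [mem_range] at hρ
  refine Finset.sum_nbij' (fun n => n / Λ) (fun m => Λ * m + ρ) ?_ ?_ ?_ ?_ ?_
  · intro n hn
    rw [mem_filter, mem_Ico] at hn
    obtain ⟨⟨h1, h2⟩, h3⟩ := hn
    have h4 : Λ * (n / Λ) + ρ = n := by
      rw [← h3]
      exact Nat.div_add_mod n Λ
    rw [mem_Ico, f5b_iff _ _ _ _ hρ, ← not_le, f5b_iff _ _ _ _ hρ, h4]
    omega
  · intro m hm
    rw [mem_Ico, f5b_iff _ _ _ _ hρ, ← not_le, f5b_iff _ _ _ _ hρ] at hm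
    rw [mem_filter, mem_Ico]
    refine ⟨⟨hm.1, by omega⟩, ?_⟩
    rw [Nat.mul_add_mod]
    exact Nat.mod_eq_of_lt hρ
  · intro n hn
    rw [mem_filter, mem_Ico] at hn
    obtain ⟨⟨h1, h2⟩, h3⟩ := hn
    show Λ * (n / Λ) + ρ = n
    rw [← h3]
    exact Nat.div_add_mod n Λ
  · intro m hm
    show (Λ * m + ρ) / Λ = m
    rw [Nat.mul_add_div hΛ, Nat.div_eq_of_lt hρ, add_zero]
  · intro n hn
    rw [mem_filter, mem_Ico] at hn
    obtain ⟨⟨h1, h2⟩, h3⟩ := hn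
    show F n = F (Λ * (n / Λ) + ρ)
    congr 1
    rw [← h3]
    exact (Nat.div_add_mod n Λ).symm

/-- **F5.** Proof. `π, y` by `F2_prim` for `i0`, `g i = lf c y i`, `Λ = ∏_{i ∈ Kz} |g i|`, `α i = a i * (Λ / g i) * Λ^(D0-1)`. The sum over
`t` by `F4_group` (`l` with `π l ≠ 0`, `e l = D i0`; `∏_{j ≠ l} σ j ≤ C0^d X^(∑ e - D i0)`; `|π j| σ j`: `π j ≠ 0` implies
`e j = D i0`, so `U.card ≤ C1 X^(D i0)`), and `P_i(n) + (β_i + lf c t i) = P_i(n) + β_i + g i * (π t)`. The sum over `n` is split into the classes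
`n = Λ m + ρ`, `0 ≤ ρ < Λ` (each class is an interval of `m`), `F3_pol`, `F5_class` with the constant `C0 + C1`. -/
theorem F5_bil {k d : ℕ} (c : Fin k → Fin d → ℤ) (e : Fin d → ℕ) (D : Fin k → ℕ) (a : Fin k → ℤ) (hD : Dat c e D a)
    (hTP : ∀ (D q : ℕ) (r : Fin q → ℤ), 1 ≤ D → (∀ j, r j ≠ 0) → HPC.ThmPZ D q r) (i0 : Fin k) (C0 : ℕ) :
    ∃ s : ℕ, 2 ≤ s ∧ ∀ κ : ℝ, 0 < κ → ∃ δ : ℝ, 0 < δ ∧ ∃ X0 : ℕ, ∀ X : ℕ, X0 ≤ X →
    ∀ P : Fin k → ℤ[X], HasD D a P →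
    ∀ (β : Fin k → ℤ) (b : Fin d → ℤ) (σ : Fin d → ℕ), (∀ j, σ j ≤ C0 * X ^ e j) →
    ∀ n0 N : ℕ, n0 + N ≤ C0 * X →
    ∀ H : Fin k → ℤ → ℂ, (∀ i m, ‖H i m‖ ≤ 1) →
    (∀ (i : Fin k) (m : ℤ), m ∉ Ico (-((C0 * X ^ D i : ℕ) : ℤ)) ((C0 * X ^ D i : ℕ) : ℤ) → H i m = 0) →
    ∀ h : (Fin d → ℤ) → ℂ, (∀ t, ‖h t‖ ≤ 1) →
    GG (C0 * X ^ D i0) s (H i0) ≤ (X : ℝ) ^ ((D i0 : ℝ) * (s + 1) - κ) →
    ‖∑ n ∈ Ico n0 (n0 + N), ∑ t ∈ tb b σ, h t *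
      ∏ i ∈ Kz c D i0, H i ((P i).eval (n : ℤ) + (β i + lf c t i))‖ ≤ (X : ℝ) ^ (1 + (∑ j, (e j : ℝ)) - δ) := by
  classical
  obtain ⟨π, y, hπy, hg0, hc0, hcK⟩ := F2_prim c i0 (hD.ne i0)
  have hKi0 : i0 ∈ Kz c D i0 := by
    unfold Kz
    rw [mem_filter]
    exact ⟨mem_univ _, rfl, fun j j' => mul_comm _ _⟩
  have hKD : ∀ i ∈ Kz c D i0, D i = D i0 := by
    intro i hi
    unfold Kz at hi
    rw [mem_filter] at hi
    exact hi.2.1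
  have hKc : ∀ i ∈ Kz c D i0, ∀ j, c i j = lf c y i * π j := by
    intro i hi
    unfold Kz at hi
    rw [mem_filter] at hi
    exact hcK i hi.2.2
  -- the number `Λ`
  set g : Fin k → ℤ := fun i => lf c y i with hg
  have hgne : ∀ i ∈ Kz c D i0, g i ≠ 0 := by
    intro i hi
    by_cases hii : i = i0
    · rw [hii]
      exact hg0.ne'
    · exact (F5_ne c e D a hD i0 i hi hii π y hg0 hc0 (hKc i hi)).1
  set Λn : ℕ := ∏ i ∈ Kz c D i0, (g i).natAbs with hΛn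
  have hΛpos : 0 < Λn := Finset.prod_pos fun i hi => Int.natAbs_pos.2 (hgne i hi)
  set Λ : ℤ := (Λn : ℤ) with hΛ
  have hΛne : Λ ≠ 0 := by
    rw [hΛ]
    exact_mod_cast hΛpos.ne'
  have hdvd : ∀ i ∈ Kz c D i0, g i ∣ Λ := by
    intro i hi
    rw [hΛ, ← Int.natAbs_dvd, Int.natCast_dvd_natCast]
    exact Finset.dvd_prod_of_mem (fun i => (g i).natAbs) hi
  set α : Fin k → ℤ := fun i => a i * (Λ / g i) * Λ ^ (D i0 - 1) with hα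
  have hdiv : ∀ i ∈ Kz c D i0, Λ / g i * g i = Λ := fun i hi => Int.ediv_mul_cancel (hdvd i hi)
  have hdivne : ∀ i ∈ Kz c D i0, Λ / g i ≠ 0 := by
    intro i hi h
    have h1 := hdiv i hi
    rw [h, zero_mul] at h1
    exact hΛne h1.symm
  have hα0 : α i0 ≠ 0 := mul_ne_zero (mul_ne_zero (hD.lc i0) (hdivne i0 hKi0)) (pow_ne_zero _ hΛne)
  have hαne : ∀ i ∈ Kz c D i0, i ≠ i0 → α i ≠ α i0 := by
    intro i hi hii h
    have h1 := (F5_ne c e D a hD i0 i hi hii π y hg0 hc0 (hKc i hi)).2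
    apply h1
    rw [hα] at h
    dsimp only at h
    have h2 := mul_right_cancel₀ (pow_ne_zero _ hΛne) h
    have h3 : a i * g i0 * Λ = a i0 * g i * Λ := by
      calc a i * g i0 * Λ = a i * g i0 * (Λ / g i * g i) := by rw [hdiv i hi]
        _ = (a i * (Λ / g i)) * (g i0 * g i) := by ring
        _ = (a i0 * (Λ / g i0)) * (g i0 * g i) := by rw [h2]
        _ = a i0 * g i * (Λ / g i0 * g i0) := by ring
        _ = a i0 * g i * Λ := by rw [hdiv i0 hKi0]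
    exact mul_right_cancel₀ hΛne h3
  -- the coordinate `l`
  obtain ⟨l, hl0⟩ := hD.ne i0
  have hl : π l ≠ 0 := by
    intro h
    apply hl0
    rw [hc0 l, h, mul_zero]
  have hπe : ∀ j, π j ≠ 0 → e j = D i0 := by
    intro j hj
    apply hD.blk i0 j
    rw [hc0 j]
    exact mul_ne_zero hg0.ne' hj
  set Sπ : ℕ := ∑ j, (π j).natAbs with hSπ
  set C1 : ℕ := C0 * Sπ + 1 with hC1
  set C2 : ℕ := C0 + C1 with hC2
  obtain ⟨s, hs, hcl⟩ := F5_class (D i0) k (hD.deg i0) (Kz c D i0) i0 hKi0 g α hgne hg0 hαne hα0 C2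
    (fun r hr => hTP (D i0) (k + 1) r (hD.deg i0) hr)
  refine ⟨s, hs, fun κ hκ => ?_⟩
  obtain ⟨δ, hδ, X0, hX0⟩ := hcl κ hκ
  -- large X
  have hbig : ∃ X1 : ℕ, 1 ≤ X1 ∧ ∀ X : ℕ, X1 ≤ X → ((C0 : ℝ) ^ (univ.erase l).card * Λn) ≤ (X : ℝ) ^ (δ / 2) := by
    have h1 : Filter.Tendsto (fun X : ℕ => (X : ℝ) ^ (δ / 2)) Filter.atTop Filter.atTop :=
      (tendsto_rpow_atTop (half_pos hδ)).comp tendsto_natCast_atTop_atTop
    obtain ⟨X1, hX1⟩ := Filter.eventually_atTop.1 (h1.eventually_ge_atTop ((C0 : ℝ) ^ (univ.erase l).card * Λn))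
    exact ⟨max X1 1, le_max_right _ _, fun X hX => hX1 X (le_trans (le_max_left _ _) hX)⟩
  obtain ⟨X1, hX11, hX1⟩ := hbig
  refine ⟨δ / 2, half_pos hδ, max X0 X1, fun X hX P hP β b σ hσ n0 N hnN H hH hHs h hh hGG => ?_⟩
  have hXX0 : X0 ≤ X := le_trans (le_max_left _ _) hX
  have hXX1 : X1 ≤ X := le_trans (le_max_right _ _) hX
  have hXpos : 0 < X := lt_of_lt_of_le (by omega) hXX1
  have hXr : (0 : ℝ) < X := by exact_mod_cast hXpos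
  obtain ⟨U, hUc, hU⟩ := F4_group π l hl b σ
  obtain ⟨h', hh'1, hh'0, hh'⟩ := hU h hh
  -- the size of `U`
  have hUcard : U.card ≤ C2 * X ^ D i0 := by
    have h1 : ∑ j, |π j| * (σ j : ℤ) ≤ ∑ j, ((π j).natAbs : ℤ) * ((C0 * X ^ D i0 : ℕ) : ℤ) := by
      refine Finset.sum_le_sum fun j _ => ?_
      by_cases hj : π j = 0
      · rw [hj]
        simp
      · rw [Int.abs_eq_natAbs, ← hπe j hj]
        exact mul_le_mul_of_nonneg_left (by exact_mod_cast hσ j) (by positivity)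
    have h2 : ∑ j, ((π j).natAbs : ℤ) * ((C0 * X ^ D i0 : ℕ) : ℤ) = ((Sπ * (C0 * X ^ D i0) : ℕ) : ℤ) := by
      rw [← Finset.sum_mul, hSπ]
      push_cast
      rfl
    have h3 : (U.card : ℤ) ≤ ((Sπ * (C0 * X ^ D i0) + 1 : ℕ) : ℤ) := by
      rw [Nat.cast_add, Nat.cast_one, ← h2]
      exact le_trans hUc (by linarith [h1])
    have h4 : U.card ≤ Sπ * (C0 * X ^ D i0) + 1 := by exact_mod_cast h3
    have h5 : 1 ≤ X ^ D i0 := Nat.one_le_pow _ _ hXpos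
    calc U.card ≤ Sπ * (C0 * X ^ D i0) + 1 := h4
      _ ≤ Sπ * (C0 * X ^ D i0) + X ^ D i0 := by omega
      _ = C1 * X ^ D i0 := by rw [hC1]; ring
      _ ≤ C2 * X ^ D i0 := Nat.mul_le_mul_right _ (by omega)
  -- the modified functions
  set H' : Fin k → ℤ → ℂ := fun i m => if i ∈ Kz c D i0 then H i m else 0 with hH'
  have hH'1 : ∀ i m, ‖H' i m‖ ≤ 1 := by
    intro i m
    rw [hH']
    dsimp only
    split_ifs
    · exact hH i m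
    · simp
  have hCC : C0 * X ^ D i0 ≤ C2 * X ^ D i0 := Nat.mul_le_mul_right _ (by omega)
  have hH's : ∀ (i : Fin k) (m : ℤ), m ∉ Ico (-((C2 * X ^ D i0 : ℕ) : ℤ)) ((C2 * X ^ D i0 : ℕ) : ℤ) → H' i m = 0 := by
    intro i m hm
    rw [hH']
    dsimp only
    split_ifs with hi
    · apply hHs
      rw [hKD i hi]
      intro h1
      apply hm
      rw [mem_Ico] at h1 ⊢
      have h2 : ((C0 * X ^ D i0 : ℕ) : ℤ) ≤ ((C2 * X ^ D i0 : ℕ) : ℤ) := by exact_mod_cast hCC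
      constructor <;> linarith [h1.1, h1.2]
    · rfl
  have hH'0 : H' i0 = H i0 := by
    funext m
    rw [hH']
    dsimp only
    rw [if_pos hKi0]
  have hGG' : GG (C2 * X ^ D i0) s (H' i0) ≤ (X : ℝ) ^ ((D i0 : ℝ) * (s + 1) - κ) := by
    rw [hH'0, Pool.Agent.HUK.GG_scale (C0 * X ^ D i0) (C2 * X ^ D i0) s hCC (H i0) (hHs i0)]
    exact hGG
  -- one class
  have hclass : ∀ ρ ∈ range Λn, ‖∑ m ∈ Ico ((n0 + (Λn - 1 - ρ)) / Λn) ((n0 + N + (Λn - 1 - ρ)) / Λn),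
      ∑ u ∈ U, h' u * ∏ i ∈ Kz c D i0, H i ((P i).eval (((Λn * m + ρ : ℕ)) : ℤ) + (β i + g i * u))‖ ≤
        (X : ℝ) ^ ((D i0 : ℝ) + 1 - δ) := by
    intro ρ hρ
    rw [mem_range] at hρ
    have hpol : ∀ i : Fin k, ∃ (P' : ℤ[X]) (r : ℤ), i ∈ Kz c D i0 → (0 ≤ r ∧ r < |g i| ∧ P'.natDegree ≤ D i0 ∧
        P'.coeff (D i0) = α i ∧ ∀ m : ℤ, (P i).eval (Λ * m + ρ) + β i = g i * P'.eval m + r) := by
      intro i
      by_cases hi : i ∈ Kz c D i0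
      · obtain ⟨P', r, h1, h2, h3, h4, h5⟩ := F3_pol (P i) (D i0) (hD.deg i0) (by rw [(hP i).1, hKD i hi]) (g i) Λ
          (hgne i hi) hΛne (hdvd i hi) (ρ : ℤ) (β i)
        refine ⟨P', r, fun _ => ⟨h1, h2, h3, ?_, h5⟩⟩
        rw [h4, (hP i).2]
      · exact ⟨0, 0, fun h => absurd h hi⟩
    choose Pt rr hPt using hpol
    have h1 := hX0 X hXX0 Pt rr (fun i hi => ⟨(hPt i hi).2.2.1, (hPt i hi).2.2.2.1⟩)
      (fun i hi => ⟨(hPt i hi).1, (hPt i hi).2.1⟩) ((n0 + (Λn - 1 - ρ)) / Λn)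
      ((n0 + N + (Λn - 1 - ρ)) / Λn - (n0 + (Λn - 1 - ρ)) / Λn) (by
        have h2 : (n0 + (Λn - 1 - ρ)) / Λn ≤ (n0 + N + (Λn - 1 - ρ)) / Λn := Nat.div_le_div_right (by omega)
        have h3 : (n0 + N + (Λn - 1 - ρ)) / Λn ≤ n0 + N := by
          rw [f5b_iff _ _ _ _ hρ]
          nlinarith
        have h4 : C0 * X ≤ C2 * X := Nat.mul_le_mul_right _ (by omega)
        omega) H' hH'1 hH's U h' hUcard hh'1 hh'0 hGG'
    have h2 : (n0 + (Λn - 1 - ρ)) / Λn + ((n0 + N + (Λn - 1 - ρ)) / Λn - (n0 + (Λn - 1 - ρ)) / Λn) =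
        (n0 + N + (Λn - 1 - ρ)) / Λn := by
      have h2 : (n0 + (Λn - 1 - ρ)) / Λn ≤ (n0 + N + (Λn - 1 - ρ)) / Λn := Nat.div_le_div_right (by omega)
      omega
    rw [h2] at h1
    refine le_of_eq_of_le ?_ h1
    congr 1
    refine sum_congr rfl fun m _ => sum_congr rfl fun u _ => ?_
    congr 1
    refine prod_congr rfl fun i hi => ?_
    rw [hH']
    dsimp only
    rw [if_pos hi]
    congr 1
    have h3 := (hPt i hi).2.2.2.2 (m : ℤ)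
    have h4 : (((Λn * m + ρ : ℕ)) : ℤ) = Λ * m + ρ := by
      rw [hΛ]
      push_cast
      rfl
    rw [h4]
    linear_combination h3
  -- the sum
  have hsum : ∑ n ∈ Ico n0 (n0 + N), ∑ t ∈ tb b σ, h t *
      ∏ i ∈ Kz c D i0, H i ((P i).eval (n : ℤ) + (β i + lf c t i)) =
      ((∏ j ∈ univ.erase l, σ j : ℕ) : ℂ) * ∑ ρ ∈ range Λn,
        ∑ m ∈ Ico ((n0 + (Λn - 1 - ρ)) / Λn) ((n0 + N + (Λn - 1 - ρ)) / Λn),
        ∑ u ∈ U, h' u * ∏ i ∈ Kz c D i0, H i ((P i).eval (((Λn * m + ρ : ℕ)) : ℤ) + (β i + g i * u)) := by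
    rw [← f5b_split Λn hΛpos n0 (n0 + N) (fun n => ∑ u ∈ U, h' u * ∏ i ∈ Kz c D i0,
      H i ((P i).eval ((n : ℕ) : ℤ) + (β i + g i * u))), Finset.mul_sum]
    refine sum_congr rfl fun n _ => ?_
    rw [← hh' (fun u => ∏ i ∈ Kz c D i0, H i ((P i).eval ((n : ℕ) : ℤ) + (β i + g i * u)))]
    refine sum_congr rfl fun t _ => ?_
    congr 1
    refine prod_congr rfl fun i hi => ?_
    congr 3
    unfold lf
    rw [Finset.mul_sum]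
    refine sum_congr rfl fun j _ => ?_
    rw [hKc i hi j]
    ring
  rw [hsum, norm_mul]
  have hprod : ((∏ j ∈ univ.erase l, σ j : ℕ) : ℝ) ≤ (C0 : ℝ) ^ (univ.erase l).card * (X : ℝ) ^ (∑ j ∈ univ.erase l, (e j : ℝ)) := by
    have h1 : ∏ j ∈ univ.erase l, σ j ≤ ∏ j ∈ univ.erase l, C0 * X ^ e j :=
      Finset.prod_le_prod' fun j _ => hσ j
    have h2 : ∏ j ∈ univ.erase l, C0 * X ^ e j = C0 ^ (univ.erase l).card * X ^ (∑ j ∈ univ.erase l, e j) := by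
      rw [Finset.prod_mul_distrib, Finset.prod_const, Finset.prod_pow_eq_pow_sum]
    rw [h2] at h1
    have h3 : ((∏ j ∈ univ.erase l, σ j : ℕ) : ℝ) ≤ ((C0 ^ (univ.erase l).card * X ^ (∑ j ∈ univ.erase l, e j) : ℕ) : ℝ) := by
      exact_mod_cast h1
    refine le_trans h3 (le_of_eq ?_)
    rw [Nat.cast_mul, Nat.cast_pow, Nat.cast_pow, ← Nat.cast_sum, Real.rpow_natCast]
  have hnorm : ‖((∏ j ∈ univ.erase l, σ j : ℕ) : ℂ)‖ = ((∏ j ∈ univ.erase l, σ j : ℕ) : ℝ) := Complex.norm_natCast _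
  rw [hnorm]
  have hsum2 : ‖∑ ρ ∈ range Λn,
        ∑ m ∈ Ico ((n0 + (Λn - 1 - ρ)) / Λn) ((n0 + N + (Λn - 1 - ρ)) / Λn),
        ∑ u ∈ U, h' u * ∏ i ∈ Kz c D i0, H i ((P i).eval (((Λn * m + ρ : ℕ)) : ℤ) + (β i + g i * u))‖ ≤
      Λn * (X : ℝ) ^ ((D i0 : ℝ) + 1 - δ) := by
    refine le_trans (norm_sum_le _ _) ?_
    refine le_trans (Finset.sum_le_sum hclass) ?_
    rw [Finset.sum_const, card_range, nsmul_eq_mul]
  have hel : e l = D i0 := hπe l hl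
  have hes : (∑ j ∈ univ.erase l, (e j : ℝ)) + (D i0 : ℝ) = ∑ j, (e j : ℝ) := by
    rw [← Finset.sum_erase_add _ _ (mem_univ l), hel]
  calc ((∏ j ∈ univ.erase l, σ j : ℕ) : ℝ) * ‖∑ ρ ∈ range Λn,
        ∑ m ∈ Ico ((n0 + (Λn - 1 - ρ)) / Λn) ((n0 + N + (Λn - 1 - ρ)) / Λn),
        ∑ u ∈ U, h' u * ∏ i ∈ Kz c D i0, H i ((P i).eval (((Λn * m + ρ : ℕ)) : ℤ) + (β i + g i * u))‖
      ≤ ((C0 : ℝ) ^ (univ.erase l).card * (X : ℝ) ^ (∑ j ∈ univ.erase l, (e j : ℝ))) * (Λn * (X : ℝ) ^ ((D i0 : ℝ) + 1 - δ)) :=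
        mul_le_mul hprod hsum2 (norm_nonneg _) (by positivity)
    _ = ((C0 : ℝ) ^ (univ.erase l).card * Λn) * ((X : ℝ) ^ (∑ j ∈ univ.erase l, (e j : ℝ)) * (X : ℝ) ^ ((D i0 : ℝ) + 1 - δ)) := by
        ring
    _ ≤ (X : ℝ) ^ (δ / 2) * ((X : ℝ) ^ (∑ j ∈ univ.erase l, (e j : ℝ)) * (X : ℝ) ^ ((D i0 : ℝ) + 1 - δ)) :=
        mul_le_mul_of_nonneg_right (hX1 X hXX1) (by positivity)
    _ = (X : ℝ) ^ (1 + (∑ j, (e j : ℝ)) - δ / 2) := by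
        rw [← Real.rpow_add hXr, ← Real.rpow_add hXr]
        congr 1
        rw [← hes]
        ring

end Pool.Agent.HUP
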