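import Pool.Agent.Lib.HUP.Defs2

/-!
# Projects HUP and HPC, module F (the second moment `FMT` from Theorem P), F1: elimination vectors
-/

open Finset Polynomial

namespace Pool.Agent.HUP

open Pool.Agent.HUK (GG DD DL DV FF bxS Bdd)

/-- **F1.** Proof. Let `l` be an index with `c i0 l ≠ 0` (`hD.ne`), so `e l = D i0` (`hD.blk`); `v 0 = e_l` (the unit vector). For `i` with
`D i = D i0` and a minor `c i j * c i0 j' - c i j' * c i0 j ≠ 0` put `v (i.succ) = c i j' • e_j - c i j • e_j'` (then
`lf c v i = 0` and `lf c v i0 = c i0 j * c i j' - c i0 j' * c i j ≠ 0`; as the minor is not `0`, one of `c i j`, `c i0 j` and one of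
`c i j'`, `c i0 j'` is not `0`, hence `e j = e j' = D i0` by `hD.blk`). For all other `i` put `v (i.succ) = v 0`. If `D i ≠ D i0`, then
`c i j ≠ 0` implies `e j = D i ≠ D i0`, hence `v r j = 0`: `lf c (v r) i = 0`. -/
theorem F1_vec {k d : ℕ} (c : Fin k → Fin d → ℤ) (e : Fin d → ℕ) (D : Fin k → ℕ) (a : Fin k → ℤ) (hD : Dat c e D a)
    (i0 : Fin k) : ∃ v : Fin (k + 1) → Fin d → ℤ, (∀ r, lf c (v r) i0 ≠ 0) ∧ (∀ r j, v r j ≠ 0 → e j = D i0) ∧
      ∀ i, (D i ≠ D i0 → ∀ r, lf c (v r) i = 0) ∧
        (D i = D i0 → i ∉ Kz c D i0 → lf c (v i.succ) i = 0) := by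
  classical
  obtain ⟨l, hl⟩ := hD.ne i0
  have hel : e l = D i0 := hD.blk i0 l hl
  have hbase : lf c (fun m => if m = l then 1 else 0) i0 ≠ 0 := by
    unfold lf
    simpa using hl
  have hbs : ∀ j, (if j = l then (1 : ℤ) else 0) ≠ 0 → e j = D i0 := by
    intro j hj
    by_cases h : j = l
    · rw [h]; exact hel
    · simp [h] at hj
  have key : ∀ i, ∃ u : Fin d → ℤ, lf c u i0 ≠ 0 ∧ (∀ j, u j ≠ 0 → e j = D i0) ∧
      (D i = D i0 → i ∉ Kz c D i0 → lf c u i = 0) := by
    intro i
    by_cases hi : D i = D i0 ∧ i ∉ Kz c D i0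
    · obtain ⟨h1, h2⟩ := hi
      have h3 : ∃ j j', c i j * c i0 j' ≠ c i j' * c i0 j := by
        by_contra hcon
        push Not at hcon
        exact h2 (by unfold Kz; simp only [mem_filter, mem_univ, true_and]; exact ⟨h1, hcon⟩)
      obtain ⟨j, j', hm⟩ := h3
      have hej : e j = D i0 := by
        by_cases hc : c i j = 0
        · by_cases hc0 : c i0 j = 0
          · exact absurd (by rw [hc, hc0]; ring) hm
          · exact hD.blk i0 j hc0
        · rw [← h1]; exact hD.blk i j hc
      have hej' : e j' = D i0 := by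
        by_cases hc : c i j' = 0
        · by_cases hc0 : c i0 j' = 0
          · exact absurd (by rw [hc, hc0]; ring) hm
          · exact hD.blk i0 j' hc0
        · rw [← h1]; exact hD.blk i j' hc
      have hlf : ∀ r, lf c (fun m => (if m = j then c i j' else 0) - (if m = j' then c i j else 0)) r =
          c r j * c i j' - c r j' * c i j := by
        intro r
        unfold lf
        simp only [mul_sub, Finset.sum_sub_distrib, mul_ite, mul_zero, Finset.sum_ite_eq', mem_univ, if_true]
      refine ⟨fun m => (if m = j then c i j' else 0) - (if m = j' then c i j else 0), ?_, ?_, ?_⟩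
      · rw [hlf]
        intro h0
        exact hm (by linarith)
      · intro m hmm
        by_cases ha : m = j
        · rw [ha]; exact hej
        · by_cases hb : m = j'
          · rw [hb]; exact hej'
          · simp [ha, hb] at hmm
      · intro _ _
        rw [hlf]
        ring
    · exact ⟨fun m => if m = l then 1 else 0, hbase, hbs, fun h1 h2 => absurd ⟨h1, h2⟩ hi⟩
  choose u hu1 hu2 hu3 using key
  have hv2 : ∀ r j, (Fin.cons (fun m => if m = l then (1 : ℤ) else 0) u : Fin (k + 1) → Fin d → ℤ) r j ≠ 0 →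
      e j = D i0 := by
    intro r
    refine Fin.cases ?_ (fun i => ?_) r
    · intro j hj
      exact hbs j (by simpa using hj)
    · intro j hj
      exact hu2 i j (by simpa using hj)
  refine ⟨Fin.cons (fun m => if m = l then 1 else 0) u, ?_, hv2, ?_⟩
  · intro r
    refine Fin.cases ?_ (fun i => ?_) r
    · simpa using hbase
    · simpa using hu1 i
  · intro i
    refine ⟨fun hne r => ?_, fun h1 h2 => ?_⟩
    · unfold lf
      refine Finset.sum_eq_zero fun j _ => ?_
      by_contra hcon
      have h1 := left_ne_zero_of_mul hcon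
      have h2 := right_ne_zero_of_mul hcon
      exact hne ((hD.blk i j h1).symm.trans (hv2 r j h2))
    · simpa using hu3 i h1 h2

end Pool.Agent.HUP
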