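import Pool.Agent.Lib.HUP.P3a

/-!
# Project HUP, chunk P3c (M): the sum over the pairs `(n, n')` after the elimination is a square
-/

open Finset

namespace Pool.Agent.HUP

open Pool.Agent.HUK (DD DL DV bxS FF GG fw WT)

theorem p3c_sq (z : ℂ) : z * (starRingEnd ℂ) z = ((‖z‖ ^ 2 : ℝ) : ℂ) := by
  rw [Complex.mul_conj, Complex.normSq_eq_norm_sq]

theorem p3c_double (X : ℕ) (a : ℕ → ℂ) :
    ∑ n ∈ range X, ∑ n' ∈ range X, a n * (starRingEnd ℂ) (a n') = ((‖∑ n ∈ range X, a n‖ ^ 2 : ℝ) : ℂ) := by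
  rw [← p3c_sq, map_sum, sum_mul_sum]

/-- `∑_(n,n') DL l (1_B(z) F(lft c z + P n) conj F(lft c z + P n')) = u(z) ‖∑_n DV h F (lft c z + P n)‖²`, `l = (j i • v i)`,
`h = (lft c (v i) j i)`, `u` from `p3_ind`: `DL_mul`, `p3_comp`, `p3_shift`, `p3_conj`. -/
theorem p3_square {d r : ℕ} (X : ℕ) (B : Finset (Fin d → ℤ)) (c : Fin d → ℤ) (v : Fin r → Fin d → ℤ) (j : Fin r → ℤ)
    (P : ℕ → ℤ) (F : ℤ → ℂ) :
    ∃ u : (Fin d → ℤ) → ℝ, (∀ z, 0 ≤ u z ∧ u z ≤ 1) ∧ ∀ z,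
      ∑ n ∈ range X, ∑ n' ∈ range X, DL (List.ofFn fun i => j i • v i)
        (fun z => (if z ∈ B then (1 : ℂ) else 0) * (F (lft c z + P n) * (starRingEnd ℂ) (F (lft c z + P n')))) z =
      ((u z * ‖∑ n ∈ range X, DV (fun i => lft c (v i) * j i) F (lft c z + P n)‖ ^ 2 : ℝ) : ℂ) := by
  obtain ⟨u, hu, hu'⟩ := p3_ind B (List.ofFn fun i => j i • v i)
  refine ⟨u, fun z => ?_, fun z => ?_⟩
  · rcases hu z with h | h <;> rw [h] <;> norm_num
  · have key : ∀ n n', DL (List.ofFn fun i => j i • v i)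
        (fun z => (if z ∈ B then (1 : ℂ) else 0) * (F (lft c z + P n) * (starRingEnd ℂ) (F (lft c z + P n')))) z =
        ((u z : ℝ) : ℂ) * (DV (fun i => lft c (v i) * j i) F (lft c z + P n) *
          (starRingEnd ℂ) (DV (fun i => lft c (v i) * j i) F (lft c z + P n'))) := by
      intro n n'
      have e1 := congrFun (Pool.Agent.HUK.DL_mul (List.ofFn fun i => j i • v i) (fun z => if z ∈ B then (1 : ℂ) else 0)
        (fun z => F (lft c z + P n) * (starRingEnd ℂ) (F (lft c z + P n')))) z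
      have e2 := congrFun (Pool.Agent.HUK.DL_mul (List.ofFn fun i => j i • v i) (fun z => F (lft c z + P n))
        (fun z => (starRingEnd ℂ) (F (lft c z + P n')))) z
      have e3 := p3_comp c v j (fun y => F (y + P n)) z
      have e4 := p3_comp c v j (fun y => (starRingEnd ℂ) (F (y + P n'))) z
      have e5 := p3_shift (fun i => lft c (v i) * j i) F (P n) (lft c z)
      have e6 := p3_conj (fun i => lft c (v i) * j i) (fun y => F (y + P n')) (lft c z)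
      have e7 := p3_shift (fun i => lft c (v i) * j i) F (P n') (lft c z)
      refine e1.trans ?_
      rw [hu' z]
      congr 1
      refine e2.trans ?_
      rw [e5] at e3
      rw [e6, e7] at e4
      exact congrArg₂ (· * ·) e3 e4
    rw [sum_congr rfl fun n _ => sum_congr rfl fun n' _ => key n n']
    rw [Complex.ofReal_mul, ← p3c_double X fun n => DV (fun i => lft c (v i) * j i) F (lft c z + P n), mul_sum]
    exact sum_congr rfl fun n _ => (mul_sum _ _ _).symm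

/-- Opening the square over `n`: `∑_t ‖∑_n w n F(..) ∏ G_i(..)‖² ≤ ∑_(n,n') ‖∑_t (∏ g_i) c‖` with `g_i = G_i conj G_i'`,
`c = F conj F'` (exchange of sums, `‖w n conj (w n')‖ ≤ 1`). -/
theorem p3_open {d r : ℕ} (X : ℕ) (B : Finset (Fin d → ℤ)) (w : ℕ → ℂ) (hw : ∀ n, ‖w n‖ ≤ 1) (A : ℕ → (Fin d → ℤ) → ℂ)
    (g : Fin r → ℕ → (Fin d → ℤ) → ℂ) :
    ∑ t ∈ B, ‖∑ n ∈ range X, w n * A n t * ∏ i, g i n t‖ ^ 2 ≤
      ∑ n ∈ range X, ∑ n' ∈ range X, ‖∑ t ∈ B, (∏ i, (g i n t * (starRingEnd ℂ) (g i n' t))) *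
        ((if t ∈ B then (1 : ℂ) else 0) * (A n t * (starRingEnd ℂ) (A n' t)))‖ := by
  have h1 : ((∑ t ∈ B, ‖∑ n ∈ range X, w n * A n t * ∏ i, g i n t‖ ^ 2 : ℝ) : ℂ) =
      ∑ n ∈ range X, ∑ n' ∈ range X, (w n * (starRingEnd ℂ) (w n')) * ∑ t ∈ B, (∏ i, (g i n t * (starRingEnd ℂ) (g i n' t))) *
        ((if t ∈ B then (1 : ℂ) else 0) * (A n t * (starRingEnd ℂ) (A n' t))) := by
    rw [Complex.ofReal_sum]
    rw [sum_congr rfl fun t _ => (p3c_double X fun n => w n * A n t * ∏ i, g i n t).symm]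
    rw [sum_comm]
    refine sum_congr rfl fun n _ => ?_
    rw [sum_comm]
    refine sum_congr rfl fun n' _ => ?_
    rw [mul_sum]
    refine sum_congr rfl fun t ht => ?_
    rw [if_pos ht, prod_mul_distrib, map_mul, map_mul, map_prod]
    ring
  have h2 : ∑ t ∈ B, ‖∑ n ∈ range X, w n * A n t * ∏ i, g i n t‖ ^ 2 =
      ‖((∑ t ∈ B, ‖∑ n ∈ range X, w n * A n t * ∏ i, g i n t‖ ^ 2 : ℝ) : ℂ)‖ := by
    rw [Complex.norm_real, Real.norm_of_nonneg (sum_nonneg fun t _ => sq_nonneg _)]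
  rw [h2, h1]
  refine (norm_sum_le _ _).trans (sum_le_sum fun n _ => (norm_sum_le _ _).trans (sum_le_sum fun n' _ => ?_))
  rw [norm_mul, norm_mul, RCLike.norm_conj]
  calc ‖w n‖ * ‖w n'‖ * ‖∑ t ∈ B, (∏ i, (g i n t * (starRingEnd ℂ) (g i n' t))) *
        ((if t ∈ B then (1 : ℂ) else 0) * (A n t * (starRingEnd ℂ) (A n' t)))‖ ≤
      1 * 1 * ‖∑ t ∈ B, (∏ i, (g i n t * (starRingEnd ℂ) (g i n' t))) *
        ((if t ∈ B then (1 : ℂ) else 0) * (A n t * (starRingEnd ℂ) (A n' t)))‖ :=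
        mul_le_mul_of_nonneg_right (mul_le_mul (hw n) (hw n') (norm_nonneg _) zero_le_one) (norm_nonneg _)
    _ = _ := by rw [one_mul, one_mul]

end Pool.Agent.HUP
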