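import Pool.Agent.Lib.HUP.P3b
import Pool.Agent.Lib.HUP.P3c

/-!
# Project HUP, chunk P3 (M/L): elimination in the space of the parameters (`POLY3`)
-/

open Finset

namespace Pool.Agent.HUP

open Pool.Agent.HUK (DD DL DV bxS FF GG fw WT)

/-- The mean of nonnegative numbers over the pairs, Hoelder. -/
theorem p3_mean (X m : ℕ) (hX : 1 ≤ X) (x : ℕ → ℕ → ℝ) (hx : ∀ n n', 0 ≤ x n n') :
    ((∑ n ∈ range X, ∑ n' ∈ range X, x n n') / (X : ℝ) ^ 2) ^ m ≤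
      (∑ n ∈ range X, ∑ n' ∈ range X, x n n' ^ m) / (X : ℝ) ^ 2 := by
  have hX0 : (0 : ℝ) < X := by exact_mod_cast hX
  have h1 := Real.pow_arith_mean_le_arith_mean_pow (range X ×ˢ range X) (fun _ => 1 / (X : ℝ) ^ 2) (fun p => x p.1 p.2)
    (fun _ _ => by positivity) (by
      rw [Finset.sum_const, card_product, card_range, nsmul_eq_mul]
      push_cast
      field_simp) (fun p _ => hx p.1 p.2) m
  rw [← Finset.mul_sum, ← Finset.mul_sum, Finset.sum_product, Finset.sum_product] at h1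
  rw [div_eq_inv_mul, div_eq_inv_mul, inv_eq_one_div]
  exact h1

/-- The sum of the differences over the parameters and over the pairs. -/
theorem p3_sum {d r : ℕ} (c0 : Fin d → ℤ) (v : Fin r → Fin d → ℤ) (hv0 : ∀ i, lft c0 (v i) ≠ 0) (l : Fin d) (hl : c0 l ≠ 0)
    (T X Y : ℕ) (hT : 1 ≤ T) (b : Fin d → ℤ) (s : Fin d → ℕ) (hs : T ≤ s l) (P0 : ℕ → ℤ) (F : ℤ → ℂ)
    (hF0 : ∀ n ∈ range X, ∀ y, y ∉ Ico (-(Y : ℤ)) Y → F (y + P0 n) = 0) :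
    ∑ n ∈ range X, ∑ n' ∈ range X, (∑ j ∈ bxS r T, ((WT T j : ℝ) : ℂ) *
        ∑ z ∈ bZ b s, DL (List.ofFn fun i => j i • v i) (fun z => (if z ∈ bZ b s then (1 : ℂ) else 0) *
          (F (lft c0 z + P0 n) * (starRingEnd ℂ) (F (lft c0 z + P0 n')))) z).re ≤
      (∏ j, (s j : ℝ)) / T * ∑ h ∈ bxS r (2 * Y), ∑ y ∈ Ico (-(Y : ℤ)) Y, ‖∑ n ∈ range X, DV h F (y + P0 n)‖ ^ 2 := by
  have hS : 0 ≤ (∏ j, (s j : ℝ)) / T := div_nonneg (Finset.prod_nonneg fun j _ => Nat.cast_nonneg _) (Nat.cast_nonneg _)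
  have h1 : ∑ n ∈ range X, ∑ n' ∈ range X, (∑ j ∈ bxS r T, ((WT T j : ℝ) : ℂ) *
        ∑ z ∈ bZ b s, DL (List.ofFn fun i => j i • v i) (fun z => (if z ∈ bZ b s then (1 : ℂ) else 0) *
          (F (lft c0 z + P0 n) * (starRingEnd ℂ) (F (lft c0 z + P0 n')))) z).re =
      (∑ j ∈ bxS r T, ((WT T j : ℝ) : ℂ) * ∑ z ∈ bZ b s, ∑ n ∈ range X, ∑ n' ∈ range X,
        DL (List.ofFn fun i => j i • v i) (fun z => (if z ∈ bZ b s then (1 : ℂ) else 0) *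
          (F (lft c0 z + P0 n) * (starRingEnd ℂ) (F (lft c0 z + P0 n')))) z).re := by
    simp_rw [← Complex.re_sum]
    congr 1
    have h2 : ∀ n, ∑ n' ∈ range X, ∑ j ∈ bxS r T, ((WT T j : ℝ) : ℂ) *
        ∑ z ∈ bZ b s, DL (List.ofFn fun i => j i • v i) (fun z => (if z ∈ bZ b s then (1 : ℂ) else 0) *
          (F (lft c0 z + P0 n) * (starRingEnd ℂ) (F (lft c0 z + P0 n')))) z =
        ∑ j ∈ bxS r T, ((WT T j : ℝ) : ℂ) *
        ∑ z ∈ bZ b s, ∑ n' ∈ range X, DL (List.ofFn fun i => j i • v i) (fun z => (if z ∈ bZ b s then (1 : ℂ) else 0) *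
          (F (lft c0 z + P0 n) * (starRingEnd ℂ) (F (lft c0 z + P0 n')))) z := by
      intro n
      rw [Finset.sum_comm]
      refine Finset.sum_congr rfl fun j _ => ?_
      rw [← Finset.mul_sum, Finset.sum_comm]
    rw [Finset.sum_congr rfl fun n _ => h2 n, Finset.sum_comm]
    refine Finset.sum_congr rfl fun j _ => ?_
    rw [← Finset.mul_sum, Finset.sum_comm]
  rw [h1]
  have h3 : ∀ j ∈ bxS r T, (((WT T j : ℝ) : ℂ) * ∑ z ∈ bZ b s, ∑ n ∈ range X, ∑ n' ∈ range X,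
        DL (List.ofFn fun i => j i • v i) (fun z => (if z ∈ bZ b s then (1 : ℂ) else 0) *
          (F (lft c0 z + P0 n) * (starRingEnd ℂ) (F (lft c0 z + P0 n')))) z).re ≤
      (∏ j, (s j : ℝ)) / T * ∑ y ∈ Ico (-(Y : ℤ)) Y,
        ‖∑ n ∈ range X, DV (fun i => lft c0 (v i) * j i) F (y + P0 n)‖ ^ 2 := by
    intro j _
    obtain ⟨u, hu, hu2⟩ := p3_square X (bZ b s) c0 v j P0 F
    have h4 : ∑ z ∈ bZ b s, ∑ n ∈ range X, ∑ n' ∈ range X,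
        DL (List.ofFn fun i => j i • v i) (fun z => (if z ∈ bZ b s then (1 : ℂ) else 0) *
          (F (lft c0 z + P0 n) * (starRingEnd ℂ) (F (lft c0 z + P0 n')))) z =
        ((∑ z ∈ bZ b s, u z * ‖∑ n ∈ range X, DV (fun i => lft c0 (v i) * j i) F (lft c0 z + P0 n)‖ ^ 2 : ℝ) : ℂ) := by
      rw [Complex.ofReal_sum]
      exact Finset.sum_congr rfl fun z _ => hu2 z
    rw [h4, ← Complex.ofReal_mul, Complex.ofReal_re]
    have h5 : ∑ z ∈ bZ b s, u z * ‖∑ n ∈ range X, DV (fun i => lft c0 (v i) * j i) F (lft c0 z + P0 n)‖ ^ 2 ≤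
        ∑ z ∈ bZ b s, ‖∑ n ∈ range X, DV (fun i => lft c0 (v i) * j i) F (lft c0 z + P0 n)‖ ^ 2 :=
      Finset.sum_le_sum fun z _ => mul_le_of_le_one_left (sq_nonneg _) (hu z).2
    have h6 : 0 ≤ ∑ z ∈ bZ b s, u z * ‖∑ n ∈ range X, DV (fun i => lft c0 (v i) * j i) F (lft c0 z + P0 n)‖ ^ 2 :=
      Finset.sum_nonneg fun z _ => mul_nonneg (hu z).1 (sq_nonneg _)
    have h7 := p3_box T Y hT b s c0 l hs hl
      (fun y => ‖∑ n ∈ range X, DV (fun i => lft c0 (v i) * j i) F (y + P0 n)‖ ^ 2) (fun y => sq_nonneg _) (by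
        intro y hy
        have h8 : ∑ n ∈ range X, DV (fun i => lft c0 (v i) * j i) F (y + P0 n) = 0 := by
          refine Finset.sum_eq_zero fun n hn => ?_
          exact Pool.Agent.HUK.DL_supp _ _ _ (hF0 n hn y hy)
        show ‖∑ n ∈ range X, DV (fun i => lft c0 (v i) * j i) F (y + P0 n)‖ ^ 2 = 0
        rw [h8, norm_zero]
        norm_num)
    exact (mul_le_of_le_one_left h6 (p3_WT T j).2).trans (h5.trans h7)
  rw [Complex.re_sum]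
  refine (Finset.sum_le_sum h3).trans ?_
  rw [← Finset.mul_sum]
  refine mul_le_mul_of_nonneg_left ?_ hS
  exact p3_dil T (2 * Y) (fun i => lft c0 (v i)) hv0
    (fun h => ∑ y ∈ Ico (-(Y : ℤ)) Y, ‖∑ n ∈ range X, DV h F (y + P0 n)‖ ^ 2)
    (fun h => Finset.sum_nonneg fun _ _ => sq_nonneg _) (by
      intro h hh
      refine Finset.sum_eq_zero fun y _ => ?_
      have h8 : ∑ n ∈ range X, DV h F (y + P0 n) = 0 :=
        Finset.sum_eq_zero fun n hn => p3_large Y (P0 n) F (hF0 n hn) h hh y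
      rw [h8, norm_zero]
      norm_num)

/-- **POLY3.** (Only the sides of the box in the directions of `c0` and of the `v i` must be at least `T`.) All functions depend on `t`, the polynomials `P 0`, `P i` are arbitrary functions of `n`, `w` is arbitrary.
Proof. `V = max |v i l|`, `N = (2V+1)^d ∏ s j`. `p3_open`, then Hoelder over the `X²` pairs `(n, n')` (exponent `2^r`), then for each
pair `E2_elim` (`G = Fin d → ℤ`, `B = bZ b s`, `B'` from `p3_big`, `H = T`, the functions `g i` are invariant under `v i`: `p3_lf_add`, `hv`,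
`c z = 1_B(z) F(..) conj F(..)`); the real parts may be summed over `(n, n')`: `p3_square`; `WT ≤ 1` (`p3_WT`), the terms are `≥ 0`:
`p3_box` (`c0 l ≠ 0` for some `l`, because `lft c0 (v 0) ≠ 0`), `p3_large` and `p3_dil` with `Λ i = lft c0 (v i)`. `C = 2^(2^r) (2V+1)^(d 2^r)`. -/
theorem P3_main (d r : ℕ) (hr : 1 ≤ r) (c0 : Fin d → ℤ) (c v : Fin r → Fin d → ℤ) (hv : ∀ i, lft (c i) (v i) = 0)
    (hv0 : ∀ i, lft c0 (v i) ≠ 0) : ∃ C : ℝ, 1 ≤ C ∧ ∀ T X Y : ℕ, 1 ≤ T → 1 ≤ X → ∀ (b : Fin d → ℤ) (s : Fin d → ℕ),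
    (∀ l, 1 ≤ s l) → (∀ l, c0 l ≠ 0 → T ≤ s l) → (∀ i l, v i l ≠ 0 → T ≤ s l) → ∀ (P0 : ℕ → ℤ) (P : Fin r → ℕ → ℤ) (w : ℕ → ℂ) (F : ℤ → ℂ) (G : Fin r → ℤ → ℂ), (∀ n, ‖w n‖ ≤ 1) →
    (∀ y, ‖F y‖ ≤ 1) → (∀ i y, ‖G i y‖ ≤ 1) → (∀ n ∈ range X, ∀ y, y ∉ Ico (-(Y : ℤ)) Y → F (y + P0 n) = 0) →
    ((∑ t ∈ bZ b s, ‖∑ n ∈ range X, w n * F (lft c0 t + P0 n) * ∏ i, G i (lft (c i) t + P i n)‖ ^ 2) /
      ((X : ℝ) ^ 2 * ∏ j, (s j : ℝ))) ^ (2 ^ r) ≤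
      C / ((X : ℝ) ^ 2 * T ^ (r + 1)) * ∑ h ∈ bxS r (2 * Y), ∑ y ∈ Ico (-(Y : ℤ)) Y,
        ‖∑ n ∈ range X, DV h F (y + P0 n)‖ ^ 2 := by
  have hr0 : 0 < r := hr
  obtain ⟨l, hl⟩ : ∃ l, c0 l ≠ 0 := by
    by_contra hc
    push Not at hc
    apply hv0 ⟨0, hr0⟩
    unfold lft
    exact Finset.sum_eq_zero fun j _ => by rw [hc j, zero_mul]
  obtain ⟨V, hV⟩ : ∃ V : ℕ, ∀ i l, |v i l| ≤ V := by
    refine ⟨∑ i, ∑ l, (v i l).natAbs, fun i l => ?_⟩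
    have h1 : (v i l).natAbs ≤ ∑ l, (v i l).natAbs :=
      Finset.single_le_sum (f := fun l => (v i l).natAbs) (fun _ _ => Nat.zero_le _) (mem_univ l)
    have h2 : ∑ l, (v i l).natAbs ≤ ∑ i, ∑ l, (v i l).natAbs :=
      Finset.single_le_sum (f := fun i => ∑ l, (v i l).natAbs) (fun _ _ => Nat.zero_le _) (mem_univ i)
    have h3 := h1.trans h2
    rw [Int.abs_eq_natAbs]
    exact_mod_cast h3
  have hV1 : (1 : ℝ) ≤ 2 * (V : ℝ) + 1 := by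
    have : (0 : ℝ) ≤ V := Nat.cast_nonneg _
    linarith
  refine ⟨2 ^ (2 ^ r) * (2 * (V : ℝ) + 1) ^ (d * 2 ^ r), ?_, ?_⟩
  · exact one_le_mul_of_one_le_of_one_le (one_le_pow₀ one_le_two) (one_le_pow₀ hV1)
  intro T X Y hT hX b s hs1 hs0 hs P0 P w F G hw hF hG hF0
  have hT0 : (0 : ℝ) < T := by exact_mod_cast hT
  have hX0 : (0 : ℝ) < X := by exact_mod_cast hX
  have hS0 : (0 : ℝ) < ∏ j, (s j : ℝ) := Finset.prod_pos fun j _ => by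
    have : 1 ≤ s j := hs1 j
    exact_mod_cast this
  have hopen := p3_open X (bZ b s) w hw (fun n t => F (lft c0 t + P0 n)) (fun i n t => G i (lft (c i) t + P i n))
  have hsum := p3_sum c0 v hv0 l hl T X Y hT b s (hs0 l hl) P0 F hF0
  obtain ⟨hcard, hbig⟩ := p3_big V T b s v hs hV
  have hN0 : (0 : ℝ) < (2 * V + 1 : ℝ) ^ d * ∏ j, (s j : ℝ) := mul_pos (pow_pos (by linarith) _) hS0
  have helim : ∀ n n', (‖∑ t ∈ bZ b s, (∏ i, (G i (lft (c i) t + P i n) * (starRingEnd ℂ) (G i (lft (c i) t + P i n')))) *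
        ((if t ∈ bZ b s then (1 : ℂ) else 0) * (F (lft c0 t + P0 n) * (starRingEnd ℂ) (F (lft c0 t + P0 n'))))‖ /
        ((2 * V + 1 : ℝ) ^ d * ∏ j, (s j : ℝ))) ^ (2 ^ r) ≤
      2 ^ (2 ^ r) / (T : ℝ) ^ r * ((∑ j ∈ bxS r T, ((WT T j : ℝ) : ℂ) *
        ∑ z ∈ bZ b s, DL (List.ofFn fun i => j i • v i) (fun z => (if z ∈ bZ b s then (1 : ℂ) else 0) *
          (F (lft c0 z + P0 n) * (starRingEnd ℂ) (F (lft c0 z + P0 n')))) z).re /
            ((2 * V + 1 : ℝ) ^ d * ∏ j, (s j : ℝ))) := by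
    intro n n'
    refine Pool.Agent.HUK.E2_elim (bZ b s) _ ((2 * V + 1 : ℝ) ^ d * ∏ j, (s j : ℝ)) (le_of_eq hcard) hN0 T hT r hr v
      (fun i t => G i (lft (c i) t + P i n) * (starRingEnd ℂ) (G i (lft (c i) t + P i n')))
      (fun z => (if z ∈ bZ b s then (1 : ℂ) else 0) *
          (F (lft c0 z + P0 n) * (starRingEnd ℂ) (F (lft c0 z + P0 n')))) ?_ ?_ ?_ (fun i z => hbig i z)
    · intro i z
      rw [norm_mul, RCLike.norm_conj]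
      exact mul_le_one₀ (hG _ _) (norm_nonneg _) (hG _ _)
    · intro i z
      show G i (lft (c i) (z + v i) + P i n) * (starRingEnd ℂ) (G i (lft (c i) (z + v i) + P i n')) = _
      rw [p3_lf_add, hv, add_zero]
    · intro z hz
      show (if z ∈ bZ b s then (1 : ℂ) else 0) * _ = 0
      rw [if_neg hz, zero_mul]
  obtain ⟨S, hS⟩ : ∃ S : ℝ, S = ∏ j, (s j : ℝ) := ⟨_, rfl⟩
  obtain ⟨W, hW⟩ : ∃ W : ℝ, W = 2 * (V : ℝ) + 1 := ⟨_, rfl⟩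
  obtain ⟨Φ, hΦ⟩ : ∃ Φ : ℝ, Φ = ∑ h ∈ bxS r (2 * Y), ∑ y ∈ Ico (-(Y : ℤ)) Y,
    ‖∑ n ∈ range X, DV h F (y + P0 n)‖ ^ 2 := ⟨_, rfl⟩
  obtain ⟨a, ha⟩ : ∃ a : ℕ → ℕ → ℝ, a = fun n n' => ‖∑ t ∈ bZ b s,
    (∏ i, (G i (lft (c i) t + P i n) * (starRingEnd ℂ) (G i (lft (c i) t + P i n')))) *
        ((if t ∈ bZ b s then (1 : ℂ) else 0) * (F (lft c0 t + P0 n) * (starRingEnd ℂ) (F (lft c0 t + P0 n'))))‖ := ⟨_, rfl⟩
  obtain ⟨M, hM⟩ : ∃ M : ℕ → ℕ → ℝ, M = fun n n' => (∑ j ∈ bxS r T, ((WT T j : ℝ) : ℂ) *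
        ∑ z ∈ bZ b s, DL (List.ofFn fun i => j i • v i) (fun z => (if z ∈ bZ b s then (1 : ℂ) else 0) *
          (F (lft c0 z + P0 n) * (starRingEnd ℂ) (F (lft c0 z + P0 n')))) z).re := ⟨_, rfl⟩
  have ha0 : ∀ n n', 0 ≤ a n n' := fun n n' => by rw [ha]; exact norm_nonneg _
  have hopen' : ∑ t ∈ bZ b s, ‖∑ n ∈ range X, w n * F (lft c0 t + P0 n) * ∏ i, G i (lft (c i) t + P i n)‖ ^ 2 ≤
      ∑ n ∈ range X, ∑ n' ∈ range X, a n n' := by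
    rw [ha]
    exact hopen
  have hsum' : ∑ n ∈ range X, ∑ n' ∈ range X, M n n' ≤ S / T * Φ := by
    rw [hM, hS, hΦ]
    exact hsum
  have helim' : ∀ n n', (a n n' / (W ^ d * S)) ^ (2 ^ r) ≤ 2 ^ (2 ^ r) / (T : ℝ) ^ r * (M n n' / (W ^ d * S)) := by
    intro n n'
    rw [ha, hM, hS, hW]
    exact helim n n'
  rw [← hS, ← hW, ← hΦ]
  rw [← hS] at hS0
  rw [← hW] at hV1
  obtain ⟨Q, hQ⟩ : ∃ Q : ℝ, Q = ∑ t ∈ bZ b s, ‖∑ n ∈ range X, w n * F (lft c0 t + P0 n) *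
    ∏ i, G i (lft (c i) t + P i n)‖ ^ 2 := ⟨_, rfl⟩
  rw [← hQ] at hopen' ⊢
  have hQ0 : 0 ≤ Q := by
    rw [hQ]
    exact Finset.sum_nonneg fun _ _ => sq_nonneg _
  have hΦ0 : 0 ≤ Φ := by
    rw [hΦ]
    exact Finset.sum_nonneg fun _ _ => Finset.sum_nonneg fun _ _ => sq_nonneg _
  have hW0 : 0 < W := by linarith
  have hWd : 0 < W ^ d := pow_pos hW0 d
  have hWd1 : 1 ≤ W ^ d := one_le_pow₀ hV1
  have e1 : Q / ((X : ℝ) ^ 2 * S) ≤ (∑ n ∈ range X, ∑ n' ∈ range X, W ^ d * (a n n' / (W ^ d * S))) / (X : ℝ) ^ 2 := by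
    have h1 : ∑ n ∈ range X, ∑ n' ∈ range X, W ^ d * (a n n' / (W ^ d * S)) =
        (∑ n ∈ range X, ∑ n' ∈ range X, a n n') / S := by
      rw [Finset.sum_div]
      refine Finset.sum_congr rfl fun n _ => ?_
      rw [Finset.sum_div]
      refine Finset.sum_congr rfl fun n' _ => ?_
      field_simp
    rw [h1, div_div, mul_comm S]
    exact div_le_div_of_nonneg_right hopen' (by positivity)
  have e2 : (Q / ((X : ℝ) ^ 2 * S)) ^ (2 ^ r) ≤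
      (∑ n ∈ range X, ∑ n' ∈ range X, (W ^ d * (a n n' / (W ^ d * S))) ^ (2 ^ r)) / (X : ℝ) ^ 2 :=
    (pow_le_pow_left₀ (by positivity) e1 _).trans (p3_mean X (2 ^ r) hX _ fun n n' =>
      mul_nonneg hWd.le (div_nonneg (ha0 n n') (by positivity)))
  have e3 : ∑ n ∈ range X, ∑ n' ∈ range X, (W ^ d * (a n n' / (W ^ d * S))) ^ (2 ^ r) ≤
      ∑ n ∈ range X, ∑ n' ∈ range X, W ^ (d * 2 ^ r) * (2 ^ (2 ^ r) / (T : ℝ) ^ r * (M n n' / (W ^ d * S))) := by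
    refine Finset.sum_le_sum fun n _ => Finset.sum_le_sum fun n' _ => ?_
    rw [mul_pow, ← pow_mul]
    exact mul_le_mul_of_nonneg_left (helim' n n') (by positivity)
  have e4 : ∑ n ∈ range X, ∑ n' ∈ range X, W ^ (d * 2 ^ r) * (2 ^ (2 ^ r) / (T : ℝ) ^ r * (M n n' / (W ^ d * S))) =
      W ^ (d * 2 ^ r) * 2 ^ (2 ^ r) / (T : ℝ) ^ r / (W ^ d * S) * ∑ n ∈ range X, ∑ n' ∈ range X, M n n' := by
    rw [Finset.mul_sum]
    refine Finset.sum_congr rfl fun n _ => ?_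
    rw [Finset.mul_sum]
    refine Finset.sum_congr rfl fun n' _ => ?_
    ring
  have e5 : W ^ (d * 2 ^ r) * 2 ^ (2 ^ r) / (T : ℝ) ^ r / (W ^ d * S) * ∑ n ∈ range X, ∑ n' ∈ range X, M n n' ≤
      W ^ (d * 2 ^ r) * 2 ^ (2 ^ r) / (T : ℝ) ^ r / (W ^ d * S) * (S / T * Φ) :=
    mul_le_mul_of_nonneg_left hsum' (by positivity)
  have e6 : W ^ (d * 2 ^ r) * 2 ^ (2 ^ r) / (T : ℝ) ^ r / (W ^ d * S) * (S / T * Φ) =
      (2 ^ (2 ^ r) * W ^ (d * 2 ^ r) / (T : ℝ) ^ (r + 1) * Φ) / W ^ d := by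
    rw [pow_succ (T : ℝ) r]
    field_simp
  have e7 : (2 ^ (2 ^ r) * W ^ (d * 2 ^ r) / (T : ℝ) ^ (r + 1) * Φ) / W ^ d ≤
      2 ^ (2 ^ r) * W ^ (d * 2 ^ r) / (T : ℝ) ^ (r + 1) * Φ :=
    div_le_self (by positivity) hWd1
  have e8 := (e3.trans (e4.le.trans e5)).trans (e6.le.trans e7)
  refine (e2.trans (div_le_div_of_nonneg_right e8 (by positivity))).trans (le_of_eq ?_)
  field_simp

end Pool.Agent.HUP
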