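import Pool.Agent.Lib.HUP.Defs2
import Pool.Agent.Lib.HUP.F1
import Pool.Agent.Lib.HUP.P3
import Pool.Agent.Lib.HUK.E1

/-!
# Projects HUP and HPC, module F (the second moment `FMT` from Theorem P), F6: elimination in the parameters
-/

open Finset Polynomial

namespace Pool.Agent.HUP

open Pool.Agent.HUK (GG DD DL DV FF bxS Bdd)

/-- Differences in the second component. -/
theorem f6_snd {A G : Type*} [AddCommGroup A] [AddCommGroup G] {r : ℕ} (j : Fin r → ℤ) (v : Fin r → G)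
    (F : A × G → ℂ) (a : A) (t : G) :
    DL (List.ofFn fun i => j i • ((0 : A), v i)) F (a, t) =
      DL (List.ofFn fun i => j i • v i) (fun t => F (a, t)) t := by
  induction r generalizing F with
  | zero => rfl
  | succ r ih =>
    rw [List.ofFn_succ, List.ofFn_succ]
    have h1 : (fun t => DD (j 0 • ((0 : A), v 0)) F (a, t)) = DD (j 0 • v 0) (fun t => F (a, t)) := by
      funext t
      show F (a, t) * (starRingEnd ℂ) (F ((a, t) + j 0 • ((0 : A), v 0))) =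
        F (a, t) * (starRingEnd ℂ) (F (a, t + j 0 • v 0))
      have h2 : (a, t) + j 0 • ((0 : A), v 0) = (a, t + j 0 • v 0) := by
        rw [Prod.smul_mk, Prod.mk_add_mk, smul_zero, add_zero]
      rw [h2]
    show DL (List.ofFn fun i : Fin r => j i.succ • ((0 : A), v i.succ)) (DD (j 0 • ((0 : A), v 0)) F) (a, t) =
      DL (List.ofFn fun i : Fin r => j i.succ • v i.succ) (DD (j 0 • v 0) (fun t => F (a, t))) t
    rw [ih (fun i => j i.succ) (fun i => v i.succ) (DD (j 0 • ((0 : A), v 0)) F), h1]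

theorem f6_one {G : Type*} [AddCommMonoid G] (l : List G) (z : G) : DL l (fun _ => (1 : ℂ)) z = 1 := by
  induction l with
  | nil => rfl
  | cons a l ih =>
    have h1 : DD a (fun _ : G => (1 : ℂ)) = fun _ => 1 := by
      funext z
      show (1 : ℂ) * (starRingEnd ℂ) 1 = 1
      rw [map_one, mul_one]
    show DL l (DD a (fun _ => (1 : ℂ))) z = 1
    rw [h1]
    exact ih

/-- Differences of a finite product. -/
theorem f6_prod {G ι : Type*} [AddCommMonoid G] (l : List G) (S : Finset ι) (F : ι → G → ℂ) (z : G) :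
    DL l (fun z => ∏ i ∈ S, F i z) z = ∏ i ∈ S, DL l (F i) z := by
  classical
  induction S using Finset.induction_on with
  | empty =>
    simp only [Finset.prod_empty]
    exact f6_one l z
  | insert a S ha ih =>
    rw [Finset.prod_insert ha]
    have h1 : (fun z => ∏ i ∈ insert a S, F i z) = fun z => F a z * ∏ i ∈ S, F i z := by
      funext z
      rw [Finset.prod_insert ha]
    rw [h1, Pool.Agent.HUK.DL_mul]
    show DL l (F a) z * DL l (fun z => ∏ i ∈ S, F i z) z = _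
    rw [ih]

/-- Sums over the box with the pair `(n, n')`. -/
theorem f6_sum {d : ℕ} (I : Finset ℕ) (T : Finset (Fin d → ℤ)) (F : (ℤ × ℤ) × (Fin d → ℤ) → ℂ) :
    ∑ z ∈ (I.map Nat.castEmbedding ×ˢ I.map Nat.castEmbedding) ×ˢ T, F z =
      ∑ n ∈ I, ∑ n' ∈ I, ∑ t ∈ T, F (((n : ℤ), (n' : ℤ)), t) := by
  rw [Finset.sum_product, Finset.sum_product, Finset.sum_map]
  refine Finset.sum_congr rfl fun n _ => ?_
  rw [Finset.sum_map]
  rfl

/-- Opening the square. -/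
theorem f6_open {k d : ℕ} (I : Finset ℕ) (T : Finset (Fin d → ℤ)) (w : ℕ → ℂ) (A : Fin k → ℕ → (Fin d → ℤ) → ℂ) :
    ((∑ t ∈ T, ‖∑ n ∈ I, w n * ∏ i, A i n t‖ ^ 2 : ℝ) : ℂ) =
      ∑ n ∈ I, ∑ n' ∈ I, ∑ t ∈ T, (w n * (starRingEnd ℂ) (w n')) * ∏ i, (A i n t * (starRingEnd ℂ) (A i n' t)) := by
  rw [Complex.ofReal_sum]
  rw [Finset.sum_congr rfl fun t _ => Pool.Agent.HUK.e0_sq I fun n => w n * ∏ i, A i n t]
  rw [Finset.sum_comm]
  refine Finset.sum_congr rfl fun n _ => ?_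
  rw [Finset.sum_comm]
  refine Finset.sum_congr rfl fun n' _ => Finset.sum_congr rfl fun t _ => ?_
  rw [Finset.prod_mul_distrib, map_mul, map_prod]
  ring

/-- The differences of the functions which are not eliminated, for a fixed pair `(n, n')`. -/
theorem f6_diff {k d r : ℕ} (c : Fin k → Fin d → ℤ) (v : Fin r → Fin d → ℤ) (j : Fin r → ℤ) (T : Finset (Fin d → ℤ))
    (K : Finset (Fin k)) (f : Fin k → ℤ → ℂ) (a a' : Fin k → ℤ) (u : (Fin d → ℤ) → ℝ)
    (hu : ∀ z, DL (List.ofFn fun i => j i • v i) (fun z => if z ∈ T then (1 : ℂ) else 0) z = ((u z : ℝ) : ℂ))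
    (t : Fin d → ℤ) :
    DL (List.ofFn fun i => j i • v i) (fun t => (if t ∈ T then (1 : ℂ) else 0) *
      ∏ i ∈ K, (f i (lft (c i) t + a i) * (starRingEnd ℂ) (f i (lft (c i) t + a' i)))) t =
    ((u t : ℝ) : ℂ) * (∏ i ∈ K, (starRingEnd ℂ) (DV (fun r => lft (c i) (v r) * j r) (f i) (lft (c i) t + a' i))) *
      ∏ i ∈ K, DV (fun r => lft (c i) (v r) * j r) (f i) (lft (c i) t + a i) := by
  rw [Pool.Agent.HUK.DL_mul]
  show DL (List.ofFn fun i => j i • v i) (fun t => if t ∈ T then (1 : ℂ) else 0) t *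
    DL (List.ofFn fun i => j i • v i) (fun t => ∏ i ∈ K, (f i (lft (c i) t + a i) *
      (starRingEnd ℂ) (f i (lft (c i) t + a' i)))) t = _
  rw [hu t, f6_prod]
  have h1 : ∀ i ∈ K, DL (List.ofFn fun i => j i • v i) (fun t => f i (lft (c i) t + a i) *
      (starRingEnd ℂ) (f i (lft (c i) t + a' i))) t =
      (starRingEnd ℂ) (DV (fun r => lft (c i) (v r) * j r) (f i) (lft (c i) t + a' i)) *
        DV (fun r => lft (c i) (v r) * j r) (f i) (lft (c i) t + a i) := by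
    intro i _
    rw [Pool.Agent.HUK.DL_mul]
    have e3 := p3_comp (c i) v j (fun y => f i (y + a i)) t
    have e4 := p3_comp (c i) v j (fun y => (starRingEnd ℂ) (f i (y + a' i))) t
    have e5 := p3_shift (fun r => lft (c i) (v r) * j r) (f i) (a i) (lft (c i) t)
    have e6 := p3_conj (fun r => lft (c i) (v r) * j r) (fun y => f i (y + a' i)) (lft (c i) t)
    have e7 := p3_shift (fun r => lft (c i) (v r) * j r) (f i) (a' i) (lft (c i) t)
    rw [e5] at e3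
    rw [e6, e7] at e4
    show DL (List.ofFn fun i => j i • v i) (fun t => f i (lft (c i) t + a i)) t *
      DL (List.ofFn fun i => j i • v i) (fun t => (starRingEnd ℂ) (f i (lft (c i) t + a' i))) t = _
    rw [e3, e4, mul_comm]
  rw [Finset.prod_congr rfl h1, Finset.prod_mul_distrib, mul_assoc]

/-- The cardinality of the enlarged box. -/
theorem f6_card {d : ℕ} (C0 V X D0 n0 N : ℕ) (hX : 1 ≤ X) (e : Fin d → ℕ) (b : Fin d → ℤ) (σ : Fin d → ℕ)
    (hσ : ∀ j, σ j ≤ C0 * X ^ e j) (hN : n0 + N ≤ C0 * X) :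
    ((((Ico n0 (n0 + N)).map (Nat.castEmbedding : ℕ ↪ ℤ) ×ˢ (Ico n0 (n0 + N)).map (Nat.castEmbedding : ℕ ↪ ℤ)) ×ˢ
      Fintype.piFinset fun l : Fin d => if e l = D0 then Ico (b l - V * X ^ D0) (b l + σ l + V * X ^ D0) else
        Ico (b l) (b l + σ l)).card : ℝ) ≤ ((C0 + 2 * V + 1 : ℕ) : ℝ) ^ (d + 2) * (X : ℝ) ^ (2 + ∑ j, e j) := by
  have h1 : ∀ l : Fin d, (if e l = D0 then Ico (b l - V * X ^ D0) (b l + σ l + V * X ^ D0) else
        Ico (b l) (b l + σ l)).card ≤ (C0 + 2 * V + 1) * X ^ e l := by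
    intro l
    have hσ' := hσ l
    by_cases h : e l = D0
    · rw [if_pos h, Int.card_Ico]
      have h2 : (b l + σ l + V * X ^ D0 - (b l - V * X ^ D0) : ℤ) = ((σ l + 2 * V * X ^ D0 : ℕ) : ℤ) := by
        push_cast
        ring
      rw [h2, Int.toNat_natCast]
      rw [h] at hσ' ⊢
      nlinarith [Nat.zero_le (X ^ D0)]
    · rw [if_neg h, Int.card_Ico]
      have h2 : (b l + σ l - b l : ℤ) = ((σ l : ℕ) : ℤ) := by ring
      rw [h2, Int.toNat_natCast]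
      nlinarith [Nat.zero_le (X ^ e l), Nat.zero_le (V * X ^ e l)]
  have h3 : (((Ico n0 (n0 + N)).map (Nat.castEmbedding : ℕ ↪ ℤ) ×ˢ (Ico n0 (n0 + N)).map (Nat.castEmbedding : ℕ ↪ ℤ)) ×ˢ
      Fintype.piFinset fun l : Fin d => if e l = D0 then Ico (b l - V * X ^ D0) (b l + σ l + V * X ^ D0) else
        Ico (b l) (b l + σ l)).card ≤ (C0 + 2 * V + 1) ^ (d + 2) * X ^ (2 + ∑ j, e j) := by
    rw [card_product, card_product, card_map, Nat.card_Ico, Fintype.card_piFinset]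
    have h4 : n0 + N - n0 ≤ (C0 + 2 * V + 1) * X := by
      have h5 : C0 * X ≤ (C0 + 2 * V + 1) * X := Nat.mul_le_mul_right X (by omega)
      omega
    have h6 := Finset.prod_le_prod' (s := (univ : Finset (Fin d))) fun l _ => h1 l
    refine (Nat.mul_le_mul (Nat.mul_le_mul h4 h4) h6).trans (le_of_eq ?_)
    rw [Finset.prod_mul_distrib, Finset.prod_const, card_univ, Fintype.card_fin, Finset.prod_pow_eq_pow_sum]
    ring
  exact_mod_cast h3

/-- Shifts stay in the enlarged box. -/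
theorem f6_shift {d : ℕ} (V X D0 : ℕ) (J : Finset ℤ) (e : Fin d → ℕ) (b : Fin d → ℤ) (σ : Fin d → ℕ) (v : Fin d → ℤ)
    (hv : ∀ l, v l ≠ 0 → e l = D0) (hV : ∀ l, |v l| ≤ V) (z : (ℤ × ℤ) × (Fin d → ℤ)) (h : ℕ) (hh : h < X ^ D0)
    (hz : z + h • ((0 : ℤ × ℤ), v) ∈ (J ×ˢ J) ×ˢ tb b σ) :
    z ∈ (J ×ˢ J) ×ˢ Fintype.piFinset fun l : Fin d => if e l = D0 then Ico (b l - V * X ^ D0) (b l + σ l + V * X ^ D0) else
        Ico (b l) (b l + σ l) := by
  rw [mem_product] at hz ⊢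
  have h1 : (z + h • ((0 : ℤ × ℤ), v)).1 = z.1 := by
    rw [Prod.fst_add, Prod.smul_fst, smul_zero, add_zero]
  have h2 : (z + h • ((0 : ℤ × ℤ), v)).2 = z.2 + h • v := by
    rw [Prod.snd_add, Prod.smul_snd]
  rw [h1, h2] at hz
  refine ⟨hz.1, ?_⟩
  have hz2 := hz.2
  unfold tb at hz2
  rw [Fintype.mem_piFinset] at hz2 ⊢
  intro l
  have h3 := mem_Ico.1 (hz2 l)
  have h4 : (z.2 + h • v) l = z.2 l + (h : ℤ) * v l := by simp
  rw [h4] at h3
  by_cases h5 : e l = D0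
  · rw [if_pos h5, mem_Ico]
    have h6 := abs_le.1 (hV l)
    have h7 : (h : ℤ) ≤ (X : ℤ) ^ D0 := by exact_mod_cast hh.le
    have h8 : (0 : ℤ) ≤ V := Int.natCast_nonneg V
    have h9 : (0 : ℤ) ≤ h := Int.natCast_nonneg h
    have h10 : (h : ℤ) * v l ≤ V * X ^ D0 := by nlinarith
    have h11 : -(V * X ^ D0 : ℤ) ≤ (h : ℤ) * v l := by nlinarith
    constructor
    · linarith [h3.1]
    · linarith [h3.2]
  · rw [if_neg h5, mem_Ico]
    have h6 : v l = 0 := by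
      by_contra hc
      exact h5 (hv l hc)
    rw [h6, mul_zero, add_zero] at h3
    exact h3

/-- **F6.** Proof. `V = max |v r l|`. Open the square (`p3c_sq`, `map_sum`): the left sum is
`∑_{(n,n') ∈ I × I} ∑_{t ∈ box} w n conj(w n') ∏_i f i (y_i(n)) conj (f i (y_i(n')))`, `y_i(n) = P_i(n) + (β_i + lf c t i)`. `HUK.E1_elim` in the group
`G = ℤ × ℤ × (Fin d → ℤ)` (or `(ℤ × ℤ) × …`), `B = I × I × tb b σ`, directions `(0, 0, v r)`, `r = k + 1`, `H = X^(D i0)`; the functions: `g 0` = product of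
`w n conj (w n')` and of all factors with `D i ≠ D i0`; `g (i.succ)` = the factor `i` if `D i = D i0`, `i ∉ Kz c D i0`, and `1` else; `cc` = the indicator of `B`
times the factors `i ∈ Kz c D i0`. Invariance: `F1_vec`. `B'`: sides `σ j` for `e j ≠ D i0` (there `v r j = 0`), and
`[b_j - V X^(D i0), b_j + σ_j + V X^(D i0))` for `e j = D i0`: `N = (C0 + 2 V + 1)^(d + 2) X^(2 + ∑ e)`. The differences of `cc`: `DL_mul`, `DL_prod`-type rules: the
indicator gives a function with values in `{0, 1}` (`p3_ind`), `f i (P_i(n) + β_i + lf c t i)` gives `DV (fun r => lf c (v r) i * j r) (f i)` at the same point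
(`p3_comp`, `p3_shift`), the conjugate factors with `n'` likewise (`p3_conj`); for fixed `n'` put them and the indicator into
`h j n' t`. Finally `‖∑_{n'} …‖ ≤ ∑_{n'} ‖…‖`. -/
theorem F6_elim {k d : ℕ} (c : Fin k → Fin d → ℤ) (e : Fin d → ℕ) (D : Fin k → ℕ) (a : Fin k → ℤ) (hD : Dat c e D a)
    (i0 : Fin k) (v : Fin (k + 1) → Fin d → ℤ) (hv : ∀ r j, v r j ≠ 0 → e j = D i0)
    (hv2 : ∀ i, (D i ≠ D i0 → ∀ r, lf c (v r) i = 0) ∧ (D i = D i0 → i ∉ Kz c D i0 → lf c (v i.succ) i = 0))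
    (C0 : ℕ) : ∃ C : ℝ, 1 ≤ C ∧ ∀ X : ℕ, 1 ≤ X → ∀ P : Fin k → ℤ[X],
    ∀ (β : Fin k → ℤ) (b : Fin d → ℤ) (σ : Fin d → ℕ), (∀ j, σ j ≤ C0 * X ^ e j) →
    ∀ n0 N : ℕ, n0 + N ≤ C0 * X → ∀ w : ℕ → ℂ, (∀ n, ‖w n‖ ≤ 1) →
    ∀ f : Fin k → ℤ → ℂ, (∀ i m, ‖f i m‖ ≤ 1) →
    ∃ h : (Fin (k + 1) → ℤ) → ℕ → (Fin d → ℤ) → ℂ, (∀ j n t, ‖h j n t‖ ≤ 1) ∧
    ((∑ t ∈ tb b σ, ‖∑ n ∈ Ico n0 (n0 + N), w n * ∏ i, f i ((P i).eval (n : ℤ) + (β i + lf c t i))‖ ^ 2) /
      (X : ℝ) ^ (2 + ∑ j, e j)) ^ 2 ^ (k + 1) ≤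
    C / (X : ℝ) ^ (D i0 * (k + 1)) * ∑ j ∈ bxS (k + 1) (X ^ D i0), (∑ n' ∈ Ico n0 (n0 + N),
      ‖∑ n ∈ Ico n0 (n0 + N), ∑ t ∈ tb b σ, h j n' t * ∏ i ∈ Kz c D i0,
        DV (fun r => lf c (v r) i * j r) (f i) ((P i).eval (n : ℤ) + (β i + lf c t i))‖) / (X : ℝ) ^ (2 + ∑ j, e j) := by
  obtain ⟨V, hV⟩ : ∃ V : ℕ, ∀ i l, |v i l| ≤ V := by
    refine ⟨∑ i, ∑ l, (v i l).natAbs, fun i l => ?_⟩
    have h1 : (v i l).natAbs ≤ ∑ l, (v i l).natAbs :=
      Finset.single_le_sum (f := fun l => (v i l).natAbs) (fun _ _ => Nat.zero_le _) (mem_univ l)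
    have h2 : ∑ l, (v i l).natAbs ≤ ∑ i, ∑ l, (v i l).natAbs :=
      Finset.single_le_sum (f := fun i => ∑ l, (v i l).natAbs) (fun _ _ => Nat.zero_le _) (mem_univ i)
    have h3 := h1.trans h2
    rw [Int.abs_eq_natAbs]
    exact_mod_cast h3
  obtain ⟨W, hW⟩ : ∃ W : ℝ, W = ((C0 + 2 * V + 1 : ℕ) : ℝ) := ⟨_, rfl⟩
  have hW1 : 1 ≤ W := by
    rw [hW]
    push_cast
    have h1 : (0 : ℝ) ≤ C0 := Nat.cast_nonneg _
    have h2 : (0 : ℝ) ≤ V := Nat.cast_nonneg _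
    linarith
  refine ⟨2 ^ (2 ^ (k + 1)) * (W ^ (d + 2)) ^ 2 ^ (k + 1),
    one_le_mul_of_one_le_of_one_le (one_le_pow₀ one_le_two) (one_le_pow₀ (one_le_pow₀ hW1)), ?_⟩
  intro X hX P β b σ hσ n0 N hN w hw f hf
  have hY : ∀ (i : Fin k) (n : ℤ) (t : Fin d → ℤ), (P i).eval n + (β i + lf c t i) =
      lft (c i) t + ((P i).eval n + β i) := by
    intro i n t
    show (P i).eval n + (β i + lft (c i) t) = _
    ring
  simp only [hY]
  choose u hu hu' using fun j : Fin (k + 1) → ℤ => p3_ind (tb b σ) (List.ofFn fun i => j i • v i)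
  refine ⟨fun j n' t => ((u j t : ℝ) : ℂ) * ∏ i ∈ Kz c D i0, (starRingEnd ℂ)
    (DV (fun r => lft (c i) (v r) * j r) (f i) (lft (c i) t + ((P i).eval (n' : ℤ) + β i))), ?_, ?_⟩
  · intro j n t
    rw [norm_mul]
    have h1 : ‖((u j t : ℝ) : ℂ)‖ ≤ 1 := by
      rcases hu j t with h | h
      · rw [h, Complex.ofReal_zero, norm_zero]
        exact zero_le_one
      · rw [h, Complex.ofReal_one, norm_one]
    refine mul_le_one₀ h1 (norm_nonneg _) ?_
    rw [norm_prod]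
    refine Finset.prod_le_one (fun i _ => norm_nonneg _) fun i _ => ?_
    rw [RCLike.norm_conj]
    exact Pool.Agent.HUK.DL_norm _ _ (hf i) _
  · have hX0 : (0 : ℝ) < X := by exact_mod_cast hX
    obtain ⟨I, hI⟩ : ∃ I : Finset ℕ, I = Ico n0 (n0 + N) := ⟨_, rfl⟩
    obtain ⟨E, hE⟩ : ∃ E : ℝ, E = (X : ℝ) ^ (2 + ∑ j, e j) := ⟨_, rfl⟩
    have hE0 : 0 < E := by rw [hE]; positivity
    have hWd : 1 ≤ W ^ (d + 2) := one_le_pow₀ hW1
    have hWd0 : 0 < W ^ (d + 2) := lt_of_lt_of_le one_pos hWd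
    -- the factors
    obtain ⟨Fa, hFa⟩ : ∃ Fa : Fin k → (ℤ × ℤ) × (Fin d → ℤ) → ℂ, Fa = fun i z =>
      f i (lft (c i) z.2 + ((P i).eval z.1.1 + β i)) *
        (starRingEnd ℂ) (f i (lft (c i) z.2 + ((P i).eval z.1.2 + β i))) := ⟨_, rfl⟩
    have hFa1 : ∀ i z, ‖Fa i z‖ ≤ 1 := by
      intro i z
      rw [hFa]
      show ‖_ * _‖ ≤ 1
      rw [norm_mul, RCLike.norm_conj]
      exact mul_le_one₀ (hf _ _) (norm_nonneg _) (hf _ _)
    have hFai : ∀ i (x : Fin d → ℤ) (z : (ℤ × ℤ) × (Fin d → ℤ)), lft (c i) x = 0 →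
        Fa i (z + ((0 : ℤ × ℤ), x)) = Fa i z := by
      intro i x z hx
      rw [hFa]
      show f i (lft (c i) (z.2 + x) + ((P i).eval (z.1.1 + 0) + β i)) *
        (starRingEnd ℂ) (f i (lft (c i) (z.2 + x) + ((P i).eval (z.1.2 + 0) + β i))) = _
      rw [p3_lf_add, hx, add_zero, add_zero, add_zero]
    obtain ⟨T, hT⟩ : ∃ T : Finset (Fin d → ℤ), T = tb b σ := ⟨_, rfl⟩
    obtain ⟨J, hJ⟩ : ∃ J : Finset ℤ, J = I.map (Nat.castEmbedding : ℕ ↪ ℤ) := ⟨_, rfl⟩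
    have hcard := f6_card C0 V X (D i0) n0 N hX e b σ hσ hN
    rw [← hI, ← hJ, ← hW, ← hE] at hcard
    -- the functions
    obtain ⟨g, hg0, hgs⟩ : ∃ g : Fin (k + 1) → (ℤ × ℤ) × (Fin d → ℤ) → ℂ,
        (∀ z, g 0 z = (w z.1.1.toNat * (starRingEnd ℂ) (w z.1.2.toNat)) *
          ∏ i, if D i ≠ D i0 then Fa i z else 1) ∧
        ∀ i z, g (Fin.succ i) z = if D i = D i0 ∧ i ∉ Kz c D i0 then Fa i z else 1 :=
      ⟨Fin.cons (fun z => (w z.1.1.toNat * (starRingEnd ℂ) (w z.1.2.toNat)) *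
          ∏ i, if D i ≠ D i0 then Fa i z else 1)
        (fun i z => if D i = D i0 ∧ i ∉ Kz c D i0 then Fa i z else 1), fun _ => rfl, fun _ _ => rfl⟩
    obtain ⟨cc, hcc⟩ : ∃ cc : (ℤ × ℤ) × (Fin d → ℤ) → ℂ, cc = fun z =>
      (if z ∈ (J ×ˢ J) ×ˢ T then (1 : ℂ) else 0) * ∏ i ∈ Kz c D i0, Fa i z := ⟨_, rfl⟩
    have hgn : ∀ i z, ‖g i z‖ ≤ 1 := by
      intro i z
      refine Fin.cases ?_ (fun i => ?_) i
      · rw [hg0, norm_mul, norm_mul, RCLike.norm_conj, norm_prod]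
        refine mul_le_one₀ (mul_le_one₀ (hw _) (norm_nonneg _) (hw _))
          (Finset.prod_nonneg fun i _ => norm_nonneg _) (Finset.prod_le_one (fun i _ => norm_nonneg _) fun i _ => ?_)
        split_ifs
        · exact hFa1 i z
        · rw [norm_one]
      · rw [hgs]
        split_ifs
        · exact hFa1 i z
        · rw [norm_one]
    have hginv : ∀ i z, g i (z + ((0 : ℤ × ℤ), v i)) = g i z := by
      intro i z
      have h1 : (z + ((0 : ℤ × ℤ), v i)).1 = z.1 := by rw [Prod.fst_add, add_zero]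
      refine Fin.cases ?_ (fun i => ?_) i
      · rw [hg0, hg0]
        have h1 : (z + ((0 : ℤ × ℤ), v 0)).1 = z.1 := by rw [Prod.fst_add, add_zero]
        rw [h1]
        congr 1
        refine Finset.prod_congr rfl fun i _ => ?_
        by_cases h2 : D i ≠ D i0
        · rw [if_pos h2, if_pos h2]
          exact hFai i _ z ((hv2 i).1 h2 0)
        · rw [if_neg h2, if_neg h2]
      · rw [hgs, hgs]
        by_cases h2 : D i = D i0 ∧ i ∉ Kz c D i0
        · rw [if_pos h2, if_pos h2]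
          exact hFai i _ z ((hv2 i).2 h2.1 h2.2)
        · rw [if_neg h2, if_neg h2]
    have hHpos : 0 < X ^ D i0 := Nat.pow_pos hX
    have helim := Pool.Agent.HUK.E1_elim ((J ×ˢ J) ×ˢ T) _ (W ^ (d + 2) * E) hcard (mul_pos hWd0 hE0) (X ^ D i0) hHpos
      (k + 1) (fun i => ((0 : ℤ × ℤ), v i)) g cc hgn hginv (fun z hz => by
        rw [hcc]
        show (if z ∈ (J ×ˢ J) ×ˢ T then (1 : ℂ) else 0) * _ = 0
        rw [if_neg hz, zero_mul]) (fun i z h hh hz => by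
        rw [hT] at hz
        exact f6_shift V X (D i0) J e b σ (v i) (hv i) (hV i) z h hh hz)
    have hmem : ∀ n n' t, n ∈ I → n' ∈ I → ((((n : ℤ), (n' : ℤ)), t) ∈ (J ×ˢ J) ×ˢ T ↔ t ∈ T) := by
      intro n n' t hn hn'
      rw [mem_product, mem_product, hJ]
      exact ⟨fun h => h.2, fun h => ⟨⟨mem_map.2 ⟨n, hn, rfl⟩, mem_map.2 ⟨n', hn', rfl⟩⟩, h⟩⟩
    -- the left side
    have hlhs : ∑ t ∈ T, ‖∑ n ∈ I, w n * ∏ i, f i (lft (c i) t + ((P i).eval (n : ℤ) + β i))‖ ^ 2 =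
        ‖∑ z ∈ (J ×ˢ J) ×ˢ T, (∏ i, g i z) * cc z‖ := by
      have h1 := f6_open I T w (fun i n t => f i (lft (c i) t + ((P i).eval (n : ℤ) + β i)))
      have h2 : ∑ z ∈ (J ×ˢ J) ×ˢ T, (∏ i, g i z) * cc z =
          ((∑ t ∈ T, ‖∑ n ∈ I, w n * ∏ i, f i (lft (c i) t + ((P i).eval (n : ℤ) + β i))‖ ^ 2 : ℝ) : ℂ) := by
        have h0 : ∑ z ∈ (J ×ˢ J) ×ˢ T, (∏ i, g i z) * cc z =
            ∑ n ∈ I, ∑ n' ∈ I, ∑ t ∈ T, (∏ i, g i (((n : ℤ), (n' : ℤ)), t)) * cc (((n : ℤ), (n' : ℤ)), t) := by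
          rw [hJ, f6_sum]
        rw [h0]
        refine Eq.trans ?_ h1.symm
        refine Finset.sum_congr rfl fun n hn => Finset.sum_congr rfl fun n' hn' => Finset.sum_congr rfl fun t ht => ?_
        have hz := (hmem n n' t hn hn').2 ht
        rw [Fin.prod_univ_succ, hg0, hcc]
        have h3 : ∏ i ∈ Kz c D i0, Fa i (((n : ℤ), (n' : ℤ)), t) =
            ∏ i, if i ∈ Kz c D i0 then Fa i (((n : ℤ), (n' : ℤ)), t) else 1 := by
          rw [Finset.prod_ite_mem, Finset.univ_inter]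
        have h4 : ∏ i : Fin k, g i.succ (((n : ℤ), (n' : ℤ)), t) =
            ∏ i : Fin k, if D i = D i0 ∧ i ∉ Kz c D i0 then Fa i (((n : ℤ), (n' : ℤ)), t) else 1 :=
          Finset.prod_congr rfl fun i _ => hgs i _
        have h5 : ∀ i : Fin k, (if D i ≠ D i0 then Fa i (((n : ℤ), (n' : ℤ)), t) else 1) *
            (if D i = D i0 ∧ i ∉ Kz c D i0 then Fa i (((n : ℤ), (n' : ℤ)), t) else 1) *
            (if i ∈ Kz c D i0 then Fa i (((n : ℤ), (n' : ℤ)), t) else 1) = Fa i (((n : ℤ), (n' : ℤ)), t) := by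
          intro i
          by_cases h6 : i ∈ Kz c D i0
          · have h7 : D i = D i0 := by
              unfold Kz at h6
              exact (Finset.mem_filter.1 h6).2.1
            rw [if_neg (not_not.2 h7), if_neg fun h => h.2 h6, if_pos h6, one_mul, one_mul]
          · by_cases h7 : D i = D i0
            · rw [if_neg (not_not.2 h7), if_pos ⟨h7, h6⟩, if_neg h6, one_mul, mul_one]
            · rw [if_pos h7, if_neg fun h => h7 h.1, if_neg h6, mul_one, mul_one]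
        have h6 : ∏ i, Fa i (((n : ℤ), (n' : ℤ)), t) =
            (∏ i, if D i ≠ D i0 then Fa i (((n : ℤ), (n' : ℤ)), t) else 1) *
            (∏ i, if D i = D i0 ∧ i ∉ Kz c D i0 then Fa i (((n : ℤ), (n' : ℤ)), t) else 1) *
            ∏ i, if i ∈ Kz c D i0 then Fa i (((n : ℤ), (n' : ℤ)), t) else 1 := by
          rw [← Finset.prod_mul_distrib, ← Finset.prod_mul_distrib]
          exact Finset.prod_congr rfl fun i _ => (h5 i).symm
        have h7 : ∏ i, Fa i (((n : ℤ), (n' : ℤ)), t) =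
            ∏ i, (f i (lft (c i) t + ((P i).eval (n : ℤ) + β i)) *
              (starRingEnd ℂ) (f i (lft (c i) t + ((P i).eval (n' : ℤ) + β i)))) := by
          rw [hFa]
        show ((w (n : ℤ).toNat * (starRingEnd ℂ) (w (n' : ℤ).toNat)) *
            ∏ i, if D i ≠ D i0 then Fa i (((n : ℤ), (n' : ℤ)), t) else 1) *
            (∏ i : Fin k, g i.succ (((n : ℤ), (n' : ℤ)), t)) *
            ((if (((n : ℤ), (n' : ℤ)), t) ∈ (J ×ˢ J) ×ˢ T then (1 : ℂ) else 0) *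
              ∏ i ∈ Kz c D i0, Fa i (((n : ℤ), (n' : ℤ)), t)) =
          (w n * (starRingEnd ℂ) (w n')) * ∏ i, (f i (lft (c i) t + ((P i).eval (n : ℤ) + β i)) *
              (starRingEnd ℂ) (f i (lft (c i) t + ((P i).eval (n' : ℤ) + β i))))
        rw [h4, h3, ← h7, h6, if_pos hz, Int.toNat_natCast, Int.toNat_natCast]
        ring
      rw [h2, Complex.norm_real, Real.norm_of_nonneg (Finset.sum_nonneg fun _ _ => sq_nonneg _)]
    -- the differences
    have hdiff : ∀ (j : Fin (k + 1) → ℤ) (n n' : ℕ) (t : Fin d → ℤ), n ∈ I → n' ∈ I →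
        DL (List.ofFn fun i => j i • ((0 : ℤ × ℤ), v i)) cc (((n : ℤ), (n' : ℤ)), t) =
        (((u j t : ℝ) : ℂ) * ∏ i ∈ Kz c D i0, (starRingEnd ℂ)
          (DV (fun r => lft (c i) (v r) * j r) (f i) (lft (c i) t + ((P i).eval (n' : ℤ) + β i)))) *
        ∏ i ∈ Kz c D i0, DV (fun r => lft (c i) (v r) * j r) (f i) (lft (c i) t + ((P i).eval (n : ℤ) + β i)) := by
      intro j n n' t hn hn'
      rw [f6_snd]
      have h1 : (fun t => cc (((n : ℤ), (n' : ℤ)), t)) = fun t => (if t ∈ T then (1 : ℂ) else 0) *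
          ∏ i ∈ Kz c D i0, (f i (lft (c i) t + ((P i).eval (n : ℤ) + β i)) *
            (starRingEnd ℂ) (f i (lft (c i) t + ((P i).eval (n' : ℤ) + β i)))) := by
        funext t
        rw [hcc, hFa]
        show (if (((n : ℤ), (n' : ℤ)), t) ∈ (J ×ˢ J) ×ˢ T then (1 : ℂ) else 0) * _ = _
        by_cases h3 : t ∈ T
        · rw [if_pos h3, if_pos ((hmem n n' t hn hn').2 h3)]
        · rw [if_neg h3, if_neg fun h => h3 ((hmem n n' t hn hn').1 h)]
      rw [h1]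
      exact f6_diff c v j T (Kz c D i0) f (fun i => (P i).eval (n : ℤ) + β i) (fun i => (P i).eval (n' : ℤ) + β i)
        (u j) (by rw [hT]; exact hu' j) t
    have hjj : ∀ j : Fin (k + 1) → ℤ, ‖∑ z ∈ (J ×ˢ J) ×ˢ T, DL (List.ofFn fun i => j i • ((0 : ℤ × ℤ), v i)) cc z‖ ≤
        ∑ n' ∈ I, ‖∑ n ∈ I, ∑ t ∈ T, (((u j t : ℝ) : ℂ) * ∏ i ∈ Kz c D i0, (starRingEnd ℂ)
          (DV (fun r => lft (c i) (v r) * j r) (f i) (lft (c i) t + ((P i).eval (n' : ℤ) + β i)))) *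
          ∏ i ∈ Kz c D i0, DV (fun r => lft (c i) (v r) * j r) (f i)
            (lft (c i) t + ((P i).eval (n : ℤ) + β i))‖ := by
      intro j
      rw [hJ, f6_sum, Finset.sum_comm]
      refine (norm_sum_le _ _).trans (le_of_eq (Finset.sum_congr rfl fun n' hn' => congrArg norm ?_))
      exact Finset.sum_congr rfl fun n hn => Finset.sum_congr rfl fun t _ => hdiff j n n' t hn hn'
    rw [← hI, ← hT, ← hE, hlhs]
    have hcast : ((X ^ D i0 : ℕ) : ℝ) ^ (k + 1) = (X : ℝ) ^ (D i0 * (k + 1)) := by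
      rw [Nat.cast_pow, ← pow_mul]
    rw [hcast] at helim
    have hp1 : (‖∑ z ∈ (J ×ˢ J) ×ˢ T, (∏ i, g i z) * cc z‖ / E) ^ 2 ^ (k + 1) =
        (W ^ (d + 2)) ^ 2 ^ (k + 1) *
          (‖∑ z ∈ (J ×ˢ J) ×ˢ T, (∏ i, g i z) * cc z‖ / (W ^ (d + 2) * E)) ^ 2 ^ (k + 1) := by
      rw [← mul_pow]
      congr 1
      field_simp
    rw [hp1]
    refine (mul_le_mul_of_nonneg_left helim (by positivity)).trans ?_
    rw [← mul_assoc, ← mul_div_assoc, mul_comm ((W ^ (d + 2)) ^ 2 ^ (k + 1)) (2 ^ 2 ^ (k + 1))]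
    refine mul_le_mul_of_nonneg_left (Finset.sum_le_sum fun j _ => ?_) (by positivity)
    refine (div_le_div_of_nonneg_right (hjj j) (mul_pos hWd0 hE0).le).trans ?_
    refine div_le_div_of_nonneg_left (Finset.sum_nonneg fun _ _ => norm_nonneg _) hE0 ?_
    exact le_mul_of_one_le_left hE0.le hWd

end Pool.Agent.HUP
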