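import Pool.Agent.Lib.HUP.Defs2
import Pool.Agent.Lib.HUK.P1
import Pool.Agent.Lib.HUK.P0

/-!
# Projects HUP and HPC, module F (the second moment `FMT` from Theorem P), F7: differences with small norm
-/

open Finset Polynomial

namespace Pool.Agent.HUP

open Pool.Agent.HUK (GG DD DL DV FF bxS Bdd)

theorem f7_bxS (s H : ℕ) (F : (Fin (s + 1) → ℤ) → ℝ) :
    ∑ h ∈ bxS (s + 1) H, F h = ∑ k ∈ Ioo (-(H : ℤ)) H, ∑ h ∈ bxS s H, F (Fin.cons k h : Fin (s + 1) → ℤ) := by
  have h1 := Pool.Agent.HUK.bxS_sum s H (fun h => ((F h : ℝ) : ℂ))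
  exact_mod_cast h1

theorem f7_DL_zero {A B : ℤ} (l : List ℤ) (f : ℤ → ℂ) (hf : ∀ y, y ∉ Ico A B → f y = 0) (k : ℤ) (hk : k ∈ l)
    (hk2 : k ∉ Ioo (-(B - A)) (B - A)) : DL l f = fun _ => 0 := by
  induction l generalizing f with
  | nil => exact absurd hk List.not_mem_nil
  | cons a l ih =>
    change DL l (DD a f) = fun _ => 0
    rcases List.mem_cons.1 hk with h1 | h1
    · rw [← h1, Pool.Agent.HUK.p1_DD_zero hf k hk2]
      funext z
      exact Pool.Agent.HUK.DL_supp l _ z rfl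
    · refine ih (DD a f) ?_ h1
      intro y hy
      unfold DD
      rw [hf y hy, zero_mul]

/-- Proof. Induction on `r` with `GG_succ` (differences commute: `DV`, `List.ofFn_succ`; all `GG … ≥ 0` for `s ≥ 1`): `GG W (s + r) f =
∑_{h ∈ bxS r (2W)} GG W s (DV h f)`. -/
theorem F7_sum (W s r : ℕ) (hs : 1 ≤ s) (f : ℤ → ℂ) (hf : ∀ y, y ∉ Ico (-(W : ℤ)) W → f y = 0) :
    GG W (s + r) f = ∑ h ∈ bxS r (2 * W), GG W s (DV h f) := by
  induction r generalizing f with
  | zero =>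
    have h1 : bxS 0 (2 * W) = {(fun i : Fin 0 => i.elim0)} := by
      ext h
      rw [bxS, Fintype.mem_piFinset, Finset.mem_singleton]
      exact ⟨fun _ => Subsingleton.elim _ _, fun _ i => i.elim0⟩
    rw [h1, Finset.sum_singleton]
    rfl
  | succ r ih =>
    rw [f7_bxS, ← Nat.add_assoc, Pool.Agent.HUK.GG_succ]
    push_cast
    refine Finset.sum_congr rfl fun k _ => ?_
    rw [ih (DD k f) (Pool.Agent.HUK.p1_DD_supp hf k)]
    refine Finset.sum_congr rfl fun h _ => ?_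
    congr 1
    unfold DV
    rw [List.ofFn_cons]
    rfl

/-- **F7.** Proof. `j ↦ (μ r * j r)` is injective and `GG W s (DV h f) = 0` for `h ∉ bxS r (2W)` (the difference vanishes:
`p1_DD_zero`-type), so the sum over `j` is at most `GG W (s + r) f` (`F7_sum`). -/
theorem F7_inj (W s r T : ℕ) (hs : 1 ≤ s) (μ : Fin r → ℤ) (hμ : ∀ i, μ i ≠ 0) (f : ℤ → ℂ)
    (hf : ∀ y, y ∉ Ico (-(W : ℤ)) W → f y = 0) :
    ∑ j ∈ bxS r T, GG W s (DV (fun i => μ i * j i) f) ≤ GG W (s + r) f := by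
  classical
  rw [F7_sum W s r hs f hf]
  have hz : ∀ h : Fin r → ℤ, h ∉ bxS r (2 * W) → GG W s (DV h f) = 0 := by
    intro h hh
    have h1 : ∃ i, h i ∉ Ioo (-((2 * W : ℕ) : ℤ)) ((2 * W : ℕ) : ℤ) := by
      by_contra hc
      push Not at hc
      exact hh (by rw [bxS, Fintype.mem_piFinset]; exact hc)
    obtain ⟨i, hi⟩ := h1
    have h2 : DV h f = fun _ => 0 := by
      refine f7_DL_zero (A := -(W : ℤ)) (B := (W : ℤ)) (List.ofFn h) f hf (h i) ?_ ?_
      · rw [List.mem_ofFn]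
        exact ⟨i, rfl⟩
      · intro h3
        apply hi
        rw [mem_Ioo] at h3 ⊢
        push_cast
        omega
    rw [h2]
    exact Pool.Agent.HUK.p1_zero W s
  have hinj : Function.Injective (fun (j : Fin r → ℤ) (i : Fin r) => μ i * j i) := by
    intro a b hab
    funext i
    exact mul_left_cancel₀ (hμ i) (congrFun hab i)
  have h1 : ∑ j ∈ bxS r T, GG W s (DV (fun i => μ i * j i) f)
      = ∑ h ∈ (bxS r T).image (fun (j : Fin r → ℤ) (i : Fin r) => μ i * j i), GG W s (DV h f) := by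
    rw [Finset.sum_image fun a _ b _ hab => hinj hab]
  rw [h1, ← Finset.sum_filter_add_sum_filter_not _ (fun h => h ∈ bxS r (2 * W))]
  have h2 : ∑ h ∈ ((bxS r T).image (fun (j : Fin r → ℤ) (i : Fin r) => μ i * j i)).filter
      (fun h => ¬ h ∈ bxS r (2 * W)), GG W s (DV h f) = 0 :=
    Finset.sum_eq_zero fun h hh => hz h (Finset.mem_filter.1 hh).2
  rw [h2, add_zero]
  refine Finset.sum_le_sum_of_subset_of_nonneg ?_ ?_
  · intro h hh
    exact (Finset.mem_filter.1 hh).2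
  · intro h _ _
    refine Pool.Agent.HUK.GG_nonneg W s hs _ ?_
    intro y hy
    exact Pool.Agent.HUK.DL_supp _ f y (hf y hy)

end Pool.Agent.HUP
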