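import Pool.Agent.Lib.HUP.Defs2
import Pool.Agent.Lib.HUP.F5b
import Pool.Agent.Lib.HUP.F6
import Pool.Agent.Lib.HUP.F7

/-!
# Projects HUP and HPC, module F (the second moment `FMT` from Theorem P), F8: FMT
-/

open Finset Polynomial

namespace Pool.Agent.HUP

open Pool.Agent.HUK (GG DD DL DV FF bxS Bdd)

theorem f8_ev (C x : ℝ) (hx : 0 < x) : ∃ X0 : ℕ, ∀ X : ℕ, X0 ≤ X → C ≤ (X : ℝ) ^ x := by
  have h1 : Filter.Tendsto (fun Q : ℕ => (Q : ℝ) ^ x) Filter.atTop Filter.atTop :=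
    (tendsto_rpow_atTop hx).comp tendsto_natCast_atTop_atTop
  obtain ⟨Q0, h⟩ := Filter.eventually_atTop.mp (h1.eventually_ge_atTop C)
  exact ⟨Q0, h⟩

theorem f8_triv {d : ℕ} (n0 N : ℕ) (T : Finset (Fin d → ℤ)) (F : ℕ → (Fin d → ℤ) → ℂ) (hF : ∀ n t, ‖F n t‖ ≤ 1) :
    ‖∑ n ∈ Ico n0 (n0 + N), ∑ t ∈ T, F n t‖ ≤ N * T.card := by
  refine (norm_sum_le _ _).trans ?_
  have h1 : ∀ n ∈ Ico n0 (n0 + N), ‖∑ t ∈ T, F n t‖ ≤ T.card := by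
    intro n _
    refine (norm_sum_le _ _).trans ?_
    calc ∑ t ∈ T, ‖F n t‖ ≤ ∑ _t ∈ T, (1 : ℝ) := sum_le_sum fun t _ => hF n t
      _ = T.card := by rw [sum_const, nsmul_eq_mul, mul_one]
  refine (sum_le_sum h1).trans ?_
  rw [sum_const, Nat.card_Ico, nsmul_eq_mul, Nat.add_sub_cancel_left]

theorem f8_card {d : ℕ} (b : Fin d → ℤ) (σ e : Fin d → ℕ) (C0 X : ℕ) (h : ∀ j, σ j ≤ C0 * X ^ e j) :
    ((tb b σ).card : ℝ) ≤ (C0 : ℝ) ^ d * (X : ℝ) ^ (∑ j, e j) := by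
  have h1 : (tb b σ).card ≤ C0 ^ d * X ^ (∑ j, e j) := by
    unfold tb
    rw [Fintype.card_piFinset]
    calc ∏ j, (Ico (b j) (b j + σ j)).card ≤ ∏ j : Fin d, (C0 * X ^ e j) := by
          refine prod_le_prod (fun _ _ => Nat.zero_le _) fun j _ => ?_
          rw [Int.card_Ico]
          have := h j
          omega
      _ = C0 ^ d * X ^ (∑ j, e j) := by
          rw [prod_mul_distrib, prod_const, card_univ, Fintype.card_fin, prod_pow_eq_pow_sum]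
  exact_mod_cast h1

theorem f8_DV {s : ℕ} (h : Fin s → ℤ) (f : ℤ → ℂ) (hf : ∀ z, ‖f z‖ ≤ 1) (z : ℤ) : ‖DV h f z‖ ≤ 1 :=
  Pool.Agent.HUK.DL_norm _ f hf z

theorem f8_DV0 {s : ℕ} (h : Fin s → ℤ) (f : ℤ → ℂ) (z : ℤ) (hz : f z = 0) : DV h f z = 0 :=
  Pool.Agent.HUK.DL_supp _ f z hz

/-- **Module F.** Proof. `F1_vec` gives `v`, `F5_bil` (for `i0`, `C0`) gives `s0`; `s = s0 + (k + 1)`. Given `κ`: `F5_bil` with `κ/2` gives `δ0`. `F6_elim`; the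
functions `H i = DV (fun r => lf c (v r) i * j r) (f i)` are bounded by `1` and supported where `f i` is (`Bdd_DV`, `DL_supp`). Split the `j ∈ bxS (k+1) (X^D0)` (`D0 = D i0`): if
`GG (C0 X^D0) s0 (H i0) ≤ X^(D0 (s0 + 1) - κ/2)`, then each inner norm is at most `X^(1 + ∑ e - δ0)` (`F5_bil`), so the sum over `n'` over
`X^(2 + ∑ e)` at most `C0 X^(-δ0)`. The number of the other `j` is at most `X^(D0 (s + 1) - κ) / X^(D0 (s0 + 1) - κ/2) = X^(D0 (k + 1) - κ/2)` (`F7_inj`,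
`μ r = lf c (v r) i0 ≠ 0`), for them the trivial bound `C0^2 · C0^d` (`N ≤ C0 X`, `card tb = ∏ σ j ≤ C0^d X^(∑ e)`). `bxS` has at most `(2 X^D0)^(k+1)` elements.
So the `2^(k+1)`-th power is at most `C' (X^(-δ0) + X^(-κ/2))`. -/
theorem FMT_of {k d : ℕ} (c : Fin k → Fin d → ℤ) (e : Fin d → ℕ) (D : Fin k → ℕ) (a : Fin k → ℤ) (hD : Dat c e D a)
    (hTP : ∀ (D q : ℕ) (r : Fin q → ℤ), 1 ≤ D → (∀ j, r j ≠ 0) → HPC.ThmPZ D q r) : FMT c e D a := by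
  classical
  intro i0 C0
  obtain ⟨v, hv0, hv1, hv2⟩ := F1_vec c e D a hD i0
  obtain ⟨s0, hs0, hF5⟩ := F5_bil c e D a hD hTP i0 C0
  obtain ⟨C, hC1, hF6⟩ := F6_elim c e D a hD i0 v hv1 hv2 C0
  refine ⟨s0 + (k + 1), by omega, fun κ hκ => ?_⟩
  obtain ⟨δ0, hδ0, X1, hX1⟩ := hF5 (κ / 2) (by linarith)
  obtain ⟨δ1, hδ1⟩ : ∃ δ1 : ℝ, δ1 = min δ0 (κ / 2) := ⟨_, rfl⟩
  have hδ1p : 0 < δ1 := by rw [hδ1]; exact lt_min hδ0 (by linarith)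
  have hδ1a : δ1 ≤ δ0 := by rw [hδ1]; exact min_le_left _ _
  have hδ1b : δ1 ≤ κ / 2 := by rw [hδ1]; exact min_le_right _ _
  obtain ⟨C', hC'⟩ : ∃ C' : ℝ, C' = C * (2 ^ (k + 1) * C0 + (C0 : ℝ) ^ (d + 2)) := ⟨_, rfl⟩
  obtain ⟨X2, hX2⟩ := f8_ev C' (δ1 / 2) (by linarith)
  refine ⟨δ1 / 2 / 2 ^ (k + 1), by positivity, X1 + X2 + 1, ?_⟩
  intro X hX P hP β b σ hσ n0 N hN w hw f hf hfs hG
  have hXn : 1 ≤ X := by omega
  have hx1 : (1 : ℝ) ≤ X := by exact_mod_cast hXn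
  have hx0 : (0 : ℝ) < X := by linarith
  have hCX := hX2 X (by omega)
  have hF5' := hX1 X (by omega) P hP β b σ hσ n0 N hN
  obtain ⟨h, hh1, hh2⟩ := hF6 X hXn P β b σ hσ n0 N hN w hw f hf
  obtain ⟨S, hS⟩ : ∃ S : ℝ, S = ∑ t ∈ tb b σ, ‖∑ n ∈ Ico n0 (n0 + N), w n * ∏ i, f i ((P i).eval (n : ℤ) +
    (β i + lf c t i))‖ ^ 2 := ⟨_, rfl⟩
  rw [← hS] at hh2 ⊢
  have hS0 : 0 ≤ S := by rw [hS]; exact sum_nonneg fun _ _ => by positivity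
  obtain ⟨M, hM⟩ : ∃ M : ℝ, M = (X : ℝ) ^ (2 + ∑ j, e j) := ⟨_, rfl⟩
  rw [← hM] at hh2
  have hM0 : 0 < M := by rw [hM]; positivity
  have hMr : M = (X : ℝ) ^ ((2 : ℝ) + ∑ j, (e j : ℝ)) := by
    rw [hM, ← Real.rpow_natCast (X : ℝ) (2 + ∑ j, e j)]
    congr 1
    push_cast
    ring
  obtain ⟨A, hA⟩ : ∃ A : (Fin (k + 1) → ℤ) → ℝ, ∀ j, A j = (∑ n' ∈ Ico n0 (n0 + N),
      ‖∑ n ∈ Ico n0 (n0 + N), ∑ t ∈ tb b σ, h j n' t * ∏ i ∈ Kz c D i0,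
        DV (fun r => lf c (v r) i * j r) (f i) ((P i).eval (n : ℤ) + (β i + lf c t i))‖) / M := ⟨_, fun _ => rfl⟩
  have hh3 : (S / M) ^ 2 ^ (k + 1) ≤ C / (X : ℝ) ^ (D i0 * (k + 1)) * ∑ j ∈ bxS (k + 1) (X ^ D i0), A j := by
    refine hh2.trans (le_of_eq ?_)
    congr 1
    exact sum_congr rfl fun j _ => (hA j).symm
  have hHn : ∀ (j : Fin (k + 1) → ℤ) (i : Fin k) (m : ℤ), ‖DV (fun r => lf c (v r) i * j r) (f i) m‖ ≤ 1 :=
    fun j i m => f8_DV _ (f i) (hf i) m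
  have hN' : (N : ℝ) ≤ C0 * X := by
    have : N ≤ C0 * X := by omega
    exact_mod_cast this
  have hIco : ∀ c' : ℝ, ∑ _n' ∈ Ico n0 (n0 + N), c' = N * c' := by
    intro c'
    rw [sum_const, Nat.card_Ico, nsmul_eq_mul, Nat.add_sub_cancel_left]
  -- good directions
  have hgood : ∀ j, GG (C0 * X ^ D i0) s0 (DV (fun r => lf c (v r) i0 * j r) (f i0)) ≤
      (X : ℝ) ^ ((D i0 : ℝ) * (s0 + 1) - κ / 2) → A j ≤ C0 * (X : ℝ) ^ (-δ0) := by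
    intro j hj
    have h1 : ∀ n' ∈ Ico n0 (n0 + N), ‖∑ n ∈ Ico n0 (n0 + N), ∑ t ∈ tb b σ, h j n' t * ∏ i ∈ Kz c D i0,
        DV (fun r => lf c (v r) i * j r) (f i) ((P i).eval (n : ℤ) + (β i + lf c t i))‖ ≤
        (X : ℝ) ^ (1 + (∑ j, (e j : ℝ)) - δ0) := fun n' _ =>
      hF5' (fun i => DV (fun r => lf c (v r) i * j r) (f i)) (fun i m => hHn j i m)
        (fun i m hm => f8_DV0 _ _ m (hfs i m hm)) (h j n') (fun t => hh1 j n' t) hj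
    have h2 := sum_le_sum h1
    rw [hIco] at h2
    rw [hA, div_le_iff₀ hM0]
    refine h2.trans ?_
    have h3 : (X : ℝ) * (X : ℝ) ^ (1 + (∑ j, (e j : ℝ)) - δ0) = (X : ℝ) ^ (-δ0) * M := by
      rw [hMr, ← Real.rpow_add hx0]
      calc (X : ℝ) * (X : ℝ) ^ (1 + (∑ j, (e j : ℝ)) - δ0) =
            (X : ℝ) ^ (1 : ℝ) * (X : ℝ) ^ (1 + (∑ j, (e j : ℝ)) - δ0) := by rw [Real.rpow_one]
        _ = (X : ℝ) ^ (-δ0 + (2 + ∑ j, (e j : ℝ))) := by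
            rw [← Real.rpow_add hx0]
            congr 1
            ring
    calc (N : ℝ) * (X : ℝ) ^ (1 + (∑ j, (e j : ℝ)) - δ0) ≤ (C0 * X) * (X : ℝ) ^ (1 + (∑ j, (e j : ℝ)) - δ0) :=
          mul_le_mul_of_nonneg_right hN' (by positivity)
      _ = C0 * ((X : ℝ) * (X : ℝ) ^ (1 + (∑ j, (e j : ℝ)) - δ0)) := by ring
      _ = C0 * (X : ℝ) ^ (-δ0) * M := by rw [h3]; ring
  -- all directions
  have hall : ∀ j, A j ≤ (C0 : ℝ) ^ (d + 2) := by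
    intro j
    have h1 : ∀ n' ∈ Ico n0 (n0 + N), ‖∑ n ∈ Ico n0 (n0 + N), ∑ t ∈ tb b σ, h j n' t * ∏ i ∈ Kz c D i0,
        DV (fun r => lf c (v r) i * j r) (f i) ((P i).eval (n : ℤ) + (β i + lf c t i))‖ ≤
        N * (tb b σ).card := by
      intro n' _
      refine f8_triv n0 N (tb b σ) (fun n t => h j n' t * ∏ i ∈ Kz c D i0,
        DV (fun r => lf c (v r) i * j r) (f i) ((P i).eval (n : ℤ) + (β i + lf c t i))) ?_
      intro n t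
      rw [norm_mul, norm_prod]
      refine mul_le_one₀ (hh1 j n' t) (prod_nonneg fun _ _ => norm_nonneg _) ?_
      exact prod_le_one (fun _ _ => norm_nonneg _) fun i _ => hHn j i _
    have h2 := sum_le_sum h1
    rw [hIco] at h2
    rw [hA, div_le_iff₀ hM0]
    refine h2.trans ?_
    have h3 := f8_card b σ e C0 X hσ
    have h4 : (N : ℝ) * (N * (tb b σ).card) ≤ (C0 * X) * ((C0 * X) * ((C0 : ℝ) ^ d * (X : ℝ) ^ (∑ j, e j))) := by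
      gcongr
    refine h4.trans (le_of_eq ?_)
    rw [hM]
    ring
  -- the number of the bad directions
  obtain ⟨B, hB⟩ : ∃ B : Finset (Fin (k + 1) → ℤ), B = (bxS (k + 1) (X ^ D i0)).filter fun j =>
    ¬ GG (C0 * X ^ D i0) s0 (DV (fun r => lf c (v r) i0 * j r) (f i0)) ≤
      (X : ℝ) ^ ((D i0 : ℝ) * (s0 + 1) - κ / 2) := ⟨_, rfl⟩
  have hGn : ∀ j : Fin (k + 1) → ℤ, 0 ≤ GG (C0 * X ^ D i0) s0 (DV (fun r => lf c (v r) i0 * j r) (f i0)) := by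
    intro j
    refine Pool.Agent.HUK.GG_nonneg _ s0 (by omega) _ ?_
    intro y hy
    exact f8_DV0 _ _ y (hfs i0 y hy)
  have hBc : (B.card : ℝ) ≤ (X : ℝ) ^ ((D i0 : ℝ) * (k + 1) - κ / 2) := by
    have h1 := F7_inj (C0 * X ^ D i0) s0 (k + 1) (X ^ D i0) (by omega) (fun r => lf c (v r) i0) hv0 (f i0)
      (fun y hy => hfs i0 y hy)
    have h2 : (B.card : ℝ) * (X : ℝ) ^ ((D i0 : ℝ) * (s0 + 1) - κ / 2) ≤
        ∑ j ∈ B, GG (C0 * X ^ D i0) s0 (DV (fun r => lf c (v r) i0 * j r) (f i0)) := by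
      rw [← nsmul_eq_mul, ← sum_const]
      refine sum_le_sum fun j hj => ?_
      rw [hB, mem_filter] at hj
      exact (not_le.1 hj.2).le
    have h3 : ∑ j ∈ B, GG (C0 * X ^ D i0) s0 (DV (fun r => lf c (v r) i0 * j r) (f i0)) ≤
        ∑ j ∈ bxS (k + 1) (X ^ D i0), GG (C0 * X ^ D i0) s0 (DV (fun r => lf c (v r) i0 * j r) (f i0)) := by
      rw [hB]
      exact sum_le_sum_of_subset_of_nonneg (filter_subset _ _) fun j _ _ => hGn j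
    have h4 : (B.card : ℝ) * (X : ℝ) ^ ((D i0 : ℝ) * (s0 + 1) - κ / 2) ≤
        (X : ℝ) ^ ((D i0 : ℝ) * (k + 1) - κ / 2) * (X : ℝ) ^ ((D i0 : ℝ) * (s0 + 1) - κ / 2) := by
      rw [← Real.rpow_add hx0]
      refine (h2.trans (h3.trans (h1.trans hG))).trans (le_of_eq ?_)
      congr 1
      push_cast
      ring
    exact le_of_mul_le_mul_right h4 (Real.rpow_pos_of_pos hx0 _)
  -- the sum over the directions
  have hsum : ∑ j ∈ bxS (k + 1) (X ^ D i0), A j ≤ (X : ℝ) ^ (D i0 * (k + 1)) *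
      ((2 ^ (k + 1) * C0 + (C0 : ℝ) ^ (d + 2)) * (X : ℝ) ^ (-δ1)) := by
    have h1 : ∀ j ∈ bxS (k + 1) (X ^ D i0), A j ≤ C0 * (X : ℝ) ^ (-δ0) + if j ∈ B then (C0 : ℝ) ^ (d + 2) else 0 := by
      intro j hj
      by_cases hjB : j ∈ B
      · rw [if_pos hjB]
        have h2 : (0 : ℝ) ≤ C0 * (X : ℝ) ^ (-δ0) := by positivity
        have h3 := hall j
        linarith
      · rw [if_neg hjB, add_zero]
        refine hgood j ?_
        by_contra hcon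
        exact hjB (by rw [hB, mem_filter]; exact ⟨hj, hcon⟩)
    refine (sum_le_sum h1).trans ?_
    rw [sum_add_distrib, sum_const, nsmul_eq_mul, ← sum_filter]
    have h2 : (bxS (k + 1) (X ^ D i0)).filter (fun j => j ∈ B) = B := by
      ext j
      rw [mem_filter, hB, mem_filter]
      tauto
    rw [h2, sum_const, nsmul_eq_mul]
    have h3 : ((bxS (k + 1) (X ^ D i0)).card : ℝ) ≤ 2 ^ (k + 1) * (X : ℝ) ^ (D i0 * (k + 1)) := by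
      refine (Pool.Agent.HUK.bxS_card _ _).trans (le_of_eq ?_)
      push_cast
      rw [mul_pow, ← pow_mul]
    have h4 : (X : ℝ) ^ (-δ0) ≤ (X : ℝ) ^ (-δ1) := Real.rpow_le_rpow_of_exponent_le hx1 (by linarith)
    have h5 : (X : ℝ) ^ ((D i0 : ℝ) * (k + 1) - κ / 2) ≤ (X : ℝ) ^ (D i0 * (k + 1)) * (X : ℝ) ^ (-δ1) := by
      rw [← Real.rpow_natCast, ← Real.rpow_add hx0]
      refine Real.rpow_le_rpow_of_exponent_le hx1 ?_
      push_cast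
      linarith
    have h6 : ((bxS (k + 1) (X ^ D i0)).card : ℝ) * (C0 * (X : ℝ) ^ (-δ0)) ≤
        (2 ^ (k + 1) * (X : ℝ) ^ (D i0 * (k + 1))) * (C0 * (X : ℝ) ^ (-δ1)) :=
      mul_le_mul h3 (mul_le_mul_of_nonneg_left h4 (by positivity)) (by positivity) (by positivity)
    have h7 : (B.card : ℝ) * (C0 : ℝ) ^ (d + 2) ≤
        ((X : ℝ) ^ (D i0 * (k + 1)) * (X : ℝ) ^ (-δ1)) * (C0 : ℝ) ^ (d + 2) :=
      mul_le_mul_of_nonneg_right (hBc.trans h5) (by positivity)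
    refine (add_le_add h6 h7).trans (le_of_eq ?_)
    ring
  have hy0 : (0 : ℝ) < (X : ℝ) ^ (D i0 * (k + 1)) := by positivity
  have hfin : (S / M) ^ 2 ^ (k + 1) ≤ ((X : ℝ) ^ (-(δ1 / 2 / 2 ^ (k + 1)))) ^ 2 ^ (k + 1) := by
    have h1 : C / (X : ℝ) ^ (D i0 * (k + 1)) * ∑ j ∈ bxS (k + 1) (X ^ D i0), A j ≤ C' * (X : ℝ) ^ (-δ1) := by
      calc C / (X : ℝ) ^ (D i0 * (k + 1)) * ∑ j ∈ bxS (k + 1) (X ^ D i0), A j ≤
            C / (X : ℝ) ^ (D i0 * (k + 1)) * ((X : ℝ) ^ (D i0 * (k + 1)) *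
              ((2 ^ (k + 1) * C0 + (C0 : ℝ) ^ (d + 2)) * (X : ℝ) ^ (-δ1))) :=
            mul_le_mul_of_nonneg_left hsum (by positivity)
        _ = C' * (X : ℝ) ^ (-δ1) := by
            rw [hC']
            field_simp
    have h2 : C' * (X : ℝ) ^ (-δ1) ≤ (X : ℝ) ^ (-(δ1 / 2)) := by
      calc C' * (X : ℝ) ^ (-δ1) ≤ (X : ℝ) ^ (δ1 / 2) * (X : ℝ) ^ (-δ1) :=
            mul_le_mul_of_nonneg_right hCX (by positivity)
        _ = (X : ℝ) ^ (-(δ1 / 2)) := by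
            rw [← Real.rpow_add hx0]
            congr 1
            ring
    have h3 : ((X : ℝ) ^ (-(δ1 / 2 / 2 ^ (k + 1)))) ^ 2 ^ (k + 1) = (X : ℝ) ^ (-(δ1 / 2)) := by
      rw [← Real.rpow_natCast, ← Real.rpow_mul hx0.le]
      congr 1
      push_cast
      field_simp
    rw [h3]
    exact (hh3.trans h1).trans h2
  have h1 : S / M ≤ (X : ℝ) ^ (-(δ1 / 2 / 2 ^ (k + 1))) :=
    (pow_le_pow_iff_left₀ (by positivity) (by positivity) (by positivity)).1 hfin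
  rw [div_le_iff₀ hM0] at h1
  refine h1.trans (le_of_eq ?_)
  rw [hMr, ← Real.rpow_add hx0]
  congr 1
  ring

end Pool.Agent.HUP
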