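import Pool.Agent.Lib.HUP.FG0
import Pool.Agent.Lib.HUK.KB1

/-!
# Project HUP, chunk FGA5 (S/M): complete means are multiplicative
-/

open Finset

namespace Pool.Agent.HUP

open Pool.Agent.HUK (kb1_sum1 kb1_mem kb1_inj kb1_surj)

theorem fga5_sum1 {γ : Type*} [AddCommMonoid γ] (M1 M2 : ℕ) (h1 : 1 ≤ M1) (h2 : 1 ≤ M2) (hc : Nat.Coprime M1 M2)
    (F : ℤ → ℤ → γ) :
    ∑ x ∈ Ico (0 : ℤ) ((M1 * M2 : ℕ) : ℤ), F (x % (M1 : ℤ)) (x % (M2 : ℤ)) =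
      ∑ a ∈ Ico (0 : ℤ) M1, ∑ b ∈ Ico (0 : ℤ) M2, F a b := by
  rw [← sum_product' (Ico (0 : ℤ) M1) (Ico (0 : ℤ) M2) F]
  refine sum_bij (fun x _ => (x % (M1 : ℤ), x % (M2 : ℤ))) ?_ ?_ ?_ ?_
  · intro x _
    exact mem_product.2 ⟨kb1_mem M1 h1 x, kb1_mem M2 h2 x⟩
  · intro x hx y hy e
    rw [Prod.mk.injEq] at e
    exact kb1_inj M1 M2 hc hx hy e.1 e.2
  · rintro ⟨a, b⟩ hab
    rw [mem_product] at hab
    obtain ⟨x, hx, e1, e2⟩ := kb1_surj M1 M2 h1 h2 hc hab.1 hab.2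
    exact ⟨x, hx, by rw [e1, e2]⟩
  · intro x _; rfl

theorem fga5_sumk {γ : Type*} [AddCommMonoid γ] (d M1 M2 : ℕ) (h1 : 1 ≤ M1) (h2 : 1 ≤ M2) (hc : Nat.Coprime M1 M2)
    (F : (Fin d → ℤ) → (Fin d → ℤ) → γ) :
    ∑ h ∈ B0 d (M1 * M2), F (fun i => h i % (M1 : ℤ)) (fun i => h i % (M2 : ℤ)) =
      ∑ a ∈ B0 d M1, ∑ b ∈ B0 d M2, F a b := by
  unfold B0
  rw [← sum_product' _ _ F]
  refine sum_bij (fun h _ => (fun i => h i % (M1 : ℤ), fun i => h i % (M2 : ℤ))) ?_ ?_ ?_ ?_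
  · intro h _
    exact mem_product.2 ⟨Fintype.mem_piFinset.2 fun i => kb1_mem M1 h1 _,
      Fintype.mem_piFinset.2 fun i => kb1_mem M2 h2 _⟩
  · intro x hx y hy e
    rw [Prod.mk.injEq] at e
    funext i
    exact kb1_inj M1 M2 hc (Fintype.mem_piFinset.1 hx i) (Fintype.mem_piFinset.1 hy i)
      (congrFun e.1 i) (congrFun e.2 i)
  · rintro ⟨a, b⟩ hab
    rw [mem_product, Fintype.mem_piFinset, Fintype.mem_piFinset] at hab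
    choose x hx e1 e2 using fun i => kb1_surj M1 M2 h1 h2 hc (hab.1 i) (hab.2 i)
    refine ⟨x, Fintype.mem_piFinset.2 hx, ?_⟩
    rw [Prod.mk.injEq]
    exact ⟨funext e1, funext e2⟩
  · intro x _; rfl

theorem FGA5_nn {d : ℕ} (M : ℕ) (F : ℤ → ℤ → (Fin d → ℤ) → ℂ) : 0 ≤ ms M F := by
  unfold ms
  positivity

theorem FGA5_one {d : ℕ} (M : ℕ) (hM : 1 ≤ M) (F : ℤ → ℤ → (Fin d → ℤ) → ℂ) (h : ∀ n n' t, ‖F n n' t‖ ≤ 1) :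
    ms M F ≤ 1 := by
  have hM' : (0 : ℝ) < M := by exact_mod_cast hM
  have hcard : ((B0 d M).card : ℝ) = (M : ℝ) ^ d := by
    unfold B0
    rw [Fintype.card_piFinset]
    simp
  have h1 : ∀ n n' : ℤ, ‖∑ t ∈ B0 d M, F n n' t‖ ^ 2 ≤ ((M : ℝ) ^ d) ^ 2 := by
    intro n n'
    have h2 : ‖∑ t ∈ B0 d M, F n n' t‖ ≤ (M : ℝ) ^ d := by
      refine (norm_sum_le _ _).trans ?_
      refine (sum_le_sum fun t _ => h n n' t).trans ?_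
      rw [sum_const, nsmul_eq_mul, mul_one, hcard]
    exact pow_le_pow_left₀ (norm_nonneg _) h2 2
  unfold ms
  apply div_le_one_of_le₀ _ (by positivity)
  refine (sum_le_sum fun n _ => sum_le_sum fun n' _ => h1 n n').trans ?_
  rw [sum_const, sum_const]
  simp only [Int.card_Ico, sub_zero, Int.toNat_natCast, nsmul_eq_mul]
  apply le_of_eq
  ring

theorem FGA5_per {d : ℕ} (M1 M2 : ℕ) (F1 F2 : ℤ → ℤ → (Fin d → ℤ) → ℂ) (h1 : Pp M1 F1) (h2 : Pp M2 F2) :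
    Pp (M1 * M2) (fun n n' t => F1 n n' t * F2 n n' t) := by
  intro n m n' m' t t' hn hn' ht
  have hm : ((M1 * M2 : ℕ) : ℤ) = (M1 : ℤ) * M2 := by push_cast; rfl
  rw [hm] at hn hn'
  have a1 := h1 n m n' m' t t' ((dvd_mul_right _ _).trans hn) ((dvd_mul_right _ _).trans hn')
    fun j => (dvd_mul_right _ _).trans (hm ▸ ht j)
  have a2 := h2 n m n' m' t t' ((dvd_mul_left _ _).trans hn) ((dvd_mul_left _ _).trans hn')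
    fun j => (dvd_mul_left _ _).trans (hm ▸ ht j)
  simp only [a1, a2]

/-- Proof. As `KB1_mul` in `HUK/KB1.lean`. For `t`: `kb1_sumk` of that file is for real `F`; reprove it for complex `F` (same proof). For
fixed `n`, `n'`: `∑_{t ∈ B0 d (M1 M2)} F1 F2 = (∑_{B0 d M1} F1) (∑_{B0 d M2} F2)` and the two factors depend only on `n`, `n'` modulo `M1` resp.
`M2`; squares of norms are multiplicative; `kb1_sum1` (take real parts, or casts) for `n'` and for `n`;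
`(M1 M2)^2 ((M1 M2)^d)^2` is the product of the normalisations. -/
theorem FGA5_mul {d : ℕ} (M1 M2 : ℕ) (h1 : 1 ≤ M1) (h2 : 1 ≤ M2) (hc : Nat.Coprime M1 M2)
    (F1 F2 : ℤ → ℤ → (Fin d → ℤ) → ℂ) (hp1 : Pp M1 F1) (hp2 : Pp M2 F2) :
    ms (M1 * M2) (fun n n' t => F1 n n' t * F2 n n' t) = ms M1 F1 * ms M2 F2 := by
  have e1 : ∀ (M : ℕ) (F : ℤ → ℤ → (Fin d → ℤ) → ℂ), Pp M F → ∀ n n' t,
      F n n' t = F (n % (M : ℤ)) (n' % (M : ℤ)) (fun i => t i % (M : ℤ)) := by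
    intro M F hp n n' t
    apply hp
    · exact Int.dvd_self_sub_emod
    · exact Int.dvd_self_sub_emod
    · intro i; exact Int.dvd_self_sub_emod
  have e2 : ∀ n n' : ℤ, ‖∑ t ∈ B0 d (M1 * M2), F1 n n' t * F2 n n' t‖ ^ 2 =
      ‖∑ t ∈ B0 d M1, F1 (n % (M1 : ℤ)) (n' % (M1 : ℤ)) t‖ ^ 2 *
        ‖∑ t ∈ B0 d M2, F2 (n % (M2 : ℤ)) (n' % (M2 : ℤ)) t‖ ^ 2 := by
    intro n n'
    rw [← mul_pow, ← norm_mul, sum_mul_sum]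
    congr 2
    rw [← fga5_sumk d M1 M2 h1 h2 hc
      (fun a b => F1 (n % (M1 : ℤ)) (n' % (M1 : ℤ)) a * F2 (n % (M2 : ℤ)) (n' % (M2 : ℤ)) b)]
    apply sum_congr rfl; intro t _
    rw [e1 M1 F1 hp1 n n' t, e1 M2 F2 hp2 n n' t]
  simp only [ms]
  rw [sum_congr rfl fun n _ => sum_congr rfl fun n' _ => e2 n n']
  have e3 : ∀ n : ℤ, ∑ n' ∈ Ico (0 : ℤ) ((M1 * M2 : ℕ) : ℤ),
      ‖∑ t ∈ B0 d M1, F1 (n % (M1 : ℤ)) (n' % (M1 : ℤ)) t‖ ^ 2 *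
        ‖∑ t ∈ B0 d M2, F2 (n % (M2 : ℤ)) (n' % (M2 : ℤ)) t‖ ^ 2 =
      (∑ a' ∈ Ico (0 : ℤ) M1, ‖∑ t ∈ B0 d M1, F1 (n % (M1 : ℤ)) a' t‖ ^ 2) *
        ∑ b' ∈ Ico (0 : ℤ) M2, ‖∑ t ∈ B0 d M2, F2 (n % (M2 : ℤ)) b' t‖ ^ 2 := by
    intro n
    rw [sum_mul_sum]
    exact fga5_sum1 M1 M2 h1 h2 hc (fun a' b' => ‖∑ t ∈ B0 d M1, F1 (n % (M1 : ℤ)) a' t‖ ^ 2 *
      ‖∑ t ∈ B0 d M2, F2 (n % (M2 : ℤ)) b' t‖ ^ 2)
  rw [sum_congr rfl fun n _ => e3 n]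
  rw [fga5_sum1 M1 M2 h1 h2 hc (fun a b => (∑ a' ∈ Ico (0 : ℤ) M1, ‖∑ t ∈ B0 d M1, F1 a a' t‖ ^ 2) *
    ∑ b' ∈ Ico (0 : ℤ) M2, ‖∑ t ∈ B0 d M2, F2 b b' t‖ ^ 2)]
  rw [← sum_mul_sum, div_mul_div_comm]
  congr 1
  push_cast
  rw [mul_pow, mul_pow, mul_pow]
  ring

end Pool.Agent.HUP
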