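import Pool.Agent.Lib.HUP.FGC7
import Pool.Agent.Lib.HUP.FGA5

/-!
# Project HUP, chunk FGC8 (S): the interface `ChB`
-/

open Finset Polynomial

namespace Pool.Agent.HUP

open Pool.Agent.Lib.H59P

theorem fgc8_cj (p : Ch) (m : ℤ) : ‖cj p m‖ ≤ 1 := by
  unfold cj
  rw [RCLike.norm_conj]
  exact DirichletCharacter.norm_le_one _ _

theorem fgc8_min {k : ℕ} (δ : Fin k → ℝ) (hδ : ∀ i, 0 < δ i) : ∃ c0 : ℝ, 0 < c0 ∧ c0 ≤ 1 ∧ ∀ i, c0 ≤ δ i := by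
  rcases Nat.eq_zero_or_pos k with hk | hk
  · subst hk
    exact ⟨1, one_pos, le_rfl, fun i => i.elim0⟩
  · have hne : (univ : Finset (Fin k)).Nonempty := ⟨⟨0, hk⟩, mem_univ _⟩
    refine ⟨min 1 (univ.inf' hne δ), lt_min one_pos ?_, min_le_left _ _, fun i => ?_⟩
    · rw [Finset.lt_inf'_iff]
      exact fun i _ => hδ i
    · exact (min_le_right _ _).trans (Finset.inf'_le _ (mem_univ i))

/-- Proof. `δ i`, `R1 i` from `FGC7` for every `i0 = i` (`choose`); `c0 ≤ δ i` for all `i` and `0 < c0 ≤ 1` (finite minimum), `R1 i ≤ N` for all `i`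
(`∑ i, R1 i`), `C = N + 1`. If `R ≤ N` (or `k = 0`, where `R = 1`): `ms ≤ 1 ≤ C R^(-c0)` (`FGA5_one`; `R^(-c0) ≥ R^(-1)`). If `R > N`, `k ≥ 1`:
`FGC6_large` gives `i0`, `FGC7`: `ms ≤ R^(-δ i0) ≤ R^(-c0)`. -/
theorem ChB_of {k d : ℕ} {c : Fin k → Fin d → ℤ} {e : Fin d → ℕ} {D : Fin k → ℕ} {a : Fin k → ℤ} (h : Dat c e D a)
    (hF : FMT c e D a) : ChB c D a := by
  classical
  choose δ hδ R1 hR using fun i => FGC7 h hF i
  obtain ⟨c0, hc0, hc1, hcδ⟩ := fgc8_min δ hδ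
  refine ⟨((∑ i, R1 i : ℕ) : ℝ) + 1, c0, by positivity, hc0, hc1, ?_⟩
  intro P hP β p hp R hRl K u g' hK hu hu1 hg hg1
  have hR1 : 1 ≤ R := by
    rw [Nat.one_le_iff_ne_zero, hRl]
    intro h0
    rw [Finset.lcm_eq_zero_iff] at h0
    obtain ⟨i, -, hi⟩ := h0
    have := (hp i).1
    omega
  have hRr : (1 : ℝ) ≤ R := by exact_mod_cast hR1
  have hle1 : ms R (fun n n' t => ∏ i, ((cj (p i) (yy c P β i n t) * u i (yy c P β i n t)) *
      g' i (yy c P β i n' t))) ≤ 1 := by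
    refine FGA5_one R hR1 _ ?_
    intro n n' t
    rw [norm_prod]
    refine Finset.prod_le_one (fun i _ => norm_nonneg _) (fun i _ => ?_)
    rw [norm_mul, norm_mul]
    exact mul_le_one₀ (mul_le_one₀ (fgc8_cj _ _) (norm_nonneg _) (hu1 _ _)) (norm_nonneg _) (hg1 _ _)
  by_cases hRN : R ≤ (∑ i, R1 i) + 1
  · refine hle1.trans ?_
    have h1 : (R : ℝ) ^ (-(1 : ℝ)) ≤ (R : ℝ) ^ (-c0) :=
      Real.rpow_le_rpow_of_exponent_le hRr (by linarith)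
    have h2 : (R : ℝ) ≤ ((∑ i, R1 i : ℕ) : ℝ) + 1 := by exact_mod_cast hRN
    have h3 : (R : ℝ) * (R : ℝ) ^ (-(1 : ℝ)) = 1 := by
      rw [Real.rpow_neg_one]
      exact mul_inv_cancel₀ (by positivity)
    have h4 : (0 : ℝ) ≤ (R : ℝ) ^ (-(1 : ℝ)) := by positivity
    calc (1 : ℝ) = (R : ℝ) * (R : ℝ) ^ (-(1 : ℝ)) := h3.symm
      _ ≤ (((∑ i, R1 i : ℕ) : ℝ) + 1) * (R : ℝ) ^ (-c0) := by
        apply mul_le_mul h2 h1 h4 (by positivity)
  · have hk : 1 ≤ k := by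
      by_contra hk0
      have hk0 : k = 0 := by omega
      subst hk0
      apply hRN
      rw [hRl]
      simp
    obtain ⟨i0, hi0⟩ := FGC6_large hk (fun i => (p i).1) (fun i => (hp i).1) R hRl
    have hle : R1 i0 ≤ R := by
      have h1 : R1 i0 ≤ ∑ i, R1 i := Finset.single_le_sum (fun i _ => Nat.zero_le _) (mem_univ i0)
      omega
    have h5 := hR i0 P hP β p hp R hRl hle hi0 K u g' hK hu hu1 hg hg1
    refine h5.trans ?_
    have h6 : (R : ℝ) ^ (-δ i0) ≤ (R : ℝ) ^ (-c0) :=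
      Real.rpow_le_rpow_of_exponent_le hRr (by linarith [hcδ i0])
    have h7 : (0 : ℝ) ≤ (R : ℝ) ^ (-c0) := by positivity
    have h8 : (0 : ℝ) ≤ ((∑ i, R1 i : ℕ) : ℝ) := Nat.cast_nonneg _
    nlinarith [mul_nonneg h8 h7]

end Pool.Agent.HUP
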