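import Pool.Agent.Lib.HUP.FG0

/-!
# Project HUP, chunk FGL3 (S/M): all large primes are good
-/

open Finset

namespace Pool.Agent.HUP

theorem fgl3_lf_single {k d : ℕ} (c : Fin k → Fin d → ℤ) (j j' : Fin d) (x x' : ℤ) (i : Fin k) :
    lf c (fun m => (if m = j then x else 0) + (if m = j' then x' else 0)) i = c i j * x + c i j' * x' := by
  unfold lf
  simp only [mul_add, Finset.sum_add_distrib, mul_ite, mul_zero, Finset.sum_ite_eq', Finset.mem_univ, if_true]

/-- Proof. `Λ` = sum of all `|c i j|`, `|a i|`, `|c i j * c i' j' - c i j' * c i' j|`, `|c i' j * a i - c i j * a i'|` (`natAbs`): a non-zero integer among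
these is not divisible by a prime `l > Λ`. `form`: `Dat.ne`. `pair`, `i ≠ i'`: if some minor `c i j * c i' j' - c i j' * c i' j` is not `0`:
`u = c i' j' • e_j - c i' j • e_{j'}` (`Pi.single`), `lf c u i' = 0`, `lf c u i` = the minor. If all minors vanish: choose `j` with `c i j ≠ 0`; then
`c i' j ≠ 0` (some `c i' j' ≠ 0`, and `c i j * c i' j' = c i j' * c i' j`), `A = c i j`, `B = c i' j`, `B * lf c t i = A * lf c t i'` (termwise, minors);
`D i = e j = D i'` (`Dat.blk`); `B * a i ≠ A * a i'`, since otherwise `Dat.ind` with `x = B`, `x' = A` gives `B = 0`. -/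
theorem FGL3 {k d : ℕ} {c : Fin k → Fin d → ℤ} {e : Fin d → ℕ} {D : Fin k → ℕ} {a : Fin k → ℤ} (h : Dat c e D a) :
    ∃ Λ : ℕ, ∀ l : ℕ, l.Prime → Λ < l → Gd c D a l := by
  set Λ1 : ℕ := ∑ i, ∑ j, (c i j).natAbs with hΛ1
  set Λ2 : ℕ := ∑ i, (a i).natAbs with hΛ2
  set Λ3 : ℕ := ∑ i, ∑ i', ∑ j, ∑ j', (c i j * c i' j' - c i j' * c i' j).natAbs with hΛ3
  set Λ4 : ℕ := ∑ i, ∑ i', ∑ j, (c i' j * a i - c i j * a i').natAbs with hΛ4
  have key : ∀ (x : ℤ) (l : ℕ), x ≠ 0 → x.natAbs < l → ¬ (l : ℤ) ∣ x := by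
    intro x l hx hl hd
    rw [Int.natCast_dvd] at hd
    exact absurd (Nat.le_of_dvd (Int.natAbs_pos.2 hx) hd) (not_le.2 hl)
  have b1 : ∀ i j, (c i j).natAbs ≤ Λ1 := fun i j =>
    (Finset.single_le_sum (f := fun j => (c i j).natAbs) (fun _ _ => Nat.zero_le _) (Finset.mem_univ j)).trans
      (Finset.single_le_sum (f := fun i => ∑ j, (c i j).natAbs) (fun _ _ => Nat.zero_le _) (Finset.mem_univ i))
  have b2 : ∀ i, (a i).natAbs ≤ Λ2 := fun i =>
    Finset.single_le_sum (f := fun i => (a i).natAbs) (fun _ _ => Nat.zero_le _) (Finset.mem_univ i)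
  have b3 : ∀ i i' j j', (c i j * c i' j' - c i j' * c i' j).natAbs ≤ Λ3 := fun i i' j j' =>
    (((Finset.single_le_sum (f := fun j' => (c i j * c i' j' - c i j' * c i' j).natAbs) (fun _ _ => Nat.zero_le _)
      (Finset.mem_univ j')).trans
      (Finset.single_le_sum (f := fun j => ∑ j', (c i j * c i' j' - c i j' * c i' j).natAbs) (fun _ _ => Nat.zero_le _)
      (Finset.mem_univ j))).trans
      (Finset.single_le_sum (f := fun i' => ∑ j, ∑ j', (c i j * c i' j' - c i j' * c i' j).natAbs)
      (fun _ _ => Nat.zero_le _) (Finset.mem_univ i'))).trans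
      (Finset.single_le_sum (f := fun i => ∑ i', ∑ j, ∑ j', (c i j * c i' j' - c i j' * c i' j).natAbs)
      (fun _ _ => Nat.zero_le _) (Finset.mem_univ i))
  have b4 : ∀ i i' j, (c i' j * a i - c i j * a i').natAbs ≤ Λ4 := fun i i' j =>
    ((Finset.single_le_sum (f := fun j => (c i' j * a i - c i j * a i').natAbs) (fun _ _ => Nat.zero_le _)
      (Finset.mem_univ j)).trans
      (Finset.single_le_sum (f := fun i' => ∑ j, (c i' j * a i - c i j * a i').natAbs)
      (fun _ _ => Nat.zero_le _) (Finset.mem_univ i'))).trans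
      (Finset.single_le_sum (f := fun i => ∑ i', ∑ j, (c i' j * a i - c i j * a i').natAbs)
      (fun _ _ => Nat.zero_le _) (Finset.mem_univ i))
  refine ⟨Λ1 + Λ2 + Λ3 + Λ4, fun l _ hl => ⟨?_, ?_, ?_⟩⟩
  · intro i
    obtain ⟨j, hj⟩ := h.ne i
    exact ⟨j, key _ _ hj (by have := b1 i j; omega)⟩
  · intro i
    exact key _ _ (h.lc i) (by have := b2 i; omega)
  · intro i i' hii
    by_cases hm : ∃ j j', c i j * c i' j' - c i j' * c i' j ≠ 0
    · obtain ⟨j, j', hjj⟩ := hm
      refine Or.inl ⟨fun m => (if m = j then c i' j' else 0) + (if m = j' then -c i' j else 0), ?_, ?_⟩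
      · rw [fgl3_lf_single]
        ring
      · rw [fgl3_lf_single]
        have h1 : c i j * c i' j' + c i j' * -c i' j = c i j * c i' j' - c i j' * c i' j := by ring
        rw [h1]
        exact key _ _ hjj (by have := b3 i i' j j'; omega)
    · push_neg at hm
      have hm' : ∀ j j', c i j * c i' j' = c i j' * c i' j := fun j j' => sub_eq_zero.1 (hm j j')
      obtain ⟨j, hj⟩ := h.ne i
      obtain ⟨j', hj'⟩ := h.ne i'
      have hB : c i' j ≠ 0 := by
        intro h0
        have h1 := hm' j j'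
        rw [h0, mul_zero] at h1
        exact (mul_ne_zero hj hj') h1
      have hD : D i = D i' := by
        rw [← h.blk i j hj, ← h.blk i' j hB]
      refine Or.inr ⟨hD, c i j, c i' j, ?_, ?_, ?_, ?_⟩
      · intro t
        unfold lf
        rw [Finset.mul_sum, Finset.mul_sum]
        refine Finset.sum_congr rfl fun m _ => ?_
        have h1 := hm' j m
        linear_combination -(t m) * h1
      · exact key _ _ hj (by have := b1 i j; omega)
      · exact key _ _ hB (by have := b1 i' j; omega)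
      · refine key _ _ ?_ (by have := b4 i i' j; omega)
        intro h0
        have h1 := h.ind i i' hii hD (c i' j) (c i j) (by linarith) (fun m => by
          have h2 := hm' j m
          linarith)
        exact hB h1.1

end Pool.Agent.HUP
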