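import Pool.Agent.Lib.HUP.FGL2
import Pool.Agent.Lib.HUP.FGL3
import Pool.Agent.Lib.HUP.FGA5

/-!
# Project HUP, chunk FGL4 (S/M): the interface `LocB`
-/

open Finset Polynomial

namespace Pool.Agent.HUP

open Pool.Agent.Lib.H59P (gl)
open Pool.Agent.HUK (KB4A_le)

theorem fgl4_n0 {k : ℕ} (l : ℕ) (hl : l.Prime) (f : Fin k → ℤ) (V : Finset (Fin k)) :
    ‖∏ i ∈ V, ((gl l (f i) : ℝ) : ℂ)‖ ≤ 1 := by
  rw [norm_prod]
  refine Finset.prod_le_one (fun i _ => norm_nonneg _) fun i _ => ?_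
  rw [Complex.norm_real, Real.norm_eq_abs]
  exact KB4A_le l hl _

theorem fgl4_n1 {k : ℕ} (l : ℕ) (hl : l.Prime) (f : Fin k → ℤ) (V : Finset (Fin k)) (i : Fin k) (hi : i ∈ V) :
    ‖∏ i ∈ V, ((gl l (f i) : ℝ) : ℂ)‖ ≤ |gl l (f i)| := by
  rw [← Finset.mul_prod_erase V _ hi, norm_mul, Complex.norm_real, Real.norm_eq_abs]
  exact mul_le_of_le_one_right (abs_nonneg _) (fgl4_n0 l hl f _)

theorem fgl4_n2 {k : ℕ} (l : ℕ) (hl : l.Prime) (f : Fin k → ℤ) (V : Finset (Fin k)) (i i' : Fin k) (hi : i ∈ V)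
    (hi' : i' ∈ V) (h : i ≠ i') :
    ‖∏ i ∈ V, ((gl l (f i) : ℝ) : ℂ)‖ ≤ |gl l (f i)| * |gl l (f i')| := by
  rw [← Finset.mul_prod_erase V _ hi, norm_mul, Complex.norm_real, Real.norm_eq_abs]
  exact mul_le_mul_of_nonneg_left (fgl4_n1 l hl f _ i' (Finset.mem_erase.2 ⟨h.symm, hi'⟩)) (abs_nonneg _)

theorem fgl4_Fl {k d : ℕ} (c : Fin k → Fin d → ℤ) (P : Fin k → ℤ[X]) (β : Fin k → ℤ) (V V' : Finset (Fin k)) (l : ℕ)
    (hl : l.Prime) (n n' : ℤ) (t : Fin d → ℤ) : ‖Fl c P β V V' l n n' t‖ ≤ 1 := by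
  rw [Fl, norm_mul]
  exact mul_le_one₀ (fgl4_n0 l hl _ V) (norm_nonneg _) (fgl4_n0 l hl _ V')

/-- A single factor. -/
theorem fgl4_zero {k d : ℕ} (c : Fin k → Fin d → ℤ) (P : Fin k → ℤ[X]) (β : Fin k → ℤ) (i : Fin k) (l : ℕ) (hl : l.Prime)
    (hc : ∃ j, ¬ (l : ℤ) ∣ c i j) (n : ℤ) : ∑ t ∈ B0 d l, ((gl l (yy c P β i n t) : ℝ) : ℂ) = 0 := by
  have h1 := FGL1_zero c i l hl hc ((P i).eval n + β i)
  rw [← Complex.ofReal_sum]
  have h2 : ∑ t ∈ B0 d l, gl l (yy c P β i n t) = 0 := by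
    rw [← h1]
    refine sum_congr rfl fun t _ => ?_
    rw [yy, add_assoc]
  rw [h2, Complex.ofReal_zero]

/-- The mean from a bound of the double sum. -/
theorem fgl4_ms {d : ℕ} (l : ℕ) (hl : l.Prime) (F : ℤ → ℤ → (Fin d → ℤ) → ℂ) (K : ℝ) (G : ℤ → ℤ → ℝ)
    (h : ∀ n n', ‖∑ t ∈ B0 d l, F n n' t‖ ≤ G n n')
    (hG : ∑ n ∈ Ico (0 : ℤ) l, ∑ n' ∈ Ico (0 : ℤ) l, G n n' ^ 2 ≤ K * ((l : ℝ) ^ d) ^ 2 / l) : ms l F ≤ K / (l : ℝ) ^ 3 := by
  have hl0 : (0 : ℝ) < l := by exact_mod_cast hl.pos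
  rw [ms, div_le_iff₀ (by positivity)]
  calc ∑ n ∈ Ico (0 : ℤ) l, ∑ n' ∈ Ico (0 : ℤ) l, ‖∑ t ∈ B0 d l, F n n' t‖ ^ 2
      ≤ ∑ n ∈ Ico (0 : ℤ) l, ∑ n' ∈ Ico (0 : ℤ) l, G n n' ^ 2 :=
        sum_le_sum fun n _ => sum_le_sum fun n' _ => pow_le_pow_left₀ (norm_nonneg _) (h n n') 2
    _ ≤ _ := hG
    _ = _ := by field_simp

theorem fgl4_card (l : ℕ) : ((Ico (0 : ℤ) l).card : ℝ) = l := by
  rw [Int.card_Ico, sub_zero, Int.toNat_natCast]

/-- Proof. `Λ` from `FGL3`, `C = Λ³ + 81 + 4 ∑ D i`. For `l ≤ Λ`: `ms ≤ 1 ≤ Λ³ / l³` (`FGA5_one`, `KB4A_le`). Let `l > Λ`, so `Gd c D a l`. If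
`V.card + V'.card = 1`: one of the sets is `{i}`, the other `∅`, the inner sums are `∑ t, gl l (x + lf c t i) = 0` (`FGL1_zero`, casts to `ℂ`), `ms = 0`.
Otherwise `‖Fl ..‖ ≤ |gl l (yy i n_1 t)| |gl l (yy i' n_2 t)|` for two different factors (the others are at most `1`): both in `V` (`V.card ≥ 2`,
`i ≠ i'`, `n_1 = n_2 = n`), both in `V'` (`n_1 = n_2 = n'`), or `i ∈ V`, `i' ∈ V'` (`n_1 = n`, `n_2 = n'`). So the inner sum is at most `Sg ..`, and
`FGL2_same` (times `l` for the other variable) or `FGL2_opp` give `∑_{n,n'} ≤ (80 + 4 D i) l^(2d) / l`, divided by `l² l^(2d)`. -/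
theorem LocB_of {k d : ℕ} {c : Fin k → Fin d → ℤ} {e : Fin d → ℕ} {D : Fin k → ℕ} {a : Fin k → ℤ} (h : Dat c e D a) :
    LocB c D a := by
  obtain ⟨Λ, hΛ⟩ := FGL3 h
  have hS0 : (0 : ℝ) ≤ ∑ i, (D i : ℝ) := sum_nonneg fun i _ => Nat.cast_nonneg _
  refine ⟨(Λ : ℝ) ^ 3 + 81 + 4 * ∑ i, (D i : ℝ), by nlinarith [pow_nonneg (Nat.cast_nonneg Λ : (0 : ℝ) ≤ Λ) 3], ?_⟩
  intro P hP β l hl V V' hV
  have hl0 : (0 : ℝ) < l := by exact_mod_cast hl.pos
  have hl3 : (0 : ℝ) < (l : ℝ) ^ 3 := by positivity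
  have hΛ3 : (0 : ℝ) ≤ (Λ : ℝ) ^ 3 := by positivity
  by_cases hlΛ : l ≤ Λ
  · refine le_trans (FGA5_one l hl.one_le _ fun n n' t => fgl4_Fl c P β V V' l hl n n' t) ?_
    rw [le_div_iff₀ hl3, one_mul]
    have h1 : (l : ℝ) ^ 3 ≤ (Λ : ℝ) ^ 3 := pow_le_pow_left₀ hl0.le (by exact_mod_cast hlΛ) 3
    linarith
  · have hG : Gd c D a l := hΛ l hl (not_le.1 hlΛ)
    -- it suffices to prove the bound with `80 + 4 D i`
    have key : ∀ i : Fin k, ms l (Fl c P β V V' l) ≤ (80 + 4 * (D i : ℝ)) / (l : ℝ) ^ 3 →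
        ms l (Fl c P β V V' l) ≤ ((Λ : ℝ) ^ 3 + 81 + 4 * ∑ i, (D i : ℝ)) / (l : ℝ) ^ 3 := by
      intro i hi
      refine le_trans hi (div_le_div_of_nonneg_right ?_ hl3.le)
      have h1 : (D i : ℝ) ≤ ∑ i, (D i : ℝ) :=
        single_le_sum (f := fun i => (D i : ℝ)) (fun i _ => Nat.cast_nonneg _) (mem_univ i)
      linarith
    by_cases hV1 : 2 ≤ V.card
    · -- both in `V`
      obtain ⟨i, hi, i', hi', hii⟩ := one_lt_card.1 hV1
      refine key i (fgl4_ms l hl _ _ (fun n _ => Sg c P β l i i' n n) (fun n n' => ?_) ?_)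
      · refine le_trans (norm_sum_le _ _) (sum_le_sum fun t _ => ?_)
        rw [Fl, norm_mul]
        refine le_trans (mul_le_of_le_one_right (norm_nonneg _) (fgl4_n0 l hl _ V')) ?_
        exact fgl4_n2 l hl (fun i => yy c P β i n t) V i i' hi hi' hii
      · have h1 := FGL2_same l hl hG h.deg P hP β i i' hii
        simp only [sum_const, nsmul_eq_mul]
        rw [← mul_sum, fgl4_card]
        calc (l : ℝ) * ∑ n ∈ Ico (0 : ℤ) l, Sg c P β l i i' n n ^ 2
            ≤ l * ((80 + 4 * D i) * ((l : ℝ) ^ d) ^ 2 / (l : ℝ) ^ 2) := mul_le_mul_of_nonneg_left h1 hl0.le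
          _ = _ := by field_simp
    · by_cases hV2 : 2 ≤ V'.card
      · obtain ⟨i, hi, i', hi', hii⟩ := one_lt_card.1 hV2
        refine key i (fgl4_ms l hl _ _ (fun _ n' => Sg c P β l i i' n' n') (fun n n' => ?_) ?_)
        · refine le_trans (norm_sum_le _ _) (sum_le_sum fun t _ => ?_)
          rw [Fl, norm_mul]
          refine le_trans (mul_le_of_le_one_left (norm_nonneg _) (fgl4_n0 l hl _ V)) ?_
          exact fgl4_n2 l hl (fun i => yy c P β i n' t) V' i i' hi hi' hii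
        · have h1 := FGL2_same l hl hG h.deg P hP β i i' hii
          rw [sum_const, nsmul_eq_mul, fgl4_card]
          calc (l : ℝ) * ∑ n ∈ Ico (0 : ℤ) l, Sg c P β l i i' n n ^ 2
              ≤ l * ((80 + 4 * D i) * ((l : ℝ) ^ d) ^ 2 / (l : ℝ) ^ 2) := mul_le_mul_of_nonneg_left h1 hl0.le
            _ = _ := by field_simp
      · by_cases hV3 : V.card = 1
        · obtain ⟨i, hi⟩ := card_eq_one.1 hV3
          by_cases hV4 : V'.card = 1
          · obtain ⟨i', hi'⟩ := card_eq_one.1 hV4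
            refine key i (fgl4_ms l hl _ _ (fun n n' => Sg c P β l i i' n n') (fun n n' => ?_) ?_)
            · refine le_trans (norm_sum_le _ _) (sum_le_sum fun t _ => ?_)
              rw [Fl, norm_mul]
              exact mul_le_mul (fgl4_n1 l hl (fun i => yy c P β i n t) V i (by rw [hi]; exact mem_singleton_self i))
                (fgl4_n1 l hl (fun i => yy c P β i n' t) V' i' (by rw [hi']; exact mem_singleton_self i'))
                (norm_nonneg _) (abs_nonneg _)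
            · exact FGL2_opp l hl hG h.deg P hP β i i'
          · have hV5 : V' = ∅ := card_eq_zero.1 (by omega)
            have h0 : ∀ n n', ∑ t ∈ B0 d l, Fl c P β V V' l n n' t = 0 := by
              intro n n'
              rw [← fgl4_zero c P β i l hl (hG.form i) n]
              refine sum_congr rfl fun t _ => ?_
              rw [Fl, hi, hV5, prod_singleton, prod_empty, mul_one]
            have h1 : ms l (Fl c P β V V' l) = 0 := by
              rw [ms]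
              simp only [h0]
              simp
            rw [h1]
            positivity
        · have hV6 : V = ∅ := card_eq_zero.1 (by omega)
          have hV7 : V'.card = 1 := by
            rw [hV6, card_empty] at hV
            omega
          obtain ⟨i, hi⟩ := card_eq_one.1 hV7
          have h0 : ∀ n n', ∑ t ∈ B0 d l, Fl c P β V V' l n n' t = 0 := by
            intro n n'
            rw [← fgl4_zero c P β i l hl (hG.form i) n']
            refine sum_congr rfl fun t _ => ?_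
            rw [Fl, hi, hV6, prod_singleton, prod_empty, one_mul]
          have h1 : ms l (Fl c P β V V' l) = 0 := by
            rw [ms]
            simp only [h0]
            simp
          rw [h1]
          positivity

end Pool.Agent.HUP
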