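import Pool.Agent.Lib.HUP.FGA12
import Pool.Agent.Lib.HUP.FGL4
import Pool.Agent.Lib.HUP.FGC8

/-!
# Project HUP, module FG: the large sieve from the second moment
-/

namespace Pool.Agent.HUP

theorem FGTU_of {k d : ℕ} {c : Fin k → Fin d → ℤ} {e : Fin d → ℕ} {D : Fin k → ℕ} {a : Fin k → ℤ} (h : Dat c e D a)
    (hF : FMT c e D a) : FGTU c D a :=
  FG_red (LocB_of h) (ChB_of h hF)

end Pool.Agent.HUP
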