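import Pool.Agent.Lib.HUP.Defs
import Pool.Agent.Lib.H24P.K3

/-!
# Project HUP, module R (the modules of H24P for an abstract family), R17: the range of n
-/

open Finset Polynomial

namespace Pool.Agent.HUP

open Pool.Agent.Lib.H68T Pool.Agent.Lib.H18Q Pool.Agent.Lib.H59P Pool.Agent.Lib.H24P

/-- **R17** (port of `K2_geo`, H24P/K2.lean, with a small exponent `τ`). Proof. As there with `δ' = τ/(10 (A+1))`:
`m = ⌈Q^δ'⌉`, `X1 = Q^800 ⌊Z/(Q^800 m)⌋`, `δ = δ'/2`. New: `Z ≤ X1 Q^τ` (`X1 ≥ Z/(2m)`, `2 m ≤ 4 Q^δ' ≤ Q^τ`), and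
`M_i ≤ A Z^d ≤ A (4 Q^δ' X1)^d ≤ X1^d Q^τ`. `K` depends only on `ε` (and `A`), `Q0` on everything. -/
theorem R17_geo {k : ℕ} (P : Fin k → ℤ[X]) (A : ℕ) (hA : 1 ≤ A) (hP : Pol A P) (ε : ℝ) (hε : 0 < ε)
    (hε1 : ε ≤ 1 / 2) (L : ℕ) : ∃ K : ℝ, 1 ≤ K ∧ ∀ τ : ℝ, 0 < τ → τ ≤ 1 / 10 → ∃ Q0 : ℕ, ∀ Q Z : ℕ, Q0 ≤ Q →
    K * Real.log Q ≤ Real.log Z → ∃ X1 : ℕ, 0 < X1 ∧ (Z : ℝ) ^ (1 - ε / 2) ≤ X1 ∧ 2 * A * X1 ≤ Z ∧
      Z ≤ X1 * Q ∧ (Z : ℝ) ≤ X1 * (Q : ℝ) ^ τ ∧ Q ^ 800 ∣ X1 ∧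
      (∀ M : Fin k → ℕ, (∀ i, 8 * Q ^ 8 ∣ M i) →
        (∀ i, (Z : ℝ) ^ (P i).natDegree ≤ A * (Q : ℝ) ^ (τ / (20 * (A + 1)) : ℝ) * M i) →
        (∀ i, (M i : ℝ) ≤ A * (Z : ℝ) ^ (P i).natDegree) →
        Geo L Q Z X1 P M ∧ ∀ i, (M i : ℝ) ≤ (X1 : ℝ) ^ (P i).natDegree * (Q : ℝ) ^ τ) ∧
      (∀ B : ℤ[X], Lin A B → OKB A ε Z B → ∃ Y : ℕ, GeoB A Z X1 Y B ∧ Z ≤ Y ^ 2 ∧ Y ≤ Z ^ (A + 1)) := by
  have hAr : (1 : ℝ) ≤ A := by exact_mod_cast hA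
  have hK : (4000 : ℝ) ≤ 2000 / ε := by rw [le_div_iff₀ hε]; nlinarith
  refine ⟨2000 / ε, by linarith, fun τ hτ0 hτ1 => ?_⟩
  set δ : ℝ := τ / (20 * (A + 1)) with hδ
  have hδ0 : 0 < δ := by positivity
  have hδA : δ * (A + 1) = τ / 20 := by rw [hδ]; field_simp
  have hδ1 : δ ≤ 1 / 40 := by nlinarith
  have hδτ : 4 * δ ≤ τ := by nlinarith
  have hδτA : 2 * δ * A ≤ τ / 10 := by nlinarith
  obtain ⟨Q1, hQ1⟩ := k2_ev (2 * A + 4) (2 * δ) (by linarith)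
  obtain ⟨Q2, hQ2⟩ := k2_ev (L * A) δ hδ0
  obtain ⟨Q3, hQ3⟩ := k2_ev (A * 4 ^ A) (τ / 2) (by linarith)
  refine ⟨Q1 + Q2 + Q3 + 16, fun Q Z hQ hKQ => ?_⟩
  have hQ16 : 16 ≤ Q := by omega
  have e1 := hQ1 Q (by omega)
  have e2 := hQ2 Q (by omega)
  have e3 := hQ3 Q (by omega)
  clear hQ1 hQ2 hQ3
  have hq16 : (16 : ℝ) ≤ Q := by exact_mod_cast hQ16
  have hq1 : (1 : ℝ) ≤ Q := by linarith
  have hq0 : (0 : ℝ) < Q := by linarith
  have hlq : 0 < Real.log Q := Real.log_pos (by linarith)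
  have hZ0 : (0 : ℝ) < Z := by
    rcases Nat.eq_zero_or_pos Z with h | h
    · exfalso
      rw [h] at hKQ
      simp only [Nat.cast_zero, Real.log_zero] at hKQ
      have : 0 < 2000 / ε * Real.log Q := by positivity
      linarith
    · exact_mod_cast h
  -- `Q^(2000/ε) ≤ Z`
  have hQK : (Q : ℝ) ^ (2000 / ε : ℝ) ≤ Z := by
    rw [Real.rpow_def_of_pos hq0, ← Real.le_log_iff_exp_le hZ0, mul_comm]
    exact hKQ
  have hQ4 : (Q : ℝ) ^ (4000 : ℕ) ≤ Z := by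
    refine le_trans ?_ hQK
    rw [← Real.rpow_natCast]
    exact Real.rpow_le_rpow_of_exponent_le hq1 (by exact_mod_cast hK)
  have hQ4' : Q ^ 4000 ≤ Z := by exact_mod_cast hQ4
  have hQZ : Q ≤ Z := le_trans (Nat.le_self_pow (by norm_num) Q) hQ4'
  have hZ16 : 16 ≤ Z := by omega
  have hz1 : (1 : ℝ) ≤ Z := by exact_mod_cast (by omega : 1 ≤ Z)
  -- `Q^1000 ≤ Z^(ε/2)`
  have hQe : (Q : ℝ) ^ (1000 : ℕ) ≤ (Z : ℝ) ^ (ε / 2) := by
    calc (Q : ℝ) ^ (1000 : ℕ) = ((Q : ℝ) ^ (2000 / ε : ℝ)) ^ (ε / 2) := by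
          rw [← Real.rpow_mul hq0.le, ← Real.rpow_natCast]
          have : (2000 / ε * (ε / 2) : ℝ) = ((1000 : ℕ) : ℝ) := by
            push_cast
            field_simp
            norm_num
          rw [this]
      _ ≤ (Z : ℝ) ^ (ε / 2) := Real.rpow_le_rpow (by positivity) hQK (by positivity)
  -- `t = Q^δ'`
  set t : ℝ := (Q : ℝ) ^ (2 * δ) with ht
  have ht1 : 1 ≤ t := by linarith
  have ht0 : 0 < t := by linarith
  have htQ : 4 * t ≤ Q := by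
    have h1 : t ≤ (Q : ℝ) ^ (1 / 2 : ℝ) := Real.rpow_le_rpow_of_exponent_le hq1 (by linarith)
    have h2 : (4 : ℝ) ≤ (Q : ℝ) ^ (1 / 2 : ℝ) := by
      rw [← Real.sqrt_eq_rpow]
      exact Real.le_sqrt_of_sq_le (by linarith)
    have h3 : (Q : ℝ) ^ (1 / 2 : ℝ) * (Q : ℝ) ^ (1 / 2 : ℝ) = Q := by
      rw [← Real.rpow_add hq0]
      norm_num
    calc 4 * t ≤ (Q : ℝ) ^ (1 / 2 : ℝ) * (Q : ℝ) ^ (1 / 2 : ℝ) :=
          mul_le_mul h2 h1 ht0.le (by positivity)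
      _ = Q := h3
  set m : ℕ := ⌈t⌉₊ with hm
  have hm1 : t ≤ m := Nat.le_ceil t
  have hm2 : (m : ℝ) ≤ 2 * t := by
    have := (Nat.ceil_lt_add_one ht0.le).le
    linarith
  have hm0 : 0 < m := Nat.ceil_pos.mpr ht0
  have hmQ : m ≤ Q := by
    have : (m : ℝ) ≤ Q := by linarith
    exact_mod_cast this
  set V : ℕ := Q ^ 800 * m with hV
  have hV0 : 0 < V := by positivity
  have h2V : 2 * V ≤ Z := by
    have h1 : V ≤ Q ^ 801 := by
      rw [hV, pow_succ]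
      exact Nat.mul_le_mul_left _ hmQ
    have h2 : 2 * Q ^ 801 ≤ Q ^ 802 := by
      rw [pow_succ Q 801, mul_comm]
      exact Nat.mul_le_mul_left _ (by omega)
    have h3 : Q ^ 802 ≤ Q ^ 4000 := Nat.pow_le_pow_right (by omega) (by norm_num)
    exact (Nat.mul_le_mul_left 2 h1).trans (h2.trans (h3.trans hQ4'))
  set X1 : ℕ := Q ^ 800 * (Z / V) with hX1
  have hXm : X1 * m ≤ Z := by
    calc X1 * m = V * (Z / V) := by rw [hX1, hV]; ring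
      _ ≤ Z := Nat.mul_div_le Z V
  have hXm2 : Z ≤ 2 * (X1 * m) := by
    have h1 : X1 * m = V * (Z / V) := by rw [hX1, hV]; ring
    have h2 := Nat.div_add_mod Z V
    have h3 := Nat.mod_lt Z hV0
    rw [h1]
    omega
  -- real versions
  have hx1 : (X1 : ℝ) * t ≤ Z := by
    calc (X1 : ℝ) * t ≤ X1 * m := mul_le_mul_of_nonneg_left hm1 (by positivity)
      _ ≤ Z := by exact_mod_cast hXm
  have hx2 : (Z : ℝ) ≤ X1 * (4 * t) := by
    have h1 : (Z : ℝ) ≤ 2 * (X1 * m) := by exact_mod_cast hXm2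
    have h2 : (X1 : ℝ) * m ≤ X1 * (2 * t) := mul_le_mul_of_nonneg_left hm2 (by positivity)
    linarith
  have hXpos : 0 < X1 := by
    rcases Nat.eq_zero_or_pos X1 with h | h
    · rw [h] at hx2
      simp only [Nat.cast_zero, zero_mul] at hx2
      linarith
    · exact h
  have hXr : (0 : ℝ) < X1 := by exact_mod_cast hXpos
  have hZe : (Z : ℝ) ^ (1 - ε / 2) ≤ X1 := by
    have h1 : 4 * t ≤ (Z : ℝ) ^ (ε / 2) := by
      refine htQ.trans (le_trans ?_ hQe)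
      exact le_self_pow₀ hq1 (by norm_num)
    have h2 : (Z : ℝ) ^ (1 - ε / 2) * (Z : ℝ) ^ (ε / 2) = Z := by
      rw [← Real.rpow_add hZ0]
      norm_num
    have h3 : (Z : ℝ) ^ (1 - ε / 2) * (Z : ℝ) ^ (ε / 2) ≤ X1 * (Z : ℝ) ^ (ε / 2) := by
      rw [h2]
      exact hx2.trans (mul_le_mul_of_nonneg_left h1 hXr.le)
    exact le_of_mul_le_mul_right h3 (Real.rpow_pos_of_pos hZ0 _)
  have hAX : 2 * A * X1 ≤ Z := by
    have h1 : (2 * A : ℝ) ≤ t := by linarith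
    have h2 : (2 * A * X1 : ℝ) ≤ Z := by
      calc (2 * A * X1 : ℝ) ≤ t * X1 := mul_le_mul_of_nonneg_right h1 hXr.le
        _ = X1 * t := mul_comm _ _
        _ ≤ Z := hx1
    exact_mod_cast h2
  have hZX : Z ≤ X1 * Q := by
    have h1 : (Z : ℝ) ≤ X1 * Q := hx2.trans (mul_le_mul_of_nonneg_left htQ hXr.le)
    exact_mod_cast h1
  have hZτ : (Z : ℝ) ≤ X1 * (Q : ℝ) ^ τ := by
    refine hx2.trans (mul_le_mul_of_nonneg_left ?_ hXr.le)
    have h1 : t * t = (Q : ℝ) ^ (4 * δ) := by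
      rw [ht, ← Real.rpow_add hq0]
      congr 1
      ring
    calc 4 * t ≤ t * t := mul_le_mul_of_nonneg_right (by linarith) ht0.le
      _ = (Q : ℝ) ^ (4 * δ) := h1
      _ ≤ (Q : ℝ) ^ τ := Real.rpow_le_rpow_of_exponent_le hq1 hδτ
  have hXZ : X1 ≤ Z := by
    calc X1 ≤ X1 * m := Nat.le_mul_of_pos_right _ hm0
      _ ≤ Z := hXm
  have hdvd : Q ^ 800 ∣ X1 := ⟨_, hX1⟩
  refine ⟨X1, hXpos, hZe, hAX, hZX, hZτ, hdvd, ?_, ?_⟩
  · intro M hM1 hM2 hM3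
    have hMτ : ∀ i, (M i : ℝ) ≤ (X1 : ℝ) ^ (P i).natDegree * (Q : ℝ) ^ τ := by
      intro i
      set d := (P i).natDegree with hd
      have hdA : d ≤ A := hP.degA i
      refine (hM3 i).trans ?_
      have h1 : (Z : ℝ) ^ d ≤ (X1 : ℝ) ^ d * (4 * t) ^ d := by
        rw [← mul_pow]
        exact pow_le_pow_left₀ hZ0.le hx2 d
      have h2 : (4 * t) ^ d ≤ (4 : ℝ) ^ A * (Q : ℝ) ^ (τ / 10) := by
        rw [mul_pow]
        refine mul_le_mul (pow_le_pow_right₀ (by norm_num) hdA) ?_ (by positivity) (by positivity)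
        calc t ^ d ≤ t ^ A := pow_le_pow_right₀ ht1 hdA
          _ = (Q : ℝ) ^ (2 * δ * A) := by rw [ht, ← Real.rpow_natCast, ← Real.rpow_mul hq0.le]
          _ ≤ (Q : ℝ) ^ (τ / 10) := Real.rpow_le_rpow_of_exponent_le hq1 hδτA
      have h3 : (Q : ℝ) ^ (τ / 2) * (Q : ℝ) ^ (τ / 10) ≤ (Q : ℝ) ^ τ := by
        rw [← Real.rpow_add hq0]
        exact Real.rpow_le_rpow_of_exponent_le hq1 (by linarith)
      have h4 : (0 : ℝ) < (Q : ℝ) ^ (τ / 10) := Real.rpow_pos_of_pos hq0 _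
      calc (A : ℝ) * (Z : ℝ) ^ d ≤ A * ((X1 : ℝ) ^ d * ((4 : ℝ) ^ A * (Q : ℝ) ^ (τ / 10))) :=
            mul_le_mul_of_nonneg_left (h1.trans (mul_le_mul_of_nonneg_left h2 (by positivity)))
              (by positivity)
        _ = (X1 : ℝ) ^ d * ((A * (4 : ℝ) ^ A) * (Q : ℝ) ^ (τ / 10)) := by ring
        _ ≤ (X1 : ℝ) ^ d * ((Q : ℝ) ^ (τ / 2) * (Q : ℝ) ^ (τ / 10)) :=
            mul_le_mul_of_nonneg_left (mul_le_mul_of_nonneg_right e3 h4.le) (by positivity)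
        _ ≤ (X1 : ℝ) ^ d * (Q : ℝ) ^ τ := mul_le_mul_of_nonneg_left h3 (by positivity)
    refine ⟨⟨hdvd, hXpos, hXZ, hZX, hM1, ?_, ?_⟩, hMτ⟩
    · intro i
      set d := (P i).natDegree with hd
      have hd1 : 1 ≤ d := hP.deg i
      have h1 : (X1 : ℝ) ^ d * t ≤ (Z : ℝ) ^ d := by
        calc (X1 : ℝ) ^ d * t ≤ (X1 : ℝ) ^ d * t ^ d :=
              mul_le_mul_of_nonneg_left (le_self_pow₀ ht1 (by omega)) (by positivity)
          _ = (X1 * t) ^ d := by rw [mul_pow]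
          _ ≤ (Z : ℝ) ^ d := pow_le_pow_left₀ (by positivity) hx1 d
      have h2 : (Q : ℝ) ^ δ * (Q : ℝ) ^ δ = t := by
        rw [← Real.rpow_add hq0, ht]
        congr 1
        ring
      have h3 : (0 : ℝ) < (Q : ℝ) ^ δ := Real.rpow_pos_of_pos hq0 _
      have h4 := hM2 i
      have h5 : ((L * X1 ^ d : ℕ) : ℝ) * t ≤ M i * t := by
        push_cast
        calc (L : ℝ) * (X1 : ℝ) ^ d * t = L * ((X1 : ℝ) ^ d * t) := by ring
          _ ≤ L * (A * (Q : ℝ) ^ δ * M i) :=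
              mul_le_mul_of_nonneg_left (h1.trans h4) (by positivity)
          _ = (L * A) * ((Q : ℝ) ^ δ * M i) := by ring
          _ ≤ (Q : ℝ) ^ δ * ((Q : ℝ) ^ δ * M i) :=
              mul_le_mul_of_nonneg_right e2 (by positivity)
          _ = M i * ((Q : ℝ) ^ δ * (Q : ℝ) ^ δ) := by ring
          _ = M i * t := by rw [h2]
      have h6 := le_of_mul_le_mul_right h5 ht0
      exact_mod_cast h6
    · intro i
      refine (hMτ i).trans (mul_le_mul_of_nonneg_left ?_ (by positivity))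
      exact Real.rpow_le_rpow_of_exponent_le hq1 (by linarith)
  · intro B hB hOK
    have hne : (Ico X1 (2 * X1)).Nonempty := ⟨X1, mem_Ico.mpr ⟨le_rfl, by omega⟩⟩
    obtain ⟨n0, hn0, hmin⟩ := exists_min_image (Ico X1 (2 * X1)) (fun n : ℕ => B.eval (n : ℤ)) hne
    have hZ' : ∀ n ∈ Ico X1 (2 * X1), (Z : ℝ) ^ (1 - ε) ≤ n ∧ A * n ≤ Z := by
      intro n hn
      rw [mem_Ico] at hn
      constructor
      · calc (Z : ℝ) ^ (1 - ε) ≤ (Z : ℝ) ^ (1 - ε / 2) :=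
              Real.rpow_le_rpow_of_exponent_le hz1 (by linarith)
          _ ≤ X1 := hZe
          _ ≤ n := by exact_mod_cast hn.1
      · calc A * n ≤ A * (2 * X1) := Nat.mul_le_mul_left A (by omega)
          _ = 2 * A * X1 := by ring
          _ ≤ Z := hAX
    obtain ⟨g1, g2⟩ := hZ' n0 hn0
    have hn0' := mem_Ico.mp hn0
    have hlo := hOK.lo n0 g1 g2
    have hhi := hOK.hi n0 g1 g2
    have hn0z : (X1 : ℤ) ≤ n0 := by exact_mod_cast hn0'.1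
    have hX1z : (0 : ℤ) < X1 := by exact_mod_cast hXpos
    have hpos : 0 < B.eval (n0 : ℤ) := by linarith
    obtain ⟨Y, hY⟩ := Int.eq_ofNat_of_zero_le hpos.le
    have hYA : Y ≤ A * Z := by
      rw [hY] at hhi
      exact_mod_cast hhi
    have hXY : X1 ≤ 2 * Y := by
      rw [hY] at hlo
      have : (X1 : ℤ) ≤ 2 * (Y : ℤ) := hn0z.trans hlo
      exact_mod_cast this
    refine ⟨Y, ⟨hB, ?_, ?_, hXY, hYA⟩, ?_, ?_⟩
    · intro n hn
      have := hmin n hn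
      rw [hY] at this
      exact this
    · intro n hn
      obtain ⟨f1, f2⟩ := hZ' n hn
      have hn' := mem_Ico.mp hn
      rcases le_total n0 n with hle | hle
      · have := hOK.cmp1 n0 n g1 g2 hle (by omega)
        rw [hY] at this
        exact this
      · have := hOK.cmp2 n n0 f1 f2 hle (by omega)
        rw [hY] at this
        exact this
    · -- `Z ≤ Y²`
      have h1 : (Z : ℝ) ^ (3 / 4 : ℝ) ≤ 2 * Y := by
        calc (Z : ℝ) ^ (3 / 4 : ℝ) ≤ (Z : ℝ) ^ (1 - ε / 2) :=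
              Real.rpow_le_rpow_of_exponent_le hz1 (by linarith)
          _ ≤ X1 := hZe
          _ ≤ 2 * Y := by exact_mod_cast hXY
      have h2 : ((Z : ℝ) ^ (3 / 4 : ℝ)) ^ 2 ≤ (2 * Y) ^ 2 := pow_le_pow_left₀ (by positivity) h1 2
      have h3 : ((Z : ℝ) ^ (3 / 4 : ℝ)) ^ 2 = Z * (Z : ℝ) ^ (1 / 2 : ℝ) := by
        rw [← Real.rpow_natCast, ← Real.rpow_mul hZ0.le, ← Real.rpow_one_add' hZ0.le (by norm_num)]
        congr 1
        norm_num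
      have h4 : (4 : ℝ) ≤ (Z : ℝ) ^ (1 / 2 : ℝ) := by
        rw [← Real.sqrt_eq_rpow]
        refine Real.le_sqrt_of_sq_le ?_
        have : (16 : ℝ) ≤ Z := by exact_mod_cast hZ16
        linarith
      have h5 : (Z : ℝ) * 4 ≤ Z * (Z : ℝ) ^ (1 / 2 : ℝ) := mul_le_mul_of_nonneg_left h4 hZ0.le
      have h6 : (Z : ℝ) ≤ (Y : ℝ) ^ 2 := by
        rw [h3] at h2
        have h7 : (2 * (Y : ℝ)) ^ 2 = 4 * (Y : ℝ) ^ 2 := by ring
        linarith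
      exact_mod_cast h6
    · calc Y ≤ A * Z := hYA
        _ ≤ Z ^ A * Z := Nat.mul_le_mul_right Z (Nat.lt_pow_self (by omega)).le
        _ = Z ^ (A + 1) := by ring

end Pool.Agent.HUP
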