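import Pool.Agent.Lib.HUP.Defs
import Pool.Agent.Lib.HUP.R12
import Pool.Agent.Lib.HUP.R16
import Pool.Agent.Lib.HUP.R17
import Pool.Agent.Lib.HUP.R18

/-!
# Project HUP, module R (the modules of H24P for an abstract family), R19: one box
-/

open Finset Polynomial

namespace Pool.Agent.HUP

open Pool.Agent.Lib.H68T Pool.Agent.Lib.H18Q Pool.Agent.Lib.H59P Pool.Agent.Lib.H24P

theorem r19_geo_mono {L L' Q Z X1 : ℕ} {k : ℕ} {P : Fin k → ℤ[X]} {M : Fin k → ℕ}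
    (h : Geo L Q Z X1 P M) (hL : L' ≤ L) : Geo L' Q Z X1 P M :=
  ⟨h.dvd, h.pos, h.le, h.ge, h.dvdM, fun i => (Nat.mul_le_mul_right _ hL).trans (h.lo i), h.hi⟩

theorem r19_fgood_mono {k : ℕ} {E : ℕ} {Cc cc : ℝ} {Qm Qm' : ℕ} {P : Fin k → ℤ[X]} {ι : Type} {S : Finset ι}
    {g : ι → Fin k → ℕ} (h : FGood E Cc cc Qm P S g) (hQ : Qm' ≤ Qm) : FGood E Cc cc Qm' P S g :=
  fun Q h1 h2 => h Q h1 (h2.trans hQ)

theorem r19_mem {k d : ℕ} (c : Fin k → Fin d → ℤ) (β : Fin k → ℤ) (M : Fin k → ℕ) (t : Fin d → ℤ)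
    (h : ∀ i, 151 * (M i : ℤ) ≤ 100 * (β i + lf c t i) ∧ 100 * (β i + lf c t i) < 168 * (M i : ℤ)) :
    hh c β t ∈ cub M M ∧ (∀ i, 0 ≤ β i + lf c t i) ∧ ∀ i, ((hh c β t i : ℕ) : ℤ) = β i + lf c t i := by
  have h0 : ∀ i, 0 ≤ β i + lf c t i := fun i => by
    have h1 := h i
    have h2 : (0 : ℤ) ≤ M i := Nat.cast_nonneg _
    omega
  have h1 : ∀ i, ((hh c β t i : ℕ) : ℤ) = β i + lf c t i := fun i => by
    unfold hh
    exact Int.toNat_of_nonneg (h0 i)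
  refine ⟨?_, h0, h1⟩
  unfold cub
  rw [Fintype.mem_piFinset]
  intro i
  rw [mem_Ico]
  have h2 := h i
  have h3 := h1 i
  omega

theorem r19_close {k d : ℕ} (P : Fin k → ℤ[X]) (c : Fin k → Fin d → ℤ) (e : Fin d → ℕ) (hB : Blk c e P)
    (A Q Z : ℕ) (τ : ℝ) (hτ : τ ≤ 1) (hQ : 1 ≤ Q) (hQA : A ^ 2 * (∑ i, ∑ j, (c i j).natAbs) ≤ Q)
    (M : Fin k → ℕ) (s s' : Fin d → ℕ) (hs : ∀ j, s j = Q ^ 10 * s' j)
    (hM : ∀ i, (Z : ℝ) ^ (P i).natDegree ≤ A * (Q : ℝ) ^ τ * M i)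
    (hs2 : ∀ j, (s j : ℝ) ≤ A * (Z : ℝ) ^ e j) (i : Fin k) :
    (Q : ℤ) ^ 8 * ∑ j, |c i j| * (s' j : ℤ) ≤ M i := by
  have hQr : (1 : ℝ) ≤ Q := by exact_mod_cast hQ
  have hQ0 : (0 : ℝ) < Q := by linarith
  have hA0 : (0 : ℝ) ≤ A := Nat.cast_nonneg _
  have hM0 : (0 : ℝ) ≤ M i := Nat.cast_nonneg _
  have hQτ : (Q : ℝ) ^ τ ≤ Q := by
    calc (Q : ℝ) ^ τ ≤ (Q : ℝ) ^ (1 : ℝ) := Real.rpow_le_rpow_of_exponent_le hQr hτ
      _ = Q := Real.rpow_one _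
  -- the row sum
  obtain ⟨R, hR⟩ : ∃ R : ℝ, R = ∑ j, |(c i j : ℝ)| := ⟨_, rfl⟩
  have hR0 : 0 ≤ R := by rw [hR]; exact sum_nonneg fun j _ => abs_nonneg _
  have hRle : R ≤ ((∑ i, ∑ j, (c i j).natAbs : ℕ) : ℝ) := by
    have h1 : ∑ j, (c i j).natAbs ≤ ∑ i, ∑ j, (c i j).natAbs :=
      single_le_sum (f := fun i => ∑ j, (c i j).natAbs) (fun _ _ => Nat.zero_le _) (mem_univ i)
    have h2 : R = ((∑ j, (c i j).natAbs : ℕ) : ℝ) := by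
      rw [hR]
      push_cast
      refine sum_congr rfl fun j _ => ?_
      rw [Nat.cast_natAbs, Int.cast_abs]
    rw [h2]
    exact_mod_cast h1
  have hARQ : (A : ℝ) ^ 2 * R ≤ Q := by
    have h1 : (A : ℝ) ^ 2 * ((∑ i, ∑ j, (c i j).natAbs : ℕ) : ℝ) ≤ Q := by exact_mod_cast hQA
    exact (mul_le_mul_of_nonneg_left hRle (by positivity)).trans h1
  have hterm : ∀ j, |(c i j : ℝ)| * (s j : ℝ) ≤ |(c i j : ℝ)| * (A * (Z : ℝ) ^ (P i).natDegree) := by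
    intro j
    by_cases h0 : c i j = 0
    · rw [h0]; simp
    · rw [← hB.2 i j h0]
      exact mul_le_mul_of_nonneg_left (hs2 j) (abs_nonneg _)
  have h1 : ∑ j, |(c i j : ℝ)| * (s j : ℝ) ≤ R * (A * (Z : ℝ) ^ (P i).natDegree) := by
    rw [hR, sum_mul]
    exact sum_le_sum fun j _ => hterm j
  have h2 : R * (A * (Z : ℝ) ^ (P i).natDegree) ≤ (Q : ℝ) ^ 2 * M i := by
    calc R * (A * (Z : ℝ) ^ (P i).natDegree) ≤ R * (A * (A * (Q : ℝ) ^ τ * M i)) :=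
          mul_le_mul_of_nonneg_left (mul_le_mul_of_nonneg_left (hM i) hA0) hR0
      _ ≤ R * (A * (A * Q * M i)) := by
          refine mul_le_mul_of_nonneg_left (mul_le_mul_of_nonneg_left ?_ hA0) hR0
          exact mul_le_mul_of_nonneg_right (mul_le_mul_of_nonneg_left hQτ hA0) hM0
      _ = (A ^ 2 * R) * (Q * M i) := by ring
      _ ≤ Q * (Q * M i) := mul_le_mul_of_nonneg_right hARQ (mul_nonneg hQ0.le hM0)
      _ = (Q : ℝ) ^ 2 * M i := by ring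
  have h3 : ∑ j, |(c i j : ℝ)| * (s j : ℝ) = (Q : ℝ) ^ 10 * ∑ j, |(c i j : ℝ)| * (s' j : ℝ) := by
    rw [mul_sum]
    refine sum_congr rfl fun j _ => ?_
    rw [hs j]
    push_cast
    ring
  have h4 : (Q : ℝ) ^ 2 * ((Q : ℝ) ^ 8 * ∑ j, |(c i j : ℝ)| * (s' j : ℝ)) ≤ (Q : ℝ) ^ 2 * M i := by
    have h5 : (Q : ℝ) ^ 2 * ((Q : ℝ) ^ 8 * ∑ j, |(c i j : ℝ)| * (s' j : ℝ)) =
        (Q : ℝ) ^ 10 * ∑ j, |(c i j : ℝ)| * (s' j : ℝ) := by ring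
    rw [h5, ← h3]
    exact h1.trans h2
  have h6 : (Q : ℝ) ^ 8 * ∑ j, |(c i j : ℝ)| * (s' j : ℝ) ≤ M i := le_of_mul_le_mul_left h4 (by positivity)
  have h7 : (((Q : ℤ) ^ 8 * ∑ j, |c i j| * (s' j : ℤ) : ℤ) : ℝ) ≤ ((M i : ℤ) : ℝ) := by
    push_cast
    exact h6
  exact_mod_cast h7

theorem r19_three {Q : ℕ} (hQ : 1 ≤ Q) (a1 a2 a3 cf : ℝ) (h1 : 2 * cf ≤ a1) (h2 : 2 * cf ≤ a2) (h3 : 2 * cf ≤ a3)
    (h : (3 : ℝ) ≤ (Q : ℝ) ^ cf) : (Q : ℝ) ^ (-a1) + (Q : ℝ) ^ (-a2) + (Q : ℝ) ^ (-a3) ≤ (Q : ℝ) ^ (-cf) := by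
  have hQ1 : (1 : ℝ) ≤ Q := by exact_mod_cast hQ
  have hQ0 : (0 : ℝ) < Q := by linarith
  have hx : ∀ x : ℝ, 2 * cf ≤ x → (Q : ℝ) ^ (-x) ≤ (Q : ℝ) ^ (-cf) / 3 := by
    intro x hx
    have g1 : (Q : ℝ) ^ (-x) ≤ (Q : ℝ) ^ (-cf + -cf) :=
      Real.rpow_le_rpow_of_exponent_le hQ1 (by linarith)
    have g2 : (Q : ℝ) ^ (-cf + -cf) = (Q : ℝ) ^ (-cf) * (Q : ℝ) ^ (-cf) := Real.rpow_add hQ0 _ _
    have g3 : (Q : ℝ) ^ (-cf) ≤ 1 / 3 := by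
      rw [Real.rpow_neg hQ0.le, ← one_div]
      exact one_div_le_one_div_of_le (by norm_num) h
    have g4 : 0 < (Q : ℝ) ^ (-cf) := Real.rpow_pos_of_pos hQ0 _
    nlinarith
  have e1 := hx a1 h1
  have e2 := hx a2 h2
  have e3 := hx a3 h3
  linarith

theorem r19_main {Q : ℕ} (hQ : 1 ≤ Q) (a b c : ℝ) (h1 : 2 * c ≤ a) (h2 : 2 * c ≤ b)
    (h : (8 : ℝ) ≤ (Q : ℝ) ^ c) :
    (Q : ℝ) ^ (-c) / 4 ≤ (Q : ℝ) ^ (-c) / 2 - (Q : ℝ) ^ (-a) - (Q : ℝ) ^ (-b) := by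
  have hQ1 : (1 : ℝ) ≤ Q := by exact_mod_cast hQ
  have hQ0 : (0 : ℝ) < Q := by linarith
  have hx : ∀ x : ℝ, 2 * c ≤ x → (Q : ℝ) ^ (-x) ≤ (Q : ℝ) ^ (-c) / 8 := by
    intro x hx
    have g1 : (Q : ℝ) ^ (-x) ≤ (Q : ℝ) ^ (-c + -c) :=
      Real.rpow_le_rpow_of_exponent_le hQ1 (by linarith)
    have g2 : (Q : ℝ) ^ (-c + -c) = (Q : ℝ) ^ (-c) * (Q : ℝ) ^ (-c) := Real.rpow_add hQ0 _ _
    have g3 : (Q : ℝ) ^ (-c) ≤ 1 / 8 := by
      rw [Real.rpow_neg hQ0.le, ← one_div]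
      exact one_div_le_one_div_of_le (by norm_num) h
    have g4 : 0 < (Q : ℝ) ^ (-c) := Real.rpow_pos_of_pos hQ0 _
    nlinarith
  have e1 := hx a h1
  have e2 := hx b h2
  linarith

/-- **R19** (port of `K3_box`, H24P/K3.lean). Proof. Constants: `FGT` gives `E, Cc, cc`; `R16_main` gives `c1, K1, L1` (make `c1 ≤ 1`
by weakening), `S4T` gives `K2, L2`; `L1` such that `G2_P` holds; `R17_geo` (with `L = L1 + L2`) gives `K3`. `L_levels` with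
`A`, `E0 = 1/(4(k+1))`, `K0 = K1 + K2 + K3 + 2E + 20 + 8/ε` gives `C` and for large `Z` a level `Q`. Now `S4T` with this `C` gives `τ, c0`
(replace `τ` by `min τ (1/10)`: the hypotheses of `S4T` with the smaller `τ` imply those with the larger one), and put
`c3 = min c1 c0 / 8`. `R17_geo` with this `τ`: `X1`, `Geo`, `GeoB`, `Y`. `Mdl` at all coordinates as in `K3_box`.
Box: `S = tb b s`, `g = hh c β`. (i) `S4T` with `w n = lp (B n)` and Chebyshev: at most `card Q^(-c0/2)` of the `t ∈ S` have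
`RPh X1 B P (g t) < Rw … (g t) - X1 Q^(-c0/4)` (`k1_cheb`). (ii) `s_j = Q^10 s'_j`; cut `S` by `R18_split` into boxes
`S' = tb b' s'`; `h0 = g b'` if `S'` is not empty. `Cl`: `good` by `FGT` with `Qm = Q^2` (`s'_j ≥ Q^(2E)` as
`Z^(e_j) ≤ Q^τ s_j`, `e_j ≥ 1`), `mem`/`memb` as `151 M ≤ 100 h < 168 M`, `close`: `R18_var`,
`∑_j |c_ij| s'_j ≤ Q^(-10) ∑_j |c_ij| A Z^(e_j)`, `e_j = deg P_i` if `c_ij ≠ 0`, `Z^(deg P_i) ≤ A Q^τ M_i`. So `R16_main` and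
(exceptional case) `R12_exc` (`FGood` at the level `Q ≤ Q^2`: `FGood` is monotone in `Qm`) with the exponent `c3` on `S'`; good case
`K1_good`. For the other `t` with `NoFix`:
`Rw ≥ X1 (Q^(-c3)/2 - Q^(-c1))`, `RPh ≥ X1 Q^(-c3)/4`, `K2_count`, so `pcount ≥ Z^(1-ε)` as in `K3_box` (`k3_fin`).
The constant `τ` of the statement is the one of `R17_geo` over `20 (A+1)` (all hypotheses with `Q^τ`). -/
theorem R19_box {k d : ℕ} (P : Fin k → ℤ[X]) (c : Fin k → Fin d → ℤ) (e : Fin d → ℕ)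
    (hF : FGT c P) (hS : S4T c e P) (hB : Blk c e P) (A : ℕ) (hA : 1 ≤ A) (hP : Pol A P) (ε : ℝ) (hε : 0 < ε)
    (hε1 : ε ≤ 1 / 2) : open Classical in ∃ c1 C τ : ℝ, 0 < c1 ∧ 1 ≤ C ∧ 0 < τ ∧ τ ≤ 1 / 10 ∧ ∃ Z0 : ℕ, ∀ Z : ℕ, Z0 ≤ Z →
    ∃ Q : ℕ, 100 * Real.log Q ≤ Real.log Z ∧ Real.log Z ≤ C * Real.log Q ∧
    ∀ B : ℤ[X], Lin A B → OKB A ε Z B → ∀ (M : Fin k → ℕ) (b : Fin d → ℤ) (s : Fin d → ℕ) (β : Fin k → ℤ),
    (∀ i, 8 * Q ^ 10 ∣ M i) → (∀ j, 8 * Q ^ 10 ∣ s j) →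
    (∀ i, (Z : ℝ) ^ (P i).natDegree ≤ A * (Q : ℝ) ^ τ * M i) → (∀ i, (M i : ℝ) ≤ A * (Z : ℝ) ^ (P i).natDegree) →
    (∀ j, (Z : ℝ) ^ e j ≤ A * (Q : ℝ) ^ τ * s j) → (∀ j, (s j : ℝ) ≤ A * (Z : ℝ) ^ e j) →
    (∀ t ∈ tb b s, ∀ i, 151 * (M i : ℤ) ≤ 100 * (β i + lf c t i) ∧ 100 * (β i + lf c t i) < 168 * (M i : ℤ)) →
    (((tb b s).filter (fun t => NoFix (sys B P (hh c β t)) ∧
      ((pcount Z B P (hh c β t) : ℕ) : ℝ) < (Z : ℝ) ^ (1 - ε))).card : ℝ) ≤ (tb b s).card * (Q : ℝ) ^ (-c1) := by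
  classical
  obtain ⟨E, Cc, cc, hFP, hFG⟩ := hF
  obtain ⟨c1, K1, hc1, hK1, L1, hL1, hR16⟩ := R16_main P A E hA hP Cc cc hFP
  obtain ⟨K2, L2, hK2, hS4⟩ := hS
  obtain ⟨K4, hK4, hW2⟩ := W2_ms A
  obtain ⟨LP, hLP, hG2⟩ := G2_P P hP.deg
  obtain ⟨K3, hK3, hgeo⟩ := R17_geo P A hA hP ε hε hε1 (L1 + L2 + LP)
  obtain ⟨E0, hE0⟩ : ∃ E0 : ℝ, E0 = 1 / (4 * ((k : ℝ) + 1)) := ⟨_, rfl⟩
  have hE0p : 0 < E0 := by rw [hE0]; positivity
  have hE0k : 4 * ((k : ℝ) + 1) * E0 ≤ 1 := by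
    rw [hE0]
    have : (4 * ((k : ℝ) + 1)) ≠ 0 := by positivity
    rw [mul_one_div, div_self this]
  have hE01 : E0 ≤ 1 := by
    have hk : (0 : ℝ) ≤ k := Nat.cast_nonneg _
    nlinarith
  obtain ⟨K0, hK0⟩ : ∃ K0 : ℝ, K0 = K1 + K2 + K3 + K4 + 100 + c1 / ε + 2 * E := ⟨_, rfl⟩
  have hce : 0 < c1 / ε := div_pos hc1 hε
  have hEn : (0 : ℝ) ≤ E := Nat.cast_nonneg _
  have hK0a : K1 ≤ K0 := by rw [hK0]; linarith
  have hK0b : K2 ≤ K0 := by rw [hK0]; linarith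
  have hK0c : K3 ≤ K0 := by rw [hK0]; linarith
  have hK0d : K4 ≤ K0 := by rw [hK0]; linarith
  have hK0e : 100 ≤ K0 := by rw [hK0]; linarith
  have hK0f : c1 / ε ≤ K0 := by rw [hK0]; linarith
  have hK0g : 2 * (E : ℝ) + 20 ≤ K0 := by rw [hK0]; linarith
  obtain ⟨C, hC, X0, hlev⟩ := L_levels A E0 K0 hE0p (by linarith)
  obtain ⟨Q1, hR16'⟩ := hR16 C
  obtain ⟨τ1, c0, hτ1, hτ11, hc0, Q2, hS4'⟩ := hS4 C
  obtain ⟨Q3, hW2'⟩ := hW2 C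
  obtain ⟨τ, hτd⟩ : ∃ τ : ℝ, τ = min τ1 (1 / 10) := ⟨_, rfl⟩
  have hτ0 : 0 < τ := by rw [hτd]; exact lt_min hτ1 (by norm_num)
  have hττ1 : τ ≤ τ1 := by rw [hτd]; exact min_le_left _ _
  have hτ10 : τ ≤ 1 / 10 := by rw [hτd]; exact min_le_right _ _
  obtain ⟨Q4, hgeo'⟩ := hgeo τ hτ0 hτ10
  obtain ⟨c3, hc3d⟩ : ∃ c3 : ℝ, c3 = min c1 c0 / 8 := ⟨_, rfl⟩
  have hc3 : 0 < c3 := by rw [hc3d]; have := lt_min hc1 hc0; linarith
  have hc31 : 8 * c3 ≤ c1 := by rw [hc3d]; have := min_le_left c1 c0; linarith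
  have hc30 : 8 * c3 ≤ c0 := by rw [hc3d]; have := min_le_right c1 c0; linarith
  obtain ⟨c2, hc2, Q5, hexc⟩ := R12_exc k A E hA Cc cc hFP c3 hc3
  obtain ⟨Q6, hgood⟩ := K1_good k A hA c3 hc3
  obtain ⟨Z1, hfin⟩ := k3_fin A k ε (2 * c3) hε
  obtain ⟨cf, hcfd⟩ : ∃ cf : ℝ, cf = min c1 (min c2 (c0 / 2)) / 2 := ⟨_, rfl⟩
  have hm2 : 0 < min c1 (min c2 (c0 / 2)) := lt_min hc1 (lt_min hc2 (by linarith))
  have hcf : 0 < cf := by rw [hcfd]; linarith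
  have hcf1 : 2 * cf ≤ c1 := by rw [hcfd]; have := min_le_left c1 (min c2 (c0 / 2)); linarith
  have hcf2 : 2 * cf ≤ c2 := by
    rw [hcfd]
    have := (min_le_right c1 (min c2 (c0 / 2))).trans (min_le_left _ _)
    linarith
  have hcf3 : 2 * cf ≤ c0 / 2 := by
    rw [hcfd]
    have := (min_le_right c1 (min c2 (c0 / 2))).trans (min_le_right _ _)
    linarith
  obtain ⟨Q7, _, hQ7⟩ := G1_rlog 8 0 c3 hc3
  obtain ⟨Q8, _, hQ8⟩ := G1_rlog 3 0 cf hcf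
  obtain ⟨τf, hτf⟩ : ∃ τf : ℝ, τf = τ / (20 * (A + 1)) := ⟨_, rfl⟩
  have hAr : (1 : ℝ) ≤ A := by exact_mod_cast hA
  have hτf0 : 0 < τf := by rw [hτf]; positivity
  have hτf1 : τf ≤ τ / 20 := by
    rw [hτf]
    exact div_le_div_of_nonneg_left hτ0.le (by norm_num) (by linarith)
  obtain ⟨Q9, _, hQ9⟩ := G1_rlog A 0 (τ / 2) (by linarith)
  obtain ⟨R, hR⟩ : ∃ R : ℕ, R = A ^ 2 * ∑ i, ∑ j, (c i j).natAbs := ⟨_, rfl⟩
  obtain ⟨Qm, hQm⟩ : ∃ Qm : ℕ, Qm = Q1 + Q2 + Q3 + Q4 + Q5 + Q6 + Q7 + Q8 + Q9 + R + 4 * A ^ 2 + A + 3 := ⟨_, rfl⟩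
  refine ⟨cf, C, τf, hcf, hC, hτf0, by linarith, X0 + Z1 + 3 * A + 3 + ⌈Real.exp (C * Real.log Qm)⌉₊,
    fun Z hZ => ?_⟩
  obtain ⟨Q, hl1, hl2, _, hcase⟩ := hlev Z (by omega)
  -- sizes
  have hZ3 : 3 ≤ Z := by omega
  have hZ0 : (0 : ℝ) < Z := by exact_mod_cast (by omega : 0 < Z)
  have hZ1' : (1 : ℝ) ≤ Z := by exact_mod_cast (by omega : 1 ≤ Z)
  have hlZ : 1 ≤ Real.log Z := G1_log1 hZ3
  have hlQ : 0 < Real.log Q := by
    by_contra hcon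
    push Not at hcon
    have := mul_nonpos_of_nonneg_of_nonpos (by linarith : 0 ≤ C) hcon
    linarith
  have hQ0 : 0 < Q := by
    rcases Nat.eq_zero_or_pos Q with h | h
    · rw [h, Nat.cast_zero, Real.log_zero] at hlQ; exact absurd hlQ (lt_irrefl _)
    · exact h
  have hQr : (0 : ℝ) < Q := by exact_mod_cast hQ0
  have hQmQ : Qm ≤ Q := by
    have hQm0 : (0 : ℝ) < Qm := by exact_mod_cast (by omega : 0 < Qm)
    have h1 : Real.exp (C * Real.log Qm) ≤ Z := (Nat.le_ceil _).trans (by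
      exact_mod_cast (by omega : ⌈Real.exp (C * Real.log Qm)⌉₊ ≤ Z))
    have h2 : C * Real.log Qm ≤ Real.log Z := (Real.le_log_iff_exp_le hZ0).mpr h1
    have h3 : C * Real.log Qm ≤ C * Real.log Q := h2.trans hl2
    have h4 : Real.log Qm ≤ Real.log Q := le_of_mul_le_mul_left h3 (by linarith)
    have h5 : (Qm : ℝ) ≤ Q := (Real.log_le_log_iff hQm0 hQr).mp h4
    exact_mod_cast h5
  have hQ1r : (1 : ℝ) ≤ Q := by exact_mod_cast hQ0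
  have hlog100 : 100 * Real.log Q ≤ Real.log Z :=
    (mul_le_mul_of_nonneg_right hK0e hlQ.le).trans hl1
  have hQ100 : Q ^ 100 ≤ Z := by
    have h1 : Real.log ((Q : ℝ) ^ 100) ≤ Real.log Z := by
      rw [Real.log_pow]; push_cast; linarith
    have h2 : (Q : ℝ) ^ 100 ≤ Z := (Real.log_le_log_iff (by positivity) hZ0).mp h1
    exact_mod_cast h2
  have hQE : Q ^ (2 * E + 20) ≤ Z := by
    have h1 : Real.log ((Q : ℝ) ^ (2 * E + 20)) ≤ Real.log Z := by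
      rw [Real.log_pow]
      push_cast
      exact (mul_le_mul_of_nonneg_right hK0g hlQ.le).trans hl1
    have h2 : (Q : ℝ) ^ (2 * E + 20) ≤ Z := (Real.log_le_log_iff (by positivity) hZ0).mp h1
    exact_mod_cast h2
  have hQZ : Q ≤ Z := (Nat.le_self_pow (by norm_num) Q).trans hQ100
  have hQA : A ≤ Q := by omega
  have hQτf : (Q : ℝ) ^ τf ≤ Q := by
    calc (Q : ℝ) ^ τf ≤ (Q : ℝ) ^ (1 : ℝ) := Real.rpow_le_rpow_of_exponent_le hQ1r (by linarith)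
      _ = Q := Real.rpow_one _
  have hAτ : (A : ℝ) * (Q : ℝ) ^ τf ≤ (Q : ℝ) ^ τ1 := by
    have h1 := hQ9 Q (by omega)
    rw [Real.rpow_zero, mul_one] at h1
    calc (A : ℝ) * (Q : ℝ) ^ τf ≤ (Q : ℝ) ^ (τ / 2) * (Q : ℝ) ^ τf :=
          mul_le_mul_of_nonneg_right h1 (Real.rpow_nonneg hQr.le _)
      _ = (Q : ℝ) ^ (τ / 2 + τf) := (Real.rpow_add hQr _ _).symm
      _ ≤ (Q : ℝ) ^ τ1 := Real.rpow_le_rpow_of_exponent_le hQ1r (by linarith)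
  have hAτ2 : (A : ℝ) ≤ (Q : ℝ) ^ τ1 := by
    have h1 := hQ9 Q (by omega)
    rw [Real.rpow_zero, mul_one] at h1
    exact h1.trans (Real.rpow_le_rpow_of_exponent_le hQ1r (by linarith))
  refine ⟨Q, hlog100, hl2, ?_⟩
  intro B hLB hOK M b s β hM hs hM1 hM2 hs1 hs2 hrange
  obtain ⟨X1, hX1p, hX1l, hX1A, hX1Q, hX1τ, hX1d, hgM, hgB⟩ := hgeo' Q Z (by omega)
    ((mul_le_mul_of_nonneg_right hK0c hlQ.le).trans hl1)
  have hM8' : ∀ i, 8 * Q ^ 8 ∣ M i := fun i =>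
    (Nat.mul_dvd_mul_left 8 (pow_dvd_pow Q (by norm_num))).trans (hM i)
  obtain ⟨hG, hMX⟩ := hgM M hM8' (by rw [← hτf]; exact hM1) hM2
  obtain ⟨Y, hGB, hY1, hY2⟩ := hgB B hLB hOK
  have hGa : Geo L1 Q Z X1 P M := r19_geo_mono hG (by omega)
  have hGb : Geo L2 Q Z X1 P M := r19_geo_mono hG (by omega)
  have hGc : Geo LP Q Z X1 P M := r19_geo_mono hG (by omega)
  have hRga : Rg K1 C Q Z := ⟨(mul_le_mul_of_nonneg_right hK0a hlQ.le).trans hl1, hl2⟩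
  have hRgb : Rg K2 C Q Z := ⟨(mul_le_mul_of_nonneg_right hK0b hlQ.le).trans hl1, hl2⟩
  have hRgd : Rg K4 C Q Z := ⟨(mul_le_mul_of_nonneg_right hK0d hlQ.le).trans hl1, hl2⟩
  have hX1Z : 2 * X1 ≤ Z := by
    refine le_trans ?_ hX1A
    have : 2 * X1 * 1 ≤ 2 * X1 * A := Nat.mul_le_mul_left _ hA
    nlinarith
  -- the sides
  have hMpos : ∀ i, 0 < M i := by
    intro i
    rcases Nat.eq_zero_or_pos (M i) with h | h
    · have h1 := hM1 i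
      rw [h, Nat.cast_zero, mul_zero] at h1
      have h2 : 0 < (Z : ℝ) ^ (P i).natDegree := by positivity
      linarith
    · exact h
  have hM8 : ∀ i, 8 ∣ M i := fun i => (Dvd.intro _ rfl).trans (hM i)
  have hYM : ∀ i, M i ≤ 2 * Ysc (M i) ∧ Ysc (M i) ≤ M i := by
    intro i
    obtain ⟨t, ht⟩ := hM8 i
    unfold Ysc
    omega
  have hYs : ∀ i, Z ≤ (Ysc (M i)) ^ 2 ∧ Ysc (M i) ≤ Z ^ (A + 1) := by
    intro i
    obtain ⟨y1, y2⟩ := hYM i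
    constructor
    · by_contra hcon
      push Not at hcon
      have hd := hP.deg i
      have h1 : (Z : ℝ) ≤ A * Q * M i := by
        calc (Z : ℝ) ≤ (Z : ℝ) ^ (P i).natDegree := le_self_pow₀ hZ1' (by omega)
          _ ≤ A * (Q : ℝ) ^ τf * M i := hM1 i
          _ ≤ A * Q * M i := by
            apply mul_le_mul_of_nonneg_right _ (Nat.cast_nonneg _)
            exact mul_le_mul_of_nonneg_left hQτf (Nat.cast_nonneg _)
      have h2 : Z ≤ A * Q * M i := by exact_mod_cast h1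
      have h3 : Z ^ 2 ≤ (A * Q * (2 * Ysc (M i))) ^ 2 :=
        Nat.pow_le_pow_left (h2.trans (Nat.mul_le_mul_left _ y1)) 2
      have h4 : (A * Q * (2 * Ysc (M i))) ^ 2 = (4 * A ^ 2 * Q ^ 2) * (Ysc (M i)) ^ 2 := by ring
      rw [h4] at h3
      have h5 : 0 < 4 * A ^ 2 * Q ^ 2 := by positivity
      have h6 : (4 * A ^ 2 * Q ^ 2) * (Ysc (M i)) ^ 2 < (4 * A ^ 2 * Q ^ 2) * Z :=
        Nat.mul_lt_mul_of_pos_left hcon h5
      have h7 : Z * Z < (4 * A ^ 2 * Q ^ 2) * Z := by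
        have : Z ^ 2 = Z * Z := by ring
        rw [this] at h3
        exact h3.trans_lt h6
      have h8 : Z < 4 * A ^ 2 * Q ^ 2 := Nat.lt_of_mul_lt_mul_right h7
      have h9 : 4 * A ^ 2 * Q ^ 2 ≤ Q ^ 3 := by
        have : 4 * A ^ 2 ≤ Q := by omega
        calc 4 * A ^ 2 * Q ^ 2 ≤ Q * Q ^ 2 := Nat.mul_le_mul_right _ this
          _ = Q ^ 3 := by ring
      have h10 : Q ^ 3 ≤ Q ^ 100 := Nat.pow_le_pow_right hQ0 (by norm_num)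
      omega
    · have h1 : (Ysc (M i) : ℝ) ≤ A * (Z : ℝ) ^ (P i).natDegree :=
        le_trans (by exact_mod_cast y2) (hM2 i)
      have h2 : Ysc (M i) ≤ A * Z ^ (P i).natDegree := by exact_mod_cast h1
      calc Ysc (M i) ≤ A * Z ^ (P i).natDegree := h2
        _ ≤ Z * Z ^ A := Nat.mul_le_mul (by omega) (Nat.pow_le_pow_right (by omega) (hP.degA i))
        _ = Z ^ (A + 1) := by ring
  -- the sub-boxes
  obtain ⟨s', hs'⟩ : ∃ s' : Fin d → ℕ, ∀ j, s j = Q ^ 10 * s' j := by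
    choose u hu using hs
    exact ⟨fun j => 8 * u j, fun j => by rw [hu j]; ring⟩
  have hs'E : ∀ j, (Q ^ 2) ^ E ≤ s' j := by
    intro j
    have h1 : (Z : ℝ) ≤ A * Q * s j := by
      calc (Z : ℝ) ≤ (Z : ℝ) ^ e j := le_self_pow₀ hZ1' (by have := hB.1 j; omega)
        _ ≤ A * (Q : ℝ) ^ τf * s j := hs1 j
        _ ≤ A * Q * s j := by
          apply mul_le_mul_of_nonneg_right _ (Nat.cast_nonneg _)
          exact mul_le_mul_of_nonneg_left hQτf (Nat.cast_nonneg _)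
    have h2 : Z ≤ A * Q * s j := by exact_mod_cast h1
    rw [hs' j] at h2
    have h3 : A * Q * (Q ^ 10 * s' j) ≤ Q ^ 20 * s' j := by
      calc A * Q * (Q ^ 10 * s' j) ≤ Q * Q * (Q ^ 10 * s' j) :=
            Nat.mul_le_mul_right _ (Nat.mul_le_mul_right _ hQA)
        _ = Q ^ 12 * s' j := by ring
        _ ≤ Q ^ 20 * s' j := Nat.mul_le_mul_right _ (Nat.pow_le_pow_right hQ0 (by norm_num))
    have h4 : Q ^ 20 * (Q ^ 2) ^ E ≤ Q ^ 20 * s' j := by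
      refine le_trans (le_of_eq ?_) (hQE.trans (h2.trans h3))
      rw [← pow_mul, ← pow_add]
      congr 1
      omega
    exact Nat.le_of_mul_le_mul_left h4 (by positivity)
  obtain ⟨w, hw⟩ : ∃ w : ℕ → ℝ, w = fun n : ℕ => lp (B.eval (n : ℤ)) := ⟨_, rfl⟩
  obtain ⟨Bd, hBd⟩ : ∃ Bd : (Fin d → ℤ) → Prop, ∀ t, Bd t ↔ NoFix (sys B P (hh c β t)) ∧
      ¬ (X1 * ((Q : ℝ) ^ (-c3) / 2 - (Q : ℝ) ^ (-c1)) ≤ Rw Q X1 P M w (hh c β t)) := ⟨_, fun _ => Iff.rfl⟩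
  have hdist : ∀ b' : Fin d → ℤ, tb b' s' ⊆ tb b s → ∀ t0 ∈ tb b' s',
      Cl E Cc cc Q P M (tb b' s') (hh c β) (hh c β t0) := by
    intro b' hb' t0 ht0
    refine ⟨hFG (Q ^ 2) b' s' β (Nat.one_le_pow _ _ hQ0) hs'E
      (fun t ht => (r19_mem c β M t (hrange t (hb' ht))).2.1),
      fun t ht => (r19_mem c β M t (hrange t (hb' ht))).1, (r19_mem c β M t0 (hrange t0 (hb' ht0))).1, ?_⟩
    intro t ht i
    have h1 := (r19_mem c β M t (hrange t (hb' ht))).2.2 i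
    have h2 := (r19_mem c β M t0 (hrange t0 (hb' ht0))).2.2 i
    rw [h1, h2]
    have h3 := R18_var c b' s' i t t0 ht ht0
    have h4 := r19_close P c e hB A Q Z τf (by linarith) hQ0 (by rw [← hR]; omega) M s s' hs' hM1 hs2 i
    have h5 : β i + lf c t i - (β i + lf c t0 i) = lf c t i - lf c t0 i := by ring
    rw [h5]
    exact (mul_le_mul_of_nonneg_left h3 (by positivity)).trans h4
  have hRw : ∀ h : Fin k → ℕ, Rw Q X1 P M w h = Rw Q X1 P M (fun n => lp (B.eval (n : ℤ))) h := by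
    intro h
    rw [hw]
  have hboxes : ∀ b' : Fin d → ℤ, tb b' s' ⊆ tb b s → (((tb b' s').filter Bd).card : ℝ) ≤
      (tb b' s').card * ((Q : ℝ) ^ (-c1) + (Q : ℝ) ^ (-c2)) := by
    intro b' hb'
    rcases (tb b' s').eq_empty_or_nonempty with hem | ⟨t0, ht0⟩
    · rw [hem]; simp
    have hCl := hdist b' hb' t0 ht0
    have hcomb : ∀ (Bad1 Bad2 : Finset (Fin d → ℤ)),
        (Bad1.card : ℝ) ≤ (tb b' s').card * (Q : ℝ) ^ (-c1) →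
        (Bad2.card : ℝ) ≤ (tb b' s').card * (Q : ℝ) ^ (-c2) →
        (∀ t ∈ tb b' s', t ∉ Bad1 → t ∉ Bad2 → NoFix (sys B P (hh c β t)) →
          X1 * ((Q : ℝ) ^ (-c3) / 2 - (Q : ℝ) ^ (-c1)) ≤ Rw Q X1 P M w (hh c β t)) →
        (((tb b' s').filter Bd).card : ℝ) ≤ (tb b' s').card * ((Q : ℝ) ^ (-c1) + (Q : ℝ) ^ (-c2)) := by
      intro Bad1 Bad2 hb1 hb2 hb
      have hsub : (tb b' s').filter Bd ⊆ Bad1 ∪ Bad2 := by
        intro t ht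
        rw [mem_filter] at ht
        have h2 := (hBd t).1 ht.2
        rw [mem_union]
        by_contra hcon
        push Not at hcon
        exact h2.2 (hb t ht.1 hcon.1 hcon.2 h2.1)
      have hcard := (card_le_card hsub).trans (card_union_le Bad1 Bad2)
      have h1 : (((tb b' s').filter Bd).card : ℝ) ≤ (Bad1.card : ℝ) + Bad2.card := by exact_mod_cast hcard
      rw [mul_add]
      linarith
    rcases hcase with hg | ⟨r, hr0, ψ, βe, η, hr, hψ, hψ1, hψ2, hβ, hL0, hη, hmd⟩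
    · obtain ⟨Bad, _, hBc, hBad⟩ := hR16' Q Z X1 Y M B 1 E0 p0 (fun _ => 0) (by omega) hRga hGa hGB
        (p0_mem hQ0) (by
          have : p0.1 = 1 := rfl
          rw [this, one_pow]; exact hQ0)
        (hg Y hY1 hY2).2 (fun i => (hg _ (hYs i).1 (hYs i).2).1) hE0p.le hE0k (Fin d → ℤ) (tb b' s') (hh c β)
        (hh c β t0) hCl
      refine hcomb Bad ∅ hBc ?_ ?_
      · rw [card_empty, Nat.cast_zero]
        exact mul_nonneg (Nat.cast_nonneg _) (Real.rpow_nonneg hQr.le _)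
      · intro t ht hb _ hNF
        rw [hRw]
        refine hBad t ht hb _ ?_
        intro th' ht1 ht2 ht3
        exact hgood Q (by omega) B hLB P hP (hh c β t) hNF th' ht1 ht2
    · have hm := hmd Y hY1 hY2
      obtain ⟨Bad, _, hBc, hBad⟩ := hR16' Q Z X1 Y M B η E0 ⟨r, ψ⟩ (fun m => (m : ℝ) ^ (βe - 1))
        (by omega) hRga hGa hGB hm.1.mem hm.1.cond hm.2 (fun i => (hmd _ (hYs i).1 (hYs i).2).1)
        hE0p.le hE0k (Fin d → ℤ) (tb b' s') (hh c β) (hh c β t0) hCl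
      obtain ⟨Bad2, _, hBc2, hBad2⟩ := hexc Q (by omega) B hLB P hP r ψ βe η hr hψ hψ1 hψ2 hβ hL0 hη
        (Fin d → ℤ) (tb b' s') (hh c β) (r19_fgood_mono hCl.good (Nat.le_self_pow (by norm_num) Q))
      refine hcomb Bad Bad2 hBc hBc2 ?_
      intro t ht hb hb2 hNF
      rw [hRw]
      refine hBad t ht hb _ ?_
      intro th' ht1 ht2 ht3
      exact hBad2 t ht hb2 hNF th' ht1 ht2
  have hsplit := R18_split b s s' (Q ^ 10) hs' Bd ((Q : ℝ) ^ (-c1) + (Q : ℝ) ^ (-c2)) hboxes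
  -- the mean square over the box
  have hcfM : ∀ i, ∃ (B' : ℤ → Ch → ℂ) (mb : Ch → ℝ), Cf Q (Ysc (M i)) B' mb := by
    intro i
    rcases hcase with hg | ⟨r, hr0, ψ, βe, η, hr, hψ, hψ1, hψ2, hβ, hL0, hη, hmd⟩
    · obtain ⟨e', eb, mb, _, _, _, a4⟩ := CF0 Q (Ysc (M i)) 1 E0 p0 (fun _ => 0) hQ0
        (hg _ (hYs i).1 (hYs i).2).1 hE01
      exact ⟨_, mb, a4⟩
    · obtain ⟨e', eb, mb, _, _, _, a4⟩ := CF0 Q (Ysc (M i)) η E0 ⟨r, ψ⟩ (fun m => (m : ℝ) ^ (βe - 1)) hQ0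
        (hmd _ (hYs i).1 (hYs i).2).1 hE01
      exact ⟨_, mb, a4⟩
  have hcfB : ∃ (B' : ℤ → Ch → ℂ) (mb : Ch → ℝ), Cf (Q ^ 100) Y B' mb := by
    have hQ100' : 1 ≤ Q ^ 100 := Nat.one_le_pow _ _ hQ0
    rcases hcase with hg | ⟨r, hr0, ψ, βe, η, hr, hψ, hψ1, hψ2, hβ, hL0, hη, hmd⟩
    · obtain ⟨e', eb, mb, _, _, _, a4⟩ := CF0 (Q ^ 100) Y 1 E0 p0 (fun _ => 0) hQ100'
        (hg Y hY1 hY2).2 hE01
      exact ⟨_, mb, a4⟩
    · obtain ⟨e', eb, mb, _, _, _, a4⟩ := CF0 (Q ^ 100) Y η E0 ⟨r, ψ⟩ (fun m => (m : ℝ) ^ (βe - 1)) hQ100'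
        (hmd Y hY1 hY2).2 hE01
      exact ⟨_, mb, a4⟩
  obtain ⟨C0, mb0, hC0⟩ := hcfB
  have hwb : ∀ n ∈ Ico X1 (2 * X1), |w n| ≤ (Real.log Z) ^ 2 := by
    intro n hn
    rw [hw]
    exact (hW2' Q Z X1 Y B C0 mb0 (by omega) hRgd hG.pos hG.le hG.ge hGB hC0 X1 X1 le_rfl (by omega)
      (Nat.le_mul_of_pos_right _ (Nat.pow_pos hQ0))).2 n hn
  have hms := hS4' Q Z X1 M b s β (by omega) hRgb hGb
    (hX1τ.trans (mul_le_mul_of_nonneg_left (Real.rpow_le_rpow_of_exponent_le hQ1r hττ1) (Nat.cast_nonneg _)))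
    (fun i => (hMX i).trans (mul_le_mul_of_nonneg_left (Real.rpow_le_rpow_of_exponent_le hQ1r hττ1) (by positivity)))
    (fun j => (hs1 j).trans (mul_le_mul_of_nonneg_right hAτ (Nat.cast_nonneg _)))
    (fun j => (hs2 j).trans (mul_le_mul_of_nonneg_right hAτ2 (by positivity)))
    hcfM hrange w hwb
  have hX1r : (0 : ℝ) < X1 := by exact_mod_cast hX1p
  have hTpos : 0 < (X1 : ℝ) * (Q : ℝ) ^ (-(c0 / 4)) := mul_pos hX1r (Real.rpow_pos_of_pos hQr _)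
  have hRP : ∀ t : Fin d → ℤ, ∑ n ∈ Ico X1 (2 * X1), w n * ∏ i, lp ((P i).eval (n : ℤ) + hh c β t i) =
      RPh X1 B P (hh c β t) := by
    intro t
    rw [hw]
    rfl
  have hms' : ∑ t ∈ tb b s, |RPh X1 B P (hh c β t) - Rw Q X1 P M w (hh c β t)| ^ 2 ≤
      (X1 : ℝ) ^ 2 * (tb b s).card * (Q : ℝ) ^ (-c0) := by
    refine le_trans (le_of_eq ?_) hms
    refine sum_congr rfl fun t _ => ?_
    rw [hRP t, sq_abs]
  have hch := k1_cheb (tb b s) (fun t => |RPh X1 B P (hh c β t) - Rw Q X1 P M w (hh c β t)|) _ _ hTpos hms'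
    (fun _ => abs_nonneg _)
  have hch' : (((tb b s).filter fun t => (X1 : ℝ) * (Q : ℝ) ^ (-(c0 / 4)) <
      |RPh X1 B P (hh c β t) - Rw Q X1 P M w (hh c β t)|).card : ℝ) ≤ (tb b s).card * (Q : ℝ) ^ (-(c0 / 2)) := by
    refine hch.trans (le_of_eq ?_)
    have h1 : ((X1 : ℝ) * (Q : ℝ) ^ (-(c0 / 4))) ^ 2 = (X1 : ℝ) ^ 2 * (Q : ℝ) ^ (-(c0 / 2)) := by
      rw [mul_pow, ← Real.rpow_natCast ((Q : ℝ) ^ (-(c0 / 4))), ← Real.rpow_mul hQr.le]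
      congr 2
      push_cast
      ring
    have h2 : (Q : ℝ) ^ (-c0) = (Q : ℝ) ^ (-(c0 / 2)) * (Q : ℝ) ^ (-(c0 / 2)) := by
      rw [← Real.rpow_add hQr]
      congr 1
      ring
    have h3 : (0 : ℝ) < (Q : ℝ) ^ (-(c0 / 2)) := Real.rpow_pos_of_pos hQr _
    rw [h1, h2]
    field_simp
  -- the conclusion
  have hQc3 : (8 : ℝ) ≤ (Q : ℝ) ^ c3 := by
    have := hQ7 Q (by omega)
    rwa [Real.rpow_zero, mul_one] at this
  have hQcf : (3 : ℝ) ≤ (Q : ℝ) ^ cf := by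
    have := hQ8 Q (by omega)
    rwa [Real.rpow_zero, mul_one] at this
  have hmain := r19_main hQ0 c1 (c0 / 4) c3 (by linarith) (by linarith) hQc3
  have hsub : (tb b s).filter (fun t => NoFix (sys B P (hh c β t)) ∧
      ((pcount Z B P (hh c β t) : ℕ) : ℝ) < (Z : ℝ) ^ (1 - ε)) ⊆
      (tb b s).filter Bd ∪ (tb b s).filter (fun t => (X1 : ℝ) * (Q : ℝ) ^ (-(c0 / 4)) <
        |RPh X1 B P (hh c β t) - Rw Q X1 P M w (hh c β t)|) := by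
    intro t ht
    rw [mem_filter] at ht
    obtain ⟨ht1, ht2, ht3⟩ := ht
    rw [mem_union, mem_filter, mem_filter]
    by_contra hcon
    push Not at hcon
    have h1 := hcon.2 ht1
    have h2 : X1 * ((Q : ℝ) ^ (-c3) / 2 - (Q : ℝ) ^ (-c1)) ≤ Rw Q X1 P M w (hh c β t) := by
      by_contra h
      exact hcon.1 ht1 ((hBd t).2 ⟨ht2, h⟩)
    have h3 : Rw Q X1 P M w (hh c β t) - (X1 : ℝ) * (Q : ℝ) ^ (-(c0 / 4)) ≤ RPh X1 B P (hh c β t) := by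
      have := (abs_le.1 h1).1
      linarith
    have h4 := K2_count P A (L1 + L2 + LP) Q Z X1 Y hQ0 hQZ (by omega) hZ3 M B hP hG hGB hX1Z
      (fun i n hn => (hG2 Q Z X1 M hGc i n hn).1) (hh c β t) (r19_mem c β M t (hrange t ht1)).1
    have h5 := hfin Z Q X1 (by omega) hQ0 (by
      have h6 : 4 * (2 * c3) / ε ≤ c1 / ε := div_le_div_of_nonneg_right (by linarith) hε.le
      exact (mul_le_mul_of_nonneg_right (h6.trans hK0f) hlQ.le).trans hl1) hX1l _ _ ht3 h4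
    have h7 : 2 * c3 / 2 = c3 := by ring
    rw [h7] at h5
    have h8 := mul_le_mul_of_nonneg_left hmain hX1r.le
    have h9 : (X1 : ℝ) * ((Q : ℝ) ^ (-c3) / 2 - (Q : ℝ) ^ (-c1) - (Q : ℝ) ^ (-(c0 / 4))) =
        X1 * ((Q : ℝ) ^ (-c3) / 2 - (Q : ℝ) ^ (-c1)) - X1 * (Q : ℝ) ^ (-(c0 / 4)) := by ring
    rw [h9] at h8
    linarith
  have hcard := (card_le_card hsub).trans (card_union_le _ _)
  have hcard' : (((tb b s).filter (fun t => NoFix (sys B P (hh c β t)) ∧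
      ((pcount Z B P (hh c β t) : ℕ) : ℝ) < (Z : ℝ) ^ (1 - ε))).card : ℝ) ≤
      (((tb b s).filter Bd).card : ℝ) + (((tb b s).filter (fun t => (X1 : ℝ) * (Q : ℝ) ^ (-(c0 / 4)) <
        |RPh X1 B P (hh c β t) - Rw Q X1 P M w (hh c β t)|)).card : ℝ) := by exact_mod_cast hcard
  have h3 := r19_three hQ0 c1 c2 (c0 / 2) cf hcf1 hcf2 hcf3 hQcf
  have h4 := mul_le_mul_of_nonneg_left h3 (Nat.cast_nonneg (tb b s).card : (0 : ℝ) ≤ (tb b s).card)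
  have h5 : ((tb b s).card : ℝ) * ((Q : ℝ) ^ (-c1) + (Q : ℝ) ^ (-c2) + (Q : ℝ) ^ (-(c0 / 2))) =
      (tb b s).card * ((Q : ℝ) ^ (-c1) + (Q : ℝ) ^ (-c2)) + (tb b s).card * (Q : ℝ) ^ (-(c0 / 2)) := by ring
  rw [h5] at h4
  linarith

end Pool.Agent.HUP
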