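import Pool.Agent.Lib.HUP.S4U
import Pool.Agent.Lib.HUK.C7

/-!
# Projects HUP, HPC, S4P (helper37): `PK 1`; `S4TU_of`
-/

open Finset Polynomial

namespace Pool.Agent.HUP

open Pool.Agent.HUK

/-- The correlation norm `m = 1`. -/
theorem pk_one (h : PK 2) : PK 1 := by
  obtain ⟨K, hK, h⟩ := h
  refine ⟨K, hK, fun Cr θ hCr hθ => ?_⟩
  obtain ⟨κ, h0, h1, X1, hU⟩ := h Cr θ hCr hθ
  obtain ⟨X2, hX2⟩ := s4a_large 4 (κ / 4) (by positivity)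
  refine ⟨κ / 4, by linarith, by linarith, max 1 (max X1 X2), fun Q Q' X hX hR => ?_⟩
  have hX1 : 1 ≤ X := (le_max_left _ _).trans hX
  have hB := hU Q Q' X (((le_max_left _ _).trans (le_max_right _ _)).trans hX) hR
  have h4 := hX2 X (((le_max_right _ _).trans (le_max_right _ _)).trans hX)
  have hXp : (0 : ℝ) < X := by exact_mod_cast hX1
  have hS := c7_spt X (Pool.Agent.H9U.Er Q Q' X)
  have h2 := c7_one (4 * X) _ hS
  have h5 : 0 ≤ GG (4 * X) 1 (Pool.Agent.H9U.cutJ X (Pool.Agent.H9U.Er Q Q' X)) := D0_nn hS le_rfl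
  refine abs_le_of_sq_le_sq' ?_ (by positivity) |>.2
  refine h2.trans ?_
  have e1 : ((X : ℝ) ^ (((1 : ℕ) : ℝ) + 1 - κ / 4)) ^ 2 = (X : ℝ) * (X : ℝ) ^ (((2 : ℕ) : ℝ) + 1 - κ) * ((X : ℝ) ^ (κ / 4) * (X : ℝ) ^ (κ / 4)) := by
    rw [← Real.rpow_natCast, ← Real.rpow_mul hXp.le]
    nth_rewrite 2 [← Real.rpow_one (X : ℝ)]
    rw [← Real.rpow_add hXp, ← Real.rpow_add hXp, ← Real.rpow_add hXp]
    congr 1
    push_cast
    ring
  rw [e1]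
  have h6 : (16 : ℝ) ≤ (X : ℝ) ^ (κ / 4) * (X : ℝ) ^ (κ / 4) := by nlinarith
  calc (4 * ((4 * X : ℕ) : ℝ)) * GG (4 * X) 2 (Pool.Agent.H9U.cutJ X (Pool.Agent.H9U.Er Q Q' X))
      ≤ (4 * ((4 * X : ℕ) : ℝ)) * (X : ℝ) ^ (((2 : ℕ) : ℝ) + 1 - κ) := mul_le_mul_of_nonneg_left hB (by positivity)
    _ = (X : ℝ) * (X : ℝ) ^ (((2 : ℕ) : ℝ) + 1 - κ) * 16 := by push_cast; ring
    _ ≤ _ := mul_le_mul_of_nonneg_left h6 (by positivity)

/-- **`S4TU` from the second moment over the parameters.** -/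
theorem S4TU_of {k d : ℕ} (c : Fin k → Fin d → ℤ) (e : Fin d → ℕ) (D : Fin k → ℕ) (a : Fin k → ℤ) (hD : Dat c e D a)
    (hF : FMT c e D a) (hPK : ∀ m, 2 ≤ m → PK m) : S4TU c e D a :=
  S4TU_of1 c e D a hD hF fun m hm => by
    rcases Nat.lt_or_ge m 2 with h | h
    · obtain rfl : m = 1 := by omega
      exact pk_one (hPK 2 le_rfl)
    · exact hPK m h

end Pool.Agent.HUP
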