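import Pool.Agent.Lib.HUP.Defs2

/-!
# Projects HUP and HPC, module F (the second moment `FMT` from Theorem P), U1: from the uniform statements to a given system
-/

open Finset Polynomial

namespace Pool.Agent.HUP

open Pool.Agent.HUK (GG DD DL DV FF bxS Bdd)

theorem U1_FGT {k d : ℕ} (c : Fin k → Fin d → ℤ) (P : Fin k → ℤ[X])
    (h : FGTU c (fun i => (P i).natDegree) (fun i => (P i).leadingCoeff)) : FGT c P := by
  obtain ⟨E, Cc, cc, hF, h⟩ := h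
  exact ⟨E, Cc, cc, hF, h P fun i => ⟨rfl, rfl⟩⟩

/-- The constant: `1000 (A+1)^2 2^A ∑_i ∑_{j ≤ A} |coeff|`. -/
def u1_L {k : ℕ} (A : ℕ) (P : Fin k → ℤ[X]) : ℕ :=
  1000 * (A + 1) ^ 2 * 2 ^ A * ∑ i, ∑ j ∈ range (A + 1), ((P i).coeff j).natAbs

theorem u1_lo {k : ℕ} (A : ℕ) (P : Fin k → ℤ[X]) (hA : ∀ i, (P i).natDegree ≤ A) (X1 : ℕ) (hX : 0 < X1)
    (M : Fin k → ℕ) (h : ∀ i, u1_L A P * X1 ^ (P i).natDegree ≤ M i) (i : Fin k) (j : ℕ) :
    1000 * (A + 1) ^ 2 * ((P i).coeff j).natAbs * (2 * X1) ^ j ≤ M i := by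
  by_cases hj : j ≤ (P i).natDegree
  · refine le_trans ?_ (h i)
    have h1 : ((P i).coeff j).natAbs ≤ ∑ i, ∑ j ∈ range (A + 1), ((P i).coeff j).natAbs := by
      refine le_trans ?_ (single_le_sum (f := fun i => ∑ j ∈ range (A + 1), ((P i).coeff j).natAbs)
        (fun i _ => Nat.zero_le _) (mem_univ i))
      exact single_le_sum (f := fun j => ((P i).coeff j).natAbs) (fun i _ => Nat.zero_le _)
        (mem_range.2 (Nat.lt_succ_of_le (hj.trans (hA i))))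
    have h2 : (2 * X1) ^ j ≤ 2 ^ A * X1 ^ (P i).natDegree := by
      rw [mul_pow]
      exact Nat.mul_le_mul (Nat.pow_le_pow_right (by norm_num) (hj.trans (hA i)))
        (Nat.pow_le_pow_right hX hj)
    calc 1000 * (A + 1) ^ 2 * ((P i).coeff j).natAbs * (2 * X1) ^ j
        ≤ 1000 * (A + 1) ^ 2 * (∑ i, ∑ j ∈ range (A + 1), ((P i).coeff j).natAbs) *
          (2 ^ A * X1 ^ (P i).natDegree) := Nat.mul_le_mul (Nat.mul_le_mul_left _ h1) h2
      _ = u1_L A P * X1 ^ (P i).natDegree := by unfold u1_L; ring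
  · rw [coeff_eq_zero_of_natDegree_lt (not_le.1 hj)]
    simp

/-- **U1.** Proof. `A` = the sum of the degrees; `GeoU` follows from `Geo L` if `L ≥ 1000 (A+1)^2 2^A ∑_i ∑_j |coeff|` (`coeff j = 0` for
`j > deg`, `(2 X1)^j ≤ 2^A X1^(deg)`). -/
theorem U1_S4T {k d : ℕ} (c : Fin k → Fin d → ℤ) (e : Fin d → ℕ) (P : Fin k → ℤ[X]) (hP : ∀ i, 1 ≤ (P i).natDegree)
    (h : S4TU c e (fun i => (P i).natDegree) (fun i => (P i).leadingCoeff)) : S4T c e P := by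
  have hA : ∀ i, (P i).natDegree ≤ ∑ i, (P i).natDegree := fun i =>
    single_le_sum (f := fun i => (P i).natDegree) (fun i _ => Nat.zero_le _) (mem_univ i)
  obtain ⟨K, hK, h⟩ := h (∑ i, (P i).natDegree) hA
  refine ⟨K, u1_L (∑ i, (P i).natDegree) P, hK, fun C => ?_⟩
  obtain ⟨τ, c0, hτ, hτ1, hc0, Q0, h⟩ := h C
  refine ⟨τ, c0, hτ, hτ1, hc0, Q0, fun Q X X1 M b s β hQ hR hG => ?_⟩
  exact h P (fun i => ⟨rfl, rfl⟩) Q X X1 M b s β hQ hR
    ⟨hG.dvd, hG.pos, hG.le, hG.ge, hG.dvdM, u1_lo _ P hA X1 hG.pos M hG.lo, hG.hi⟩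

end Pool.Agent.HUP
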