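import Pool.Agent.Lib.HUP.Z0
import Pool.Agent.Lib.HUP.U1
import Pool.Agent.Lib.HUP.R21
import Pool.Agent.Lib.HUP.FGFin
import Pool.Agent.Lib.HUP.F8
import Pool.Agent.Lib.HUP.S4P
import Pool.Agent.Lib.HPP.C8
import Pool.Agent.Lib.HUK.FIN

/-!
# Projects HUP and HPC: the core theorem for all data
-/

open Finset Polynomial

namespace Pool.Agent.HUP

/-- **The core theorem for all data.** -/
theorem core_all : CoreAll := by
  intro k d c e P hD
  have hF : FMT c e (fun i => (P i).natDegree) (fun i => (P i).leadingCoeff) :=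
    FMT_of c e _ _ hD fun D q r h1 h2 => Pool.Agent.HPP.C8_Z D q h1 r h2
  exact coreT P hD.deg c e hD.ne (U1_FGT c P (FGTU_of hD hF))
    (U1_S4T c e P hD.deg (S4TU_of c e _ _ hD hF Pool.Agent.HUK.FIN_PK)) ⟨hD.par, hD.blk⟩

end Pool.Agent.HUP
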