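import Pool.Agent.Lib.HUP.Defs

/-!
# Projects HUP and HPC: uniform interfaces, one parameter allowed

The data are the forms `c`, the degrees `e j` of the parameters, the degrees `D i` and leading coefficients `a i` of the
polynomials. Everything is uniform in the lower coefficients of the polynomials.
-/

open Finset Polynomial

namespace Pool.Agent.HUP

open Pool.Agent.Lib.H68T Pool.Agent.Lib.H18Q Pool.Agent.Lib.H59P Pool.Agent.Lib.H24P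
open Pool.Agent.HUK (GG)

noncomputable section

/-- The polynomials have degrees `D` and leading coefficients `a`. -/
def HasD {k : ℕ} (D : Fin k → ℕ) (a : Fin k → ℤ) (P : Fin k → ℤ[X]) : Prop :=
  ∀ i, (P i).natDegree = D i ∧ (P i).leadingCoeff = a i

/-- The condition on the data: degrees at least `1`, leading coefficients and forms not zero, and for two coordinates of
the same degree the vectors (leading coefficient, form) are linearly independent; a parameter occurs only in coordinates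
of its degree. -/
structure Dat {k d : ℕ} (c : Fin k → Fin d → ℤ) (e : Fin d → ℕ) (D : Fin k → ℕ) (a : Fin k → ℤ) : Prop where
  deg : ∀ i, 1 ≤ D i
  lc : ∀ i, a i ≠ 0
  ne : ∀ i, ∃ j, c i j ≠ 0
  ind : ∀ i i', i ≠ i' → D i = D i' → ∀ x x' : ℤ, x * a i = x' * a i' → (∀ j, x * c i j = x' * c i' j) →
    x = 0 ∧ x' = 0
  par : ∀ j, 1 ≤ e j
  blk : ∀ i j, c i j ≠ 0 → e j = D i

/-- **Interface: the second moment over the parameters.** One function (`i0`) with small `U^s` norm, all others (supported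
in intervals of length `2 C0 X^(D i)`) and the weight `w` arbitrary bounded. -/
def FMT {k d : ℕ} (c : Fin k → Fin d → ℤ) (e : Fin d → ℕ) (D : Fin k → ℕ) (a : Fin k → ℤ) : Prop :=
  ∀ (i0 : Fin k) (C0 : ℕ), ∃ s : ℕ, 2 ≤ s ∧ ∀ κ : ℝ, 0 < κ → ∃ δ : ℝ, 0 < δ ∧ ∃ X0 : ℕ, ∀ X : ℕ, X0 ≤ X →
    ∀ P : Fin k → ℤ[X], HasD D a P →
    ∀ (β : Fin k → ℤ) (b : Fin d → ℤ) (σ : Fin d → ℕ), (∀ j, σ j ≤ C0 * X ^ e j) →
    ∀ n0 N : ℕ, n0 + N ≤ C0 * X → ∀ w : ℕ → ℂ, (∀ n, ‖w n‖ ≤ 1) →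
    ∀ f : Fin k → ℤ → ℂ, (∀ i m, ‖f i m‖ ≤ 1) →
    (∀ (i : Fin k) (m : ℤ), m ∉ Ico (-((C0 * X ^ D i : ℕ) : ℤ)) ((C0 * X ^ D i : ℕ) : ℤ) → f i m = 0) →
    GG (C0 * X ^ D i0) s (f i0) ≤ (X : ℝ) ^ ((D i0 : ℝ) * (s + 1) - κ) →
    ∑ t ∈ tb b σ, ‖∑ n ∈ Ico n0 (n0 + N), w n * ∏ i, f i ((P i).eval (n : ℤ) + (β i + lf c t i))‖ ^ 2 ≤
      (X : ℝ) ^ (2 + (∑ j, (e j : ℝ)) - δ)

/-- The coordinates whose form is proportional to the form of `i0` and whose degree is the same. -/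
def Kz {k d : ℕ} (c : Fin k → Fin d → ℤ) (D : Fin k → ℕ) (i0 : Fin k) : Finset (Fin k) :=
  open Classical in univ.filter fun i => D i = D i0 ∧ ∀ j j', c i j * c i0 j' = c i j' * c i0 j

/-- The large sieve, uniformly in the lower coefficients. -/
def FGTU {k d : ℕ} (c : Fin k → Fin d → ℤ) (D : Fin k → ℕ) (a : Fin k → ℤ) : Prop :=
  ∃ (E : ℕ) (Cc cc : ℝ), FPar Cc cc ∧ ∀ P : Fin k → ℤ[X], HasD D a P →
  ∀ (Qm : ℕ) (b : Fin d → ℤ) (s : Fin d → ℕ) (β : Fin k → ℤ), 1 ≤ Qm → (∀ j, Qm ^ E ≤ s j) →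
    (∀ t ∈ tb b s, ∀ i, 0 ≤ β i + lf c t i) → FGood E Cc cc Qm P (tb b s) (hh c β)

/-- The geometry, uniformly in the lower coefficients (`Geo` of H24P with `lo` replaced). -/
structure GeoU (A Q X X1 : ℕ) {k : ℕ} (P : Fin k → ℤ[X]) (M : Fin k → ℕ) : Prop where
  dvd : Q ^ 800 ∣ X1
  pos : 0 < X1
  le : X1 ≤ X
  ge : X ≤ X1 * Q
  dvdM : ∀ i, 8 * Q ^ 8 ∣ M i
  lo : ∀ i j, 1000 * (A + 1) ^ 2 * ((P i).coeff j).natAbs * (2 * X1) ^ j ≤ M i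
  hi : ∀ i, (M i : ℝ) ≤ (X1 : ℝ) ^ (P i).natDegree * (Q : ℝ) ^ (1 / 8 : ℝ)

/-- `S4T` uniformly in the lower coefficients. -/
def S4TU {k d : ℕ} (c : Fin k → Fin d → ℤ) (e : Fin d → ℕ) (D : Fin k → ℕ) (a : Fin k → ℤ) : Prop :=
  ∀ A : ℕ, (∀ i, D i ≤ A) → ∃ K : ℝ, 1 ≤ K ∧ ∀ C : ℝ, ∃ τ c0 : ℝ, 0 < τ ∧ τ ≤ 1 ∧
    0 < c0 ∧ ∃ Q0 : ℕ, ∀ P : Fin k → ℤ[X], HasD D a P →
    ∀ (Q X X1 : ℕ) (M : Fin k → ℕ) (b : Fin d → ℤ) (s : Fin d → ℕ) (β : Fin k → ℤ), Q0 ≤ Q →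
    Rg K C Q X → GeoU A Q X X1 P M → (X : ℝ) ≤ X1 * (Q : ℝ) ^ τ →
    (∀ i, (M i : ℝ) ≤ (X1 : ℝ) ^ (P i).natDegree * (Q : ℝ) ^ τ) →
    (∀ j, (X : ℝ) ^ e j ≤ (Q : ℝ) ^ τ * s j) → (∀ j, (s j : ℝ) ≤ (Q : ℝ) ^ τ * (X : ℝ) ^ e j) →
    (∀ i, ∃ (B : ℤ → Ch → ℂ) (mb : Ch → ℝ), Cf Q (Ysc (M i)) B mb) →
    (∀ t ∈ tb b s, ∀ i, 151 * (M i : ℤ) ≤ 100 * (β i + lf c t i) ∧ 100 * (β i + lf c t i) < 168 * (M i : ℤ)) →
    ∀ w : ℕ → ℝ, (∀ n ∈ Ico X1 (2 * X1), |w n| ≤ (Real.log X) ^ 2) →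
    ∑ t ∈ tb b s, (∑ n ∈ Ico X1 (2 * X1), w n * ∏ i, lp ((P i).eval (n : ℤ) + hh c β t i) -
      Rw Q X1 P M w (hh c β t)) ^ 2 ≤ (X1 : ℝ) ^ 2 * (tb b s).card * (Q : ℝ) ^ (-c0)

end

end Pool.Agent.HUP
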