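import Pool.Agent.Lib.HUP.S4T
import Pool.Agent.Lib.H24P.G1

/-!
# Projects HUP, HPC, S4U (helper37): `S4TU_of`
-/

open Finset Polynomial

namespace Pool.Agent.HUP

open Pool.Agent.Lib.H68T Pool.Agent.Lib.H18Q Pool.Agent.Lib.H59P Pool.Agent.Lib.H24P
open Pool.Agent.HUK (GG Spt PK DD DL DV bxS D0_nn)
open Pool.Agent.H9U (JJ cutJ Er Rgm)

theorem s4u_card {d : ℕ} (b : Fin d → ℤ) (s : Fin d → ℕ) : (((tb b s).card : ℕ) : ℝ) = ∏ j, (s j : ℝ) := by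
  unfold tb
  rw [Fintype.card_piFinset]
  push_cast
  refine Finset.prod_congr rfl fun j _ => ?_
  rw [Int.card_Ico]
  congr 1
  omega

theorem s4u_min {k : ℕ} (c : Fin k → ℝ) (hc : ∀ i, 0 < c i) : ∃ c0 : ℝ, 0 < c0 ∧ ∀ i, c0 ≤ c i := by
  have h0 : ∀ i, 0 ≤ 1 / c i := fun i => by have := hc i; positivity
  have hs : 0 ≤ ∑ i, 1 / c i := Finset.sum_nonneg fun i _ => h0 i
  refine ⟨1 / (1 + ∑ i, 1 / c i), by positivity, fun i => ?_⟩
  have h1 : 1 / c i ≤ 1 + ∑ i, 1 / c i := by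
    have := Finset.single_le_sum (f := fun i => 1 / c i) (fun i _ => h0 i) (Finset.mem_univ i)
    beta_reduce at this
    linarith
  have hci := hc i
  rw [div_le_iff₀ (by positivity)]
  rw [div_le_iff₀ hci] at h1
  linarith

theorem s4u_le_sum {k : ℕ} (a : Fin k → ℝ) (ha : ∀ i, 0 ≤ a i) (i : Fin k) : a i ≤ ∑ i, a i :=
  Finset.single_le_sum (f := a) (fun i _ => ha i) (Finset.mem_univ i)

/-- One term. -/
theorem s4u_term {k d : ℕ} (c : Fin k → Fin d → ℤ) (e : Fin d → ℕ) (D : Fin k → ℕ) (he : ∀ l, 1 ≤ e l)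
    (hD : ∀ i, 1 ≤ D i)
    (P : Fin k → ℤ[X]) (j : Fin k) (m : ℕ) (hm : 1 ≤ m) (κ δ : ℝ)
    (Q X X1 X' : ℕ) (M : Fin k → ℕ) (b : Fin d → ℤ) (s : Fin d → ℕ) (β : Fin k → ℤ)
    (hF : ∀ (β : Fin k → ℤ) (b : Fin d → ℤ) (σ : Fin d → ℕ), (∀ j, σ j ≤ 4 * X' ^ e j) →
      ∀ n0 N : ℕ, n0 + N ≤ 4 * X' → ∀ w : ℕ → ℂ, (∀ n, ‖w n‖ ≤ 1) →
      ∀ f : Fin k → ℤ → ℂ, (∀ i m, ‖f i m‖ ≤ 1) →
      (∀ (i : Fin k) (m : ℤ), m ∉ Ico (-((4 * X' ^ D i : ℕ) : ℤ)) ((4 * X' ^ D i : ℕ) : ℤ) → f i m = 0) →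
      GG (4 * X' ^ D j) m (f j) ≤ (X' : ℝ) ^ ((D j : ℝ) * (m + 1) - κ) →
      ∑ t ∈ tb b σ, ‖∑ n ∈ Ico n0 (n0 + N), w n * ∏ i, f i ((P i).eval (n : ℤ) + (β i + lf c t i))‖ ^ 2 ≤
        (X' : ℝ) ^ (2 + (∑ j, (e j : ℝ)) - δ))
    (hκ : 0 < κ) (hX'1 : 1 ≤ X') (hX1X' : X1 ≤ X') (hsX : ∀ l, s l ≤ X' ^ e l) (hYX : ∀ i, Ysc (M i) ≤ X' ^ D i)
    (W : ℝ) (hW : 1 ≤ W) (hW2 : ∀ i, ∀ m ∈ JJ (Ysc (M i)), |lp m| ≤ W / 2 ∧ |Lk Q (Ysc (M i) / Q ^ 2) m| ≤ W / 2)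
    (hG : GG (4 * Ysc (M j)) m (cutJ (Ysc (M j)) (Er Q Q (Ysc (M j)))) ≤ (Ysc (M j) : ℝ) ^ ((m : ℝ) + 1 - κ))
    (hY1 : 1 ≤ Ysc (M j)) (hκ1 : κ ≤ 1)
    (hval : ∀ t ∈ tb b s, ∀ n ∈ Ico X1 (2 * X1), ∀ i, (P i).eval (n : ℤ) + (β i + lf c t i) ∈ JJ (Ysc (M i)))
    (hnn : ∀ t ∈ tb b s, ∀ i, 0 ≤ β i + lf c t i)
    (w : ℕ → ℝ) (hw : ∀ n ∈ Ico X1 (2 * X1), |w n| ≤ W) :
    ∑ t ∈ tb b s, (∑ n ∈ Ico X1 (2 * X1), w n * ∏ i, s4tf Q M j i ((P i).eval (n : ℤ) + hh c β t i)) ^ 2 ≤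
      W ^ (2 * (k + 1)) * (X' : ℝ) ^ (2 + (∑ j, (e j : ℝ)) - δ) := by
  classical
  have hW0 : 0 < W := by linarith
  have hX'r : (1 : ℝ) ≤ X' := by exact_mod_cast hX'1
  -- bounds of the normalised functions
  have hf1 : ∀ (i : Fin k) (m : ℤ), ‖s4tg W Q M j i m‖ ≤ 1 := by
    intro i m
    unfold s4tg
    by_cases h : m ∈ JJ (Ysc (M i))
    · rw [if_pos h, Complex.norm_real, Real.norm_eq_abs, abs_div, abs_of_pos hW0, div_le_one hW0]
      obtain ⟨h1, h2⟩ := hW2 i m h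
      unfold s4tf
      split_ifs
      · linarith
      · refine le_trans (abs_sub _ _) ?_
        linarith
      · linarith
    · rw [if_neg h, norm_zero]
      exact zero_le_one
  have hf2 : ∀ (i : Fin k) (m : ℤ), m ∉ Ico (-((4 * X' ^ D i : ℕ) : ℤ)) ((4 * X' ^ D i : ℕ) : ℤ) → s4tg W Q M j i m = 0 := by
    intro i m hm
    unfold s4tg
    rw [if_neg]
    intro h
    apply hm
    have h1 := s4b_JJ h
    have h2 : ((Ysc (M i) : ℕ) : ℤ) ≤ ((X' ^ D i : ℕ) : ℤ) := by exact_mod_cast hYX i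
    rw [mem_Ico]
    push_cast at h2 ⊢
    constructor
    · have : (0 : ℤ) ≤ (X' : ℤ) ^ D i := by positivity
      omega
    · omega
  have hSpt : Spt (4 * Ysc (M j)) (cutJ (Ysc (M j)) (Er Q Q (Ysc (M j)))) := by
    intro y hy
    unfold cutJ
    rw [if_neg]
    intro h
    apply hy
    have h1 := s4b_JJ h
    rw [mem_Ico]
    push_cast
    omega
  have hGf : GG (4 * X' ^ D j) m (s4tg W Q M j j) ≤ (X' : ℝ) ^ ((D j : ℝ) * (m + 1) - κ) := by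
    have e1 : s4tg W Q M j j = fun y => ((1 / W : ℝ) : ℂ) * cutJ (Ysc (M j)) (Er Q Q (Ysc (M j))) y :=
      funext fun y => s4tg_cut W Q M j y
    have e2 : Spt (4 * Ysc (M j)) (s4tg W Q M j j) := by
      intro y hy
      rw [e1]
      show _ * cutJ (Ysc (M j)) (Er Q Q (Ysc (M j))) y = 0
      rw [hSpt y hy, mul_zero]
    rw [s4t_win (4 * X' ^ D j) (4 * Ysc (M j)) m _ (hf2 j) e2, e1]
    refine le_trans (s4t_scale _ _ (by omega) (1 / W) (by positivity) (by rw [div_le_one hW0]; exact hW) _ hSpt) ?_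
    refine le_trans hG ?_
    have hYr : (1 : ℝ) ≤ Ysc (M j) := by exact_mod_cast hY1
    have hYX' : (Ysc (M j) : ℝ) ≤ (X' : ℝ) ^ D j := by exact_mod_cast hYX j
    have hmr : (1 : ℝ) ≤ m := by exact_mod_cast hm
    have hDr : (1 : ℝ) ≤ D j := by exact_mod_cast hD j
    calc (Ysc (M j) : ℝ) ^ ((m : ℝ) + 1 - κ) ≤ ((X' : ℝ) ^ D j) ^ ((m : ℝ) + 1 - κ) :=
          Real.rpow_le_rpow (by linarith) hYX' (by linarith)
      _ = (X' : ℝ) ^ ((D j : ℝ) * ((m : ℝ) + 1 - κ)) := by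
          rw [← Real.rpow_natCast, ← Real.rpow_mul (by linarith)]
      _ ≤ _ := by
          refine Real.rpow_le_rpow_of_exponent_le hX'r ?_
          nlinarith
  have hmain := hF β b s (fun l => (hsX l).trans (by omega)) X1 X1 (by omega)
    (fun n => if n ∈ Ico X1 (2 * X1) then ((w n / W : ℝ) : ℂ) else 0) (fun n => by
      by_cases h : n ∈ Ico X1 (2 * X1)
      · rw [if_pos h, Complex.norm_real, Real.norm_eq_abs, abs_div, abs_of_pos hW0, div_le_one hW0]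
        exact hw n h
      · rw [if_neg h, norm_zero]
        exact zero_le_one) (fun i => s4tg W Q M j i) hf1 hf2 hGf
  have hterm : ∀ t ∈ tb b s, (∑ n ∈ Ico X1 (2 * X1), w n * ∏ i, s4tf Q M j i ((P i).eval (n : ℤ) + hh c β t i)) ^ 2 =
      W ^ (2 * (k + 1)) * ‖∑ n ∈ Ico X1 (X1 + X1), (if n ∈ Ico X1 (2 * X1) then ((w n / W : ℝ) : ℂ) else 0) *
        ∏ i, s4tg W Q M j i ((P i).eval (n : ℤ) + (β i + lf c t i))‖ ^ 2 := by
    intro t ht
    have e1 : ∑ n ∈ Ico X1 (X1 + X1), (if n ∈ Ico X1 (2 * X1) then ((w n / W : ℝ) : ℂ) else 0) *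
        ∏ i, s4tg W Q M j i ((P i).eval (n : ℤ) + (β i + lf c t i)) =
        (((∑ n ∈ Ico X1 (2 * X1), w n * ∏ i, s4tf Q M j i ((P i).eval (n : ℤ) + hh c β t i)) / W ^ (k + 1) : ℝ) : ℂ) := by
      rw [← two_mul, Finset.sum_div, Complex.ofReal_sum]
      refine Finset.sum_congr rfl fun n hn => ?_
      rw [if_pos hn]
      have e2 : ∀ i, s4tg W Q M j i ((P i).eval (n : ℤ) + (β i + lf c t i)) =
          (((s4tf Q M j i ((P i).eval (n : ℤ) + hh c β t i)) / W : ℝ) : ℂ) := by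
        intro i
        have e3 : ((hh c β t i : ℕ) : ℤ) = β i + lf c t i := by
          unfold hh
          exact Int.toNat_of_nonneg (hnn t ht i)
        rw [e3]
        unfold s4tg
        rw [if_pos (hval t ht n hn i)]
      rw [Finset.prod_congr rfl fun i _ => e2 i, ← Complex.ofReal_prod, ← Complex.ofReal_mul, Finset.prod_div_distrib,
        Finset.prod_const, Finset.card_univ, Fintype.card_fin]
      congr 1
      rw [pow_succ]
      field_simp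
    rw [e1, Complex.norm_real, Real.norm_eq_abs, sq_abs, div_pow, ← pow_mul, mul_comm 2 (k + 1)]
    field_simp
  rw [Finset.sum_congr rfl hterm, ← Finset.mul_sum]
  exact mul_le_mul_of_nonneg_left hmain (by positivity)

/-- **`S4TU` from the second moment over the parameters.** -/
theorem S4TU_of1 {k d : ℕ} (c : Fin k → Fin d → ℤ) (e : Fin d → ℕ) (D : Fin k → ℕ) (a : Fin k → ℤ) (hD : Dat c e D a)
    (hF : FMT c e D a) (hPK : ∀ m, 1 ≤ m → PK m) : S4TU c e D a := by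
  classical
  intro A hA
  choose sm hsm hFs using fun j => hF j 4
  choose Kp hKp hPKs using fun j => hPK (sm j) (by have := hsm j; omega)
  obtain ⟨K2, hK2, hsize⟩ := Pool.Agent.H9U.U0_size
  have hKs : 0 ≤ ∑ j, Kp j := Finset.sum_nonneg fun j _ => zero_le_one.trans (hKp j)
  obtain ⟨K0, hK0⟩ : ∃ K0 : ℝ, K0 = K2 + ∑ j, Kp j := ⟨_, rfl⟩
  have hK01 : 1 ≤ K0 := by rw [hK0]; linarith
  have hKle : ∀ j, Kp j ≤ K0 := by
    intro j
    have := s4u_le_sum Kp (fun j => zero_le_one.trans (hKp j)) j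
    rw [hK0]
    linarith
  refine ⟨K0 + 1, by linarith, fun C => ?_⟩
  obtain ⟨Cr, hCr⟩ : ∃ Cr : ℝ, Cr = ((A : ℝ) + 1) * max C 1 := ⟨_, rfl⟩
  have hA0 : (0 : ℝ) ≤ A := Nat.cast_nonneg A
  have hCr1 : 1 ≤ Cr := by
    rw [hCr]
    have h1 := le_max_right C 1
    nlinarith
  choose κp hκp hκp1 Xp hXp using fun j => hPKs j Cr (1 / Cr) hCr1 (by positivity)
  choose δp hδp Xf hXf using fun j => hFs j (κp j) (hκp j)
  obtain ⟨δ, hδ, hδle⟩ := s4u_min δp hδp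
  obtain ⟨E, hE⟩ : ∃ E : ℕ, E = ∑ j, e j := ⟨_, rfl⟩
  obtain ⟨τ, hτ⟩ : ∃ τ : ℝ, τ = min 1 (δ / (4 * (4 + E + d))) := ⟨_, rfl⟩
  have hτ0 : 0 < τ := by rw [hτ]; exact lt_min one_pos (by positivity)
  have hτ1 : τ ≤ 1 := by rw [hτ]; exact min_le_left _ _
  have hτδ : τ * (4 + E + d) ≤ δ / 4 := by
    have h1 : τ ≤ δ / (4 * (4 + E + d)) := by rw [hτ]; exact min_le_right _ _
    calc τ * (4 + E + d) ≤ δ / (4 * (4 + E + d)) * (4 + E + d) := mul_le_mul_of_nonneg_right h1 (by positivity)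
      _ = δ / 4 := by field_simp
  obtain ⟨ε', hε'⟩ : ∃ ε' : ℝ, ε' = δ / (8 * ((k : ℝ) + 1)) := ⟨_, rfl⟩
  have hε'0 : 0 < ε' := by rw [hε']; positivity
  obtain ⟨ε, hε⟩ : ∃ ε : ℝ, ε = ε' / (2 * ((A : ℝ) + 1)) := ⟨_, rfl⟩
  have hε0 : 0 < ε := by rw [hε]; positivity
  obtain ⟨Xs, hXs⟩ := hsize ε hε0
  obtain ⟨Xl, hXl⟩ := Pool.Agent.H9U.U0_lp ε hε0
  obtain ⟨Qn, hQn1, hQn⟩ := s4t_num k d E δ τ hδ hτ0 hτδ
  obtain ⟨Qg, hQg1, hQg⟩ := G1_log 1 2 1 ε' hε'0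
  obtain ⟨Xa, hXa⟩ := s4a_large 4 (ε' / 2) (by positivity)
  obtain ⟨Qr, hQr⟩ := s4t_reg D hD.deg K0 C hK01
  refine ⟨τ, δ / 4, hτ0, hτ1, by positivity, 80 + Qn + Qr + Xs + Xl + Xa + Qg + ∑ j, Xp j + ∑ j, Xf j, ?_⟩
  intro P hP Q X X1 M b s β hQ hR hG hXX1 hMX hs1 hs2 _ hval w hw
  have hXpj : ∀ j, Xp j ≤ ∑ j, Xp j := fun j => s4t_le_sum Xp j
  have hXfj : ∀ j, Xf j ≤ ∑ j, Xf j := fun j => s4t_le_sum Xf j
  have hQ80 : 80 ≤ Q := by omega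
  have hQ1 : 1 ≤ Q := by omega
  have hQr1 : (1 : ℝ) ≤ Q := by exact_mod_cast hQ1
  have hQr0 : (0 : ℝ) < Q := by linarith
  have hX1pos : 1 ≤ X1 := hG.pos
  have hX1r : (1 : ℝ) ≤ X1 := by exact_mod_cast hX1pos
  have hXX : X1 ≤ X := hG.le
  have hXr1 : (1 : ℝ) ≤ X := by exact_mod_cast hX1pos.trans hXX
  have hXr0 : (0 : ℝ) < X := by linarith
  have hlQ : 0 ≤ Real.log Q := Real.log_nonneg hQr1
  have hlX : 0 ≤ Real.log X := Real.log_nonneg hXr1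
  have hQQX : (Q : ℝ) ^ 2 ≤ X := by
    rw [← Real.log_le_log_iff (by positivity) hXr0, Real.log_pow]
    have h1 := hR.1
    push_cast
    nlinarith
  have hQX1 : (Q : ℝ) ≤ X1 := by
    have h1 : (X : ℝ) ≤ X1 * Q := by exact_mod_cast hG.ge
    nlinarith
  have hQX1n : Q ≤ X1 := by exact_mod_cast hQX1
  have hreg := hQr A Q X X1 a P M hD.lc hP (by omega) hR hG
  have hYX1 : ∀ i, X1 ≤ Ysc (M i) := fun i => (hreg i).2.1
  have hYQ : ∀ i, Q ≤ Ysc (M i) := fun i => hQX1n.trans (hYX1 i)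
  have hYr : ∀ i, (1 : ℝ) ≤ Ysc (M i) := fun i => by exact_mod_cast hQ1.trans (hYQ i)
  -- the auxiliary scale
  obtain ⟨X', hX'⟩ : ∃ X' : ℕ, X' = ⌈(X : ℝ) * (Q : ℝ) ^ τ⌉₊ := ⟨_, rfl⟩
  have hQτ1 : 1 ≤ (Q : ℝ) ^ τ := Real.one_le_rpow hQr1 hτ0.le
  have hX'lo : (X : ℝ) * (Q : ℝ) ^ τ ≤ X' := by rw [hX']; exact Nat.le_ceil _
  have hX'hi : (X' : ℝ) ≤ 2 * X * (Q : ℝ) ^ τ := by
    have h1 := Nat.ceil_lt_add_one (show (0 : ℝ) ≤ (X : ℝ) * (Q : ℝ) ^ τ by positivity)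
    rw [← hX'] at h1
    nlinarith
  have hXX' : X ≤ X' := by
    have : (X : ℝ) ≤ X' := by nlinarith
    exact_mod_cast this
  have hX'1 : 1 ≤ X' := (hX1pos.trans hXX).trans hXX'
  have hsX : ∀ l, s l ≤ X' ^ e l := by
    intro l
    have h1 : (s l : ℝ) ≤ (X' : ℝ) ^ e l := by
      refine (hs2 l).trans ?_
      calc (Q : ℝ) ^ τ * (X : ℝ) ^ e l ≤ ((Q : ℝ) ^ τ) ^ e l * (X : ℝ) ^ e l :=
            mul_le_mul_of_nonneg_right (le_self_pow₀ hQτ1 (by have := hD.par l; omega)) (by positivity)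
        _ = ((X : ℝ) * (Q : ℝ) ^ τ) ^ e l := by rw [mul_pow]; ring
        _ ≤ _ := pow_le_pow_left₀ (by positivity) hX'lo _
    exact_mod_cast h1
  have hYM : ∀ i, (Ysc (M i) : ℝ) ≤ M i := by
    intro i
    have : Ysc (M i) ≤ M i := by
      unfold Ysc
      omega
    exact_mod_cast this
  have hYX : ∀ i, Ysc (M i) ≤ X' ^ D i := by
    intro i
    have h1 : (Ysc (M i) : ℝ) ≤ (X' : ℝ) ^ D i := by
      refine ((hYM i).trans (hMX i)).trans ?_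
      rw [(hP i).1]
      calc (X1 : ℝ) ^ D i * (Q : ℝ) ^ τ ≤ (X : ℝ) ^ D i * ((Q : ℝ) ^ τ) ^ D i := by
            refine mul_le_mul (pow_le_pow_left₀ (by positivity) (by exact_mod_cast hXX) _) (le_self_pow₀ hQτ1 (by have := hD.deg i; omega))
              (by positivity) (by positivity)
        _ = ((X : ℝ) * (Q : ℝ) ^ τ) ^ D i := by rw [mul_pow]
        _ ≤ _ := pow_le_pow_left₀ (by positivity) hX'lo _
    exact_mod_cast h1
  -- the size of the functions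
  obtain ⟨W, hW⟩ : ∃ W : ℝ, W = (X : ℝ) ^ ε' := ⟨_, rfl⟩
  have hW1 : 1 ≤ W := by rw [hW]; exact Real.one_le_rpow hXr1 hε'0.le
  have hYε : ∀ i, (Ysc (M i) : ℝ) ^ ε ≤ W / 2 := by
    intro i
    have hY0 : (0 : ℝ) < Ysc (M i) := by linarith [hYr i]
    have h1 : (Ysc (M i) : ℝ) ^ ε ≤ (X : ℝ) ^ (ε' / 2) := by
      rw [Real.rpow_def_of_pos hY0, Real.rpow_def_of_pos hXr0, Real.exp_le_exp]
      have h2 := (hreg i).2.2
      have h3 : ((D i : ℕ) : ℝ) ≤ A := by exact_mod_cast hA i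
      have h4 : Real.log (Ysc (M i)) ≤ ((A : ℝ) + 1) * Real.log X := h2.trans (mul_le_mul_of_nonneg_right (by linarith) hlX)
      calc Real.log (Ysc (M i)) * ε ≤ ((A : ℝ) + 1) * Real.log X * ε := mul_le_mul_of_nonneg_right h4 hε0.le
        _ = Real.log X * (ε' / 2) := by rw [hε]; field_simp
    have h2 := hXa X (by have : (Q : ℝ) ≤ X := by nlinarith
                         have : Q ≤ X := by exact_mod_cast this
                         omega)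
    have h3 : W = (X : ℝ) ^ (ε' / 2) * (X : ℝ) ^ (ε' / 2) := by
      rw [hW, ← Real.rpow_add hXr0]
      congr 1
      ring
    have h4 : 0 < (X : ℝ) ^ (ε' / 2) := by positivity
    rw [h3]
    nlinarith
  have hQXn : Q ≤ X := hQX1n.trans hXX
  have hW2 : ∀ i, ∀ m ∈ JJ (Ysc (M i)), |lp m| ≤ W / 2 ∧ |Lk Q (Ysc (M i) / Q ^ 2) m| ≤ W / 2 := by
    intro i m hm
    obtain ⟨h1, h2⟩ := s4t_JJ hm
    have h3 := hYQ i
    constructor
    · exact (hXl (Ysc (M i)) (by omega) m h2).trans (hYε i)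
    · exact (hXs Q Q (Ysc (M i)) (by omega) ((hreg i).1.mono (by linarith) (by rw [hK0]; linarith)) hQ1 le_rfl m h1 h2).trans (hYε i)
  have hwW : ∀ n ∈ Ico X1 (2 * X1), |w n| ≤ W := by
    intro n hn
    refine (hw n hn).trans ?_
    have h1 := hQg X X (by omega) (by linarith)
    rw [one_mul] at h1
    rw [hW]
    exact h1
  have hval' : ∀ t ∈ tb b s, ∀ n ∈ Ico X1 (2 * X1), ∀ i, (P i).eval (n : ℤ) + (β i + lf c t i) ∈ JJ (Ysc (M i)) := by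
    intro t ht n hn i
    rw [mem_Ico] at hn
    have h8 : 8 ∣ M i := (dvd_mul_right _ _).trans (hG.dvdM i)
    have h80 : 80 ≤ M i := by
      have h1 := hYQ i
      unfold Ysc at h1
      omega
    have hpol := s4t_poly A X1 (M i) (P i) (by rw [(hP i).1]; exact hA i) (hG.lo i) n hn.2
    exact s4t_val (M i) _ _ h8 h80 hpol (hval t ht i).1 (hval t ht i).2
  have hnn : ∀ t ∈ tb b s, ∀ i, 0 ≤ β i + lf c t i := by
    intro t ht i
    have h1 := (hval t ht i).1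
    have h2 : (0 : ℤ) ≤ M i := by positivity
    omega
  have hX'r : (1 : ℝ) ≤ X' := by exact_mod_cast hX'1
  have hterm : ∀ j, ∑ t ∈ tb b s, (∑ n ∈ Ico X1 (2 * X1), w n * ∏ i, s4tf Q M j i ((P i).eval (n : ℤ) + hh c β t i)) ^ 2 ≤
      W ^ (2 * (k + 1)) * (X' : ℝ) ^ (2 + (E : ℝ) - δ) := by
    intro j
    have h1 := hXfj j
    have h2 := hXpj j
    have h3 := hYQ j
    have hreg1 : Rgm (Kp j) Cr (1 / Cr) Q Q (Ysc (M j)) := by
      have hlog : Real.log (Ysc (M j)) ≤ Cr * Real.log Q := by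
        have h2 := (hreg j).2.2
        have h3 : ((D j : ℕ) : ℝ) ≤ A := by exact_mod_cast hA j
        calc Real.log (Ysc (M j)) ≤ ((A : ℝ) + 1) * Real.log X := h2.trans (mul_le_mul_of_nonneg_right (by linarith) hlX)
          _ ≤ ((A : ℝ) + 1) * (max C 1 * Real.log Q) := by
              refine mul_le_mul_of_nonneg_left (hR.2.trans (mul_le_mul_of_nonneg_right (le_max_left _ _) hlQ)) (by positivity)
          _ = _ := by rw [hCr]; ring
      refine ⟨(hreg j).1.mono (by linarith) (hKle j), hlog, ?_, le_rfl⟩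
      have hY0 : (0 : ℝ) < Ysc (M j) := by linarith [hYr j]
      rw [Real.rpow_def_of_pos hY0, ← Real.le_log_iff_exp_le hQr0, mul_one_div, div_le_iff₀ (by linarith)]
      linarith
    have hPKj := hXp j Q Q (Ysc (M j)) (by omega) hreg1
    have hFj := hXf j X' (by omega) P hP
    refine le_trans (s4u_term c e D hD.par hD.deg P j (sm j) (by have := hsm j; omega) (κp j) (δp j) Q X X1 X' M b s β hFj (hκp j) hX'1
      (hXX.trans hXX') hsX hYX W hW1 hW2 hPKj (hQ1.trans h3) (hκp1 j) hval' hnn w hwW) ?_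
    refine mul_le_mul_of_nonneg_left ?_ (by positivity)
    refine Real.rpow_le_rpow_of_exponent_le hX'r ?_
    rw [hE]
    push_cast
    linarith [hδle j]
  have hsum : ∑ t ∈ tb b s, (∑ n ∈ Ico X1 (2 * X1), w n * ∏ i, lp ((P i).eval (n : ℤ) + hh c β t i) -
      Rw Q X1 P M w (hh c β t)) ^ 2 ≤ k * (k * (W ^ (2 * (k + 1)) * (X' : ℝ) ^ (2 + (E : ℝ) - δ))) := by
    calc ∑ t ∈ tb b s, (∑ n ∈ Ico X1 (2 * X1), w n * ∏ i, lp ((P i).eval (n : ℤ) + hh c β t i) -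
        Rw Q X1 P M w (hh c β t)) ^ 2
        ≤ ∑ t ∈ tb b s, (k : ℝ) * ∑ j, (∑ n ∈ Ico X1 (2 * X1), w n *
          ∏ i, s4tf Q M j i ((P i).eval (n : ℤ) + hh c β t i)) ^ 2 := by
          refine Finset.sum_le_sum fun t ht => ?_
          rw [s4t_tel P Q X1 M w (hh c β t)]
          refine sq_sum_le_card_mul_sum_sq.trans (le_of_eq ?_)
          rw [Finset.card_univ, Fintype.card_fin]
      _ = (k : ℝ) * ∑ j, ∑ t ∈ tb b s, (∑ n ∈ Ico X1 (2 * X1), w n *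
          ∏ i, s4tf Q M j i ((P i).eval (n : ℤ) + hh c β t i)) ^ 2 := by
          rw [← Finset.mul_sum, Finset.sum_comm]
      _ ≤ (k : ℝ) * ∑ _j : Fin k, (W ^ (2 * (k + 1)) * (X' : ℝ) ^ (2 + (E : ℝ) - δ)) :=
          mul_le_mul_of_nonneg_left (Finset.sum_le_sum fun j _ => hterm j) (Nat.cast_nonneg k)
      _ = _ := by
          rw [Finset.sum_const, Finset.card_univ, Fintype.card_fin, nsmul_eq_mul]
  refine hsum.trans ?_
  have hSE : (X : ℝ) ^ E ≤ (Q : ℝ) ^ (τ * d) * ∏ j, (s j : ℝ) := by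
    have h1 : (Q : ℝ) ^ (τ * d) = ∏ _j : Fin d, (Q : ℝ) ^ τ := by
      rw [Finset.prod_const, Finset.card_univ, Fintype.card_fin, Real.rpow_mul hQr0.le, Real.rpow_natCast]
    rw [h1, ← Finset.prod_mul_distrib, hE, ← Finset.prod_pow_eq_pow_sum]
    exact Finset.prod_le_prod (fun j _ => by positivity) fun j _ => hs1 j
  have hWp : W ^ (2 * (k + 1)) = (X : ℝ) ^ (δ / 4) := by
    rw [hW, ← Real.rpow_natCast, ← Real.rpow_mul hXr0.le]
    congr 1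
    rw [hε']
    push_cast
    field_simp
    norm_num
  have hnum := hQn Q X X1 X' (by omega) hQXn hXX1 hX'hi hXX' (∏ j, (s j : ℝ)) (Finset.prod_nonneg fun _ _ => Nat.cast_nonneg _) hSE
  rw [s4u_card, hWp]
  refine le_trans (le_of_eq ?_) hnum
  ring

end Pool.Agent.HUP
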