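import Pool.Agent.Lib.H24P.ZDefs
import Pool.Agent.Lib.H24P.KDefs
import Pool.Agent.Lib.HUK.IDE

/-!
# Project HUP (MP_0bf1d2_nt): the constant terms are linear forms in parameters. Definitions

The system `P_i(n) + β_i + ψ_i(t)`, `ψ_i(t) = ∑_j c_ij t_j` pairwise not proportional, polynomials `P_i` of any
degrees `≥ 1`, a fixed linear coordinate `B`. See `PROOF.md`. The modules of H24P (where `ψ_i(t) = t_i`) are redone for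
an abstract family `g : ι → (Fin k → ℕ)` of constant terms which satisfies the large sieve `FGood`.
-/

open Finset Polynomial

namespace Pool.Agent.HUP

open Pool.Agent.Lib.H68T Pool.Agent.Lib.H18Q Pool.Agent.Lib.H59P Pool.Agent.Lib.H24P

noncomputable section

/-! ## Forms, boxes -/

/-- The linear form `ψ_i(t) = ∑_j c_ij t_j`. -/
def lf {k d : ℕ} (c : Fin k → Fin d → ℤ) (t : Fin d → ℤ) (i : Fin k) : ℤ := ∑ j, c i j * t j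

/-- The forms are not zero and pairwise not proportional. -/
structure Nd {k d : ℕ} (c : Fin k → Fin d → ℤ) : Prop where
  ne : ∀ i, ∃ u : Fin d → ℤ, lf c u i ≠ 0
  ind : ∀ i j, i ≠ j → ∃ u : Fin d → ℤ, lf c u j = 0 ∧ lf c u i ≠ 0

/-- The box `∏ [b_j, b_j + s_j)`. -/
def tb {d : ℕ} (b : Fin d → ℤ) (s : Fin d → ℕ) : Finset (Fin d → ℤ) :=
  Fintype.piFinset fun j => Ico (b j) (b j + s j)

/-- The constant terms `h_i = β_i + ψ_i(t)` (used when they are not negative). -/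
def hh {k d : ℕ} (c : Fin k → Fin d → ℤ) (β : Fin k → ℤ) (t : Fin d → ℤ) : Fin k → ℕ :=
  fun i => (β i + lf c t i).toNat

/-- Every parameter occurs only in coordinates of one degree (`e j`, at least `1`). -/
def Blk {k d : ℕ} (c : Fin k → Fin d → ℤ) (e : Fin d → ℕ) (P : Fin k → ℤ[X]) : Prop :=
  (∀ j, 1 ≤ e j) ∧ ∀ i j, c i j ≠ 0 → e j = (P i).natDegree

/-! ## The large sieve for a family -/

/-- The constants of `FGood`. -/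
structure FPar (Cc cc : ℝ) : Prop where
  one : 1 ≤ Cc
  pos : 0 < cc
  le : cc ≤ 1

/-- The family `g x`, `x ∈ S`, of constant terms satisfies with the polynomials `P` the large sieve (`Fgen` of H24P) for
all levels `Q ≤ Qm`. -/
def FGood {k : ℕ} (E : ℕ) (Cc cc : ℝ) (Qm : ℕ) (P : Fin k → ℤ[X]) {ι : Type} (S : Finset ι) (g : ι → Fin k → ℕ) :
    Prop :=
  ∀ Q : ℕ, 1 ≤ Q → Q ≤ Qm → ∀ p : Fin k → Ch, (∀ i, p i ∈ PC Q) →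
    ∀ T : Finset (Fin k → ℕ), T ⊆ Fintype.piFinset (fun i => KS Q (p i).1) →
    ∀ D : ℕ, 1 ≤ D → (∀ κ ∈ T, D < univ.lcm (fun i => (p i).1 * κ i)) →
    ∀ a H : ℕ, Q ^ E ≤ H → ∀ w : ℕ → ℂ,
    ∑ x ∈ S, ‖∑ n ∈ Ico a (a + H), w n *
        ∑ κ ∈ T, ∏ i, gk (p i) (κ i) ((P i).eval (n : ℤ) + g x i)‖ ^ 2 ≤
      Cc * (1 + Real.log Q) ^ Cc * S.card * (H * ∑ n ∈ Ico a (a + H), ‖w n‖ ^ 2) * (D : ℝ) ^ (-cc)

/-- A cell: a family which satisfies the large sieve, all in the dyadic box `∏ [M_i, 2 M_i)` and close to the base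
point `h0`. -/
structure Cl {k : ℕ} (E : ℕ) (Cc cc : ℝ) (Q : ℕ) (P : Fin k → ℤ[X]) (M : Fin k → ℕ) {ι : Type} (S : Finset ι)
    (g : ι → Fin k → ℕ) (h0 : Fin k → ℕ) : Prop where
  good : FGood E Cc cc (Q ^ 2) P S g
  mem : ∀ x ∈ S, g x ∈ cub M M
  memb : h0 ∈ cub M M
  close : ∀ x ∈ S, ∀ i, (Q : ℤ) ^ 8 * |((g x i : ℕ) : ℤ) - h0 i| ≤ M i

/-! ## Main terms with coefficients frozen at the base point of the cell -/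

/-- The sum with the projections in the random coordinates, coefficients frozen at `P_i(bs n) + h0_i`, weight `w`. -/
def Rzb {k : ℕ} (Q X1 : ℕ) (P : Fin k → ℤ[X]) (C : Fin k → ℤ → Ch → ℂ) (w : ℕ → ℂ) (h0 h : Fin k → ℕ) : ℂ :=
  ∑ n ∈ Ico X1 (2 * X1), w n *
    ∏ i, SG Q (C i ((P i).eval ((bs (X1 / Q ^ 8) n : ℕ) : ℤ) + (h0 i : ℤ))) ((P i).eval (n : ℤ) + h i)

/-- All the coefficients, frozen. -/
def cfb {k : ℕ} (Q X1 : ℕ) (P : Fin k → ℤ[X]) (B : ℤ[X]) (C0 : ℤ → Ch → ℂ) (Cc : Fin k → ℤ → Ch → ℂ)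
    (h0 : Fin k → ℕ) (n : ℕ) : Fin (k + 1) → Ch → ℂ :=
  Fin.cons (C0 (B.eval ((bs (X1 / Q ^ 800) n : ℕ) : ℤ)))
    (fun i => Cc i ((P i).eval ((bs (X1 / Q ^ 8) n : ℕ) : ℤ) + (h0 i : ℤ)))

/-- The total main term. -/
def MZb {k : ℕ} (Q X1 m0 : ℕ) (P : Fin k → ℤ[X]) (B : ℤ[X]) (C0 : ℤ → Ch → ℂ) (Cc : Fin k → ℤ → Ch → ℂ)
    (h0 h : Fin k → ℕ) : ℂ :=
  ∑ n ∈ Ico X1 (2 * X1), MDf Q m0 (cfb Q X1 P B C0 Cc h0 n) (sys B P h)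

/-- Truncation of the singular series for a family (`TMf` of H24P). -/
def TMb (k A E : ℕ) (Cc cc : ℝ) : Prop := ∃ c : ℝ, 0 < c ∧ ∃ Q0 : ℕ, ∀ Q : ℕ, Q0 ≤ Q → ∀ B : ℤ[X], Lin A B →
  ∀ P : Fin k → ℤ[X], Pol A P → ∀ (ι : Type) (S : Finset ι) (g : ι → Fin k → ℕ), FGood E Cc cc (Q ^ 2) P S g →
  ∀ R : ℕ, 1 ≤ R → R ≤ fl Q (1 / 16) → B.leadingCoeff.natAbs ∣ R →
  ∑ x ∈ S, (∑ d ∈ SF (fl Q (1 / 2) / R) R, tdf d (sys B P (g x)) -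
    SSf ((pr Q).filter (fun l => ¬ l ∣ R)) (sys B P (g x))) ^ 2 ≤ S.card * (Q : ℝ) ^ (-c)

/-! ## Interfaces -/

/-- **Interface of module FG** (large sieve for linear forms). -/
def FGT {k d : ℕ} (c : Fin k → Fin d → ℤ) (P : Fin k → ℤ[X]) : Prop := ∃ (E : ℕ) (Cc cc : ℝ), FPar Cc cc ∧
  ∀ (Qm : ℕ) (b : Fin d → ℤ) (s : Fin d → ℕ) (β : Fin k → ℤ), 1 ≤ Qm → (∀ j, Qm ^ E ≤ s j) →
    (∀ t ∈ tb b s, ∀ i, 0 ≤ β i + lf c t i) → FGood E Cc cc Qm P (tb b s) (hh c β)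

/-- **Interface of module POLY** (the primes may be replaced by their projections at level `Q`, mean square over the
parameters). The values `P_i(n) + h_i` are in `JJ (Ysc (M i)) = [3M/2, 27M/16)` since `151 M ≤ 100 h < 168 M` and
`|P_i(n)| ≤ M/1000` (`Geo L`, `L` large). -/
def S4T {k d : ℕ} (c : Fin k → Fin d → ℤ) (e : Fin d → ℕ) (P : Fin k → ℤ[X]) : Prop :=
  ∃ (K : ℝ) (L : ℕ), 1 ≤ K ∧ ∀ C : ℝ, ∃ τ c0 : ℝ, 0 < τ ∧ τ ≤ 1 ∧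
    0 < c0 ∧ ∃ Q0 : ℕ, ∀ (Q X X1 : ℕ) (M : Fin k → ℕ) (b : Fin d → ℤ) (s : Fin d → ℕ) (β : Fin k → ℤ), Q0 ≤ Q →
    Rg K C Q X → Geo L Q X X1 P M → (X : ℝ) ≤ X1 * (Q : ℝ) ^ τ →
    (∀ i, (M i : ℝ) ≤ (X1 : ℝ) ^ (P i).natDegree * (Q : ℝ) ^ τ) →
    (∀ j, (X : ℝ) ^ e j ≤ (Q : ℝ) ^ τ * s j) → (∀ j, (s j : ℝ) ≤ (Q : ℝ) ^ τ * (X : ℝ) ^ e j) →
    (∀ i, ∃ (B : ℤ → Ch → ℂ) (mb : Ch → ℝ), Cf Q (Ysc (M i)) B mb) →
    (∀ t ∈ tb b s, ∀ i, 151 * (M i : ℤ) ≤ 100 * (β i + lf c t i) ∧ 100 * (β i + lf c t i) < 168 * (M i : ℤ)) →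
    ∀ w : ℕ → ℝ, (∀ n ∈ Ico X1 (2 * X1), |w n| ≤ (Real.log X) ^ 2) →
    ∑ t ∈ tb b s, (∑ n ∈ Ico X1 (2 * X1), w n * ∏ i, lp ((P i).eval (n : ℤ) + hh c β t i) -
      Rw Q X1 P M w (hh c β t)) ^ 2 ≤ (X1 : ℝ) ^ 2 * (tb b s).card * (Q : ℝ) ^ (-c0)

open Classical in
/-- **The core theorem** for given forms and polynomials. -/
def CoreT {k d : ℕ} (c : Fin k → Fin d → ℤ) (e : Fin d → ℕ) (P : Fin k → ℤ[X]) : Prop := ∀ (A : ℕ) (ε : ℝ), 0 < ε →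
    ∃ η : ℝ, 0 < η ∧ ∃ Z0 : ℕ, ∀ Z : ℕ, Z0 ≤ Z → ∀ B : ℤ[X], OKB A ε Z B → ∀ β : Fin k → ℤ,
      (∀ i, |β i| ≤ A * (Z : ℤ) ^ (P i).natDegree) →
      (((tb 0 fun j => A * Z ^ e j + 1).filter fun t => (∀ i, 0 ≤ β i + lf c t i) ∧ NoFix (sys B P (hh c β t)) ∧
        ((pcount Z B P (hh c β t) : ℕ) : ℝ) < (Z : ℝ) ^ (1 - ε)).card : ℝ) ≤
        (Z : ℝ) ^ ((∑ j, (e j : ℝ)) - η)

end

end Pool.Agent.HUP
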