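import Pool.Agent.Lib.HUP.Defs2

/-!
# Project HUP, module FG (the large sieve): definitions and interfaces

`FGTU c D a` follows from two statements about complete means: `LocB` (primes not dividing `R = lcm r_i`) and `ChB` (the
part at `R`). For functions `F n n' t` of `n`, `n'` and `t`, periodic modulo `M`, `ms M F` is the mean over `n`, `n'` of
the square of the absolute value of the mean over `t`.
-/

open Finset Polynomial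

namespace Pool.Agent.HUP

open Pool.Agent.Lib.H68T Pool.Agent.Lib.H18Q Pool.Agent.Lib.H59P Pool.Agent.Lib.H24P

noncomputable section

/-- The value of the coordinate `i` at `(n, t)`. -/
def yy {k d : ℕ} (c : Fin k → Fin d → ℤ) (P : Fin k → ℤ[X]) (β : Fin k → ℤ) (i : Fin k) (n : ℤ) (t : Fin d → ℤ) : ℤ :=
  (P i).eval n + (β i + lf c t i)

/-- A function of one integer, periodic modulo `M`. -/
def Pz (M : ℕ) (f : ℤ → ℂ) : Prop := ∀ m m' : ℤ, (M : ℤ) ∣ m - m' → f m = f m'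

/-- A function of `n`, `n'`, `t`, periodic modulo `M`. -/
def Pp {d : ℕ} (M : ℕ) (F : ℤ → ℤ → (Fin d → ℤ) → ℂ) : Prop :=
  ∀ (n m n' m' : ℤ) (t t' : Fin d → ℤ), (M : ℤ) ∣ n - m → (M : ℤ) ∣ n' - m' → (∀ j, (M : ℤ) ∣ t j - t' j) →
    F n n' t = F m m' t'

/-- The complete system of residues for `t`. -/
def B0 (d M : ℕ) : Finset (Fin d → ℤ) := Fintype.piFinset fun _ => Ico (0 : ℤ) M

/-- The mean over `n`, `n'` of the square of the absolute value of the mean over `t`. -/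
def ms {d : ℕ} (M : ℕ) (F : ℤ → ℤ → (Fin d → ℤ) → ℂ) : ℝ :=
  (∑ n ∈ Ico (0 : ℤ) M, ∑ n' ∈ Ico (0 : ℤ) M, ‖∑ t ∈ B0 d M, F n n' t‖ ^ 2) / ((M : ℝ) ^ 2 * ((M : ℝ) ^ d) ^ 2)

/-- `∏_{l ∈ L} gl l m` -/
def gL (L : Finset ℕ) (m : ℤ) : ℂ := ∏ l ∈ L, ((gl l m : ℝ) : ℂ)

/-- The component `gk p κ m` without the constant `r / φ(r)` (for squarefree `κ`). -/
def ph (p : Ch) (κ : ℕ) (m : ℤ) : ℂ := cj p m * gL κ.primeFactors m

/-- The product of the components at `n` and of the conjugates of the components at `n'`. -/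
def F2 {k d : ℕ} (c : Fin k → Fin d → ℤ) (P : Fin k → ℤ[X]) (β : Fin k → ℤ) (p : Fin k → Ch) (κ κ' : Fin k → ℕ)
    (n n' : ℤ) (t : Fin d → ℤ) : ℂ :=
  (∏ i, ph (p i) (κ i) (yy c P β i n t)) * (starRingEnd ℂ) (∏ i, ph (p i) (κ' i) (yy c P β i n' t))

/-- The primes which divide some `κ i` or `κ' i`, but not `R`. -/
def Po {k : ℕ} (R : ℕ) (κ κ' : Fin k → ℕ) : Finset ℕ :=
  (univ.biUnion fun i => (κ i).primeFactors ∪ (κ' i).primeFactors).filter fun l => ¬ l ∣ R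

/-- Their product. -/
def mo {k : ℕ} (R : ℕ) (κ κ' : Fin k → ℕ) : ℕ := ∏ l ∈ Po R κ κ', l

/-- The factor at the prime `l`: the coordinates in `V` at `n`, those in `V'` at `n'`. -/
def Fl {k d : ℕ} (c : Fin k → Fin d → ℤ) (P : Fin k → ℤ[X]) (β : Fin k → ℤ) (V V' : Finset (Fin k)) (l : ℕ)
    (n n' : ℤ) (t : Fin d → ℤ) : ℂ :=
  (∏ i ∈ V, ((gl l (yy c P β i n t) : ℝ) : ℂ)) * ∏ i ∈ V', ((gl l (yy c P β i n' t) : ℝ) : ℂ)

/-- The factor at `R`. -/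
def FR {k d : ℕ} (c : Fin k → Fin d → ℤ) (P : Fin k → ℤ[X]) (β : Fin k → ℤ) (p : Fin k → Ch) (R : ℕ)
    (κ κ' : Fin k → ℕ) (n n' : ℤ) (t : Fin d → ℤ) : ℂ :=
  ∏ i, ((cj (p i) (yy c P β i n t) * gL ((κ i).primeFactors.filter fun l => l ∣ R) (yy c P β i n t)) *
    (starRingEnd ℂ) (cj (p i) (yy c P β i n' t) * gL ((κ' i).primeFactors.filter fun l => l ∣ R) (yy c P β i n' t)))

/-! ## Interfaces -/

/-- **Interface: the factors at the primes.** -/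
def LocB {k d : ℕ} (c : Fin k → Fin d → ℤ) (D : Fin k → ℕ) (a : Fin k → ℤ) : Prop :=
  ∃ C : ℝ, 1 ≤ C ∧ ∀ P : Fin k → ℤ[X], HasD D a P → ∀ (β : Fin k → ℤ) (l : ℕ), l.Prime →
    ∀ V V' : Finset (Fin k), 1 ≤ V.card + V'.card → ms l (Fl c P β V V' l) ≤ C / (l : ℝ) ^ 3

/-- **Interface: the factor at `R`.** The functions at `n` are characters times functions of coprime period, those at
`n'` are arbitrary. -/
def ChB {k d : ℕ} (c : Fin k → Fin d → ℤ) (D : Fin k → ℕ) (a : Fin k → ℤ) : Prop :=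
  ∃ C c0 : ℝ, 0 < C ∧ 0 < c0 ∧ c0 ≤ 1 ∧ ∀ P : Fin k → ℤ[X], HasD D a P → ∀ (β : Fin k → ℤ) (p : Fin k → Ch),
    (∀ i, 1 ≤ (p i).1 ∧ (p i).2.IsPrimitive) → ∀ R : ℕ, R = univ.lcm (fun i => (p i).1) →
    ∀ (K : Fin k → ℕ) (u g' : Fin k → ℤ → ℂ), (∀ i, 1 ≤ K i ∧ K i ∣ R ∧ Nat.Coprime (K i) (p i).1) →
    (∀ i, Pz (K i) (u i)) → (∀ i m, ‖u i m‖ ≤ 1) → (∀ i, Pz R (g' i)) → (∀ i m, ‖g' i m‖ ≤ 1) →
    ms R (fun n n' t => ∏ i, ((cj (p i) (yy c P β i n t) * u i (yy c P β i n t)) * g' i (yy c P β i n' t))) ≤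
      C * (R : ℝ) ^ (-c0)

/-- A good prime for the data. -/
structure Gd {k d : ℕ} (c : Fin k → Fin d → ℤ) (D : Fin k → ℕ) (a : Fin k → ℤ) (l : ℕ) : Prop where
  form : ∀ i, ∃ j, ¬ (l : ℤ) ∣ c i j
  lc : ∀ i, ¬ (l : ℤ) ∣ a i
  pair : ∀ i i', i ≠ i' → (∃ u : Fin d → ℤ, lf c u i' = 0 ∧ ¬ (l : ℤ) ∣ lf c u i) ∨ (D i = D i' ∧ ∃ A B : ℤ,
    (∀ t : Fin d → ℤ, B * lf c t i = A * lf c t i') ∧ ¬ (l : ℤ) ∣ A ∧ ¬ (l : ℤ) ∣ B ∧ ¬ (l : ℤ) ∣ B * a i - A * a i')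

end

end Pool.Agent.HUP
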