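import Pool.Agent.Lib.HUP.FG0

/-!
# Project HUP, chunk FGA1 (S): Cauchy-Schwarz and triangle inequality
-/

open Finset

namespace Pool.Agent.HUP

theorem fga1_expand {ι K : Type*} (S : Finset ι) (N : Finset ℕ) (T : Finset K) (w : ℕ → ℂ) (Φ : K → ℕ → ι → ℂ) :
    ((∑ x ∈ S, ‖∑ n ∈ N, w n * ∑ κ ∈ T, Φ κ n x‖ ^ 2 : ℝ) : ℂ) =
      ∑ κ ∈ T, ∑ κ' ∈ T, ∑ n ∈ N, ∑ n' ∈ N, w n * (starRingEnd ℂ) (w n') *
        ∑ x ∈ S, Φ κ n x * (starRingEnd ℂ) (Φ κ' n' x) := by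
  have h1 : ∀ x, (((‖∑ n ∈ N, w n * ∑ κ ∈ T, Φ κ n x‖ ^ 2 : ℝ)) : ℂ) =
      ∑ κ ∈ T, ∑ κ' ∈ T, ∑ n ∈ N, ∑ n' ∈ N, w n * (starRingEnd ℂ) (w n') * (Φ κ n x * (starRingEnd ℂ) (Φ κ' n' x)) := by
    intro x
    have h2 : ∑ n ∈ N, w n * ∑ κ ∈ T, Φ κ n x = ∑ κ ∈ T, ∑ n ∈ N, w n * Φ κ n x := by
      rw [Finset.sum_comm]
      exact Finset.sum_congr rfl fun n _ => Finset.mul_sum _ _ _
    rw [h2, Complex.ofReal_pow, ← Complex.mul_conj', map_sum, Finset.sum_mul_sum]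
    refine Finset.sum_congr rfl fun κ _ => Finset.sum_congr rfl fun κ' _ => ?_
    rw [map_sum, Finset.sum_mul_sum]
    refine Finset.sum_congr rfl fun n _ => Finset.sum_congr rfl fun n' _ => ?_
    rw [map_mul]
    ring
  rw [Complex.ofReal_sum, Finset.sum_congr rfl fun x _ => h1 x, Finset.sum_comm]
  refine Finset.sum_congr rfl fun κ _ => ?_
  rw [Finset.sum_comm]
  refine Finset.sum_congr rfl fun κ' _ => ?_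
  rw [Finset.sum_comm]
  refine Finset.sum_congr rfl fun n _ => ?_
  rw [Finset.sum_comm]
  refine Finset.sum_congr rfl fun n' _ => ?_
  rw [Finset.mul_sum]

/-- Proof. Expand: `∑_x ‖∑_n w n ∑_κ Φ κ n x‖² = ∑_{κ,κ'} ∑_{n,n'} w n conj (w n') A_{κ,κ'}(n,n')`,
`A_{κ,κ'}(n,n') = ∑_x Φ κ n x conj (Φ κ' n' x)` (`‖z‖² = z conj z`, as complex numbers; then take norms on the right). For fixed `κ`, `κ'`
Cauchy-Schwarz over the pairs `(n, n')`: `‖∑_{n,n'} w n conj (w n') A‖ ≤ (∑_{n,n'} ‖w n‖² ‖w n'‖²)^(1/2) (∑_{n,n'} ‖A‖²)^(1/2)` and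
`∑_{n,n'} ‖w n‖² ‖w n'‖² = (∑_n ‖w n‖²)²`. -/
theorem FGA1 {ι K : Type*} (S : Finset ι) (N : Finset ℕ) (T : Finset K) (w : ℕ → ℂ) (Φ : K → ℕ → ι → ℂ) :
    ∑ x ∈ S, ‖∑ n ∈ N, w n * ∑ κ ∈ T, Φ κ n x‖ ^ 2 ≤
      (∑ n ∈ N, ‖w n‖ ^ 2) * ∑ κ ∈ T, ∑ κ' ∈ T,
        Real.sqrt (∑ n ∈ N, ∑ n' ∈ N, ‖∑ x ∈ S, Φ κ n x * (starRingEnd ℂ) (Φ κ' n' x)‖ ^ 2) := by
  have h0 : (0 : ℝ) ≤ ∑ x ∈ S, ‖∑ n ∈ N, w n * ∑ κ ∈ T, Φ κ n x‖ ^ 2 := Finset.sum_nonneg fun _ _ => by positivity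
  have h1 : ∑ x ∈ S, ‖∑ n ∈ N, w n * ∑ κ ∈ T, Φ κ n x‖ ^ 2 =
      ‖∑ κ ∈ T, ∑ κ' ∈ T, ∑ n ∈ N, ∑ n' ∈ N, w n * (starRingEnd ℂ) (w n') *
        ∑ x ∈ S, Φ κ n x * (starRingEnd ℂ) (Φ κ' n' x)‖ := by
    rw [← fga1_expand, Complex.norm_real, Real.norm_of_nonneg h0]
  rw [h1, Finset.mul_sum]
  refine (norm_sum_le _ _).trans (Finset.sum_le_sum fun κ _ => ?_)
  rw [Finset.mul_sum]
  refine (norm_sum_le _ _).trans (Finset.sum_le_sum fun κ' _ => ?_)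
  have h2 : ‖∑ n ∈ N, ∑ n' ∈ N, w n * (starRingEnd ℂ) (w n') * ∑ x ∈ S, Φ κ n x * (starRingEnd ℂ) (Φ κ' n' x)‖ ≤
      ∑ p ∈ N ×ˢ N, (‖w p.1‖ * ‖w p.2‖) * ‖∑ x ∈ S, Φ κ p.1 x * (starRingEnd ℂ) (Φ κ' p.2 x)‖ := by
    rw [Finset.sum_product]
    refine (norm_sum_le _ _).trans (Finset.sum_le_sum fun n _ => ?_)
    refine (norm_sum_le _ _).trans (Finset.sum_le_sum fun n' _ => ?_)
    rw [norm_mul, norm_mul, RCLike.norm_conj]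
  refine h2.trans ((Real.sum_mul_le_sqrt_mul_sqrt (N ×ˢ N) _ _).trans (le_of_eq ?_))
  have h3 : ∑ p ∈ N ×ˢ N, (‖w p.1‖ * ‖w p.2‖) ^ 2 = (∑ n ∈ N, ‖w n‖ ^ 2) ^ 2 := by
    rw [Finset.sum_product, sq, Finset.sum_mul_sum]
    refine Finset.sum_congr rfl fun n _ => Finset.sum_congr rfl fun n' _ => ?_
    ring
  rw [h3, Real.sqrt_sq (Finset.sum_nonneg fun _ _ => by positivity), Finset.sum_product]

end Pool.Agent.HUP
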