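import Pool.Agent.Lib.HUP.FGA8
import Pool.Agent.Lib.HUK.KB8

/-!
# Project HUP, chunk FGA10 (M): the series over the pairs
-/

open Finset

namespace Pool.Agent.HUP

open Pool.Agent.Lib.H18Q (KS)

/-- The number of pairs with given `mo` is bounded. Proof. For such a pair all `κ i` and `κ' i` divide `R * m` (`FGA8_dvd`), so the filter is
contained in a product of two copies of `Fintype.piFinset fun _ => (R * m).divisors`. -/
theorem FGA10_fib {k : ℕ} (Q : ℕ) (r : Fin k → ℕ) (R : ℕ) (hR : R = univ.lcm r) (hr : ∀ i, 1 ≤ r i)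
    (T : Finset (Fin k → ℕ)) (hT : ∀ κ ∈ T, ∀ i, κ i ∈ KS Q (r i)) (m : ℕ) (hm : 1 ≤ m) :
    (((T ×ˢ T).filter fun x => mo R x.1 x.2 = m).card : ℝ) ≤ ((R * m).divisors.card : ℝ) ^ (2 * k) := by
  have hR0 : R ≠ 0 := by
    rw [hR]
    intro h0
    rw [Finset.lcm_eq_zero_iff] at h0
    obtain ⟨i, _, hi⟩ := h0
    have := hr i
    omega
  have hsub : ((T ×ˢ T).filter fun x => mo R x.1 x.2 = m) ⊆
      (Fintype.piFinset fun _ : Fin k => (R * m).divisors) ×ˢ (Fintype.piFinset fun _ : Fin k => (R * m).divisors) := by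
    intro x hx
    rw [mem_filter, mem_product] at hx
    obtain ⟨⟨hx1, hx2⟩, hx3⟩ := hx
    have h1 : ∀ κ ∈ T, ∀ i, Squarefree (κ i) ∧ Nat.Coprime (κ i) (r i) := by
      intro κ hκ i
      have h := hT κ hκ i
      unfold KS at h
      rw [mem_filter] at h
      exact h.2
    have h2 := FGA8_dvd r R hR x.1 x.2 (fun i => (h1 _ hx1 i).1) (fun i => (h1 _ hx1 i).2) (fun i => (h1 _ hx2 i).1)
    rw [hx3] at h2
    rw [mem_product, Fintype.mem_piFinset, Fintype.mem_piFinset]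
    have h3 : R * m ≠ 0 := Nat.mul_ne_zero hR0 (by omega)
    exact ⟨fun i => Nat.mem_divisors.2 ⟨h2.1 i, h3⟩, fun i => Nat.mem_divisors.2 ⟨h2.2.1 i, h3⟩⟩
  have h1 := card_le_card hsub
  rw [card_product, Fintype.card_piFinset, prod_const, card_univ, Fintype.card_fin] at h1
  rw [two_mul, pow_add]
  exact_mod_cast h1

theorem fga10_num (x y z c D F A B : ℝ) (hx : 1 ≤ x) (hy : 1 ≤ y) (hz : 1 ≤ z) (hzx : z ≤ x * y) (hc : 0 < c)
    (hc1 : c ≤ 1) (_hD : 0 ≤ D) (hDA : D ≤ A * y ^ (1 / 4 : ℝ)) (hA : 0 ≤ A) (_hF : 0 ≤ F)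
    (hFB : F ≤ B * (x * y) ^ (c / 8)) (hB : 0 ≤ B) :
    F * Real.sqrt (x ^ (-c) * (D / y ^ 3)) ≤ B * Real.sqrt A * z ^ (-(c / 8)) * y ^ (-(9 / 8 : ℝ)) := by
  have hx0 : 0 < x := by linarith
  have hy0 : 0 < y := by linarith
  have hz0 : 0 < z := by linarith
  have h1 : Real.sqrt (x ^ (-c) * (D / y ^ 3)) ≤ Real.sqrt A * (x ^ (-(c / 2)) * y ^ (-(11 / 8 : ℝ))) := by
    have h2 : x ^ (-c) * (D / y ^ 3) ≤ A * (x ^ (-(c / 2)) * y ^ (-(11 / 8 : ℝ))) ^ 2 := by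
      have h3 : (x ^ (-(c / 2)) * y ^ (-(11 / 8 : ℝ))) ^ 2 = x ^ (-c) * (y ^ (1 / 4 : ℝ) / y ^ 3) := by
        rw [mul_pow, ← Real.rpow_mul_natCast hx0.le, ← Real.rpow_mul_natCast hy0.le, ← Real.rpow_natCast y 3,
          ← Real.rpow_sub hy0]
        congr 1
        · congr 1
          push_cast
          ring
        · congr 1
          push_cast
          norm_num
      rw [h3]
      calc x ^ (-c) * (D / y ^ 3) ≤ x ^ (-c) * (A * y ^ (1 / 4 : ℝ) / y ^ 3) := by gcongr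
        _ = A * (x ^ (-c) * (y ^ (1 / 4 : ℝ) / y ^ 3)) := by ring
    calc Real.sqrt (x ^ (-c) * (D / y ^ 3)) ≤ Real.sqrt (A * (x ^ (-(c / 2)) * y ^ (-(11 / 8 : ℝ))) ^ 2) := Real.sqrt_le_sqrt h2
      _ = Real.sqrt A * (x ^ (-(c / 2)) * y ^ (-(11 / 8 : ℝ))) := by
          rw [Real.sqrt_mul hA, Real.sqrt_sq (by positivity)]
  have h4 : (x * y) ^ (-(c / 8)) ≤ z ^ (-(c / 8)) := by
    apply Real.rpow_le_rpow_of_nonpos hz0 hzx
    linarith
  calc F * Real.sqrt (x ^ (-c) * (D / y ^ 3))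
      ≤ (B * (x * y) ^ (c / 8)) * (Real.sqrt A * (x ^ (-(c / 2)) * y ^ (-(11 / 8 : ℝ)))) :=
        mul_le_mul hFB h1 (Real.sqrt_nonneg _) (by positivity)
    _ = B * Real.sqrt A * ((x ^ (c / 8) * x ^ (-(c / 2))) * (y ^ (c / 8) * y ^ (-(11 / 8 : ℝ)))) := by
        rw [Real.mul_rpow hx0.le hy0.le]
        ring
    _ = B * Real.sqrt A * (x ^ (c / 8 + -(c / 2)) * y ^ (c / 8 + -(11 / 8 : ℝ))) := by
        rw [← Real.rpow_add hx0, ← Real.rpow_add hy0]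
    _ ≤ B * Real.sqrt A * (x ^ (-(c / 8)) * y ^ (-(c / 8) + -(9 / 8 : ℝ))) := by
        apply mul_le_mul_of_nonneg_left _ (by positivity)
        apply mul_le_mul _ _ (by positivity) (by positivity)
        · apply Real.rpow_le_rpow_of_exponent_le hx
          linarith
        · apply Real.rpow_le_rpow_of_exponent_le hy
          linarith
    _ = B * Real.sqrt A * ((x * y) ^ (-(c / 8)) * y ^ (-(9 / 8 : ℝ))) := by
        rw [Real.mul_rpow hx0.le hy0.le, Real.rpow_add hy0]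
        ring
    _ ≤ B * Real.sqrt A * (z ^ (-(c / 8)) * y ^ (-(9 / 8 : ℝ))) := by
        apply mul_le_mul_of_nonneg_left _ (by positivity)
        exact mul_le_mul_of_nonneg_right h4 (by positivity)
    _ = _ := by ring

/-- Proof. `divisor_bound` (`H21AP/DivisorBound.lean`, see `KB8_series` in `HUK/KB8.lean`) with `ε` so small that `2 k ε ≤ c0/4`, `2 k ε ≤ 1/16` and
`b ε ≤ 1/8`: `d(R m)^(2k) ≤ C (R m)^(2kε) ≤ C R^(c0/4) m^(1/8)` and `(d(m)^b)^(1/2) ≤ C m^(1/8)`. The sum is `∑_{x ∈ T ×ˢ T}`, a sum over the values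
`m` of `mo R x.1 x.2` (`sum_fiberwise_of_maps_to` to the image) of at most (`FGA10_fib`)
`C R^(c0/4) m^(1/8) * R^(-c0/2) * C m^(1/8) m^(-3/2) = C² R^(-c0/4) m^(-5/4)`. For every such `m`: `W < univ.lcm (..) ≤ R m` (`FGA8_dvd`), so with
`ρ = min (c0/4) (1/8)`: `R^(-c0/4) m^(-1/8) ≤ (R m)^(-ρ) ≤ W^(-ρ)`. So the total is at most `C² W^(-ρ) ∑_m m^(-9/8)`, a convergent series. -/
theorem FGA10 (k b : ℕ) (c0 : ℝ) (hc0 : 0 < c0) (hc1 : c0 ≤ 1) : ∃ C ρ : ℝ, 0 < C ∧ 0 < ρ ∧ ρ ≤ 1 ∧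
    ∀ (Q W R : ℕ) (r : Fin k → ℕ), R = univ.lcm r → (∀ i, 1 ≤ r i) → 1 ≤ W → ∀ T : Finset (Fin k → ℕ),
    (∀ κ ∈ T, ∀ i, κ i ∈ KS Q (r i)) → (∀ κ ∈ T, W < univ.lcm (fun i => r i * κ i)) →
    ∑ κ ∈ T, ∑ κ' ∈ T, Real.sqrt ((R : ℝ) ^ (-c0) * (((mo R κ κ').divisors.card : ℝ) ^ b / (mo R κ κ' : ℝ) ^ 3)) ≤
      C * (W : ℝ) ^ (-ρ) := by
  set N := 2 * k + b + 1 with hN
  have hN0 : (0 : ℝ) < N := by
    rw [hN]
    push_cast
    positivity
  obtain ⟨C0, hC0, hd⟩ := Pool.Agent.Lib.H21AP.divisor_bound (ε := c0 / (8 * N)) (by positivity)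
  have hsum : Summable fun n : ℕ => (n : ℝ) ^ (-(9 / 8 : ℝ)) := Real.summable_nat_rpow.2 (by norm_num)
  have hnn : ∀ n : ℕ, 0 ≤ (n : ℝ) ^ (-(9 / 8 : ℝ)) := fun n => by positivity
  have hS0 : 0 ≤ ∑' n : ℕ, (n : ℝ) ^ (-(9 / 8 : ℝ)) := tsum_nonneg hnn
  refine ⟨C0 ^ (2 * k) * Real.sqrt (C0 ^ b) * ((∑' n : ℕ, (n : ℝ) ^ (-(9 / 8 : ℝ))) + 1), c0 / 8, ?_, by positivity,
    by linarith, ?_⟩
  · have : 0 < (∑' n : ℕ, (n : ℝ) ^ (-(9 / 8 : ℝ))) + 1 := by linarith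
    positivity
  intro Q W R r hR hr hW T hT hTW
  have hR0 : 1 ≤ R := by
    rw [Nat.one_le_iff_ne_zero, hR]
    intro h0
    rw [Finset.lcm_eq_zero_iff] at h0
    obtain ⟨i, _, hi⟩ := h0
    have := hr i
    omega
  rw [← Finset.sum_product']
  have h1 : ∑ x ∈ T ×ˢ T, Real.sqrt ((R : ℝ) ^ (-c0) * (((mo R x.1 x.2).divisors.card : ℝ) ^ b / (mo R x.1 x.2 : ℝ) ^ 3)) =
      ∑ m ∈ (T ×ˢ T).image (fun x => mo R x.1 x.2), ∑ x ∈ T ×ˢ T with mo R x.1 x.2 = m,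
        Real.sqrt ((R : ℝ) ^ (-c0) * (((mo R x.1 x.2).divisors.card : ℝ) ^ b / (mo R x.1 x.2 : ℝ) ^ 3)) := by
    generalize (fun x : (Fin k → ℕ) × (Fin k → ℕ) => Real.sqrt ((R : ℝ) ^ (-c0) *
      (((mo R x.1 x.2).divisors.card : ℝ) ^ b / (mo R x.1 x.2 : ℝ) ^ 3))) = f
    have hmaps : ∀ x ∈ T ×ˢ T, (fun x : (Fin k → ℕ) × (Fin k → ℕ) => mo R x.1 x.2) x ∈
        (T ×ˢ T).image (fun x => mo R x.1 x.2) := fun x hx => mem_image_of_mem _ hx
    exact (sum_fiberwise_of_maps_to hmaps f).symm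
  rw [h1]
  have h2 : ∀ m ∈ (T ×ˢ T).image (fun x => mo R x.1 x.2), ∑ x ∈ T ×ˢ T with mo R x.1 x.2 = m,
        Real.sqrt ((R : ℝ) ^ (-c0) * (((mo R x.1 x.2).divisors.card : ℝ) ^ b / (mo R x.1 x.2 : ℝ) ^ 3)) ≤
      C0 ^ (2 * k) * Real.sqrt (C0 ^ b) * (W : ℝ) ^ (-(c0 / 8)) * (m : ℝ) ^ (-(9 / 8 : ℝ)) := by
    intro m hm
    rw [mem_image] at hm
    obtain ⟨x0, hx0, hm0⟩ := hm
    rw [mem_product] at hx0
    have hm1 : 1 ≤ m := by
      rw [← hm0]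
      exact (FGA8_pos R x0.1 x0.2).1
    have hm1' : (1 : ℝ) ≤ m := by exact_mod_cast hm1
    have hm0' : (0 : ℝ) < m := by linarith
    have hR1' : (1 : ℝ) ≤ R := by exact_mod_cast hR0
    have hRm : 1 ≤ R * m := Nat.mul_pos hR0 hm1
    have hRm' : (1 : ℝ) ≤ ((R * m : ℕ) : ℝ) := by exact_mod_cast hRm
    have hks : ∀ κ ∈ T, ∀ i, Squarefree (κ i) ∧ Nat.Coprime (κ i) (r i) := by
      intro κ hκ i
      have h := hT κ hκ i
      unfold KS at h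
      rw [mem_filter] at h
      exact h.2
    have hWle : (W : ℝ) ≤ (R : ℝ) * (m : ℝ) := by
      have h3 := (FGA8_dvd r R hR x0.1 x0.2 (fun i => (hks _ hx0.1 i).1) (fun i => (hks _ hx0.1 i).2)
        (fun i => (hks _ hx0.2 i).1)).2.2
      rw [hm0] at h3
      have h4 := Nat.le_of_dvd (by omega) h3
      have h5 := hTW _ hx0.1
      have h6 : W ≤ R * m := by omega
      exact_mod_cast h6
    have h3 : ∑ x ∈ T ×ˢ T with mo R x.1 x.2 = m,
        Real.sqrt ((R : ℝ) ^ (-c0) * (((mo R x.1 x.2).divisors.card : ℝ) ^ b / (mo R x.1 x.2 : ℝ) ^ 3)) =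
        (((T ×ˢ T).filter fun x => mo R x.1 x.2 = m).card : ℝ) *
          Real.sqrt ((R : ℝ) ^ (-c0) * ((m.divisors.card : ℝ) ^ b / (m : ℝ) ^ 3)) := by
      rw [← nsmul_eq_mul, ← sum_const]
      refine sum_congr rfl fun x hx => ?_
      rw [mem_filter] at hx
      rw [hx.2]
    rw [h3]
    have h4 := FGA10_fib Q r R hR hr T hT m hm1
    have h5 : (m.divisors.card : ℝ) ^ b ≤ C0 ^ b * (m : ℝ) ^ (1 / 4 : ℝ) := by
      calc (m.divisors.card : ℝ) ^ b ≤ (C0 * (m : ℝ) ^ (c0 / (8 * N) : ℝ)) ^ b :=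
            pow_le_pow_left₀ (by positivity) (hd m hm1) b
        _ = C0 ^ b * (m : ℝ) ^ (c0 / (8 * N) * b : ℝ) := by
            rw [mul_pow, ← Real.rpow_mul_natCast hm0'.le]
        _ ≤ C0 ^ b * (m : ℝ) ^ (1 / 4 : ℝ) := by
            apply mul_le_mul_of_nonneg_left _ (by positivity)
            apply Real.rpow_le_rpow_of_exponent_le hm1'
            have hbN : (b : ℝ) ≤ N := by
              rw [hN]
              push_cast
              have : (0 : ℝ) ≤ k := Nat.cast_nonneg k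
              linarith
            rw [div_mul_eq_mul_div, div_le_iff₀ (by positivity)]
            have : c0 * b ≤ 1 * N := mul_le_mul hc1 hbN (by positivity) (by norm_num)
            linarith
    have h6 : ((R * m).divisors.card : ℝ) ^ (2 * k) ≤ C0 ^ (2 * k) * ((R : ℝ) * (m : ℝ)) ^ (c0 / 8) := by
      calc ((R * m).divisors.card : ℝ) ^ (2 * k) ≤ (C0 * ((R * m : ℕ) : ℝ) ^ (c0 / (8 * N) : ℝ)) ^ (2 * k) :=
            pow_le_pow_left₀ (by positivity) (hd (R * m) hRm) _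
        _ = C0 ^ (2 * k) * ((R * m : ℕ) : ℝ) ^ (c0 / (8 * N) * ((2 * k : ℕ) : ℝ) : ℝ) := by
            rw [mul_pow, ← Real.rpow_mul_natCast (by positivity)]
        _ ≤ C0 ^ (2 * k) * ((R * m : ℕ) : ℝ) ^ (c0 / 8) := by
            apply mul_le_mul_of_nonneg_left _ (by positivity)
            apply Real.rpow_le_rpow_of_exponent_le hRm'
            have hbN : ((2 * k : ℕ) : ℝ) ≤ N := by
              rw [hN]
              push_cast
              have : (0 : ℝ) ≤ b := Nat.cast_nonneg b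
              linarith
            rw [div_mul_eq_mul_div, div_le_iff₀ (by positivity)]
            have : c0 * ((2 * k : ℕ) : ℝ) ≤ c0 * N := mul_le_mul_of_nonneg_left hbN hc0.le
            linarith
        _ = C0 ^ (2 * k) * ((R : ℝ) * (m : ℝ)) ^ (c0 / 8) := by
            push_cast
            rfl
    exact fga10_num (R : ℝ) (m : ℝ) (W : ℝ) c0 _ _ (C0 ^ b) (C0 ^ (2 * k)) hR1' hm1' (by exact_mod_cast hW) hWle hc0 hc1
      (by positivity) h5 (by positivity) (by positivity) (le_trans h4 h6) (by positivity)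
  refine le_trans (sum_le_sum h2) ?_
  rw [← mul_sum]
  have h7 := hsum.sum_le_tsum ((T ×ˢ T).image (fun x => mo R x.1 x.2)) fun n _ => hnn n
  calc C0 ^ (2 * k) * Real.sqrt (C0 ^ b) * (W : ℝ) ^ (-(c0 / 8)) *
        ∑ m ∈ (T ×ˢ T).image (fun x => mo R x.1 x.2), (m : ℝ) ^ (-(9 / 8 : ℝ)) ≤
      C0 ^ (2 * k) * Real.sqrt (C0 ^ b) * (W : ℝ) ^ (-(c0 / 8)) * ((∑' n : ℕ, (n : ℝ) ^ (-(9 / 8 : ℝ))) + 1) := by
        apply mul_le_mul_of_nonneg_left _ (by positivity)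
        linarith
    _ = _ := by ring

end Pool.Agent.HUP
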