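import Pool.Agent.Lib.HUP.FG0
import Pool.Agent.Lib.HUK.KB3

/-!
# Project HUP, chunk FGA3 (S): sums of non-negative periodic functions over intervals
-/

open Finset

namespace Pool.Agent.HUP

open Pool.Agent.HUK (kb3_blocks kb3_block)

theorem fga3_blocks (M : ℕ) (hM : 1 ≤ M) (g : ℤ → ℝ)
    (hg : ∀ n m : ℤ, (M : ℤ) ∣ n - m → g n = g m) (a : ℤ) (q : ℕ) :
    ∑ l ∈ range (M * q), g (a + l) = q * ∑ y ∈ Ico (0 : ℤ) M, g y := by
  have h := kb3_blocks M hM (fun y => ((g y : ℝ) : ℂ)) (fun y y' hy => by simp only [hg y y' hy]) a q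
  exact_mod_cast h

/-- Proof. `H = M q + ρ`, `ρ < M`: the interval is contained in `q + 1 ≤ 2 H / M` blocks of `M` consecutive integers (`M ≤ H`), each block has the
sum over `Ico 0 M` (bijection `n ↦ n % M`; compare `kb3_block` in `HUK/KB3.lean`; induction on `q`). -/
theorem FGA3_one (M H : ℕ) (hM : 1 ≤ M) (hMH : M ≤ H) (g : ℤ → ℝ) (h0 : ∀ n, 0 ≤ g n)
    (hg : ∀ n m : ℤ, (M : ℤ) ∣ n - m → g n = g m) (a : ℕ) :
    ∑ n ∈ Ico a (a + H), g n ≤ 2 * H / M * ∑ n ∈ Ico (0 : ℤ) M, g n := by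
  have hM0 : (0 : ℝ) < M := by exact_mod_cast hM
  have hS : 0 ≤ ∑ n ∈ Ico (0 : ℤ) M, g n := Finset.sum_nonneg fun n _ => h0 n
  have hH : H ≤ M * (H / M + 1) := by
    have h1 := Nat.div_add_mod H M
    have h2 := Nat.mod_lt H hM
    rw [Nat.mul_add, Nat.mul_one]
    omega
  have hq : 1 ≤ H / M := (Nat.one_le_div_iff (by omega)).mpr hMH
  have h1 : ∑ n ∈ Ico a (a + H), g n = ∑ l ∈ range H, g ((a : ℤ) + l) := by
    rw [Finset.sum_Ico_eq_sum_range]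
    have : a + H - a = H := by omega
    rw [this]
    apply Finset.sum_congr rfl
    intro l _
    rw [Nat.cast_add]
  rw [h1]
  have h2 : ∑ l ∈ range H, g ((a : ℤ) + l) ≤ ∑ l ∈ range (M * (H / M + 1)), g ((a : ℤ) + l) :=
    Finset.sum_le_sum_of_subset_of_nonneg (range_mono hH) fun l _ _ => h0 _
  refine h2.trans ?_
  rw [fga3_blocks M hM g hg a]
  apply mul_le_mul_of_nonneg_right _ hS
  have h3 : ((H / M : ℕ) : ℝ) ≤ H / M := Nat.cast_div_le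
  have h4 : (1 : ℝ) ≤ ((H / M : ℕ) : ℝ) := by exact_mod_cast hq
  have h5 : 2 * (H : ℝ) / M = 2 * (H / M) := by ring
  rw [h5, Nat.cast_add, Nat.cast_one]
  linarith

/-- Proof. `FGA3_one` for `n'`, then for `n` (the function `n ↦ ∑_{n' ∈ Ico 0 M} f n n'`). -/
theorem FGA3 (M H : ℕ) (hM : 1 ≤ M) (hMH : M ≤ H) (f : ℤ → ℤ → ℝ) (h0 : ∀ n n', 0 ≤ f n n')
    (hf : ∀ n m n' m' : ℤ, (M : ℤ) ∣ n - m → (M : ℤ) ∣ n' - m' → f n n' = f m m') (a : ℕ) :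
    ∑ n ∈ Ico a (a + H), ∑ n' ∈ Ico a (a + H), f n n' ≤
      4 * (H : ℝ) ^ 2 / (M : ℝ) ^ 2 * ∑ n ∈ Ico (0 : ℤ) M, ∑ n' ∈ Ico (0 : ℤ) M, f n n' := by
  have hM0 : (0 : ℝ) < M := by exact_mod_cast hM
  have h1 : ∑ n ∈ Ico a (a + H), ∑ n' ∈ Ico a (a + H), f n n' ≤
      ∑ n ∈ Ico a (a + H), 2 * (H : ℝ) / M * ∑ n' ∈ Ico (0 : ℤ) M, f n n' := by
    apply Finset.sum_le_sum
    intro n _
    exact FGA3_one M H hM hMH (fun n' => f n n') (fun n' => h0 _ _)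
      (fun n' m' h => hf _ _ _ _ (by simp) h) a
  refine h1.trans ?_
  rw [← Finset.mul_sum]
  have h2 := FGA3_one M H hM hMH (fun n => ∑ n' ∈ Ico (0 : ℤ) M, f n n')
    (fun n => Finset.sum_nonneg fun n' _ => h0 _ _)
    (fun n m h => Finset.sum_congr rfl fun n' _ => hf _ _ _ _ h (by simp)) a
  have h3 : 0 ≤ 2 * (H : ℝ) / M := by positivity
  refine (mul_le_mul_of_nonneg_left h2 h3).trans (le_of_eq ?_)
  rw [← mul_assoc]
  congr 1
  ring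

end Pool.Agent.HUP
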