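import Pool.Agent.Lib.HUP.FGA2
import Pool.Agent.Lib.HUP.FGA3

/-!
# Project HUP, chunk FGA4 (S): from sums over boxes to complete means
-/

open Finset

namespace Pool.Agent.HUP

/-- Proof. `FGA2`: `‖∑_{t ∈ tb b s} F n n' t‖ ≤ card * (x + y)`, `x = ‖∑_{t ∈ B0 d M} F n n' t‖ / M^d`, `y = 2 d M / L`. So the square is at most
`card² (2 x² + 2 y²)`. Sum over `n`, `n'` with `FGA3` for `x²` (a periodic function of `n`, `n'` by `hF`): at most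
`card² (8 H² ms M F + 2 H² y²)`, and the square root is at most `3 card H (√(ms M F) + y)`. -/
theorem FGA4 {d : ℕ} (M L H : ℕ) (hM : 1 ≤ M) (hL : 1 ≤ L) (hMH : M ≤ H) (b : Fin d → ℤ) (s : Fin d → ℕ)
    (hs : ∀ j, L ≤ s j) (F : ℤ → ℤ → (Fin d → ℤ) → ℂ) (hF : Pp M F) (hb : ∀ n n' t, ‖F n n' t‖ ≤ 1) (a : ℕ) :
    Real.sqrt (∑ n ∈ Ico a (a + H), ∑ n' ∈ Ico a (a + H), ‖∑ t ∈ tb b s, F n n' t‖ ^ 2) ≤
      3 * (tb b s).card * H * (Real.sqrt (ms M F) + 2 * d * ((M : ℝ) / L)) := by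
  have hM0 : (0 : ℝ) < M := by exact_mod_cast hM
  have hL0 : (0 : ℝ) < L := by exact_mod_cast hL
  set y : ℝ := 2 * d * ((M : ℝ) / L) with hy
  have hy0 : 0 ≤ y := by positivity
  have hms : 0 ≤ ms M F := by
    rw [ms]
    apply div_nonneg
    · exact Finset.sum_nonneg fun _ _ => Finset.sum_nonneg fun _ _ => by positivity
    · positivity
  have h1 : ∀ n n' : ℤ, ‖∑ t ∈ tb b s, F n n' t‖ ^ 2 ≤
      ((tb b s).card : ℝ) ^ 2 * (2 * (‖∑ t ∈ B0 d M, F n n' t‖ ^ 2 / ((M : ℝ) ^ d) ^ 2) + 2 * y ^ 2) := by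
    intro n n'
    have h := FGA2 M L hM hL b s hs (F n n') (fun t t' ht => hF n n n' n' t t' (by simp) (by simp) ht) (hb n n')
    rw [← hy] at h
    have h2 : ‖∑ t ∈ tb b s, F n n' t‖ ^ 2 ≤ ((tb b s).card * (‖∑ t ∈ B0 d M, F n n' t‖ / (M : ℝ) ^ d + y)) ^ 2 :=
      pow_le_pow_left₀ (norm_nonneg _) h 2
    refine h2.trans ?_
    rw [mul_pow]
    apply mul_le_mul_of_nonneg_left _ (by positivity)
    rw [← div_pow]
    nlinarith [sq_nonneg (‖∑ t ∈ B0 d M, F n n' t‖ / (M : ℝ) ^ d - y)]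
  have h3 : ∑ n ∈ Ico a (a + H), ∑ n' ∈ Ico a (a + H), ‖∑ t ∈ tb b s, F n n' t‖ ^ 2 ≤
      ((tb b s).card : ℝ) ^ 2 * (8 * (H : ℝ) ^ 2 * ms M F + 2 * (H : ℝ) ^ 2 * y ^ 2) := by
    have h4 : ∑ n ∈ Ico a (a + H), ∑ n' ∈ Ico a (a + H), ‖∑ t ∈ tb b s, F n n' t‖ ^ 2 ≤
        ∑ n ∈ Ico a (a + H), ∑ n' ∈ Ico a (a + H), (((tb b s).card : ℝ) ^ 2 *
          (2 * (‖∑ t ∈ B0 d M, F n n' t‖ ^ 2 / ((M : ℝ) ^ d) ^ 2) + 2 * y ^ 2)) :=
      Finset.sum_le_sum fun n _ => Finset.sum_le_sum fun n' _ => h1 n n'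
    refine h4.trans ?_
    have h5 : ∑ n ∈ Ico a (a + H), ∑ n' ∈ Ico a (a + H), (((tb b s).card : ℝ) ^ 2 *
          (2 * (‖∑ t ∈ B0 d M, F n n' t‖ ^ 2 / ((M : ℝ) ^ d) ^ 2) + 2 * y ^ 2)) =
        ((tb b s).card : ℝ) ^ 2 * (2 * ∑ n ∈ Ico a (a + H), ∑ n' ∈ Ico a (a + H),
          ‖∑ t ∈ B0 d M, F n n' t‖ ^ 2 / ((M : ℝ) ^ d) ^ 2 + 2 * (H : ℝ) ^ 2 * y ^ 2) := by
      simp only [← Finset.mul_sum, Finset.sum_add_distrib, Finset.sum_const, Nat.card_Ico, add_tsub_cancel_left,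
        nsmul_eq_mul]
      ring
    rw [h5]
    apply mul_le_mul_of_nonneg_left _ (by positivity)
    apply add_le_add _ le_rfl
    have h6 := FGA3 M H hM hMH (fun n n' => ‖∑ t ∈ B0 d M, F n n' t‖ ^ 2 / ((M : ℝ) ^ d) ^ 2)
      (fun n n' => by positivity)
      (fun n m n' m' hn hn' => by
        have : ∑ t ∈ B0 d M, F n n' t = ∑ t ∈ B0 d M, F m m' t :=
          Finset.sum_congr rfl fun t _ => hF n m n' m' t t hn hn' (fun j => by simp)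
        simp only [this]) a
    have h7 : 4 * (H : ℝ) ^ 2 / (M : ℝ) ^ 2 * ∑ n ∈ Ico (0 : ℤ) M, ∑ n' ∈ Ico (0 : ℤ) M,
        ‖∑ t ∈ B0 d M, F n n' t‖ ^ 2 / ((M : ℝ) ^ d) ^ 2 = 4 * (H : ℝ) ^ 2 * ms M F := by
      rw [ms]
      simp only [← Finset.sum_div]
      field_simp
    rw [h7] at h6
    linarith
  have h8 : Real.sqrt (∑ n ∈ Ico a (a + H), ∑ n' ∈ Ico a (a + H), ‖∑ t ∈ tb b s, F n n' t‖ ^ 2) ≤
      Real.sqrt ((3 * (tb b s).card * H * (Real.sqrt (ms M F) + y)) ^ 2) := by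
    apply Real.sqrt_le_sqrt
    refine h3.trans ?_
    have h9 : Real.sqrt (ms M F) ^ 2 = ms M F := Real.sq_sqrt hms
    have h10 : 0 ≤ Real.sqrt (ms M F) := Real.sqrt_nonneg _
    have h11 : (3 * (tb b s).card * H * (Real.sqrt (ms M F) + y)) ^ 2 =
        ((tb b s).card : ℝ) ^ 2 * (9 * (H : ℝ) ^ 2 * (ms M F + 2 * Real.sqrt (ms M F) * y + y ^ 2)) := by
      rw [← h9]
      rw [Real.sqrt_sq h10]
      ring
    rw [h11]
    apply mul_le_mul_of_nonneg_left _ (by positivity)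
    have h12 : 0 ≤ (H : ℝ) ^ 2 * ms M F := by positivity
    have h13 : 0 ≤ (H : ℝ) ^ 2 * (Real.sqrt (ms M F) * y) := by positivity
    have h14 : 0 ≤ (H : ℝ) ^ 2 * y ^ 2 := by positivity
    nlinarith
  refine h8.trans ?_
  rw [Real.sqrt_sq (by positivity)]

end Pool.Agent.HUP
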