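import Pool.Agent.Lib.HUP.FGA7

/-!
# Project HUP, chunk FGA8 (M): factorisation of the product of the components
-/

open Finset Polynomial

namespace Pool.Agent.HUP

open Pool.Agent.Lib.H68T Pool.Agent.Lib.H18Q Pool.Agent.Lib.H59P Pool.Agent.Lib.H24P

/-- Proof. `gL (κ i).primeFactors = gL (filter (· ∣ R)) * gL (filter (¬ · ∣ R))` (`Finset.prod_filter_mul_prod_filter_not`), `gL` is real, so
`conj` of it is itself; `∏_i ∏_{l ∈ (κ i).primeFactors, ¬ l ∣ R} G l i = ∏_{l ∈ Po R κ κ'} ∏_{i, l ∣ κ i} G l i` (`Finset.prod_comm'`; `κ i ≠ 0`, the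
elements of `Po` are primes, so `l ∣ κ i ↔ l ∈ (κ i).primeFactors`; compare `KB6_fac` in `HUK/KB6.lean`), the same for `κ'`. -/
theorem FGA8_fac {k d : ℕ} (c : Fin k → Fin d → ℤ) (P : Fin k → ℤ[X]) (β : Fin k → ℤ) (p : Fin k → Ch) (R : ℕ)
    (κ κ' : Fin k → ℕ) (hκ : ∀ i, κ i ≠ 0) (hκ' : ∀ i, κ' i ≠ 0) (n n' : ℤ) (t : Fin d → ℤ) :
    F2 c P β p κ κ' n n' t = FR c P β p R κ κ' n n' t *
      ∏ l ∈ Po R κ κ', Fl c P β (univ.filter fun i => l ∣ κ i) (univ.filter fun i => l ∣ κ' i) l n n' t := by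
  have hR1 : ∀ (κ : ℕ) (m : ℤ), gL κ.primeFactors m =
      gL (κ.primeFactors.filter fun l => l ∣ R) m * gL (κ.primeFactors.filter fun l => ¬ l ∣ R) m := by
    intro κ m
    unfold gL
    exact (Finset.prod_filter_mul_prod_filter_not _ _ _).symm
  have hcj : ∀ (L : Finset ℕ) (m : ℤ), (starRingEnd ℂ) (gL L m) = gL L m := by
    intro L m
    unfold gL
    rw [map_prod]
    exact Finset.prod_congr rfl fun l _ => Complex.conj_ofReal _
  have h1 : F2 c P β p κ κ' n n' t = FR c P β p R κ κ' n n' t *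
      ((∏ i, gL ((κ i).primeFactors.filter fun l => ¬ l ∣ R) (yy c P β i n t)) *
        ∏ i, gL ((κ' i).primeFactors.filter fun l => ¬ l ∣ R) (yy c P β i n' t)) := by
    unfold F2 FR ph
    rw [map_prod, ← Finset.prod_mul_distrib, ← Finset.prod_mul_distrib, ← Finset.prod_mul_distrib]
    refine Finset.prod_congr rfl fun i _ => ?_
    rw [hR1 (κ i), hR1 (κ' i)]
    simp only [map_mul, hcj]
    ring
  rw [h1]
  congr 1
  unfold Fl
  rw [Finset.prod_mul_distrib]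
  have h2 : ∀ (μ : Fin k → ℕ) (m : ℤ), (∀ i, μ i ≠ 0) → (∀ i, (μ i).primeFactors.filter (fun l => ¬ l ∣ R) ⊆ Po R κ κ') →
      ∏ i, gL ((μ i).primeFactors.filter fun l => ¬ l ∣ R) (yy c P β i m t) =
      ∏ l ∈ Po R κ κ', ∏ i ∈ univ.filter (fun i => l ∣ μ i), ((gl l (yy c P β i m t) : ℝ) : ℂ) := by
    intro μ m hμ hμP
    unfold gL
    refine Finset.prod_comm' fun i l => ?_
    constructor
    · rintro ⟨_, h3⟩
      have h4 := hμP i h3
      rw [Finset.mem_filter] at h3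
      exact ⟨Finset.mem_filter.mpr ⟨Finset.mem_univ _, Nat.dvd_of_mem_primeFactors h3.1⟩, h4⟩
    · rintro ⟨h3, h4⟩
      rw [Finset.mem_filter] at h3
      unfold Po at h4
      rw [Finset.mem_filter, Finset.mem_biUnion] at h4
      obtain ⟨⟨j, _, hj⟩, h5⟩ := h4
      have h6 : l.Prime := by
        rcases Finset.mem_union.mp hj with h | h
        · exact Nat.prime_of_mem_primeFactors h
        · exact Nat.prime_of_mem_primeFactors h
      exact ⟨Finset.mem_univ _, Finset.mem_filter.mpr ⟨Nat.mem_primeFactors.mpr ⟨h6, h3.2, hμ i⟩, h5⟩⟩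
  rw [h2 κ n hκ, h2 κ' n' hκ']
  · intro i l hl
    rw [Finset.mem_filter] at hl
    unfold Po
    rw [Finset.mem_filter, Finset.mem_biUnion]
    exact ⟨⟨i, Finset.mem_univ _, Finset.mem_union_right _ hl.1⟩, hl.2⟩
  · intro i l hl
    rw [Finset.mem_filter] at hl
    unfold Po
    rw [Finset.mem_filter, Finset.mem_biUnion]
    exact ⟨⟨i, Finset.mem_univ _, Finset.mem_union_left _ hl.1⟩, hl.2⟩

/-- Clear (`l` prime, `¬ l ∣ R`: coprime; `l` divides some `κ i` or `κ' i`). -/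
theorem FGA8_po {k : ℕ} (R : ℕ) (κ κ' : Fin k → ℕ) (l : ℕ) (hl : l ∈ Po R κ κ') :
    l.Prime ∧ Nat.Coprime l R ∧ 1 ≤ (univ.filter fun i => l ∣ κ i).card + (univ.filter fun i => l ∣ κ' i).card := by
  unfold Po at hl
  rw [Finset.mem_filter, Finset.mem_biUnion] at hl
  obtain ⟨⟨j, _, hj⟩, h5⟩ := hl
  rcases Finset.mem_union.mp hj with h | h
  · have h6 := Nat.prime_of_mem_primeFactors h
    refine ⟨h6, (Nat.Prime.coprime_iff_not_dvd h6).mpr h5, ?_⟩
    have h7 : 0 < (univ.filter fun i => l ∣ κ i).card :=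
      Finset.card_pos.mpr ⟨j, Finset.mem_filter.mpr ⟨Finset.mem_univ _, Nat.dvd_of_mem_primeFactors h⟩⟩
    omega
  · have h6 := Nat.prime_of_mem_primeFactors h
    refine ⟨h6, (Nat.Prime.coprime_iff_not_dvd h6).mpr h5, ?_⟩
    have h7 : 0 < (univ.filter fun i => l ∣ κ' i).card :=
      Finset.card_pos.mpr ⟨j, Finset.mem_filter.mpr ⟨Finset.mem_univ _, Nat.dvd_of_mem_primeFactors h⟩⟩
    omega

/-- A product of distinct primes is squarefree. -/
theorem fga8_sqf (S : Finset ℕ) (hS : ∀ l ∈ S, l.Prime) : Squarefree (∏ l ∈ S, l) := by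
  classical
  induction S using Finset.induction_on with
  | empty => exact squarefree_one
  | insert a S ha ih =>
    rw [Finset.prod_insert ha, Nat.squarefree_mul_iff]
    refine ⟨?_, (hS a (Finset.mem_insert_self _ _)).squarefree, ih fun l hl => hS l (Finset.mem_insert_of_mem hl)⟩
    refine Nat.Coprime.prod_right fun l hl => ?_
    refine (Nat.coprime_primes (hS a (Finset.mem_insert_self _ _)) (hS l (Finset.mem_insert_of_mem hl))).mpr ?_
    rintro rfl
    exact ha hl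

theorem FGA8_pos {k : ℕ} (R : ℕ) (κ κ' : Fin k → ℕ) : 1 ≤ mo R κ κ' ∧ (mo R κ κ').primeFactors = Po R κ κ' ∧
    Squarefree (mo R κ κ') := by
  have hp : ∀ l ∈ Po R κ κ', l.Prime := fun l hl => (FGA8_po R κ κ' l hl).1
  unfold mo
  refine ⟨Finset.prod_pos fun l hl => (hp l hl).pos, Nat.primeFactors_prod hp, ?_⟩
  exact fga8_sqf _ hp

/-- Proof. `κ i` is squarefree and each of its primes divides `R` or `mo`: `κ i = (∏ of the primes dividing R) * (∏ of the others)`, the first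
product divides `R`, the second `mo`. `r i` divides `R` and is coprime to `κ i`, so `r i * κ i ∣ R * mo`; `Finset.lcm_dvd`. -/
theorem FGA8_dvd {k : ℕ} (r : Fin k → ℕ) (R : ℕ) (hR : R = univ.lcm r) (κ κ' : Fin k → ℕ) (h1 : ∀ i, Squarefree (κ i))
    (h2 : ∀ i, Nat.Coprime (κ i) (r i)) (h1' : ∀ i, Squarefree (κ' i)) :
    (∀ i, κ i ∣ R * mo R κ κ') ∧ (∀ i, κ' i ∣ R * mo R κ κ') ∧ univ.lcm (fun i => r i * κ i) ∣ R * mo R κ κ' := by
  have hR2 : ∀ i, r i ∣ R := fun i => hR ▸ Finset.dvd_lcm (Finset.mem_univ i)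
  have key : ∀ (μ : ℕ) (ρ : ℕ), Squarefree μ → (μ.primeFactors.filter (fun l => ¬ l ∣ R) ⊆ Po R κ κ') → ρ ∣ R →
      Nat.Coprime μ ρ → ρ * μ ∣ R * mo R κ κ' := by
    intro μ ρ hμ hμP hρ hμρ
    have h3 : μ = (∏ l ∈ μ.primeFactors.filter (fun l => l ∣ R), l) * ∏ l ∈ μ.primeFactors.filter (fun l => ¬ l ∣ R), l := by
      rw [Finset.prod_filter_mul_prod_filter_not, Nat.prod_primeFactors_of_squarefree hμ]
    have h4 : (∏ l ∈ μ.primeFactors.filter (fun l => l ∣ R), l) ∣ R := by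
      refine Finset.prod_primes_dvd R (fun l hl => ?_) (fun l hl => (Finset.mem_filter.mp hl).2)
      exact (Nat.prime_of_mem_primeFactors (Finset.mem_filter.mp hl).1).prime
    have h5 : (∏ l ∈ μ.primeFactors.filter (fun l => ¬ l ∣ R), l) ∣ mo R κ κ' := by
      unfold mo
      exact Finset.prod_dvd_prod_of_subset _ _ _ hμP
    have h6 : Nat.Coprime ρ (∏ l ∈ μ.primeFactors.filter (fun l => l ∣ R), l) := by
      refine Nat.Coprime.symm (Nat.Coprime.coprime_dvd_left ?_ hμρ)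
      exact ⟨_, h3⟩
    have h7 : ρ * (∏ l ∈ μ.primeFactors.filter (fun l => l ∣ R), l) ∣ R := h6.mul_dvd_of_dvd_of_dvd hρ h4
    have h8 := mul_dvd_mul h7 h5
    rw [mul_assoc, ← h3] at h8
    exact h8
  have hs : ∀ i, (κ i).primeFactors.filter (fun l => ¬ l ∣ R) ⊆ Po R κ κ' := by
    intro i l hl
    rw [Finset.mem_filter] at hl
    unfold Po
    rw [Finset.mem_filter, Finset.mem_biUnion]
    exact ⟨⟨i, Finset.mem_univ _, Finset.mem_union_left _ hl.1⟩, hl.2⟩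
  have hs' : ∀ i, (κ' i).primeFactors.filter (fun l => ¬ l ∣ R) ⊆ Po R κ κ' := by
    intro i l hl
    rw [Finset.mem_filter] at hl
    unfold Po
    rw [Finset.mem_filter, Finset.mem_biUnion]
    exact ⟨⟨i, Finset.mem_univ _, Finset.mem_union_right _ hl.1⟩, hl.2⟩
  refine ⟨fun i => ?_, fun i => ?_, Finset.lcm_dvd fun i _ => key (κ i) (r i) (h1 i) (hs i) (hR2 i) (h2 i)⟩
  · have h3 := key (κ i) 1 (h1 i) (hs i) (one_dvd _) (Nat.coprime_one_right _)
    rwa [one_mul] at h3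
  · have h3 := key (κ' i) 1 (h1' i) (hs' i) (one_dvd _) (Nat.coprime_one_right _)
    rwa [one_mul] at h3

/-- Proof. `R ∣ ∏ r i`, and `mo` (a product of distinct primes, each dividing some `κ i` or `κ' i`) divides `∏ κ i * κ' i`. -/
theorem FGA8_le {k : ℕ} (r : Fin k → ℕ) (R : ℕ) (hR : R = univ.lcm r) (hr : ∀ i, 1 ≤ r i) (κ κ' : Fin k → ℕ)
    (h1 : ∀ i, 1 ≤ κ i) (h1' : ∀ i, 1 ≤ κ' i) : R * mo R κ κ' ≤ ∏ i, r i * κ i * κ' i := by
  have h3 : R ≤ ∏ i, r i := by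
    refine Nat.le_of_dvd (Finset.prod_pos fun i _ => hr i) ?_
    rw [hR]
    exact Finset.lcm_dvd fun i hi => Finset.dvd_prod_of_mem r hi
  have h4 : mo R κ κ' ≤ ∏ i, κ i * κ' i := by
    refine Nat.le_of_dvd (Finset.prod_pos fun i _ => Nat.mul_pos (h1 i) (h1' i)) ?_
    unfold mo
    refine Finset.prod_primes_dvd _ (fun l hl => (FGA8_po R κ κ' l hl).1.prime) fun l hl => ?_
    unfold Po at hl
    rw [Finset.mem_filter, Finset.mem_biUnion] at hl
    obtain ⟨⟨j, _, hj⟩, _⟩ := hl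
    refine dvd_trans ?_ (Finset.dvd_prod_of_mem (fun i => κ i * κ' i) (Finset.mem_univ j))
    rcases Finset.mem_union.mp hj with h | h
    · exact Dvd.dvd.mul_right (Nat.dvd_of_mem_primeFactors h) _
    · exact Dvd.dvd.mul_left (Nat.dvd_of_mem_primeFactors h) _
  have h5 : ∏ i, r i * κ i * κ' i = (∏ i, r i) * ∏ i, κ i * κ' i := by
    rw [← Finset.prod_mul_distrib]
    exact Finset.prod_congr rfl fun i _ => by ring
  rw [h5]
  exact Nat.mul_le_mul h3 h4

end Pool.Agent.HUP
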