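import Pool.Agent.Lib.HUP.FGA6
import Pool.Agent.Lib.HUP.FGA8

/-!
# Project HUP, chunk FGA9 (M): the complete mean for one pair
-/

open Finset Polynomial

namespace Pool.Agent.HUP

open Pool.Agent.Lib.H68T Pool.Agent.Lib.H18Q Pool.Agent.Lib.H59P Pool.Agent.Lib.H24P

theorem fga9_dvd (κ R : ℕ) : ∏ l ∈ κ.primeFactors.filter (fun l => l ∣ R), l ∣ R := by
  refine Finset.prod_primes_dvd R (fun l hl => ?_) fun l hl => (Finset.mem_filter.1 hl).2
  exact (Nat.prime_of_mem_primeFactors (Finset.mem_filter.1 hl).1).prime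

theorem fga9_pz (κ R : ℕ) : Pz R (gL (κ.primeFactors.filter fun l => l ∣ R)) :=
  FGA7_up _ R (fga9_dvd κ R) _ (FGA7_gLper _)

theorem fga9_le (κ R : ℕ) (m : ℤ) : ‖gL (κ.primeFactors.filter fun l => l ∣ R) m‖ ≤ 1 :=
  FGA7_gLle _ (fun l hl => Nat.prime_of_mem_primeFactors (Finset.mem_filter.1 hl).1) m

theorem fga9_cj {k : ℕ} (p : Fin k → Ch) (R : ℕ) (hR : R = univ.lcm (fun i => (p i).1)) (i : Fin k) : Pz R (cj (p i)) := by
  refine FGA7_up _ R ?_ _ (FGA7_cjper (p i))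
  rw [hR]
  exact Finset.dvd_lcm (Finset.mem_univ i)

/-- The factor at `R` is periodic modulo `R` (each `r i` divides `R`, and so does a product of distinct primes dividing `R`). -/
theorem FGA9_FR {k d : ℕ} (c : Fin k → Fin d → ℤ) (P : Fin k → ℤ[X]) (β : Fin k → ℤ) (p : Fin k → Ch) (R : ℕ)
    (hR : R = univ.lcm (fun i => (p i).1)) (κ κ' : Fin k → ℕ) : Pp R (FR c P β p R κ κ') := by
  intro n m n' m' t t' hn hn' ht
  unfold FR
  refine Finset.prod_congr rfl fun i _ => ?_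
  have h1 := FGA7_yy c P β i R n m t t' hn ht
  have h2 := FGA7_yy c P β i R n' m' t t' hn' ht
  rw [fga9_cj p R hR i _ _ h1, fga9_cj p R hR i _ _ h2, fga9_pz (κ i) R _ _ h1, fga9_pz (κ' i) R _ _ h2]

/-- Proof. `ChB` with `K i = ∏ l ∈ (κ i).primeFactors.filter (· ∣ R), l` (it divides `R`: distinct primes dividing `R`,
`Finset.prod_primes_dvd`; coprime to `r i` because `κ i` is), `u i = gL (that set)` (`FGA7_gLper`, `FGA7_gLle`),
`g' i m = conj (cj (p i) m * gL (((κ' i).primeFactors.filter (· ∣ R))) m)`. -/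
theorem FGA9_R {k d : ℕ} {c : Fin k → Fin d → ℤ} {D : Fin k → ℕ} {a : Fin k → ℤ} (hC : ChB c D a) :
    ∃ C c0 : ℝ, 0 < C ∧ 0 < c0 ∧ c0 ≤ 1 ∧ ∀ P : Fin k → ℤ[X], HasD D a P → ∀ (β : Fin k → ℤ) (p : Fin k → Ch),
    (∀ i, 1 ≤ (p i).1 ∧ (p i).2.IsPrimitive) → ∀ R : ℕ, R = univ.lcm (fun i => (p i).1) → ∀ κ κ' : Fin k → ℕ,
    (∀ i, Nat.Coprime (κ i) (p i).1) → ms R (FR c P β p R κ κ') ≤ C * (R : ℝ) ^ (-c0) := by
  obtain ⟨C, c0, hC0, hc0, hc1, H⟩ := hC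
  refine ⟨C, c0, hC0, hc0, hc1, ?_⟩
  intro P hP β p hp R hR κ κ' hcop
  refine H P hP β p hp R hR (fun i => ∏ l ∈ (κ i).primeFactors.filter (fun l => l ∣ R), l)
    (fun i => gL ((κ i).primeFactors.filter fun l => l ∣ R))
    (fun i m => (starRingEnd ℂ) (cj (p i) m * gL ((κ' i).primeFactors.filter fun l => l ∣ R) m)) ?_ ?_ ?_ ?_ ?_
  · intro i
    refine ⟨?_, fga9_dvd (κ i) R, ?_⟩
    · exact Nat.one_le_iff_ne_zero.2 (Finset.prod_ne_zero_iff.2 fun l hl =>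
        (Nat.prime_of_mem_primeFactors (Finset.mem_filter.1 hl).1).ne_zero)
    · refine Nat.Coprime.prod_left fun l hl => ?_
      exact Nat.Coprime.coprime_dvd_left (Nat.dvd_of_mem_primeFactors (Finset.mem_filter.1 hl).1) (hcop i)
  · exact fun i => FGA7_gLper _
  · exact fun i m => fga9_le (κ i) R m
  · intro i m m' h
    show (starRingEnd ℂ) (cj (p i) m * gL ((κ' i).primeFactors.filter fun l => l ∣ R) m) =
      (starRingEnd ℂ) (cj (p i) m' * gL ((κ' i).primeFactors.filter fun l => l ∣ R) m')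
    rw [fga9_cj p R hR i _ _ h, fga9_pz (κ' i) R _ _ h]
  · intro i m
    show ‖(starRingEnd ℂ) (cj (p i) m * gL ((κ' i).primeFactors.filter fun l => l ∣ R) m)‖ ≤ 1
    rw [RCLike.norm_conj, norm_mul]
    exact mul_le_one₀ (FGA7_cjle (p i) m) (norm_nonneg _) (fga9_le (κ' i) R m)

/-- Proof. `FGA8_fac`, `FGA6_prod` (`FGA9_FR`, `FGA7_Fl`, `FGA8_po`): `ms (R * mo) F2 = ms R FR * ∏_{l ∈ Po} ms l (Fl ..)`, `FGA9_R`, `LocB`:
`∏_{l ∈ Po} CL / l³ = CL^(card Po) / mo³`, `CL ≤ 2^b`, and `2^(card Po) = (mo).divisors.card` (squarefree, `FGA8_pos`; only `≤` is needed; compare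
the end of `KB7_av` in `HUK/KB7.lean`). -/
theorem FGA9 {k d : ℕ} {c : Fin k → Fin d → ℤ} {D : Fin k → ℕ} {a : Fin k → ℤ} (hL : LocB c D a) (hC : ChB c D a) :
    ∃ (b : ℕ) (C c0 : ℝ), 0 < C ∧ 0 < c0 ∧ c0 ≤ 1 ∧ ∀ P : Fin k → ℤ[X], HasD D a P → ∀ (β : Fin k → ℤ)
    (p : Fin k → Ch) (Q : ℕ), (∀ i, p i ∈ PC Q) → ∀ R : ℕ, R = univ.lcm (fun i => (p i).1) → ∀ κ κ' : Fin k → ℕ,
    (∀ i, κ i ∈ KS Q (p i).1) → (∀ i, κ' i ∈ KS Q (p i).1) →
    Pp (R * mo R κ κ') (F2 c P β p κ κ') ∧ ms (R * mo R κ κ') (F2 c P β p κ κ') ≤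
      C * ((R : ℝ) ^ (-c0) * (((mo R κ κ').divisors.card : ℝ) ^ b / (mo R κ κ' : ℝ) ^ 3)) := by
  obtain ⟨CL, hCL, HL⟩ := hL
  obtain ⟨C, c0, hC0, hc0, hc1, HR⟩ := FGA9_R hC
  obtain ⟨b, hb⟩ := pow_unbounded_of_one_lt CL (by norm_num : (1 : ℝ) < 2)
  refine ⟨b, C, c0, hC0, hc0, hc1, ?_⟩
  intro P hP β p Q hp R hR κ κ' hκ hκ'
  have hκ0 : ∀ i, κ i ≠ 0 := fun i => by
    have h1 := (CA_mem_KS.1 (hκ i)).1.1
    omega
  have hκ0' : ∀ i, κ' i ≠ 0 := fun i => by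
    have h1 := (CA_mem_KS.1 (hκ' i)).1.1
    omega
  have hcop : ∀ i, Nat.Coprime (κ i) (p i).1 := fun i => (CA_mem_KS.1 (hκ i)).2.2
  have hpp : ∀ i, 1 ≤ (p i).1 ∧ (p i).2.IsPrimitive := fun i => ⟨(mem_PC.1 (hp i)).1, (mem_PC.1 (hp i)).2.2⟩
  have hR1 : 1 ≤ R := by
    rw [Nat.one_le_iff_ne_zero, hR, Ne, Finset.lcm_eq_zero_iff]
    rintro ⟨j, -, hj⟩
    have h2 := (hpp j).1
    omega
  have hF2 : F2 c P β p κ κ' = fun n n' t => FR c P β p R κ κ' n n' t *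
      ∏ l ∈ Po R κ κ', Fl c P β (univ.filter fun i => l ∣ κ i) (univ.filter fun i => l ∣ κ' i) l n n' t := by
    funext n n' t
    exact FGA8_fac c P β p R κ κ' hκ0 hκ0' n n' t
  have hpr := FGA6_prod R hR1 (Po R κ κ') (fun l hl => (FGA8_po R κ κ' l hl).1)
    (fun l hl => (FGA8_po R κ κ' l hl).2.1) (FR c P β p R κ κ') (FGA9_FR c P β p R hR κ κ')
    (fun l => Fl c P β (univ.filter fun i => l ∣ κ i) (univ.filter fun i => l ∣ κ' i) l) (fun l _ => FGA7_Fl c P β _ _ l)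
  rw [hF2]
  refine ⟨hpr.1, ?_⟩
  have e1 : ms (R * mo R κ κ') (fun n n' t => FR c P β p R κ κ' n n' t *
      ∏ l ∈ Po R κ κ', Fl c P β (univ.filter fun i => l ∣ κ i) (univ.filter fun i => l ∣ κ' i) l n n' t) =
      ms R (FR c P β p R κ κ') * ∏ l ∈ Po R κ κ', ms l (Fl c P β (univ.filter fun i => l ∣ κ i) (univ.filter fun i => l ∣ κ' i) l) :=
    hpr.2
  rw [e1]
  obtain ⟨hm1, hmf, hms⟩ := FGA8_pos R κ κ'
  have h5 : ∏ l ∈ Po R κ κ', ms l (Fl c P β (univ.filter fun i => l ∣ κ i) (univ.filter fun i => l ∣ κ' i) l) ≤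
      ((mo R κ κ').divisors.card : ℝ) ^ b / (mo R κ κ' : ℝ) ^ 3 := by
    have h6 : ∏ l ∈ Po R κ κ', ms l (Fl c P β (univ.filter fun i => l ∣ κ i) (univ.filter fun i => l ∣ κ' i) l) ≤
        ∏ l ∈ Po R κ κ', (CL / (l : ℝ) ^ 3) := by
      refine Finset.prod_le_prod (fun _ _ => FGA5_nn _ _) fun l hl => ?_
      obtain ⟨hl1, -, hl3⟩ := FGA8_po R κ κ' l hl
      exact HL P hP β l hl1 _ _ hl3
    refine h6.trans ?_
    rw [Finset.prod_div_distrib, Finset.prod_const, Finset.prod_pow]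
    have h7 : (∏ l ∈ Po R κ κ', (l : ℝ)) = (mo R κ κ' : ℝ) := by
      rw [mo, Nat.cast_prod]
    rw [h7]
    refine div_le_div_of_nonneg_right ?_ (by positivity)
    have h8 : (mo R κ κ').divisors.card = 2 ^ (Po R κ κ').card := by
      rw [Nat.card_divisors (by omega), hmf, ← Finset.prod_const]
      refine Finset.prod_congr rfl fun l hl => ?_
      have h9 : (mo R κ κ').factorization l ≤ 1 := Squarefree.natFactorization_le_one l hms
      have h10 : 1 ≤ (mo R κ κ').factorization l := by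
        rw [← hmf] at hl
        have := Nat.support_factorization (mo R κ κ')
        exact Nat.one_le_iff_ne_zero.2 (Finsupp.mem_support_iff.1 (by rw [this]; exact hl))
      omega
    rw [h8]
    push_cast
    rw [← pow_mul, mul_comm (Po R κ κ').card, pow_mul]
    exact pow_le_pow_left₀ (by linarith) hb.le _
  have h12 := HR P hP β p hpp R hR κ κ' hcop
  have h14 : 0 ≤ ∏ l ∈ Po R κ κ', ms l (Fl c P β (univ.filter fun i => l ∣ κ i) (univ.filter fun i => l ∣ κ' i) l) :=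
    Finset.prod_nonneg fun _ _ => FGA5_nn _ _
  rw [← mul_assoc]
  exact mul_le_mul h12 h5 h14 (by positivity)

end Pool.Agent.HUP
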