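import Pool.Agent.Lib.HUP.FGA1
import Pool.Agent.Lib.HUP.FGA4
import Pool.Agent.Lib.HUP.FGA9
import Pool.Agent.Lib.HUP.FGA10

/-!
# Project HUP, chunk FGA11 (M): the large sieve without the constants of the components
-/

open Finset Polynomial

namespace Pool.Agent.HUP

open Pool.Agent.Lib.H68T Pool.Agent.Lib.H18Q Pool.Agent.Lib.H59P Pool.Agent.Lib.H24P

theorem fga11_KS {Q r κ : ℕ} (h : κ ∈ KS Q r) : 1 ≤ κ ∧ κ ≤ Q / r := by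
  classical
  unfold KS at h
  rw [mem_filter, mem_Icc] at h
  exact h.1

theorem fga11_KScard (Q r : ℕ) : (KS Q r).card ≤ Q := by
  classical
  unfold KS
  refine (card_filter_le _ _).trans ?_
  rw [Nat.card_Icc]
  have := Nat.div_le_self Q r
  omega

theorem fga11_num (Q k W : ℕ) (ρ : ℝ) (hQ : 1 ≤ Q) (hW : 1 ≤ W) (hWQ : W ≤ Q ^ k) (hρ1 : ρ ≤ 1) (M : ℕ)
    (hM : M ≤ Q ^ (2 * k)) : (M : ℝ) / ((Q ^ (5 * k) : ℕ) : ℝ) ≤ (W : ℝ) ^ (-ρ) / ((Q : ℝ) ^ k) ^ 2 := by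
  have hQ0 : (0 : ℝ) < Q := by exact_mod_cast hQ
  have hq : (0 : ℝ) < (Q : ℝ) ^ k := by positivity
  have hW1 : (1 : ℝ) ≤ W := by exact_mod_cast hW
  have hW0 : (0 : ℝ) < W := by linarith
  have h1 : ((Q : ℝ) ^ k)⁻¹ ≤ (W : ℝ) ^ (-ρ) := by
    have h2 : (W : ℝ) ≤ (Q : ℝ) ^ k := by exact_mod_cast hWQ
    calc ((Q : ℝ) ^ k)⁻¹ ≤ (W : ℝ)⁻¹ := inv_anti₀ hW0 h2
      _ = (W : ℝ) ^ (-1 : ℝ) := (Real.rpow_neg_one _).symm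
      _ ≤ (W : ℝ) ^ (-ρ) := Real.rpow_le_rpow_of_exponent_le hW1 (by linarith)
  have h3 : (M : ℝ) ≤ ((Q : ℝ) ^ k) ^ 2 := by
    rw [← pow_mul, mul_comm k 2]
    exact_mod_cast hM
  have h4 : ((Q ^ (5 * k) : ℕ) : ℝ) = ((Q : ℝ) ^ k) ^ 5 := by
    push_cast
    rw [← pow_mul, mul_comm k 5]
  rw [h4]
  calc (M : ℝ) / ((Q : ℝ) ^ k) ^ 5 ≤ ((Q : ℝ) ^ k) ^ 2 / ((Q : ℝ) ^ k) ^ 5 := by gcongr
    _ = ((Q : ℝ) ^ k)⁻¹ / ((Q : ℝ) ^ k) ^ 2 := by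
        field_simp
    _ ≤ (W : ℝ) ^ (-ρ) / ((Q : ℝ) ^ k) ^ 2 := by gcongr

/-- Proof. If `T = ∅` the left side is `0`. Let `T` be nonempty; `W < univ.lcm (..) ≤ ∏ (p i).1 * κ i ≤ Q^k` (`κ i ≤ Q / r i`) for `κ ∈ T`. `FGA1` with
`Φ κ n t = ∏ i, ph (p i) (κ i) (yy c P β i n t)`; the inner function is `F2 c P β p κ κ' n n' t`. For every pair `FGA4` with `M = R * mo R κ κ'`,
`L = Q^(5k)`: `M ≤ ∏ r_i κ_i κ'_i ≤ Q^(2k)` (`FGA8_le`), and `ms` from `FGA9`, `√(C x) = √C √x`. Sum over the pairs: `FGA10`; the other term: at most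
`(Q^k)²` pairs, each `3 card H 2 d Q^(2k) / Q^(5k)`, total `≤ 6 d card H Q^(-k) ≤ 6 d card H W^(-1) ≤ 6 d card H W^(-ρ)`.
`C = 3 (√C9 C10 + 2 d) + 1`. -/
theorem FGA11 {k d : ℕ} {c : Fin k → Fin d → ℤ} {D : Fin k → ℕ} {a : Fin k → ℤ} (hL : LocB c D a) (hC : ChB c D a) :
    ∃ C ρ : ℝ, 0 < C ∧ 0 < ρ ∧ ρ ≤ 1 ∧ ∀ P : Fin k → ℤ[X], HasD D a P → ∀ (β : Fin k → ℤ) (Q : ℕ), 1 ≤ Q →
    ∀ p : Fin k → Ch, (∀ i, p i ∈ PC Q) → ∀ T : Finset (Fin k → ℕ),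
    T ⊆ Fintype.piFinset (fun i => KS Q (p i).1) → ∀ W : ℕ, 1 ≤ W →
    (∀ κ ∈ T, W < univ.lcm (fun i => (p i).1 * κ i)) → ∀ (b : Fin d → ℤ) (s : Fin d → ℕ), (∀ j, Q ^ (5 * k) ≤ s j) →
    ∀ a0 H : ℕ, Q ^ (5 * k) ≤ H → ∀ w : ℕ → ℂ,
    ∑ t ∈ tb b s, ‖∑ n ∈ Ico a0 (a0 + H), w n * ∑ κ ∈ T, ∏ i, ph (p i) (κ i) (yy c P β i n t)‖ ^ 2 ≤
      C * (tb b s).card * (H * ∑ n ∈ Ico a0 (a0 + H), ‖w n‖ ^ 2) * (W : ℝ) ^ (-ρ) := by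
  classical
  obtain ⟨b9, C9, c0, hC9, hc0, hc1, h9⟩ := FGA9 hL hC
  obtain ⟨C10, ρ, hC10, hρ0, hρ1, h10⟩ := FGA10 k b9 c0 hc0 hc1
  refine ⟨3 * (Real.sqrt C9 * C10 + 2 * d) + 1, ρ, by positivity, hρ0, hρ1, ?_⟩
  intro P hP β Q hQ p hp T hT W hW hTW b s hs a0 H hH w
  obtain ⟨R, hR⟩ : ∃ R : ℕ, R = univ.lcm (fun i => (p i).1) := ⟨_, rfl⟩
  have hp1 : ∀ i, 1 ≤ (p i).1 := fun i => (mem_PC.1 (hp i)).1
  have hTK : ∀ κ ∈ T, ∀ i, κ i ∈ KS Q (p i).1 := fun κ hκ i => Fintype.mem_piFinset.1 (hT hκ) i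
  have hrk : ∀ κ ∈ T, ∀ i, (p i).1 * κ i ≤ Q := by
    intro κ hκ i
    exact (Nat.mul_le_mul_left _ (fga11_KS (hTK κ hκ i)).2).trans (Nat.mul_div_le Q _)
  have hk1 : ∀ κ ∈ T, ∀ i, 1 ≤ κ i := fun κ hκ i => (fga11_KS (hTK κ hκ i)).1
  have hkQ : ∀ κ ∈ T, ∀ i, κ i ≤ Q := fun κ hκ i => (fga11_KS (hTK κ hκ i)).2.trans (Nat.div_le_self _ _)
  have hWQ : ∀ κ ∈ T, W ≤ Q ^ k := by
    intro κ hκ
    refine (hTW κ hκ).le.trans ?_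
    have h1 : univ.lcm (fun i => (p i).1 * κ i) ∣ ∏ i, ((p i).1 * κ i) :=
      Finset.lcm_dvd fun i hi => Finset.dvd_prod_of_mem _ hi
    have h2 : 0 < ∏ i, ((p i).1 * κ i) := Finset.prod_pos fun i _ => Nat.mul_pos (hp1 i) (hk1 κ hκ i)
    refine (Nat.le_of_dvd h2 h1).trans ?_
    calc ∏ i, ((p i).1 * κ i) ≤ ∏ _i : Fin k, Q := Finset.prod_le_prod (fun _ _ => Nat.zero_le _) fun i _ => hrk κ hκ i
      _ = Q ^ k := by rw [Finset.prod_const, Finset.card_univ, Fintype.card_fin]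
  have hcardT : (T.card : ℝ) ≤ (Q : ℝ) ^ k := by
    have h1 : T.card ≤ Q ^ k := by
      refine (Finset.card_le_card hT).trans ?_
      rw [Fintype.card_piFinset]
      calc ∏ i, (KS Q (p i).1).card ≤ ∏ _i : Fin k, Q :=
            Finset.prod_le_prod (fun _ _ => Nat.zero_le _) fun i _ => fga11_KScard Q _
        _ = Q ^ k := by rw [Finset.prod_const, Finset.card_univ, Fintype.card_fin]
    exact_mod_cast h1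
  have hQ0 : (0 : ℝ) < Q := by exact_mod_cast hQ
  have hq : (0 : ℝ) < (Q : ℝ) ^ k := by positivity
  have hWp : 0 ≤ (W : ℝ) ^ (-ρ) := by positivity
  -- one pair
  have hpair : ∀ κ ∈ T, ∀ κ' ∈ T,
      Real.sqrt (∑ n ∈ Ico a0 (a0 + H), ∑ n' ∈ Ico a0 (a0 + H), ‖∑ t ∈ tb b s, (∏ i, ph (p i) (κ i) (yy c P β i n t)) *
        (starRingEnd ℂ) (∏ i, ph (p i) (κ' i) (yy c P β i n' t))‖ ^ 2) ≤
      3 * (tb b s).card * H * (Real.sqrt C9 * Real.sqrt ((R : ℝ) ^ (-c0) * (((mo R κ κ').divisors.card : ℝ) ^ b9 /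
        (mo R κ κ' : ℝ) ^ 3)) + 2 * d * ((W : ℝ) ^ (-ρ) / ((Q : ℝ) ^ k) ^ 2)) := by
    intro κ hκ κ' hκ'
    have hM : R * mo R κ κ' ≤ Q ^ (2 * k) := by
      refine (FGA8_le (fun i => (p i).1) R hR hp1 κ κ' (hk1 κ hκ) (hk1 κ' hκ')).trans ?_
      calc ∏ i, (p i).1 * κ i * κ' i ≤ ∏ _i : Fin k, Q ^ 2 := by
            refine Finset.prod_le_prod (fun _ _ => Nat.zero_le _) fun i _ => ?_
            rw [sq]
            exact Nat.mul_le_mul (hrk κ hκ i) (hkQ κ' hκ' i)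
        _ = Q ^ (2 * k) := by rw [Finset.prod_const, Finset.card_univ, Fintype.card_fin, ← pow_mul]
    have hR1 : 1 ≤ R := by
      rw [hR]
      refine Nat.one_le_iff_ne_zero.2 ?_
      rw [Ne, Finset.lcm_eq_zero_iff]
      rintro ⟨i, -, hi⟩
      have := hp1 i
      omega
    have hM1 : 1 ≤ R * mo R κ κ' := Nat.mul_pos hR1 (FGA8_pos R κ κ').1
    have hL1 : 1 ≤ Q ^ (5 * k) := Nat.one_le_pow _ _ hQ
    have hMH : R * mo R κ κ' ≤ H := hM.trans ((Nat.pow_le_pow_right hQ (by omega)).trans hH)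
    obtain ⟨hPp, hms⟩ := h9 P hP β p Q hp R hR κ κ' (hTK κ hκ) (hTK κ' hκ')
    have hb1 : ∀ n n' t, ‖F2 c P β p κ κ' n n' t‖ ≤ 1 := by
      intro n n' t
      unfold F2
      rw [norm_mul, RCLike.norm_conj, norm_prod, norm_prod]
      have e1 : ∏ i, ‖ph (p i) (κ i) (yy c P β i n t)‖ ≤ 1 :=
        Finset.prod_le_one (fun _ _ => norm_nonneg _) fun i _ => FGA7_phle _ _ _
      have e2 : ∏ i, ‖ph (p i) (κ' i) (yy c P β i n' t)‖ ≤ 1 :=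
        Finset.prod_le_one (fun _ _ => norm_nonneg _) fun i _ => FGA7_phle _ _ _
      exact mul_le_one₀ e1 (Finset.prod_nonneg fun _ _ => norm_nonneg _) e2
    have h4 := FGA4 (R * mo R κ κ') (Q ^ (5 * k)) H hM1 hL1 hMH b s hs (F2 c P β p κ κ') hPp hb1 a0
    refine h4.trans ?_
    have h5 : Real.sqrt (ms (R * mo R κ κ') (F2 c P β p κ κ')) ≤ Real.sqrt C9 *
        Real.sqrt ((R : ℝ) ^ (-c0) * (((mo R κ κ').divisors.card : ℝ) ^ b9 / (mo R κ κ' : ℝ) ^ 3)) := by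
      rw [← Real.sqrt_mul hC9.le]
      exact Real.sqrt_le_sqrt hms
    have h6 := fga11_num Q k W ρ hQ hW (hWQ κ hκ) hρ1 (R * mo R κ κ') hM
    have h7 : 2 * (d : ℝ) * (((R * mo R κ κ' : ℕ) : ℝ) / ((Q ^ (5 * k) : ℕ) : ℝ)) ≤
        2 * d * ((W : ℝ) ^ (-ρ) / ((Q : ℝ) ^ k) ^ 2) := mul_le_mul_of_nonneg_left h6 (by positivity)
    exact mul_le_mul_of_nonneg_left (add_le_add h5 h7) (by positivity)
  -- the sum over the pairs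
  have hsum : ∑ κ ∈ T, ∑ κ' ∈ T, Real.sqrt (∑ n ∈ Ico a0 (a0 + H), ∑ n' ∈ Ico a0 (a0 + H),
      ‖∑ t ∈ tb b s, (∏ i, ph (p i) (κ i) (yy c P β i n t)) *
        (starRingEnd ℂ) (∏ i, ph (p i) (κ' i) (yy c P β i n' t))‖ ^ 2) ≤
      3 * (tb b s).card * H * ((Real.sqrt C9 * C10 + 2 * d) * (W : ℝ) ^ (-ρ)) := by
    refine (Finset.sum_le_sum fun κ hκ => Finset.sum_le_sum fun κ' hκ' => hpair κ hκ κ' hκ').trans ?_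
    simp only [← Finset.mul_sum, Finset.sum_add_distrib, Finset.sum_const, nsmul_eq_mul]
    refine mul_le_mul_of_nonneg_left ?_ (by positivity)
    have e1 := h10 Q W R (fun i => (p i).1) hR hp1 hW T hTK hTW
    have e2 : Real.sqrt C9 * ∑ κ ∈ T, ∑ κ' ∈ T, Real.sqrt ((R : ℝ) ^ (-c0) *
        (((mo R κ κ').divisors.card : ℝ) ^ b9 / (mo R κ κ' : ℝ) ^ 3)) ≤ Real.sqrt C9 * (C10 * (W : ℝ) ^ (-ρ)) :=
      mul_le_mul_of_nonneg_left e1 (Real.sqrt_nonneg _)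
    have e3 : 2 * (d : ℝ) * ((T.card : ℝ) * ((T.card : ℝ) * ((W : ℝ) ^ (-ρ) / ((Q : ℝ) ^ k) ^ 2))) ≤
        2 * d * (W : ℝ) ^ (-ρ) := by
      have h1 : 0 ≤ (W : ℝ) ^ (-ρ) / ((Q : ℝ) ^ k) ^ 2 := by positivity
      calc 2 * (d : ℝ) * ((T.card : ℝ) * ((T.card : ℝ) * ((W : ℝ) ^ (-ρ) / ((Q : ℝ) ^ k) ^ 2)))
          ≤ 2 * (d : ℝ) * ((Q : ℝ) ^ k * ((Q : ℝ) ^ k * ((W : ℝ) ^ (-ρ) / ((Q : ℝ) ^ k) ^ 2))) := by gcongr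
        _ = 2 * d * (W : ℝ) ^ (-ρ) := by
            field_simp
    calc _ ≤ Real.sqrt C9 * (C10 * (W : ℝ) ^ (-ρ)) + 2 * d * (W : ℝ) ^ (-ρ) := add_le_add e2 e3
      _ = (Real.sqrt C9 * C10 + 2 * d) * (W : ℝ) ^ (-ρ) := by ring
  have h1 := FGA1 (tb b s) (Ico a0 (a0 + H)) T w (fun κ n t => ∏ i, ph (p i) (κ i) (yy c P β i n t))
  refine h1.trans ?_
  have hw0 : 0 ≤ ∑ n ∈ Ico a0 (a0 + H), ‖w n‖ ^ 2 := Finset.sum_nonneg fun _ _ => sq_nonneg _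
  refine (mul_le_mul_of_nonneg_left hsum hw0).trans ?_
  have h2 : 0 ≤ ((tb b s).card : ℝ) * (H * ∑ n ∈ Ico a0 (a0 + H), ‖w n‖ ^ 2) * (W : ℝ) ^ (-ρ) := by positivity
  nlinarith [h2]

end Pool.Agent.HUP
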