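import Pool.Agent.Lib.HUP.FGA11
import Pool.Agent.Lib.H59P.M3B

/-!
# Project HUP, chunk FGA12 (S/M): the large sieve from the two interfaces
-/

open Finset Polynomial

namespace Pool.Agent.HUP

open Pool.Agent.Lib.H68T Pool.Agent.Lib.H18Q Pool.Agent.Lib.H59P Pool.Agent.Lib.H24P

/-- Proof. `E = 5 k`, `C`, `ρ` from `FGA11`. For `t ∈ tb b s`: `((hh c β t i : ℕ) : ℤ) = β i + lf c t i` (non-negative), so the argument of `gk` is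
`yy c P β i n t`; `FGA7_gk` (`κ i` squarefree): the inner product is `(∏ i, r_i/φ(r_i)) * ∏ i, ph ..`, so the left side is
`(∏ i, r_i/φ(r_i))²` times that of `FGA11`, and `r/φ(r) ≤ 2 (1 + log r) ≤ 2 (1 + log Q)` (`M3b` in `H59P/M3B.lean`), so the factor is at most
`(2 (1 + log Q))^(2k)`. `Cc = 4^k C + 2 k + 1`, `cc = ρ`. -/
theorem FG_red {k d : ℕ} {c : Fin k → Fin d → ℤ} {D : Fin k → ℕ} {a : Fin k → ℤ} (hL : LocB c D a) (hC : ChB c D a) :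
    FGTU c D a := by
  obtain ⟨C, ρ, hC0, hρ, hρ1, h⟩ := FGA11 hL hC
  have h4C : 0 ≤ (4 : ℝ) ^ k * C := by positivity
  have h2k : (0 : ℝ) ≤ 2 * (k : ℝ) := by positivity
  refine ⟨5 * k, 4 ^ k * C + 2 * k + 1, ρ, ⟨by linarith, hρ, hρ1⟩, ?_⟩
  intro P hP Qm b s β hQm hs hβ Q hQ hQQm p hp T hT D' hD1 hD2 a0 H hH w
  have hs' : ∀ j, Q ^ (5 * k) ≤ s j := fun j => (Nat.pow_le_pow_left hQQm _).trans (hs j)
  have h1 := h P hP β Q hQ p hp T hT D' hD1 hD2 b s hs' a0 H hH w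
  have hQr : (1 : ℝ) ≤ (Q : ℝ) := by exact_mod_cast hQ
  obtain ⟨R, hR⟩ : ∃ R : ℝ, R = ∏ i, ((p i).1 : ℝ) / (Nat.totient (p i).1 : ℝ) := ⟨_, rfl⟩
  have hR0 : 0 ≤ R := by
    rw [hR]
    exact prod_nonneg fun i _ => div_nonneg (Nat.cast_nonneg _) (Nat.cast_nonneg _)
  obtain ⟨Lg, hLg⟩ : ∃ Lg : ℝ, Lg = 1 + Real.log Q := ⟨_, rfl⟩
  have hLg1 : 1 ≤ Lg := by
    rw [hLg]
    have := Real.log_nonneg hQr
    linarith
  have hRle : R ≤ (2 * Lg) ^ k := by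
    calc R = ∏ i, ((p i).1 : ℝ) / (Nat.totient (p i).1 : ℝ) := hR
      _ ≤ ∏ i : Fin k, 2 * Lg := by
          refine prod_le_prod (fun i _ => div_nonneg (Nat.cast_nonneg _) (Nat.cast_nonneg _)) fun i _ => ?_
          obtain ⟨h2, h3, -⟩ := mem_PC.1 (hp i)
          refine (M3b (p i).1 h2).trans ?_
          have h4 : (1 : ℝ) ≤ ((p i).1 : ℝ) := by exact_mod_cast h2
          have h5 : Real.log ((p i).1 : ℝ) ≤ Real.log Q := Real.log_le_log (by linarith) (by exact_mod_cast h3)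
          rw [hLg]
          linarith
      _ = (2 * Lg) ^ k := by rw [prod_const, card_univ, Fintype.card_fin]
  have hterm : ∀ t ∈ tb b s, ‖∑ n ∈ Ico a0 (a0 + H), w n *
        ∑ κ ∈ T, ∏ i, gk (p i) (κ i) ((P i).eval (n : ℤ) + (hh c β t i : ℕ))‖ ^ 2 =
      R ^ 2 * ‖∑ n ∈ Ico a0 (a0 + H), w n * ∑ κ ∈ T, ∏ i, ph (p i) (κ i) (yy c P β i n t)‖ ^ 2 := by
    intro t ht
    have e0 : ∀ (n : ℕ) (i : Fin k), (P i).eval (n : ℤ) + ((hh c β t i : ℕ) : ℤ) = yy c P β i n t := by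
      intro n i
      unfold yy hh
      rw [Int.toNat_of_nonneg (hβ t ht i)]
    have e1 : ∀ (n : ℕ), ∀ κ ∈ T, ∏ i, gk (p i) (κ i) ((P i).eval (n : ℤ) + (hh c β t i : ℕ)) =
        (R : ℂ) * ∏ i, ph (p i) (κ i) (yy c P β i n t) := by
      intro n κ hκ
      rw [hR, Complex.ofReal_prod, ← prod_mul_distrib]
      refine prod_congr rfl fun i _ => ?_
      rw [e0 n i]
      exact FGA7_gk (p i) (κ i) (CA_mem_KS.1 (Fintype.mem_piFinset.1 (hT hκ) i)).2.1 _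
    have e2 : ∑ n ∈ Ico a0 (a0 + H), w n *
        ∑ κ ∈ T, ∏ i, gk (p i) (κ i) ((P i).eval (n : ℤ) + (hh c β t i : ℕ)) =
        (R : ℂ) * ∑ n ∈ Ico a0 (a0 + H), w n * ∑ κ ∈ T, ∏ i, ph (p i) (κ i) (yy c P β i n t) := by
      rw [mul_sum]
      refine sum_congr rfl fun n _ => ?_
      rw [sum_congr rfl (e1 n), ← mul_sum]
      ring
    rw [e2, norm_mul, Complex.norm_real, Real.norm_of_nonneg hR0, mul_pow]
  have hY : 0 ≤ ((tb b s).card : ℝ) * (H * ∑ n ∈ Ico a0 (a0 + H), ‖w n‖ ^ 2) * (D' : ℝ) ^ (-ρ) :=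
    mul_nonneg (mul_nonneg (Nat.cast_nonneg _) (mul_nonneg (Nat.cast_nonneg _) (sum_nonneg fun n _ => sq_nonneg _)))
      (Real.rpow_nonneg (Nat.cast_nonneg _) _)
  have hfac : R ^ 2 * C ≤ (4 ^ k * C + 2 * k + 1) * Lg ^ (4 ^ k * C + 2 * (k : ℝ) + 1) := by
    have h2 : R ^ 2 ≤ 4 ^ k * Lg ^ (2 * k) := by
      calc R ^ 2 ≤ ((2 * Lg) ^ k) ^ 2 := pow_le_pow_left₀ hR0 hRle 2
        _ = 4 ^ k * Lg ^ (2 * k) := by
          have e : (2 * Lg) ^ 2 = 4 * Lg ^ 2 := by ring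
          rw [← pow_mul, mul_comm k 2, pow_mul, e, mul_pow, ← pow_mul]
    have h3 : Lg ^ (2 * k) ≤ Lg ^ (4 ^ k * C + 2 * (k : ℝ) + 1) := by
      rw [← Real.rpow_natCast]
      refine Real.rpow_le_rpow_of_exponent_le hLg1 ?_
      push_cast
      linarith
    have h5 : 0 ≤ Lg ^ (2 * k) := by positivity
    calc R ^ 2 * C ≤ 4 ^ k * Lg ^ (2 * k) * C := mul_le_mul_of_nonneg_right h2 hC0.le
      _ = (4 ^ k * C) * Lg ^ (2 * k) := by ring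
      _ ≤ (4 ^ k * C + 2 * k + 1) * Lg ^ (4 ^ k * C + 2 * (k : ℝ) + 1) :=
          mul_le_mul (by linarith) h3 h5 (by linarith)
  show ∑ t ∈ tb b s, ‖∑ n ∈ Ico a0 (a0 + H), w n *
        ∑ κ ∈ T, ∏ i, gk (p i) (κ i) ((P i).eval (n : ℤ) + (hh c β t i : ℕ))‖ ^ 2 ≤ _
  rw [sum_congr rfl hterm, ← mul_sum, ← hLg]
  calc R ^ 2 * ∑ t ∈ tb b s, ‖∑ n ∈ Ico a0 (a0 + H), w n * ∑ κ ∈ T, ∏ i, ph (p i) (κ i) (yy c P β i n t)‖ ^ 2
      ≤ R ^ 2 * (C * (tb b s).card * (H * ∑ n ∈ Ico a0 (a0 + H), ‖w n‖ ^ 2) * (D' : ℝ) ^ (-ρ)) :=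
        mul_le_mul_of_nonneg_left h1 (sq_nonneg R)
    _ = (R ^ 2 * C) * (((tb b s).card : ℝ) * (H * ∑ n ∈ Ico a0 (a0 + H), ‖w n‖ ^ 2) * (D' : ℝ) ^ (-ρ)) := by ring
    _ ≤ ((4 ^ k * C + 2 * k + 1) * Lg ^ (4 ^ k * C + 2 * (k : ℝ) + 1)) *
        (((tb b s).card : ℝ) * (H * ∑ n ∈ Ico a0 (a0 + H), ‖w n‖ ^ 2) * (D' : ℝ) ^ (-ρ)) :=
        mul_le_mul_of_nonneg_right hfac hY
    _ = _ := by ring

end Pool.Agent.HUP
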