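import Pool.Agent.Lib.HUP.FG0
import Pool.Agent.Lib.HUK.KB3

/-!
# Project HUP, chunk FGA2 (S/M): sums of periodic functions over boxes
-/

open Finset

namespace Pool.Agent.HUP

open Pool.Agent.HUK (kb3_blocks kb3_block)

/-- One variable. Proof. `s = M q + ρ`, `ρ < M`: the sum over the first `M q` integers is `q ∑_{Ico 0 M}` (`kb3_blocks`, with `range` instead
of `Ico`), the rest has norm at most `ρ B`, and `(s/M - q) ∑_{Ico 0 M} = (ρ/M) ∑_{Ico 0 M}` has norm at most `ρ B`. -/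
theorem FGA2_one (M : ℕ) (hM : 1 ≤ M) (g : ℤ → ℂ) (hg : ∀ y y' : ℤ, (M : ℤ) ∣ y - y' → g y = g y') (B : ℝ)
    (hB : ∀ y, ‖g y‖ ≤ B) (b : ℤ) (s : ℕ) :
    ‖∑ y ∈ Ico b (b + s), g y - ((s : ℂ) / M) * ∑ y ∈ Ico (0 : ℤ) M, g y‖ ≤ 2 * M * B := by
  have hB0 : 0 ≤ B := (norm_nonneg _).trans (hB 0)
  have hM0 : (0 : ℝ) < M := by exact_mod_cast hM
  have hMc : (M : ℂ) ≠ 0 := by
    have : M ≠ 0 := by omega
    exact_mod_cast this
  have h0 : ∑ y ∈ Ico b (b + s), g y = ∑ l ∈ range s, g (b + l) := by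
    symm
    refine Finset.sum_nbij' (fun l : ℕ => b + (l : ℤ)) (fun y : ℤ => (y - b).toNat) ?_ ?_ ?_ ?_ ?_
    · intro l hl
      rw [mem_range] at hl
      rw [mem_Ico]
      omega
    · intro y hy
      rw [mem_Ico] at hy
      rw [mem_range]
      omega
    · intro l _
      show (b + (l : ℤ) - b).toNat = l
      omega
    · intro y hy
      rw [mem_Ico] at hy
      show b + ((y - b).toNat : ℤ) = y
      omega
    · intro l _
      rfl
  have h1 : s = M * (s / M) + s % M := (Nat.div_add_mod s M).symm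
  have h2 : ∑ l ∈ range s, g (b + l) = ((s / M : ℕ) : ℂ) * ∑ y ∈ Ico (0 : ℤ) M, g y +
      ∑ x ∈ range (s % M), g (b + ((M * (s / M) + x : ℕ) : ℤ)) := by
    conv_lhs => rw [h1]
    rw [Finset.sum_range_add, kb3_blocks M hM g hg b]
  have h3 : ((s : ℂ) / M) = ((s / M : ℕ) : ℂ) + ((s % M : ℕ) : ℂ) / M := by
    rw [eq_comm, ← sub_eq_zero]
    have h4 : (s : ℂ) = (M : ℂ) * ((s / M : ℕ) : ℂ) + ((s % M : ℕ) : ℂ) := by exact_mod_cast h1
    rw [h4]
    field_simp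
    ring
  have h5 : ‖∑ x ∈ range (s % M), g (b + ((M * (s / M) + x : ℕ) : ℤ))‖ ≤ M * B := by
    refine (norm_sum_le _ _).trans ?_
    calc ∑ x ∈ range (s % M), ‖g (b + ((M * (s / M) + x : ℕ) : ℤ))‖ ≤ ∑ x ∈ range (s % M), B :=
          Finset.sum_le_sum fun x _ => hB _
      _ = (s % M : ℕ) * B := by rw [Finset.sum_const, card_range, nsmul_eq_mul]
      _ ≤ M * B := by
          apply mul_le_mul_of_nonneg_right _ hB0
          exact_mod_cast (Nat.mod_lt s hM).le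
  have h6 : ‖(((s % M : ℕ) : ℂ) / M) * ∑ y ∈ Ico (0 : ℤ) M, g y‖ ≤ M * B := by
    have h7 : ‖∑ y ∈ Ico (0 : ℤ) M, g y‖ ≤ M * B := by
      refine (norm_sum_le _ _).trans ?_
      calc ∑ y ∈ Ico (0 : ℤ) M, ‖g y‖ ≤ ∑ _y ∈ Ico (0 : ℤ) M, B := Finset.sum_le_sum fun x _ => hB _
        _ = M * B := by
          rw [Finset.sum_const, nsmul_eq_mul, Int.card_Ico]
          simp
    rw [norm_mul, norm_div, Complex.norm_natCast, Complex.norm_natCast]
    have h8 : ((s % M : ℕ) : ℝ) / M ≤ 1 := by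
      rw [div_le_one hM0]
      exact_mod_cast (Nat.mod_lt s hM).le
    calc ((s % M : ℕ) : ℝ) / M * ‖∑ y ∈ Ico (0 : ℤ) M, g y‖ ≤ 1 * (M * B) :=
          mul_le_mul h8 h7 (norm_nonneg _) zero_le_one
      _ = M * B := one_mul _
  rw [h0, h2, h3]
  have h9 : ((s / M : ℕ) : ℂ) * ∑ y ∈ Ico (0 : ℤ) M, g y +
      ∑ x ∈ range (s % M), g (b + ((M * (s / M) + x : ℕ) : ℤ)) -
      (((s / M : ℕ) : ℂ) + ((s % M : ℕ) : ℂ) / M) * ∑ y ∈ Ico (0 : ℤ) M, g y =
      ∑ x ∈ range (s % M), g (b + ((M * (s / M) + x : ℕ) : ℤ)) -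
      (((s % M : ℕ) : ℂ) / M) * ∑ y ∈ Ico (0 : ℤ) M, g y := by ring
  rw [h9]
  refine (norm_sub_le _ _).trans ?_
  linarith

theorem fga2_pi {d : ℕ} (S : Fin (d + 1) → Finset ℤ) (F : (Fin (d + 1) → ℤ) → ℂ) :
    ∑ t ∈ Fintype.piFinset S, F t = ∑ x ∈ S 0, ∑ t ∈ Fintype.piFinset (fun j : Fin d => S j.succ),
      F (Fin.cons x t : Fin (d + 1) → ℤ) := by
  rw [← Finset.sum_product']
  refine Finset.sum_nbij' (fun h => (h 0, Fin.tail h)) (fun p => (Fin.cons p.1 p.2 : Fin (d + 1) → ℤ)) ?_ ?_ ?_ ?_ ?_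
  · intro h hh
    rw [Fintype.mem_piFinset] at hh
    rw [Finset.mem_product]
    refine ⟨hh 0, ?_⟩
    rw [Fintype.mem_piFinset]
    intro i
    exact hh i.succ
  · intro p hp
    rw [Finset.mem_product] at hp
    have h2 := Fintype.mem_piFinset.1 hp.2
    rw [Fintype.mem_piFinset]
    intro i
    refine Fin.cases ?_ ?_ i
    · exact hp.1
    · intro j
      exact h2 j
  · intro h _
    exact Fin.cons_self_tail h
  · intro p _
    rfl
  · intro h _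
    show F h = F (Fin.cons (h 0) (Fin.tail h) : Fin (d + 1) → ℤ)
    rw [Fin.cons_self_tail]

theorem fga2_card {d : ℕ} (b : Fin d → ℤ) (s : Fin d → ℕ) : ((tb b s).card : ℝ) = ∏ j, (s j : ℝ) := by
  unfold tb
  rw [Fintype.card_piFinset]
  push_cast
  refine Finset.prod_congr rfl fun j _ => ?_
  rw [Int.card_Ico]
  simp

theorem fga2_cardB (d M : ℕ) : ((B0 d M).card : ℝ) = (M : ℝ) ^ d := by
  unfold B0
  rw [Fintype.card_piFinset]
  simp

/-- Proof. Induction on `d` with `Fin.cons` (or `Fin.consEquiv`; `Fin.cons_self_tail`): `tb b s` is the product of `Ico (b 0) (b 0 + s 0)` and the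
box of `fun j => b j.succ`, `fun j => s j.succ`, the same for `B0 (d+1) M`. For fixed `t 0` the induction hypothesis; then `FGA2_one` for
`g (t0) = ∑_{t' ∈ B0 d M} f (Fin.cons t0 t')`, `B = M^d`: the error is
`s 0 * card' * (2 d M/L) + (card'/M^d) * 2 M * M^d ≤ s 0 * card' * (2 (d+1) M/L)` since `L ≤ s 0`, i.e. `1 ≤ s 0 / L`. -/
theorem FGA2_diff {d : ℕ} (M L : ℕ) (hM : 1 ≤ M) (hL : 1 ≤ L) (b : Fin d → ℤ) (s : Fin d → ℕ) (hs : ∀ j, L ≤ s j)
    (f : (Fin d → ℤ) → ℂ) (hf : ∀ t t' : Fin d → ℤ, (∀ j, (M : ℤ) ∣ t j - t' j) → f t = f t')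
    (hb : ∀ t, ‖f t‖ ≤ 1) :
    ‖∑ t ∈ tb b s, f t - (((tb b s).card : ℂ) / (M : ℂ) ^ d) * ∑ t ∈ B0 d M, f t‖ ≤
      (tb b s).card * (2 * d * ((M : ℝ) / L)) := by
  have hM0 : (0 : ℝ) < M := by exact_mod_cast hM
  have hL0 : (0 : ℝ) < L := by exact_mod_cast hL
  have hMc : (M : ℂ) ≠ 0 := by
    have : M ≠ 0 := by omega
    exact_mod_cast this
  induction d with
  | zero =>
    have h1 : tb b s = {fun i : Fin 0 => i.elim0} := by
      ext h
      unfold tb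
      rw [Fintype.mem_piFinset, Finset.mem_singleton]
      exact ⟨fun _ => Subsingleton.elim _ _, fun _ i => i.elim0⟩
    have h2 : B0 0 M = {fun i : Fin 0 => i.elim0} := by
      ext h
      unfold B0
      rw [Fintype.mem_piFinset, Finset.mem_singleton]
      exact ⟨fun _ => Subsingleton.elim _ _, fun _ i => i.elim0⟩
    rw [h1, h2]
    simp
  | succ d ih =>
    have hsum : ∑ t ∈ tb b s, f t = ∑ x ∈ Ico (b 0) (b 0 + s 0), ∑ t ∈ tb (fun j : Fin d => b j.succ)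
        (fun j : Fin d => s j.succ), f (Fin.cons x t : Fin (d + 1) → ℤ) := by
      unfold tb
      rw [fga2_pi]
    have hsum0 : ∑ t ∈ B0 (d + 1) M, f t = ∑ x ∈ Ico (0 : ℤ) M, ∑ t ∈ B0 d M,
        f (Fin.cons x t : Fin (d + 1) → ℤ) := by
      unfold B0
      rw [fga2_pi]
    have hcard : ((tb b s).card : ℝ) = s 0 * (tb (fun j : Fin d => b j.succ) (fun j : Fin d => s j.succ)).card := by
      rw [fga2_card, fga2_card, Fin.prod_univ_succ]
    have hcardc : ((tb b s).card : ℂ) = s 0 * (tb (fun j : Fin d => b j.succ) (fun j : Fin d => s j.succ)).card := by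
      exact_mod_cast hcard
    obtain ⟨c', hc'⟩ : ∃ c' : ℕ, (tb (fun j : Fin d => b j.succ) (fun j : Fin d => s j.succ)).card = c' := ⟨_, rfl⟩
    rw [hc'] at hcard hcardc
    have hih : ∀ x : ℤ, ‖∑ t ∈ tb (fun j : Fin d => b j.succ) (fun j : Fin d => s j.succ),
        f (Fin.cons x t : Fin (d + 1) → ℤ) - ((c' : ℂ) / (M : ℂ) ^ d) * ∑ t ∈ B0 d M,
        f (Fin.cons x t : Fin (d + 1) → ℤ)‖ ≤ c' * (2 * d * ((M : ℝ) / L)) := by
      intro x
      have h1 := ih (fun j : Fin d => b j.succ) (fun j : Fin d => s j.succ) (fun j => hs j.succ)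
        (fun t => f (Fin.cons x t : Fin (d + 1) → ℤ)) ?_ (fun t => hb _)
      · rw [hc'] at h1
        exact h1
      · intro t t' ht
        refine hf _ _ ?_
        intro j
        refine Fin.cases ?_ ?_ j
        · simp
        · intro i
          exact ht i
    have hone := FGA2_one M hM (fun x => ∑ t ∈ B0 d M, f (Fin.cons x t : Fin (d + 1) → ℤ)) ?_ ((M : ℝ) ^ d) ?_
      (b 0) (s 0)
    · rw [hsum, hsum0, hcardc]
      have hid : ∑ x ∈ Ico (b 0) (b 0 + s 0), ∑ t ∈ tb (fun j : Fin d => b j.succ)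
          (fun j : Fin d => s j.succ), f (Fin.cons x t : Fin (d + 1) → ℤ) -
          ((s 0 : ℂ) * c' / (M : ℂ) ^ (d + 1)) * ∑ x ∈ Ico (0 : ℤ) M, ∑ t ∈ B0 d M,
            f (Fin.cons x t : Fin (d + 1) → ℤ) =
          ∑ x ∈ Ico (b 0) (b 0 + s 0), (∑ t ∈ tb (fun j : Fin d => b j.succ) (fun j : Fin d => s j.succ),
            f (Fin.cons x t : Fin (d + 1) → ℤ) - ((c' : ℂ) / (M : ℂ) ^ d) * ∑ t ∈ B0 d M,
            f (Fin.cons x t : Fin (d + 1) → ℤ)) +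
          ((c' : ℂ) / (M : ℂ) ^ d) * (∑ x ∈ Ico (b 0) (b 0 + s 0), ∑ t ∈ B0 d M,
            f (Fin.cons x t : Fin (d + 1) → ℤ) - ((s 0 : ℂ) / M) * ∑ x ∈ Ico (0 : ℤ) M, ∑ t ∈ B0 d M,
            f (Fin.cons x t : Fin (d + 1) → ℤ)) := by
        rw [Finset.sum_sub_distrib, ← Finset.mul_sum, mul_sub, pow_succ]
        have hk : ((s 0 : ℂ) * c' / ((M : ℂ) ^ d * M)) = ((c' : ℂ) / (M : ℂ) ^ d) * ((s 0 : ℂ) / M) := by
          field_simp
        rw [hk]
        ring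
      rw [hid]
      refine (norm_add_le _ _).trans ?_
      have hA : ‖∑ x ∈ Ico (b 0) (b 0 + s 0), (∑ t ∈ tb (fun j : Fin d => b j.succ) (fun j : Fin d => s j.succ),
            f (Fin.cons x t : Fin (d + 1) → ℤ) - ((c' : ℂ) / (M : ℂ) ^ d) * ∑ t ∈ B0 d M,
            f (Fin.cons x t : Fin (d + 1) → ℤ))‖ ≤ s 0 * (c' * (2 * d * ((M : ℝ) / L))) := by
        refine (norm_sum_le _ _).trans ?_
        refine (Finset.sum_le_sum fun x _ => hih x).trans ?_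
        rw [Finset.sum_const, nsmul_eq_mul, Int.card_Ico]
        simp
      have hMd : (0 : ℝ) < (M : ℝ) ^ d := by positivity
      have hB : ‖((c' : ℂ) / (M : ℂ) ^ d) * (∑ x ∈ Ico (b 0) (b 0 + s 0), ∑ t ∈ B0 d M,
            f (Fin.cons x t : Fin (d + 1) → ℤ) - ((s 0 : ℂ) / M) * ∑ x ∈ Ico (0 : ℤ) M, ∑ t ∈ B0 d M,
            f (Fin.cons x t : Fin (d + 1) → ℤ))‖ ≤ c' * (2 * M) := by
        rw [norm_mul, norm_div, norm_pow, Complex.norm_natCast, Complex.norm_natCast]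
        calc (c' : ℝ) / (M : ℝ) ^ d * ‖∑ x ∈ Ico (b 0) (b 0 + s 0), ∑ t ∈ B0 d M,
            f (Fin.cons x t : Fin (d + 1) → ℤ) - ((s 0 : ℂ) / M) * ∑ x ∈ Ico (0 : ℤ) M, ∑ t ∈ B0 d M,
            f (Fin.cons x t : Fin (d + 1) → ℤ)‖ ≤ (c' : ℝ) / (M : ℝ) ^ d * (2 * M * (M : ℝ) ^ d) :=
              mul_le_mul_of_nonneg_left hone (by positivity)
          _ = c' * (2 * M) := by
            field_simp
      refine (add_le_add hA hB).trans ?_
      rw [hcard]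
      have hsL : (1 : ℝ) ≤ (s 0 : ℝ) / L := by
        rw [le_div_iff₀ hL0, one_mul]
        exact_mod_cast hs 0
      have hfin : (c' : ℝ) * (2 * M) ≤ c' * (2 * M) * ((s 0 : ℝ) / L) := by
        have h0 : (0 : ℝ) ≤ c' * (2 * M) := by positivity
        nlinarith
      calc (s 0 : ℝ) * (c' * (2 * d * ((M : ℝ) / L))) + c' * (2 * M)
          ≤ (s 0 : ℝ) * (c' * (2 * d * ((M : ℝ) / L))) + c' * (2 * M) * ((s 0 : ℝ) / L) := by linarith
        _ = (s 0 : ℝ) * c' * (2 * ((d + 1 : ℕ) : ℝ) * ((M : ℝ) / L)) := by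
          push_cast
          ring
    · intro y y' hy
      refine Finset.sum_congr rfl fun t _ => ?_
      refine hf _ _ ?_
      intro j
      refine Fin.cases ?_ ?_ j
      · exact hy
      · intro i
        simp
    · intro y
      refine (norm_sum_le _ _).trans ?_
      refine (Finset.sum_le_sum fun t _ => hb _).trans ?_
      rw [Finset.sum_const, nsmul_eq_mul, mul_one, fga2_cardB]

/-- From `FGA2_diff`, triangle inequality. -/
theorem FGA2 {d : ℕ} (M L : ℕ) (hM : 1 ≤ M) (hL : 1 ≤ L) (b : Fin d → ℤ) (s : Fin d → ℕ) (hs : ∀ j, L ≤ s j)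
    (f : (Fin d → ℤ) → ℂ) (hf : ∀ t t' : Fin d → ℤ, (∀ j, (M : ℤ) ∣ t j - t' j) → f t = f t')
    (hb : ∀ t, ‖f t‖ ≤ 1) :
    ‖∑ t ∈ tb b s, f t‖ ≤ (tb b s).card * (‖∑ t ∈ B0 d M, f t‖ / (M : ℝ) ^ d + 2 * d * ((M : ℝ) / L)) := by
  have h1 := FGA2_diff M L hM hL b s hs f hf hb
  have h2 : ‖(((tb b s).card : ℂ) / (M : ℂ) ^ d) * ∑ t ∈ B0 d M, f t‖ =
      (tb b s).card * (‖∑ t ∈ B0 d M, f t‖ / (M : ℝ) ^ d) := by
    rw [norm_mul, norm_div, norm_pow, Complex.norm_natCast, Complex.norm_natCast]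
    ring
  have h3 := norm_sub_norm_le (∑ t ∈ tb b s, f t) ((((tb b s).card : ℂ) / (M : ℂ) ^ d) * ∑ t ∈ B0 d M, f t)
  rw [h2] at h3
  rw [mul_add]
  linarith

end Pool.Agent.HUP
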