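import Pool.Agent.Lib.HUP.FGA5
import Pool.Agent.Lib.HUK.KB2

/-!
# Project HUP, chunk FGA6 (S): products over primes
-/

open Finset

namespace Pool.Agent.HUP

/-- Proof. Exactly as `KB2_prod` in `HUK/KB2.lean`. -/
theorem FGA6_prod {d : ℕ} (R : ℕ) (hR : 1 ≤ R) (L : Finset ℕ) (hL : ∀ l ∈ L, l.Prime) (hLR : ∀ l ∈ L, Nat.Coprime l R)
    (F0 : ℤ → ℤ → (Fin d → ℤ) → ℂ) (h0 : Pp R F0) (F : ℕ → ℤ → ℤ → (Fin d → ℤ) → ℂ) (hF : ∀ l ∈ L, Pp l (F l)) :
    Pp (R * ∏ l ∈ L, l) (fun n n' t => F0 n n' t * ∏ l ∈ L, F l n n' t) ∧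
    ms (R * ∏ l ∈ L, l) (fun n n' t => F0 n n' t * ∏ l ∈ L, F l n n' t) = ms R F0 * ∏ l ∈ L, ms l (F l) := by
  classical
  revert hL hLR hF
  refine Finset.induction_on L ?_ ?_
  · intro _ _ _
    simp only [Finset.prod_empty, mul_one]
    exact ⟨h0, trivial⟩
  · intro q S hq ih hP hPr hφ
    have hqS : q ∈ insert q S := mem_insert_self _ _
    obtain ⟨ih1, ih2⟩ := ih (fun l hl => hP l (mem_insert_of_mem hl)) (fun l hl => hPr l (mem_insert_of_mem hl))
      (fun l hl => hφ l (mem_insert_of_mem hl))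
    have hqp := hP q hqS
    have hM : 1 ≤ R * ∏ l ∈ S, l := Nat.mul_pos hR (Finset.prod_pos fun l hl => (hP l (mem_insert_of_mem hl)).pos)
    have hco : Nat.Coprime (R * ∏ l ∈ S, l) q := by
      refine Nat.Coprime.mul_left (hPr q hqS).symm ?_
      refine Nat.Coprime.prod_left fun l hl => ?_
      exact (Nat.coprime_primes (hP l (mem_insert_of_mem hl)) hqp).2 (fun h => hq (h ▸ hl))
    have e1 : R * ∏ l ∈ insert q S, l = (R * ∏ l ∈ S, l) * q := by
      rw [prod_insert hq]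
      ring
    have e2 : (fun n n' t => F0 n n' t * ∏ l ∈ insert q S, F l n n' t) =
        fun n n' t => (F0 n n' t * ∏ l ∈ S, F l n n' t) * F q n n' t := by
      funext n n' t
      rw [prod_insert hq]
      ring
    rw [e1, e2]
    refine ⟨FGA5_per _ _ _ _ ih1 (hφ q hqS), ?_⟩
    rw [FGA5_mul _ _ hM hqp.pos hco _ _ ih1 (hφ q hqS), ih2, prod_insert hq]
    ring

end Pool.Agent.HUP
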