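import Pool.Agent.Lib.HUP.FG0
import Pool.Agent.Lib.H59P.M2A
import Pool.Agent.Lib.HUK.KB4A

/-!
# Project HUP, chunk FGA7 (S): rules for the components
-/

open Finset Polynomial

namespace Pool.Agent.HUP

open Pool.Agent.Lib.H68T Pool.Agent.Lib.H18Q Pool.Agent.Lib.H59P Pool.Agent.Lib.H24P
open Pool.Agent.HUK (KB4A_le KB4A_mod)

/-- `M2a` in `H59P/M2A.lean` (see also `H24P/B1.lean`, line 22). -/
theorem FGA7_gk (p : Ch) (κ : ℕ) (hκ : Squarefree κ) (m : ℤ) :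
    gk p κ m = (((p.1 : ℝ) / (Nat.totient p.1 : ℝ) : ℝ) : ℂ) * ph p κ m := by
  unfold gk ph gL
  rw [M2a κ hκ m, Complex.ofReal_prod, ← mul_assoc]
  rfl

theorem FGA7_cjper (p : Ch) : Pz p.1 (cj p) := by
  intro m m' h
  unfold cj
  have e : (m : ZMod p.1) = (m' : ZMod p.1) := by
    rw [← sub_eq_zero, ← Int.cast_sub]
    exact (ZMod.intCast_zmod_eq_zero_iff_dvd _ _).2 h
  rw [e]

theorem FGA7_cjle (p : Ch) (m : ℤ) : ‖cj p m‖ ≤ 1 := by
  unfold cj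
  rw [RCLike.norm_conj]
  exact DirichletCharacter.norm_le_one _ _

theorem FGA7_gLle (L : Finset ℕ) (hL : ∀ l ∈ L, l.Prime) (m : ℤ) : ‖gL L m‖ ≤ 1 := by
  unfold gL
  rw [norm_prod]
  refine Finset.prod_le_one (fun l _ => norm_nonneg _) fun l hl => ?_
  rw [Complex.norm_real, Real.norm_eq_abs]
  exact KB4A_le l (hL l hl) m

theorem FGA7_gLper (L : Finset ℕ) : Pz (∏ l ∈ L, l) (gL L) := by
  intro m m' h
  unfold gL
  refine Finset.prod_congr rfl fun l hl => ?_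
  rw [KB4A_mod l m m' (dvd_trans (by exact_mod_cast Finset.dvd_prod_of_mem (fun l => l) hl) h)]

theorem FGA7_phle (p : Ch) (κ : ℕ) (m : ℤ) : ‖ph p κ m‖ ≤ 1 := by
  unfold ph
  rw [norm_mul]
  exact mul_le_one₀ (FGA7_cjle p m) (norm_nonneg _)
    (FGA7_gLle _ (fun l hl => Nat.prime_of_mem_primeFactors hl) m)

theorem FGA7_up (M M' : ℕ) (h : M ∣ M') (f : ℤ → ℂ) (hf : Pz M f) : Pz M' f := by
  intro m m' hm
  exact hf m m' (dvd_trans (by exact_mod_cast h) hm)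

/-- `(P i).eval` preserves congruences (`Polynomial.sub_dvd_eval_sub`), `lf` is linear. -/
theorem FGA7_yy {k d : ℕ} (c : Fin k → Fin d → ℤ) (P : Fin k → ℤ[X]) (β : Fin k → ℤ) (i : Fin k) (M : ℕ) (n m : ℤ)
    (t t' : Fin d → ℤ) (h : (M : ℤ) ∣ n - m) (ht : ∀ j, (M : ℤ) ∣ t j - t' j) :
    (M : ℤ) ∣ yy c P β i n t - yy c P β i m t' := by
  have e : yy c P β i n t - yy c P β i m t' =
      ((P i).eval n - (P i).eval m) + ∑ j, c i j * (t j - t' j) := by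
    unfold yy lf
    simp only [mul_sub, Finset.sum_sub_distrib]
    ring
  rw [e]
  refine dvd_add (dvd_trans h (Polynomial.sub_dvd_eval_sub n m (P i))) ?_
  exact Finset.dvd_sum fun j _ => Dvd.dvd.mul_left (ht j) _

/-- From `KB4A_mod`, `FGA7_yy`. -/
theorem FGA7_Fl {k d : ℕ} (c : Fin k → Fin d → ℤ) (P : Fin k → ℤ[X]) (β : Fin k → ℤ) (V V' : Finset (Fin k)) (l : ℕ) :
    Pp l (Fl c P β V V' l) := by
  intro n m n' m' t t' h1 h2 h3
  unfold Fl
  congr 1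
  · refine Finset.prod_congr rfl fun i _ => ?_
    rw [KB4A_mod l _ _ (FGA7_yy c P β i l n m t t' h1 h3)]
  · refine Finset.prod_congr rfl fun i _ => ?_
    rw [KB4A_mod l _ _ (FGA7_yy c P β i l n' m' t t' h2 h3)]

end Pool.Agent.HUP
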