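import Pool.Agent.Lib.HUP.FG0

/-!
# Project HUP, chunk FGC1 (S/M): the lower coefficients modulo `R`
-/

open Finset Polynomial

namespace Pool.Agent.HUP

/-- One polynomial. Proof. `P' = C P.leadingCoeff * X ^ D + ∑ j ∈ range D, C (P.coeff j % R) * X ^ j`, `D = P.natDegree ≥ 1`. Degree of the second sum
`< D`, `P.leadingCoeff ≠ 0`. Congruence: `P.eval n = ∑ j ∈ range (D + 1), P.coeff j * n ^ j` (`Polynomial.eval_eq_sum_range`). For `0 ≤ n < X`,
`R ≤ X`: `|P'(n)| ≤ |lc| X^D + ∑_{j < D} (R - 1) n^j`, and each term `(R - 1) n^j ≤ X * X^(D-1) = X^D`. -/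
theorem FGC1_one (P : ℤ[X]) (hP : 1 ≤ P.natDegree) (R : ℕ) (hR : 1 ≤ R) : ∃ P' : ℤ[X],
    P'.natDegree = P.natDegree ∧ P'.leadingCoeff = P.leadingCoeff ∧ (∀ n : ℤ, (R : ℤ) ∣ P.eval n - P'.eval n) ∧
    ∀ (X : ℕ) (n : ℤ), R ≤ X → 0 ≤ n → n < X →
      |P'.eval n| ≤ (P.leadingCoeff.natAbs + P.natDegree) * (X : ℤ) ^ P.natDegree := by
  classical
  have hlc : P.leadingCoeff ≠ 0 := by
    intro h0
    rw [leadingCoeff_eq_zero] at h0
    rw [h0] at hP
    simp at hP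
  obtain ⟨S, hSdef⟩ : ∃ S : ℤ[X], S = ∑ j ∈ range P.natDegree, C (P.coeff j % R) * X ^ j := ⟨_, rfl⟩
  have hS : S.degree < (P.natDegree : ℕ) := by
    rw [hSdef, Finset.sum_range]
    exact degree_sum_fin_lt (fun i : Fin P.natDegree => P.coeff i % R)
  have hlt : S.degree < (C P.leadingCoeff * X ^ P.natDegree).degree := by
    rw [degree_C_mul_X_pow _ hlc]; exact hS
  have hev : ∀ n : ℤ, (C P.leadingCoeff * X ^ P.natDegree + S).eval n =
      P.leadingCoeff * n ^ P.natDegree + ∑ j ∈ range P.natDegree, (P.coeff j % R) * n ^ j := by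
    intro n
    rw [eval_add, hSdef, eval_finset_sum]
    simp
  refine ⟨C P.leadingCoeff * X ^ P.natDegree + S, ?_, ?_, ?_, ?_⟩
  · rw [natDegree_add_eq_left_of_degree_lt hlt, natDegree_C_mul_X_pow _ _ hlc]
  · rw [leadingCoeff_add_of_degree_lt' hlt, leadingCoeff_C_mul_X_pow]
  · intro n
    rw [hev, eval_eq_sum_range, Finset.sum_range_succ]
    have h1 : (∑ j ∈ range P.natDegree, P.coeff j * n ^ j + P.coeff P.natDegree * n ^ P.natDegree) -
        (P.leadingCoeff * n ^ P.natDegree + ∑ j ∈ range P.natDegree, (P.coeff j % R) * n ^ j) =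
        ∑ j ∈ range P.natDegree, (P.coeff j - P.coeff j % R) * n ^ j := by
      rw [leadingCoeff]
      simp only [sub_mul, Finset.sum_sub_distrib]
      ring
    rw [h1]
    apply Finset.dvd_sum
    intro j _
    exact Dvd.dvd.mul_right (Int.dvd_self_sub_emod) _
  · intro Y n hRY hn0 hnY
    rw [hev]
    have hY1 : (1 : ℤ) ≤ Y := by exact_mod_cast hR.trans hRY
    have hRY' : (R : ℤ) ≤ Y := by exact_mod_cast hRY
    have hRp : (0 : ℤ) < R := by exact_mod_cast hR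
    have h2 : |P.leadingCoeff * n ^ P.natDegree| ≤ (P.leadingCoeff.natAbs : ℤ) * (Y : ℤ) ^ P.natDegree := by
      rw [abs_mul, Int.natCast_natAbs, abs_of_nonneg (pow_nonneg hn0 _)]
      exact mul_le_mul_of_nonneg_left (pow_le_pow_left₀ hn0 hnY.le _) (abs_nonneg _)
    have h3 : |∑ j ∈ range P.natDegree, (P.coeff j % R) * n ^ j| ≤ (P.natDegree : ℤ) * (Y : ℤ) ^ P.natDegree := by
      refine (Finset.abs_sum_le_sum_abs _ _).trans ?_
      have h4 : ∀ j ∈ range P.natDegree, |(P.coeff j % R) * n ^ j| ≤ (Y : ℤ) ^ P.natDegree := by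
        intro j hj
        rw [Finset.mem_range] at hj
        have h5 : 0 ≤ P.coeff j % R := Int.emod_nonneg _ hRp.ne'
        have h6 : P.coeff j % R < R := Int.emod_lt_of_pos _ hRp
        rw [abs_of_nonneg (mul_nonneg h5 (pow_nonneg hn0 _))]
        have h7 : n ^ j ≤ (Y : ℤ) ^ (P.natDegree - 1) :=
          (pow_le_pow_left₀ hn0 hnY.le _).trans (pow_le_pow_right₀ hY1 (by omega))
        calc (P.coeff j % R) * n ^ j ≤ (Y : ℤ) * (Y : ℤ) ^ (P.natDegree - 1) :=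
              mul_le_mul (h6.le.trans hRY') h7 (pow_nonneg hn0 _) (by omega)
          _ = (Y : ℤ) ^ P.natDegree := by
              rw [← pow_succ']
              congr 1
              omega
      refine (Finset.sum_le_sum h4).trans ?_
      simp
    refine (abs_add_le _ _).trans ?_
    rw [add_mul]
    exact add_le_add h2 h3

/-- `FGC1_one` for every `i` (`choose`). -/
theorem FGC1 {k : ℕ} (D : Fin k → ℕ) (a : Fin k → ℤ) (hD : ∀ i, 1 ≤ D i) (P : Fin k → ℤ[X]) (hP : HasD D a P)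
    (R : ℕ) (hR : 1 ≤ R) : ∃ P' : Fin k → ℤ[X], HasD D a P' ∧
    (∀ (i : Fin k) (n : ℤ), (R : ℤ) ∣ (P i).eval n - (P' i).eval n) ∧
    ∀ (i : Fin k) (X : ℕ) (n : ℤ), R ≤ X → 0 ≤ n → n < X →
      |(P' i).eval n| ≤ ((a i).natAbs + D i) * (X : ℤ) ^ D i := by
  have h : ∀ i, ∃ P' : ℤ[X],
    P'.natDegree = (P i).natDegree ∧ P'.leadingCoeff = (P i).leadingCoeff ∧
      (∀ n : ℤ, (R : ℤ) ∣ (P i).eval n - P'.eval n) ∧
    ∀ (X : ℕ) (n : ℤ), R ≤ X → 0 ≤ n → n < X →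
      |P'.eval n| ≤ ((P i).leadingCoeff.natAbs + (P i).natDegree) * (X : ℤ) ^ (P i).natDegree :=
    fun i => FGC1_one (P i) (by rw [(hP i).1]; exact hD i) R hR
  choose P' h1 h2 h3 h4 using h
  refine ⟨P', fun i => ⟨(h1 i).trans (hP i).1, (h2 i).trans (hP i).2⟩, h3, ?_⟩
  intro i Y n hRY hn0 hnY
  have h5 := h4 i Y n hRY hn0 hnY
  rw [(hP i).1, (hP i).2] at h5
  exact h5

end Pool.Agent.HUP
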