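import Pool.Agent.Lib.HUP.FG0

/-!
# Project HUP, chunk FGC2 (S/M): the mean over pairs from the mean with weights
-/

open Finset

namespace Pool.Agent.HUP

theorem fgc2_sq {a b : ℝ} (h : a ^ 2 ≤ b ^ 2) (hb : 0 ≤ b) : a ≤ b :=
  (abs_le_of_sq_le_sq' h hb).2

/-- For one `n'`. -/
theorem fgc2_one {d : ℕ} (R : ℕ) (hR : 1 ≤ R) (G G' : ℤ → (Fin d → ℤ) → ℂ) (hG : ∀ n t, ‖G n t‖ ≤ 1)
    (hG' : ∀ n t, ‖G' n t‖ ≤ 1) (δ : ℝ) (hδ : 0 ≤ δ)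
    (h : ∀ w : ℤ → ℂ, (∀ n, ‖w n‖ ≤ 1) →
      ∑ t ∈ B0 d R, ‖∑ n ∈ Ico (0 : ℤ) R, w n * G n t‖ ^ 2 ≤ δ ^ 2 * (R : ℝ) ^ d * (R : ℝ) ^ 2) (n' : ℤ) :
    ∑ n ∈ Ico (0 : ℤ) R, ‖∑ t ∈ B0 d R, G n t * G' n' t‖ ^ 2 ≤ δ * R * ((R : ℝ) ^ d) ^ 2 := by
  have hN : ((B0 d R).card : ℝ) = (R : ℝ) ^ d := by
    unfold B0
    rw [Fintype.card_piFinset]
    simp
  have hRp : (0 : ℝ) < R := by exact_mod_cast hR
  have hNpos : (0 : ℝ) < (R : ℝ) ^ d := by positivity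
  obtain ⟨M, hM⟩ : ∃ M : ℤ → ℂ, ∀ n, M n = ∑ t ∈ B0 d R, G n t * G' n' t := ⟨_, fun _ => rfl⟩
  have hMb : ∀ n, ‖M n‖ ≤ (R : ℝ) ^ d := by
    intro n
    rw [hM, ← hN]
    refine (norm_sum_le _ _).trans ?_
    have h1 : ∀ t ∈ B0 d R, ‖G n t * G' n' t‖ ≤ 1 := fun t _ => by
      rw [norm_mul]; exact mul_le_one₀ (hG n t) (norm_nonneg _) (hG' n' t)
    refine (Finset.sum_le_sum h1).trans ?_
    simp
  obtain ⟨w, hw⟩ : ∃ w : ℤ → ℂ, ∀ n, w n = (starRingEnd ℂ) (M n) / ((R : ℂ) ^ d) := ⟨_, fun _ => rfl⟩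
  have hw1 : ∀ n, ‖w n‖ ≤ 1 := by
    intro n
    rw [hw]
    simp only [norm_div, RCLike.norm_conj, norm_pow, Complex.norm_natCast]
    exact (div_le_one hNpos).2 (hMb n)
  have hq := h w hw1
  obtain ⟨x, hx⟩ : ∃ x : (Fin d → ℤ) → ℝ, ∀ t, x t = ‖∑ n ∈ Ico (0 : ℤ) R, w n * G n t‖ := ⟨_, fun _ => rfl⟩
  have hx0 : ∀ t, 0 ≤ x t := fun t => by rw [hx]; exact norm_nonneg _
  have hx1 : ∑ t ∈ B0 d R, x t ≤ δ * (R : ℝ) ^ d * R := by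
    have h1 : (∑ t ∈ B0 d R, x t) ^ 2 ≤ (δ * (R : ℝ) ^ d * R) ^ 2 := by
      calc (∑ t ∈ B0 d R, x t) ^ 2 ≤ (B0 d R).card * ∑ t ∈ B0 d R, x t ^ 2 := sq_sum_le_card_mul_sum_sq
        _ ≤ (R : ℝ) ^ d * (δ ^ 2 * (R : ℝ) ^ d * (R : ℝ) ^ 2) := by
            rw [hN]
            refine mul_le_mul_of_nonneg_left ?_ hNpos.le
            simpa only [hx] using hq
        _ = (δ * (R : ℝ) ^ d * R) ^ 2 := by ring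
    exact fgc2_sq h1 (by positivity)
  have h2 : ((∑ n ∈ Ico (0 : ℤ) R, ‖M n‖ ^ 2 : ℝ) : ℂ) =
      ∑ t ∈ B0 d R, G' n' t * ((R : ℂ) ^ d * ∑ n ∈ Ico (0 : ℤ) R, w n * G n t) := by
    have hRc : ((R : ℂ) ^ d) ≠ 0 := by
      apply pow_ne_zero
      exact_mod_cast (Nat.one_le_iff_ne_zero.mp hR)
    have h3 : ∀ n, (((‖M n‖ ^ 2 : ℝ)) : ℂ) = ∑ t ∈ B0 d R, G' n' t * ((R : ℂ) ^ d * (w n * G n t)) := by
      intro n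
      have h4 : (((‖M n‖ ^ 2 : ℝ)) : ℂ) = (starRingEnd ℂ) (M n) * M n := by
        rw [mul_comm, Complex.mul_conj, Complex.normSq_eq_norm_sq]
      have h5 : (starRingEnd ℂ) (M n) = (R : ℂ) ^ d * w n := by
        rw [hw]; field_simp
      rw [h4, h5]
      conv_lhs => rw [hM n]
      rw [Finset.mul_sum]
      refine Finset.sum_congr rfl fun t _ => ?_
      ring
    rw [Complex.ofReal_sum, Finset.sum_congr rfl fun n _ => h3 n, Finset.sum_comm]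
    refine Finset.sum_congr rfl fun t _ => ?_
    rw [Finset.mul_sum, Finset.mul_sum]
  have h6 : ∑ n ∈ Ico (0 : ℤ) R, ‖M n‖ ^ 2 ≤ (R : ℝ) ^ d * ∑ t ∈ B0 d R, x t := by
    have h7 : (∑ n ∈ Ico (0 : ℤ) R, ‖M n‖ ^ 2 : ℝ) = ‖((∑ n ∈ Ico (0 : ℤ) R, ‖M n‖ ^ 2 : ℝ) : ℂ)‖ := by
      rw [Complex.norm_real, Real.norm_of_nonneg]
      exact Finset.sum_nonneg fun n _ => by positivity
    rw [h7, h2, Finset.mul_sum]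
    refine (norm_sum_le _ _).trans (Finset.sum_le_sum fun t _ => ?_)
    rw [norm_mul, norm_mul, norm_pow, Complex.norm_natCast, ← hx t]
    calc ‖G' n' t‖ * ((R : ℝ) ^ d * x t) ≤ 1 * ((R : ℝ) ^ d * x t) :=
          mul_le_mul_of_nonneg_right (hG' n' t) (mul_nonneg hNpos.le (hx0 t))
      _ = (R : ℝ) ^ d * x t := one_mul _
  calc ∑ n ∈ Ico (0 : ℤ) R, ‖∑ t ∈ B0 d R, G n t * G' n' t‖ ^ 2 = ∑ n ∈ Ico (0 : ℤ) R, ‖M n‖ ^ 2 := by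
        simp only [hM]
    _ ≤ (R : ℝ) ^ d * ∑ t ∈ B0 d R, x t := h6
    _ ≤ (R : ℝ) ^ d * (δ * (R : ℝ) ^ d * R) := mul_le_mul_of_nonneg_left hx1 hNpos.le
    _ = δ * R * ((R : ℝ) ^ d) ^ 2 := by ring

/-- Proof. `M n n' = ∑_{t ∈ B0 d R} G n t * G' n' t`, `‖M n n'‖ ≤ R^d` (`card (B0 d R) = R^d`). `∑_{n,n'} ‖M n n'‖² = ∑_{n'} ∑_t G' n' t ∑_n conj (M n n') G n t`
(as complex numbers), at most `∑_{n'} ∑_t ‖∑_n conj (M n n') G n t‖`. For fixed `n'` let `w n = conj (M n n') / R^d`, so `‖w n‖ ≤ 1` and the inner sum is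
`R^d ∑_t ‖∑_n w n G n t‖ ≤ R^d (R^d)^(1/2) (∑_t ‖∑_n w n G n t‖²)^(1/2) ≤ R^d (R^d)^(1/2) δ (R^d)^(1/2) R = δ R^(2d) R`. Sum over `n'`: `δ R^(2d) R²`. -/
theorem FGC2 {d : ℕ} (R : ℕ) (hR : 1 ≤ R) (G G' : ℤ → (Fin d → ℤ) → ℂ) (hG : ∀ n t, ‖G n t‖ ≤ 1)
    (hG' : ∀ n t, ‖G' n t‖ ≤ 1) (δ : ℝ) (hδ : 0 ≤ δ)
    (h : ∀ w : ℤ → ℂ, (∀ n, ‖w n‖ ≤ 1) →
      ∑ t ∈ B0 d R, ‖∑ n ∈ Ico (0 : ℤ) R, w n * G n t‖ ^ 2 ≤ δ ^ 2 * (R : ℝ) ^ d * (R : ℝ) ^ 2) :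
    ms R (fun n n' t => G n t * G' n' t) ≤ δ := by
  have hRp : (0 : ℝ) < R := by exact_mod_cast hR
  unfold ms
  rw [div_le_iff₀ (by positivity), Finset.sum_comm]
  refine (Finset.sum_le_sum fun n' _ => fgc2_one R hR G G' hG hG' δ hδ h n').trans ?_
  rw [Finset.sum_const, Int.card_Ico, nsmul_eq_mul]
  simp only [sub_zero, Int.toNat_natCast]
  exact le_of_eq (by ring)

end Pool.Agent.HUP
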