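import Pool.Agent.Lib.HUP.FG0
import Pool.Agent.Lib.HUK.KB3

/-!
# Project HUP, chunk FGC3 (S/M): complete means as sums over long boxes
-/

open Finset

namespace Pool.Agent.HUP

open Pool.Agent.HUK (kb3_blocks kb3_block)

theorem fgc3_card (R : ℕ) (hR : 1 ≤ R) (m : ℕ) (r : ℤ) (hr0 : 0 ≤ r) (hr : r < R) :
    ((Ico (0 : ℤ) (0 + ((R * m : ℕ) : ℤ))).filter (fun x => x % (R : ℤ) = r)).card = m := by
  have hR0 : (0 : ℤ) < R := by exact_mod_cast hR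
  refine (Finset.card_nbij' (t := range m) (fun x : ℤ => (x / (R : ℤ)).toNat) (fun l : ℕ => r + (R : ℤ) * l)
    ?_ ?_ ?_ ?_).trans (card_range m)
  · intro x hx
    rw [mem_coe, mem_filter, mem_Ico] at hx
    rw [mem_coe, mem_range]
    have h1 : 0 ≤ x / (R : ℤ) := Int.ediv_nonneg hx.1.1 hR0.le
    have h2 : x / (R : ℤ) < m := by
      apply Int.ediv_lt_of_lt_mul hR0
      have h3 := hx.1.2
      push_cast at h3
      linarith [mul_comm (R : ℤ) (m : ℤ)]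
    show (x / (R : ℤ)).toNat < m
    omega
  · intro l hl
    rw [mem_coe, mem_range] at hl
    rw [mem_coe, mem_filter, mem_Ico]
    have h1 : (0 : ℤ) ≤ (R : ℤ) * l := by positivity
    have h2 : (R : ℤ) * (l + 1) ≤ (R : ℤ) * m := mul_le_mul_of_nonneg_left (by exact_mod_cast hl) hR0.le
    refine ⟨⟨?_, ?_⟩, ?_⟩
    · show 0 ≤ r + (R : ℤ) * l
      linarith
    · show r + (R : ℤ) * l < 0 + ((R * m : ℕ) : ℤ)
      push_cast
      linarith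
    · show (r + (R : ℤ) * l) % (R : ℤ) = r
      rw [Int.add_mul_emod_self_left]
      exact Int.emod_eq_of_lt hr0 hr
  · intro x hx
    rw [mem_coe, mem_filter, mem_Ico] at hx
    show r + (R : ℤ) * (((x / (R : ℤ)).toNat : ℕ) : ℤ) = x
    rw [Int.toNat_of_nonneg (Int.ediv_nonneg hx.1.1 hR0.le), ← hx.2]
    exact Int.emod_add_mul_ediv x R
  · intro l _
    show ((r + (R : ℤ) * l) / (R : ℤ)).toNat = l
    rw [Int.add_mul_ediv_left _ _ hR0.ne', Int.ediv_eq_zero_of_lt hr0 hr, zero_add, Int.toNat_natCast]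

/-- A box whose sides are multiples of the period. Proof. Induction on `d` with `Fin.cons`, or: the map `t ↦ (t j % R)_j` from `tb 0 (R m_j)` to
`B0 d R` has fibres with `∏ m j` elements; one variable as in `kb3_blocks` (`HUK/KB3.lean`). -/
theorem FGC3_box {d : ℕ} (R : ℕ) (hR : 1 ≤ R) (m : Fin d → ℕ) (f : (Fin d → ℤ) → ℝ)
    (hf : ∀ t t' : Fin d → ℤ, (∀ j, (R : ℤ) ∣ t j - t' j) → f t = f t') :
    ∑ t ∈ tb 0 (fun j => R * m j), f t = (∏ j, (m j : ℝ)) * ∑ t ∈ B0 d R, f t := by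
  have hR0 : (0 : ℤ) < R := by exact_mod_cast hR
  have hmap : ∀ t ∈ tb 0 (fun j => R * m j), (fun i => t i % (R : ℤ)) ∈ B0 d R := by
    intro t _
    unfold B0
    rw [Fintype.mem_piFinset]
    intro i
    rw [mem_Ico]
    exact ⟨Int.emod_nonneg _ hR0.ne', Int.emod_lt_of_pos _ hR0⟩
  rw [← Finset.sum_fiberwise_of_maps_to hmap, Finset.mul_sum]
  refine Finset.sum_congr rfl fun r hr => ?_
  have hr' : ∀ i, 0 ≤ r i ∧ r i < R := by
    intro i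
    unfold B0 at hr
    exact mem_Ico.1 (Fintype.mem_piFinset.1 hr i)
  have h1 : ((tb 0 (fun j => R * m j)).filter fun t => (fun i => t i % (R : ℤ)) = r) =
      Fintype.piFinset fun i => (Ico (0 : ℤ) (0 + ((R * m i : ℕ) : ℤ))).filter (fun x => x % (R : ℤ) = r i) := by
    ext t
    unfold tb
    rw [mem_filter, Fintype.mem_piFinset, Fintype.mem_piFinset]
    constructor
    · rintro ⟨h2, h3⟩ i
      rw [mem_filter]
      exact ⟨h2 i, congrFun h3 i⟩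
    · intro h2
      exact ⟨fun i => (mem_filter.1 (h2 i)).1, funext fun i => (mem_filter.1 (h2 i)).2⟩
  have h2 : ∑ t ∈ tb 0 (fun j => R * m j) with (fun i => t i % (R : ℤ)) = r, f t =
      ((((tb 0 (fun j => R * m j)).filter fun t => (fun i => t i % (R : ℤ)) = r).card : ℕ) : ℝ) * f r := by
    rw [← nsmul_eq_mul, ← Finset.sum_const]
    refine Finset.sum_congr rfl fun t ht => ?_
    rw [mem_filter] at ht
    apply hf
    intro i
    rw [← ht.2]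
    exact Int.dvd_self_sub_emod
  rw [h2, h1, Fintype.card_piFinset]
  congr 1
  push_cast
  refine Finset.prod_congr rfl fun i _ => ?_
  have h3 := fgc3_card R hR (m i) (r i) (hr' i).1 (hr' i).2
  push_cast at h3
  rw [h3]

/-- Proof. For fixed `t`: `∑_{n ∈ Ico 0 (0 + R^2)} w n * G n t = R * ∑_{n ∈ Ico (0:ℤ) R} w n * G n t` (`kb3_blocks` with `q = R`). Then `FGC3_box` with
`m j = R * (R^2)^(e j - 1)`, `R * m j = (R^2)^(e j)`, and `R^d * ∏ m j = ∏ (R^2)^(e j)`. -/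
theorem FGC3 {d : ℕ} (R : ℕ) (hR : 1 ≤ R) (e : Fin d → ℕ) (he : ∀ j, 1 ≤ e j) (G : ℤ → (Fin d → ℤ) → ℂ)
    (hG : ∀ (n m : ℤ) (t t' : Fin d → ℤ), (R : ℤ) ∣ n - m → (∀ j, (R : ℤ) ∣ t j - t' j) → G n t = G m t')
    (w : ℤ → ℂ) (hw : Pz R w) :
    (R : ℝ) ^ d * ∑ t ∈ tb 0 (fun j => (R ^ 2) ^ e j), ‖∑ n ∈ Ico (0 : ℕ) (0 + R ^ 2), w ((n : ℕ) : ℤ) * G ((n : ℕ) : ℤ) t‖ ^ 2 =
      (∏ j, ((R : ℝ) ^ 2) ^ e j) * ((R : ℝ) ^ 2 * ∑ t ∈ B0 d R, ‖∑ n ∈ Ico (0 : ℤ) R, w n * G n t‖ ^ 2) := by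
  have hself : ∀ m : ℤ, (R : ℤ) ∣ m - m := fun m => by
    rw [sub_self]
    exact dvd_zero _
  have h1 : ∀ t : Fin d → ℤ, ∑ n ∈ Ico (0 : ℕ) (0 + R ^ 2), w ((n : ℕ) : ℤ) * G ((n : ℕ) : ℤ) t =
      (R : ℂ) * ∑ n ∈ Ico (0 : ℤ) R, w n * G n t := by
    intro t
    have h2 := kb3_blocks R hR (fun n => w n * G n t)
      (fun y y' hy => by
        show w y * G y t = w y' * G y' t
        rw [hw y y' hy, hG y y' t t hy (fun j => hself _)]) 0 R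
    rw [← h2, zero_add, ← Finset.range_eq_Ico, pow_two]
    refine Finset.sum_congr rfl fun l _ => ?_
    rw [zero_add]
  have h3 : ∀ t : Fin d → ℤ, ‖∑ n ∈ Ico (0 : ℕ) (0 + R ^ 2), w ((n : ℕ) : ℤ) * G ((n : ℕ) : ℤ) t‖ ^ 2 =
      (R : ℝ) ^ 2 * ‖∑ n ∈ Ico (0 : ℤ) R, w n * G n t‖ ^ 2 := by
    intro t
    rw [h1, norm_mul, Complex.norm_natCast, mul_pow]
  have h4 : (fun j => (R ^ 2) ^ e j) = fun j => R * (R * (R ^ 2) ^ (e j - 1)) := by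
    funext j
    obtain ⟨a, ha⟩ : ∃ a, e j = a + 1 := ⟨e j - 1, by have := he j; omega⟩
    rw [ha, Nat.add_sub_cancel]
    ring
  have h5 : ∑ t ∈ tb 0 (fun j => (R ^ 2) ^ e j), ‖∑ n ∈ Ico (0 : ℕ) (0 + R ^ 2), w ((n : ℕ) : ℤ) * G ((n : ℕ) : ℤ) t‖ ^ 2 =
      (R : ℝ) ^ 2 * ((∏ j, ((R * (R ^ 2) ^ (e j - 1) : ℕ) : ℝ)) * ∑ t ∈ B0 d R, ‖∑ n ∈ Ico (0 : ℤ) R, w n * G n t‖ ^ 2) := by
    rw [Finset.sum_congr rfl fun t _ => h3 t, ← Finset.mul_sum, h4,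
      FGC3_box R hR (fun j => R * (R ^ 2) ^ (e j - 1)) (fun t => ‖∑ n ∈ Ico (0 : ℤ) R, w n * G n t‖ ^ 2)]
    intro t t' htt
    have h6 : ∑ n ∈ Ico (0 : ℤ) R, w n * G n t = ∑ n ∈ Ico (0 : ℤ) R, w n * G n t' := by
      refine Finset.sum_congr rfl fun n _ => ?_
      rw [hG n n t t' (hself _) htt]
    show ‖∑ n ∈ Ico (0 : ℤ) R, w n * G n t‖ ^ 2 = ‖∑ n ∈ Ico (0 : ℤ) R, w n * G n t'‖ ^ 2
    rw [h6]
  have h7 : (R : ℝ) ^ d * ∏ j, ((R * (R ^ 2) ^ (e j - 1) : ℕ) : ℝ) = ∏ j, ((R : ℝ) ^ 2) ^ e j := by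
    have h8 : (R : ℝ) ^ d = ∏ j : Fin d, (R : ℝ) := by
      rw [Finset.prod_const, Finset.card_univ, Fintype.card_fin]
    rw [h8, ← Finset.prod_mul_distrib]
    refine Finset.prod_congr rfl fun j _ => ?_
    obtain ⟨a, ha⟩ : ∃ a, e j = a + 1 := ⟨e j - 1, by have := he j; omega⟩
    rw [ha, Nat.add_sub_cancel]
    push_cast
    ring
  rw [h5, ← h7]
  ring

end Pool.Agent.HUP
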