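import Pool.Agent.Lib.HUP.FG0
import Pool.Agent.Lib.HUK.KB3

/-!
# Project HUP, chunk FGC4 (M): Gowers sums of periodic functions on an interval
-/

open Finset

namespace Pool.Agent.HUP

open Pool.Agent.HUK (GG DL Av Pe kb3_one kb3_fib DL_mul DL_prod DL_norm DV FF bxS)

theorem fgc4_cj_zero (n : ℕ) : Pool.Agent.HUK.cj n 0 = 0 := by
  unfold Pool.Agent.HUK.cj
  split_ifs
  · rfl
  · exact map_zero _

theorem fgc4_Ico (A B : ℤ) (g : ℤ → ℂ) : ∑ y ∈ Ico A B, g y = ∑ l ∈ range (B - A).toNat, g (A + l) := by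
  symm
  refine Finset.sum_nbij' (fun l : ℕ => A + (l : ℤ)) (fun y : ℤ => (y - A).toNat) ?_ ?_ ?_ ?_ ?_
  · intro l hl
    rw [mem_range] at hl
    rw [mem_Ico]
    constructor <;> omega
  · intro y hy
    rw [mem_Ico] at hy
    rw [mem_range]
    omega
  · intro l _
    show (A + (l : ℤ) - A).toNat = l
    omega
  · intro y hy
    rw [mem_Ico] at hy
    show A + (((y - A).toNat : ℕ) : ℤ) = y
    omega
  · intro l _
    rfl

/-- The differences of the indicator function of an interval are the indicator function of an interval. Proof. `DL_prod`: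
`DL (List.ofFn h) 1_W y = ∏_ω cj (sg ω) (1_W (y + vt ω h))`, every factor is `0` or `1` and real; it is `1` iff all `y + vt ω h` are in `[-Y, Y)`, i.e.
`A ≤ y < B` with `A = sup' (-Y - vt ω h)`, `B = inf' (Y - vt ω h)`; `ω = fun _ => false` gives `-Y ≤ A`, `B ≤ Y`. Take `L = (B - A).toNat`. -/
theorem FGC4_int (s Y : ℕ) (h : Fin s → ℤ) : ∃ (A : ℤ) (L : ℕ), L ≤ 2 * Y ∧
    ∀ φ : ℤ → ℂ, ∑ y ∈ Ico (-(Y : ℤ)) Y, DV h (fun m => if m ∈ Ico (-(Y : ℤ)) Y then φ m else 0) y =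
      ∑ l ∈ range L, DV h φ (A + l) := by
  obtain ⟨v, hv⟩ : ∃ v : (Fin s → Bool) → ℤ, v = fun ω => Pool.Agent.HUK.vt ω h := ⟨_, rfl⟩
  have hv0 : v (fun _ => false) = 0 := by
    rw [hv]
    show Pool.Agent.HUK.vt (fun _ => false) h = 0
    unfold Pool.Agent.HUK.vt
    simp
  have hne : (univ : Finset (Fin s → Bool)).Nonempty := ⟨fun _ => false, mem_univ _⟩
  obtain ⟨A, hA⟩ : ∃ A : ℤ, A = univ.sup' hne (fun ω => -(Y : ℤ) - v ω) := ⟨_, rfl⟩
  obtain ⟨B, hB⟩ : ∃ B : ℤ, B = univ.inf' hne (fun ω => (Y : ℤ) - v ω) := ⟨_, rfl⟩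
  have hAle : ∀ y : ℤ, A ≤ y ↔ ∀ ω, -(Y : ℤ) - v ω ≤ y := by
    intro y
    rw [hA, Finset.sup'_le_iff]
    exact ⟨fun h ω => h ω (mem_univ _), fun h ω _ => h ω⟩
  have hBlt : ∀ y : ℤ, y < B ↔ ∀ ω, y < (Y : ℤ) - v ω := by
    intro y
    rw [hB, Finset.lt_inf'_iff]
    exact ⟨fun h ω => h ω (mem_univ _), fun h ω _ => h ω⟩
  have hA0 : -(Y : ℤ) ≤ A := by
    have := (hAle A).1 le_rfl (fun _ => false)
    rw [hv0] at this
    linarith
  have hB0 : B ≤ (Y : ℤ) := by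
    by_contra hc
    rw [not_le] at hc
    have := (hBlt (B - 1)).1 (by linarith) (fun _ => false)
    rw [hv0] at this
    omega
  refine ⟨A, (B - A).toNat, by omega, fun φ => ?_⟩
  rw [← fgc4_Ico A B (fun y => DV h φ y)]
  have hfil : (Ico (-(Y : ℤ)) Y).filter (fun y => ∀ ω, y + v ω ∈ Ico (-(Y : ℤ)) Y) = Ico A B := by
    ext y
    rw [mem_filter, mem_Ico, mem_Ico, hAle, hBlt]
    constructor
    · rintro ⟨_, h2⟩
      refine ⟨fun ω => ?_, fun ω => ?_⟩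
      · have := (mem_Ico.1 (h2 ω)).1
        linarith
      · have := (mem_Ico.1 (h2 ω)).2
        linarith
    · rintro ⟨h1, h2⟩
      refine ⟨⟨?_, ?_⟩, fun ω => ?_⟩
      · have := h1 (fun _ => false)
        rw [hv0] at this
        linarith
      · have := h2 (fun _ => false)
        rw [hv0] at this
        linarith
      · rw [mem_Ico]
        have h3 := h1 ω
        have h4 := h2 ω
        constructor <;> linarith
  rw [← hfil, Finset.sum_filter]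
  refine Finset.sum_congr rfl fun y _ => ?_
  unfold DV
  rw [DL_prod, DL_prod]
  by_cases hy : ∀ ω, y + v ω ∈ Ico (-(Y : ℤ)) Y
  · rw [if_pos hy]
    refine Finset.prod_congr rfl fun ω _ => ?_
    have h5 : y + Pool.Agent.HUK.vt ω h ∈ Ico (-(Y : ℤ)) Y := by
      have := hy ω
      rw [hv] at this
      exact this
    rw [if_pos h5]
  · rw [if_neg hy]
    rw [not_forall] at hy
    obtain ⟨ω, hω⟩ := hy
    refine Finset.prod_eq_zero (mem_univ ω) ?_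
    have h5 : ¬ y + Pool.Agent.HUK.vt ω h ∈ Ico (-(Y : ℤ)) Y := by
      rw [hv] at hω
      exact hω
    rw [if_neg h5, fgc4_cj_zero]

/-- Periodicity of the differences. -/
theorem FGC4_per (s R : ℕ) (φ : ℤ → ℂ) (hφ : Pz R φ) : Pe R (fun (y : ℤ) (h : Fin s → ℤ) => DL (List.ofFn h) φ y) := by
  intro y y' h h' hy hh
  show DL (List.ofFn h) φ y = DL (List.ofFn h') φ y'
  rw [DL_prod, DL_prod]
  refine Finset.prod_congr rfl fun ω _ => ?_
  congr 1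
  apply hφ
  have h1 : y + Pool.Agent.HUK.vt ω h - (y' + Pool.Agent.HUK.vt ω h') =
      (y - y') + ∑ i, (if ω i then h i - h' i else 0) := by
    have h2 : ∑ i, (if ω i then h i - h' i else 0) = Pool.Agent.HUK.vt ω h - Pool.Agent.HUK.vt ω h' := by
      unfold Pool.Agent.HUK.vt
      rw [← Finset.sum_sub_distrib]
      refine Finset.sum_congr rfl fun i _ => ?_
      split_ifs
      · rfl
      · ring
    rw [h2]
    ring
  rw [h1]
  refine dvd_add hy (Finset.dvd_sum fun i _ => ?_)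
  split_ifs
  · exact hh i
  · exact dvd_zero _

/-- Proof. `GG Y s f ≤ ∑_{h ∈ bxS s (2Y)} ‖∑_y DV h f y‖`. For each `h` by `FGC4_int` and `kb3_one` (`M = R`, `H = L ≤ 2Y`, `S = 1`, `DL_norm`):
`≤ (2Y/R) ‖∑_{y ∈ Ico 0 R} DL (List.ofFn h) φ y‖ + R`. `kb3_fib` with `M = R`, `H = 2Y`: the sum over `h` of the first norm is at most
`(8Y/R)^s ∑_{h ∈ piFinset Ico 0 R} ‖..‖ = (8Y/R)^s R^(s+1) Av`. `card (bxS s (2Y)) ≤ (4Y)^s`. Total `2 * 8^s Y^(s+1) Av + 4^s Y^s R`. -/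
theorem FGC4 (s : ℕ) : ∀ (R Y : ℕ), 1 ≤ R → R ≤ Y → ∀ φ : ℤ → ℂ, (∀ m, ‖φ m‖ ≤ 1) → Pz R φ →
    GG Y s (fun m => if m ∈ Ico (-(Y : ℤ)) Y then φ m else 0) ≤
      2 * 8 ^ s * ((Y : ℝ) ^ (s + 1) * Av s R (fun (y : ℤ) (h : Fin s → ℤ) => DL (List.ofFn h) φ y) + (Y : ℝ) ^ s * R) := by
  intro R Y hR hRY φ hφ1 hφ
  have hR0 : (0 : ℝ) < R := by exact_mod_cast hR
  have hY0 : (0 : ℝ) ≤ Y := Nat.cast_nonneg _
  have hPe := FGC4_per s R φ hφ
  have hself : ∀ m : ℤ, (R : ℤ) ∣ m - m := fun m => by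
    rw [sub_self]
    exact dvd_zero _
  have h1 : ∀ h ∈ bxS s (2 * Y), ‖FF Y h (fun m => if m ∈ Ico (-(Y : ℤ)) Y then φ m else 0)‖ ≤
      (2 * Y / R : ℝ) * ‖∑ y ∈ Ico (0 : ℤ) R, DL (List.ofFn h) φ y‖ + R := by
    intro h _
    obtain ⟨A, L, hL, hAL⟩ := FGC4_int s Y h
    unfold FF
    rw [hAL φ]
    have h2 := kb3_one R L hR (fun y => DL (List.ofFn h) φ y)
      (fun y y' hy => hPe y y' h h hy (fun i => hself _)) 1 (fun y => DL_norm _ φ hφ1 y) A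
    refine h2.trans ?_
    rw [mul_one]
    refine add_le_add_left (mul_le_mul_of_nonneg_right ?_ (norm_nonneg _)) _
    have h3 : (L : ℝ) ≤ 2 * Y := by exact_mod_cast hL
    exact div_le_div_of_nonneg_right h3 hR0.le
  have h4 := kb3_fib R (2 * Y) hR (by omega) (fun h : Fin s → ℤ => ‖∑ y ∈ Ico (0 : ℤ) R, DL (List.ofFn h) φ y‖)
    (fun _ => norm_nonneg _) (fun h h' hh => by
      have h5 : ∑ y ∈ Ico (0 : ℤ) R, DL (List.ofFn h) φ y = ∑ y ∈ Ico (0 : ℤ) R, DL (List.ofFn h') φ y :=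
        Finset.sum_congr rfl fun y _ => hPe y y h h' (hself _) hh
      show ‖∑ y ∈ Ico (0 : ℤ) R, DL (List.ofFn h) φ y‖ = ‖∑ y ∈ Ico (0 : ℤ) R, DL (List.ofFn h') φ y‖
      rw [h5])
  have h6 : ((bxS s (2 * Y)).card : ℝ) ≤ (4 * Y) ^ s := by
    unfold bxS
    rw [Fintype.card_piFinset]
    simp only [Int.card_Ioo, Finset.prod_const, Finset.card_univ, Fintype.card_fin]
    rw [Nat.cast_pow]
    apply pow_le_pow_left₀ (by positivity)
    have : (((2 * Y : ℕ) : ℤ) - -((2 * Y : ℕ) : ℤ) - 1).toNat ≤ 4 * Y := by omega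
    exact_mod_cast this
  obtain ⟨S, hS⟩ : ∃ S : ℝ, S = ∑ h ∈ Fintype.piFinset (fun _ : Fin s => Ico (0 : ℤ) R),
      ‖∑ y ∈ Ico (0 : ℤ) R, DL (List.ofFn h) φ y‖ := ⟨_, rfl⟩
  have hAv : Av s R (fun (y : ℤ) (h : Fin s → ℤ) => DL (List.ofFn h) φ y) = S / (R : ℝ) ^ (s + 1) := by
    rw [hS]
    rfl
  have hS0 : 0 ≤ S := by
    rw [hS]
    exact Finset.sum_nonneg fun _ _ => norm_nonneg _
  rw [← hS] at h4
  have h7 : GG Y s (fun m => if m ∈ Ico (-(Y : ℤ)) Y then φ m else 0) ≤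
      (2 * Y / R : ℝ) * ((4 * ((2 * Y : ℕ) : ℝ) / R) ^ s * S) + (4 * Y) ^ s * R := by
    unfold GG
    refine (Complex.re_le_norm _).trans ((norm_sum_le _ _).trans ((Finset.sum_le_sum h1).trans ?_))
    rw [Finset.sum_add_distrib, ← Finset.mul_sum, Finset.sum_const, nsmul_eq_mul]
    refine add_le_add (mul_le_mul_of_nonneg_left h4 (by positivity)) ?_
    exact mul_le_mul_of_nonneg_right h6 hR0.le
  refine h7.trans ?_
  rw [hAv]
  have h8 : (2 * Y / R : ℝ) * ((4 * ((2 * Y : ℕ) : ℝ) / R) ^ s * S) = 2 * 8 ^ s * ((Y : ℝ) ^ (s + 1) * (S / (R : ℝ) ^ (s + 1))) := by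
    have h9 : (4 * ((2 * Y : ℕ) : ℝ) / R) = 8 * Y / R := by
      push_cast
      ring
    rw [h9, div_pow, mul_pow, pow_succ (Y : ℝ) s, pow_succ (R : ℝ) s]
    field_simp
  have h10 : ((4 : ℝ) * Y) ^ s * R ≤ 2 * 8 ^ s * ((Y : ℝ) ^ s * R) := by
    rw [mul_pow, mul_assoc]
    refine mul_le_mul_of_nonneg_right ?_ (by positivity)
    have h11 : (4 : ℝ) ^ s ≤ 8 ^ s := pow_le_pow_left₀ (by norm_num) (by norm_num) s
    have h12 : (0 : ℝ) ≤ 8 ^ s := by positivity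
    linarith
  rw [h8, mul_add]
  exact add_le_add le_rfl h10

end Pool.Agent.HUP
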