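import Pool.Agent.Lib.HUP.FGC4
import Pool.Agent.Lib.HUP.FGA7
import Pool.Agent.Lib.HUK.KB2
import Pool.Agent.Lib.HUK.KB5
import Pool.Agent.Lib.HUK.KA14

/-!
# Project HUP, chunk FGC5 (M): characters times functions of coprime period
-/

open Finset

namespace Pool.Agent.HUP

open Pool.Agent.Lib.H59P
open Pool.Agent.HUK (DL Av Pe KB1_mul KB1_per KB1_nn KB1_one UCH_all kb5_sum kb5_sum_pi DL_mul DL_norm DL_prod)

theorem fgc5_card (M q : ℕ) (hM : 1 ≤ M) (b : ℤ) (hb : b ∈ Ico (0 : ℤ) M) :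
    ((Ico (0 : ℤ) ((M * q : ℕ) : ℤ)).filter fun y => y % (M : ℤ) = b).card = q := by
  rcases Nat.eq_zero_or_pos q with hq | hq
  · subst hq
    simp
  · have hg : ∀ y y' : ℤ, (M : ℤ) ∣ y - y' → (if y % (M : ℤ) = b then (1 : ℂ) else 0) = if y' % (M : ℤ) = b then (1 : ℂ) else 0 := by
      intro y y' h
      rw [(Int.emod_emod_of_dvd y (dvd_refl (M : ℤ))).symm.trans (Int.emod_emod_of_dvd y (dvd_refl _)),
        show y % (M : ℤ) = y' % (M : ℤ) from (Int.emod_emod_of_dvd y (dvd_refl (M : ℤ))).symm.trans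
          ((Int.emod_emod_of_dvd y (dvd_refl (M : ℤ))).trans (Int.emod_eq_emod_iff_emod_sub_eq_zero.2 (Int.emod_eq_zero_of_dvd h)))]
    have hN : 1 ≤ M * q := Nat.mul_pos hM hq
    have hgN : ∀ y y' : ℤ, ((M * q : ℕ) : ℤ) ∣ y - y' →
        (if y % (M : ℤ) = b then (1 : ℂ) else 0) = if y' % (M : ℤ) = b then (1 : ℂ) else 0 :=
      fun y y' h => hg y y' (dvd_trans ⟨(q : ℤ), by push_cast; rfl⟩ h)
    have e1 := Pool.Agent.HUK.kb3_block (M * q) hN (fun y => if y % (M : ℤ) = b then (1 : ℂ) else 0) hgN 0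
    have e2 := Pool.Agent.HUK.kb3_blocks M hM (fun y => if y % (M : ℤ) = b then (1 : ℂ) else 0) hg 0 q
    have e3 : ∑ y ∈ Ico (0 : ℤ) M, (if y % (M : ℤ) = b then (1 : ℂ) else 0) = 1 := by
      rw [Finset.sum_eq_single b]
      · rw [if_pos]
        rw [mem_Ico] at hb
        exact Int.emod_eq_of_lt hb.1 hb.2
      · intro y hy hyb
        rw [if_neg]
        rw [mem_Ico] at hy
        rw [Int.emod_eq_of_lt hy.1 hy.2]
        exact hyb
      · intro h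
        exact absurd hb h
    have e4 : (((Ico (0 : ℤ) ((M * q : ℕ) : ℤ)).filter fun y => y % (M : ℤ) = b).card : ℂ) = q := by
      rw [Finset.card_filter]
      push_cast
      have e5 := e1.symm.trans e2
      rw [e3, mul_one] at e5
      push_cast at e5
      exact e5
    exact_mod_cast e4

theorem fgc5_one (M q : ℕ) (hM : 1 ≤ M) (hq : 1 ≤ q) (g : ℤ → ℂ) (hg : ∀ y y' : ℤ, (M : ℤ) ∣ y - y' → g y = g y') :
    ∑ y ∈ Ico (0 : ℤ) ((M * q : ℕ) : ℤ), g y = q * ∑ y ∈ Ico (0 : ℤ) M, g y := by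
  have hN : 1 ≤ M * q := Nat.mul_pos hM hq
  have hgN : ∀ y y' : ℤ, ((M * q : ℕ) : ℤ) ∣ y - y' → g y = g y' :=
    fun y y' h => hg y y' (dvd_trans ⟨(q : ℤ), by push_cast; rfl⟩ h)
  exact (Pool.Agent.HUK.kb3_block (M * q) hN g hgN 0).symm.trans (Pool.Agent.HUK.kb3_blocks M hM g hg 0 q)

theorem fgc5_pi (k M q : ℕ) (hM : 1 ≤ M) (G : (Fin k → ℤ) → ℝ) (hG : ∀ h, G h = G (fun i => h i % (M : ℤ))) :
    ∑ h ∈ Fintype.piFinset (fun _ : Fin k => Ico (0 : ℤ) ((M * q : ℕ) : ℤ)), G h =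
      (q : ℝ) ^ k * ∑ h ∈ Fintype.piFinset (fun _ : Fin k => Ico (0 : ℤ) M), G h := by
  classical
  have hmap : ∀ h ∈ Fintype.piFinset (fun _ : Fin k => Ico (0 : ℤ) ((M * q : ℕ) : ℤ)),
      (fun i => h i % (M : ℤ)) ∈ Fintype.piFinset (fun _ : Fin k => Ico (0 : ℤ) M) :=
    fun h _ => Fintype.mem_piFinset.2 fun i => Pool.Agent.HUK.kb1_mem M hM (h i)
  rw [← Finset.sum_fiberwise_of_maps_to hmap, Finset.mul_sum]
  refine Finset.sum_congr rfl fun b hb => ?_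
  have h1 : ∑ h ∈ (Fintype.piFinset (fun _ : Fin k => Ico (0 : ℤ) ((M * q : ℕ) : ℤ))).filter
      (fun h => (fun i => h i % (M : ℤ)) = b), G h =
      ∑ h ∈ (Fintype.piFinset (fun _ : Fin k => Ico (0 : ℤ) ((M * q : ℕ) : ℤ))).filter
      (fun h => (fun i => h i % (M : ℤ)) = b), G b := by
    refine Finset.sum_congr rfl fun h hh => ?_
    rw [hG h, (mem_filter.1 hh).2]
  rw [h1, Finset.sum_const, nsmul_eq_mul]
  congr 1
  have h2 : (Fintype.piFinset (fun _ : Fin k => Ico (0 : ℤ) ((M * q : ℕ) : ℤ))).filter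
      (fun h => (fun i => h i % (M : ℤ)) = b) =
      Fintype.piFinset (fun i => (Ico (0 : ℤ) ((M * q : ℕ) : ℤ)).filter fun y => y % (M : ℤ) = b i) := by
    ext h
    rw [mem_filter, Fintype.mem_piFinset, Fintype.mem_piFinset]
    constructor
    · rintro ⟨ha, hc⟩ i
      exact mem_filter.2 ⟨ha i, congrFun hc i⟩
    · intro ha
      exact ⟨fun i => (mem_filter.1 (ha i)).1, funext fun i => (mem_filter.1 (ha i)).2⟩
  rw [h2, Fintype.card_piFinset, Finset.prod_congr rfl fun i _ => fgc5_card M q hM (b i) (Fintype.mem_piFinset.1 hb i),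
    Finset.prod_const, Finset.card_univ, Fintype.card_fin]
  push_cast
  rfl

/-- A multiple of the period. Proof. The sum over `y ∈ Ico 0 (M * q)` is `q` times the sum over `Ico 0 M` (`kb3_blocks` of `HUK/KB3.lean`), and for
the `k` variables `h` in the same way (fibres of the reduction modulo `M`: `q^k` elements; `kb1_sumk` is for coprime moduli, so use
`Finset.sum_fiberwise_of_maps_to` or induction on `k`). -/
theorem FGC5_up (k M q : ℕ) (hM : 1 ≤ M) (hq : 1 ≤ q) (φ : ℤ → (Fin k → ℤ) → ℂ) (hφ : Pe M φ) :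
    Av k (M * q) φ = Av k M φ := by
  have hq0 : (0 : ℝ) < q := by exact_mod_cast hq
  have hM0 : (0 : ℝ) < M := by exact_mod_cast hM
  unfold Av
  have h1 : ∀ h : Fin k → ℤ, ‖∑ y ∈ Ico (0 : ℤ) ((M * q : ℕ) : ℤ), φ y h‖ = (q : ℝ) * ‖∑ y ∈ Ico (0 : ℤ) M, φ y h‖ := by
    intro h
    rw [fgc5_one M q hM hq (fun y => φ y h) (fun y y' hy => hφ y y' h h hy fun i => by rw [sub_self]; exact dvd_zero _),
      norm_mul, Complex.norm_natCast]
  rw [Finset.sum_congr rfl fun h _ => h1 h, ← Finset.mul_sum,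
    fgc5_pi k M q hM (fun h => ‖∑ y ∈ Ico (0 : ℤ) M, φ y h‖) (fun h => by
      show ‖∑ y ∈ Ico (0 : ℤ) M, φ y h‖ = ‖∑ y ∈ Ico (0 : ℤ) M, φ y (fun i => h i % (M : ℤ))‖
      congr 1
      refine Finset.sum_congr rfl fun y _ => hφ y y h _ (by rw [sub_self]; exact dvd_zero _) fun i => Int.dvd_self_sub_emod)]
  rw [div_eq_div_iff (by positivity) (by positivity)]
  push_cast
  ring

/-- the function in terms of residues -/
theorem fgc5_eq {k : ℕ} (p : Ch) (y : ℤ) (h : Fin k → ℤ) :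
    DL (List.ofFn h) (cj p) y = (starRingEnd ℂ) (DL (List.ofFn fun i => ((h i : ℤ) : ZMod p.1))
      (fun z => p.2 z) ((y : ℤ) : ZMod p.1)) := by
  rw [DL_prod, DL_prod, map_prod]
  refine Finset.prod_congr rfl fun ω _ => ?_
  rw [Pool.Agent.HUK.kb5_conj]
  unfold Pool.Agent.Lib.H59P.cj
  congr 3
  unfold Pool.Agent.HUK.vt
  push_cast
  congr 1

/-- Proof. As `KB5_chi` (`HUK/KB5.lean`) without the factors `lam`: `UCH_all s`, `DL_prod`, casts `Ico 0 r → ZMod r` (`kb5_sum`, `kb5_sum_pi`),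
conjugation. -/
theorem FGC5_chi (s : ℕ) (hs : 1 ≤ s) : ∃ C e : ℝ, 0 < C ∧ 0 < e ∧ e ≤ 1 ∧ ∀ p : Ch, 1 ≤ p.1 → p.2.IsPrimitive →
    Av s p.1 (fun (y : ℤ) (h : Fin s → ℤ) => DL (List.ofFn h) (cj p) y) ≤ C * (p.1 : ℝ) ^ (-e) := by
  obtain ⟨C, c, hC, hc, hc1, H⟩ := UCH_all s hs
  refine ⟨C, c, hC, hc, hc1, ?_⟩
  rintro ⟨r, χ⟩ hr hχ
  have hr' : 1 ≤ r := hr
  have hne : NeZero r := ⟨by omega⟩
  have hr0 : (0 : ℝ) < r := by exact_mod_cast hr'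
  show Av s r (fun (y : ℤ) (h : Fin s → ℤ) => DL (List.ofFn h) (cj ⟨r, χ⟩) y) ≤ C * (r : ℝ) ^ (-c)
  unfold Av
  let F : (Fin s → ZMod r) → ℝ := fun t => ‖∑ z : ZMod r, DL (List.ofFn t) (fun z => χ z) z‖
  have h1 : ∀ h : Fin s → ℤ, ‖∑ y ∈ Ico (0 : ℤ) r, DL (List.ofFn h) (cj ⟨r, χ⟩) y‖ =
      F (fun i => ((h i : ℤ) : ZMod r)) := by
    intro h
    have e1 : ∑ y ∈ Ico (0 : ℤ) r, DL (List.ofFn h) (cj ⟨r, χ⟩) y = (starRingEnd ℂ) (∑ z : ZMod r,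
        DL (List.ofFn fun i => ((h i : ℤ) : ZMod r)) (fun z => χ z) z) := by
      rw [map_sum, ← kb5_sum r (fun z : ZMod r => (starRingEnd ℂ)
        (DL (List.ofFn fun i => ((h i : ℤ) : ZMod r)) (fun z => χ z) z))]
      exact Finset.sum_congr rfl fun y _ => fgc5_eq ⟨r, χ⟩ y h
    rw [e1, RCLike.norm_conj]
  have h2 : ∑ h ∈ Fintype.piFinset (fun _ : Fin s => Ico (0 : ℤ) r), ‖∑ y ∈ Ico (0 : ℤ) r, DL (List.ofFn h) (cj ⟨r, χ⟩) y‖ ≤
      C * (r : ℝ) ^ ((s : ℝ) + 1 - c) := by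
    rw [Finset.sum_congr rfl fun h _ => h1 h, kb5_sum_pi s r (fun t : Fin s → ZMod r => F t)]
    exact H r χ hχ
  rw [div_le_iff₀ (by positivity)]
  refine h2.trans (le_of_eq ?_)
  have e3 : (r : ℝ) ^ ((s : ℝ) + 1 - c) = (r : ℝ) ^ (-c) * (r : ℝ) ^ (s + 1) := by
    rw [← Real.rpow_natCast, ← Real.rpow_add hr0]
    congr 1
    push_cast
    ring
  rw [e3]
  ring

/-- Proof. `DL (List.ofFn h) (cj p * u) = DL .. (cj p) * DL .. u` (`DL_mul`), periodic modulo `p.1` resp. `K` (`FGC4_per`, `FGA7_cjper`). `p.1 * K ∣ R`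
(coprime), so by `FGC5_up` and `KB1_mul`: `Av s R = Av s (p.1 * K) = Av s p.1 (..) * Av s K (..) ≤ Av s p.1 (..)` (`KB1_one`, `DL_norm`), `FGC5_chi`. -/
theorem FGC5 (s : ℕ) (hs : 1 ≤ s) : ∃ C e : ℝ, 0 < C ∧ 0 < e ∧ e ≤ 1 ∧ ∀ p : Ch, 1 ≤ p.1 → p.2.IsPrimitive →
    ∀ R K : ℕ, 1 ≤ R → p.1 ∣ R → 1 ≤ K → K ∣ R → Nat.Coprime K p.1 → ∀ u : ℤ → ℂ, (∀ m, ‖u m‖ ≤ 1) → Pz K u →
    Av s R (fun (y : ℤ) (h : Fin s → ℤ) => DL (List.ofFn h) (fun m => cj p m * u m) y) ≤ C * (p.1 : ℝ) ^ (-e) := by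
  obtain ⟨C, e, hC, he, he1, H⟩ := FGC5_chi s hs
  refine ⟨C, e, hC, he, he1, ?_⟩
  intro p hp hχ R K hR hpR hK hKR hcop u hu huK
  have hd : p.1 * K ∣ R := Nat.Coprime.mul_dvd_of_dvd_of_dvd hcop.symm hpR hKR
  obtain ⟨q, hq⟩ := hd
  have hq1 : 1 ≤ q := by
    rcases Nat.eq_zero_or_pos q with h0 | h0
    · rw [h0, mul_zero] at hq
      omega
    · exact h0
  have hpK : 1 ≤ p.1 * K := Nat.mul_pos hp hK
  have e1 : (fun (y : ℤ) (h : Fin s → ℤ) => DL (List.ofFn h) (fun m => cj p m * u m) y) =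
      fun (y : ℤ) (h : Fin s → ℤ) => DL (List.ofFn h) (cj p) y * DL (List.ofFn h) u y := by
    funext y h
    rw [DL_mul]
  have p1 : Pe p.1 (fun (y : ℤ) (h : Fin s → ℤ) => DL (List.ofFn h) (cj p) y) := FGC4_per s p.1 (cj p) (FGA7_cjper p)
  have p2 : Pe K (fun (y : ℤ) (h : Fin s → ℤ) => DL (List.ofFn h) u y) := FGC4_per s K u huK
  rw [e1, hq, FGC5_up s (p.1 * K) q hpK hq1 _ (KB1_per p.1 K _ _ p1 p2), KB1_mul p.1 K hp hK hcop.symm _ _ p1 p2]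
  refine (mul_le_of_le_one_right (KB1_nn _ _ _) ?_).trans (H p hp hχ)
  exact KB1_one s K hK _ fun y h => DL_norm _ u hu y

end Pool.Agent.HUP
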