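import Pool.Agent.Lib.HUP.FGC5
import Pool.Agent.Lib.H24P.D3

/-!
# Project HUP, chunk FGC6 (S/M): the Gowers sum of the function at `i0`
-/

open Finset

namespace Pool.Agent.HUP

open Pool.Agent.Lib.H59P
open Pool.Agent.HUK (GG)

/-- The real inequality. -/
theorem fgc6_real (k s D : ℕ) (C0 C1 e x : ℝ) (hk : 1 ≤ k) (hC0 : 1 ≤ C0) (hC1 : 0 < C1) (he : 0 < e) (he1 : e ≤ 1)
    (hD : 1 ≤ D) (hx : 1 ≤ x) (hbig : 2 * 8 ^ s * C0 ^ (s + 1) * (C1 + 1) ≤ x ^ (e / (2 * k))) :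
    2 * 8 ^ s * ((C0 * (x ^ 2) ^ D) ^ (s + 1) * (C1 * x ^ (-(e / k))) + (C0 * (x ^ 2) ^ D) ^ s * x) ≤
      (x ^ 2) ^ ((D : ℝ) * (s + 1) - e / (4 * k)) := by
  have hx0 : 0 < x := by linarith
  have hk0 : (0 : ℝ) < k := by exact_mod_cast hk
  have hk1 : (1 : ℝ) ≤ k := by exact_mod_cast hk
  have hA : (C0 * (x ^ 2) ^ D) ^ (s + 1) = C0 ^ (s + 1) * x ^ (2 * D * (s + 1)) := by
    rw [mul_pow, ← pow_mul, ← pow_mul, ← mul_assoc]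
  have hek : e / k ≤ 1 := by
    rw [div_le_one hk0]
    linarith
  have hB : (C0 * (x ^ 2) ^ D) ^ s * x ≤ C0 ^ (s + 1) * x ^ (2 * D * (s + 1)) * x ^ (-(e / k)) := by
    have h1 : (C0 * (x ^ 2) ^ D) ^ s = C0 ^ s * x ^ (2 * D * s) := by
      rw [mul_pow, ← pow_mul, ← pow_mul, ← mul_assoc]
    have h2 : x ≤ x ^ 2 * x ^ (-(e / k)) := by
      have h3 : x ^ (-1 : ℝ) ≤ x ^ (-(e / k)) := Real.rpow_le_rpow_of_exponent_le hx (by linarith)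
      have h4 : x ^ 2 * x ^ (-1 : ℝ) = x := by
        rw [Real.rpow_neg_one]
        field_simp
      calc x = x ^ 2 * x ^ (-1 : ℝ) := h4.symm
        _ ≤ x ^ 2 * x ^ (-(e / k)) := mul_le_mul_of_nonneg_left h3 (by positivity)
    have h5 : x ^ (2 * D * s) * x ^ 2 ≤ x ^ (2 * D * (s + 1)) := by
      rw [← pow_add]
      refine pow_le_pow_right₀ hx ?_
      nlinarith
    have h6 : C0 ^ s ≤ C0 ^ (s + 1) := pow_le_pow_right₀ hC0 (Nat.le_succ s)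
    have hr : 0 < x ^ (-(e / k)) := Real.rpow_pos_of_pos hx0 _
    rw [h1]
    calc C0 ^ s * x ^ (2 * D * s) * x ≤ C0 ^ s * x ^ (2 * D * s) * (x ^ 2 * x ^ (-(e / k))) :=
          mul_le_mul_of_nonneg_left h2 (by positivity)
      _ = C0 ^ s * (x ^ (2 * D * s) * x ^ 2) * x ^ (-(e / k)) := by ring
      _ ≤ C0 ^ (s + 1) * x ^ (2 * D * (s + 1)) * x ^ (-(e / k)) := by
          refine mul_le_mul_of_nonneg_right ?_ hr.le
          exact mul_le_mul h6 h5 (by positivity) (by positivity)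
  have hr : 0 < x ^ (-(e / k)) := Real.rpow_pos_of_pos hx0 _
  have h7 : 2 * 8 ^ s * ((C0 * (x ^ 2) ^ D) ^ (s + 1) * (C1 * x ^ (-(e / k))) + (C0 * (x ^ 2) ^ D) ^ s * x) ≤
      2 * 8 ^ s * C0 ^ (s + 1) * (C1 + 1) * (x ^ (2 * D * (s + 1)) * x ^ (-(e / k))) := by
    rw [hA]
    have h8 : C0 ^ (s + 1) * x ^ (2 * D * (s + 1)) * (C1 * x ^ (-(e / k))) + (C0 * (x ^ 2) ^ D) ^ s * x ≤
        C0 ^ (s + 1) * (C1 + 1) * (x ^ (2 * D * (s + 1)) * x ^ (-(e / k))) := by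
      nlinarith [hB]
    have h9 := mul_le_mul_of_nonneg_left h8 (show (0 : ℝ) ≤ 2 * 8 ^ s by positivity)
    refine h9.trans (le_of_eq ?_)
    ring
  refine h7.trans ?_
  have h10 : x ^ (e / (2 * k)) * (x ^ (2 * D * (s + 1)) * x ^ (-(e / k))) = (x ^ 2) ^ ((D : ℝ) * (s + 1) - e / (4 * k)) := by
    rw [← Real.rpow_natCast x (2 * D * (s + 1)), ← Real.rpow_natCast x 2, ← Real.rpow_mul hx0.le, ← Real.rpow_add hx0, ← Real.rpow_add hx0]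
    congr 1
    push_cast
    field_simp
    ring
  rw [← h10]
  exact mul_le_mul_of_nonneg_right hbig (by positivity)

/-- `R = lcm r_i ≤ ∏ r_i` (`d3_lcm_le` in `H24P/D3.lean`), so some `r_i ≥ R^(1/k)` (as in `d3_large`). -/
theorem FGC6_large {k : ℕ} (hk : 1 ≤ k) (r : Fin k → ℕ) (hr : ∀ i, 1 ≤ r i) (R : ℕ) (hR : R = univ.lcm r) :
    ∃ i, (R : ℝ) ^ ((1 : ℝ) / k) ≤ r i := by
  by_contra hcon
  push Not at hcon
  have hk' : ((1 : ℝ) / k) * k = 1 := by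
    have : (k : ℝ) ≠ 0 := by positivity
    field_simp
  have h1 : (∏ i, (r i : ℝ)) < ∏ _i : Fin k, (R : ℝ) ^ ((1 : ℝ) / k) := by
    refine prod_lt_prod_of_nonempty (fun i _ => ?_) (fun i _ => hcon i) ⟨⟨0, hk⟩, mem_univ _⟩
    exact_mod_cast hr i
  rw [prod_const, card_univ, Fintype.card_fin, ← Real.rpow_natCast, ← Real.rpow_mul (by positivity), hk', Real.rpow_one] at h1
  have h2 : (∏ i, r i) < R := by exact_mod_cast h1
  have h3 := Pool.Agent.Lib.H24P.d3_lcm_le r hr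
  omega

/-- Proof. `X = R^2`, `Y = C0 * X^D`. `FGC4` and `FGC5`: `GG ≤ 2 * 8^s (Y^(s+1) C1 r^(-e) + Y^s R)`. `Y^(s+1) = C0^(s+1) R^(2D(s+1))`,
`r^(-e) ≤ R^(-e/k)`, `Y^s R ≤ C0^s R^(2Ds + 1) ≤ C0^s R^(2D(s+1)) R^(-1)` (`D ≥ 1`), `e/k ≤ 1`: at most `C2 R^(2D(s+1) - e/k)`,
`C2 = 2 * 8^s C0^(s+1) (C1 + 1)`. With `κ = e/(4k)`: `R^(2D(s+1) - 2κ) = R^(2D(s+1) - e/k + e/(2k))`, so it suffices that `C2 ≤ R^(e/(2k))`: true for
`R ≥ R0`. -/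
theorem FGC6 (k s C0 D : ℕ) (hk : 1 ≤ k) (hs : 1 ≤ s) (hC0 : 1 ≤ C0) (hD : 1 ≤ D) : ∃ κ : ℝ, 0 < κ ∧ ∃ R0 : ℕ,
    ∀ R : ℕ, R0 ≤ R → 1 ≤ R → ∀ p : Ch, 1 ≤ p.1 → p.2.IsPrimitive → p.1 ∣ R → (R : ℝ) ^ ((1 : ℝ) / k) ≤ p.1 →
    ∀ K : ℕ, 1 ≤ K → K ∣ R → Nat.Coprime K p.1 → ∀ u : ℤ → ℂ, (∀ m, ‖u m‖ ≤ 1) → Pz K u →
    GG (C0 * (R ^ 2) ^ D) s (fun m => if m ∈ Ico (-((C0 * (R ^ 2) ^ D : ℕ) : ℤ)) ((C0 * (R ^ 2) ^ D : ℕ) : ℤ) then
      cj p m * u m else 0) ≤ (((R ^ 2 : ℕ) : ℝ)) ^ ((D : ℝ) * (s + 1) - κ) := by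
  obtain ⟨C1, e, hC1, he, he1, H⟩ := FGC5 s hs
  have hk0 : (0 : ℝ) < k := by exact_mod_cast hk
  have hexp : 0 < e / (2 * k) := by positivity
  have htend : Filter.Tendsto (fun X : ℕ => (X : ℝ) ^ (e / (2 * k))) Filter.atTop Filter.atTop :=
    (tendsto_rpow_atTop hexp).comp tendsto_natCast_atTop_atTop
  obtain ⟨R0, hR0⟩ := Filter.eventually_atTop.1 (htend.eventually_ge_atTop (2 * 8 ^ s * (C0 : ℝ) ^ (s + 1) * (C1 + 1)))
  refine ⟨e / (4 * k), by positivity, R0, ?_⟩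
  intro R hRR hR1 p hp1 hprim hpR hlarge K hK1 hKR hcop u hu huK
  have hC0r : (1 : ℝ) ≤ C0 := by exact_mod_cast hC0
  have hRr : (1 : ℝ) ≤ R := by exact_mod_cast hR1
  have hRpos : (0 : ℝ) < R := by linarith
  have hRY : R ≤ C0 * (R ^ 2) ^ D := by
    have h1 : R ≤ (R ^ 2) ^ D := by
      rw [← pow_mul]
      exact Nat.le_self_pow (by omega) R
    exact h1.trans (Nat.le_mul_of_pos_left _ hC0)
  have hφ : ∀ m, ‖(fun m => cj p m * u m) m‖ ≤ 1 := by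
    intro m
    simp only [norm_mul]
    exact mul_le_one₀ (FGA7_cjle p m) (norm_nonneg _) (hu m)
  have hper : Pz R (fun m => cj p m * u m) := by
    intro m m' hm
    have h1 : cj p m = cj p m' := FGA7_cjper p m m' ((Int.natCast_dvd_natCast.2 hpR).trans hm)
    have h2 : u m = u m' := huK m m' ((Int.natCast_dvd_natCast.2 hKR).trans hm)
    simp only [h1, h2]
  have h1 := FGC4 s R (C0 * (R ^ 2) ^ D) hR1 hRY (fun m => cj p m * u m) hφ hper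
  have h2 := H p hp1 hprim R K hR1 hpR hK1 hKR hcop u hu huK
  have h3 : (p.1 : ℝ) ^ (-e) ≤ (R : ℝ) ^ (-(e / k)) := by
    have h4 : (0 : ℝ) < (R : ℝ) ^ ((1 : ℝ) / k) := Real.rpow_pos_of_pos hRpos _
    have h5 := Real.rpow_le_rpow_of_nonpos h4 hlarge (show -e ≤ 0 by linarith)
    rw [← Real.rpow_mul hRpos.le] at h5
    have h6 : (1 : ℝ) / k * -e = -(e / k) := by ring
    rwa [h6] at h5
  have h4 := h2.trans (mul_le_mul_of_nonneg_left h3 hC1.le)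
  refine h1.trans ?_
  push_cast
  refine le_trans ?_ (fgc6_real k s D (C0 : ℝ) C1 e R hk hC0r hC1 he he1 hD hRr (hR0 R hRR))
  refine mul_le_mul_of_nonneg_left ?_ (by positivity)
  refine add_le_add ?_ le_rfl
  exact mul_le_mul_of_nonneg_left h4 (by positivity)

end Pool.Agent.HUP
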