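import Pool.Agent.Lib.HUP.FGC1
import Pool.Agent.Lib.HUP.FGC2
import Pool.Agent.Lib.HUP.FGC3
import Pool.Agent.Lib.HUP.FGC6
import Pool.Agent.Lib.HUP.FGA7

/-!
# Project HUP, chunk FGC7 (M): the factor at `R` for one `i0`
-/

open Finset Polynomial

namespace Pool.Agent.HUP

open Pool.Agent.Lib.H59P
open Pool.Agent.HUK (GG)

/-- The size of the linear form. -/
theorem fgc7_lf {k d : ℕ} {c : Fin k → Fin d → ℤ} {e : Fin d → ℕ} {D : Fin k → ℕ} {a : Fin k → ℤ} (h : Dat c e D a)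
    (X : ℕ) (t : Fin d → ℤ) (ht : t ∈ tb 0 (fun j => X ^ e j)) (i : Fin k) :
    |lf c t i| ≤ ((∑ j, (c i j).natAbs : ℕ) : ℤ) * (X : ℤ) ^ D i := by
  unfold lf
  refine (Finset.abs_sum_le_sum_abs _ _).trans ?_
  rw [Nat.cast_sum, Finset.sum_mul]
  refine Finset.sum_le_sum fun j _ => ?_
  have ht' := Fintype.mem_piFinset.1 ht j
  rw [mem_Ico] at ht'
  have h1 : |t j| ≤ (X : ℤ) ^ e j := by
    rw [abs_of_nonneg (by simpa using ht'.1)]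
    have h2 := ht'.2
    push_cast at h2
    have h3 : ((0 : Fin d → ℤ) j) = 0 := rfl
    rw [h3, zero_add] at h2
    exact h2.le
  rw [abs_mul, Int.natCast_natAbs]
  by_cases hc : c i j = 0
  · rw [hc, abs_zero, zero_mul, zero_mul]
  · rw [← h.blk i j hc]
    exact mul_le_mul_of_nonneg_left h1 (abs_nonneg _)

/-- The argument is in the window. -/
theorem fgc7_win {k d : ℕ} {c : Fin k → Fin d → ℤ} {e : Fin d → ℕ} {D : Fin k → ℕ} {a : Fin k → ℤ} (h : Dat c e D a)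
    (C0 X R : ℕ) (hR : 1 ≤ R) (hRX : R ≤ X) (i : Fin k)
    (hC0 : (a i).natAbs + D i + ∑ j, (c i j).natAbs + 2 ≤ C0) (P : Fin k → ℤ[X]) (β : Fin k → ℤ)
    (hβ : 0 ≤ β i ∧ β i < R) (n : ℤ) (hP : |(P i).eval n| ≤ ((a i).natAbs + D i) * (X : ℤ) ^ D i)
    (t : Fin d → ℤ) (ht : t ∈ tb 0 (fun j => X ^ e j)) :
    (P i).eval n + (β i + lf c t i) ∈ Ico (-((C0 * X ^ D i : ℕ) : ℤ)) ((C0 * X ^ D i : ℕ) : ℤ) := by
  have h1 := fgc7_lf h X t ht i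
  have hX : (1 : ℤ) ≤ X := by exact_mod_cast hR.trans hRX
  have h2 : β i < (X : ℤ) ^ D i := by
    refine hβ.2.trans_le ?_
    have h3 : (R : ℤ) ≤ X := by exact_mod_cast hRX
    exact h3.trans (le_self_pow₀ hX (by have := h.deg i; omega))
  have hX1 : (1 : ℤ) ≤ (X : ℤ) ^ D i := one_le_pow₀ hX
  have hC : (((a i).natAbs : ℤ) + D i + ((∑ j, (c i j).natAbs : ℕ) : ℤ) + 2) * (X : ℤ) ^ D i ≤
      (C0 : ℤ) * (X : ℤ) ^ D i := by
    refine mul_le_mul_of_nonneg_right ?_ (by linarith)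
    exact_mod_cast hC0
  have h4 := abs_le.1 h1
  have h5 := abs_le.1 hP
  rw [mem_Ico]
  push_cast
  push_cast at hC h4 h5
  constructor
  · nlinarith [h4.1, h5.1, hβ.1]
  · nlinarith [h4.2, h5.2]

/-- The mean with weights for polynomials with small lower coefficients. Proof. `C0 = ∑ i, ((a i).natAbs + D i + ∑ j, (c i j).natAbs) + 2`, `s` from
`FMT i0 C0`, `κ` from `FGC6` (with `k`, `s`, `C0`, `D i0`), `δ` and `X0` from `FMT`; `R1 ≥ R0` of `FGC6`, `R1 ≥ X0`, `1`. Given `w : ℤ → ℂ`, replace it by the periodic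
`n ↦ w (n % R)` (the same on `Ico 0 R`). `FMT` with `X = R^2`, `b = 0`, `σ j = X^(e j)`, `n0 = 0`, `N = X`, `f i m = cj (p i) m * u i m` times the
indicator function of `[-C0 X^(D i), C0 X^(D i))` (for ALL `i`). In the range all arguments are in the windows:
`|P i (n)| ≤ (|a i| + D i) X^(D i)` (hypothesis), `0 ≤ β i < R ≤ X^(D i)`, `|lf c t i| ≤ ∑_j |c i j| X^(e j)` and `e j = D i` where `c i j ≠ 0` (`Dat.blk`). So the sum is
that of `FGC3` with `G n t = ∏ i, cj (p i) (yy ..) * u i (yy ..)` (periodic modulo `R`: `FGA7_yy`, `FGA7_cjper`, `FGA7_up`), and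
`∑_{B0} ≤ R^d X^(2 + ∑ e j - δ) / (X^(∑ e j) R^2) = R^(d + 2) R^(-2δ)`, i.e. `(R^(-δ))^2 R^d R^2`. -/
theorem FGC7_w {k d : ℕ} {c : Fin k → Fin d → ℤ} {e : Fin d → ℕ} {D : Fin k → ℕ} {a : Fin k → ℤ} (h : Dat c e D a)
    (hF : FMT c e D a) (i0 : Fin k) : ∃ δ : ℝ, 0 < δ ∧ ∃ R1 : ℕ, ∀ P : Fin k → ℤ[X], HasD D a P →
    ∀ (β : Fin k → ℤ) (p : Fin k → Ch), (∀ i, 1 ≤ (p i).1 ∧ (p i).2.IsPrimitive) → ∀ R : ℕ,
    R = univ.lcm (fun i => (p i).1) → R1 ≤ R → (R : ℝ) ^ ((1 : ℝ) / k) ≤ (p i0).1 → (∀ i, 0 ≤ β i ∧ β i < R) →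
    (∀ (i : Fin k) (X : ℕ) (n : ℤ), R ≤ X → 0 ≤ n → n < X → |(P i).eval n| ≤ ((a i).natAbs + D i) * (X : ℤ) ^ D i) →
    ∀ (K : Fin k → ℕ) (u : Fin k → ℤ → ℂ), (∀ i, 1 ≤ K i ∧ K i ∣ R ∧ Nat.Coprime (K i) (p i).1) →
    (∀ i, Pz (K i) (u i)) → (∀ i m, ‖u i m‖ ≤ 1) → ∀ w : ℤ → ℂ, (∀ n, ‖w n‖ ≤ 1) →
    ∑ t ∈ B0 d R, ‖∑ n ∈ Ico (0 : ℤ) R, w n * ∏ i, (cj (p i) (yy c P β i n t) * u i (yy c P β i n t))‖ ^ 2 ≤
      ((R : ℝ) ^ (-δ)) ^ 2 * (R : ℝ) ^ d * (R : ℝ) ^ 2 := by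
  have hk : 1 ≤ k := Nat.one_le_iff_ne_zero.2 (fun h0 => by subst h0; exact i0.elim0)
  obtain ⟨s, hs2, hF1⟩ := hF i0 (∑ i, ((a i).natAbs + D i + ∑ j, (c i j).natAbs + 2))
  set C0 : ℕ := ∑ i, ((a i).natAbs + D i + ∑ j, (c i j).natAbs + 2) with hC0
  have hC0i : ∀ i, (a i).natAbs + D i + ∑ j, (c i j).natAbs + 2 ≤ C0 := fun i =>
    Finset.single_le_sum (f := fun i => (a i).natAbs + D i + ∑ j, (c i j).natAbs + 2) (fun _ _ => Nat.zero_le _)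
      (mem_univ i)
  have hC01 : 1 ≤ C0 := by have := hC0i i0; omega
  obtain ⟨κ, hκ, R0, h6⟩ := FGC6 k s C0 (D i0) hk (by omega) hC01 (h.deg i0)
  obtain ⟨δ, hδ, X0, hF2⟩ := hF1 κ hκ
  refine ⟨δ, hδ, R0 + X0 + 1, ?_⟩
  intro P hP β p hp R hR hR1 hpi0 hβ hPb K u hK hu hule w hw
  have hR1' : 1 ≤ R := by omega
  have hRX : R ≤ R ^ 2 := by nlinarith
  set w' : ℤ → ℂ := fun n => w (n % R) with hw'
  have hwper : Pz R w' := by
    intro m m' hm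
    rw [hw']
    exact congrArg w (Int.emod_eq_emod_iff_emod_sub_eq_zero.2 (Int.emod_eq_zero_of_dvd hm))
  have hdiv : ∀ i, (p i).1 ∣ R := fun i => by
    rw [hR]
    exact Finset.dvd_lcm (mem_univ i)
  set G : ℤ → (Fin d → ℤ) → ℂ := fun n t => ∏ i, (cj (p i) (yy c P β i n t) * u i (yy c P β i n t)) with hG
  have hGper : ∀ (n m : ℤ) (t t' : Fin d → ℤ), (R : ℤ) ∣ n - m → (∀ j, (R : ℤ) ∣ t j - t' j) → G n t = G m t' := by
    intro n m t t' h1 h2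
    refine Finset.prod_congr rfl fun i _ => ?_
    have h3 := FGA7_yy c P β i R n m t t' h1 h2
    rw [FGA7_up _ R (hdiv i) _ (FGA7_cjper (p i)) _ _ h3, FGA7_up _ R (hK i).2.1 _ (hu i) _ _ h3]
  have h3 := FGC3 R hR1' e h.par G hGper w' hwper
  -- the second moment
  have hmom := hF2 (R ^ 2) (by omega) P hP β 0 (fun j => (R ^ 2) ^ e j)
    (fun j => Nat.le_mul_of_pos_left _ (by omega)) 0 (R ^ 2)
    (by rw [zero_add]; exact Nat.le_mul_of_pos_left _ (by omega)) (fun n => w' (n : ℤ)) (fun n => hw _)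
    (fun i m => if m ∈ Ico (-((C0 * (R ^ 2) ^ D i : ℕ) : ℤ)) ((C0 * (R ^ 2) ^ D i : ℕ) : ℤ) then
      cj (p i) m * u i m else 0)
    (by
      intro i m
      by_cases hm : m ∈ Ico (-((C0 * (R ^ 2) ^ D i : ℕ) : ℤ)) ((C0 * (R ^ 2) ^ D i : ℕ) : ℤ)
      · rw [if_pos hm, norm_mul]
        exact mul_le_one₀ (FGA7_cjle _ _) (norm_nonneg _) (hule _ _)
      · rw [if_neg hm, norm_zero]
        exact zero_le_one)
    (fun i m hm => if_neg hm)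
    (h6 R (by omega) hR1' (p i0) (hp i0).1 (hp i0).2 (hdiv i0) hpi0 (K i0) (hK i0).1 (hK i0).2.1 (hK i0).2.2 (u i0)
      (hule i0) (hu i0))
  have hlong : ∑ t ∈ tb 0 (fun j => (R ^ 2) ^ e j),
      ‖∑ n ∈ Ico (0 : ℕ) (0 + R ^ 2), w' ((n : ℕ) : ℤ) * G ((n : ℕ) : ℤ) t‖ ^ 2 ≤
        ((R ^ 2 : ℕ) : ℝ) ^ (2 + (∑ j, (e j : ℝ)) - δ) := by
    refine le_trans (le_of_eq ?_) hmom
    refine Finset.sum_congr rfl fun t ht => ?_
    congr 2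
    refine Finset.sum_congr rfl fun n hn => ?_
    congr 1
    refine Finset.prod_congr rfl fun i _ => ?_
    rw [mem_Ico, zero_add] at hn
    have h7 := fgc7_win h C0 (R ^ 2) R hR1' hRX i (hC0i i) P β (hβ i) (n : ℤ)
      (hPb i (R ^ 2) n hRX (by omega) (by exact_mod_cast hn.2)) t ht
    rw [if_pos h7]
    rfl
  have hshort : ∑ t ∈ B0 d R, ‖∑ n ∈ Ico (0 : ℤ) R, w n * G n t‖ ^ 2 =
      ∑ t ∈ B0 d R, ‖∑ n ∈ Ico (0 : ℤ) R, w' n * G n t‖ ^ 2 := by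
    refine Finset.sum_congr rfl fun t _ => ?_
    congr 2
    refine Finset.sum_congr rfl fun n hn => ?_
    rw [mem_Ico] at hn
    rw [hw']
    change w n * G n t = w (n % R) * G n t
    rw [Int.emod_eq_of_lt hn.1 hn.2]
  change ∑ t ∈ B0 d R, ‖∑ n ∈ Ico (0 : ℤ) R, w n * G n t‖ ^ 2 ≤ _
  rw [hshort]
  have hRpos : (0 : ℝ) < R := by exact_mod_cast hR1'
  have hprod : (∏ j, ((R : ℝ) ^ 2) ^ e j) = ((R : ℝ) ^ 2) ^ (∑ j, (e j : ℝ)) := by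
    rw [Finset.prod_pow_eq_pow_sum, ← Real.rpow_natCast ((R : ℝ) ^ 2), Nat.cast_sum]
  have hY : (0 : ℝ) < (R : ℝ) ^ 2 := by positivity
  rw [hprod] at h3
  set S1 := ∑ t ∈ tb 0 (fun j => (R ^ 2) ^ e j),
      ‖∑ n ∈ Ico (0 : ℕ) (0 + R ^ 2), w' ((n : ℕ) : ℤ) * G ((n : ℕ) : ℤ) t‖ ^ 2 with hS1
  set S2 := ∑ t ∈ B0 d R, ‖∑ n ∈ Ico (0 : ℤ) R, w' n * G n t‖ ^ 2 with hS2
  have hpw : ((R ^ 2 : ℕ) : ℝ) ^ (2 + (∑ j, (e j : ℝ)) - δ) =
      ((R : ℝ) ^ 2) ^ (∑ j, (e j : ℝ)) * ((R : ℝ) ^ 2 * ((R : ℝ) ^ 2 * ((R : ℝ) ^ (-δ)) ^ 2)) := by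
    push_cast
    rw [show 2 + (∑ j, (e j : ℝ)) - δ = (∑ j, (e j : ℝ)) + (2 + (-δ)) by ring, Real.rpow_add hY, Real.rpow_add hY,
      ← Real.rpow_natCast ((R : ℝ) ^ (-δ)) 2, ← Real.rpow_natCast ((R : ℝ)) 2, ← Real.rpow_mul hRpos.le,
      ← Real.rpow_mul hRpos.le, ← Real.rpow_mul hRpos.le, ← Real.rpow_mul hRpos.le]
    congr 1
    rw [← Real.rpow_add hRpos, ← Real.rpow_add hRpos, ← Real.rpow_add hRpos]
    congr 1
    push_cast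
    ring
  rw [hpw] at hlong
  have hE : (0 : ℝ) < ((R : ℝ) ^ 2) ^ (∑ j, (e j : ℝ)) := Real.rpow_pos_of_pos hY _
  have h8 : ((R : ℝ) ^ 2) ^ (∑ j, (e j : ℝ)) * ((R : ℝ) ^ 2 * S2) ≤
      ((R : ℝ) ^ 2) ^ (∑ j, (e j : ℝ)) * ((R : ℝ) ^ 2 * (((R : ℝ) ^ (-δ)) ^ 2 * (R : ℝ) ^ d * (R : ℝ) ^ 2)) := by
    rw [← h3]
    refine (mul_le_mul_of_nonneg_left hlong (by positivity)).trans (le_of_eq ?_)
    ring
  exact le_of_mul_le_mul_left (le_of_mul_le_mul_left h8 hE) hY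

/-- Proof. `FGC1` gives `P'`, and `β' i = β i % R`; `yy c P β i n t ≡ yy c P' β' i n t` modulo `R`, all functions have period `R`, so `ms` does not
change when `P`, `β` are replaced by `P'`, `β'` (pointwise). `∏ i, (A i * B i) = (∏ i, A i) * ∏ i, B i`, `FGC2` with `δ = R^(-δ)`, `FGC7_w`. -/
theorem FGC7 {k d : ℕ} {c : Fin k → Fin d → ℤ} {e : Fin d → ℕ} {D : Fin k → ℕ} {a : Fin k → ℤ} (h : Dat c e D a)
    (hF : FMT c e D a) (i0 : Fin k) : ∃ δ : ℝ, 0 < δ ∧ ∃ R1 : ℕ, ∀ P : Fin k → ℤ[X], HasD D a P →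
    ∀ (β : Fin k → ℤ) (p : Fin k → Ch), (∀ i, 1 ≤ (p i).1 ∧ (p i).2.IsPrimitive) → ∀ R : ℕ,
    R = univ.lcm (fun i => (p i).1) → R1 ≤ R → (R : ℝ) ^ ((1 : ℝ) / k) ≤ (p i0).1 →
    ∀ (K : Fin k → ℕ) (u g' : Fin k → ℤ → ℂ), (∀ i, 1 ≤ K i ∧ K i ∣ R ∧ Nat.Coprime (K i) (p i).1) →
    (∀ i, Pz (K i) (u i)) → (∀ i m, ‖u i m‖ ≤ 1) → (∀ i, Pz R (g' i)) → (∀ i m, ‖g' i m‖ ≤ 1) →
    ms R (fun n n' t => ∏ i, ((cj (p i) (yy c P β i n t) * u i (yy c P β i n t)) * g' i (yy c P β i n' t))) ≤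
      (R : ℝ) ^ (-δ) := by
  obtain ⟨δ, hδ, R1, h7⟩ := FGC7_w h hF i0
  refine ⟨δ, hδ, R1 + 1, ?_⟩
  intro P hP β p hp R hR hR1 hpi0 K u g' hK hu hule hg hgle
  have hR1' : 1 ≤ R := by omega
  obtain ⟨P', hP', hPP, hPb⟩ := FGC1 D a h.deg P hP R hR1'
  have hRz : (0 : ℤ) < R := by exact_mod_cast hR1'
  have hdiv : ∀ i, (p i).1 ∣ R := fun i => by
    rw [hR]
    exact Finset.dvd_lcm (mem_univ i)
  have hyy : ∀ (i : Fin k) (n : ℤ) (t : Fin d → ℤ),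
      (R : ℤ) ∣ yy c P β i n t - yy c P' (fun i => β i % R) i n t := by
    intro i n t
    unfold yy
    have h1 : (R : ℤ) ∣ β i - β i % R := Int.dvd_self_sub_emod
    have h2 := dvd_add (hPP i n) h1
    have h3 : (P i).eval n + (β i + lf c t i) - ((P' i).eval n + (β i % R + lf c t i)) =
        (P i).eval n - (P' i).eval n + (β i - β i % R) := by ring
    rw [h3]
    exact h2
  have hcj : ∀ (i : Fin k) (n : ℤ) (t : Fin d → ℤ),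
      cj (p i) (yy c P β i n t) = cj (p i) (yy c P' (fun i => β i % R) i n t) := fun i n t =>
    FGA7_up _ R (hdiv i) _ (FGA7_cjper (p i)) _ _ (hyy i n t)
  have huu : ∀ (i : Fin k) (n : ℤ) (t : Fin d → ℤ),
      u i (yy c P β i n t) = u i (yy c P' (fun i => β i % R) i n t) := fun i n t =>
    FGA7_up _ R (hK i).2.1 _ (hu i) _ _ (hyy i n t)
  have hgg : ∀ (i : Fin k) (n : ℤ) (t : Fin d → ℤ),
      g' i (yy c P β i n t) = g' i (yy c P' (fun i => β i % R) i n t) := fun i n t => hg i _ _ (hyy i n t)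
  have hF' : (fun (n n' : ℤ) (t : Fin d → ℤ) =>
        ∏ i, ((cj (p i) (yy c P β i n t) * u i (yy c P β i n t)) * g' i (yy c P β i n' t))) =
      fun n n' t => (∏ i, (cj (p i) (yy c P' (fun i => β i % R) i n t) * u i (yy c P' (fun i => β i % R) i n t))) *
        ∏ i, g' i (yy c P' (fun i => β i % R) i n' t) := by
    funext n n' t
    rw [← Finset.prod_mul_distrib]
    exact Finset.prod_congr rfl fun i _ => by rw [hcj, huu, hgg]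
  rw [hF']
  refine FGC2 R hR1' (fun n t => ∏ i, (cj (p i) (yy c P' (fun i => β i % R) i n t) *
      u i (yy c P' (fun i => β i % R) i n t))) (fun n t => ∏ i, g' i (yy c P' (fun i => β i % R) i n t))
    (fun n t => ?_) (fun n t => ?_) ((R : ℝ) ^ (-δ)) (by positivity) ?_
  · rw [norm_prod]
    refine Finset.prod_le_one (fun _ _ => norm_nonneg _) fun i _ => ?_
    rw [norm_mul]
    exact mul_le_one₀ (FGA7_cjle _ _) (norm_nonneg _) (hule _ _)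
  · rw [norm_prod]
    exact Finset.prod_le_one (fun _ _ => norm_nonneg _) fun i _ => hgle _ _
  · intro w hw
    exact h7 P' hP' (fun i => β i % R) p hp R hR (by omega) hpi0
      (fun i => ⟨Int.emod_nonneg _ hRz.ne', Int.emod_lt_of_pos _ hRz⟩) hPb K u hK hu hule w hw

end Pool.Agent.HUP
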