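import Pool.Agent.Lib.HUP.FG0
import Pool.Agent.Lib.HUK.KB4A

/-!
# Project HUP, chunk FGL0 (S): translations of complete sums
-/

open Finset

namespace Pool.Agent.HUP

open Pool.Agent.Lib.H59P (gl)
open Pool.Agent.HUK (KB4A_mod KB4A_zero KB4A_two)

theorem FGL0_card (d M : ℕ) : (B0 d M).card = M ^ d := by
  unfold B0
  rw [Fintype.card_piFinset]
  simp

/-- Proof. `t ↦ (t j + v j) % M` is a bijection of `B0 d M`, and `f` is periodic. -/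
theorem FGL0_shift {d : ℕ} (M : ℕ) (hM : 1 ≤ M) (f : (Fin d → ℤ) → ℝ)
    (hf : ∀ t t' : Fin d → ℤ, (∀ j, (M : ℤ) ∣ t j - t' j) → f t = f t') (v : Fin d → ℤ) :
    ∑ t ∈ B0 d M, f (fun j => t j + v j) = ∑ t ∈ B0 d M, f t := by
  have hM0 : (0 : ℤ) < M := by exact_mod_cast hM
  refine sum_nbij' (fun t j => (t j + v j) % (M : ℤ)) (fun t j => (t j - v j) % (M : ℤ)) ?_ ?_ ?_ ?_ ?_
  · intro t _
    refine Fintype.mem_piFinset.2 fun j => mem_Ico.2 ⟨Int.emod_nonneg _ hM0.ne', Int.emod_lt_of_pos _ hM0⟩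
  · intro t _
    refine Fintype.mem_piFinset.2 fun j => mem_Ico.2 ⟨Int.emod_nonneg _ hM0.ne', Int.emod_lt_of_pos _ hM0⟩
  · intro t ht
    funext j
    have h1 := mem_Ico.1 (Fintype.mem_piFinset.1 ht j)
    show ((t j + v j) % (M : ℤ) - v j) % (M : ℤ) = t j
    rw [Int.emod_sub_emod, add_sub_cancel_right]
    exact Int.emod_eq_of_lt h1.1 h1.2
  · intro t ht
    funext j
    have h1 := mem_Ico.1 (Fintype.mem_piFinset.1 ht j)
    show ((t j - v j) % (M : ℤ) + v j) % (M : ℤ) = t j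
    rw [Int.emod_add_emod, sub_add_cancel]
    exact Int.emod_eq_of_lt h1.1 h1.2
  · intro t _
    refine hf _ _ fun j => ?_
    show (M : ℤ) ∣ (t j + v j) - (t j + v j) % (M : ℤ)
    exact Int.dvd_self_sub_emod

/-- From `FGL0_shift` with `v = s v`, summed over `s`. -/
theorem FGL0_avg {d : ℕ} (M : ℕ) (hM : 1 ≤ M) (f : (Fin d → ℤ) → ℝ)
    (hf : ∀ t t' : Fin d → ℤ, (∀ j, (M : ℤ) ∣ t j - t' j) → f t = f t') (v : Fin d → ℤ) :
    (M : ℝ) * ∑ t ∈ B0 d M, f t = ∑ t ∈ B0 d M, ∑ s ∈ Ico (0 : ℤ) M, f (fun j => t j + s * v j) := by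
  rw [sum_comm]
  have h1 : ∀ s ∈ Ico (0 : ℤ) M, ∑ t ∈ B0 d M, f (fun j => t j + s * v j) = ∑ t ∈ B0 d M, f t := by
    intro s _
    exact FGL0_shift M hM f hf fun j => s * v j
  rw [sum_congr rfl h1, sum_const, nsmul_eq_mul]
  simp

/-- Proof. `s ↦ (x + s A) % l` is a bijection of `Ico 0 l` (`l` is prime and does not divide `A`). -/
theorem FGL0_bij (l : ℕ) (hl : l.Prime) (A : ℤ) (hA : ¬ (l : ℤ) ∣ A) (x : ℤ) (F : ℤ → ℝ)
    (hF : ∀ m m' : ℤ, (l : ℤ) ∣ m - m' → F m = F m') :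
    ∑ s ∈ Ico (0 : ℤ) l, F (x + s * A) = ∑ y ∈ Ico (0 : ℤ) l, F y := by
  have hl0 : (0 : ℤ) < l := by exact_mod_cast hl.pos
  have hp : Prime (l : ℤ) := Nat.prime_iff_prime_int.1 hl
  have hm : ∀ s ∈ Ico (0 : ℤ) l, (x + s * A) % (l : ℤ) ∈ Ico (0 : ℤ) l := fun s _ =>
    mem_Ico.2 ⟨Int.emod_nonneg _ hl0.ne', Int.emod_lt_of_pos _ hl0⟩
  have hi : Set.InjOn (fun s : ℤ => (x + s * A) % (l : ℤ)) (Ico (0 : ℤ) l : Finset ℤ) := by
    intro s hs s' hs' h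
    have h1 := mem_Ico.1 (mem_coe.1 hs)
    have h2 := mem_Ico.1 (mem_coe.1 hs')
    have h3 : (l : ℤ) ∣ (x + s * A) - (x + s' * A) := Int.ModEq.dvd (Int.ModEq.symm h)
    have h4 : (x + s * A) - (x + s' * A) = (s - s') * A := by ring
    rw [h4] at h3
    have h5 : (l : ℤ) ∣ s - s' := (hp.dvd_or_dvd h3).resolve_right hA
    have h6 : s - s' = 0 := Int.eq_zero_of_abs_lt_dvd h5 (abs_lt.2 ⟨by linarith [h1.1, h2.2], by linarith [h1.2, h2.1]⟩)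
    linarith
  refine sum_nbij (fun s => (x + s * A) % (l : ℤ)) hm hi ?_ ?_
  · exact surjOn_of_injOn_of_card_le _ hm hi le_rfl
  · intro s _
    exact hF _ _ Int.dvd_self_sub_emod

/-- `FGL0_bij`, `KB4A_zero` with `c = 0`. -/
theorem FGL0_zero (l : ℕ) (hl : l.Prime) (A : ℤ) (hA : ¬ (l : ℤ) ∣ A) (x : ℤ) :
    ∑ s ∈ Ico (0 : ℤ) l, gl l (x + s * A) = 0 := by
  rw [FGL0_bij l hl A hA x (fun m => gl l m) fun m m' h => KB4A_mod l m m' h]
  have h1 := KB4A_zero l hl 0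
  simpa using h1

/-- `FGL0_bij`, `KB4A_two` with `c = 0`. -/
theorem FGL0_two (l : ℕ) (hl : l.Prime) (A : ℤ) (hA : ¬ (l : ℤ) ∣ A) (x : ℤ) :
    ∑ s ∈ Ico (0 : ℤ) l, |gl l (x + s * A)| = 2 := by
  rw [FGL0_bij l hl A hA x (fun m => |gl l m|) fun m m' h => by rw [KB4A_mod l m m' h]]
  have h1 := KB4A_two l hl 0
  simpa using h1

end Pool.Agent.HUP
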