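import Pool.Agent.Lib.HUP.FGL0

/-!
# Project HUP, chunk FGL1 (S/M): local means of one or two factors
-/

open Finset

namespace Pool.Agent.HUP

open Pool.Agent.Lib.H59P (gl)
open Pool.Agent.HUK (KB4A_mod KB4A_le)

theorem fgl1_card (d l : ℕ) : ((B0 d l).card : ℝ) = (l : ℝ) ^ d := by
  rw [FGL0_card]
  push_cast
  rfl

theorem fgl1_single {k d : ℕ} (c : Fin k → Fin d → ℤ) (i : Fin k) (j : Fin d) :
    lf c (Pi.single j 1) i = c i j := by
  unfold lf
  rw [Finset.sum_eq_single j]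
  · rw [Pi.single_eq_same, mul_one]
  · intro b _ hb
    rw [Pi.single_eq_of_ne hb, mul_zero]
  · intro h
    exact absurd (mem_univ j) h

theorem fgl1_per {k d : ℕ} (c : Fin k → Fin d → ℤ) (i : Fin k) (l : ℕ) (x : ℤ) (t t' : Fin d → ℤ)
    (h : ∀ j, (l : ℤ) ∣ t j - t' j) : gl l (x + lf c t i) = gl l (x + lf c t' i) := by
  apply KB4A_mod
  have e : x + lf c t i - (x + lf c t' i) = ∑ j, c i j * (t j - t' j) := by
    unfold lf
    simp only [mul_sub, Finset.sum_sub_distrib]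
    ring
  rw [e]
  exact Finset.dvd_sum fun j _ => (h j).mul_left _

theorem FGL1_lin {k d : ℕ} (c : Fin k → Fin d → ℤ) (i : Fin k) (t v : Fin d → ℤ) (s : ℤ) :
    lf c (fun j => t j + s * v j) i = lf c t i + s * lf c v i := by
  unfold lf
  rw [Finset.mul_sum, ← Finset.sum_add_distrib]
  refine Finset.sum_congr rfl fun j _ => ?_
  ring

/-- Proof. `v = Pi.single j 1`, `lf c v i = c i j`; `FGL0_avg` (`t ↦ gl l (x + lf c t i)` is periodic), `FGL1_lin`, `FGL0_zero`. -/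
theorem FGL1_zero {k d : ℕ} (c : Fin k → Fin d → ℤ) (i : Fin k) (l : ℕ) (hl : l.Prime)
    (hc : ∃ j, ¬ (l : ℤ) ∣ c i j) (x : ℤ) : ∑ t ∈ B0 d l, gl l (x + lf c t i) = 0 := by
  obtain ⟨j, hj⟩ := hc
  have hl0 : (l : ℝ) ≠ 0 := by
    have := hl.pos
    positivity
  have h := FGL0_avg l hl.one_lt.le (fun t => gl l (x + lf c t i)) (fgl1_per c i l x) (Pi.single j 1)
  have h2 : ∑ t ∈ B0 d l, ∑ s ∈ Ico (0 : ℤ) l,
      gl l (x + lf c (fun j' => t j' + s * (Pi.single j 1 : Fin d → ℤ) j') i) = 0 := by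
    refine Finset.sum_eq_zero fun t _ => ?_
    rw [← FGL0_zero l hl (c i j) hj (x + lf c t i)]
    refine Finset.sum_congr rfl fun s _ => ?_
    rw [FGL1_lin, fgl1_single, ← add_assoc]
  rw [h2] at h
  exact (mul_eq_zero.mp h).resolve_left hl0

/-- The same with `FGL0_two`: `l * sum = l^d * 2`. -/
theorem FGL1_abs {k d : ℕ} (c : Fin k → Fin d → ℤ) (i : Fin k) (l : ℕ) (hl : l.Prime)
    (hc : ∃ j, ¬ (l : ℤ) ∣ c i j) (x : ℤ) : ∑ t ∈ B0 d l, |gl l (x + lf c t i)| = 2 / l * (l : ℝ) ^ d := by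
  obtain ⟨j, hj⟩ := hc
  have hl0 : (l : ℝ) ≠ 0 := by
    have := hl.pos
    positivity
  have h := FGL0_avg l hl.one_lt.le (fun t => |gl l (x + lf c t i)|)
    (fun t t' htt => by simp only [fgl1_per c i l x t t' htt]) (Pi.single j 1)
  have h2 : ∑ t ∈ B0 d l, ∑ s ∈ Ico (0 : ℤ) l,
      |gl l (x + lf c (fun j' => t j' + s * (Pi.single j 1 : Fin d → ℤ) j') i)| = (l : ℝ) ^ d * 2 := by
    rw [← fgl1_card d l, ← nsmul_eq_mul, ← Finset.sum_const]
    refine Finset.sum_congr rfl fun t _ => ?_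
    rw [← FGL0_two l hl (c i j) hj (x + lf c t i)]
    refine Finset.sum_congr rfl fun s _ => ?_
    rw [FGL1_lin, fgl1_single, ← add_assoc]
  rw [h2] at h
  field_simp
  linarith

/-- Independent forms. Proof. `FGL0_avg` with `v = u`: the second factor does not change, the first has the sum `2` (`FGL0_two`), so
`l * sum = 2 * ∑ t, |gl l (x' + lf c t i')|`; `FGL1_abs`. -/
theorem FGL1_ind {k d : ℕ} (c : Fin k → Fin d → ℤ) (i i' : Fin k) (l : ℕ) (hl : l.Prime) (u : Fin d → ℤ)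
    (hu : lf c u i' = 0) (hu' : ¬ (l : ℤ) ∣ lf c u i) (hc : ∃ j, ¬ (l : ℤ) ∣ c i' j) (x x' : ℤ) :
    ∑ t ∈ B0 d l, |gl l (x + lf c t i)| * |gl l (x' + lf c t i')| = (2 / l) ^ 2 * (l : ℝ) ^ d := by
  have hl0 : (l : ℝ) ≠ 0 := by
    have := hl.pos
    positivity
  have h := FGL0_avg l hl.one_lt.le (fun t => |gl l (x + lf c t i)| * |gl l (x' + lf c t i')|)
    (fun t t' htt => by simp only [fgl1_per c i l x t t' htt, fgl1_per c i' l x' t t' htt]) u
  have h2 : ∑ t ∈ B0 d l, ∑ s ∈ Ico (0 : ℤ) l,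
      |gl l (x + lf c (fun j' => t j' + s * u j') i)| * |gl l (x' + lf c (fun j' => t j' + s * u j') i')| =
      2 * ∑ t ∈ B0 d l, |gl l (x' + lf c t i')| := by
    rw [Finset.mul_sum]
    refine Finset.sum_congr rfl fun t _ => ?_
    rw [← FGL0_two l hl (lf c u i) hu' (x + lf c t i), Finset.sum_mul]
    refine Finset.sum_congr rfl fun s _ => ?_
    rw [FGL1_lin, FGL1_lin, hu, mul_zero, add_zero, ← add_assoc]
  rw [h2, FGL1_abs c i' l hl hc x'] at h
  field_simp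
  field_simp at h
  linarith

/-- Dependent forms. Proof. `l` does not divide both `x + lf c t i` and `x' + lf c t i'` (else `l ∣ B (x + lf c t i) - A (x' + lf c t i') = B x - A x'`),
so the product is at most `(|gl ..| + |gl ..|) / (l - 1)`, and `FGL1_abs` twice: `4 l^d / (l (l - 1)) ≤ 8 l^d / l²`. -/
theorem FGL1_dep {k d : ℕ} (c : Fin k → Fin d → ℤ) (i i' : Fin k) (l : ℕ) (hl : l.Prime) (A B : ℤ)
    (h : ∀ t : Fin d → ℤ, B * lf c t i = A * lf c t i') (hc : ∃ j, ¬ (l : ℤ) ∣ c i j) (hc' : ∃ j, ¬ (l : ℤ) ∣ c i' j)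
    (x x' : ℤ) (hx : ¬ (l : ℤ) ∣ B * x - A * x') :
    ∑ t ∈ B0 d l, |gl l (x + lf c t i)| * |gl l (x' + lf c t i')| ≤ 8 / (l : ℝ) ^ 2 * (l : ℝ) ^ d := by
  have hl2 : (2 : ℝ) ≤ l := by exact_mod_cast hl.two_le
  have hl0 : (0 : ℝ) < l := by linarith
  have hl1 : (0 : ℝ) < (l : ℝ) - 1 := by linarith
  have hbd : ∀ t ∈ B0 d l, |gl l (x + lf c t i)| * |gl l (x' + lf c t i')| ≤
      1 / ((l : ℝ) - 1) * (|gl l (x + lf c t i)| + |gl l (x' + lf c t i')|) := by
    intro t _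
    by_cases h1 : (l : ℤ) ∣ x + lf c t i
    · have h2 : ¬ (l : ℤ) ∣ x' + lf c t i' := by
        intro h2
        apply hx
        have h3 : B * x - A * x' = B * (x + lf c t i) - A * (x' + lf c t i') := by
          have := h t
          linear_combination -this
        rw [h3]
        exact dvd_sub (h1.mul_left B) (h2.mul_left A)
      have e2 : gl l (x' + lf c t i') = 1 / ((l : ℝ) - 1) := by unfold gl; rw [if_neg h2]
      have p2 : |gl l (x' + lf c t i')| = 1 / ((l : ℝ) - 1) := by rw [e2, abs_of_pos (by positivity)]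
      rw [p2]
      have hp : (0 : ℝ) < 1 / ((l : ℝ) - 1) := by positivity
      nlinarith [abs_nonneg (gl l (x + lf c t i)), mul_pos hp hp]
    · have e1 : gl l (x + lf c t i) = 1 / ((l : ℝ) - 1) := by unfold gl; rw [if_neg h1]
      have p1 : |gl l (x + lf c t i)| = 1 / ((l : ℝ) - 1) := by rw [e1, abs_of_pos (by positivity)]
      rw [p1]
      have hp : (0 : ℝ) < 1 / ((l : ℝ) - 1) := by positivity
      nlinarith [abs_nonneg (gl l (x' + lf c t i')), mul_pos hp hp]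
  refine (Finset.sum_le_sum hbd).trans ?_
  rw [← Finset.mul_sum, Finset.sum_add_distrib, FGL1_abs c i l hl hc x, FGL1_abs c i' l hl hc' x']
  have hpd : (0 : ℝ) < (l : ℝ) ^ d := by positivity
  have h4 : 1 / ((l : ℝ) - 1) ≤ 2 / l := by
    rw [div_le_div_iff₀ hl1 hl0]
    linarith
  calc 1 / ((l : ℝ) - 1) * (2 / l * (l : ℝ) ^ d + 2 / l * (l : ℝ) ^ d)
      ≤ 2 / l * (2 / l * (l : ℝ) ^ d + 2 / l * (l : ℝ) ^ d) :=
        mul_le_mul_of_nonneg_right h4 (by positivity)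
    _ = 8 / (l : ℝ) ^ 2 * (l : ℝ) ^ d := by
        field_simp
        ring

/-- The trivial bound: `|gl| ≤ 1` (`KB4A_le`), `FGL1_abs`. -/
theorem FGL1_triv {k d : ℕ} (c : Fin k → Fin d → ℤ) (i i' : Fin k) (l : ℕ) (hl : l.Prime)
    (hc : ∃ j, ¬ (l : ℤ) ∣ c i j) (x x' : ℤ) :
    ∑ t ∈ B0 d l, |gl l (x + lf c t i)| * |gl l (x' + lf c t i')| ≤ 2 / l * (l : ℝ) ^ d := by
  rw [← FGL1_abs c i l hl hc x]
  refine Finset.sum_le_sum fun t _ => ?_
  exact mul_le_of_le_one_right (abs_nonneg _) (KB4A_le l hl _)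

end Pool.Agent.HUP
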