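import Pool.Agent.Lib.HUP.FGL1

/-!
# Project HUP, chunk FGL2 (M): two factors, mean square over `n` and `n'`
-/

open Finset Polynomial

namespace Pool.Agent.HUP

open Pool.Agent.Lib.H59P (gl)

/-- The sum over `n` when all but few values are small. -/
theorem fgl2_split (l : ℕ) (F : ℤ → ℝ) (p : ℤ → Prop) [DecidablePred p] (a b : ℝ) (D : ℕ) (ha : 0 ≤ a) (hb : 0 ≤ b)
    (h1 : ∀ n, ¬ p n → F n ≤ a) (h2 : ∀ n, F n ≤ b) (hc : ((Ico (0 : ℤ) l).filter p).card ≤ D) :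
    ∑ n ∈ Ico (0 : ℤ) l, F n ≤ l * a + D * b := by
  have h : ∀ n ∈ Ico (0 : ℤ) l, F n ≤ a + if p n then b else 0 := by
    intro n _
    by_cases hp : p n
    · rw [if_pos hp]
      linarith [h2 n]
    · rw [if_neg hp]
      linarith [h1 n hp]
  refine (Finset.sum_le_sum h).trans ?_
  rw [Finset.sum_add_distrib, Finset.sum_const, Int.card_Ico, nsmul_eq_mul, ← Finset.sum_filter, Finset.sum_const,
    nsmul_eq_mul, sub_zero, Int.toNat_natCast]
  have hD : (((Ico (0 : ℤ) l).filter p).card : ℝ) ≤ D := by exact_mod_cast hc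
  have h3 := mul_le_mul_of_nonneg_right hD hb
  linarith

theorem fgl2_num (l Q D : ℝ) (hl : 1 ≤ l) (hQ : 0 ≤ Q) :
    l * (64 * Q / l ^ 4) + D * (4 * Q / l ^ 2) ≤ (80 + 4 * D) * Q / l ^ 2 := by
  have hl0 : (0 : ℝ) < l := by linarith
  have e1 : l * (64 * Q / l ^ 4) = 64 * Q / l ^ 3 := by
    field_simp
  have h1 : 64 * Q / l ^ 3 ≤ 64 * Q / l ^ 2 := by
    apply div_le_div_of_nonneg_left (by positivity) (by positivity)
    exact pow_le_pow_right₀ hl (by norm_num)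
  have e2 : (80 + 4 * D) * Q / l ^ 2 = 64 * Q / l ^ 2 + D * (4 * Q / l ^ 2) + 16 * Q / l ^ 2 := by
    field_simp
    ring
  have h2 : 0 ≤ 16 * Q / l ^ 2 := by positivity
  rw [e1, e2]
  linarith

/-- Proof. The reduction of `G` modulo `l` (in `(ZMod l)[X]`) is not `0` and has degree at most `D`, so at most `D` roots; `n ↦ (n : ZMod l)` is
injective on `Ico 0 l`. -/
theorem FGL2_roots (l : ℕ) (hl : l.Prime) (G : ℤ[X]) (D : ℕ) (hD : G.natDegree ≤ D) (hc : ¬ (l : ℤ) ∣ G.coeff D) :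
    ((Ico (0 : ℤ) l).filter fun n => (l : ℤ) ∣ G.eval n).card ≤ D := by
  have : Fact l.Prime := ⟨hl⟩
  have hne : G.map (Int.castRingHom (ZMod l)) ≠ 0 := by
    intro h0
    apply hc
    have h1 : (G.map (Int.castRingHom (ZMod l))).coeff D = 0 := by rw [h0, coeff_zero]
    rw [coeff_map, eq_intCast] at h1
    exact (ZMod.intCast_zmod_eq_zero_iff_dvd _ _).1 h1
  calc ((Ico (0 : ℤ) l).filter fun n => (l : ℤ) ∣ G.eval n).card
      ≤ (G.map (Int.castRingHom (ZMod l))).roots.toFinset.card := by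
        refine Finset.card_le_card_of_injOn (fun n => (n : ZMod l)) ?_ ?_
        · intro n hn
          have hn' := (Finset.mem_filter.1 hn).2
          rw [Finset.mem_coe, Multiset.mem_toFinset, mem_roots hne, IsRoot.def, eval_intCast_map, eq_intCast]
          exact (ZMod.intCast_zmod_eq_zero_iff_dvd _ _).2 hn'
        · intro n hn m hm hnm
          have h1 := Finset.mem_Ico.1 (Finset.mem_filter.1 hn).1
          have h2 := Finset.mem_Ico.1 (Finset.mem_filter.1 hm).1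
          have h3 := (ZMod.intCast_eq_intCast_iff' n m l).1 hnm
          rwa [Int.emod_eq_of_lt h1.1 h1.2, Int.emod_eq_of_lt h2.1 h2.2] at h3
    _ ≤ (G.map (Int.castRingHom (ZMod l))).roots.card := Multiset.toFinset_card_le _
    _ ≤ (G.map (Int.castRingHom (ZMod l))).natDegree := card_roots' _
    _ ≤ G.natDegree := natDegree_map_le
    _ ≤ D := hD

/-- The sum over `t` of the absolute values of two factors. -/
noncomputable def Sg {k d : ℕ} (c : Fin k → Fin d → ℤ) (P : Fin k → ℤ[X]) (β : Fin k → ℤ) (l : ℕ) (i i' : Fin k) (n n' : ℤ) : ℝ :=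
  ∑ t ∈ B0 d l, |gl l (yy c P β i n t)| * |gl l (yy c P β i' n' t)|

theorem fgl2_Sg {k d : ℕ} (c : Fin k → Fin d → ℤ) (P : Fin k → ℤ[X]) (β : Fin k → ℤ) (l : ℕ) (i i' : Fin k) (n n' : ℤ) :
    Sg c P β l i i' n n' =
      ∑ t ∈ B0 d l, |gl l (((P i).eval n + β i) + lf c t i)| * |gl l (((P i').eval n' + β i') + lf c t i')| := by
  unfold Sg yy
  simp only [add_assoc]

theorem fgl2_nonneg {k d : ℕ} (c : Fin k → Fin d → ℤ) (P : Fin k → ℤ[X]) (β : Fin k → ℤ) (l : ℕ) (i i' : Fin k) (n n' : ℤ) :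
    0 ≤ Sg c P β l i i' n n' := by
  unfold Sg
  exact Finset.sum_nonneg fun t _ => mul_nonneg (abs_nonneg _) (abs_nonneg _)

/-- Independent forms. -/
theorem fgl2_ind {k d : ℕ} (c : Fin k → Fin d → ℤ) (P : Fin k → ℤ[X]) (β : Fin k → ℤ) (l : ℕ) (hl : l.Prime)
    (i i' : Fin k) (u : Fin d → ℤ) (hu : lf c u i' = 0) (hu' : ¬ (l : ℤ) ∣ lf c u i) (hc : ∃ j, ¬ (l : ℤ) ∣ c i' j) (n n' : ℤ) :
    Sg c P β l i i' n n' ^ 2 ≤ 64 * ((l : ℝ) ^ d) ^ 2 / (l : ℝ) ^ 4 := by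
  have hl0 : (0 : ℝ) < l := by exact_mod_cast hl.pos
  rw [fgl2_Sg, FGL1_ind c i i' l hl u hu hu' hc _ _]
  have e : ((2 / (l : ℝ)) ^ 2 * (l : ℝ) ^ d) ^ 2 = 16 * ((l : ℝ) ^ d) ^ 2 / (l : ℝ) ^ 4 := by
    field_simp
    ring
  rw [e]
  gcongr
  norm_num

/-- The trivial bound. -/
theorem fgl2_triv {k d : ℕ} (c : Fin k → Fin d → ℤ) (P : Fin k → ℤ[X]) (β : Fin k → ℤ) (l : ℕ) (hl : l.Prime)
    (i i' : Fin k) (hc : ∃ j, ¬ (l : ℤ) ∣ c i j) (n n' : ℤ) :
    Sg c P β l i i' n n' ^ 2 ≤ 4 * ((l : ℝ) ^ d) ^ 2 / (l : ℝ) ^ 2 := by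
  have hl0 : (0 : ℝ) < l := by exact_mod_cast hl.pos
  have h0 := fgl2_nonneg c P β l i i' n n'
  have h1 : Sg c P β l i i' n n' ≤ 2 / l * (l : ℝ) ^ d := by
    rw [fgl2_Sg]
    exact FGL1_triv c i i' l hl hc _ _
  have e : (2 / (l : ℝ) * (l : ℝ) ^ d) ^ 2 = 4 * ((l : ℝ) ^ d) ^ 2 / (l : ℝ) ^ 2 := by
    field_simp
    ring
  rw [← e]
  exact pow_le_pow_left₀ h0 h1 2

/-- Dependent forms, no common zero. -/
theorem fgl2_dep {k d : ℕ} (c : Fin k → Fin d → ℤ) (P : Fin k → ℤ[X]) (β : Fin k → ℤ) (l : ℕ) (hl : l.Prime)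
    (i i' : Fin k) (A B : ℤ) (h : ∀ t : Fin d → ℤ, B * lf c t i = A * lf c t i') (hc : ∃ j, ¬ (l : ℤ) ∣ c i j)
    (hc' : ∃ j, ¬ (l : ℤ) ∣ c i' j) (n n' : ℤ)
    (hx : ¬ (l : ℤ) ∣ B * ((P i).eval n + β i) - A * ((P i').eval n' + β i')) :
    Sg c P β l i i' n n' ^ 2 ≤ 64 * ((l : ℝ) ^ d) ^ 2 / (l : ℝ) ^ 4 := by
  have hl0 : (0 : ℝ) < l := by exact_mod_cast hl.pos
  have h0 := fgl2_nonneg c P β l i i' n n'
  have h1 : Sg c P β l i i' n n' ≤ 8 / (l : ℝ) ^ 2 * (l : ℝ) ^ d := by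
    rw [fgl2_Sg]
    exact FGL1_dep c i i' l hl A B h hc hc' _ _ hx
  have e : (8 / (l : ℝ) ^ 2 * (l : ℝ) ^ d) ^ 2 = 64 * ((l : ℝ) ^ d) ^ 2 / (l : ℝ) ^ 4 := by
    field_simp
    ring
  rw [← e]
  exact pow_le_pow_left₀ h0 h1 2

theorem fgl2_coeff {k : ℕ} {D : Fin k → ℕ} {a : Fin k → ℤ} {P : Fin k → ℤ[X]} (hP : HasD D a P) (i : Fin k) :
    (P i).coeff (D i) = a i := by
  rw [← (hP i).1]
  exact (hP i).2

theorem fgl2_C (D : ℕ) (hD : 1 ≤ D) (x : ℤ) : (C x : ℤ[X]).coeff D = 0 := by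
  rw [coeff_C, if_neg (by omega)]

/-- Two coordinates at the same `n`. Proof. `yy c P β i n t = ((P i).eval n + β i) + lf c t i`. Independent forms: `Sg ≤ 4 l^d / l²` (`FGL1_ind`), the
sum of the squares is at most `l * 16 l^(2d) / l⁴`. Dependent forms (`D i = D i'`, `A`, `B` from `Gd.pair`): `Sg ≤ 8 l^d / l²` (`FGL1_dep`) unless `l`
divides the value at `n` of `G = B (P i + β i) - A (P i' + β i')` (constants `C _`), which has degree at most `D i` and the coefficient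
`B a i - A a i'` at `D i` (`D i ≥ 1`), so at most `D i` such `n` (`FGL2_roots`), for these `Sg ≤ 2 l^d / l` (`FGL1_triv`). Total
`l * 64 l^(2d)/l⁴ + D i * 4 l^(2d) / l² ≤ (64 + 4 D i) l^(2d) / l²`. -/
theorem FGL2_same {k d : ℕ} {c : Fin k → Fin d → ℤ} {D : Fin k → ℕ} {a : Fin k → ℤ} (l : ℕ) (hl : l.Prime)
    (hG : Gd c D a l) (hD : ∀ i, 1 ≤ D i) (P : Fin k → ℤ[X]) (hP : HasD D a P) (β : Fin k → ℤ) (i i' : Fin k)
    (hi : i ≠ i') :
    ∑ n ∈ Ico (0 : ℤ) l, Sg c P β l i i' n n ^ 2 ≤ (80 + 4 * D i) * ((l : ℝ) ^ d) ^ 2 / (l : ℝ) ^ 2 := by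
  have hl1 : (1 : ℝ) ≤ l := by exact_mod_cast hl.one_lt.le
  have hl0 : (0 : ℝ) < l := by linarith
  rcases hG.pair i i' hi with ⟨u, hu, hu'⟩ | ⟨hDD, A, B, hAB, hA, hB, hBA⟩
  · have h := fgl2_split l (fun n => Sg c P β l i i' n n ^ 2) (fun _ => False)
      (64 * ((l : ℝ) ^ d) ^ 2 / (l : ℝ) ^ 4) (4 * ((l : ℝ) ^ d) ^ 2 / (l : ℝ) ^ 2) (D i) (by positivity) (by positivity)
      (fun n _ => fgl2_ind c P β l hl i i' u hu hu' (hG.form i') n n) (fun n => fgl2_triv c P β l hl i i' (hG.form i) n n)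
      (by rw [Finset.filter_false, Finset.card_empty]; exact Nat.zero_le _)
    exact h.trans (fgl2_num _ _ _ hl1 (by positivity))
  · have hev : ∀ n : ℤ, (C B * (P i + C (β i)) - C A * (P i' + C (β i'))).eval n =
        B * ((P i).eval n + β i) - A * ((P i').eval n + β i') := by
      intro n
      simp only [eval_sub, eval_mul, eval_add, eval_C]
    have hdeg : (C B * (P i + C (β i)) - C A * (P i' + C (β i'))).natDegree ≤ D i := by
      refine (natDegree_sub_le _ _).trans (max_le ?_ ?_)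
      · refine (natDegree_C_mul_le _ _).trans ((natDegree_add_le _ _).trans (max_le (hP i).1.le ?_))
        rw [natDegree_C]
        exact Nat.zero_le _
      · refine (natDegree_C_mul_le _ _).trans ((natDegree_add_le _ _).trans (max_le ?_ ?_))
        · rw [(hP i').1, hDD]
        · rw [natDegree_C]
          exact Nat.zero_le _
    have hco : ¬ (l : ℤ) ∣ (C B * (P i + C (β i)) - C A * (P i' + C (β i'))).coeff (D i) := by
      have e : (P i').coeff (D i) = a i' := by rw [hDD]; exact fgl2_coeff hP i'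
      rw [coeff_sub, coeff_C_mul, coeff_C_mul, coeff_add, coeff_add, fgl2_coeff hP i, e, fgl2_C _ (hD i), fgl2_C _ (hD i),
        add_zero, add_zero]
      exact hBA
    have h := fgl2_split l (fun n => Sg c P β l i i' n n ^ 2)
      (fun n => (l : ℤ) ∣ (C B * (P i + C (β i)) - C A * (P i' + C (β i'))).eval n)
      (64 * ((l : ℝ) ^ d) ^ 2 / (l : ℝ) ^ 4) (4 * ((l : ℝ) ^ d) ^ 2 / (l : ℝ) ^ 2) (D i) (by positivity) (by positivity)
      (fun n hn => fgl2_dep c P β l hl i i' A B hAB (hG.form i) (hG.form i') n n (by rw [← hev]; exact hn))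
      (fun n => fgl2_triv c P β l hl i i' (hG.form i) n n) (FGL2_roots l hl _ _ hdeg hco)
    exact h.trans (fgl2_num _ _ _ hl1 (by positivity))

/-- Dependent forms, the mean square over `n` for fixed `n'`. -/
theorem fgl2_row {k d : ℕ} {c : Fin k → Fin d → ℤ} {D : Fin k → ℕ} {a : Fin k → ℤ} (l : ℕ) (hl : l.Prime)
    (hG : Gd c D a l) (hD : ∀ i, 1 ≤ D i) (P : Fin k → ℤ[X]) (hP : HasD D a P) (β : Fin k → ℤ) (i i' : Fin k) (A B : ℤ)
    (hAB : ∀ t : Fin d → ℤ, B * lf c t i = A * lf c t i') (hB : ¬ (l : ℤ) ∣ B) (n' : ℤ) :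
    ∑ n ∈ Ico (0 : ℤ) l, Sg c P β l i i' n n' ^ 2 ≤ (80 + 4 * D i) * ((l : ℝ) ^ d) ^ 2 / (l : ℝ) ^ 2 := by
  have hl1 : (1 : ℝ) ≤ l := by exact_mod_cast hl.one_lt.le
  have hl0 : (0 : ℝ) < l := by linarith
  have hev : ∀ n : ℤ, (C B * (P i + C (β i)) - C (A * ((P i').eval n' + β i'))).eval n =
      B * ((P i).eval n + β i) - A * ((P i').eval n' + β i') := by
    intro n
    simp only [eval_sub, eval_mul, eval_add, eval_C]
  have hdeg : (C B * (P i + C (β i)) - C (A * ((P i').eval n' + β i'))).natDegree ≤ D i := by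
    refine (natDegree_sub_le _ _).trans (max_le ?_ ?_)
    · refine (natDegree_C_mul_le _ _).trans ((natDegree_add_le _ _).trans (max_le (hP i).1.le ?_))
      rw [natDegree_C]
      exact Nat.zero_le _
    · rw [natDegree_C]
      exact Nat.zero_le _
  have hco : ¬ (l : ℤ) ∣ (C B * (P i + C (β i)) - C (A * ((P i').eval n' + β i'))).coeff (D i) := by
    rw [coeff_sub, coeff_C_mul, coeff_add, fgl2_coeff hP i, fgl2_C _ (hD i), fgl2_C _ (hD i), add_zero, sub_zero]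
    intro h
    rcases (Nat.prime_iff_prime_int.1 hl).dvd_or_dvd h with h | h
    · exact hB h
    · exact hG.lc i h
  have h := fgl2_split l (fun n => Sg c P β l i i' n n' ^ 2)
    (fun n => (l : ℤ) ∣ (C B * (P i + C (β i)) - C (A * ((P i').eval n' + β i'))).eval n)
    (64 * ((l : ℝ) ^ d) ^ 2 / (l : ℝ) ^ 4) (4 * ((l : ℝ) ^ d) ^ 2 / (l : ℝ) ^ 2) (D i) (by positivity) (by positivity)
    (fun n hn => fgl2_dep c P β l hl i i' A B hAB (hG.form i) (hG.form i') n n' (by rw [← hev]; exact hn))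
    (fun n => fgl2_triv c P β l hl i i' (hG.form i) n n') (FGL2_roots l hl _ _ hdeg hco)
  exact h.trans (fgl2_num _ _ _ hl1 (by positivity))

/-- Coordinates at `n` and `n'`, `i = i'` allowed. Proof. Independent forms: `Sg ≤ 4 l^d / l²`. Otherwise (for `i = i'` with `A = B = 1`; then
`B a i = a i` is not divisible by `l`): `Sg ≤ 8 l^d / l²` (`FGL1_dep`) unless `l` divides `G.eval n`, `G = B (P i + β i) - A ((P i').eval n' + β i')` (second
term constant), degree at most `D i`, coefficient `B a i` at `D i`: for each `n'` at most `D i` values of `n`, and for these `Sg ≤ 2 l^d / l`. Total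
`l² * 64 l^(2d) / l⁴ + l * D i * 4 l^(2d) / l²`. -/
theorem FGL2_opp {k d : ℕ} {c : Fin k → Fin d → ℤ} {D : Fin k → ℕ} {a : Fin k → ℤ} (l : ℕ) (hl : l.Prime)
    (hG : Gd c D a l) (hD : ∀ i, 1 ≤ D i) (P : Fin k → ℤ[X]) (hP : HasD D a P) (β : Fin k → ℤ) (i i' : Fin k) :
    ∑ n ∈ Ico (0 : ℤ) l, ∑ n' ∈ Ico (0 : ℤ) l, Sg c P β l i i' n n' ^ 2 ≤
      (80 + 4 * D i) * ((l : ℝ) ^ d) ^ 2 / l := by
  have hl1 : (1 : ℝ) ≤ l := by exact_mod_cast hl.one_lt.le
  have hl0 : (0 : ℝ) < l := by linarith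
  have hrow : ∀ n' : ℤ, ∑ n ∈ Ico (0 : ℤ) l, Sg c P β l i i' n n' ^ 2 ≤
      (80 + 4 * D i) * ((l : ℝ) ^ d) ^ 2 / (l : ℝ) ^ 2 := by
    intro n'
    by_cases hi : i = i'
    · subst hi
      refine fgl2_row l hl hG hD P hP β i i 1 1 (fun t => rfl) ?_ n'
      intro h
      have h1 : (l : ℤ) ≤ 1 := Int.le_of_dvd one_pos h
      have h2 : 1 < l := hl.one_lt
      omega
    · rcases hG.pair i i' hi with ⟨u, hu, hu'⟩ | ⟨hDD, A, B, hAB, hA, hB, hBA⟩
      · have h := fgl2_split l (fun n => Sg c P β l i i' n n' ^ 2) (fun _ => False)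
          (64 * ((l : ℝ) ^ d) ^ 2 / (l : ℝ) ^ 4) (4 * ((l : ℝ) ^ d) ^ 2 / (l : ℝ) ^ 2) (D i) (by positivity)
          (by positivity) (fun n _ => fgl2_ind c P β l hl i i' u hu hu' (hG.form i') n n')
          (fun n => fgl2_triv c P β l hl i i' (hG.form i) n n')
          (by rw [Finset.filter_false, Finset.card_empty]; exact Nat.zero_le _)
        exact h.trans (fgl2_num _ _ _ hl1 (by positivity))
      · exact fgl2_row l hl hG hD P hP β i i' A B hAB hB n'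
  rw [Finset.sum_comm]
  refine (Finset.sum_le_sum fun n' _ => hrow n').trans (le_of_eq ?_)
  rw [Finset.sum_const, Int.card_Ico, nsmul_eq_mul, sub_zero, Int.toNat_natCast]
  field_simp

end Pool.Agent.HUP
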