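import Pool.Agent.Lib.HUK.P1
import Pool.Agent.Lib.HUK.E2

/-!
# Project HUP, chunk P3a (M): rules for differences along linear forms
-/

open Finset

namespace Pool.Agent.HUP

open Pool.Agent.HUK (DD DL DV bxS FF GG fw WT cj sg vt)

noncomputable section

/-- The linear form with coefficients `c`. -/
def lft {d : ℕ} (c : Fin d → ℤ) (t : Fin d → ℤ) : ℤ := ∑ j, c j * t j

/-- The box with corner `b` and sides `s` in `ℤ^d`. -/
def bZ {d : ℕ} (b : Fin d → ℤ) (s : Fin d → ℕ) : Finset (Fin d → ℤ) := Fintype.piFinset fun j => Ico (b j) (b j + s j)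

end

theorem p3_lf_add {d : ℕ} (c t u : Fin d → ℤ) : lft c (t + u) = lft c t + lft c u := by
  unfold lft
  rw [← Finset.sum_add_distrib]
  exact Finset.sum_congr rfl fun j _ => by rw [Pi.add_apply, mul_add]

theorem p3_lf_smul {d : ℕ} (c : Fin d → ℤ) (a : ℤ) (t : Fin d → ℤ) : lft c (a • t) = a * lft c t := by
  unfold lft
  rw [Finset.mul_sum]
  exact Finset.sum_congr rfl fun j _ => by rw [Pi.smul_apply, smul_eq_mul]; ring

/-- Differences of a function of a linear form (induction on `r`, `List.ofFn_succ`). -/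
theorem p3_comp {d r : ℕ} (c : Fin d → ℤ) (v : Fin r → Fin d → ℤ) (j : Fin r → ℤ) (f : ℤ → ℂ) (z : Fin d → ℤ) :
    DL (List.ofFn fun i => j i • v i) (fun z => f (lft c z)) z = DV (fun i => lft c (v i) * j i) f (lft c z) := by
  unfold DV
  induction r generalizing f with
  | zero => rfl
  | succ r ih =>
    rw [List.ofFn_succ, List.ofFn_succ]
    have h1 : DD (j 0 • v 0) (fun z => f (lft c z)) = fun z => (DD (lft c (v 0) * j 0) f) (lft c z) := by
      funext z
      show f (lft c z) * (starRingEnd ℂ) (f (lft c (z + j 0 • v 0))) =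
        f (lft c z) * (starRingEnd ℂ) (f (lft c z + lft c (v 0) * j 0))
      rw [p3_lf_add, p3_lf_smul, mul_comm (j 0)]
    show DL (List.ofFn fun i : Fin r => j i.succ • v i.succ) (DD (j 0 • v 0) (fun z => f (lft c z))) z =
      DL (List.ofFn fun i : Fin r => lft c (v i.succ) * j i.succ) (DD (lft c (v 0) * j 0) f) (lft c z)
    rw [h1]
    exact ih (fun i => v i.succ) (fun i => j i.succ) (DD (lft c (v 0) * j 0) f)

/-- Translation and conjugation. -/
theorem p3_shift {r : ℕ} (h : Fin r → ℤ) (f : ℤ → ℂ) (a y : ℤ) : DV h (fun y => f (y + a)) y = DV h f (y + a) := by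
  unfold DV
  generalize List.ofFn h = l
  induction l generalizing f with
  | nil => rfl
  | cons k l ih =>
    have h1 : DD k (fun y => f (y + a)) = fun y => (DD k f) (y + a) := by
      funext z
      show f (z + a) * (starRingEnd ℂ) (f (z + k + a)) = f (z + a) * (starRingEnd ℂ) (f (z + a + k))
      rw [show z + k + a = z + a + k by ring]
    show DL l (DD k (fun y => f (y + a))) y = DL l (DD k f) (y + a)
    rw [h1]
    exact ih (DD k f)

theorem p3_conj {r : ℕ} (h : Fin r → ℤ) (f : ℤ → ℂ) (y : ℤ) :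
    DV h (fun y => (starRingEnd ℂ) (f y)) y = (starRingEnd ℂ) (DV h f y) := by
  unfold DV
  generalize List.ofFn h = l
  induction l generalizing f with
  | nil => rfl
  | cons k l ih =>
    have h1 : DD k (fun y => (starRingEnd ℂ) (f y)) = fun y => (starRingEnd ℂ) (DD k f y) := by
      funext z
      show (starRingEnd ℂ) (f z) * (starRingEnd ℂ) ((starRingEnd ℂ) (f (z + k))) =
        (starRingEnd ℂ) (f z * (starRingEnd ℂ) (f (z + k)))
      rw [map_mul]
    show DL l (DD k (fun y => (starRingEnd ℂ) (f y))) y = (starRingEnd ℂ) (DL l (DD k f) y)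
    rw [h1]
    exact ih (DD k f)

theorem p3a_zo {G : Type*} [AddCommGroup G] (l : List G) (F : G → ℂ) (hF : ∀ z, F z = 0 ∨ F z = 1) :
    ∀ z, DL l F z = 0 ∨ DL l F z = 1 := by
  induction l generalizing F with
  | nil => exact hF
  | cons k l ih =>
    show ∀ z, DL l (DD k F) z = 0 ∨ DL l (DD k F) z = 1
    refine ih (DD k F) fun z => ?_
    unfold DD
    rcases hF z with h | h
    · left
      rw [h, zero_mul]
    · rcases hF (z + k) with h' | h'
      · left
        rw [h', map_zero, mul_zero]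
      · right
        rw [h, h', map_one, mul_one]

/-- Differences of the indicator of `B` are indicators: `∃ u : G → ℝ` with values `0`, `1`, zero outside `B`. -/
theorem p3_ind {G : Type*} [AddCommGroup G] [DecidableEq G] (B : Finset G) (l : List G) :
    ∃ u : G → ℝ, (∀ z, u z = 0 ∨ u z = 1) ∧ ∀ z, DL l (fun z => if z ∈ B then (1 : ℂ) else 0) z = ((u z : ℝ) : ℂ) := by
  have h := p3a_zo l (fun z => if z ∈ B then (1 : ℂ) else 0) (fun z => by
    by_cases hz : z ∈ B
    · right
      exact if_pos hz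
    · left
      exact if_neg hz)
  have h2 : ∀ z, ∃ w : ℝ, (w = 0 ∨ w = 1) ∧ DL l (fun z => if z ∈ B then (1 : ℂ) else 0) z = ((w : ℝ) : ℂ) := by
    intro z
    rcases h z with h1 | h1
    · exact ⟨0, Or.inl rfl, by rw [h1, Complex.ofReal_zero]⟩
    · exact ⟨1, Or.inr rfl, by rw [h1, Complex.ofReal_one]⟩
  choose u hu hu2 using h2
  exact ⟨u, hu, hu2⟩

/-- A difference with a large step vanishes (`DL_prod` or induction: `F` vanishes at `y + a` or at `y + h i + a`). -/
theorem p3_large {r : ℕ} (Y : ℕ) (a : ℤ) (F : ℤ → ℂ) (hF : ∀ y, y ∉ Ico (-(Y : ℤ)) Y → F (y + a) = 0) (h : Fin r → ℤ)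
    (hh : h ∉ bxS r (2 * Y)) (y : ℤ) : DV h F (y + a) = 0 := by
  rw [← p3_shift h F a y]
  have h1 : ∃ i, h i ∉ Ioo (-((2 * Y : ℕ) : ℤ)) ((2 * Y : ℕ) : ℤ) := by
    by_contra hc
    push Not at hc
    exact hh (Fintype.mem_piFinset.2 hc)
  obtain ⟨i, hi⟩ := h1
  have hmem : h i ∈ List.ofFn h := (List.mem_ofFn' _ _).2 ⟨i, rfl⟩
  unfold DV
  rw [Pool.Agent.HUK.DL_perm (List.perm_cons_erase hmem)]
  show DL ((List.ofFn h).erase (h i)) (DD (h i) (fun y => F (y + a))) y = 0
  refine Pool.Agent.HUK.DL_supp _ _ _ ?_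
  show F (y + a) * (starRingEnd ℂ) (F (y + h i + a)) = 0
  by_cases hy : y ∈ Ico (-(Y : ℤ)) Y
  · have h2 : y + h i ∉ Ico (-(Y : ℤ)) Y := by
      rw [Finset.mem_Ico] at hy ⊢
      rw [Finset.mem_Ioo] at hi
      push_cast at hi
      omega
    rw [hF _ h2, map_zero, mul_zero]
  · rw [hF _ hy, zero_mul]

end Pool.Agent.HUP
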