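import Pool.Agent.Lib.HUP.W4
import Pool.Agent.Lib.HUP.P3

/-!
# Project HUP, S4A (helper37): one term of the telescoping sum (`P3_main` and `poly2_main`), numerical form
-/

open Finset

namespace Pool.Agent.HUP

open Pool.Agent.H44W (ee)
open Pool.Agent.HUK

theorem s4a_large (A c : ℝ) (hc : 0 < c) : ∃ X0 : ℕ, ∀ X : ℕ, X0 ≤ X → A ≤ (X : ℝ) ^ c := by
  have h := ((tendsto_rpow_atTop hc).comp tendsto_natCast_atTop_atTop).eventually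
    (Filter.eventually_ge_atTop A)
  obtain ⟨X0, h0⟩ := Filter.eventually_atTop.1 h
  exact ⟨X0, fun X hX => h0 X hX⟩

/-- One term. -/
theorem S4_one {d r D : ℕ} (hr : 1 ≤ r) (hD : 1 ≤ D) (c0 : Fin d → ℤ) (c v : Fin r → Fin d → ℤ) (hv : ∀ i, lft (c i) (v i) = 0)
    (hv0 : ∀ i, lft c0 (v i) ≠ 0) (κ0 : ℝ) (hκ0 : 0 < κ0) (hκ1 : κ0 ≤ 1) : ∃ κ τ : ℝ, 0 < κ ∧ 0 < τ ∧ τ ≤ 1 / 2 ∧ ∃ X0 : ℕ, ∀ X : ℕ, X0 ≤ X →
    ∀ Y : ℕ, (X : ℝ) ^ ((D : ℝ) - τ) ≤ Y → (Y : ℝ) ≤ (X : ℝ) ^ ((D : ℝ) + τ) → ∀ (a : ℤ) (P : ℤ → ℤ), a ≠ 0 → PF D a P →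
    ∀ F : ℤ → ℂ, Spt (4 * Y) F → (∀ y, ‖F y‖ ≤ 1) → GG (4 * Y) (r + 1) F ≤ (Y : ℝ) ^ ((r : ℝ) + 2 - κ0) →
    (∀ n ∈ range X, ∀ y, y ∉ Ico (-(Y : ℤ)) Y → F (y + P n) = 0) →
    ∀ (b : Fin d → ℤ) (s : Fin d → ℕ), (∀ l, 1 ≤ s l) → (∀ l, c0 l ≠ 0 → (X : ℝ) ^ ((D : ℝ) - τ) ≤ s l) →
    (∀ i l, v i l ≠ 0 → (X : ℝ) ^ ((D : ℝ) - τ) ≤ s l) → ∀ (Pi : Fin r → ℕ → ℤ) (w : ℕ → ℂ) (G : Fin r → ℤ → ℂ),
    (∀ n, ‖w n‖ ≤ 1) → (∀ i y, ‖G i y‖ ≤ 1) →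
    ∑ t ∈ bZ b s, ‖∑ n ∈ range X, w n * F (lft c0 t + P n) * ∏ i, G i (lft (c i) t + Pi i n)‖ ^ 2 ≤
      (X : ℝ) ^ ((2 : ℝ) - κ) * ∏ l, (s l : ℝ) := by
  obtain ⟨C3, hC3, hP3⟩ := P3_main d r hr c0 c v hv hv0
  obtain ⟨D', rfl⟩ : ∃ D', D = D' + 1 := ⟨D - 1, by omega⟩
  obtain ⟨C2, hP2⟩ := poly2_main D' r hr
  obtain ⟨η, hη⟩ : ∃ η : ℝ, η = κ0 / (8 * ((C2 : ℝ) + 1)) := ⟨_, rfl⟩
  have hη0 : 0 < η := by rw [hη]; positivity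
  have hηC : η * C2 ≤ κ0 / 8 := by
    rw [hη, div_mul_eq_mul_div, div_le_div_iff₀ (by positivity) (by positivity)]
    nlinarith
  have hη1 : η ≤ κ0 / 8 := by
    rw [hη, div_le_div_iff₀ (by positivity) (by positivity)]
    have : (0 : ℝ) ≤ C2 := Nat.cast_nonneg _
    nlinarith
  obtain ⟨τ, hτ⟩ : ∃ τ : ℝ, τ = η / (8 * ((r : ℝ) + 2)) := ⟨_, rfl⟩
  have hτ0 : 0 < τ := by rw [hτ]; positivity
  have hτr : τ * (2 * (r : ℝ) + 3) ≤ η / 4 := by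
    rw [hτ, div_mul_eq_mul_div, div_le_div_iff₀ (by positivity) (by positivity)]
    nlinarith
  have hr0 : (0 : ℝ) ≤ r := Nat.cast_nonneg _
  have hτ1 : τ ≤ 1 / 2 := by nlinarith
  obtain ⟨C', hC'⟩ : ∃ C' : ℝ, C' = C3 * (4 ^ (r + 1) + 48) := ⟨_, rfl⟩
  obtain ⟨Xa, hXa⟩ := s4a_large 2 η hη0
  obtain ⟨Xb, hXb⟩ := s4a_large 16 (7 / 8) (by norm_num)
  obtain ⟨Xc, hXc⟩ := s4a_large (C' + 1) (η / 2) (by positivity)
  refine ⟨η / 2 ^ (r + 1), τ, by positivity, hτ0, hτ1, max 1 (max Xa (max Xb Xc)), ?_⟩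
  intro X hX Y hY1 hY2 a P ha hP F hF hF1 hGG hsupp b s hs1 hs2 hs3 Pi w G hw hG
  have hX1 : 1 ≤ X := (le_max_left _ _).trans hX
  have h2 := hXa X (((le_max_left _ _).trans (le_max_right _ _)).trans hX)
  have h16 := hXb X (((le_max_left _ _).trans ((le_max_right _ _).trans (le_max_right _ _))).trans hX)
  have hCX := hXc X (((le_max_right _ _).trans ((le_max_right _ _).trans (le_max_right _ _))).trans hX)
  have hXr : (1 : ℝ) ≤ X := by exact_mod_cast hX1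
  have hX0 : (0 : ℝ) < X := by linarith
  -- the parameters
  obtain ⟨δ, hδ⟩ : ∃ δ : ℝ, δ = (X : ℝ) ^ (-η) := ⟨_, rfl⟩
  have hδ0 : 0 < δ := by rw [hδ]; positivity
  have hδi : 1 / δ = (X : ℝ) ^ η := by rw [hδ, Real.rpow_neg hX0.le, one_div, inv_inv]
  have hδ2 : δ ≤ 1 / 2 := by
    rw [hδ, Real.rpow_neg hX0.le, one_div]
    exact inv_anti₀ (by norm_num) h2
  have hδC : (1 / δ) ^ C2 = (X : ℝ) ^ (η * C2) := by
    rw [hδi, ← Real.rpow_natCast, ← Real.rpow_mul hX0.le]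
  have hδX : (1 / δ) ^ C2 ≤ X := by
    rw [hδC]
    calc (X : ℝ) ^ (η * C2) ≤ (X : ℝ) ^ (1 : ℝ) := Real.rpow_le_rpow_of_exponent_le hXr (by linarith)
      _ = X := Real.rpow_one _
  obtain ⟨Dr, hDr⟩ : ∃ Dr : ℝ, Dr = ((D' + 1 : ℕ) : ℝ) := ⟨_, rfl⟩
  have hDr1 : 1 ≤ Dr := by
    rw [hDr]
    push_cast
    have : (0 : ℝ) ≤ D' := Nat.cast_nonneg _
    linarith
  rw [← hDr] at hY1 hY2 hs2 hs3
  obtain ⟨m, hm⟩ : ∃ m : ℝ, m = (X : ℝ) ^ (Dr - η * C2) / 8 := ⟨_, rfl⟩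
  have hm2 : 2 ≤ m := by
    rw [hm, le_div_iff₀ (by norm_num)]
    refine le_trans ?_ (Real.rpow_le_rpow_of_exponent_le hXr (by linarith : (7 / 8 : ℝ) ≤ Dr - η * C2))
    linarith
  obtain ⟨M, hM⟩ : ∃ M : ℕ, M = ⌊m⌋₊ := ⟨_, rfl⟩
  have hMm : (M : ℝ) ≤ m := by rw [hM]; exact Nat.floor_le (by linarith)
  have hMm2 : m / 2 ≤ M := by
    have := Nat.lt_floor_add_one m
    rw [← hM] at this
    linarith
  have hM0r : (0 : ℝ) < M := by linarith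
  have hM0 : 0 < M := by exact_mod_cast hM0r
  have hMX : 8 * (M : ℝ) * (1 / δ) ^ C2 ≤ (X : ℝ) ^ (D' + 1) := by
    rw [hδC]
    calc 8 * (M : ℝ) * (X : ℝ) ^ (η * C2) ≤ 8 * m * (X : ℝ) ^ (η * C2) :=
          mul_le_mul_of_nonneg_right (by linarith) (by positivity)
      _ = (X : ℝ) ^ (Dr - η * C2) * (X : ℝ) ^ (η * C2) := by rw [hm]; ring
      _ = (X : ℝ) ^ Dr := by rw [← Real.rpow_add hX0]; congr 1; ring
      _ = (X : ℝ) ^ (D' + 1) := by rw [hDr, Real.rpow_natCast]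
  obtain ⟨T, hT⟩ : ∃ T : ℕ, T = ⌈(X : ℝ) ^ (Dr - τ)⌉₊ := ⟨_, rfl⟩
  have hTX : (X : ℝ) ^ (Dr - τ) ≤ T := by rw [hT]; exact Nat.le_ceil _
  have hT1r : (1 : ℝ) ≤ T := le_trans (Real.one_le_rpow hXr (by linarith)) hTX
  have hT1 : 1 ≤ T := by exact_mod_cast hT1r
  have hTs : ∀ n : ℕ, (X : ℝ) ^ (Dr - τ) ≤ n → T ≤ n := fun n hn => by rw [hT]; exact Nat.ceil_le.2 hn
  have hmain := hP3 T X Y hT1 hX1 b s hs1 (fun l hl => hTs _ (hs2 l hl)) (fun i l hl => hTs _ (hs3 i l hl))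
    (fun n => P n) Pi w F G hw hF1 hG hsupp
  have hsec := hP2 δ hδ0 hδ2 X M hδX hM0 hMX a P ha hP Y (4 * Y) F hF 1 hF1 hsupp
  rw [one_pow, mul_one] at hsec
  obtain ⟨S, hS⟩ : ∃ S : ℝ, S = ∏ l, (s l : ℝ) := ⟨_, rfl⟩
  have hS0 : 0 < S := by
    rw [hS]
    refine Finset.prod_pos fun l _ => ?_
    have := hs1 l
    exact_mod_cast this
  obtain ⟨Z, hZ⟩ : ∃ Z : ℝ, Z = ∑ t ∈ bZ b s, ‖∑ n ∈ range X, w n * F (lft c0 t + P n) * ∏ i, G i (lft (c i) t + Pi i n)‖ ^ 2 := ⟨_, rfl⟩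
  have hZ0 : 0 ≤ Z := by rw [hZ]; exact Finset.sum_nonneg fun _ _ => by positivity
  rw [← hZ, ← hS] at hmain ⊢
  have hTp : 0 < (T : ℝ) ^ (r + 1) := by positivity
  -- term A
  have hYT : (Y : ℝ) / T ≤ (X : ℝ) ^ (2 * τ) := by
    rw [div_le_iff₀ (by linarith)]
    calc (Y : ℝ) ≤ (X : ℝ) ^ (Dr + τ) := hY2
      _ = (X : ℝ) ^ (2 * τ) * (X : ℝ) ^ (Dr - τ) := by rw [← Real.rpow_add hX0]; congr 1; ring
      _ ≤ _ := mul_le_mul_of_nonneg_left hTX (by positivity)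
  have hY0 : (0 : ℝ) < Y := lt_of_lt_of_le (by positivity) hY1
  have hA : C3 / ((X : ℝ) ^ 2 * T ^ (r + 1)) * (δ ^ 2 * X ^ 2 * ((4 * (Y : ℝ)) ^ r * (2 * Y))) ≤
      C3 * 4 ^ (r + 1) * (X : ℝ) ^ (-η) := by
    have e1 : C3 / ((X : ℝ) ^ 2 * T ^ (r + 1)) * (δ ^ 2 * X ^ 2 * ((4 * (Y : ℝ)) ^ r * (2 * Y))) =
        C3 * (4 ^ r * 2) * (δ ^ 2 * (Y / T) ^ (r + 1)) := by
      rw [div_pow, mul_pow, pow_succ (Y : ℝ) r]
      field_simp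
    rw [e1]
    have e2 : (4 : ℝ) ^ r * 2 ≤ 4 ^ (r + 1) := by
      rw [pow_succ]
      have : (0 : ℝ) ≤ 4 ^ r := by positivity
      linarith
    have e3 : δ ^ 2 * ((Y : ℝ) / T) ^ (r + 1) ≤ (X : ℝ) ^ (-η) := by
      calc δ ^ 2 * ((Y : ℝ) / T) ^ (r + 1) ≤ δ ^ 2 * ((X : ℝ) ^ (2 * τ)) ^ (r + 1) :=
            mul_le_mul_of_nonneg_left (pow_le_pow_left₀ (by positivity) hYT _) (by positivity)
        _ = (X : ℝ) ^ (-(2 * η) + 2 * τ * (r + 1)) := by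
            rw [hδ, Real.rpow_add hX0, ← Real.rpow_natCast, ← Real.rpow_mul hX0.le, ← Real.rpow_natCast ((X : ℝ) ^ (2 * τ)),
              ← Real.rpow_mul hX0.le]
            congr 2
            · push_cast
              ring
            · push_cast
              ring
        _ ≤ _ := by
            refine Real.rpow_le_rpow_of_exponent_le hXr ?_
            nlinarith
    exact mul_le_mul (mul_le_mul_of_nonneg_left e2 (by linarith)) e3 (by positivity) (by positivity)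
  -- term B
  have hB : C3 / ((X : ℝ) ^ 2 * T ^ (r + 1)) * (X ^ 2 * ((1 / δ) ^ C2 * (3 / M) * GG (4 * Y) (r + 1) F)) ≤
      C3 * 48 * (X : ℝ) ^ (-η) := by
    have e1 : C3 / ((X : ℝ) ^ 2 * T ^ (r + 1)) * (X ^ 2 * ((1 / δ) ^ C2 * (3 / M) * GG (4 * Y) (r + 1) F)) =
        C3 * ((1 / δ) ^ C2 * (3 / M) * GG (4 * Y) (r + 1) F / T ^ (r + 1)) := by
      field_simp
    rw [e1, show C3 * 48 * (X : ℝ) ^ (-η) = C3 * (48 * (X : ℝ) ^ (-η)) from mul_assoc _ _ _]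
    refine mul_le_mul_of_nonneg_left ?_ (by linarith)
    have e2 : 3 / (M : ℝ) ≤ 48 * (X : ℝ) ^ (-(Dr - η * C2)) := by
      rw [Real.rpow_neg hX0.le, div_le_iff₀ hM0r]
      have e3 : 48 * ((X : ℝ) ^ (Dr - η * C2))⁻¹ * (m / 2) = 3 := by
        have : (X : ℝ) ^ (Dr - η * C2) ≠ 0 := by positivity
        rw [hm]
        field_simp
        norm_num
      calc (3 : ℝ) = 48 * ((X : ℝ) ^ (Dr - η * C2))⁻¹ * (m / 2) := e3.symm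
        _ ≤ _ := mul_le_mul_of_nonneg_left hMm2 (by positivity)
    have e4 : GG (4 * Y) (r + 1) F ≤ (X : ℝ) ^ ((Dr + τ) * ((r : ℝ) + 2 - κ0)) := by
      refine le_trans hGG ?_
      rw [Real.rpow_mul hX0.le]
      exact Real.rpow_le_rpow hY0.le hY2 (by linarith)
    have e5 : (X : ℝ) ^ ((Dr - τ) * ((r : ℝ) + 1)) ≤ (T : ℝ) ^ (r + 1) := by
      rw [Real.rpow_mul hX0.le]
      have : ((X : ℝ) ^ (Dr - τ)) ^ ((r : ℝ) + 1) = ((X : ℝ) ^ (Dr - τ)) ^ (r + 1) := by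
        rw [← Real.rpow_natCast ((X : ℝ) ^ (Dr - τ))]
        push_cast
        rfl
      rw [this]
      exact pow_le_pow_left₀ (by positivity) hTX _
    rw [div_le_iff₀ hTp]
    have e6 : (1 / δ) ^ C2 * (3 / (M : ℝ)) * GG (4 * Y) (r + 1) F ≤
        (X : ℝ) ^ (η * C2) * (48 * (X : ℝ) ^ (-(Dr - η * C2))) * (X : ℝ) ^ ((Dr + τ) * ((r : ℝ) + 2 - κ0)) := by
      rw [hδC]
      refine mul_le_mul (mul_le_mul_of_nonneg_left e2 (by positivity)) e4 (D0_nn hF (by omega)) (by positivity)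
    refine le_trans e6 ?_
    calc (X : ℝ) ^ (η * C2) * (48 * (X : ℝ) ^ (-(Dr - η * C2))) * (X : ℝ) ^ ((Dr + τ) * ((r : ℝ) + 2 - κ0))
        = 48 * (X : ℝ) ^ (η * C2 + -(Dr - η * C2) + (Dr + τ) * ((r : ℝ) + 2 - κ0)) := by
          rw [Real.rpow_add hX0, Real.rpow_add hX0]
          ring
      _ ≤ 48 * (X : ℝ) ^ (-η + (Dr - τ) * ((r : ℝ) + 1)) := by
          refine mul_le_mul_of_nonneg_left (Real.rpow_le_rpow_of_exponent_le hXr ?_) (by norm_num)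
          have e7 : κ0 * 1 ≤ κ0 * Dr := mul_le_mul_of_nonneg_left hDr1 hκ0.le
          have e8 : 0 ≤ τ * κ0 := by positivity
          nlinarith
      _ = 48 * (X : ℝ) ^ (-η) * (X : ℝ) ^ ((Dr - τ) * ((r : ℝ) + 1)) := by
          rw [Real.rpow_add hX0]
          ring
      _ ≤ _ := mul_le_mul_of_nonneg_left e5 (by positivity)
  have hpow : (Z / ((X : ℝ) ^ 2 * S)) ^ 2 ^ r ≤ C' * (X : ℝ) ^ (-η) := by
    refine le_trans hmain ?_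
    refine le_trans (mul_le_mul_of_nonneg_left hsec (by positivity)) ?_
    rw [mul_add]
    refine le_trans (add_le_add hA hB) (le_of_eq ?_)
    rw [hC']
    ring
  have hfin : Z / ((X : ℝ) ^ 2 * S) ≤ (X : ℝ) ^ (-(η / 2 ^ (r + 1))) := by
    by_contra hcon
    push Not at hcon
    have h3 : ((X : ℝ) ^ (-(η / 2 ^ (r + 1)))) ^ 2 ^ r ≤ (Z / ((X : ℝ) ^ 2 * S)) ^ 2 ^ r :=
      pow_le_pow_left₀ (by positivity) hcon.le _
    have h4 : ((X : ℝ) ^ (-(η / 2 ^ (r + 1)))) ^ 2 ^ r = (X : ℝ) ^ (-(η / 2)) := by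
      rw [← Real.rpow_natCast, ← Real.rpow_mul hX0.le]
      congr 1
      push_cast
      rw [pow_succ]
      field_simp
    rw [h4] at h3
    have h5 : (X : ℝ) ^ (-(η / 2)) = (X : ℝ) ^ (η / 2) * (X : ℝ) ^ (-η) := by
      rw [← Real.rpow_add hX0]
      congr 1
      ring
    have h6 : 0 < (X : ℝ) ^ (-η) := by positivity
    have h7 := le_trans h3 hpow
    rw [h5] at h7
    have h8 := le_of_mul_le_mul_right h7 h6
    linarith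
  rw [div_le_iff₀ (by positivity)] at hfin
  refine le_trans hfin (le_of_eq ?_)
  rw [sub_eq_add_neg, Real.rpow_add hX0, Real.rpow_two]
  ring

end Pool.Agent.HUP
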