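import Pool.Agent.Lib.HUP.S4A
import Pool.Agent.Lib.HUP.Defs

/-!
# Project HUP, S4B (helper37): the interface `OneT` (one term of the telescoping sum), proved for forms which are
pairwise not proportional
-/

open Finset Polynomial

namespace Pool.Agent.HUP

open Pool.Agent.HUK
open Pool.Agent.H9U (JJ)

/-- The value of the coordinate `i` (variable `n + a`). -/
def vl' {k d : ℕ} (c : Fin k → Fin d → ℤ) (P : Fin k → ℤ[X]) (a : ℤ) (β : Fin k → ℤ) (i : Fin k) (n : ℕ)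
    (t : Fin d → ℤ) : ℤ := (P i).eval ((n : ℤ) + a) + (β i + lf c t i)

/-- **Interface**: one term of the telescoping sum. The coordinate `j` carries a function `F` of small `U^m` norm. -/
def OneT {k d : ℕ} (c : Fin k → Fin d → ℤ) (e : Fin d → ℕ) (P : Fin k → ℤ[X]) (j : Fin k) : Prop :=
  ∃ m : ℕ, 2 ≤ m ∧ ∀ κ0 : ℝ, 0 < κ0 → κ0 ≤ 1 → ∃ κ τ : ℝ, 0 < κ ∧ 0 < τ ∧ ∃ X0 : ℕ, ∀ X : ℕ, X0 ≤ X →
    ∀ Y : ℕ, (X : ℝ) ^ (((P j).natDegree : ℝ) - τ) ≤ Y → (Y : ℝ) ≤ (X : ℝ) ^ (((P j).natDegree : ℝ) + τ) →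
    ∀ F : ℤ → ℂ, (∀ y, y ∉ JJ Y → F y = 0) → (∀ y, ‖F y‖ ≤ 1) → GG (4 * Y) m F ≤ (Y : ℝ) ^ ((m : ℝ) + 1 - κ0) →
    ∀ (b : Fin d → ℤ) (s : Fin d → ℕ), (∀ l, (X : ℝ) ^ ((e l : ℝ) - τ) ≤ s l) →
    (∀ i l, c i l ≠ 0 → (s l : ℝ) ≤ (X : ℝ) ^ ((e l : ℝ) + τ)) →
    ∀ (a : ℤ) (β : Fin k → ℤ), (∀ n ∈ range X, ∀ t ∈ tb b s, vl' c P a β j n t ∈ JJ Y) →
    ∀ (w : ℕ → ℂ) (G : Fin k → ℤ → ℂ), (∀ n, ‖w n‖ ≤ 1) → (∀ i y, ‖G i y‖ ≤ 1) →
    ∑ t ∈ tb b s, ‖∑ n ∈ range X, w n * F (vl' c P a β j n t) * ∏ i ∈ univ.erase j, G i (vl' c P a β i n t)‖ ^ 2 ≤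
      (X : ℝ) ^ ((2 : ℝ) - κ) * ∏ l, (s l : ℝ)

theorem s4b_JJ {Y : ℕ} {y : ℤ} (h : y ∈ JJ Y) : 2 * (Y : ℤ) ≤ y ∧ 4 * (y - 2 * Y) < Y := by
  unfold JJ at h
  rw [mem_Ico] at h
  omega

theorem s4b_shift {d : ℕ} (b : Fin d → ℤ) (s : Fin d → ℕ) (f : (Fin d → ℤ) → ℝ) :
    ∑ t ∈ bZ b s, f t = ∑ t ∈ bZ 0 s, f (t + b) := by
  refine Finset.sum_nbij' (fun t => t - b) (fun t => t + b) ?_ ?_ ?_ ?_ ?_
  · intro t ht
    unfold bZ at ht ⊢
    rw [Fintype.mem_piFinset] at ht ⊢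
    intro j
    have := ht j
    rw [mem_Ico] at this ⊢
    simp only [Pi.sub_apply, Pi.zero_apply]
    omega
  · intro t ht
    unfold bZ at ht ⊢
    rw [Fintype.mem_piFinset] at ht ⊢
    intro j
    have := ht j
    rw [mem_Ico] at this ⊢
    simp only [Pi.add_apply, Pi.zero_apply] at this ⊢
    omega
  · intro t _
    exact sub_add_cancel t b
  · intro t _
    exact add_sub_cancel_right t b
  · intro t _
    simp

theorem s4b_lf {k d : ℕ} (c : Fin k → Fin d → ℤ) (t : Fin d → ℤ) (i : Fin k) : lf c t i = lft (c i) t := rfl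

theorem pf_addc (d : ℕ) (c : ℤ) (P : ℤ → ℤ) (C : ℤ) (h : PF (d + 1) c P) : PF (d + 1) c (fun k => P k + C) := by
  intro t
  have h1 := h t
  refine pf_congr rfl (fun k => ?_) h1
  ring

/-- The vectors of the elimination, supported in the block. -/
theorem s4b_vec {k d : ℕ} (c : Fin k → Fin d → ℤ) (e : Fin d → ℕ) (P : Fin k → ℤ[X]) (hc : Nd c) (hB : Blk c e P)
    (j i : Fin k) : ∃ u : Fin d → ℤ, lft (if i = j then 0 else c i) u = 0 ∧ lft (c j) u ≠ 0 ∧
      ∀ l, u l ≠ 0 → e l = (P j).natDegree := by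
  classical
  obtain ⟨u, hu1, hu2⟩ : ∃ u : Fin d → ℤ, lft (if i = j then 0 else c i) u = 0 ∧ lft (c j) u ≠ 0 := by
    by_cases h : i = j
    · obtain ⟨u, hu⟩ := hc.ne j
      refine ⟨u, ?_, hu⟩
      rw [if_pos h]
      unfold lft
      simp
    · obtain ⟨u, hu, hu'⟩ := hc.ind j i (Ne.symm h)
      refine ⟨u, ?_, hu'⟩
      rw [if_neg h]
      exact hu
  refine ⟨fun l => if e l = (P j).natDegree then u l else 0, ?_, ?_, ?_⟩
  · by_cases h : i = j
    · rw [if_pos h]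
      unfold lft
      simp
    · rw [if_neg h] at hu1 ⊢
      by_cases hd : (P i).natDegree = (P j).natDegree
      · refine Eq.trans ?_ hu1
        unfold lft
        refine Finset.sum_congr rfl fun l _ => ?_
        dsimp only
        by_cases hl : c i l = 0
        · rw [hl, zero_mul, zero_mul]
        · rw [if_pos]
          rw [hB.2 i l hl, hd]
      · unfold lft
        refine Finset.sum_eq_zero fun l _ => ?_
        dsimp only
        by_cases hl : c i l = 0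
        · rw [hl, zero_mul]
        · rw [if_neg, mul_zero]
          rw [hB.2 i l hl]
          exact hd
  · have h1 : lft (c j) (fun l => if e l = (P j).natDegree then u l else 0) = lft (c j) u := by
      unfold lft
      refine Finset.sum_congr rfl fun l _ => ?_
      dsimp only
      by_cases hl : c j l = 0
      · rw [hl, zero_mul, zero_mul]
      · rw [if_pos (hB.2 j l hl)]
    rw [h1]
    exact hu2
  · intro l hl
    by_contra h
    exact hl (if_neg h)

/-- **`OneT` for forms which are pairwise not proportional.** -/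
theorem oneT_of_Nd {k d : ℕ} (c : Fin k → Fin d → ℤ) (e : Fin d → ℕ) (P : Fin k → ℤ[X]) (hc : Nd c) (hB : Blk c e P)
    (j : Fin k) : OneT c e P j := by
  classical
  have hk : 1 ≤ k := by have := j.2; omega
  refine ⟨k + 1, by omega, fun κ0 hκ0 hκ1 => ?_⟩
  have hD : 1 ≤ (P j).natDegree := by
    obtain ⟨u, hu⟩ := hc.ne j
    obtain ⟨l, hl⟩ : ∃ l, c j l ≠ 0 := by
      by_contra h
      push Not at h
      apply hu
      unfold lf
      exact Finset.sum_eq_zero fun l _ => by rw [h l, zero_mul]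
    rw [← hB.2 j l hl]
    exact hB.1 l
  choose v hv1 hv2 hv3 using fun i => s4b_vec c e P hc hB j i
  obtain ⟨κ, τ, hκ, hτ, hτ2, X0, hX0⟩ := S4_one (r := k) hk hD (c j) (fun i => if i = j then 0 else c i) v hv1 hv2 κ0 hκ0 hκ1
  refine ⟨κ, τ, hκ, hτ, max X0 1, ?_⟩
  intro X hX Y hY1 hY2 F hF hF1 hGG b s hs hs' a β hval w G hw hG
  have hX0X : X0 ≤ X := (le_max_left _ _).trans hX
  have hX1 : 1 ≤ X := (le_max_right _ _).trans hX
  have hXr : (0 : ℝ) < X := by exact_mod_cast hX1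
  obtain ⟨D', hD'⟩ : ∃ D', (P j).natDegree = D' + 1 := ⟨(P j).natDegree - 1, by omega⟩
  have hne : (P j).leadingCoeff ≠ 0 := by
    rw [Polynomial.leadingCoeff_ne_zero]
    intro h
    rw [h] at hD
    simp at hD
  have hPF : PF (P j).natDegree (P j).leadingCoeff (fun n => (P j).eval (n + a) + (β j + lft (c j) b)) := by
    rw [hD']
    refine pf_addc D' _ (fun n => (P j).eval (n + a)) _ ?_
    rw [← hD']
    exact pf_poly_shift (P j) a
  have hs1 : ∀ l, 1 ≤ s l := by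
    intro l
    have h1 : (0 : ℝ) < s l := lt_of_lt_of_le (by positivity) (hs l)
    exact_mod_cast h1
  have hbmem : b ∈ tb b s := by
    unfold tb
    rw [Fintype.mem_piFinset]
    intro l
    rw [mem_Ico]
    have := hs1 l
    omega
  have hY0 : (0 : ℝ) < Y := lt_of_lt_of_le (by positivity) hY1
  have hYpos : 0 < Y := by exact_mod_cast hY0
  have hSpt : Spt (4 * Y) F := by
    intro y hy
    refine hF y fun h => hy ?_
    have := s4b_JJ h
    rw [mem_Ico]
    push_cast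
    omega
  have hGG' : GG (4 * Y) (k + 1) F ≤ (Y : ℝ) ^ ((k : ℝ) + 2 - κ0) := by
    refine le_trans hGG (le_of_eq ?_)
    congr 1
    push_cast
    ring
  have hsupp : ∀ n ∈ range X, ∀ y, y ∉ Ico (-(Y : ℤ)) Y →
      F (y + (fun n : ℤ => (P j).eval (n + a) + (β j + lft (c j) b)) n) = 0 := by
    intro n hn y hy
    refine hF _ fun h => hy ?_
    have h1 := s4b_JJ h
    have h2 := s4b_JJ (hval n hn b hbmem)
    unfold vl' at h2
    rw [s4b_lf] at h2
    dsimp only at h1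
    rw [mem_Ico]
    omega
  have hmain := hX0 X hX0X Y hY1 hY2 (P j).leadingCoeff _ hne hPF F hSpt hF1 hGG' hsupp 0 s hs1
    (fun l hl => by rw [← hB.2 j l hl]; exact hs l) (fun i l hl => by rw [← hv3 i l hl]; exact hs l)
    (fun i n => (P i).eval ((n : ℤ) + a) + (β i + lft (c i) b)) w (fun i y => if i = j then 1 else G i y) hw
    (fun i y => by
      by_cases h : i = j
      · rw [if_pos h, norm_one]
      · rw [if_neg h]
        exact hG i y)
  refine le_trans (le_of_eq ?_) hmain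
  have e0 : tb b s = bZ b s := rfl
  rw [e0, s4b_shift]
  refine Finset.sum_congr rfl fun t _ => ?_
  congr 2
  refine Finset.sum_congr rfl fun n _ => ?_
  have e1 : ∀ i, vl' c P a β i n (t + b) = lft (c i) t + ((P i).eval ((n : ℤ) + a) + (β i + lft (c i) b)) := by
    intro i
    unfold vl'
    rw [s4b_lf, p3_lf_add]
    ring
  rw [e1 j]
  congr 1
  rw [← Finset.mul_prod_erase univ _ (Finset.mem_univ j)]
  rw [if_pos rfl, one_mul]
  refine Finset.prod_congr rfl fun i hi => ?_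
  rw [if_neg (Finset.ne_of_mem_erase hi), if_neg (Finset.ne_of_mem_erase hi), e1 i]

end Pool.Agent.HUP
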