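import Pool.Agent.Lib.HUP.S4B
import Pool.Agent.Lib.HUP.Defs2
import Pool.Agent.Lib.H24P.G2
import Pool.Agent.Lib.H59P.S3
import Pool.Agent.Lib.H9U.U0A

/-!
# Project HUP, S4T (helper37): the primes may be replaced by their projections, mean square over the parameters
-/

open Finset Polynomial

namespace Pool.Agent.HUP

open Pool.Agent.Lib.H68T Pool.Agent.Lib.H18Q Pool.Agent.Lib.H59P Pool.Agent.Lib.H24P
open Pool.Agent.HUK (GG Spt PK DD DL DV bxS D0_nn)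
open Pool.Agent.H9U (JJ cutJ Er Rgm)

/-! ### Numerical part -/

theorem s4t_num (k d E : ℕ) (δ τ : ℝ) (hδ : 0 < δ) (hτ : 0 < τ) (hτδ : τ * (4 + E + d) ≤ δ / 4) :
    ∃ Q0 : ℕ, 1 ≤ Q0 ∧ ∀ Q X X1 X' : ℕ, Q0 ≤ Q → Q ≤ X → (X : ℝ) ≤ X1 * (Q : ℝ) ^ τ → (X' : ℝ) ≤ 2 * X * (Q : ℝ) ^ τ →
    X ≤ X' → ∀ S : ℝ, 0 ≤ S → (X : ℝ) ^ E ≤ (Q : ℝ) ^ (τ * d) * S →
    (k : ℝ) ^ 2 * (X : ℝ) ^ (δ / 4) * (X' : ℝ) ^ (2 + (E : ℝ) - δ) ≤ (X1 : ℝ) ^ 2 * S * (Q : ℝ) ^ (-(δ / 4)) := by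
  obtain ⟨Q1, hQ1⟩ := s4a_large ((k : ℝ) ^ 2 * 2 ^ (2 + E)) (δ / 4) (by positivity)
  refine ⟨max 1 Q1, le_max_left _ _, ?_⟩
  intro Q X X1 X' hQ hQX hX hX' hXX' S hS hSE
  have hQ1' : 1 ≤ Q := (le_max_left _ _).trans hQ
  have hQr : (1 : ℝ) ≤ Q := by exact_mod_cast hQ1'
  have hQ0 : (0 : ℝ) < Q := by linarith
  have hXr : (1 : ℝ) ≤ X := by exact_mod_cast hQ1'.trans hQX
  have hX0 : (0 : ℝ) < X := by linarith
  have hX'X : (X : ℝ) ≤ X' := by exact_mod_cast hXX'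
  have hX'0 : (0 : ℝ) < X' := by linarith
  have hQXr : (Q : ℝ) ≤ X := by exact_mod_cast hQX
  have h1 : (X' : ℝ) ^ (2 + (E : ℝ) - δ) ≤ 2 ^ (2 + E) * ((X : ℝ) ^ 2 * X ^ E) * (Q : ℝ) ^ (τ * (2 + E)) * (X : ℝ) ^ (-δ) := by
    have e1 : (X' : ℝ) ^ (2 + (E : ℝ) - δ) = (X' : ℝ) ^ (2 + E) * (X' : ℝ) ^ (-δ) := by
      rw [sub_eq_add_neg, Real.rpow_add hX'0]
      congr 1
      rw [← Real.rpow_natCast]
      congr 1
      push_cast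
      ring
    rw [e1]
    have e2 : (X' : ℝ) ^ (2 + E) ≤ (2 * X * (Q : ℝ) ^ τ) ^ (2 + E) := pow_le_pow_left₀ hX'0.le hX' _
    have e3 : (2 * X * (Q : ℝ) ^ τ) ^ (2 + E) = 2 ^ (2 + E) * ((X : ℝ) ^ 2 * X ^ E) * (Q : ℝ) ^ (τ * (2 + E)) := by
      rw [mul_pow, mul_pow, pow_add (X : ℝ) 2 E, Real.rpow_mul hQ0.le]
      congr 1
      rw [← Real.rpow_natCast]
      congr 1
      push_cast
      ring
    have e4 : (X' : ℝ) ^ (-δ) ≤ (X : ℝ) ^ (-δ) := Real.rpow_le_rpow_of_nonpos hX0 hX'X (by linarith)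
    rw [← e3]
    exact mul_le_mul e2 e4 (by positivity) (by positivity)
  have h2 : (X : ℝ) ^ 2 ≤ (X1 : ℝ) ^ 2 * (Q : ℝ) ^ (τ * 2) := by
    calc (X : ℝ) ^ 2 ≤ (X1 * (Q : ℝ) ^ τ) ^ 2 := pow_le_pow_left₀ hX0.le hX 2
      _ = _ := by
        rw [mul_pow, Real.rpow_mul hQ0.le, Real.rpow_two]
  have h3 : (X : ℝ) ^ 2 * X ^ E ≤ (X1 : ℝ) ^ 2 * S * (Q : ℝ) ^ (τ * (2 + d)) := by
    calc (X : ℝ) ^ 2 * X ^ E ≤ ((X1 : ℝ) ^ 2 * (Q : ℝ) ^ (τ * 2)) * ((Q : ℝ) ^ (τ * d) * S) :=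
          mul_le_mul h2 hSE (by positivity) (by positivity)
      _ = (X1 : ℝ) ^ 2 * S * ((Q : ℝ) ^ (τ * 2) * (Q : ℝ) ^ (τ * d)) := by ring
      _ = _ := by
        rw [← Real.rpow_add hQ0]
        congr 2
        ring
  have h4 : (X : ℝ) ^ (δ / 4) * (X : ℝ) ^ (-δ) ≤ (Q : ℝ) ^ (-(3 * δ / 4)) := by
    rw [← Real.rpow_add hX0]
    calc (X : ℝ) ^ (δ / 4 + -δ) ≤ (Q : ℝ) ^ (δ / 4 + -δ) := Real.rpow_le_rpow_of_nonpos hQ0 hQXr (by linarith)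
      _ = _ := by congr 1; ring
  have h5 := hQ1 Q ((le_max_right _ _).trans hQ)
  calc (k : ℝ) ^ 2 * (X : ℝ) ^ (δ / 4) * (X' : ℝ) ^ (2 + (E : ℝ) - δ)
      ≤ (k : ℝ) ^ 2 * (X : ℝ) ^ (δ / 4) * (2 ^ (2 + E) * ((X : ℝ) ^ 2 * X ^ E) * (Q : ℝ) ^ (τ * (2 + E)) * (X : ℝ) ^ (-δ)) :=
        mul_le_mul_of_nonneg_left h1 (by positivity)
    _ = ((k : ℝ) ^ 2 * 2 ^ (2 + E)) * ((X : ℝ) ^ 2 * X ^ E) * (Q : ℝ) ^ (τ * (2 + E)) * ((X : ℝ) ^ (δ / 4) * (X : ℝ) ^ (-δ)) := by ring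
    _ ≤ (Q : ℝ) ^ (δ / 4) * ((X1 : ℝ) ^ 2 * S * (Q : ℝ) ^ (τ * (2 + d))) * (Q : ℝ) ^ (τ * (2 + E)) * (Q : ℝ) ^ (-(3 * δ / 4)) := by
        refine mul_le_mul (mul_le_mul_of_nonneg_right (mul_le_mul h5 h3 (by positivity) (by positivity)) (by positivity)) h4 (by positivity)
          (by positivity)
    _ = (X1 : ℝ) ^ 2 * S * ((Q : ℝ) ^ (δ / 4) * (Q : ℝ) ^ (τ * (2 + d)) * (Q : ℝ) ^ (τ * (2 + E)) * (Q : ℝ) ^ (-(3 * δ / 4))) := by ring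
    _ = (X1 : ℝ) ^ 2 * S * (Q : ℝ) ^ (δ / 4 + τ * (2 + d) + τ * (2 + E) + -(3 * δ / 4)) := by
        rw [← Real.rpow_add hQ0, ← Real.rpow_add hQ0, ← Real.rpow_add hQ0]
    _ ≤ _ := by
        refine mul_le_mul_of_nonneg_left (Real.rpow_le_rpow_of_exponent_le hQr ?_) (by positivity)
        nlinarith

theorem s4t_val (M : ℕ) (h : ℤ) (v : ℤ) (h8 : 8 ∣ M) (hM : 80 ≤ M) (hv : 1000 * |v| ≤ M) (h1 : 151 * (M : ℤ) ≤ 100 * h)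
    (h2 : 100 * h < 168 * (M : ℤ)) : v + h ∈ JJ (Ysc M) := by
  obtain ⟨m, rfl⟩ := h8
  have hY : Ysc (8 * m) = 6 * m := by
    unfold Ysc
    omega
  rw [hY]
  unfold JJ
  rw [mem_Ico]
  have hv1 := abs_le.1 (show |v| ≤ 8 * (m : ℤ) / 1000 by push_cast at hv; omega)
  push_cast at h1 h2 ⊢
  constructor
  · omega
  · omega

theorem s4t_JJ {Y : ℕ} {m : ℤ} (h : m ∈ JJ Y) : (Y : ℤ) ≤ m ∧ m ≤ 4 * Y := by
  have h1 := s4b_JJ h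
  constructor <;> omega

theorem s4t_DL (l : List ℤ) (a : ℝ) (f : ℤ → ℂ) : DL l (fun z => (a : ℂ) * f z) = fun z => ((a ^ (2 ^ l.length) : ℝ) : ℂ) * DL l f z :=
  Pool.Agent.HUK.DL_smul l a f

/-- Scaling. -/
theorem s4t_GG (Y s : ℕ) (a : ℝ) (f : ℤ → ℂ) : GG Y s (fun y => (a : ℂ) * f y) = a ^ (2 ^ s) * GG Y s f := by
  unfold GG
  rw [← Complex.re_ofReal_mul, Finset.mul_sum]
  congr 1
  refine Finset.sum_congr rfl fun h _ => ?_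
  unfold Pool.Agent.HUK.FF
  rw [Finset.mul_sum]
  refine Finset.sum_congr rfl fun y _ => ?_
  unfold DV
  rw [s4t_DL, List.length_ofFn]

theorem s4t_scale (Y s : ℕ) (hs : 1 ≤ s) (a : ℝ) (ha : 0 ≤ a) (ha1 : a ≤ 1) (f : ℤ → ℂ) (hf : Spt Y f) :
    GG Y s (fun y => (a : ℂ) * f y) ≤ GG Y s f := by
  rw [s4t_GG]
  have h1 : a ^ (2 ^ s) ≤ 1 := pow_le_one₀ ha ha1
  have h2 := D0_nn hf hs
  nlinarith

/-- Independence of the window. -/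
theorem s4t_win (Y Y' s : ℕ) (f : ℤ → ℂ) (h : Spt Y f) (h' : Spt Y' f) : GG Y s f = GG Y' s f := by
  have e : (fun y => f (y + 0)) = f := by
    funext y
    rw [add_zero]
  have h1 := w4_GG s Y Y' f 0 h (by rw [e]; exact h')
  rw [e] at h1
  exact h1

/-! ### Telescoping -/

/-- the functions of the telescoping sum -/
noncomputable def s4tf {k : ℕ} (Q : ℕ) (M : Fin k → ℕ) (j i : Fin k) (m : ℤ) : ℝ :=
  if i < j then Lk Q (Ysc (M i) / Q ^ 2) m else if i = j then lp m - Lk Q (Ysc (M i) / Q ^ 2) m else lp m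

theorem s4t_tel {k : ℕ} (P : Fin k → ℤ[X]) (Q X1 : ℕ) (M : Fin k → ℕ) (w : ℕ → ℝ) (h : Fin k → ℕ) :
    ∑ n ∈ Ico X1 (2 * X1), w n * ∏ i, lp ((P i).eval (n : ℤ) + h i) - Rw Q X1 P M w h =
      ∑ j, ∑ n ∈ Ico X1 (2 * X1), w n * ∏ i, s4tf Q M j i ((P i).eval (n : ℤ) + h i) := by
  unfold Rw
  rw [← Finset.sum_sub_distrib, Finset.sum_comm]
  refine Finset.sum_congr rfl fun n hn => ?_
  rw [← mul_sub, ← Finset.mul_sum]
  congr 1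
  rw [Pool.Agent.Lib.H59P.S3 (fun i => lp ((P i).eval (n : ℤ) + h i))
    (fun i => Lk Q (Ysc (M i) / Q ^ 2) ((P i).eval (n : ℤ) + h i))]
  rfl

/-- the functions of the telescoping sum, cut off and normalised -/
noncomputable def s4tg {k : ℕ} (W : ℝ) (Q : ℕ) (M : Fin k → ℕ) (j i : Fin k) (m : ℤ) : ℂ :=
  if m ∈ JJ (Ysc (M i)) then (((s4tf Q M j i m) / W : ℝ) : ℂ) else 0

theorem s4tg_cut {k : ℕ} (W : ℝ) (Q : ℕ) (M : Fin k → ℕ) (j : Fin k) (m : ℤ) :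
    s4tg W Q M j j m = ((1 / W : ℝ) : ℂ) * cutJ (Ysc (M j)) (Er Q Q (Ysc (M j))) m := by
  unfold s4tg cutJ s4tf Er Pool.Agent.H9S.lc Pool.Agent.H9S.Lc
  by_cases h : m ∈ JJ (Ysc (M j))
  · rw [if_pos h, if_pos h, if_neg (lt_irrefl j), if_pos rfl]
    push_cast
    ring
  · rw [if_neg h, if_neg h, mul_zero]

theorem s4t_le_sum {k : ℕ} (f : Fin k → ℕ) (i : Fin k) : f i ≤ ∑ i, f i :=
  Finset.single_le_sum (f := f) (fun _ _ => Nat.zero_le _) (Finset.mem_univ i)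

/-- The values of the polynomials are small. -/
theorem s4t_poly (A X1 M : ℕ) (P : ℤ[X]) (hA : P.natDegree ≤ A)
    (hlo : ∀ j, 1000 * (A + 1) ^ 2 * (P.coeff j).natAbs * (2 * X1) ^ j ≤ M) (n : ℕ) (hn : n < 2 * X1) :
    1000 * |P.eval (n : ℤ)| ≤ M := by
  rw [Polynomial.eval_eq_sum_range]
  have h1 : ∀ j ∈ range (P.natDegree + 1), 1000 * ((A : ℤ) + 1) * |P.coeff j * (n : ℤ) ^ j| ≤ M := by
    intro j _
    have h2 := hlo j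
    have h3 : (n : ℤ) ^ j ≤ (2 * X1) ^ j := pow_le_pow_left₀ (by positivity) (by exact_mod_cast hn.le) j
    rw [abs_mul, abs_pow, Nat.abs_cast]
    have h4 : ((1000 * (A + 1) ^ 2 * (P.coeff j).natAbs * (2 * X1) ^ j : ℕ) : ℤ) ≤ M := by exact_mod_cast h2
    push_cast at h4
    have h5 : (0 : ℤ) ≤ |P.coeff j| := abs_nonneg _
    have h6 : 1000 * ((A : ℤ) + 1) * (|P.coeff j| * (n : ℤ) ^ j) ≤ 1000 * ((A : ℤ) + 1) * (|P.coeff j| * (2 * X1) ^ j) :=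
      mul_le_mul_of_nonneg_left (mul_le_mul_of_nonneg_left h3 h5) (by positivity)
    have h7 : 0 ≤ |P.coeff j| * (2 * (X1 : ℤ)) ^ j := by positivity
    have h8 : 1000 * ((A : ℤ) + 1) * (|P.coeff j| * (2 * X1) ^ j) ≤ 1000 * ((A : ℤ) + 1) ^ 2 * (|P.coeff j| * (2 * X1) ^ j) := by
      refine mul_le_mul_of_nonneg_right ?_ h7
      nlinarith [Int.natCast_nonneg A]
    have h9 : 1000 * ((A : ℤ) + 1) ^ 2 * (|P.coeff j| * (2 * X1) ^ j) = 1000 * ((A : ℤ) + 1) ^ 2 * |P.coeff j| * (2 * X1) ^ j := by ring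
    linarith
  have h2 : 1000 * ((A : ℤ) + 1) * |∑ j ∈ range (P.natDegree + 1), P.coeff j * (n : ℤ) ^ j| ≤ ((A : ℤ) + 1) * M := by
    calc 1000 * ((A : ℤ) + 1) * |∑ j ∈ range (P.natDegree + 1), P.coeff j * (n : ℤ) ^ j|
        ≤ 1000 * ((A : ℤ) + 1) * ∑ j ∈ range (P.natDegree + 1), |P.coeff j * (n : ℤ) ^ j| :=
          mul_le_mul_of_nonneg_left (Finset.abs_sum_le_sum_abs _ _) (by positivity)
      _ = ∑ j ∈ range (P.natDegree + 1), 1000 * ((A : ℤ) + 1) * |P.coeff j * (n : ℤ) ^ j| := Finset.mul_sum _ _ _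
      _ ≤ ∑ _j ∈ range (P.natDegree + 1), (M : ℤ) := Finset.sum_le_sum h1
      _ = ((P.natDegree : ℤ) + 1) * M := by rw [Finset.sum_const, card_range, nsmul_eq_mul]; push_cast; ring
      _ ≤ _ := by
        refine mul_le_mul_of_nonneg_right ?_ (by positivity)
        have : (P.natDegree : ℤ) ≤ A := by exact_mod_cast hA
        linarith
  have h3 : ((A : ℤ) + 1) * (1000 * |∑ j ∈ range (P.natDegree + 1), P.coeff j * (n : ℤ) ^ j|) ≤ ((A : ℤ) + 1) * M := by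
    refine le_trans (le_of_eq ?_) h2
    ring
  exact le_of_mul_le_mul_left h3 (by positivity)

/-- The regime, uniformly. -/
theorem s4t_reg {k : ℕ} (D : Fin k → ℕ) (hD : ∀ i, 1 ≤ D i) (K C : ℝ) (hK : 1 ≤ K) :
    ∃ Q0 : ℕ, ∀ (A Q X X1 : ℕ) (a : Fin k → ℤ) (P : Fin k → ℤ[X]) (M : Fin k → ℕ), (∀ i, a i ≠ 0) → HasD D a P → Q0 ≤ Q →
    Rg (K + 1) C Q X → GeoU A Q X X1 P M → ∀ i, RegP K Q (Ysc (M i)) ∧ X1 ≤ Ysc (M i) ∧
      Real.log (Ysc (M i)) ≤ (D i + 1) * Real.log X := by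
  obtain ⟨Q0, hQ0⟩ := G2_reg (fun i => (X : ℤ[X]) ^ D i) (fun i => by rw [Polynomial.natDegree_X_pow]; exact hD i) K C hK
  refine ⟨Q0, fun A Q X X1 a P M ha hP hQ hR hG i => ?_⟩
  have hG' : Geo 2 Q X X1 (fun i => (Polynomial.X : ℤ[X]) ^ D i) M := by
    refine ⟨hG.dvd, hG.pos, hG.le, hG.ge, hG.dvdM, fun i => ?_, fun i => ?_⟩
    · rw [Polynomial.natDegree_X_pow]
      have h1 := hG.lo i (D i)
      have h2 : (P i).coeff (D i) = a i := by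
        rw [← (hP i).2, ← (hP i).1]
        rfl
      rw [h2] at h1
      have h3 : 1 ≤ (a i).natAbs := Int.natAbs_pos.2 (ha i)
      have h4 : X1 ^ D i ≤ (2 * X1) ^ D i := Nat.pow_le_pow_left (by omega) _
      refine le_trans ?_ h1
      calc 2 * X1 ^ D i ≤ 1000 * (A + 1) ^ 2 * (a i).natAbs * X1 ^ D i := by
            refine Nat.mul_le_mul_right _ ?_
            have h5 : 1 ≤ (A + 1) ^ 2 := Nat.one_le_pow _ _ (by omega)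
            nlinarith
        _ ≤ _ := Nat.mul_le_mul_left _ h4
    · rw [Polynomial.natDegree_X_pow]
      have h1 := hG.hi i
      rw [(hP i).1] at h1
      exact h1
  have h1 := hQ0 2 Q X X1 M hQ le_rfl hR hG' i
  rw [Polynomial.natDegree_X_pow] at h1
  exact h1

end Pool.Agent.HUP
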