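import Pool.Agent.Lib.HUK.A8b
import Pool.Agent.Lib.SZW.A2

/-!
# Project HUP, W0 (helper37): inverse theorem for Weyl sums, integer functions of degree at most `d + 1`
-/

open Finset

namespace Pool.Agent.HUP

open Pool.Agent.H44W (ee)
open Pool.Agent.Lib.H84V (nd vino nd_nonneg)
open Pool.Agent.HUK (PF pf_congr pf_shift av_pigeon)

/-- One linear variable after the pigeonhole. -/
theorem w0_lin (δ1 : ℝ) (h0 : 0 < δ1) (h1 : δ1 ≤ 1 / 2) (C L : ℕ) (T : Finset ℤ) (hT : T ⊆ Ioo (-(L : ℤ)) L)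
    (hc : 2 * δ1 * L ≤ T.card) (f : ℤ → ℕ) (α ε : ℝ)
    (hf : ∀ h ∈ T, 1 ≤ f h ∧ (f h : ℝ) ≤ (1 / δ1) ^ C ∧ nd (f h * (h * α)) ≤ ε) (hε : 0 ≤ ε)
    (hε2 : ε ≤ δ1 ^ (C + 1) / 16) (hL : 12 * (1 / δ1) ^ (2 * (C + 1)) ≤ L) :
    ∃ q : ℕ, 1 ≤ q ∧ (q : ℝ) ≤ 2 * (1 / δ1) ^ (2 * C + 1) ∧ nd (q * α) ≤ 8 * ε * (1 / δ1) ^ (2 * (C + 1)) / L := by
  have hi1 : 1 ≤ 1 / δ1 := by
    rw [le_div_iff₀ h0]
    linarith
  have hL0 : (0 : ℝ) < L := lt_of_lt_of_le (by positivity) hL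
  have hTpos : 0 < T.card := by
    have h2 : (0 : ℝ) < T.card := lt_of_lt_of_le (by positivity) hc
    exact_mod_cast h2
  obtain ⟨q, hq1, hqB, hqc⟩ := av_pigeon T f ((1 / δ1) ^ C) (one_le_pow₀ hi1) hTpos
    (fun h hh => ⟨(hf h hh).1, (hf h hh).2.1⟩)
  obtain ⟨η, hηd⟩ : ∃ η : ℝ, η = δ1 ^ (C + 1) := ⟨_, rfl⟩
  have hη : 0 < η := by rw [hηd]; positivity
  have hη1 : η ≤ 1 := by
    rw [hηd]
    exact pow_le_one₀ h0.le (by linarith)
  have hηi : (1 / δ1) ^ (2 * (C + 1)) = 1 / η ^ 2 := by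
    rw [hηd, ← pow_mul, mul_comm 2 (C + 1), one_div_pow]
  have h24 : 24 / η ^ 2 ≤ ((2 * L : ℕ) : ℝ) := by
    push_cast
    rw [hηi] at hL
    have h3 : 24 / η ^ 2 = 2 * (12 * (1 / η ^ 2)) := by ring
    rw [h3]
    linarith
  have hcardη : η * ((2 * L : ℕ) : ℝ) ≤ ((T.filter fun h => f h = q).card : ℝ) := by
    refine le_trans ?_ hqc
    rw [le_div_iff₀ (by positivity), hηd]
    push_cast
    have h2 : δ1 ^ (C + 1) * (2 * (L : ℝ)) * (1 / δ1) ^ C = 2 * δ1 * L := by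
      have h3 : δ1 ^ C * (1 / δ1) ^ C = 1 := by
        rw [← mul_pow, mul_one_div_cancel h0.ne', one_pow]
      calc δ1 ^ (C + 1) * (2 * (L : ℝ)) * (1 / δ1) ^ C = 2 * δ1 * L * (δ1 ^ C * (1 / δ1) ^ C) := by
            rw [pow_succ]
            ring
        _ = _ := by rw [h3, mul_one]
    rw [h2]
    exact hc
  have hsub : (T.filter fun h => f h = q) ⊆ Finset.Ico (-(L : ℤ)) (-(L : ℤ) + ((2 * L : ℕ) : ℤ)) := by
    intro h hh
    have h2 := hT (mem_filter.1 hh).1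
    rw [mem_Ioo] at h2
    rw [mem_Ico]
    push_cast
    omega
  obtain ⟨q', hq'1, hq'2, hq'3⟩ := vino (N := 2 * L) (a := -(L : ℤ)) (α := q * α) (β := 0)
    hη hη1 hε (by rw [hηd]; exact hε2) h24 (T.filter fun h => f h = q) hsub hcardη (by
      intro w hw
      rw [mem_filter] at hw
      have h2 := (hf w hw.1).2.2
      rw [hw.2] at h2
      rw [add_zero, show (w : ℝ) * (q * α) = q * (w * α) by ring]
      exact h2)
  refine ⟨q' * q, Nat.succ_le_of_lt (Nat.mul_pos hq'1 hq1), ?_, ?_⟩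
  · push_cast
    have h2 : 2 / η = 2 * (1 / δ1) ^ (C + 1) := by
      rw [hηd, one_div_pow]
      ring
    calc (q' : ℝ) * q ≤ 2 * (1 / δ1) ^ (C + 1) * (1 / δ1) ^ C :=
          mul_le_mul (hq'2.trans h2.le) hqB (by positivity) (by positivity)
      _ = _ := by
          rw [mul_assoc, ← pow_add]
          congr 2
          ring
  · push_cast
    rw [mul_assoc]
    refine hq'3.trans (le_of_eq ?_)
    push_cast
    rw [hηi]
    field_simp
    ring

/-- Linear sums. -/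
theorem w0_geom (L : ℕ) (a θ : ℝ) : ‖∑ k ∈ range L, ee (a + θ * k)‖ * (2 * nd θ) ≤ 1 := by
  have h1 := Pool.Agent.SZW.geom_bound 0 (L : ℤ) θ
  have h2 : ‖∑ k ∈ range L, ee (a + θ * k)‖ = ‖∑ n ∈ Finset.Ico (0 : ℤ) L, Pool.Agent.SZW.ee (n * θ)‖ := by
    have h3 : ∑ k ∈ range L, ee (a + θ * k) = ee a * ∑ n ∈ Finset.Ico (0 : ℤ) L, Pool.Agent.SZW.ee (n * θ) := by
      rw [Finset.mul_sum]
      refine Finset.sum_nbij' (fun k : ℕ => (k : ℤ)) (fun n : ℤ => n.toNat) ?_ ?_ ?_ ?_ ?_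
      · intro k hk
        rw [mem_range] at hk
        rw [mem_Ico]
        omega
      · intro n hn
        rw [mem_Ico] at hn
        rw [mem_range]
        omega
      · intro k _
        simp
      · intro n hn
        rw [mem_Ico] at hn
        omega
      · intro k _
        rw [Pool.Agent.H44W.ee_add]
        congr 1
        push_cast
        rw [mul_comm]
        rfl
    rw [h3, norm_mul, Pool.Agent.H44W.norm_ee, one_mul]
  rw [h2]
  exact h1


theorem w0_vdc (L : ℕ) (u : ℤ → ℂ) : ((‖∑ k ∈ range L, u k‖ ^ 2 : ℝ) : ℂ) =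
    ∑ h ∈ Ioo (-(L : ℤ)) L, ∑ k ∈ range (L - h.natAbs),
      u ((k : ℤ) + max 0 (-h) + h) * (starRingEnd ℂ) (u ((k : ℤ) + max 0 (-h))) := by
  have h1 : ((‖∑ k ∈ range L, u k‖ ^ 2 : ℝ) : ℂ) = ∑ p ∈ range L ×ˢ range L, u (p.2 : ℤ) * (starRingEnd ℂ) (u (p.1 : ℤ)) := by
    have h2 : ((‖∑ k ∈ range L, u k‖ ^ 2 : ℝ) : ℂ) =
        (starRingEnd ℂ) (∑ k ∈ range L, u k) * (∑ k ∈ range L, u k) := by
      rw [mul_comm, Complex.mul_conj, Complex.normSq_eq_norm_sq]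
    rw [h2, map_sum, Finset.sum_mul_sum, ← Finset.sum_product' (range L) (range L)
      (fun k k' : ℕ => (starRingEnd ℂ) (u (k : ℤ)) * u (k' : ℤ))]
    refine Finset.sum_congr rfl fun p _ => ?_
    rw [mul_comm]
  rw [h1, ← Finset.sum_fiberwise_of_maps_to (t := Ioo (-(L : ℤ)) L) (g := fun p : ℕ × ℕ => (p.2 : ℤ) - p.1)]
  · refine Finset.sum_congr rfl fun h _ => ?_
    refine Finset.sum_nbij' (fun p => ((p.1 : ℤ) - max 0 (-h)).toNat)
      (fun k => (((k : ℤ) + max 0 (-h)).toNat, ((k : ℤ) + max 0 (-h) + h).toNat)) ?_ ?_ ?_ ?_ ?_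
    · intro p hp
      rw [mem_filter, mem_product, mem_range, mem_range] at hp
      rw [mem_range]
      omega
    · intro k hk
      rw [mem_range] at hk
      rw [mem_filter, mem_product, mem_range, mem_range]
      simp only
      omega
    · intro p hp
      rw [mem_filter, mem_product, mem_range, mem_range] at hp
      refine Prod.ext ?_ ?_
      · simp only
        omega
      · simp only
        omega
    · intro k hk
      rw [mem_range] at hk
      omega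
    · intro p hp
      rw [mem_filter, mem_product, mem_range, mem_range] at hp
      have e1 : ((((p.1 : ℤ) - max 0 (-h)).toNat : ℕ) : ℤ) + max 0 (-h) = p.1 := by omega
      have e2 : (p.1 : ℤ) + h = p.2 := by omega
      rw [e1, e2]
  · intro p hp
    rw [mem_product, mem_range, mem_range] at hp
    rw [mem_Ioo]
    omega

/-- Many large terms. -/
theorem w0_many (L : ℕ) (hL : 1 ≤ L) (δ : ℝ) (r : ℤ → ℝ) (hr : ∀ h, r h ≤ L)
    (hs : (δ * L) ^ 2 ≤ ∑ h ∈ Ioo (-(L : ℤ)) L, r h) :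
    δ ^ 2 / 2 * L ≤ (((Ioo (-(L : ℤ)) L).filter fun h : ℤ => δ ^ 2 / 4 * L ≤ r h).card : ℝ) := by
  have hLr : (1 : ℝ) ≤ L := by exact_mod_cast hL
  have h3 : ∑ h ∈ Ioo (-(L : ℤ)) L, r h ≤
      (((Ioo (-(L : ℤ)) L).filter fun h : ℤ => δ ^ 2 / 4 * L ≤ r h).card : ℝ) * L + (2 * L) * (δ ^ 2 / 4 * L) := by
    rw [← Finset.sum_filter_add_sum_filter_not _ (fun h : ℤ => δ ^ 2 / 4 * L ≤ r h)]
    refine add_le_add ?_ ?_
    · rw [← nsmul_eq_mul]
      exact Finset.sum_le_card_nsmul _ _ _ fun h _ => hr h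
    · have h4 : ∑ h ∈ (Ioo (-(L : ℤ)) L).filter (fun h : ℤ => ¬ δ ^ 2 / 4 * L ≤ r h), r h ≤
          ((Ioo (-(L : ℤ)) L).filter (fun h : ℤ => ¬ δ ^ 2 / 4 * L ≤ r h)).card • (δ ^ 2 / 4 * L) :=
        Finset.sum_le_card_nsmul _ _ _ fun h hh => (not_le.1 (mem_filter.1 hh).2).le
      refine h4.trans ?_
      rw [nsmul_eq_mul]
      refine mul_le_mul_of_nonneg_right ?_ (by positivity)
      have h5 : ((Ioo (-(L : ℤ)) L).filter (fun h : ℤ => ¬ δ ^ 2 / 4 * L ≤ r h)).card ≤ 2 * L := by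
        refine (Finset.card_filter_le _ _).trans ?_
        rw [Int.card_Ioo]
        omega
      exact_mod_cast h5
  have h7 : δ ^ 2 / 2 * L * L ≤ (((Ioo (-(L : ℤ)) L).filter fun h : ℤ => δ ^ 2 / 4 * L ≤ r h).card : ℝ) * L := by
    nlinarith
  exact le_of_mul_le_mul_right h7 (by linarith)

/-- **Inverse theorem for Weyl sums.** -/
theorem weyl_inv (d : ℕ) : ∃ C : ℕ, ∀ δ : ℝ, 0 < δ → δ ≤ 1 / 2 → ∀ L : ℕ, (1 / δ) ^ C ≤ L → ∀ (c : ℤ) (P : ℤ → ℤ) (θ : ℝ),
    PF (d + 1) c P → δ * L ≤ ‖∑ k ∈ range L, ee (θ * P k)‖ →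
    ∃ q : ℕ, 1 ≤ q ∧ (q : ℝ) ≤ (1 / δ) ^ C ∧ nd (q * (c * θ)) ≤ (1 / δ) ^ C / (L : ℝ) ^ (d + 1) := by
  induction d with
  | zero =>
    refine ⟨1, fun δ hδ hδ2 L hL c P θ hP hsum => ?_⟩
    have hδi : 2 ≤ 1 / δ := by
      rw [le_div_iff₀ hδ]
      linarith
    have hL0 : (0 : ℝ) < L := by
      rw [pow_one] at hL
      linarith
    have hPk : ∀ k : ℤ, P k = P 0 + c * k := by
      intro k
      have h1 := hP k 0
      simp only [zero_add] at h1
      push_cast at h1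
      linarith
    have h1 : ‖∑ k ∈ range L, ee (θ * P k)‖ * (2 * nd (c * θ)) ≤ 1 := by
      have h2 := w0_geom L (θ * P 0) (c * θ)
      have h3 : ∑ k ∈ range L, ee (θ * P k) = ∑ k ∈ range L, ee (θ * P 0 + c * θ * k) := by
        refine Finset.sum_congr rfl fun k _ => ?_
        rw [hPk k]
        congr 1
        push_cast
        ring
      rw [h3]
      exact h2
    refine ⟨1, le_rfl, by rw [pow_one]; push_cast; linarith, ?_⟩
    rw [Nat.cast_one, one_mul, zero_add, pow_one, pow_one]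
    have h4 : δ * L * (2 * nd (c * θ)) ≤ 1 :=
      (mul_le_mul_of_nonneg_right hsum (by have := nd_nonneg (c * θ); linarith)).trans h1
    rw [div_div, le_div_iff₀ (by positivity)]
    have := nd_nonneg (c * θ)
    nlinarith
  | succ d ih =>
    obtain ⟨C, hC⟩ := ih
    refine ⟨12 * C + 5 * d + 30, fun δ hδ hδ2 L hL c P θ hP hsum => ?_⟩
    have hδi : 2 ≤ 1 / δ := by
      rw [le_div_iff₀ hδ]
      linarith
    have hδi1 : 1 ≤ 1 / δ := by linarith
    have hmono : ∀ a b : ℕ, a ≤ b → (1 / δ) ^ a ≤ (1 / δ) ^ b := fun a b hab => pow_le_pow_right₀ hδi1 hab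
    have hLr1 : (1 : ℝ) ≤ L := (one_le_pow₀ hδi1).trans hL
    have hL1 : 1 ≤ L := by exact_mod_cast hLr1
    have hL0 : (0 : ℝ) < L := by linarith
    obtain ⟨δ1, hδ1d⟩ : ∃ δ1 : ℝ, δ1 = δ ^ 2 / 4 := ⟨_, rfl⟩
    have hδ1p : 0 < δ1 := by rw [hδ1d]; positivity
    have hδ1h : δ1 ≤ 1 / 2 := by
      rw [hδ1d]
      nlinarith
    have hδ14 : δ ^ 4 ≤ δ1 := by
      rw [hδ1d]
      have h1 : δ ^ 2 ≤ 1 / 4 := by nlinarith
      have h2 : δ ^ 4 = δ ^ 2 * δ ^ 2 := by ring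
      rw [h2]
      nlinarith [sq_nonneg δ]
    have hδ1i : 1 / δ1 ≤ (1 / δ) ^ 4 := by
      rw [one_div, one_div, inv_pow]
      exact inv_anti₀ (by positivity) hδ14
    have hδ1i1 : 1 ≤ 1 / δ1 := by
      rw [le_div_iff₀ hδ1p]
      linarith
    have hinvpow : ∀ n : ℕ, (1 / δ1) ^ n ≤ (1 / δ) ^ (4 * n) := by
      intro n
      rw [pow_mul]
      exact pow_le_pow_left₀ (by positivity) hδ1i n
    -- differencing
    obtain ⟨r, hr⟩ : ∃ r : ℤ → ℝ, ∀ h, r h = ‖∑ k ∈ range (L - h.natAbs),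
      ee (θ * ((P ((k : ℤ) + max 0 (-h) + h) - P ((k : ℤ) + max 0 (-h)) : ℤ) : ℝ))‖ := ⟨_, fun _ => rfl⟩
    have hrN : ∀ h, r h ≤ ((L - h.natAbs : ℕ) : ℝ) := by
      intro h
      rw [hr]
      refine (norm_sum_le _ _).trans (le_of_eq ?_)
      rw [Finset.sum_congr rfl fun k _ => Pool.Agent.H44W.norm_ee _, Finset.sum_const, card_range, nsmul_eq_mul, mul_one]
    have hrL : ∀ h, r h ≤ L := by
      intro h
      refine (hrN h).trans ?_
      exact_mod_cast Nat.sub_le _ _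
    have hrs : (δ * L) ^ 2 ≤ ∑ h ∈ Ioo (-(L : ℤ)) L, r h := by
      refine (pow_le_pow_left₀ (by positivity) hsum 2).trans ?_
      have h1 := w0_vdc L (fun k => ee (θ * P k))
      have h2 : ‖∑ k ∈ range L, ee (θ * P k)‖ ^ 2 = ‖((‖∑ k ∈ range L, ee (θ * P k)‖ ^ 2 : ℝ) : ℂ)‖ := by
        rw [Complex.norm_real, Real.norm_of_nonneg (by positivity)]
      rw [h2, h1]
      refine (norm_sum_le _ _).trans (Finset.sum_le_sum fun h _ => le_of_eq ?_)
      rw [hr]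
      congr 1
      refine Finset.sum_congr rfl fun k _ => ?_
      rw [← Pool.Agent.H44W.ee_neg, ← Pool.Agent.H44W.ee_add]
      congr 1
      push_cast
      ring
    obtain ⟨T, hTd⟩ : ∃ T : Finset ℤ, T = (Ioo (-(L : ℤ)) L).filter fun h : ℤ => δ ^ 2 / 4 * L ≤ r h := ⟨_, rfl⟩
    have hT := w0_many L hL1 δ r hrL hrs
    rw [← hTd] at hT
    -- the induction hypothesis
    have hbig : (1 / δ1) ^ (C + 1) ≤ L := ((hinvpow _).trans (hmono _ _ (by omega))).trans hL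
    have hq : ∀ h : ℤ, h ∈ T → ∃ q : ℕ, 1 ≤ q ∧ (q : ℝ) ≤ (1 / δ1) ^ C ∧
        nd (q * (h * ((d + 2) * c * θ))) ≤ (1 / δ1) ^ (C + d + 1) / (L : ℝ) ^ (d + 1) := by
      intro h hh
      rw [hTd, mem_filter, ← hδ1d] at hh
      obtain ⟨N, hN⟩ : ∃ N : ℕ, N = L - h.natAbs := ⟨_, rfl⟩
      have hNL : (N : ℝ) ≤ L := by
        rw [hN]
        exact_mod_cast Nat.sub_le _ _
      have hN1 : δ1 * L ≤ N := by
        rw [hN]
        exact hh.2.trans (hrN h)
      have hNpos : (0 : ℝ) < N := lt_of_lt_of_le (by positivity) hN1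
      have hN2 : (1 / δ1) ^ C ≤ N := by
        refine le_trans ?_ hN1
        have h1 : (1 / δ1) ^ C = δ1 * (1 / δ1) ^ (C + 1) := by
          rw [pow_succ]
          field_simp
        rw [h1]
        exact mul_le_mul_of_nonneg_left hbig hδ1p.le
      have hPF := pf_shift (d + 1) (max 0 (-h)) _ _ (hP h)
      obtain ⟨q, hq1, hq2, hq3⟩ := hC δ1 hδ1p hδ1h N hN2 _ _ θ hPF (by
        have h2 := hh.2
        rw [hr, ← hN] at h2
        exact (mul_le_mul_of_nonneg_left hNL hδ1p.le).trans h2)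
      refine ⟨q, hq1, hq2, ?_⟩
      have h3 : (q : ℝ) * (h * ((d + 2) * c * θ)) = q * (((((d + 1 : ℕ) : ℤ) + 1) * h * c : ℤ) * θ) := by
        push_cast
        ring
      rw [h3]
      refine hq3.trans ?_
      have h4 : (δ1 * L) ^ (d + 1) ≤ (N : ℝ) ^ (d + 1) := pow_le_pow_left₀ (by positivity) hN1 _
      calc (1 / δ1) ^ C / (N : ℝ) ^ (d + 1) ≤ (1 / δ1) ^ C / (δ1 * L) ^ (d + 1) :=
            div_le_div_of_nonneg_left (by positivity) (by positivity) h4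
        _ = _ := by
            rw [mul_pow, add_assoc, pow_add (1 / δ1) C (d + 1), one_div_pow (n := d + 1)]
            field_simp
    obtain ⟨f, hf⟩ : ∃ f : ℤ → ℕ, ∀ h ∈ T, 1 ≤ f h ∧ (f h : ℝ) ≤ (1 / δ1) ^ C ∧
        nd (f h * (h * ((d + 2) * c * θ))) ≤ (1 / δ1) ^ (C + d + 1) / (L : ℝ) ^ (d + 1) := by
      refine ⟨fun h => if hh : h ∈ T then (hq h hh).choose else 1, fun h hh => ?_⟩
      simp only [dif_pos hh]
      exact (hq h hh).choose_spec
    have hLd : (L : ℝ) ≤ (L : ℝ) ^ (d + 1) := le_self_pow₀ hLr1 (by omega)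
    have h16 : (16 : ℝ) ≤ (1 / δ) ^ 4 := by
      calc (16 : ℝ) = 2 ^ 4 := by norm_num
        _ ≤ (1 / δ) ^ 4 := pow_le_pow_left₀ (by norm_num) hδi 4
    obtain ⟨q, hq1, hq2, hq3⟩ := w0_lin δ1 hδ1p hδ1h C L T (by rw [hTd]; exact Finset.filter_subset _ _)
      (by
        refine le_trans (le_of_eq ?_) hT
        rw [hδ1d]
        ring) f ((d + 2) * c * θ) _ hf (by positivity) (by
        rw [div_le_iff₀ (by positivity)]
        have h1 : (1 / δ1) ^ (2 * C + d + 2) * 16 ≤ L := by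
          have h2 : (1 / δ) ^ (4 * (2 * C + d + 2) + 4) ≤ L := (hmono _ _ (by omega)).trans hL
          refine le_trans ?_ h2
          rw [pow_add (1 / δ) (4 * (2 * C + d + 2)) 4]
          exact mul_le_mul (hinvpow _) h16 (by norm_num) (by positivity)
        have h3 : (1 / δ1) ^ (C + d + 1) = δ1 ^ (C + 1) / 16 * ((1 / δ1) ^ (2 * C + d + 2) * 16) := by
          rw [show 2 * C + d + 2 = (C + d + 1) + (C + 1) by ring, pow_add (1 / δ1) (C + d + 1) (C + 1),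
            one_div_pow (n := C + 1)]
          field_simp
        rw [h3]
        exact mul_le_mul_of_nonneg_left (h1.trans hLd) (by positivity))
      (by
        have h2 : (1 / δ) ^ (4 + 4 * (2 * (C + 1))) ≤ L := (hmono _ _ (by omega)).trans hL
        refine le_trans ?_ h2
        rw [pow_add (1 / δ) 4 (4 * (2 * (C + 1)))]
        exact mul_le_mul (by linarith) (hinvpow _) (by positivity) (by positivity))
    refine ⟨q * (d + 2), Nat.succ_le_of_lt (Nat.mul_pos hq1 (Nat.succ_pos _)), ?_, ?_⟩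
    · push_cast
      have h2 : (d : ℝ) + 2 ≤ (1 / δ) ^ (d + 2) := by
        have h3 : (d : ℝ) + 2 ≤ 2 ^ (d + 2) := by
          have h4 : d + 2 < 2 ^ (d + 2) := Nat.lt_two_pow_self
          exact_mod_cast h4.le
        exact h3.trans (pow_le_pow_left₀ (by norm_num) hδi _)
      calc (q : ℝ) * ((d : ℝ) + 2) ≤ (1 / δ) ^ 1 * (1 / δ) ^ (4 * (2 * C + 1)) * (1 / δ) ^ (d + 2) := by
            refine mul_le_mul (hq2.trans ?_) h2 (by positivity) (by positivity)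
            rw [pow_one]
            exact mul_le_mul hδi (hinvpow _) (by positivity) (by positivity)
        _ = (1 / δ) ^ (1 + 4 * (2 * C + 1) + (d + 2)) := by rw [← pow_add, ← pow_add]
        _ ≤ _ := hmono _ _ (by omega)
    · push_cast
      rw [show (q : ℝ) * ((d : ℝ) + 2) * (c * θ) = q * ((d + 2) * c * θ) by ring]
      refine hq3.trans ?_
      have h1 : 8 * ((1 / δ1) ^ (C + d + 1) / (L : ℝ) ^ (d + 1)) * (1 / δ1) ^ (2 * (C + 1)) / L =
          8 * (1 / δ1) ^ (C + d + 1 + 2 * (C + 1)) / (L : ℝ) ^ (d + 1 + 1) := by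
        rw [pow_add (1 / δ1) (C + d + 1) (2 * (C + 1)), pow_succ (L : ℝ) (d + 1)]
        field_simp
      rw [h1]
      refine div_le_div_of_nonneg_right ?_ (by positivity)
      calc 8 * (1 / δ1) ^ (C + d + 1 + 2 * (C + 1)) ≤ (1 / δ) ^ 4 * (1 / δ) ^ (4 * (C + d + 1 + 2 * (C + 1))) :=
            mul_le_mul (by linarith) (hinvpow _) (by positivity) (by positivity)
        _ = (1 / δ) ^ (4 + 4 * (C + d + 1 + 2 * (C + 1))) := by rw [← pow_add]
        _ ≤ _ := hmono _ _ (by omega)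

end Pool.Agent.HUP
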