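import Pool.Agent.Lib.HUP.W0
import Pool.Agent.Lib.HUK.D0
import Pool.Agent.Lib.HUK.E0

/-!
# Project HUP, W1 (helper37): translates along the values of a polynomial, one function
-/

open Finset

namespace Pool.Agent.HUP

open Pool.Agent.H44W (ee)
open Pool.Agent.Lib.H84V (nd nd_nonneg exists_nd)
open Pool.Agent.HUK

/-- The autocorrelation of a function supported in `[-Y, Y)`. -/
noncomputable def Ag (Y : ℕ) (g : ℤ → ℂ) (m : ℤ) : ℂ := ∑ y ∈ Ico (-(Y : ℤ)) Y, DD m g y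

theorem w1_zero {Y : ℕ} {g : ℤ → ℂ} (hg : Spt Y g) (m : ℤ) (hm : (2 * Y : ℤ) ≤ |m|) : Ag Y g m = 0 := by
  unfold Ag
  refine Finset.sum_eq_zero fun y hy => ?_
  rw [mem_Ico] at hy
  unfold DD
  rw [hg (y + m), map_zero, mul_zero]
  rw [mem_Ico]
  rcases abs_cases m with ⟨h, _⟩ | ⟨h, _⟩
  · omega
  · omega

/-- Inversion. -/
theorem w1_inv {Y : ℕ} {g : ℤ → ℂ} (hg : Spt Y g) (N : ℕ) (hN : 0 < N) (m : ℤ) (hm : (2 * Y : ℤ) + |m| ≤ N) :
    Ag Y g m = (1 / N : ℂ) * ∑ j ∈ range N,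
      ((‖∑ y ∈ Ico (-(Y : ℤ)) Y, g y * ee (-((j / N : ℝ) * y))‖ ^ 2 : ℝ) : ℂ) * ee (-((j / N : ℝ) * m)) := by
  have hNr : (N : ℝ) ≠ 0 := by exact_mod_cast hN.ne'
  have hNc : (N : ℂ) ≠ 0 := by exact_mod_cast hN.ne'
  have h1 : ∀ j ∈ range N, ((‖∑ y ∈ Ico (-(Y : ℤ)) Y, g y * ee (-((j / N : ℝ) * y))‖ ^ 2 : ℝ) : ℂ) * ee (-((j / N : ℝ) * m)) =
      ∑ a ∈ Ioo (-(2 * Y : ℤ)) (2 * Y), Ag Y g a * ee ((j : ℝ) * ((a - m : ℤ) : ℝ) / N) := by
    intro j _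
    rw [← d0_sq Y g hg (j / N), Finset.sum_mul]
    refine Finset.sum_congr rfl fun a _ => ?_
    rw [mul_right_comm, ← Pool.Agent.H44W.ee_add, mul_comm]
    unfold Ag
    congr 2
    push_cast
    field_simp
    ring
  rw [Finset.sum_congr rfl h1, Finset.sum_comm]
  have h2 : ∀ a ∈ Ioo (-(2 * Y : ℤ)) (2 * Y), ∑ j ∈ range N, Ag Y g a * ee ((j : ℝ) * ((a - m : ℤ) : ℝ) / N) =
      if a = m then (N : ℂ) * Ag Y g a else 0 := by
    intro a ha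
    rw [mem_Ioo] at ha
    rw [← Finset.mul_sum, Pool.Agent.H44W.ee_orth N hN (a - m)]
    by_cases ham : a = m
    · rw [if_pos ham, ham, sub_self, if_pos (dvd_zero _), mul_comm]
    · rw [if_neg ham, if_neg, mul_zero]
      intro hd
      have h3 := Int.le_of_dvd (a := (N : ℤ)) (b := |a - m|) (by
        rw [abs_pos]
        omega) ((dvd_abs _ _).2 hd)
      rcases abs_cases m with ⟨h, _⟩ | ⟨h, _⟩
      · rcases abs_cases (a - m) with ⟨h', _⟩ | ⟨h', _⟩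
        · omega
        · omega
      · rcases abs_cases (a - m) with ⟨h', _⟩ | ⟨h', _⟩
        · omega
        · omega
  rw [Finset.sum_congr rfl h2, Finset.sum_ite_eq']
  by_cases hmm : m ∈ Ioo (-(2 * Y : ℤ)) (2 * Y)
  · rw [if_pos hmm, ← mul_assoc, one_div_mul_cancel hNc, one_mul]
  · rw [if_neg hmm, mul_zero]
    refine w1_zero hg m ?_
    rw [mem_Ioo] at hmm
    rcases abs_cases m with ⟨h, _⟩ | ⟨h, _⟩
    · omega
    · omega

/-- The Fejer kernel. -/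
theorem w1_fejer (M : ℕ) (hM : 0 < M) (φ : ℝ) : ∑ t ∈ Ioo (-(M : ℤ)) M, ((fw M t : ℝ) : ℂ) * ee (-(φ * t)) =
    ((‖∑ j ∈ range M, ee (φ * j)‖ ^ 2 / M : ℝ) : ℂ) := by
  have hMc : (M : ℂ) ≠ 0 := by exact_mod_cast hM.ne'
  have h1 := e0_pairs M (fun t => ee (-(φ * t)))
  have h2 := e0_sq (range M) (fun j => ee (φ * j))
  have h3 : ∑ h ∈ range M, ∑ h' ∈ range M, ee (φ * h) * (starRingEnd ℂ) (ee (φ * h')) =
      ∑ h ∈ range M, ∑ h' ∈ range M, ee (-(φ * (((h' : ℤ) - h : ℤ) : ℝ))) := by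
    refine Finset.sum_congr rfl fun h _ => Finset.sum_congr rfl fun h' _ => ?_
    rw [← Pool.Agent.H44W.ee_neg, ← Pool.Agent.H44W.ee_add]
    congr 1
    push_cast
    ring
  rw [h3, h1] at h2
  push_cast at h2 ⊢
  rw [h2]
  field_simp

/-- The Fejer kernel is large near integers. -/
theorem w1_low (M : ℕ) (hM : 0 < M) (φ : ℝ) (hφ : nd φ ≤ 1 / (8 * M)) :
    1 ≤ 3 / M * (‖∑ j ∈ range M, ee (φ * j)‖ ^ 2 / M) := by
  have hMr : (0 : ℝ) < M := by exact_mod_cast hM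
  obtain ⟨m, hm⟩ := exists_nd φ
  obtain ⟨x, hx⟩ : ∃ x : ℝ, x = φ - m := ⟨_, rfl⟩
  rw [hm, ← hx] at hφ
  have h1 : ∀ j : ℕ, ee (φ * j) = ee (x * j) := by
    intro j
    have h2 : φ * j = x * j + ((m * j : ℤ) : ℝ) := by
      rw [hx]
      push_cast
      ring
    rw [h2, Pool.Agent.H44W.ee_add, Pool.Agent.H44W.ee_int, mul_one]
  have h3 : ∀ j ∈ range M, (0.68 : ℝ) ≤ (ee (φ * j)).re := by
    intro j hj
    rw [mem_range] at hj
    rw [h1]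
    have h4 : (ee (x * j)).re = Real.cos (2 * Real.pi * (x * j)) := by
      unfold ee
      have h5 : (2 * Real.pi * ((x * j : ℝ) : ℂ) * Complex.I : ℂ) = ((2 * Real.pi * (x * j) : ℝ) : ℂ) * Complex.I := by
        push_cast
        ring
      rw [h5, Complex.exp_ofReal_mul_I_re]
    rw [h4]
    refine le_trans ?_ (Real.one_sub_sq_div_two_le_cos)
    have h6 : |x * j| ≤ 1 / 8 := by
      rw [abs_mul, Nat.abs_cast]
      calc |x| * j ≤ 1 / (8 * M) * M := by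
            refine mul_le_mul hφ ?_ (by positivity) (by positivity)
            exact_mod_cast hj.le
        _ = 1 / 8 := by field_simp
    have h7 : (x * j) ^ 2 ≤ (1 / 8) ^ 2 := by
      rw [← sq_abs]
      exact pow_le_pow_left₀ (abs_nonneg _) h6 2
    have h8 : Real.pi ^ 2 ≤ 3.15 ^ 2 := pow_le_pow_left₀ Real.pi_pos.le Real.pi_lt_d2.le 2
    have h9 : (2 * Real.pi * (x * j)) ^ 2 = 4 * (Real.pi ^ 2 * (x * j) ^ 2) := by ring
    rw [h9]
    have h10 : Real.pi ^ 2 * (x * j) ^ 2 ≤ 3.15 ^ 2 * (1 / 8) ^ 2 :=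
      mul_le_mul h8 h7 (by positivity) (by positivity)
    norm_num at h10 ⊢
    linarith
  have h4 : 0.68 * (M : ℝ) ≤ ‖∑ j ∈ range M, ee (φ * j)‖ := by
    refine le_trans ?_ (Complex.re_le_norm _)
    rw [Complex.re_sum]
    refine le_trans (le_of_eq ?_) (Finset.card_nsmul_le_sum _ _ _ h3)
    rw [card_range, nsmul_eq_mul, mul_comm]
  have h5 : (0.68 * (M : ℝ)) ^ 2 ≤ ‖∑ j ∈ range M, ee (φ * j)‖ ^ 2 := pow_le_pow_left₀ (by positivity) h4 2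
  have h6 : 3 / (M : ℝ) * (‖∑ j ∈ range M, ee (φ * j)‖ ^ 2 / M) = 3 * ‖∑ j ∈ range M, ee (φ * j)‖ ^ 2 / (M : ℝ) ^ 2 := by
    field_simp
  rw [h6, le_div_iff₀ (by positivity)]
  nlinarith

end Pool.Agent.HUP
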