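import Pool.Agent.Lib.HUP.W1

/-!
# Project HUP, W2 (helper37): POLY1, sums of an autocorrelation along the differences of a polynomial
-/

open Finset

namespace Pool.Agent.HUP

open Pool.Agent.H44W (ee)
open Pool.Agent.Lib.H84V (nd nd_nonneg exists_nd)
open Pool.Agent.HUK

theorem w2_W (X : ℕ) (P : ℤ → ℤ) (θ : ℝ) :
    ∑ n ∈ range X, ∑ n' ∈ range X, ee (-(θ * ((P n' - P n : ℤ) : ℝ))) = ((‖∑ k ∈ range X, ee (θ * P k)‖ ^ 2 : ℝ) : ℂ) := by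
  have h2 := e0_sq (range X) (fun j => ee (θ * P j))
  rw [h2]
  refine Finset.sum_congr rfl fun h _ => Finset.sum_congr rfl fun h' _ => ?_
  rw [← Pool.Agent.H44W.ee_neg, ← Pool.Agent.H44W.ee_add]
  congr 1
  push_cast
  ring

/-- The pointwise bound for the square of a Weyl sum. -/
theorem w2_pt (d : ℕ) : ∃ C : ℕ, ∀ δ : ℝ, 0 < δ → δ ≤ 1 / 2 → ∀ X M : ℕ, (1 / δ) ^ C ≤ X → 0 < M →
    8 * (M : ℝ) * (1 / δ) ^ C ≤ (X : ℝ) ^ (d + 1) → ∀ (c : ℤ) (P : ℤ → ℤ), PF (d + 1) c P → ∀ θ : ℝ,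
    ‖∑ k ∈ range X, ee (θ * P k)‖ ^ 2 ≤ δ ^ 2 * X ^ 2 +
      X ^ 2 * ∑ q ∈ Icc 1 ⌊(1 / δ) ^ C⌋₊, 3 / M * (‖∑ j ∈ range M, ee (((q : ℝ) * c * θ) * j)‖ ^ 2 / M) := by
  obtain ⟨C, hC⟩ := weyl_inv d
  refine ⟨C, fun δ h0 h1 X M hX hM hMX c P hP θ => ?_⟩
  have hMr : (0 : ℝ) < M := by exact_mod_cast hM
  have hq0 : ∀ q ∈ Icc 1 ⌊(1 / δ) ^ C⌋₊, 0 ≤ 3 / (M : ℝ) * (‖∑ j ∈ range M, ee (((q : ℝ) * c * θ) * j)‖ ^ 2 / M) :=
    fun q _ => by positivity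
  by_cases hW : ‖∑ k ∈ range X, ee (θ * P k)‖ ≤ δ * X
  · have h2 : ‖∑ k ∈ range X, ee (θ * P k)‖ ^ 2 ≤ (δ * X) ^ 2 := pow_le_pow_left₀ (norm_nonneg _) hW 2
    have h3 : 0 ≤ (X : ℝ) ^ 2 * ∑ q ∈ Icc 1 ⌊(1 / δ) ^ C⌋₊, 3 / M * (‖∑ j ∈ range M, ee (((q : ℝ) * c * θ) * j)‖ ^ 2 / M) :=
      mul_nonneg (by positivity) (Finset.sum_nonneg hq0)
    rw [mul_pow] at h2
    linarith
  · push Not at hW
    obtain ⟨q, hq1, hq2, hq3⟩ := hC δ h0 h1 X hX c P θ hP hW.le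
    have hXp : (0 : ℝ) < X := lt_of_lt_of_le (by positivity) hX
    have h2 : ‖∑ k ∈ range X, ee (θ * P k)‖ ≤ X := by
      refine le_trans (norm_sum_le _ _) ?_
      refine le_trans (Finset.sum_le_card_nsmul _ _ 1 fun k _ => le_of_eq (Pool.Agent.H44W.norm_ee _)) ?_
      rw [card_range, nsmul_eq_mul, mul_one]
    have h3 : ‖∑ k ∈ range X, ee (θ * P k)‖ ^ 2 ≤ X ^ 2 := pow_le_pow_left₀ (norm_nonneg _) h2 2
    have h4 : (1 : ℝ) ≤ 3 / M * (‖∑ j ∈ range M, ee (((q : ℝ) * c * θ) * j)‖ ^ 2 / M) := by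
      refine w1_low M hM _ ?_
      rw [mul_assoc]
      refine le_trans hq3 ?_
      rw [div_le_div_iff₀ (by positivity) (by positivity)]
      linarith
    have h5 : (1 : ℝ) ≤ ∑ q ∈ Icc 1 ⌊(1 / δ) ^ C⌋₊, 3 / M * (‖∑ j ∈ range M, ee (((q : ℝ) * c * θ) * j)‖ ^ 2 / M) := by
      refine le_trans h4 ?_
      refine Finset.single_le_sum (f := fun q : ℕ => 3 / (M : ℝ) * (‖∑ j ∈ range M, ee (((q : ℝ) * c * θ) * j)‖ ^ 2 / M)) hq0 ?_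
      rw [mem_Icc]
      exact ⟨hq1, Nat.le_floor hq2⟩
    have h6 : (X : ℝ) ^ 2 * 1 ≤ (X : ℝ) ^ 2 * ∑ q ∈ Icc 1 ⌊(1 / δ) ^ C⌋₊, 3 / M * (‖∑ j ∈ range M, ee (((q : ℝ) * c * θ) * j)‖ ^ 2 / M) :=
      mul_le_mul_of_nonneg_left h5 (by positivity)
    have h7 : 0 ≤ δ ^ 2 * (X : ℝ) ^ 2 := by positivity
    linarith

/-- **POLY1.** -/
theorem poly1 (d : ℕ) : ∃ C : ℕ, ∀ δ : ℝ, 0 < δ → δ ≤ 1 / 2 → ∀ X M : ℕ, (1 / δ) ^ C ≤ X → 0 < M →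
    8 * (M : ℝ) * (1 / δ) ^ C ≤ (X : ℝ) ^ (d + 1) → ∀ (c : ℤ) (P : ℤ → ℤ), PF (d + 1) c P →
    ∀ (Y : ℕ) (g : ℤ → ℂ), Spt Y g →
    (∑ n ∈ range X, ∑ n' ∈ range X, Ag Y g (P n' - P n)).re ≤ δ ^ 2 * X ^ 2 * (Ag Y g 0).re +
      X ^ 2 * ∑ q ∈ Icc 1 ⌊(1 / δ) ^ C⌋₊, 3 / M * (∑ t ∈ Ioo (-(M : ℤ)) M, ((fw M t : ℝ) : ℂ) * Ag Y g (q * c * t)).re := by
  obtain ⟨C, hC⟩ := w2_pt d
  refine ⟨C, fun δ h0 h1 X M hX hM hMX c P hP Y g hg => ?_⟩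
  obtain ⟨Q, hQ⟩ : ∃ Q : ℕ, Q = ⌊(1 / δ) ^ C⌋₊ := ⟨_, rfl⟩
  have hpt := hC δ h0 h1 X M hX hM hMX c P hP
  rw [← hQ] at hpt ⊢
  obtain ⟨N, hN⟩ : ∃ N : ℕ, N = 2 * Y + ∑ n ∈ range X, ∑ n' ∈ range X, (P n' - P n).natAbs + Q * c.natAbs * M + 1 := ⟨_, rfl⟩
  have hN0 : 0 < N := by omega
  have hNr : (0 : ℝ) < N := by exact_mod_cast hN0
  obtain ⟨G, hG⟩ : ∃ G : ℕ → ℝ, ∀ j, G j = ‖∑ y ∈ Ico (-(Y : ℤ)) Y, g y * ee (-((j / N : ℝ) * y))‖ ^ 2 := ⟨_, fun _ => rfl⟩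
  have hG0 : ∀ j, 0 ≤ G j := fun j => by rw [hG]; positivity
  have hinv : ∀ m : ℤ, (2 * Y : ℤ) + |m| ≤ N → Ag Y g m = (1 / N : ℂ) * ∑ j ∈ range N, ((G j : ℝ) : ℂ) * ee (-((j / N : ℝ) * m)) := by
    intro m hm
    rw [w1_inv hg N hN0 m hm]
    simp only [hG]
  -- the left side
  have hL : ∑ n ∈ range X, ∑ n' ∈ range X, Ag Y g (P n' - P n) =
      (((1 / N : ℝ) * ∑ j ∈ range N, G j * ‖∑ k ∈ range X, ee ((j / N : ℝ) * P k)‖ ^ 2 : ℝ) : ℂ) := by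
    have e1 : ∀ n ∈ range X, ∀ n' ∈ range X, Ag Y g (P n' - P n) =
        (1 / N : ℂ) * ∑ j ∈ range N, ((G j : ℝ) : ℂ) * ee (-((j / N : ℝ) * ((P n' - P n : ℤ) : ℝ))) := by
      intro n hn n' hn'
      refine hinv _ ?_
      have e2 : (P n' - P n).natAbs ≤ ∑ n ∈ range X, ∑ n' ∈ range X, (P n' - P n).natAbs :=
        le_trans (Finset.single_le_sum (f := fun n' : ℕ => (P n' - P n).natAbs) (fun _ _ => Nat.zero_le _) hn')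
          (Finset.single_le_sum (f := fun n : ℕ => ∑ n' ∈ range X, (P n' - P n).natAbs) (fun _ _ => Nat.zero_le _) hn)
      have e3 : |P n' - P n| = ((P n' - P n).natAbs : ℤ) := Int.abs_eq_natAbs _
      rw [e3, hN]
      push_cast [e2]
      have e4 : (((P n' - P n).natAbs : ℕ) : ℤ) ≤ ((∑ n ∈ range X, ∑ n' ∈ range X, (P n' - P n).natAbs : ℕ) : ℤ) := by
        exact_mod_cast e2
      push_cast at e4
      have e5 : (0 : ℤ) ≤ Q * |c| * M := by positivity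
      linarith
    rw [Finset.sum_congr rfl fun n hn => Finset.sum_congr rfl fun n' hn' => e1 n hn n' hn']
    simp only [← Finset.mul_sum]
    have e2 : ∀ n ∈ range X, ∑ n' ∈ range X, ∑ j ∈ range N, ((G j : ℝ) : ℂ) * ee (-((j / N : ℝ) * ((P n' - P n : ℤ) : ℝ))) =
        ∑ j ∈ range N, ∑ n' ∈ range X, ((G j : ℝ) : ℂ) * ee (-((j / N : ℝ) * ((P n' - P n : ℤ) : ℝ))) :=
      fun n _ => Finset.sum_comm
    rw [Finset.sum_congr rfl e2, Finset.sum_comm]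
    push_cast
    congr 1
    refine Finset.sum_congr rfl fun j _ => ?_
    have e3 := w2_W X P (j / N)
    simp only [← Finset.mul_sum]
    push_cast at e3
    rw [e3]
  have hZ : Ag Y g 0 = (((1 / N : ℝ) * ∑ j ∈ range N, G j : ℝ) : ℂ) := by
    rw [hinv 0 (by rw [abs_zero, hN]; push_cast; have : (0 : ℤ) ≤ ∑ n ∈ range X, ∑ n' ∈ range X, |P n' - P n| := Finset.sum_nonneg fun _ _ => Finset.sum_nonneg fun _ _ => abs_nonneg _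
                   have e5 : (0 : ℤ) ≤ Q * |c| * M := by positivity
                   linarith)]
    push_cast
    simp [Pool.Agent.H44W.ee_zero]
  have hR : ∀ q ∈ Icc 1 Q, (∑ t ∈ Ioo (-(M : ℤ)) M, ((fw M t : ℝ) : ℂ) * Ag Y g (q * c * t)).re =
      (1 / N : ℝ) * ∑ j ∈ range N, G j * (‖∑ i ∈ range M, ee (((q : ℝ) * c * (j / N)) * i)‖ ^ 2 / M) := by
    intro q hq
    rw [mem_Icc] at hq
    have e1 : ∀ t ∈ Ioo (-(M : ℤ)) M, Ag Y g (q * c * t) =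
        (1 / N : ℂ) * ∑ j ∈ range N, ((G j : ℝ) : ℂ) * ee (-((j / N : ℝ) * ((q * c * t : ℤ) : ℝ))) := by
      intro t ht
      rw [mem_Ioo] at ht
      refine hinv _ ?_
      have e2 : |(q : ℤ) * c * t| ≤ Q * |c| * M := by
        rw [abs_mul, abs_mul, Nat.abs_cast]
        have e3 : |t| ≤ M := abs_le.2 ⟨by omega, by omega⟩
        have e4 : (q : ℤ) ≤ Q := by exact_mod_cast hq.2
        exact mul_le_mul (mul_le_mul_of_nonneg_right e4 (abs_nonneg _)) e3 (abs_nonneg _) (by positivity)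
      rw [hN]
      push_cast
      have : (0 : ℤ) ≤ ∑ n ∈ range X, ∑ n' ∈ range X, |P n' - P n| := Finset.sum_nonneg fun _ _ => Finset.sum_nonneg fun _ _ => abs_nonneg _
      linarith
    have e2 : ∑ t ∈ Ioo (-(M : ℤ)) M, ((fw M t : ℝ) : ℂ) * Ag Y g (q * c * t) =
        (((1 / N : ℝ) * ∑ j ∈ range N, G j * (‖∑ i ∈ range M, ee (((q : ℝ) * c * (j / N)) * i)‖ ^ 2 / M) : ℝ) : ℂ) := by
      rw [Finset.sum_congr rfl fun t ht => by rw [e1 t ht]]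
      have e3 : ∀ t ∈ Ioo (-(M : ℤ)) M, ((fw M t : ℝ) : ℂ) * ((1 / N : ℂ) * ∑ j ∈ range N, ((G j : ℝ) : ℂ) * ee (-((j / N : ℝ) * ((q * c * t : ℤ) : ℝ)))) =
          (1 / N : ℂ) * ∑ j ∈ range N, ((G j : ℝ) : ℂ) * (((fw M t : ℝ) : ℂ) * ee (-(((q : ℝ) * c * (j / N)) * t))) := by
        intro t _
        rw [mul_left_comm, Finset.mul_sum]
        congr 1
        refine Finset.sum_congr rfl fun j _ => ?_
        rw [mul_left_comm]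
        congr 3
        push_cast
        ring
      rw [Finset.sum_congr rfl e3, ← Finset.mul_sum, Finset.sum_comm]
      push_cast
      congr 1
      refine Finset.sum_congr rfl fun j _ => ?_
      rw [← Finset.mul_sum, w1_fejer M hM]
      push_cast
      rfl
    rw [e2, Complex.ofReal_re]
  have hR2 : ∑ q ∈ Icc 1 Q, 3 / (M : ℝ) * (∑ t ∈ Ioo (-(M : ℤ)) M, ((fw M t : ℝ) : ℂ) * Ag Y g (q * c * t)).re =
      ∑ q ∈ Icc 1 Q, 3 / (M : ℝ) * ((1 / N : ℝ) * ∑ j ∈ range N, G j * (‖∑ i ∈ range M, ee (((q : ℝ) * c * (j / N)) * i)‖ ^ 2 / M)) :=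
    Finset.sum_congr rfl fun q hq => by rw [hR q hq]
  rw [hL, hZ, hR2, Complex.ofReal_re, Complex.ofReal_re]
  have h2 : (1 / N : ℝ) * ∑ j ∈ range N, G j * ‖∑ k ∈ range X, ee ((j / N : ℝ) * P k)‖ ^ 2 ≤
      (1 / N : ℝ) * ∑ j ∈ range N, G j * (δ ^ 2 * X ^ 2 +
      X ^ 2 * ∑ q ∈ Icc 1 Q, 3 / M * (‖∑ i ∈ range M, ee (((q : ℝ) * c * (j / N)) * i)‖ ^ 2 / M)) := by
    refine mul_le_mul_of_nonneg_left (Finset.sum_le_sum fun j _ => mul_le_mul_of_nonneg_left (hpt _) (hG0 j)) (by positivity)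
  refine le_trans h2 (le_of_eq ?_)
  simp only [mul_add, Finset.sum_add_distrib]
  congr 1
  · rw [← Finset.sum_mul]
    ring
  · simp only [Finset.mul_sum]
    rw [Finset.sum_comm]
    refine Finset.sum_congr rfl fun q _ => Finset.sum_congr rfl fun j _ => ?_
    ring

end Pool.Agent.HUP
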