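import Pool.Agent.Lib.HUP.W2

/-!
# Project HUP, W3 (helper37): POLY2, Gowers norms of the differences along a polynomial
-/

open Finset

namespace Pool.Agent.HUP

open Pool.Agent.H44W (ee)
open Pool.Agent.Lib.H84V (nd nd_nonneg exists_nd)
open Pool.Agent.HUK

theorem w3_GG (Y r : ℕ) (f : ℤ → ℂ) (m : ℤ) :
    GG Y r (DD m f) = ∑ h ∈ bxS r (2 * Y), (Ag Y (DV h f) m).re := by
  unfold GG
  rw [Complex.re_sum]
  refine Finset.sum_congr rfl fun h _ => ?_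
  unfold FF Ag DV
  rw [D0_DLDD]

theorem w3_zero {Y r : ℕ} {f : ℤ → ℂ} (hf : Spt Y f) (m : ℤ) (hm : (2 * Y : ℤ) ≤ |m|) : GG Y r (DD m f) = 0 := by
  rw [w3_GG]
  refine Finset.sum_eq_zero fun h _ => ?_
  rw [w1_zero (D0_SDV hf h) m hm, Complex.zero_re]

theorem w3_DL (l : List ℤ) (f : ℤ → ℂ) (B : ℝ) (hf : ∀ y, ‖f y‖ ≤ B) (y : ℤ) : ‖DL l f y‖ ≤ B ^ 2 ^ l.length := by
  induction l generalizing f B with
  | nil =>
    simp only [List.length_nil, pow_zero, pow_one]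
    exact hf y
  | cons a l ih =>
    have h0 : 0 ≤ B := le_trans (norm_nonneg _) (hf y)
    have h1 := ih (DD a f) (B ^ 2) fun z => by
      unfold DD
      rw [norm_mul, RCLike.norm_conj, pow_two]
      exact mul_le_mul (hf z) (hf _) (norm_nonneg _) h0
    refine le_trans h1 (le_of_eq ?_)
    rw [List.length_cons, ← pow_mul, pow_succ]
    ring_nf

theorem w3_DV {r : ℕ} (h : Fin r → ℤ) (f : ℤ → ℂ) (B : ℝ) (hf : ∀ y, ‖f y‖ ≤ B) (y : ℤ) : ‖DV h f y‖ ≤ B ^ 2 ^ r := by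
  have h1 := w3_DL (List.ofFn h) f B hf y
  rw [List.length_ofFn] at h1
  exact h1

theorem w3_card (r Y : ℕ) : (((bxS r (2 * Y)).card : ℕ) : ℝ) ≤ (4 * (Y : ℝ)) ^ r := by
  unfold bxS
  rw [Fintype.card_piFinset]
  push_cast
  rw [Finset.prod_const, Finset.card_univ, Fintype.card_fin]
  refine pow_le_pow_left₀ (by positivity) ?_ r
  have h1 : (Ioo (-(2 * Y : ℤ)) (2 * Y)).card ≤ 4 * Y := by
    rw [Int.card_Ioo]
    omega
  exact_mod_cast h1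

theorem w3_diag {Y : ℕ} (r : ℕ) (f : ℤ → ℂ) (B : ℝ) (hf : ∀ y, ‖f y‖ ≤ B) :
    GG Y r (DD 0 f) ≤ (4 * (Y : ℝ)) ^ r * (2 * Y) * B ^ 2 ^ (r + 1) := by
  rw [w3_GG]
  have h0 : 0 ≤ B := le_trans (norm_nonneg _) (hf 0)
  have h1 : ∀ h ∈ bxS r (2 * Y), (Ag Y (DV h f) 0).re ≤ 2 * Y * B ^ 2 ^ (r + 1) := by
    intro h _
    refine le_trans (Complex.re_le_norm _) ?_
    unfold Ag
    refine le_trans (norm_sum_le _ _) ?_
    refine le_trans (Finset.sum_le_card_nsmul _ _ (B ^ 2 ^ (r + 1)) fun y _ => ?_) (le_of_eq ?_)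
    · unfold DD
      rw [norm_mul, RCLike.norm_conj]
      refine le_trans (mul_le_mul (w3_DV h f B hf y) (w3_DV h f B hf _) (norm_nonneg _) (by positivity)) (le_of_eq ?_)
      rw [← pow_add, pow_succ]
      ring_nf
    · rw [Int.card_Ico, nsmul_eq_mul]
      have h2 : ((Y : ℤ) - -(Y : ℤ)).toNat = 2 * Y := by omega
      rw [h2]
      push_cast
      ring
  refine le_trans (Finset.sum_le_card_nsmul _ _ _ h1) ?_
  rw [nsmul_eq_mul, mul_assoc ((4 * (Y : ℝ)) ^ r)]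
  exact mul_le_mul_of_nonneg_right (w3_card r Y) (by positivity)

theorem w3_fw_le {M : ℕ} (t : ℤ) : fw M t ≤ 1 := by
  unfold fw
  have : 0 ≤ |(t : ℝ)| / M := by positivity
  exact max_le zero_le_one (by linarith)

theorem w3_fw_nn {M : ℕ} (t : ℤ) : 0 ≤ fw M t := by
  unfold fw
  exact le_max_left _ _

/-- Fejer sums over multiples. -/
theorem w3_fej {Y r : ℕ} {f : ℤ → ℂ} (hf : Spt Y f) (hr : 1 ≤ r) (M : ℕ) (b : ℤ) (hb : b ≠ 0) :
    ∑ t ∈ Ioo (-(M : ℤ)) M, fw M t * GG Y r (DD (b * t) f) ≤ GG Y (r + 1) f := by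
  have hn : ∀ a : ℤ, 0 ≤ GG Y r (DD a f) := fun a => D0_nn (D0_SDD hf a) hr
  have h1 : ∑ t ∈ Ioo (-(M : ℤ)) M, fw M t * GG Y r (DD (b * t) f) ≤ ∑ t ∈ Ioo (-(M : ℤ)) M, GG Y r (DD (b * t) f) := by
    refine Finset.sum_le_sum fun t _ => ?_
    have h2 := w3_fw_le (M := M) t
    have h3 := hn (b * t)
    nlinarith
  refine le_trans h1 ?_
  rw [D0_succ]
  have h2 : ∑ t ∈ Ioo (-(M : ℤ)) M, GG Y r (DD (b * t) f) =
      ∑ a ∈ (Ioo (-(M : ℤ)) M).image (fun t => b * t), GG Y r (DD a f) := by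
    rw [Finset.sum_image]
    intro x _ y _ hxy
    exact mul_left_cancel₀ hb hxy
  rw [h2]
  have h3 : ∑ a ∈ (Ioo (-(M : ℤ)) M).image (fun t => b * t), GG Y r (DD a f) =
      ∑ a ∈ ((Ioo (-(M : ℤ)) M).image (fun t => b * t)).filter (fun a => a ∈ Ioo (-(2 * Y : ℤ)) (2 * Y)), GG Y r (DD a f) := by
    symm
    refine Finset.sum_subset (Finset.filter_subset _ _) fun a ha ha' => ?_
    rw [mem_filter, not_and, mem_Ioo] at ha'
    have h4 := ha' ha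
    refine w3_zero hf a ?_
    rcases abs_cases a with ⟨h, _⟩ | ⟨h, _⟩
    · omega
    · omega
  rw [h3]
  refine Finset.sum_le_sum_of_subset_of_nonneg (fun a ha => (mem_filter.1 ha).2) fun a _ _ => hn a

/-- **POLY2.** -/
theorem poly2 (d : ℕ) : ∃ C : ℕ, ∀ δ : ℝ, 0 < δ → δ ≤ 1 / 2 → ∀ X M : ℕ, (1 / δ) ^ C ≤ X → 0 < M →
    8 * (M : ℝ) * (1 / δ) ^ C ≤ (X : ℝ) ^ (d + 1) → ∀ (c : ℤ) (P : ℤ → ℤ), c ≠ 0 → PF (d + 1) c P →
    ∀ (Y : ℕ) (f : ℤ → ℂ), Spt Y f → ∀ B : ℝ, (∀ y, ‖f y‖ ≤ B) → ∀ r : ℕ, 1 ≤ r →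
    ∑ n ∈ range X, ∑ n' ∈ range X, GG Y r (DD (P n' - P n) f) ≤
      δ ^ 2 * X ^ 2 * ((4 * (Y : ℝ)) ^ r * (2 * Y) * B ^ 2 ^ (r + 1)) +
      X ^ 2 * ((1 / δ) ^ C * (3 / M) * GG Y (r + 1) f) := by
  obtain ⟨C, hC⟩ := poly1 d
  refine ⟨C, fun δ h0 h1 X M hX hM hMX c P hc hP Y f hf B hB r hr => ?_⟩
  have hG1 : 0 ≤ GG Y (r + 1) f := D0_nn hf (by omega)
  have e1 : ∑ n ∈ range X, ∑ n' ∈ range X, GG Y r (DD (P n' - P n) f) =
      ∑ h ∈ bxS r (2 * Y), (∑ n ∈ range X, ∑ n' ∈ range X, Ag Y (DV h f) (P n' - P n)).re := by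
    simp only [w3_GG, Complex.re_sum]
    rw [Finset.sum_comm]
    symm
    rw [Finset.sum_comm]
    refine (Finset.sum_congr rfl fun n _ => Finset.sum_comm).trans ?_
    rw [Finset.sum_comm]
  have e2 : ∑ h ∈ bxS r (2 * Y), (Ag Y (DV h f) 0).re = GG Y r (DD 0 f) := (w3_GG Y r f 0).symm
  have e3 : ∀ q : ℕ, ∑ h ∈ bxS r (2 * Y), (∑ t ∈ Ioo (-(M : ℤ)) M, ((fw M t : ℝ) : ℂ) * Ag Y (DV h f) (q * c * t)).re =
      ∑ t ∈ Ioo (-(M : ℤ)) M, fw M t * GG Y r (DD (q * c * t) f) := by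
    intro q
    simp only [w3_GG, Complex.re_sum, Complex.re_ofReal_mul]
    rw [Finset.sum_comm]
    refine Finset.sum_congr rfl fun t _ => ?_
    rw [Finset.mul_sum]
  rw [e1]
  refine le_trans (Finset.sum_le_sum fun h _ => hC δ h0 h1 X M hX hM hMX c P hP Y (DV h f) (D0_SDV hf h)) ?_
  rw [Finset.sum_add_distrib, ← Finset.mul_sum, ← Finset.mul_sum, e2, Finset.sum_comm]
  refine add_le_add (mul_le_mul_of_nonneg_left (w3_diag r f B hB) (by positivity)) ?_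
  refine mul_le_mul_of_nonneg_left ?_ (by positivity)
  have e4 : ∀ q ∈ Icc 1 ⌊(1 / δ) ^ C⌋₊, ∑ h ∈ bxS r (2 * Y), 3 / (M : ℝ) *
      (∑ t ∈ Ioo (-(M : ℤ)) M, ((fw M t : ℝ) : ℂ) * Ag Y (DV h f) (q * c * t)).re ≤ 3 / M * GG Y (r + 1) f := by
    intro q hq
    rw [mem_Icc] at hq
    rw [← Finset.mul_sum, e3]
    refine mul_le_mul_of_nonneg_left ?_ (by positivity)
    refine w3_fej hf hr M _ (mul_ne_zero ?_ hc)
    exact_mod_cast (by omega : q ≠ 0)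
  refine le_trans (Finset.sum_le_card_nsmul _ _ _ e4) ?_
  rw [Nat.card_Icc, nsmul_eq_mul, mul_assoc]
  refine mul_le_mul_of_nonneg_right ?_ (by positivity)
  rw [Nat.add_sub_cancel]
  exact Nat.floor_le (by positivity)

end Pool.Agent.HUP
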