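import Pool.Agent.Lib.HUP.W3

/-!
# Project HUP, W4 (helper37): POLY2 in the form used by `P3_main`; windows, translations; polynomials are `PF`
-/

open Finset

namespace Pool.Agent.HUP

open Pool.Agent.H44W (ee)
open Pool.Agent.Lib.H84V (nd nd_nonneg exists_nd)
open Pool.Agent.HUK

/-! ### Windows and translations -/

theorem w4_sum {Y Y' : ℕ} {f : ℤ → ℂ} (a : ℤ) (h : Spt Y f) (h' : Spt Y' (fun y => f (y + a))) :
    ∑ y ∈ Ico (-(Y : ℤ)) Y, f y = ∑ y ∈ Ico (-(Y' : ℤ)) Y', f (y + a) := by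
  have h1 : ∑' y, f y = ∑ y ∈ Ico (-(Y : ℤ)) Y, f y := tsum_eq_sum fun y hy => h y hy
  have h2 : ∑' y, f (y + a) = ∑ y ∈ Ico (-(Y' : ℤ)) Y', f (y + a) := tsum_eq_sum fun y hy => h' y hy
  rw [← h1, ← h2]
  exact ((Equiv.addRight a).tsum_eq f).symm

theorem w4_DD (a b : ℤ) (f : ℤ → ℂ) : DD b (fun y => f (y + a)) = fun y => DD b f (y + a) := by
  funext y
  unfold DD
  rw [add_right_comm]

theorem w4_DL (a : ℤ) (l : List ℤ) (f : ℤ → ℂ) : DL l (fun y => f (y + a)) = fun y => DL l f (y + a) := by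
  induction l generalizing f with
  | nil => rfl
  | cons b l ih =>
    change DL l (DD b (fun y => f (y + a))) = fun y => DL l (DD b f) (y + a)
    rw [w4_DD]
    exact ih (DD b f)

theorem w4_DV (a : ℤ) {r : ℕ} (h : Fin r → ℤ) (f : ℤ → ℂ) : DV h (fun y => f (y + a)) = fun y => DV h f (y + a) :=
  w4_DL a _ f

/-- Gowers sums depend neither on the window nor on translations. -/
theorem w4_GG (s : ℕ) : ∀ (Y Y' : ℕ) (f : ℤ → ℂ) (a : ℤ), Spt Y f → Spt Y' (fun y => f (y + a)) →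
    GG Y s f = GG Y' s (fun y => f (y + a)) := by
  induction s with
  | zero =>
    intro Y Y' f a h h'
    have h0 : ∀ (N : ℕ), bxS 0 N = {fun i => Fin.elim0 i} := by
      intro N
      unfold bxS
      ext x
      rw [Fintype.mem_piFinset, mem_singleton]
      exact ⟨fun _ => funext fun i => Fin.elim0 i, fun _ i => Fin.elim0 i⟩
    unfold GG
    rw [h0, h0, sum_singleton, sum_singleton]
    congr 1
    unfold FF DV
    simp only [List.ofFn_zero]
    exact w4_sum a h h'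
  | succ s ih =>
    intro Y Y' f a h h'
    rw [D0_succ, D0_succ]
    have e1 : ∀ b : ℤ, GG Y s (DD b f) = GG Y' s (DD b (fun y => f (y + a))) := by
      intro b
      rw [w4_DD]
      refine ih Y Y' (DD b f) a (D0_SDD h b) ?_
      have h2 := D0_SDD h' b
      rw [w4_DD] at h2
      exact h2
    have e2 : ∀ (Z : ℕ) (g : ℤ → ℂ), Spt Z g → ∀ R : ℕ, Z ≤ R → ∑ b ∈ Ioo (-(2 * Z : ℤ)) (2 * Z), GG Z s (DD b g) =
        ∑ b ∈ Ioo (-(2 * R : ℤ)) (2 * R), GG Z s (DD b g) := by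
      intro Z g hg R hR
      refine Finset.sum_subset ?_ fun b _ hb => ?_
      · intro b hb
        rw [mem_Ioo] at hb ⊢
        omega
      · rw [mem_Ioo] at hb
        refine w3_zero hg b ?_
        rcases abs_cases b with ⟨h, _⟩ | ⟨h, _⟩
        · omega
        · omega
    rw [e2 Y f h (Y + Y') (by omega), e2 Y' _ h' (Y + Y') (by omega)]
    exact Finset.sum_congr rfl fun b _ => e1 b

/-! ### Polynomials -/

theorem pf_up (d : ℕ) : ∀ (c : ℤ) (P : ℤ → ℤ), PF d c P → PF (d + 1) 0 P := by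
  induction d with
  | zero =>
    intro c P h t k
    change P (k + t) - P k = _
    rw [h, h]
    ring
  | succ d ih =>
    intro c P h t
    have h1 := ih _ _ (h t)
    refine pf_congr ?_ (fun _ => rfl) h1
    ring

theorem pf_up' (d m : ℕ) (P : ℤ → ℤ) (c : ℤ) (h : PF d c P) (hm : d < m) : PF m 0 P := by
  induction m, hm using Nat.le_induction with
  | base => exact pf_up d c P h
  | succ m _ ih => exact pf_up m 0 P ih

theorem pf_mono (i : ℕ) : PF i 1 (fun k => k ^ i) := by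
  induction i with
  | zero =>
    intro k
    exact pow_zero k
  | succ i ih =>
    have h1 := pf_mul (i + 1) i 1 rfl 1 1 _ _ ih (pf_lin 0 1)
    exact pf_congr (by ring) (fun k => by ring) h1

theorem pf_sum (n : ℕ) (s : Finset ℕ) (c : ℕ → ℤ) (P : ℕ → ℤ → ℤ) (h : ∀ i ∈ s, PF n (c i) (P i)) :
    PF n (∑ i ∈ s, c i) (fun k => ∑ i ∈ s, P i k) := by
  classical
  induction s using Finset.induction_on with
  | empty =>
    simp only [Finset.sum_empty]
    clear h
    have : ∀ n : ℕ, PF n 0 (fun _ => (0 : ℤ)) := by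
      intro n
      induction n with
      | zero => exact fun _ => rfl
      | succ n ih => exact pf_up n 0 _ ih
    exact this n
  | insert a s ha ih =>
    simp only [Finset.sum_insert ha]
    exact pf_add n _ _ _ _ (h a (Finset.mem_insert_self _ _)) (ih fun i hi => h i (Finset.mem_insert_of_mem hi))

/-- Polynomials are `PF`. -/
theorem pf_poly (P : Polynomial ℤ) : PF P.natDegree P.leadingCoeff (fun k => P.eval k) := by
  have h1 := pf_sum P.natDegree (range (P.natDegree + 1)) (fun i => if i = P.natDegree then P.coeff i else 0)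
    (fun i k => P.coeff i * k ^ i) ?_
  · refine pf_congr ?_ (fun k => ?_) h1
    · rw [Finset.sum_ite_eq', if_pos (by rw [mem_range]; omega)]
      rfl
    · exact (Polynomial.eval_eq_sum_range k).symm
  · intro i hi
    rw [mem_range] at hi
    by_cases h : i = P.natDegree
    · rw [if_pos h]
      subst h
      exact pf_congr (mul_one _) (fun _ => rfl) (pf_smul _ _ _ _ (pf_mono P.natDegree))
    · rw [if_neg h]
      exact pf_up' i P.natDegree _ _ (pf_smul _ _ _ _ (pf_mono i)) (by omega)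

/-- With a translation of the variable. -/
theorem pf_poly_shift (P : Polynomial ℤ) (a : ℤ) : PF P.natDegree P.leadingCoeff (fun k => P.eval (k + a)) :=
  pf_shift _ a _ _ (pf_poly P)

/-! ### The double sum of `P3_main` -/

theorem w4_sq {Y : ℕ} (X : ℕ) (P : ℤ → ℤ) (g : ℤ → ℂ) (hX : 1 ≤ X)
    (hg : ∀ n ∈ range X, ∀ y, y ∉ Ico (-(Y : ℤ)) Y → g (y + P n) = 0) :
    ∑ y ∈ Ico (-(Y : ℤ)) Y, ‖∑ n ∈ range X, g (y + P n)‖ ^ 2 =
      (∑ n ∈ range X, ∑ n' ∈ range X, Ag Y (fun y => g (y + P 0)) (P n' - P n)).re := by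
  have e1 : ∀ n ∈ range X, ∀ n' ∈ range X, Ag Y (fun y => g (y + P 0)) (P n' - P n) =
      ∑ y ∈ Ico (-(Y : ℤ)) Y, g (y + P n) * (starRingEnd ℂ) (g (y + P n')) := by
    intro n hn n' _
    have h1 : Spt Y (fun y => DD (P n' - P n) g (y + P 0)) := by
      intro y hy
      show g (y + P 0) * (starRingEnd ℂ) (g (y + P 0 + (P n' - P n))) = 0
      rw [show g (y + P 0) = 0 from hg 0 (by rw [mem_range]; omega) y hy, zero_mul]
    have h2 : Spt Y (fun y => (fun y => DD (P n' - P n) g (y + P 0)) (y + (P n - P 0))) := by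
      intro y hy
      have h3 : g (y + (P n - P 0) + P 0) = 0 := by
        rw [show y + (P n - P 0) + P 0 = y + P n by ring]
        exact hg n hn y hy
      show DD (P n' - P n) g (y + (P n - P 0) + P 0) = 0
      unfold DD
      rw [h3, zero_mul]
    have h3 := w4_sum (P n - P 0) h1 h2
    unfold Ag
    rw [w4_DD]
    rw [h3]
    refine Finset.sum_congr rfl fun y _ => ?_
    unfold DD
    congr 2
    · ring
    · congr 1
      ring
  rw [Finset.sum_congr rfl fun n hn => Finset.sum_congr rfl fun n' hn' => e1 n hn n' hn']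
  have e2 : ∀ y ∈ Ico (-(Y : ℤ)) Y, ‖∑ n ∈ range X, g (y + P n)‖ ^ 2 =
      (∑ n ∈ range X, ∑ n' ∈ range X, g (y + P n) * (starRingEnd ℂ) (g (y + P n'))).re := by
    intro y _
    rw [← e0_sq (range X) (fun n => g (y + P n)), Complex.ofReal_re]
  rw [Finset.sum_congr rfl e2, ← Complex.re_sum]
  congr 1
  rw [Finset.sum_comm]
  refine Finset.sum_congr rfl fun n _ => Finset.sum_comm

/-- **POLY2, in the form needed for `P3_main`.** -/
theorem poly2_main (d r : ℕ) (hr : 1 ≤ r) : ∃ C : ℕ, ∀ δ : ℝ, 0 < δ → δ ≤ 1 / 2 → ∀ X M : ℕ, (1 / δ) ^ C ≤ X → 0 < M →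
    8 * (M : ℝ) * (1 / δ) ^ C ≤ (X : ℝ) ^ (d + 1) → ∀ (c : ℤ) (P : ℤ → ℤ), c ≠ 0 → PF (d + 1) c P →
    ∀ (Y Y0 : ℕ) (F : ℤ → ℂ), Spt Y0 F → ∀ B : ℝ, (∀ y, ‖F y‖ ≤ B) →
    (∀ n ∈ range X, ∀ y, y ∉ Ico (-(Y : ℤ)) Y → F (y + P n) = 0) →
    ∑ h ∈ bxS r (2 * Y), ∑ y ∈ Ico (-(Y : ℤ)) Y, ‖∑ n ∈ range X, DV h F (y + P n)‖ ^ 2 ≤
      δ ^ 2 * X ^ 2 * ((4 * (Y : ℝ)) ^ r * (2 * Y) * B ^ 2 ^ (r + 1)) +
      X ^ 2 * ((1 / δ) ^ C * (3 / M) * GG Y0 (r + 1) F) := by
  obtain ⟨C, hC⟩ := poly2 d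
  refine ⟨C, fun δ h0 h1 X M hX hM hMX c P hc hP Y Y0 F hF B hB hsupp => ?_⟩
  have hX1 : 1 ≤ X := by
    have h2 : (0 : ℝ) < X := lt_of_lt_of_le (by positivity) hX
    exact_mod_cast h2
  have hF' : Spt Y (fun y => F (y + P 0)) := hsupp 0 (by rw [mem_range]; omega)
  have h2 := hC δ h0 h1 X M hX hM hMX c P hc hP Y (fun y => F (y + P 0)) hF' B (fun y => hB _) r hr
  rw [← w4_GG (r + 1) Y0 Y F (P 0) hF hF'] at h2
  refine le_trans (le_of_eq ?_) h2
  have e1 : ∀ h ∈ bxS r (2 * Y), ∑ y ∈ Ico (-(Y : ℤ)) Y, ‖∑ n ∈ range X, DV h F (y + P n)‖ ^ 2 =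
      (∑ n ∈ range X, ∑ n' ∈ range X, Ag Y (DV h (fun y => F (y + P 0))) (P n' - P n)).re := by
    intro h _
    rw [w4_DV]
    refine w4_sq X P (DV h F) hX1 fun n hn y hy => ?_
    exact D0_DLz _ _ _ (hsupp n hn y hy)
  rw [Finset.sum_congr rfl e1]
  simp only [w3_GG, Complex.re_sum]
  rw [Finset.sum_comm]
  refine Finset.sum_congr rfl fun n _ => Finset.sum_comm

end Pool.Agent.HUP
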