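import Pool.Agent.Lib.HUP.Z0

/-!
# Projects HUP and HPC, module Z (the final theorems), Z1: G linear
-/

open Finset Polynomial Filter Topology

namespace Pool.Agent.HUP

open Pool.Agent.Lib.H24P
open Pool.Agent.Lib.H59 (argSet argCount Admissible primeCount argSet_eq argCount_tendsto)

/-- **Z1** (port of `F_fix`, H24P/FC.lean). Proof. As there with `Z0_box` (constant `max A …`: `BoxT` is monotone in `A`); for `t` with nonnegative
constant terms `famT = famP P (hh …)` (`famT_eval`), `fb_a`, `fb_cnt_a`. -/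
theorem T_fix (hC : CoreAll) {g d : ℕ} (G : ℤ[X]) (hG : G.natDegree = 1) (hl : 0 < G.leadingCoeff)
    (P : Fin g → ℤ[X]) (c : Fin g → Fin d → ℤ) (e : Fin d → ℕ)
    (hD : Dat c e (fun i => (P i).natDegree) (fun i => (P i).leadingCoeff)) (A : ℕ) (ε : ℝ) (hε : 0 < ε) :
    open Classical in ∃ η : ℝ, 0 < η ∧ ∃ N₀ : ℕ, ∀ N : ℕ, N₀ ≤ N → ∀ b : Fin g → ℤ,
      (∀ i, |b i| ≤ A * (argCount G N : ℤ) ^ (P i).natDegree) →
      (((BoxT A (argCount G N) e).filter fun t => (∀ i, 0 ≤ b i + lf c t i) ∧ Admissible (famT P c b t) G N ∧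
        ((primeCount (famT P c b t) G N : ℕ) : ℝ) < (argCount G N : ℝ) ^ (1 - ε)).card : ℝ) ≤
          (argCount G N : ℝ) ^ ((∑ j, (e j : ℝ)) - η) := by
  classical
  set A' : ℕ := A + (G.leadingCoeff.natAbs + 4) with hA'
  have hAA : A ≤ A' := Nat.le_add_right _ _
  obtain ⟨η, hη, Z0, hZ0⟩ := Z0_box hC c e P hD A' ε hε
  have h1 := FA_fix G hG hl A' (by omega) ε
  have h2 := argSet_eq (G := G) (by omega) hl
  have h3 := argCount_tendsto (G := G) (by omega) hl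
  obtain ⟨N₀, hN₀⟩ := eventually_atTop.1 (h1.and (h2.and (h3.eventually_ge_atTop Z0)))
  refine ⟨η, hη, N₀, fun N hN b hb => ?_⟩
  obtain ⟨hok, hset, hZ⟩ := hN₀ N hN
  have hb' : ∀ i, |b i| ≤ A' * (argCount G N : ℤ) ^ (P i).natDegree := fun i =>
    (hb i).trans (mul_le_mul_of_nonneg_right (by exact_mod_cast hAA) (by positivity))
  refine (Nat.cast_le.2 (card_le_card ?_)).trans (hZ0 _ hZ _ hok b hb')
  intro t ht
  obtain ⟨ht1, ht2, ht3, ht4⟩ := mem_filter.1 ht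
  rw [famT_eval P c b t ht2] at ht3 ht4
  refine mem_filter.2 ⟨?_, ht2, fb_a ht3, ?_⟩
  · unfold BoxT at ht1 ⊢
    rw [Fintype.mem_piFinset] at ht1 ⊢
    intro j
    have h4 := mem_Icc.1 (ht1 j)
    have h5 : ((A * argCount G N ^ e j : ℕ) : ℤ) ≤ ((A' * argCount G N ^ e j : ℕ) : ℤ) :=
      Int.ofNat_le.2 (Nat.mul_le_mul_right _ hAA)
    exact mem_Icc.2 ⟨by linarith [h4.1], by linarith [h4.2]⟩
  · rw [fb_cnt_a hset]
    exact ht4

end Pool.Agent.HUP
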